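import Pool.Agent.Helper22.FC.Base

namespace Pool.Agent.Helper22.FC

open Complex

noncomputable section

/-- `k` consecutive values of `f` from `a` on -/
def seg {α : Type*} (f : ℕ → α) (a k : ℕ) : List α := (List.range k).map (fun m => f (a + m))

lemma seg_append {α : Type*} (f : ℕ → α) (a k l : ℕ) :
    seg f a (k + l) = seg f a k ++ seg f (a + k) l := by
  unfold seg
  rw [List.range_add, List.map_append, List.map_map]
  congr 1
  apply List.map_congr_left
  intro m _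
  simp [add_assoc]

lemma seg_one {α : Type*} (f : ℕ → α) (a : ℕ) : seg f a 1 = [f a] := by
  simp [seg]

lemma seg_length {α : Type*} (f : ℕ → α) (a k : ℕ) : (seg f a k).length = k := by
  simp [seg]

lemma seg_rotate_one {α : Type*} (f : ℕ → α) {n : ℕ} (hn : 1 ≤ n) (hf : ∀ i, f (i + n) = f i)
    (a : ℕ) : (seg f a n).rotate 1 = seg f (a + 1) n := by
  obtain ⟨m, rfl⟩ : ∃ m, n = 1 + m := ⟨n - 1, by omega⟩
  have h1 : (seg f a (1 + m)) = [f a] ++ seg f (a + 1) m := by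
    rw [seg_append, seg_one]
  have h2 : seg f (a + 1) (1 + m) = seg f (a + 1) m ++ [f a] := by
    rw [add_comm 1 m, seg_append, seg_one]
    rw [show a + 1 + m = a + (1 + m) by ring, hf]
  rw [h1, h2]
  have := List.rotate_append_length_eq [f a] (seg f (a + 1) m)
  simpa using this

lemma seg_rotate {α : Type*} (f : ℕ → α) {n : ℕ} (hn : 1 ≤ n) (hf : ∀ i, f (i + n) = f i)
    (a k : ℕ) : (seg f a n).rotate k = seg f (a + k) n := by
  induction k with
  | zero => simp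
  | succ k ih =>
    rw [← List.rotate_rotate, ih, seg_rotate_one f hn hf]
    rfl

lemma per_mul {α : Type*} (f : ℕ → α) {n : ℕ} (hf : ∀ i, f (i + n) = f i) (i q : ℕ) :
    f (i + q * n) = f i := by
  induction q with
  | zero => simp
  | succ q ih => rw [add_mul, one_mul, ← add_assoc, hf, ih]

lemma seg_zero_of_seg {α : Type*} (Q : List α → Prop) (hQ : ∀ l, Q l → ∀ k, Q (l.rotate k))
    (f : ℕ → α) {n : ℕ} (hn : 1 ≤ n) (hf : ∀ i, f (i + n) = f i) (a : ℕ)
    (h : Q (seg f a n)) : Q (seg f 0 n) := by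
  have h1 := hQ _ h ((n - 1) * a)
  rw [seg_rotate f hn hf] at h1
  have h2 : seg f (a + (n - 1) * a) n = seg f 0 n := by
    unfold seg
    apply List.map_congr_left
    intro m _
    have h3 : a + (n - 1) * a = a * n := by
      obtain ⟨k, rfl⟩ : ∃ k, n = k + 1 := ⟨n - 1, by omega⟩
      simp; ring
    rw [h3, zero_add, add_comm, per_mul f hf]
  rwa [h2] at h1

lemma cyc_seg {α : Type*} (R : α → α → Prop) (f : ℕ → α) {n : ℕ} (hn : 1 ≤ n)
    (hf : ∀ i, f (i + n) = f i) (h : ∀ i, R (f i) (f (i + 1))) :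
    ∀ e ∈ cyc (seg f 0 n), R e.1 e.2 := by
  intro e he
  unfold cyc at he
  rw [seg_rotate_one f hn hf] at he
  unfold seg at he
  rw [List.zip_map', List.mem_map] at he
  obtain ⟨m, _, rfl⟩ := he
  have := h m
  simpa [add_comm] using this

lemma stepA (P : ℝ → List (ℂ × ℝ) → Prop)
    (arc : ∀ {n : ℕ} {c : ℕ → ℂ} {r θ : ℕ → ℝ}, CPI n c r θ → ∀ {a b : ℕ}, a + 2 ≤ b →
      b + 2 ≤ a + n → ‖c a - c b‖ = r a + r b →
      ∃ (c' : ℕ → ℂ) (r' θ' : ℕ → ℝ), CPI (b - a + 1) c' r' θ' ∧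
        ∀ i, i ≤ b - a → c' i = c (a + i) ∧ r' i = r (a + i))
    (glue1 : ∀ {H : ℝ} {p y : ℂ × ℝ} {X Y : List (ℂ × ℝ)}, Y ≠ [] → P H ([p, y] ++ Y) →
      P H ([p] ++ X ++ [y]) → P H ([p] ++ X ++ [y] ++ Y))
    (rotate : ∀ {H : ℝ} {D : List (ℂ × ℝ)}, P H D → ∀ k, P H (D.rotate k))
    {n : ℕ} {c : ℕ → ℂ} {r θ : ℕ → ℝ} (h : CPI n c r θ) (H : ℝ)
    (IH : ∀ m < n, ∀ {c : ℕ → ℂ} {r θ : ℕ → ℝ}, CPI m c r θ → ∀ H : ℝ,
      P H ((List.range m).map (fun i => (c i, r i))))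
    {i j : ℕ} (hij : i + 2 ≤ j) (hji : j + 2 ≤ i + n) (ht : ‖c i - c j‖ = r i + r j) :
    P H ((List.range n).map (fun i => (c i, r i))) := by
  have hn3 := h.n3
  set f : ℕ → ℂ × ℝ := fun i => (c i, r i) with hf
  have hper : ∀ i, f (i + n) = f i := fun i => by simp only [hf, h.perc, h.perr]
  have harc : ∀ a b : ℕ, a + 2 ≤ b → b + 2 ≤ a + n → ‖c a - c b‖ = r a + r b →
      P H (seg f a (b - a + 1)) := by
    intro a b h1 h2 h3
    obtain ⟨c', r', θ', hC, hC2⟩ := arc h h1 h2 h3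
    have h4 := IH (b - a + 1) (by omega) hC H
    have h5 : (List.range (b - a + 1)).map (fun i => (c' i, r' i)) = seg f a (b - a + 1) := by
      unfold seg
      apply List.map_congr_left
      intro m hm
      have hm' := List.mem_range.1 hm
      obtain ⟨e1, e2⟩ := hC2 m (by omega)
      rw [e1, e2]
    rwa [h5] at h4
  have hA := harc i j hij hji ht
  have hB := harc j (i + n) hji (by omega) (by
    rw [h.perc, h.perr, norm_sub_rev, ht, add_comm])
  -- decompositions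
  have d1 : seg f i (j - i + 1) = [f i] ++ seg f (i + 1) (j - i - 1) ++ [f j] := by
    rw [show j - i + 1 = 1 + (j - i - 1) + 1 by omega, seg_append, seg_append, seg_one, seg_one,
      show i + (1 + (j - i - 1)) = j by omega]
  have d2 : seg f j (i + n - j + 1) = ([f j] ++ seg f (j + 1) (i + n - j - 1)) ++ [f i] := by
    rw [show i + n - j + 1 = 1 + (i + n - j - 1) + 1 by omega, seg_append, seg_append, seg_one,
      seg_one, show j + (1 + (i + n - j - 1)) = i + n by omega, hper]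
  rw [d1] at hA
  rw [d2] at hB
  have hB2 := rotate hB ([f j] ++ seg f (j + 1) (i + n - j - 1)).length
  rw [List.rotate_append_length_eq] at hB2
  have hY : seg f (j + 1) (i + n - j - 1) ≠ [] := by
    intro h0
    have := congrArg List.length h0
    rw [seg_length, List.length_nil] at this
    omega
  have hG := glue1 (X := seg f (i + 1) (j - i - 1)) hY (by simpa using hB2) hA
  have d3 : seg f i n = [f i] ++ seg f (i + 1) (j - i - 1) ++ [f j] ++
      seg f (j + 1) (i + n - j - 1) := by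
    rw [← d1, show n = (j - i + 1) + (i + n - j - 1) by omega, seg_append]
    congr 1
    rw [show i + (j - i + 1) = j + 1 by omega,
      show i + ((j - i + 1) + (i + n - j - 1)) - j - 1 = i + n - j - 1 by omega]
  rw [← d3] at hG
  have h0 := seg_zero_of_seg (P H) (fun l hl k => rotate hl k) f (by omega) hper i hG
  have h1 : seg f 0 n = (List.range n).map f := by
    unfold seg
    simp
  rwa [h1] at h0

lemma kap_succ_A1 {n : ℕ} {θ : ℕ → ℝ} (perθ : ∀ i, θ (i + n) = θ i + 2 * Real.pi) (i : ℕ) :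
    kap n θ (i + 1) = Real.tan ((θ (i + 1) - θ i) / 2) := by
  unfold kap
  rw [perθ, show i + 1 + n - 1 = i + n by omega, perθ]
  congr 1
  ring

theorem cpi_stack (P : ℝ → List (ℂ × ℝ) → Prop)
    (arc : ∀ {n : ℕ} {c : ℕ → ℂ} {r θ : ℕ → ℝ}, CPI n c r θ → ∀ {a b : ℕ}, a + 2 ≤ b →
      b + 2 ≤ a + n → ‖c a - c b‖ = r a + r b →
      ∃ (c' : ℕ → ℂ) (r' θ' : ℕ → ℝ), CPI (b - a + 1) c' r' θ' ∧
        ∀ i, i ≤ b - a → c' i = c (a + i) ∧ r' i = r (a + i))
    (zero_run : ∀ {n : ℕ} {c : ℕ → ℂ} {r θ : ℕ → ℝ}, 3 ≤ n →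
      (∀ i, c (i + n) = c i) → (∀ i, r (i + n) = r i) →
      (∀ i, θ (i + n) = θ i + 2 * Real.pi) →
      (∀ i, θ i ≤ θ (i + 1)) → (∀ i, θ (i + 1) < θ i + Real.pi) →
      (∀ i, c (i + 1) - c i = ((r i + r (i + 1) : ℝ) : ℂ) * exp (θ i * I)) →
      (∀ i, 0 ≤ r i) → (∀ i, r (i + 1) = 0 → θ i < θ (i + 1)) →
      (∀ i j, i + 2 ≤ j → j + 2 ≤ i + n → r i + r j ≤ ‖c i - c j‖) →
      (∃ i, r i = 0) → ∀ i, r i = 0)
    (kap_rel : ∀ {n : ℕ} {c : ℕ → ℂ} {r θ : ℕ → ℝ}, CPI n c r θ → ∀ i : ℕ,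
      ((kap n θ (i + 1) : ℂ) + I) * exp (θ (i + 1) * I) =
        (-(kap n θ (i + 1) : ℂ) + I) * exp (θ i * I))
    (kap_nonneg : ∀ {n : ℕ} {c : ℕ → ℂ} {r θ : ℕ → ℝ}, CPI n c r θ → ∀ i : ℕ, 0 ≤ kap n θ i)
    (kap_per : ∀ {n : ℕ} {c : ℕ → ℂ} {r θ : ℕ → ℝ}, CPI n c r θ → ∀ i : ℕ,
      kap n θ (i + n) = kap n θ i)
    (cen_edge : ∀ {n : ℕ} {c : ℕ → ℂ} {r θ : ℕ → ℝ}, CPI n c r θ → ∀ (t : ℝ) (i : ℕ),
      cen n c θ t (i + 1) - cen n c θ t i =
        ((rad n r θ t i + rad n r θ t (i + 1) : ℝ) : ℂ) * exp (θ i * I))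
    (first_time : ∀ {n : ℕ} {c : ℕ → ℂ} {r θ : ℕ → ℝ}, CPI n c r θ →
      (∀ i j, i + 2 ≤ j → j + 2 ≤ i + n → r i + r j < ‖c i - c j‖) →
      ∃ t : ℝ, 0 < t ∧ (∀ i, 0 ≤ rad n r θ t i) ∧
        (∀ i j, i + 2 ≤ j → j + 2 ≤ i + n →
          rad n r θ t i + rad n r θ t j ≤ ‖cen n c θ t i - cen n c θ t j‖) ∧
        ((∃ i, rad n r θ t i = 0) ∨ ∃ i j, i + 2 ≤ j ∧ j + 2 ≤ i + n ∧
          rad n r θ t i + rad n r θ t j = ‖cen n c θ t i - cen n c θ t j‖))
    (ring : ∀ {H h : ℝ}, 0 < h → ∀ (G : List Tip), (∀ e ∈ cyc G, RingRel e.1 e.2) →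
      (∀ g ∈ G, 0 < g.2.1 - h * g.2.2.1) → P (H + h) (G.map (inner h)) → P H (G.map outer))
    (point : ∀ {H h : ℝ}, 0 < h → ∀ (G : List Tip), G ≠ [] → (∀ e ∈ cyc G, RingRel e.1 e.2) →
      (∀ g ∈ G, g.2.1 - h * g.2.2.1 = 0) → P H (G.map outer))
    (glue1 : ∀ {H : ℝ} {p y : ℂ × ℝ} {X Y : List (ℂ × ℝ)}, Y ≠ [] → P H ([p, y] ++ Y) →
      P H ([p] ++ X ++ [y]) → P H ([p] ++ X ++ [y] ++ Y))
    (rotate : ∀ {H : ℝ} {D : List (ℂ × ℝ)}, P H D → ∀ k, P H (D.rotate k))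
    {n : ℕ} {c : ℕ → ℂ} {r θ : ℕ → ℝ} (h : CPI n c r θ) (H : ℝ) :
    P H ((List.range n).map (fun i => (c i, r i))) := by
  induction n using Nat.strong_induction_on generalizing c r θ H with
  | _ n IH =>
  have IH' : ∀ m < n, ∀ {c : ℕ → ℂ} {r θ : ℕ → ℝ}, CPI m c r θ → ∀ H : ℝ,
      P H ((List.range m).map (fun i => (c i, r i))) := fun m hm _ _ _ hC H => IH m hm hC H
  by_cases htight : ∃ i j, i + 2 ≤ j ∧ j + 2 ≤ i + n ∧ ‖c i - c j‖ = r i + r j
  · obtain ⟨i, j, hij, hji, ht⟩ := htight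
    exact stepA P arc glue1 rotate h H IH' hij hji ht
  have hstrict : ∀ i j, i + 2 ≤ j → j + 2 ≤ i + n → r i + r j < ‖c i - c j‖ := by
    intro i j hij hji
    refine lt_of_le_of_ne (h.disj i j hij hji) fun heq => ?_
    exact htight ⟨i, j, hij, hji, heq.symm⟩
  obtain ⟨t, ht0, hnn, hdisj, halt⟩ := first_time h hstrict
  have hn3 := h.n3
  have hexp : ∀ i, exp (θ (i + n) * I) = exp (θ i * I) := by
    intro i
    rw [h.perθ]
    push_cast
    rw [add_mul, exp_add, exp_two_pi_mul_I, mul_one]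
  have perc' : ∀ i, cen n c θ t (i + n) = cen n c θ t i := by
    intro i
    unfold cen
    rw [h.perc, kap_per h, hexp]
  have perr' : ∀ i, rad n r θ t (i + n) = rad n r θ t i := by
    intro i
    unfold rad
    rw [h.perr, kap_per h]
  set F : ℕ → Tip := fun i => (c i, r i, kap n θ i, exp (θ i * I)) with hF
  have hFper : ∀ i, F (i + n) = F i := by
    intro i
    simp only [hF]
    rw [h.perc, h.perr, kap_per h, hexp]
  have hrel : ∀ i, RingRel (F i) (F (i + 1)) := by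
    intro i
    refine ⟨?_, ?_, ?_, h.pos i⟩
    · show ‖exp (θ i * I)‖ = 1
      exact Complex.norm_exp_ofReal_mul_I _
    · exact h.edge i
    · exact kap_rel h i
  have hcyc := cyc_seg RingRel F (by omega : 1 ≤ n) hFper hrel
  have hout : (seg F 0 n).map outer = (List.range n).map (fun i => (c i, r i)) := by
    unfold seg
    rw [List.map_map]
    apply List.map_congr_left
    intro m _
    simp [hF, outer]
  have hin : (seg F 0 n).map (inner t) =
      (List.range n).map (fun i => (cen n c θ t i, rad n r θ t i)) := by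
    unfold seg
    rw [List.map_map]
    apply List.map_congr_left
    intro m _
    simp [hF, inner, cen, rad]
  by_cases hz : ∃ i, rad n r θ t i = 0
  · have hstr : ∀ i, rad n r θ t (i + 1) = 0 → θ i < θ (i + 1) := by
      intro i hi
      refine lt_of_le_of_ne (h.mono i) fun heq => ?_
      unfold rad at hi
      rw [kap_succ_A1 h.perθ, heq, sub_self, zero_div, Real.tan_zero, mul_zero, sub_zero] at hi
      exact (h.pos (i + 1)).ne' hi
    have hall := zero_run h.n3 perc' perr' h.perθ h.mono h.lt (cen_edge h t) hnn hstr hdisj hz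
    rw [← hout]
    refine point ht0 (seg F 0 n) ?_ hcyc ?_
    · intro h0
      have := congrArg List.length h0
      rw [seg_length, List.length_nil] at this
      omega
    · intro g hg
      unfold seg at hg
      obtain ⟨m, _, rfl⟩ := List.mem_map.1 hg
      exact hall (0 + m)
  · have hpos : ∀ i, 0 < rad n r θ t i := fun i =>
      lt_of_le_of_ne (hnn i) fun heq => hz ⟨i, heq.symm⟩
    have hC : CPI n (cen n c θ t) (rad n r θ t) θ :=
      ⟨h.n3, perc', perr', h.perθ, h.mono, h.lt, cen_edge h t, hpos, hdisj⟩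
    obtain ⟨i, j, hij, hji, hte⟩ := halt.resolve_left hz
    have h1 := stepA P arc glue1 rotate hC (H + t) IH' hij hji hte.symm
    rw [← hin] at h1
    rw [← hout]
    refine ring ht0 (seg F 0 n) hcyc ?_ h1
    intro g hg
    unfold seg at hg
    obtain ⟨m, _, rfl⟩ := List.mem_map.1 hg
    exact hpos (0 + m)

end

end Pool.Agent.Helper22.FC
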