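import Pool.Agent.Helper22.FC.Base

namespace Pool.Agent.Helper22.FC

open Complex

noncomputable section

private theorem A2_aux (P : ℝ → List (ℂ × ℝ) → Prop)
    (zip : ∀ {H : ℝ} {x y : ℂ × ℝ} {A B : List (ℂ × ℝ)}, (A ≠ [] ∨ B ≠ []) →
      P H (A ++ [x, y, x] ++ B) → P H (A ++ [x] ++ B))
    {H : ℝ} {p q : ℂ × ℝ} {D B : List (ℂ × ℝ)} (W : List (ℂ × ℝ)) :
    ∀ y : ℂ × ℝ, P H ([p] ++ D ++ [q] ++ W.reverse ++ [y] ++ W ++ [q] ++ B) →
      P H ([p] ++ D ++ [q] ++ B) := by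
  induction W with
  | nil =>
    intro y h
    refine zip (A := [p] ++ D) (x := q) (y := y) (B := B) (Or.inl (by simp)) ?_
    simpa using h
  | cons w W ih =>
    intro y h
    refine ih w ?_
    have := zip (H := H) (A := [p] ++ D ++ [q] ++ W.reverse) (x := w) (y := y)
      (B := W ++ [q] ++ B) (Or.inl (by simp)) (by simpa using h)
    simpa using this

theorem glue_path (P : ℝ → List (ℂ × ℝ) → Prop)
    (glue1 : ∀ {H : ℝ} {p y : ℂ × ℝ} {X Y : List (ℂ × ℝ)}, Y ≠ [] → P H ([p, y] ++ Y) →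
      P H ([p] ++ X ++ [y]) → P H ([p] ++ X ++ [y] ++ Y))
    (zip : ∀ {H : ℝ} {x y : ℂ × ℝ} {A B : List (ℂ × ℝ)}, (A ≠ [] ∨ B ≠ []) →
      P H (A ++ [x, y, x] ++ B) → P H (A ++ [x] ++ B))
    {H : ℝ} {p q : ℂ × ℝ} {M D B : List (ℂ × ℝ)} (hB : B ≠ [])
    (h1 : P H ([p] ++ M ++ [q] ++ B)) (h2 : P H ([p] ++ D ++ [q] ++ M.reverse)) :
    P H ([p] ++ D ++ [q] ++ B) := by
  cases M with
  | nil =>
    have h3 := glue1 (H := H) (p := p) (y := q) (X := D) (Y := B) hB (by simpa using h1)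
      (by simpa using h2)
    exact h3
  | cons m M =>
    have h3 := glue1 (H := H) (p := p) (y := m) (X := D ++ [q] ++ M.reverse)
      (Y := M ++ [q] ++ B) (by simp) (by simpa using h1) (by simpa using h2)
    refine A2_aux P zip M m ?_
    simpa using h3

end

end Pool.Agent.Helper22.FC
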