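import Pool.Agent.Helper22.FC.Base

namespace Pool.Agent.Helper22.FC

open Complex

noncomputable section

private theorem a3_chain_getD {α : Type*} {R : α → α → Prop} (d : α) :
    ∀ {l : List α}, List.IsChain R l → ∀ k, k + 1 < l.length → R (l.getD k d) (l.getD (k + 1) d)
  | [], _, k, hk => by simp at hk
  | [_], _, k, hk => by simp at hk
  | a :: b :: l, h, k, hk => by
    rw [List.isChain_cons_cons] at h
    cases k with
    | zero => simpa using h.1
    | succ k =>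
      have := a3_chain_getD d h.2 k (by simp at hk ⊢; omega)
      simpa using this

private theorem a3_place_mem {τ : ℂ} (W : List ℝ) : ∀ (s : ℂ) {q : ℂ × ℝ}, q ∈ place s τ W → q.2 ∈ W := by
  induction W with
  | nil => intro s q hq; simp [place] at hq
  | cons w W ih =>
    intro s q hq
    rw [place, List.mem_cons] at hq
    rcases hq with rfl | hq
    · simp
    · exact List.mem_cons_of_mem _ (ih _ hq)

/-- two discs do not overlap -/
private def a3R (p q : ℂ × ℝ) : Prop := p.2 + q.2 ≤ ‖p.1 - q.1‖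

private theorem a3R_symm {p q : ℂ × ℝ} (h : a3R p q) : a3R q p := by
  unfold a3R at *
  rw [norm_sub_rev, add_comm]
  exact h

/-- two discs touch along the direction `τ` -/
private def a3C (τ : ℂ) (p q : ℂ × ℝ) : Prop := q.1 - p.1 = ((p.2 + q.2 : ℝ) : ℂ) * τ

private theorem a3_norm_mul {τ : ℂ} (hτ : ‖τ‖ = 1) (t : ℝ) : ‖(t : ℂ) * τ‖ = |t| := by
  rw [norm_mul, hτ, mul_one, Complex.norm_real, Real.norm_eq_abs]

private theorem a3_line {τ : ℂ} (hτ : ‖τ‖ = 1) (W : List ℝ) (hW : ∀ w ∈ W, 0 < w) :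
    ∀ (p : ℂ) (r0 ρ : ℝ) (y : ℂ), 0 < r0 → y = p + ((r0 + 2 * W.sum + ρ : ℝ) : ℂ) * τ →
      (List.Pairwise a3R ((p, r0) :: (place (p + r0 * τ) τ W ++ [(y, ρ)]))) ∧
      (List.IsChain (a3C τ) ((p, r0) :: (place (p + r0 * τ) τ W ++ [(y, ρ)]))) ∧
      (∀ q ∈ place (p + r0 * τ) τ W ++ [(y, ρ)], ∃ t : ℝ, r0 + q.2 ≤ t ∧ q.1 = p + t * τ) ∧
      (∀ q ∈ place (p + r0 * τ) τ W, ∃ t : ℝ, ρ + q.2 ≤ t ∧ y = q.1 + t * τ) := by
  induction W with
  | nil =>
    intro p r0 ρ y hr0 hy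
    have hy' : y = p + ((r0 + ρ : ℝ) : ℂ) * τ := by simpa using hy
    simp only [place, List.nil_append]
    refine ⟨?_, ?_, ?_, ?_⟩
    · rw [List.pairwise_pair]
      show r0 + ρ ≤ ‖p - y‖
      have h1 : p - y = ((-(r0 + ρ) : ℝ) : ℂ) * τ := by rw [hy']; push_cast; ring
      rw [h1, a3_norm_mul hτ, abs_neg]
      exact le_abs_self _
    · rw [List.isChain_pair]
      show y - p = ((r0 + ρ : ℝ) : ℂ) * τ
      rw [hy']; ring
    · intro q hq
      rw [List.mem_singleton] at hq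
      subst hq
      exact ⟨r0 + ρ, le_rfl, hy'⟩
    · intro q hq
      simp at hq
  | cons w W ih =>
    intro p r0 ρ y hr0 hy
    have hw : 0 < w := hW w (by simp)
    have hW' : ∀ w ∈ W, 0 < w := fun v hv => hW v (List.mem_cons_of_mem _ hv)
    have hy' : y = (p + r0 * τ + w * τ) + ((w + 2 * W.sum + ρ : ℝ) : ℂ) * τ := by
      rw [hy, List.sum_cons]
      push_cast
      ring
    obtain ⟨h1, h2, h3, h4⟩ := ih hW' (p + r0 * τ + w * τ) w ρ y hw hy'
    have hpl : place (p + r0 * τ) τ (w :: W) =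
        (p + r0 * τ + w * τ, w) :: place (p + r0 * τ + w * τ + w * τ) τ W := by
      rw [place]
      congr 2
      ring
    rw [hpl, List.cons_append]
    have k3 : ∀ q ∈ (p + r0 * τ + w * τ, w) :: (place (p + r0 * τ + w * τ + w * τ) τ W ++ [(y, ρ)]),
        ∃ t : ℝ, r0 + q.2 ≤ t ∧ q.1 = p + t * τ := by
      intro q hq
      rw [List.mem_cons] at hq
      rcases hq with rfl | hq
      · exact ⟨r0 + w, le_rfl, by push_cast; ring⟩
      · obtain ⟨t, ht, hqt⟩ := h3 q hq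
        refine ⟨r0 + w + t, by linarith, ?_⟩
        rw [hqt]
        push_cast
        ring
    refine ⟨?_, ?_, k3, ?_⟩
    · rw [List.pairwise_cons]
      refine ⟨fun q hq => ?_, h1⟩
      obtain ⟨t, ht, hqt⟩ := k3 q hq
      show r0 + q.2 ≤ ‖p - q.1‖
      have e1 : p - q.1 = ((-t : ℝ) : ℂ) * τ := by rw [hqt]; push_cast; ring
      rw [e1, a3_norm_mul hτ, abs_neg]
      exact ht.trans (le_abs_self _)
    · rw [List.isChain_cons_cons]
      refine ⟨?_, h2⟩
      show (p + r0 * τ + w * τ) - p = ((r0 + w : ℝ) : ℂ) * τ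
      push_cast
      ring
    · intro q hq
      rw [List.mem_cons] at hq
      rcases hq with rfl | hq
      · refine ⟨w + 2 * W.sum + ρ, ?_, hy'⟩
        have : 0 ≤ W.sum := List.sum_nonneg fun v hv => (hW' v hv).le
        show ρ + w ≤ _
        linarith
      · exact h4 q hq

private theorem a3_dir_norm {a b : ℂ} (hab : a ≠ b) : ‖dir a b‖ = 1 := by
  have h : ‖b - a‖ ≠ 0 := norm_ne_zero_iff.2 (sub_ne_zero.2 hab.symm)
  unfold dir
  rw [norm_div, Complex.norm_real, norm_norm, div_self h]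

private theorem a3_dir_mul {a b : ℂ} (hab : a ≠ b) : b = a + (‖b - a‖ : ℂ) * dir a b := by
  have h : (‖b - a‖ : ℂ) ≠ 0 := by
    exact_mod_cast norm_ne_zero_iff.2 (sub_ne_zero.2 hab.symm)
  unfold dir
  rw [mul_div_cancel₀ _ h]
  ring

private theorem a3_edge (x y : Cor) (hne : x.1 ≠ y.1) (hfit : FitE x y) :
    (List.Pairwise a3R (edgeTips x y ++ [(y.1, y.2.1)])) ∧
    (List.IsChain (a3C (dir x.1 y.1)) (edgeTips x y ++ [(y.1, y.2.1)])) ∧
    (∀ q ∈ place (x.1 + x.2.1 * dir x.1 y.1) (dir x.1 y.1) x.2.2,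
      ∃ t : ℝ, x.2.1 + q.2 ≤ t ∧ q.1 = x.1 + t * dir x.1 y.1) ∧
    (∀ q ∈ place (x.1 + x.2.1 * dir x.1 y.1) (dir x.1 y.1) x.2.2,
      ∃ t : ℝ, y.2.1 + q.2 ≤ t ∧ y.1 = q.1 + t * dir x.1 y.1) := by
  obtain ⟨hx, hW, hf⟩ := hfit
  have hy : y.1 = x.1 + ((x.2.1 + 2 * x.2.2.sum + y.2.1 : ℝ) : ℂ) * dir x.1 y.1 := by
    rw [← hf]
    exact a3_dir_mul hne
  obtain ⟨h1, h2, h3, h4⟩ := a3_line (a3_dir_norm hne) x.2.2 hW x.1 x.2.1 y.2.1 y.1 hx hy
  exact ⟨h1, h2, fun q hq => h3 q (List.mem_append_left _ hq), h4⟩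

/-! index part -/

private theorem a3_getD_closed {α : Type*} (B : List α) (y : α) (rest : List α) (d : α) {k : ℕ}
    (hk : k ≤ B.length) : (B ++ (y :: rest)).getD k d = (B ++ [y]).getD k d := by
  rcases hk.lt_or_eq with h | h
  · rw [List.getD_append _ _ _ _ h, List.getD_append _ _ _ _ h]
  · rw [List.getD_append_right _ _ _ _ h.ge, List.getD_append_right _ _ _ _ h.ge, h, Nat.sub_self]
    simp

private theorem a3_cpi {p1 p2 p3 : ℂ × ℝ} {I1 I2 I3 : List (ℂ × ℝ)} {θ1 θ2 θ3 : ℝ}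
    (h12 : θ1 < θ2) (h12' : θ2 < θ1 + Real.pi) (h23 : θ2 < θ3) (h23' : θ3 < θ2 + Real.pi)
    (h31 : θ3 < θ1 + 2 * Real.pi) (h31' : θ1 + 2 * Real.pi < θ3 + Real.pi)
    (hc1 : List.IsChain (a3C (exp (θ1 * I))) ((p1 :: I1) ++ [p2]))
    (hc2 : List.IsChain (a3C (exp (θ2 * I))) ((p2 :: I2) ++ [p3]))
    (hc3 : List.IsChain (a3C (exp (θ3 * I))) ((p3 :: I3) ++ [p1]))
    (hpos : ∀ p ∈ (p1 :: I1) ++ ((p2 :: I2) ++ (p3 :: I3)), 0 < p.2)
    (hpw : List.Pairwise a3R ((p1 :: I1) ++ ((p2 :: I2) ++ (p3 :: I3)))) :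
    ∃ (n : ℕ) (c : ℕ → ℂ) (r θ : ℕ → ℝ), CPI n c r θ ∧
      (List.range n).map (fun i => (c i, r i)) = (p1 :: I1) ++ ((p2 :: I2) ++ (p3 :: I3)) := by
  have hpi := Real.pi_pos
  obtain ⟨L, hL⟩ : ∃ L, L = (p1 :: I1) ++ ((p2 :: I2) ++ (p3 :: I3)) := ⟨_, rfl⟩
  obtain ⟨m1, hm1⟩ : ∃ m, m = (p1 :: I1).length := ⟨_, rfl⟩
  obtain ⟨m2, hm2⟩ : ∃ m, m = (p2 :: I2).length := ⟨_, rfl⟩
  obtain ⟨m3, hm3⟩ : ∃ m, m = (p3 :: I3).length := ⟨_, rfl⟩
  have g1 : 1 ≤ m1 := by rw [hm1]; simp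
  have g2 : 1 ≤ m2 := by rw [hm2]; simp
  have g3 : 1 ≤ m3 := by rw [hm3]; simp
  obtain ⟨n, hn⟩ : ∃ n, n = m1 + (m2 + m3) := ⟨_, rfl⟩
  have hLn : L.length = n := by
    rw [hL, List.length_append, List.length_append, ← hm1, ← hm2, ← hm3, hn]
  have hn0 : 0 < n := by omega
  let d : ℂ × ℝ := (0, 0)
  obtain ⟨A, hA⟩ : ∃ A : ℕ → ℝ, A = fun k => if k < m1 then θ1 else if k < m1 + m2 then θ2 else θ3 :=
    ⟨_, rfl⟩
  have hAE : ∀ k < n, ((L.getD ((k + 1) % n) d).1 - (L.getD k d).1) =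
      (((L.getD k d).2 + (L.getD ((k + 1) % n) d).2 : ℝ) : ℂ) * exp (A k * I) := by
    intro k hk
    by_cases hk1 : k < m1
    · have e1 : (k + 1) % n = k + 1 := Nat.mod_eq_of_lt (by omega)
      have e2 : L.getD k d = ((p1 :: I1) ++ [p2]).getD k d := by
        rw [hL]
        exact a3_getD_closed (p1 :: I1) p2 _ d (by omega)
      have e3 : L.getD (k + 1) d = ((p1 :: I1) ++ [p2]).getD (k + 1) d := by
        rw [hL]
        exact a3_getD_closed (p1 :: I1) p2 _ d (by omega)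
      have e4 : A k = θ1 := by rw [hA]; simp only; rw [if_pos hk1]
      rw [e1, e2, e3, e4]
      exact a3_chain_getD d hc1 k (by rw [List.length_append, ← hm1]; simpa using hk1)
    · by_cases hk2 : k < m1 + m2
      · have e1 : (k + 1) % n = k + 1 := Nat.mod_eq_of_lt (by omega)
        have e2 : L.getD k d = ((p2 :: I2) ++ [p3]).getD (k - m1) d := by
          rw [hL, List.getD_append_right _ _ _ _ (by omega), ← hm1]
          exact a3_getD_closed (p2 :: I2) p3 _ d (by omega)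
        have e3 : L.getD (k + 1) d = ((p2 :: I2) ++ [p3]).getD (k - m1 + 1) d := by
          rw [hL, List.getD_append_right _ _ _ _ (by omega), ← hm1]
          have : k + 1 - m1 = k - m1 + 1 := by omega
          rw [this]
          exact a3_getD_closed (p2 :: I2) p3 _ d (by omega)
        have e4 : A k = θ2 := by rw [hA]; simp only; rw [if_neg hk1, if_pos hk2]
        rw [e1, e2, e3, e4]
        exact a3_chain_getD d hc2 (k - m1) (by
          rw [List.length_append, ← hm2]; simp only [List.length_singleton]; omega)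
      · have e2 : L.getD k d = ((p3 :: I3) ++ [p1]).getD (k - m1 - m2) d := by
          rw [hL, List.getD_append_right _ _ _ _ (by omega), ← hm1,
            List.getD_append_right _ _ _ _ (by omega), ← hm2,
            List.getD_append _ _ _ _ (by omega)]
        have e4 : A k = θ3 := by rw [hA]; simp only; rw [if_neg hk1, if_neg hk2]
        have e3 : L.getD ((k + 1) % n) d = ((p3 :: I3) ++ [p1]).getD (k - m1 - m2 + 1) d := by
          by_cases hlast : k + 1 < n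
          · rw [Nat.mod_eq_of_lt hlast, hL, List.getD_append_right _ _ _ _ (by omega), ← hm1,
              List.getD_append_right _ _ _ _ (by omega), ← hm2,
              List.getD_append _ _ _ _ (by omega)]
            congr 1
            omega
          · have h1 : k + 1 = n := by omega
            rw [h1, Nat.mod_self, List.getD_append_right _ _ _ _ (by omega), ← hm3]
            have h2 : k - m1 - m2 + 1 - m3 = 0 := by omega
            rw [h2, hL]
            simp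
        rw [e2, e3, e4]
        exact a3_chain_getD d hc3 (k - m1 - m2) (by
          rw [List.length_append, ← hm3]; simp only [List.length_singleton]; omega)
  have hmem : ∀ k < n, L.getD k d ∈ L := by
    intro k hk
    rw [List.getD_eq_getElem _ _ (by omega)]
    exact List.getElem_mem _
  have hD : ∀ p q, p < q → q < n → a3R (L.getD p d) (L.getD q d) := by
    intro p q hpq hq
    rw [List.getD_eq_getElem _ _ (by omega), List.getD_eq_getElem _ _ (by omega)]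
    rw [← hL] at hpw
    exact (List.pairwise_iff_getElem.1 hpw) p q (by omega) (by omega) hpq
  have hAθ : ∀ k, k + 1 < n → A k ≤ A (k + 1) ∧ A (k + 1) < A k + Real.pi := by
    intro k hk
    rw [hA]
    simp only
    split_ifs <;> first | omega | (constructor <;> linarith)
  have hAl : A (n - 1) = θ3 := by
    rw [hA]; simp only; rw [if_neg (by omega), if_neg (by omega)]
  have hA0 : A 0 = θ1 := by
    rw [hA]; simp only; rw [if_pos (by omega)]
  obtain ⟨θ, hθ⟩ : ∃ θ : ℕ → ℝ, θ = fun i => A (i % n) + 2 * Real.pi * ((i / n : ℕ) : ℝ) := ⟨_, rfl⟩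
  have hstep : ∀ i, θ i ≤ θ (i + 1) ∧ θ (i + 1) < θ i + Real.pi := by
    intro i
    have hi := Nat.mod_lt i hn0
    by_cases hc : i % n + 1 < n
    · have e1 : (i + 1) % n = i % n + 1 := by
        rw [Nat.add_mod, Nat.mod_eq_of_lt (show 1 < n by omega), Nat.mod_eq_of_lt hc]
      have e2 : (i + 1) / n = i / n := by
        have h1 := Nat.div_add_mod i n
        have h2 := Nat.div_add_mod (i + 1) n
        rw [e1] at h2
        have h3 : n * ((i + 1) / n) = n * (i / n) := by omega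
        exact Nat.eq_of_mul_eq_mul_left hn0 h3
      rw [hθ]
      simp only
      rw [e1, e2]
      obtain ⟨k1, k2⟩ := hAθ (i % n) hc
      constructor <;> linarith
    · have hc' : i % n = n - 1 := by omega
      have e1 : (i + 1) % n = 0 := by
        rw [← Nat.mod_add_mod, hc', Nat.sub_add_cancel (by omega), Nat.mod_self]
      have e2 : (i + 1) / n = i / n + 1 := by
        have h1 := Nat.div_add_mod i n
        have h2 := Nat.div_add_mod (i + 1) n
        rw [e1] at h2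
        rw [hc'] at h1
        have h3 : n * ((i + 1) / n) = n * (i / n + 1) := by
          rw [mul_add]
          omega
        exact Nat.eq_of_mul_eq_mul_left hn0 h3
      rw [hθ]
      simp only
      rw [e1, e2, hc', hAl, hA0]
      push_cast
      constructor <;> linarith
  refine ⟨n, fun i => (L.getD (i % n) d).1, fun i => (L.getD (i % n) d).2, θ, ?_, ?_⟩
  · refine ⟨by omega, ?_, ?_, ?_, fun i => (hstep i).1, fun i => (hstep i).2, ?_, ?_, ?_⟩
    · intro i; simp only [Nat.add_mod_right]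
    · intro i; simp only [Nat.add_mod_right]
    · intro i
      rw [hθ]
      simp only [Nat.add_mod_right]
      rw [Nat.add_div_right _ hn0]
      push_cast
      ring
    · intro i
      have h1 := hAE (i % n) (Nat.mod_lt i hn0)
      have e1 : (i % n + 1) % n = (i + 1) % n := Nat.mod_add_mod i n 1
      rw [e1] at h1
      have e2 : exp (θ i * I) = exp (A (i % n) * I) := by
        rw [hθ]
        simp only
        rw [Complex.exp_eq_exp_iff_exists_int]
        refine ⟨((i / n : ℕ) : ℤ), ?_⟩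
        rw [Int.cast_natCast]
        push_cast
        ring
      rw [e2]
      exact h1
    · intro i
      have h1 := hmem _ (Nat.mod_lt i hn0)
      rw [hL] at h1
      have := hpos _ h1
      rw [← hL] at this
      exact this
    · intro i j hij hji
      have hi := Nat.mod_lt i hn0
      have hj := Nat.mod_lt j hn0
      have hne : i % n ≠ j % n := by
        intro hcon
        have h1 : n ∣ j - i := (Nat.modEq_iff_dvd' (by omega)).1 hcon
        have h2 := Nat.le_of_dvd (by omega) h1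
        omega
      rcases lt_or_gt_of_ne hne with h | h
      · exact hD _ _ h hj
      · have := a3R_symm (hD _ _ h hi)
        exact this
  · rw [← hL]
    apply List.ext_getElem
    · simp [hLn]
    · intro i h1 h2
      have hi : i < n := by simpa using h1
      simp only [List.getElem_map, List.getElem_range]
      rw [Nat.mod_eq_of_lt hi, List.getD_eq_getElem _ _ h2]

/-! geometric part -/

private theorem a3_im_le {u τ : ℂ} (hτ : ‖τ‖ = 1) : |(u * (starRingEnd ℂ) τ).im| ≤ ‖u‖ := by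
  calc |(u * (starRingEnd ℂ) τ).im| ≤ ‖u * (starRingEnd ℂ) τ‖ := Complex.abs_im_le_norm _
    _ = ‖u‖ := by rw [norm_mul, Complex.norm_conj, hτ, mul_one]

private theorem a3_self_im {τ : ℂ} : (τ * (starRingEnd ℂ) τ).im = 0 := by
  rw [Complex.mul_conj]
  exact Complex.ofReal_im _

private theorem a3_cross (X Y Z : ℂ) :
    (dir Y Z * (starRingEnd ℂ) (dir X Y)).im = side X Y Z / (‖Y - X‖ * ‖Z - Y‖) := by
  unfold dir side
  have h1 : (Z - Y) / (‖Z - Y‖ : ℂ) * (starRingEnd ℂ) ((Y - X) / (‖Y - X‖ : ℂ)) =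
      ((Z - X) * (starRingEnd ℂ) (Y - X) - (Y - X) * (starRingEnd ℂ) (Y - X)) /
        ((‖Y - X‖ * ‖Z - Y‖ : ℝ) : ℂ) := by
    rw [map_div₀, Complex.conj_ofReal, div_mul_div_comm]
    push_cast
    rw [mul_comm (‖Z - Y‖ : ℂ)]
    congr 1
    ring
  rw [h1, Complex.div_ofReal_im, Complex.sub_im, a3_self_im, sub_zero]

private theorem a3_height (X Y Z : ℂ) :
    ((Z - X) * (starRingEnd ℂ) (dir X Y)).im = side X Y Z / ‖Y - X‖ := by
  unfold dir side
  rw [map_div₀, Complex.conj_ofReal, mul_div_assoc', Complex.div_ofReal_im]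

private theorem a3_side_cyc (X Y Z : ℂ) : side Y Z X = side X Y Z := by
  simp [side]
  ring

private theorem a3_adj {τ τ' V : ℂ} {u v : ℂ × ℝ} {s t s0 κ R : ℝ} (hτ' : ‖τ'‖ = 1)
    (hu : V = u.1 + s * τ) (hv : v.1 = V + t * τ') (hs : R / 2 ≤ s)
    (hcross : s0 ≤ (τ' * (starRingEnd ℂ) τ).im) (hur : u.2 ≤ κ * R) (hvr : v.2 ≤ κ * R)
    (hκ : κ = s0 / 4) (hR : 0 < R) (hs0 : 0 < s0) : a3R u v := by
  have h1 : u.1 - v.1 = -((s : ℂ) * τ + t * τ') := by rw [hv, hu]; ring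
  show u.2 + v.2 ≤ ‖u.1 - v.1‖
  rw [h1, norm_neg]
  have h2 := a3_im_le (u := (s : ℂ) * τ + t * τ') hτ'
  have h3 : (((s : ℂ) * τ + t * τ') * (starRingEnd ℂ) τ').im = s * (τ * (starRingEnd ℂ) τ').im := by
    rw [add_mul, Complex.add_im, mul_assoc, mul_assoc, Complex.im_ofReal_mul,
      Complex.im_ofReal_mul, a3_self_im, mul_zero, add_zero]
  have h4 : (τ * (starRingEnd ℂ) τ').im = - (τ' * (starRingEnd ℂ) τ).im := by
    rw [← Complex.conj_im, map_mul, Complex.conj_conj, mul_comm]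
  rw [h3, h4] at h2
  have h5 : s * s0 ≤ |s * -(τ' * (starRingEnd ℂ) τ).im| := by
    rw [mul_neg, abs_neg]
    refine le_trans ?_ (le_abs_self _)
    exact mul_le_mul_of_nonneg_left hcross (by linarith)
  have h6 : R / 2 * s0 ≤ s * s0 := mul_le_mul_of_nonneg_right hs hs0.le
  have h7 : κ * R + κ * R = R / 2 * s0 := by rw [hκ]; ring
  linarith

private theorem a3_opp {X Y Z : ℂ} {q : ℂ × ℝ} {t ρ : ℝ} (hne : X ≠ Y)
    (hq : q.1 = X + t * dir X Y) (hD : ρ + q.2 ≤ side X Y Z / ‖Y - X‖) : a3R (Z, ρ) q := by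
  show ρ + q.2 ≤ ‖Z - q.1‖
  have h2 := a3_im_le (u := Z - q.1) (a3_dir_norm hne)
  have h3 : ((Z - q.1) * (starRingEnd ℂ) (dir X Y)).im = side X Y Z / ‖Y - X‖ := by
    rw [← a3_height, hq]
    have : (Z - (X + t * dir X Y)) * (starRingEnd ℂ) (dir X Y) =
        (Z - X) * (starRingEnd ℂ) (dir X Y) - t * (dir X Y * (starRingEnd ℂ) (dir X Y)) := by ring
    rw [this, Complex.sub_im, Complex.im_ofReal_mul, a3_self_im, mul_zero, sub_zero]
  rw [h3] at h2
  exact hD.trans ((le_abs_self _).trans h2)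

private theorem a3_ang {τ1 τ2 : ℂ} {θ1 : ℝ} (h1 : exp (θ1 * I) = τ1) (hn2 : ‖τ2‖ = 1)
    (him : 0 < (τ2 * (starRingEnd ℂ) τ1).im) :
    ∃ θ2 : ℝ, exp (θ2 * I) = τ2 ∧ θ1 < θ2 ∧ θ2 < θ1 + Real.pi := by
  have hn1 : ‖τ1‖ = 1 := by rw [← h1, Complex.norm_exp_ofReal_mul_I]
  have hw : ‖τ2 * (starRingEnd ℂ) τ1‖ = 1 := by rw [norm_mul, Complex.norm_conj, hn1, hn2, mul_one]
  have hself : τ1 * (starRingEnd ℂ) τ1 = 1 := by
    rw [Complex.mul_conj, Complex.normSq_eq_norm_sq, hn1]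
    norm_num
  have he : exp ((τ2 * (starRingEnd ℂ) τ1).arg * I) = τ2 * (starRingEnd ℂ) τ1 := by
    have := Complex.norm_mul_exp_arg_mul_I (τ2 * (starRingEnd ℂ) τ1)
    rw [hw] at this
    simpa using this
  have ha0 : 0 ≤ (τ2 * (starRingEnd ℂ) τ1).arg := Complex.arg_nonneg_iff.2 him.le
  have ha1 : (τ2 * (starRingEnd ℂ) τ1).arg ≤ Real.pi := Complex.arg_le_pi _
  have ha2 : (τ2 * (starRingEnd ℂ) τ1).arg ≠ 0 := fun h => him.ne' (Complex.arg_eq_zero_iff.1 h).2
  have ha3 : (τ2 * (starRingEnd ℂ) τ1).arg ≠ Real.pi := fun h => him.ne' (Complex.arg_eq_pi_iff.1 h).2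
  refine ⟨θ1 + (τ2 * (starRingEnd ℂ) τ1).arg, ?_, ?_, ?_⟩
  · rw [Complex.ofReal_add, add_mul, Complex.exp_add, h1, he]
    calc τ1 * (τ2 * (starRingEnd ℂ) τ1) = τ2 * (τ1 * (starRingEnd ℂ) τ1) := by ring
      _ = τ2 := by rw [hself, mul_one]
  · have := lt_of_le_of_ne ha0 ha2.symm
    linarith
  · have := lt_of_le_of_ne ha1 ha3
    linarith

theorem fill_tri (P : ℝ → List (ℂ × ℝ) → Prop)
    (cpi : ∀ (n : ℕ) (c : ℕ → ℂ) (r θ : ℕ → ℝ), CPI n c r θ → ∀ H,
      P H ((List.range n).map (fun i => (c i, r i))))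
    {a b c : ℂ} (h : 0 < side a b c) : Fill P [a, b, c] := by
  obtain ⟨D0, hD0⟩ : ∃ D, D = side a b c / 2 := ⟨_, rfl⟩
  have hD0p : 0 < D0 := by rw [hD0]; linarith
  obtain ⟨M, hM⟩ : ∃ M, M = ‖b - a‖ + ‖c - b‖ + ‖a - c‖ + 1 := ⟨_, rfl⟩
  have n1 := norm_nonneg (b - a)
  have n2 := norm_nonneg (c - b)
  have n3 := norm_nonneg (a - c)
  have hMp : 0 < M := by rw [hM]; linarith
  have hev : ∀ᶠ p : ℂ × ℂ × ℂ in nhds (a, b, c), D0 < side p.1 p.2.1 p.2.2 ∧
      ‖p.2.1 - p.1‖ < M ∧ ‖p.2.2 - p.2.1‖ < M ∧ ‖p.1 - p.2.2‖ < M := by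
    have c1 : Continuous fun p : ℂ × ℂ × ℂ => side p.1 p.2.1 p.2.2 := by
      unfold side
      exact Complex.continuous_im.comp (by fun_prop)
    have c2 : Continuous fun p : ℂ × ℂ × ℂ => ‖p.2.1 - p.1‖ := by fun_prop
    have c3 : Continuous fun p : ℂ × ℂ × ℂ => ‖p.2.2 - p.2.1‖ := by fun_prop
    have c4 : Continuous fun p : ℂ × ℂ × ℂ => ‖p.1 - p.2.2‖ := by fun_prop
    refine (c1.continuousAt.eventually (lt_mem_nhds ?_)).and
      ((c2.continuousAt.eventually (gt_mem_nhds ?_)).and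
        ((c3.continuousAt.eventually (gt_mem_nhds ?_)).and
          (c4.continuousAt.eventually (gt_mem_nhds ?_))))
    · show D0 < side a b c
      rw [hD0]; linarith
    · show ‖b - a‖ < M
      rw [hM]; linarith
    · show ‖c - b‖ < M
      rw [hM]; linarith
    · show ‖a - c‖ < M
      rw [hM]; linarith
  obtain ⟨η, hη, hη'⟩ := Metric.eventually_nhds_iff.1 hev
  obtain ⟨s0, hs0⟩ : ∃ s, s = D0 / (M * M) := ⟨_, rfl⟩
  have hs0p : 0 < s0 := by rw [hs0]; positivity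
  obtain ⟨κ, hκ⟩ : ∃ κ, κ = s0 / 4 := ⟨_, rfl⟩
  have hκp : 0 < κ := by rw [hκ]; positivity
  refine ⟨κ, hκp, η, hη, D0 / M / (2 + κ), by positivity, ?_⟩
  intro R hR hRδ K hK hKr hKf H
  obtain ⟨x, K1, hx, hK1, rfl⟩ := List.forall₂_cons_left_iff.1 hK
  obtain ⟨y, K2, hy, hK2, rfl⟩ := List.forall₂_cons_left_iff.1 hK1
  obtain ⟨z, K3, hz, hK3, rfl⟩ := List.forall₂_cons_left_iff.1 hK2
  have hK3' := List.forall₂_nil_left_iff.1 hK3
  subst hK3'
  have hcyc : cyc [x, y, z] = [(x, y), (y, z), (z, x)] := rfl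
  have htips : tips [x, y, z] = edgeTips x y ++ (edgeTips y z ++ edgeTips z x) := by
    unfold tips
    rw [hcyc]
    simp
  rw [hcyc] at hKf
  have hfxy : FitE x y := hKf (x, y) (by simp)
  have hfyz : FitE y z := hKf (y, z) (by simp)
  have hfzx : FitE z x := hKf (z, x) (by simp)
  obtain ⟨hrx1, hrx2, hrx3⟩ := hKr x (by simp)
  obtain ⟨hry1, hry2, hry3⟩ := hKr y (by simp)
  obtain ⟨hrz1, hrz2, hrz3⟩ := hKr z (by simp)
  have hp := hη' (y := (x.1, y.1, z.1)) (by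
    rw [Prod.dist_eq, Prod.dist_eq]
    refine max_lt ?_ (max_lt ?_ ?_)
    · rw [dist_comm, dist_eq_norm]; exact hx
    · rw [dist_comm, dist_eq_norm]; exact hy
    · rw [dist_comm, dist_eq_norm]; exact hz)
  obtain ⟨hD, hl1, hl2, hl3⟩ := hp
  simp only at hD hl1 hl2 hl3
  have hD2 : side y.1 z.1 x.1 = side x.1 y.1 z.1 := a3_side_cyc _ _ _
  have hD3 : side z.1 x.1 y.1 = side x.1 y.1 z.1 := by rw [a3_side_cyc, a3_side_cyc]
  have hDp : 0 < side x.1 y.1 z.1 := hD0p.trans hD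
  have hxy : x.1 ≠ y.1 := by
    intro hcon
    rw [hcon] at hDp
    simp [side] at hDp
  have hyz : y.1 ≠ z.1 := by
    intro hcon
    rw [← hD2, hcon] at hDp
    simp [side] at hDp
  have hzx : z.1 ≠ x.1 := by
    intro hcon
    rw [← hD3, hcon] at hDp
    simp [side] at hDp
  have q1 : 0 < ‖y.1 - x.1‖ := norm_pos_iff.2 (sub_ne_zero.2 hxy.symm)
  have q2 : 0 < ‖z.1 - y.1‖ := norm_pos_iff.2 (sub_ne_zero.2 hyz.symm)
  have q3 : 0 < ‖x.1 - z.1‖ := norm_pos_iff.2 (sub_ne_zero.2 hzx.symm)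
  obtain ⟨u1, v1, w1, z1⟩ := a3_edge x y hxy hfxy
  obtain ⟨u2, v2, w2, z2⟩ := a3_edge y z hyz hfyz
  obtain ⟨u3, v3, w3, z3⟩ := a3_edge z x hzx hfzx
  -- cross products
  have hcr : ∀ l l' : ℝ, 0 < l → 0 < l' → l < M → l' < M → s0 ≤ side x.1 y.1 z.1 / (l * l') := by
    intro l l' h1 h2 h3 h4
    rw [hs0]
    apply div_le_div₀ hDp.le hD.le (by positivity)
    exact mul_le_mul h3.le h4.le h2.le hMp.le
  have k1 : s0 ≤ (dir y.1 z.1 * (starRingEnd ℂ) (dir x.1 y.1)).im := by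
    rw [a3_cross]; exact hcr _ _ q1 q2 hl1 hl2
  have k2 : s0 ≤ (dir z.1 x.1 * (starRingEnd ℂ) (dir y.1 z.1)).im := by
    rw [a3_cross, hD2]; exact hcr _ _ q2 q3 hl2 hl3
  have k3 : s0 ≤ (dir x.1 y.1 * (starRingEnd ℂ) (dir z.1 x.1)).im := by
    rw [a3_cross, hD3]; exact hcr _ _ q3 q1 hl3 hl1
  -- heights
  have hRb : 2 * R + κ * R ≤ D0 / M := by
    rw [lt_div_iff₀ (by positivity)] at hRδ
    linarith
  have hht : ∀ l : ℝ, 0 < l → l < M → 2 * R + κ * R ≤ side x.1 y.1 z.1 / l := by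
    intro l h1 h2
    refine hRb.trans ?_
    exact div_le_div₀ hDp.le hD.le h1 h2.le
  -- radii of interior discs
  have r1 : ∀ q ∈ place (x.1 + x.2.1 * dir x.1 y.1) (dir x.1 y.1) x.2.2, 0 < q.2 ∧ q.2 ≤ κ * R :=
    fun q hq => hrx3 _ (a3_place_mem _ _ hq)
  have r2 : ∀ q ∈ place (y.1 + y.2.1 * dir y.1 z.1) (dir y.1 z.1) y.2.2, 0 < q.2 ∧ q.2 ≤ κ * R :=
    fun q hq => hry3 _ (a3_place_mem _ _ hq)
  have r3 : ∀ q ∈ place (z.1 + z.2.1 * dir z.1 x.1) (dir z.1 x.1) z.2.2, 0 < q.2 ∧ q.2 ≤ κ * R :=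
    fun q hq => hrz3 _ (a3_place_mem _ _ hq)
  -- opposite edges
  have o1 : ∀ q ∈ place (x.1 + x.2.1 * dir x.1 y.1) (dir x.1 y.1) x.2.2, a3R (z.1, z.2.1) q := by
    intro q hq
    obtain ⟨t, _, hqt⟩ := w1 q hq
    refine a3_opp hxy hqt ?_
    have := (r1 q hq).2
    have := hht _ q1 hl1
    linarith
  have o2 : ∀ q ∈ place (y.1 + y.2.1 * dir y.1 z.1) (dir y.1 z.1) y.2.2, a3R (x.1, x.2.1) q := by
    intro q hq
    obtain ⟨t, _, hqt⟩ := w2 q hq
    refine a3_opp hyz hqt ?_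
    rw [hD2]
    have := (r2 q hq).2
    have := hht _ q2 hl2
    linarith
  have o3 : ∀ q ∈ place (z.1 + z.2.1 * dir z.1 x.1) (dir z.1 x.1) z.2.2, a3R (y.1, y.2.1) q := by
    intro q hq
    obtain ⟨t, _, hqt⟩ := w3 q hq
    refine a3_opp hzx hqt ?_
    rw [hD3]
    have := (r3 q hq).2
    have := hht _ q3 hl3
    linarith
  -- adjacent edges
  have a12 : ∀ q ∈ place (x.1 + x.2.1 * dir x.1 y.1) (dir x.1 y.1) x.2.2,
      ∀ q' ∈ place (y.1 + y.2.1 * dir y.1 z.1) (dir y.1 z.1) y.2.2, a3R q q' := by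
    intro q hq q' hq'
    obtain ⟨t, ht, hqt⟩ := z1 q hq
    obtain ⟨t', ht', hqt'⟩ := w2 q' hq'
    have := (r1 q hq).1
    exact a3_adj (a3_dir_norm hyz) hqt hqt' (by linarith) k1 (r1 q hq).2 (r2 q' hq').2 hκ hR hs0p
  have a23 : ∀ q ∈ place (y.1 + y.2.1 * dir y.1 z.1) (dir y.1 z.1) y.2.2,
      ∀ q' ∈ place (z.1 + z.2.1 * dir z.1 x.1) (dir z.1 x.1) z.2.2, a3R q q' := by
    intro q hq q' hq'
    obtain ⟨t, ht, hqt⟩ := z2 q hq
    obtain ⟨t', ht', hqt'⟩ := w3 q' hq'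
    have := (r2 q hq).1
    exact a3_adj (a3_dir_norm hzx) hqt hqt' (by linarith) k2 (r2 q hq).2 (r3 q' hq').2 hκ hR hs0p
  have a31 : ∀ q ∈ place (z.1 + z.2.1 * dir z.1 x.1) (dir z.1 x.1) z.2.2,
      ∀ q' ∈ place (x.1 + x.2.1 * dir x.1 y.1) (dir x.1 y.1) x.2.2, a3R q q' := by
    intro q hq q' hq'
    obtain ⟨t, ht, hqt⟩ := z3 q hq
    obtain ⟨t', ht', hqt'⟩ := w1 q' hq'
    have := (r3 q hq).1
    exact a3_adj (a3_dir_norm hxy) hqt hqt' (by linarith) k3 (r3 q hq).2 (r1 q' hq').2 hκ hR hs0p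
  -- angles
  have hth1 : exp ((dir x.1 y.1).arg * I) = dir x.1 y.1 := by
    have := Complex.norm_mul_exp_arg_mul_I (dir x.1 y.1)
    rw [a3_dir_norm hxy] at this
    simpa using this
  obtain ⟨θ1, hθ1⟩ : ∃ θ1 : ℝ, exp (θ1 * I) = dir x.1 y.1 := ⟨_, hth1⟩
  obtain ⟨θ2, hθ2, h12, h12'⟩ := a3_ang hθ1 (a3_dir_norm hyz) (hs0p.trans_le k1)
  obtain ⟨θ3, hθ3, h23, h23'⟩ := a3_ang hθ2 (a3_dir_norm hzx) (hs0p.trans_le k2)
  obtain ⟨θ4, hθ4, h34, h34'⟩ := a3_ang hθ3 (a3_dir_norm hxy) (hs0p.trans_le k3)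
  have hpi := Real.pi_pos
  have h4 : θ4 = θ1 + 2 * Real.pi := by
    have h1 : exp (θ4 * I) = exp (θ1 * I) := by rw [hθ4, hθ1]
    rw [Complex.exp_eq_exp_iff_exists_int] at h1
    obtain ⟨m, hm⟩ := h1
    have h2 : θ4 = θ1 + m * (2 * Real.pi) := by
      have := congrArg Complex.im hm
      simpa using this
    have h3 : (0 : ℝ) < m := by
      by_contra hcon
      push Not at hcon
      nlinarith
    have h5 : (m : ℝ) < 2 := by
      by_contra hcon
      push Not at hcon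
      nlinarith
    have h6 : m = 1 := by
      have h7 : 0 < m := by exact_mod_cast h3
      have h8 : m < 2 := by exact_mod_cast h5
      omega
    rw [h2, h6]
    push_cast
    ring
  rw [h4] at h34 h34'
  -- the list
  rw [htips]
  have hE1 : edgeTips x y = (x.1, x.2.1) :: place (x.1 + x.2.1 * dir x.1 y.1) (dir x.1 y.1) x.2.2 := rfl
  have hE2 : edgeTips y z = (y.1, y.2.1) :: place (y.1 + y.2.1 * dir y.1 z.1) (dir y.1 z.1) y.2.2 := rfl
  have hE3 : edgeTips z x = (z.1, z.2.1) :: place (z.1 + z.2.1 * dir z.1 x.1) (dir z.1 x.1) z.2.2 := rfl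
  rw [hE1] at u1 v1
  rw [hE2] at u2 v2
  rw [hE3] at u3 v3
  rw [hE1, hE2, hE3]
  have v1' : List.IsChain (a3C (exp (θ1 * I))) ((x.1, x.2.1) ::
      place (x.1 + x.2.1 * dir x.1 y.1) (dir x.1 y.1) x.2.2 ++ [(y.1, y.2.1)]) := by
    rw [hθ1]; exact v1
  have v2' : List.IsChain (a3C (exp (θ2 * I))) ((y.1, y.2.1) ::
      place (y.1 + y.2.1 * dir y.1 z.1) (dir y.1 z.1) y.2.2 ++ [(z.1, z.2.1)]) := by
    rw [hθ2]; exact v2
  have v3' : List.IsChain (a3C (exp (θ3 * I))) ((z.1, z.2.1) ::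
      place (z.1 + z.2.1 * dir z.1 x.1) (dir z.1 x.1) z.2.2 ++ [(x.1, x.2.1)]) := by
    rw [hθ3]; exact v3
  obtain ⟨s1, -, t1⟩ := List.pairwise_append.1 u1
  obtain ⟨s2, -, t2⟩ := List.pairwise_append.1 u2
  obtain ⟨s3, -, t3⟩ := List.pairwise_append.1 u3
  have s1' := (List.pairwise_cons.1 s1).1
  have s2' := (List.pairwise_cons.1 s2).1
  have s3' := (List.pairwise_cons.1 s3).1
  obtain ⟨I1, hI1⟩ : ∃ l, l = place (x.1 + x.2.1 * dir x.1 y.1) (dir x.1 y.1) x.2.2 := ⟨_, rfl⟩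
  obtain ⟨I2, hI2⟩ : ∃ l, l = place (y.1 + y.2.1 * dir y.1 z.1) (dir y.1 z.1) y.2.2 := ⟨_, rfl⟩
  obtain ⟨I3, hI3⟩ : ∃ l, l = place (z.1 + z.2.1 * dir z.1 x.1) (dir z.1 x.1) z.2.2 := ⟨_, rfl⟩
  rw [← hI1] at v1' s1 t1 s1' o1 a12 a31 r1 ⊢
  rw [← hI2] at v2' s2 t2 s2' o2 a12 a23 r2 ⊢
  rw [← hI3] at v3' s3 t3 s3' o3 a23 a31 r3 ⊢
  have hpos : ∀ p ∈ ((x.1, x.2.1) :: I1) ++ (((y.1, y.2.1) :: I2) ++ ((z.1, z.2.1) :: I3)), 0 < p.2 := by
    intro p hp
    simp only [List.mem_append, List.mem_cons] at hp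
    rcases hp with (rfl | hp) | (rfl | hp) | (rfl | hp)
    · exact hfxy.1
    · exact (r1 p hp).1
    · exact hfyz.1
    · exact (r2 p hp).1
    · exact hfzx.1
    · exact (r3 p hp).1
  have hpw : List.Pairwise a3R
      (((x.1, x.2.1) :: I1) ++ (((y.1, y.2.1) :: I2) ++ ((z.1, z.2.1) :: I3))) := by
    rw [List.pairwise_append, List.pairwise_append]
    refine ⟨s1, ⟨s2, s3, ?_⟩, ?_⟩
    · intro p hp q hq
      rw [List.mem_cons] at hq
      rcases hq with rfl | hq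
      · exact t2 p hp _ (by simp)
      · rw [List.mem_cons] at hp
        rcases hp with rfl | hp
        · exact o3 q hq
        · exact a23 p hp q hq
    · intro p hp q hq
      rw [List.mem_append] at hq
      rcases hq with hq | hq
      · rw [List.mem_cons] at hq
        rcases hq with rfl | hq
        · exact t1 p hp _ (by simp)
        · rw [List.mem_cons] at hp
          rcases hp with rfl | hp
          · exact o2 q hq
          · exact a12 p hp q hq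
      · rw [List.mem_cons] at hp
        rcases hp with rfl | hp
        · exact a3R_symm (t3 q hq _ (by simp))
        · rw [List.mem_cons] at hq
          rcases hq with rfl | hq
          · exact a3R_symm (o1 p hp)
          · exact a3R_symm (a31 q hq p hp)
  obtain ⟨n, c', r', θ', hcpi, hlist⟩ := a3_cpi h12 h12' h23 h23' h34 h34' v1' v2' v3' hpos hpw
  rw [← hlist]
  exact cpi n c' r' θ' hcpi H

end

end Pool.Agent.Helper22.FC
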