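import Pool.Agent.Helper22.FC.Base

namespace Pool.Agent.Helper22.FC

open Complex

noncomputable section

/-- consecutive pairs of the open chain `L` followed by `z` -/
def prs {α : Type*} : List α → α → List (α × α)
  | [], _ => []
  | [a], z => [(a, z)]
  | a :: b :: L, z => (a, b) :: prs (b :: L) z

theorem prs_eq_zip {α : Type*} (L : List α) : ∀ (a z : α),
    (a :: L).zip (L ++ [z]) = prs (a :: L) z := by
  induction L with
  | nil => intro a z; rfl
  | cons b L ih =>
    intro a z
    rw [List.cons_append, List.zip_cons_cons, ih b z]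
    rfl

theorem cyc_cons_A4 {α : Type*} (a : α) (L : List α) : cyc (a :: L) = prs (a :: L) a := by
  unfold cyc
  rw [← prs_eq_zip]
  simp

theorem prs_append {α : Type*} (L1 : List α) (b : α) (L2 : List α) (z : α) :
    prs (L1 ++ b :: L2) z = prs L1 b ++ prs (b :: L2) z := by
  induction L1 with
  | nil => rfl
  | cons a L1 ih =>
    cases L1 with
    | nil => rfl
    | cons c L1 =>
      rw [List.cons_append] at ih
      rw [List.cons_append, List.cons_append]
      change (a, c) :: prs (c :: (L1 ++ b :: L2)) z = (a, c) :: (prs (c :: L1) b ++ _)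
      rw [ih]

theorem prs_forall_congr {α : Type*} (Q : α → α → Prop) (L : List α) (z z' : α)
    (h : ∀ x, Q x z → Q x z') (hL : ∀ e ∈ prs L z, Q e.1 e.2) :
    ∀ e ∈ prs L z', Q e.1 e.2 := by
  induction L with
  | nil => intro e he; simp [prs] at he
  | cons a L ih =>
    cases L with
    | nil =>
      intro e he
      simp only [prs, List.mem_singleton] at he hL
      subst he
      exact h _ (hL _ rfl)
    | cons b L =>
      intro e he
      simp only [prs, List.mem_cons, forall_eq_or_imp] at he hL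
      rcases he with rfl | he
      · exact hL.1
      · exact ih hL.2 e he

theorem prs_flatMap_congr {α β : Type*} (f : α → α → List β) (L : List α) (z z' : α)
    (h : ∀ x, f x z = f x z') :
    (prs L z).flatMap (fun e => f e.1 e.2) = (prs L z').flatMap (fun e => f e.1 e.2) := by
  induction L with
  | nil => rfl
  | cons a L ih =>
    cases L with
    | nil => simp [prs, h]
    | cons b L =>
      simp only [prs, List.flatMap_cons]
      rw [ih]

theorem forall₂_split {α β : Type*} {r : α → β → Prop} (l1 l2 : List α) :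
    ∀ (K : List β), List.Forall₂ r (l1 ++ l2) K →
      ∃ K1 K2, K = K1 ++ K2 ∧ List.Forall₂ r l1 K1 ∧ List.Forall₂ r l2 K2 := by
  induction l1 with
  | nil => intro K h; exact ⟨[], K, rfl, List.Forall₂.nil, h⟩
  | cons a l1 ih =>
    intro K h
    rw [List.cons_append, List.forall₂_cons_left_iff] at h
    obtain ⟨b, K', hab, hK', rfl⟩ := h
    obtain ⟨K1, K2, rfl, h1, h2⟩ := ih K' hK'
    exact ⟨b :: K1, K2, rfl, List.Forall₂.cons hab h1, h2⟩

theorem forall₂_one {α β : Type*} {r : α → β → Prop} {a : α} {K : List β}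
    (h : List.Forall₂ r [a] K) : ∃ b, K = [b] ∧ r a b := by
  rw [List.forall₂_cons_left_iff] at h
  obtain ⟨b, K', hab, hK', rfl⟩ := h
  rw [List.forall₂_nil_left_iff] at hK'
  subst hK'
  exact ⟨b, rfl, hab⟩

theorem forall₂_mono' {α β : Type*} {r r' : α → β → Prop} (hr : ∀ a b, r a b → r' a b)
    {l : List α} {K : List β} (h : List.Forall₂ r l K) : List.Forall₂ r' l K :=
  h.imp hr

theorem place_append (W1 W2 : List ℝ) : ∀ (s τ : ℂ),
    place s τ (W1 ++ W2) = place s τ W1 ++ place (s + 2 * (W1.sum : ℝ) * τ) τ W2 := by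
  induction W1 with
  | nil => intro s τ; simp [place]
  | cons w W1 ih =>
    intro s τ
    simp only [List.cons_append, place, ih, List.sum_cons]
    congr 3
    push_cast
    ring

theorem place_reverse (m : ℕ) (w : ℝ) : ∀ (s τ : ℂ),
    place (s + 2 * (m * w : ℝ) * τ) (-τ) (List.replicate m w) =
      (place s τ (List.replicate m w)).reverse := by
  induction m with
  | zero => intro s τ; simp [place]
  | succ m ih =>
    intro s τ
    have h1 : (place s τ (List.replicate (m + 1) w)).reverse =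
        (place (s + 2 * w * τ) τ (List.replicate m w)).reverse ++ [(s + w * τ, w)] := by
      rw [List.replicate_succ, place, List.reverse_cons]
    rw [h1, ← ih, List.replicate_succ', place_append]
    congr 1
    · congr 1
      push_cast
      ring
    · simp only [place, List.sum_replicate, nsmul_eq_mul]
      congr 2
      push_cast
      ring

theorem place_ne (s τ : ℂ) (x : Cor) (y : Cor) : edgeTips x y ≠ [] := by
  unfold edgeTips
  exact List.cons_ne_nil _ _

theorem prs_flatMap_ne (L : List Cor) (hL : L ≠ []) (z : Cor) :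
    (prs L z).flatMap (fun e => edgeTips e.1 e.2) ≠ [] := by
  cases L with
  | nil => exact absurd rfl hL
  | cons a L =>
    cases L with
    | nil => simp [prs, edgeTips]
    | cons b L => simp [prs, edgeTips]

theorem dir_neg (a b : ℂ) : dir b a = -dir a b := by
  unfold dir
  rw [norm_sub_rev a b, ← neg_div, neg_sub]

theorem dir_mul (a b : ℂ) (h : 0 < ‖b - a‖) : a + (‖b - a‖ : ℂ) * dir a b = b := by
  unfold dir
  rw [mul_div_cancel₀]
  · ring
  · exact_mod_cast h.ne'

theorem fill_rot_one (P : ℝ → List (ℂ × ℝ) → Prop)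
    (rotate : ∀ {H : ℝ} {D : List (ℂ × ℝ)}, P H D → ∀ k, P H (D.rotate k))
    {V : List ℂ} (h : Fill P V) : Fill P (V.rotate 1) := by
  cases V with
  | nil => simpa using h
  | cons v V =>
    obtain ⟨κ, hκ, η, hη, δ, hδ, hK⟩ := h
    refine ⟨κ, hκ, η, hη, δ, hδ, ?_⟩
    intro R hR hRδ K' hF hb hfit H
    have e1 : (v :: V).rotate 1 = V ++ [v] := by simp
    rw [e1] at hF
    obtain ⟨K1, K2, rfl, hF1, hF2⟩ := forall₂_split V [v] K' hF
    obtain ⟨X, rfl, hX⟩ := forall₂_one hF2
    have hFX : List.Forall₂ (fun (v : ℂ) (x : Cor) => ‖v - x.1‖ < η) (v :: V) (X :: K1) :=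
      List.Forall₂.cons hX hF1
    cases K1 with
    | nil => exact hK R hR hRδ [X] hFX (by simpa using hb) (by simpa using hfit) H
    | cons Y K2 =>
      have e2 : cyc (Y :: K2 ++ [X]) = prs (Y :: K2) X ++ [(X, Y)] := by
        rw [List.cons_append, cyc_cons_A4, ← List.cons_append, prs_append]
        rfl
      have e3 : cyc (X :: Y :: K2) = (X, Y) :: prs (Y :: K2) X := by
        rw [cyc_cons_A4]
        rfl
      have h1 : P H (tips (X :: Y :: K2)) := by
        refine hK R hR hRδ _ hFX ?_ ?_ H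
        · intro x hx
          apply hb
          simp only [List.mem_cons, List.mem_append, List.cons_append] at hx ⊢
          tauto
        · intro e he
          apply hfit
          rw [e3] at he
          rw [e2]
          simp only [List.mem_cons, List.mem_append] at he ⊢
          tauto
      have e4 : tips (Y :: K2 ++ [X]) = (tips (X :: Y :: K2)).rotate (edgeTips X Y).length := by
        unfold tips
        rw [e2, e3, List.flatMap_cons, List.flatMap_append, List.rotate_append_length_eq]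
        simp
      rw [e4]
      exact rotate h1 _

theorem fill_cut (P : ℝ → List (ℂ × ℝ) → Prop)
    (glue : ∀ {H : ℝ} {p q : ℂ × ℝ} {M D B : List (ℂ × ℝ)}, B ≠ [] →
      P H ([p] ++ M ++ [q] ++ B) → P H ([p] ++ D ++ [q] ++ M.reverse) →
      P H ([p] ++ D ++ [q] ++ B))
    {x y : ℂ} (hxy : x ≠ y) {E B : List ℂ} (hE : E ≠ []) (hB : B ≠ [])
    (h1 : Fill P ([x, y] ++ B)) (h2 : Fill P ([x] ++ E ++ [y])) :
    Fill P ([x] ++ E ++ [y] ++ B) := by
  obtain ⟨κ1, hκ1, η1, hη1, δ1, hδ1, hK1⟩ := h1
  obtain ⟨κ2, hκ2, η2, hη2, δ2, hδ2, hK2⟩ := h2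
  have hd : 0 < ‖x - y‖ := norm_pos_iff.2 (sub_ne_zero.2 hxy)
  refine ⟨min κ1 κ2, lt_min hκ1 hκ2, min (min η1 η2) (‖x - y‖ / 8),
    lt_min (lt_min hη1 hη2) (by positivity), min (min δ1 δ2) (‖x - y‖ / 16),
    lt_min (lt_min hδ1 hδ2) (by positivity), ?_⟩
  intro R hR hRδ K hF hb hfit H
  obtain ⟨K0, KB, rfl, hF0, hFB⟩ := forall₂_split _ _ K hF
  obtain ⟨K0, KY, rfl, hF0, hFY⟩ := forall₂_split _ _ K0 hF0
  obtain ⟨KX, KE, rfl, hFX, hFE⟩ := forall₂_split _ _ K0 hF0
  obtain ⟨X, rfl, hX⟩ := forall₂_one hFX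
  obtain ⟨Y, rfl, hY⟩ := forall₂_one hFY
  obtain ⟨a, ρ, WX⟩ := X
  obtain ⟨b, σ, WY⟩ := Y
  simp only at hX hY
  have hRδ1 : R < δ1 := hRδ.trans_le ((min_le_left _ _).trans (min_le_left _ _))
  have hRδ2 : R < δ2 := hRδ.trans_le ((min_le_left _ _).trans (min_le_right _ _))
  have hRd : R < ‖x - y‖ / 16 := hRδ.trans_le (min_le_right _ _)
  have hXd : ‖x - a‖ < ‖x - y‖ / 8 := hX.trans_le (min_le_right _ _)
  have hYd : ‖y - b‖ < ‖x - y‖ / 8 := hY.trans_le (min_le_right _ _)
  have hbX := hb (a, ρ, WX) (by simp)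
  have hbY := hb (b, σ, WY) (by simp)
  simp only at hbX hbY
  have hL : ‖x - y‖ ≤ ‖x - a‖ + ‖b - a‖ + ‖y - b‖ := by
    have e : x - y = (x - a) + -(b - a) + -(y - b) := by ring
    calc ‖x - y‖ = ‖(x - a) + -(b - a) + -(y - b)‖ := by rw [← e]
      _ ≤ ‖(x - a) + -(b - a)‖ + ‖-(y - b)‖ := norm_add_le _ _
      _ ≤ ‖x - a‖ + ‖-(b - a)‖ + ‖-(y - b)‖ := by gcongr; exact norm_add_le _ _
      _ = _ := by rw [norm_neg, norm_neg]
  have hgap : 0 < ‖b - a‖ - ρ - σ := by linarith [hbX.2.1, hbY.2.1]
  have hba : 0 < ‖b - a‖ := by linarith [hbX.1, hbY.1]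
  have hκ : 0 < min κ1 κ2 := lt_min hκ1 hκ2
  obtain ⟨m, hm⟩ := exists_nat_gt ((‖b - a‖ - ρ - σ) / (2 * (min κ1 κ2 * R)))
  have hm0 : (0 : ℝ) < m := lt_of_le_of_lt (by positivity) hm
  set w : ℝ := (‖b - a‖ - ρ - σ) / (2 * m) with hw
  have hw0 : 0 < w := by positivity
  have hwκ : w ≤ min κ1 κ2 * R := by
    rw [hw, div_le_iff₀ (by positivity)]
    rw [div_lt_iff₀ (by positivity)] at hm
    linarith
  have hmw : m * w = (‖b - a‖ - ρ - σ) / 2 := by
    rw [hw]
    field_simp
  have hN : (List.replicate m w).sum = m * w := by simp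
  have eK : [(a, ρ, WX)] ++ KE ++ [(b, σ, WY)] ++ KB =
      (a, ρ, WX) :: (KE ++ (b, σ, WY) :: KB) := by simp
  have eC : cyc ([(a, ρ, WX)] ++ KE ++ [(b, σ, WY)] ++ KB) =
      prs ((a, ρ, WX) :: KE) (b, σ, WY) ++ prs ((b, σ, WY) :: KB) (a, ρ, WX) := by
    rw [eK, cyc_cons_A4, ← List.cons_append, prs_append]
  have eC1 : cyc ((a, ρ, List.replicate m w) :: (b, σ, WY) :: KB) =
      ((a, ρ, List.replicate m w), (b, σ, WY)) ::
        prs ((b, σ, WY) :: KB) (a, ρ, List.replicate m w) := by
    rw [cyc_cons_A4]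
    rfl
  have eC2 : cyc ([(a, ρ, WX)] ++ KE ++ [(b, σ, List.replicate m w)]) =
      prs ((a, ρ, WX) :: KE) (b, σ, List.replicate m w) ++
        [((b, σ, List.replicate m w), (a, ρ, WX))] := by
    rw [List.append_assoc, List.singleton_append, cyc_cons_A4, ← List.cons_append, prs_append]
    rfl
  rw [eC] at hfit
  have hfit1 : ∀ e ∈ prs ((a, ρ, WX) :: KE) (b, σ, WY), FitE e.1 e.2 := fun e he =>
    hfit e (List.mem_append_left _ he)
  have hfit2 : ∀ e ∈ prs ((b, σ, WY) :: KB) (a, ρ, WX), FitE e.1 e.2 := fun e he =>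
    hfit e (List.mem_append_right _ he)
  have hρ : 0 < ρ := by linarith [hbX.1]
  have hσ : 0 < σ := by linarith [hbY.1]
  have hrep : ∀ w' ∈ List.replicate m w, w' = w := fun w' hw' => List.eq_of_mem_replicate hw'
  have P1 : P H (tips ((a, ρ, List.replicate m w) :: (b, σ, WY) :: KB)) := by
    refine hK1 R hR hRδ1 _ ?_ ?_ ?_ H
    · refine List.Forall₂.cons ?_ (List.Forall₂.cons ?_ ?_)
      · exact hX.trans_le ((min_le_left _ _).trans (min_le_left _ _))
      · exact hY.trans_le ((min_le_left _ _).trans (min_le_left _ _))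
      · exact hFB.imp fun u v huv => huv.trans_le ((min_le_left _ _).trans (min_le_left _ _))
    · intro z hz
      rcases List.mem_cons.1 hz with rfl | hz
      · refine ⟨hbX.1, hbX.2.1, ?_⟩
        intro w' hw'
        rw [hrep w' hw']
        refine ⟨hw0, hwκ.trans ?_⟩
        gcongr
        exact min_le_left _ _
      · have hz' := hb z (by
          rw [eK]
          exact List.mem_cons_of_mem _ (List.mem_append_right _ hz))
        refine ⟨hz'.1, hz'.2.1, fun w' hw' => ⟨(hz'.2.2 w' hw').1, (hz'.2.2 w' hw').2.trans ?_⟩⟩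
        gcongr
        exact min_le_left _ _
    · rw [eC1]
      intro e he
      rcases List.mem_cons.1 he with rfl | he
      · refine ⟨hρ, fun w' hw' => by rw [hrep w' hw']; exact hw0, ?_⟩
        simp only
        rw [hN, hmw]
        ring
      · exact prs_forall_congr FitE _ (a, ρ, WX) (a, ρ, List.replicate m w)
          (fun z hz => hz) hfit2 e he
  have P2 : P H (tips ([(a, ρ, WX)] ++ KE ++ [(b, σ, List.replicate m w)])) := by
    refine hK2 R hR hRδ2 _ ?_ ?_ ?_ H
    · refine List.rel_append ?_ ?_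
      · refine List.rel_append ?_ ?_
        · refine List.Forall₂.cons ?_ List.Forall₂.nil
          exact hX.trans_le ((min_le_left _ _).trans (min_le_right _ _))
        · exact hFE.imp fun u v huv => huv.trans_le ((min_le_left _ _).trans (min_le_right _ _))
      · refine List.Forall₂.cons ?_ List.Forall₂.nil
        exact hY.trans_le ((min_le_left _ _).trans (min_le_right _ _))
    · intro z hz
      rcases List.mem_append.1 hz with hz | hz
      · have hz' := hb z (List.mem_append_left _ (List.mem_append_left _ hz))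
        refine ⟨hz'.1, hz'.2.1, fun w' hw' => ⟨(hz'.2.2 w' hw').1, (hz'.2.2 w' hw').2.trans ?_⟩⟩
        gcongr
        exact min_le_right _ _
      · rw [List.mem_singleton] at hz
        subst hz
        refine ⟨hbY.1, hbY.2.1, ?_⟩
        intro w' hw'
        rw [hrep w' hw']
        refine ⟨hw0, hwκ.trans ?_⟩
        gcongr
        exact min_le_right _ _
    · rw [eC2]
      intro e he
      rcases List.mem_append.1 he with he | he
      · exact prs_forall_congr FitE _ (b, σ, WY) (b, σ, List.replicate m w)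
          (fun z hz => hz) hfit1 e he
      · rw [List.mem_singleton] at he
        subst he
        refine ⟨hσ, fun w' hw' => by rw [hrep w' hw']; exact hw0, ?_⟩
        simp only
        rw [hN, hmw, norm_sub_rev]
        ring
  -- the lists
  have hsplit : ∀ (u : Cor) (L : List Cor) (z : Cor), ∃ T : List (ℂ × ℝ),
      (prs (u :: L) z).flatMap (fun e => edgeTips e.1 e.2) = [(u.1, u.2.1)] ++ T := by
    intro u L z
    cases L with
    | nil =>
      refine ⟨place (u.1 + u.2.1 * dir u.1 z.1) (dir u.1 z.1) u.2.2, ?_⟩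
      simp [prs, edgeTips]
    | cons c L =>
      refine ⟨place (u.1 + u.2.1 * dir u.1 c.1) (dir u.1 c.1) u.2.2 ++
        (prs (c :: L) z).flatMap (fun e => edgeTips e.1 e.2), ?_⟩
      simp only [prs, List.flatMap_cons, edgeTips, List.cons_append, List.nil_append]
  obtain ⟨D, hD⟩ := hsplit (a, ρ, WX) KE (b, σ, WY)
  have hKB : KB ≠ [] := by
    rintro rfl
    rw [List.forall₂_nil_right_iff] at hFB
    exact hB hFB
  obtain ⟨B', hB'ne, hB'⟩ : ∃ B' : List (ℂ × ℝ), B' ≠ [] ∧
      (prs ((b, σ, WY) :: KB) (a, ρ, WX)).flatMap (fun e => edgeTips e.1 e.2) =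
        [(b, σ)] ++ B' := by
    cases KB with
    | nil => exact absurd rfl hKB
    | cons c KB =>
      refine ⟨place (b + σ * dir b c.1) (dir b c.1) WY ++
        (prs (c :: KB) (a, ρ, WX)).flatMap (fun e => edgeTips e.1 e.2), ?_, ?_⟩
      · intro h
        exact prs_flatMap_ne (c :: KB) (List.cons_ne_nil _ _) _ (List.append_eq_nil_iff.1 h).2
      · simp only [prs, List.flatMap_cons, edgeTips, List.cons_append, List.nil_append]
  set M : List (ℂ × ℝ) := place (a + ρ * dir a b) (dir a b) (List.replicate m w) with hM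
  have hMr : place (b + σ * dir b a) (dir b a) (List.replicate m w) = M.reverse := by
    rw [hM, ← place_reverse, dir_neg a b]
    congr 1
    have h1 := dir_mul a b hba
    rw [hmw]
    nth_rewrite 1 [← h1]
    push_cast
    ring
  have T0 : tips ([(a, ρ, WX)] ++ KE ++ [(b, σ, WY)] ++ KB) =
      [(a, ρ)] ++ D ++ [(b, σ)] ++ B' := by
    unfold tips
    rw [eC, List.flatMap_append, hD, hB']
    simp
  have T1 : tips ((a, ρ, List.replicate m w) :: (b, σ, WY) :: KB) =
      [(a, ρ)] ++ M ++ [(b, σ)] ++ B' := by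
    unfold tips
    rw [eC1, List.flatMap_cons, prs_flatMap_congr edgeTips _ (a, ρ, List.replicate m w)
      (a, ρ, WX) (fun z => rfl), hB']
    simp only [edgeTips, hM]
    simp
  have T2 : tips ([(a, ρ, WX)] ++ KE ++ [(b, σ, List.replicate m w)]) =
      [(a, ρ)] ++ D ++ [(b, σ)] ++ M.reverse := by
    unfold tips
    rw [eC2, List.flatMap_append, prs_flatMap_congr edgeTips _ (b, σ, List.replicate m w)
      (b, σ, WY) (fun z => rfl), hD, ← hMr]
    simp only [edgeTips, List.flatMap_cons, List.flatMap_nil]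
    simp
  rw [T0]
  rw [T1] at P1
  rw [T2] at P2
  exact glue hB'ne P1 P2

theorem fill_rot (P : ℝ → List (ℂ × ℝ) → Prop)
    (rotate : ∀ {H : ℝ} {D : List (ℂ × ℝ)}, P H D → ∀ k, P H (D.rotate k))
    {V : List ℂ} (h : Fill P V) (k : ℕ) : Fill P (V.rotate k) := by
  induction k with
  | zero => simpa using h
  | succ k ih =>
    have e : V.rotate (k + 1) = (V.rotate k).rotate 1 := by rw [List.rotate_rotate]
    rw [e]
    exact fill_rot_one P rotate ih

end

end Pool.Agent.Helper22.FC
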