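import Pool.Agent.Helper22.FC.Base

namespace Pool.Agent.Helper22.FC

open Complex

noncomputable section

theorem fs_chain_zip {α : Type*} (r : α → α → Prop) (b : α) (l : List α) : ∀ a : α,
    List.IsChain r (a :: (l ++ [b])) → ∀ e ∈ (a :: l).zip (l ++ [b]), r e.1 e.2 := by
  induction l with
  | nil =>
    intro a h e he
    simp at he
    subst he
    simpa using h
  | cons c l ih =>
    intro a h e he
    rw [List.cons_append, List.isChain_cons_cons] at h
    rw [List.cons_append, List.zip_cons_cons, List.mem_cons] at he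
    rcases he with rfl | he
    · exact h.1
    · exact ih c h.2 e he

theorem fs_chain_cyc {α : Type*} (r : α → α → Prop) (a : α) (l : List α)
    (h : List.IsChain r (a :: (l ++ [a]))) : ∀ e ∈ cyc (a :: l), r e.1 e.2 := by
  unfold cyc
  have : (a :: l).rotate 1 = l ++ [a] := by simp
  rw [this]
  exact fs_chain_zip r a l a h

theorem fs_cyc_range {α : Type*} (n : ℕ) (f : ℕ → α) (hf : f n = f 0) :
    cyc ((List.range n).map f) = (List.range n).map (fun i => (f i, f (i + 1))) := by
  apply List.ext_getElem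
  · simp [cyc]
  · intro i h1 h2
    have hi : i < n := by simpa using h2
    simp only [cyc, List.getElem_zip, List.getElem_rotate, List.getElem_map, List.getElem_range,
      List.length_map, List.length_range]
    congr 1
    by_cases h3 : i + 1 < n
    · rw [Nat.mod_eq_of_lt h3]
    · have h4 : i + 1 = n := by omega
      rw [h4, Nat.mod_self, hf]

theorem fs_place (W : List ℝ) : ∀ (s τ : ℂ) (r R' κ κ' : ℝ) (τ' : ℂ) (rest : List Tip),
    ‖τ‖ = 1 → 0 < r → (∀ w ∈ W, 0 < w) →
    ((κ' : ℂ) + I) * τ' = (-(κ' : ℂ) + I) * τ →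
    List.IsChain RingRel ((s + (2 * W.sum + R' : ℝ) * τ, R', κ', τ') :: rest) →
    List.IsChain RingRel ((s - r * τ, r, κ, τ) ::
      ((place s τ W).map (fun p => ((p.1, p.2, 0, τ) : Tip)) ++
        (s + (2 * W.sum + R' : ℝ) * τ, R', κ', τ') :: rest)) := by
  induction W with
  | nil =>
    intro s τ r R' κ κ' τ' rest h1 h2 h3 h4 h5
    simp only [place, List.map_nil, List.nil_append]
    rw [List.isChain_cons_cons]
    refine ⟨⟨h1, ?_, h4, h2⟩, h5⟩
    simp only [List.sum_nil]
    push_cast
    ring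
  | cons w W ih =>
    intro s τ r R' κ κ' τ' rest h1 h2 h3 h4 h5
    simp only [place, List.map_cons, List.cons_append]
    rw [List.isChain_cons_cons]
    refine ⟨⟨h1, ?_, ?_, h2⟩, ?_⟩
    · simp only
      push_cast
      ring
    · simp
    · have e1 : s + ((2 * (w :: W).sum + R' : ℝ) : ℂ) * τ =
          (s + 2 * w * τ) + ((2 * W.sum + R' : ℝ) : ℂ) * τ := by
        rw [List.sum_cons]
        push_cast
        ring
      rw [e1] at h5 ⊢
      have e2 : s + (w : ℂ) * τ = (s + 2 * w * τ) - (w : ℂ) * τ := by ring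
      rw [e2]
      exact ih (s + 2 * w * τ) τ w R' 0 κ' τ' rest h1 (h3 w (by simp))
        (fun x hx => h3 x (by simp [hx])) h4 h5

/-- the block of tips of the corner `v` -/
def fsBlk (v τ : ℂ) (R κ : ℝ) (W : List ℝ) : List Tip :=
  (v, R, κ, τ) :: (place (v + R * τ) τ W).map (fun p => ((p.1, p.2, 0, τ) : Tip))

theorem fs_chain (v τ : ℕ → ℂ) (R : ℝ) (κ : ℕ → ℝ) (W : ℕ → List ℝ) (hR : 0 < R)
    (h1 : ∀ i, ‖τ i‖ = 1) (h2 : ∀ i, ∀ w ∈ W i, 0 < w)
    (h3 : ∀ i, ((κ (i + 1) : ℂ) + I) * τ (i + 1) = (-(κ (i + 1) : ℂ) + I) * τ i)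
    (h4 : ∀ i, v (i + 1) = v i + ((2 * R + 2 * (W i).sum : ℝ) : ℂ) * τ i) (m : ℕ) : ∀ k,
    List.IsChain RingRel ((List.range' k m).flatMap (fun i => fsBlk (v i) (τ i) R (κ i) (W i)) ++
      [((v (k + m), R, κ (k + m), τ (k + m)) : Tip)]) := by
  induction m with
  | zero =>
    intro k
    simp
  | succ m ih =>
    intro k
    rw [List.range'_succ, List.flatMap_cons]
    have h5 := ih (k + 1)
    rw [show k + 1 + m = k + (m + 1) by ring] at h5
    -- the rest starts with the tip of the corner `k+1`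
    obtain ⟨rest, hrest⟩ : ∃ rest, (List.range' (k + 1) m).flatMap
        (fun i => fsBlk (v i) (τ i) R (κ i) (W i)) ++
        [((v (k + (m + 1)), R, κ (k + (m + 1)), τ (k + (m + 1))) : Tip)] =
        ((v (k + 1), R, κ (k + 1), τ (k + 1)) : Tip) :: rest := by
      cases m with
      | zero => exact ⟨[], by simp⟩
      | succ m =>
        rw [List.range'_succ, List.flatMap_cons]
        refine ⟨_, rfl⟩
    rw [List.append_assoc, hrest]
    rw [hrest] at h5
    have e1 : v (k + 1) = (v k + R * τ k) + ((2 * (W k).sum + R : ℝ) : ℂ) * τ k := by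
      rw [h4 k]
      push_cast
      ring
    have := fs_place (W k) (v k + R * τ k) (τ k) R R (κ k) (κ (k + 1)) (τ (k + 1)) rest (h1 k) hR
      (h2 k) (h3 k) (by rw [← e1]; exact h5)
    rw [← e1] at this
    simpa [fsBlk] using this

theorem fs_kap (τ τ' : ℂ) (h : ‖τ‖ = 1) (h' : ‖τ'‖ = 1) (hne : τ' ≠ -τ) :
    ∃ κ : ℝ, ((κ : ℂ) + I) * τ' = (-(κ : ℂ) + I) * τ := by
  have hs : τ + τ' ≠ 0 := by
    intro h0
    apply hne
    linear_combination h0
  have h0 : τ ≠ 0 := by
    intro h0
    rw [h0] at h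
    simp at h
  have h0' : τ' ≠ 0 := by
    intro h0
    rw [h0] at h'
    simp at h'
  have hc : (starRingEnd ℂ) τ = τ⁻¹ := by
    rw [Complex.inv_def, Complex.normSq_eq_norm_sq, h]
    simp
  have hc' : (starRingEnd ℂ) τ' = τ'⁻¹ := by
    rw [Complex.inv_def, Complex.normSq_eq_norm_sq, h']
    simp
  have hz : (starRingEnd ℂ) (I * (τ - τ') / (τ + τ')) = I * (τ - τ') / (τ + τ') := by
    rw [map_div₀, map_mul, map_sub, map_add, hc, hc', Complex.conj_I]
    have hs2 : τ' + τ ≠ 0 := by rwa [add_comm] at hs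
    have hs3 : τ⁻¹ + τ'⁻¹ ≠ 0 := by
      intro h1
      apply hs
      field_simp at h1
      linear_combination h1
    rw [div_eq_div_iff hs3 hs]
    field_simp
    ring
  obtain ⟨κ, hκ⟩ := Complex.conj_eq_iff_real.mp hz
  refine ⟨κ, ?_⟩
  rw [div_eq_iff hs] at hκ
  linear_combination (-1 : ℂ) * hκ

theorem fs_W (L ε : ℝ) (hL : 0 < L) (hε : 0 < ε) :
    ∃ W : List ℝ, (∀ w ∈ W, 0 < w ∧ w ≤ ε) ∧ 2 * W.sum = L := by
  obtain ⟨m, hm⟩ := exists_nat_gt (L / (2 * ε))
  have hm0 : (0 : ℝ) < m := lt_trans (by positivity) hm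
  refine ⟨List.replicate m (L / (2 * m)), ?_, ?_⟩
  · intro w hw
    rw [List.eq_of_mem_replicate hw]
    refine ⟨by positivity, ?_⟩
    rw [div_lt_iff₀ (by positivity)] at hm
    rw [div_le_iff₀ (by positivity)]
    nlinarith
  · rw [List.sum_replicate, nsmul_eq_mul]
    field_simp

theorem fs_min (n : ℕ) (f : ℕ → ℝ) (hf : ∀ i, 0 < f i) : ∃ r > 0, ∀ i < n, r < f i := by
  induction n with
  | zero => exact ⟨1, one_pos, fun i hi => absurd hi (Nat.not_lt_zero i)⟩
  | succ n ih =>
    obtain ⟨r, hr, h⟩ := ih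
    refine ⟨min r (f n / 2), lt_min hr (half_pos (hf n)), ?_⟩
    intro i hi
    rcases Nat.lt_succ_iff_lt_or_eq.mp hi with h1 | h1
    · exact lt_of_le_of_lt (min_le_left _ _) (h i h1)
    · subst h1
      exact lt_of_le_of_lt (min_le_right _ _) (half_lt_self (hf i))

theorem fs_dir (a b τ : ℂ) (t : ℝ) (ht : 0 < t) (hτ : ‖τ‖ = 1) (h : b - a = (t : ℂ) * τ) :
    dir a b = τ ∧ ‖b - a‖ = t := by
  have h1 : ‖b - a‖ = t := by
    rw [h, norm_mul, hτ, mul_one, Complex.norm_real, Real.norm_of_nonneg ht.le]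
  refine ⟨?_, h1⟩
  unfold dir
  rw [h1, h]
  have : (t : ℂ) ≠ 0 := by exact_mod_cast ht.ne'
  field_simp

theorem fs_flat {β : Type*} {α : Type*} (n : ℕ) (x : ℕ → α) (f : α → α → List β) (g : ℕ → List β)
    (hx : x n = x 0) (h : ∀ i, f (x i) (x (i + 1)) = g i) :
    (cyc ((List.range n).map x)).flatMap (fun e => f e.1 e.2) = (List.range n).flatMap g := by
  rw [fs_cyc_range n x hx, List.flatMap_map]
  congr 1
  funext i
  exact h i

theorem fs_place_shift (W : List ℝ) : ∀ (s τ : ℂ) (h : ℝ),
    ((place s τ W).map (fun p => ((p.1, p.2, 0, τ) : Tip))).map (inner h) =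
      place (s + h * I * τ) τ W := by
  induction W with
  | nil =>
    intro s τ h
    rfl
  | cons w W ih =>
    intro s τ h
    simp only [place, List.map_cons]
    rw [ih]
    congr 1
    · simp only [inner]
      refine Prod.ext ?_ ?_
      · simp only
        push_cast
        ring
      · simp
    · congr 1
      ring

theorem fs_place_outer (W : List ℝ) : ∀ (s τ : ℂ),
    ((place s τ W).map (fun p => ((p.1, p.2, 0, τ) : Tip))).map outer = place s τ W := by
  intro s τ
  rw [List.map_map]
  conv_rhs => rw [← List.map_id (place s τ W)]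
  rfl

theorem final_stack (P : ℝ → List (ℂ × ℝ) → Prop) (Q : List (ℂ × ℝ) → Prop)
    (ring : ∀ {h : ℝ}, 0 < h → ∀ (G : List Tip), (∀ e ∈ cyc G, RingRel e.1 e.2) →
      (∀ g ∈ G, 0 < g.2.1 - h * g.2.2.1) → P h (G.map (inner h)) → Q (G.map outer))
    {V : List ℂ} (hV : SimpleL V) (hF : Fill P V) :
    ∃ R > 0, ∃ K : List Cor, K.map Prod.fst = V ∧
      (∀ x ∈ K, x.2.1 = R ∧ ∀ w ∈ x.2.2, 0 < w ∧ w < R) ∧ (∀ e ∈ cyc K, FitE e.1 e.2) ∧
      Q (tips K) := by
  obtain ⟨hn3, hnd, hsimp⟩ := hV
  obtain ⟨κ0, hκ0, η, hη, δ, hδ, hFill⟩ := hF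
  obtain ⟨n, hn⟩ : ∃ n, n = V.length := ⟨_, rfl⟩
  rw [← hn] at hn3
  have hn0 : 0 < n := by omega
  -- the periodic vertex function
  let v : ℕ → ℂ := fun i => V[i % n]'(by rw [← hn]; exact Nat.mod_lt _ hn0)
  have hvper : ∀ i, v (i + n) = v i := by
    intro i
    simp only [v, Nat.add_mod_right]
  have hVv : V = (List.range n).map v := by
    apply List.ext_getElem
    · simp [hn]
    · intro i h1 h2
      have hi : i < n := by simpa using h2
      simp only [List.getElem_map, List.getElem_range, v]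
      congr 1
      rw [Nat.mod_eq_of_lt hi]
  have hvinj : ∀ i j, v i = v j → i % n = j % n := by
    intro i j hij
    exact (List.Nodup.getElem_inj_iff hnd).mp hij
  have hv0 : v n = v 0 := by simpa using hvper 0
  have hmem : ∀ i, (v i, v (i + 1)) ∈ cyc V := by
    intro i
    rw [hVv, fs_cyc_range n v hv0, List.mem_map]
    refine ⟨i % n, by simpa using Nat.mod_lt _ hn0, ?_⟩
    simp only [v]
    congr 1
    · congr 1
      exact Nat.mod_mod _ _
    · congr 1
      exact (Nat.mod_add_mod _ _ _)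
  have hne1 : ∀ i, v (i + 1) - v i ≠ 0 := by
    intro i h0
    have h1 := hvinj _ _ (sub_eq_zero.mp h0)
    have h2 : (i + 1) % n ≠ i % n := by
      intro h3
      have h4 : n ∣ (i + 1) - i := (Nat.modEq_iff_dvd' (by omega)).mp h3.symm
      have h5 : n ∣ 1 := by simpa using h4
      have := Nat.le_of_dvd one_pos h5
      omega
    exact h2 h1
  have hne2 : ∀ i, v (i + 2) - v i ≠ 0 := by
    intro i h0
    have h1 := hvinj _ _ (sub_eq_zero.mp h0)
    have h2 : (i + 2) % n ≠ i % n := by
      intro h3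
      have h4 : n ∣ (i + 2) - i := (Nat.modEq_iff_dvd' (by omega)).mp h3.symm
      have h5 : n ∣ 2 := by simpa using h4
      have := Nat.le_of_dvd two_pos h5
      omega
    exact h2 h1
  let ell : ℕ → ℝ := fun i => ‖v (i + 1) - v i‖
  have hell : ∀ i, 0 < ell i := fun i => norm_pos_iff.mpr (hne1 i)
  let τ : ℕ → ℂ := fun i => dir (v i) (v (i + 1))
  have hτdef : ∀ i, v (i + 1) = v i + (ell i : ℂ) * τ i := by
    intro i
    have : (ell i : ℂ) ≠ 0 := by exact_mod_cast (hell i).ne'
    simp only [τ, dir]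
    have e : ((‖v (i + 1) - v i‖ : ℝ) : ℂ) = (ell i : ℂ) := rfl
    rw [e]
    field_simp
    ring
  have hτn : ∀ i, ‖τ i‖ = 1 := by
    intro i
    simp only [τ, dir]
    rw [norm_div, Complex.norm_real, norm_norm]
    exact div_self (hell i).ne'
  have hτper : ∀ i, τ (i + n) = τ i := by
    intro i
    simp only [τ]
    rw [hvper i, show i + n + 1 = (i + 1) + n by ring, hvper (i + 1)]
  have hellper : ∀ i, ell (i + n) = ell i := by
    intro i
    simp only [ell]
    rw [hvper i, show i + n + 1 = (i + 1) + n by ring, hvper (i + 1)]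
  -- consecutive edges are not opposite
  have hopp : ∀ i, τ (i + 1) ≠ -τ i := by
    intro i h0
    have h1 : (v i, v (i + 1)) ≠ (v (i + 1), v (i + 1 + 1)) := by
      intro h2
      have h2' : v i = v (i + 1) := (Prod.ext_iff.mp h2).1
      exact hne1 i (by rw [← h2']; simp)
    have h2 := hsimp _ (hmem i) _ (hmem (i + 1)) h1
    have e1 : v i = v (i + 1) + (ell i : ℂ) * τ (i + 1) := by
      rw [h0, hτdef i]
      ring
    have e2 : v (i + 1 + 1) = v (i + 1) + (ell (i + 1) : ℂ) * τ (i + 1) := hτdef (i + 1)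
    rcases le_total (ell i) (ell (i + 1)) with h3 | h3
    · have hm : v i ∈ segment ℝ (v (i + 1)) (v (i + 1 + 1)) := by
        rw [segment_eq_image_lineMap]
        refine ⟨ell i / ell (i + 1), ⟨by have := hell i; have := hell (i+1); positivity,
          (div_le_one (hell (i + 1))).mpr h3⟩, ?_⟩
        rw [AffineMap.lineMap_apply_module']
        rw [e2, e1]
        simp only [add_sub_cancel_left, Complex.real_smul]
        have : (ell (i + 1) : ℂ) ≠ 0 := by exact_mod_cast (hell (i + 1)).ne'
        push_cast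
        field_simp
        ring
      have h4 := h2 ⟨left_mem_segment ℝ _ _, hm⟩
      rcases h4.2 with h5 | h5
      · have h5' : v i = v (i + 1) := h5
        exact hne1 i (by rw [← h5']; simp)
      · have h5' : v i = v (i + 2) := h5
        exact hne2 i (by rw [← h5']; simp)
    · have hm : v (i + 1 + 1) ∈ segment ℝ (v i) (v (i + 1)) := by
        rw [segment_symm, segment_eq_image_lineMap]
        refine ⟨ell (i + 1) / ell i, ⟨by have := hell i; have := hell (i+1); positivity,
          (div_le_one (hell i)).mpr h3⟩, ?_⟩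
        rw [AffineMap.lineMap_apply_module']
        rw [e2, e1]
        simp only [add_sub_cancel_left, Complex.real_smul]
        have : (ell i : ℂ) ≠ 0 := by exact_mod_cast (hell i).ne'
        push_cast
        field_simp
        ring
      have h4 := h2 ⟨hm, right_mem_segment ℝ _ _⟩
      rcases h4.1 with h5 | h5
      · have h5' : v (i + 2) = v i := h5
        exact hne2 i (by rw [h5']; simp)
      · have h5' : v (i + 1 + 1) = v (i + 1) := h5
        exact hne1 (i + 1) (by rw [h5']; simp)
  have hkap : ∀ i, ∃ κ : ℝ, ((κ : ℂ) + I) * τ (i + 1) = (-(κ : ℂ) + I) * τ i := fun i =>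
    fs_kap (τ i) (τ (i + 1)) (hτn i) (hτn (i + 1)) (hopp i)
  choose kap hkap using hkap
  let κ : ℕ → ℝ := fun i => kap ((i + (n - 1)) % n)
  have hτmod : ∀ i, τ (i % n) = τ i := by
    intro i
    conv_rhs => rw [← Nat.mod_add_div i n]
    induction i / n with
    | zero => simp
    | succ k ih => rw [Nat.mul_succ, ← add_assoc, hτper, ← ih]
  have hκ : ∀ i, ((κ (i + 1) : ℂ) + I) * τ (i + 1) = (-(κ (i + 1) : ℂ) + I) * τ i := by
    intro i
    have e1 : (i + 1 + (n - 1)) % n = i % n := by
      rw [show i + 1 + (n - 1) = i + n by omega, Nat.add_mod_right]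
    have h1 := hkap (i % n)
    simp only [κ, e1]
    have e2 : τ (i % n + 1) = τ (i + 1) := by
      rw [← hτmod (i % n + 1), Nat.mod_add_mod, hτmod]
    rw [e2, hτmod] at h1
    exact h1
  have hκper : κ n = κ 0 := by
    simp only [κ]
    congr 1
    rw [show n + (n - 1) = (0 + (n - 1)) + n by omega, Nat.add_mod_right]
  -- choice of `R`
  obtain ⟨R0, hR0, hR0'⟩ := fs_min n (fun i => ell i / 4) (fun i => by have := hell i; positivity)
  obtain ⟨R, hR, hRδ, hRR⟩ : ∃ R : ℝ, 0 < R ∧ R < δ ∧ R ≤ R0 :=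
    ⟨min R0 (δ / 2), by positivity, lt_of_le_of_lt (min_le_right _ _) (by linarith),
      min_le_left _ _⟩
  have hellmod : ∀ i, ell (i % n) = ell i := by
    intro i
    conv_rhs => rw [← Nat.mod_add_div i n]
    induction i / n with
    | zero => simp
    | succ k ih => rw [Nat.mul_succ, ← add_assoc, hellper, ← ih]
  have hR4 : ∀ i, 4 * R < ell i := by
    intro i
    have := hR0' (i % n) (Nat.mod_lt _ hn0)
    simp only [hellmod] at this
    linarith
  have hW : ∀ i, ∃ W : List ℝ, (∀ w ∈ W, 0 < w ∧ w ≤ min κ0 (1 / 2) * R) ∧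
      2 * W.sum = ell i - 2 * R := fun i =>
    fs_W _ _ (by have := hR4 i; linarith) (by positivity)
  choose W0 hW1 hW2 using hW
  let W : ℕ → List ℝ := fun i => W0 (i % n)
  have hW1' : ∀ i, ∀ w ∈ W i, 0 < w ∧ w ≤ min κ0 (1 / 2) * R := fun i => hW1 (i % n)
  have hW2' : ∀ i, 2 * (W i).sum = ell i - 2 * R := by
    intro i
    have := hW2 (i % n)
    rw [hellmod] at this
    exact this
  have hWper : W n = W 0 := by
    simp only [W]
    congr 1
    simp
  have hτ0 : τ n = τ 0 := by simpa using hτper 0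
  -- choice of `h`
  obtain ⟨h, hh, hh'⟩ := fs_min n (fun i => min (η / (|κ i| + 1)) (R / 2 / (|κ i| + 1)))
    (fun i => by positivity)
  have hκmod : ∀ i, κ (i % n) = κ i := by
    intro i
    simp only [κ]
    congr 1
    rw [Nat.mod_add_mod]
  have hh1 : ∀ i, h * (|κ i| + 1) < η ∧ h * (|κ i| + 1) < R / 2 := by
    intro i
    have h1 := hh' (i % n) (Nat.mod_lt _ hn0)
    simp only [hκmod] at h1
    have h2 := lt_of_lt_of_le h1 (min_le_left _ _)
    have h3 := lt_of_lt_of_le h1 (min_le_right _ _)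
    rw [lt_div_iff₀ (by positivity)] at h2 h3
    exact ⟨h2, h3⟩
  have hhκ : ∀ i, |h * κ i| < R / 2 := by
    intro i
    rw [abs_mul, abs_of_pos hh]
    have := (hh1 i).2
    nlinarith
  have hvW : ∀ i, v (i + 1) = v i + ((2 * R + 2 * (W i).sum : ℝ) : ℂ) * τ i := by
    intro i
    rw [hW2' i, hτdef i]
    push_cast
    ring
  -- the tips
  let G : List Tip := (List.range n).flatMap (fun i => fsBlk (v i) (τ i) R (κ i) (W i))
  let k1 : ℕ → Cor := fun i => (v i, R, W i)
  let k2 : ℕ → Cor := fun i => (v i + h * ((κ i : ℂ) + I) * τ i, R - h * κ i, W i)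
  have hk1 : k1 n = k1 0 := by
    simp only [k1, hv0, hWper]
  have hk2 : k2 n = k2 0 := by
    simp only [k2, hv0, hWper, hκper, hτ0]
  have hGchain : ∀ e ∈ cyc G, RingRel e.1 e.2 := by
    have h1 := fs_chain v τ R κ W hR hτn (fun i w hw => (hW1' i w hw).1) hκ hvW n 0
    rw [← List.range_eq_range'] at h1
    have h2 : ∃ rest, G = ((v 0, R, κ 0, τ 0) : Tip) :: rest := by
      simp only [G]
      obtain ⟨n', rfl⟩ : ∃ n', n = n' + 1 := ⟨n - 1, by omega⟩
      rw [List.range_succ_eq_map, List.flatMap_cons]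
      exact ⟨_, rfl⟩
    obtain ⟨rest, hrest⟩ := h2
    rw [hrest]
    apply fs_chain_cyc
    have h3 : List.IsChain RingRel (G ++ [((v (0 + n), R, κ (0 + n), τ (0 + n)) : Tip)]) := h1
    rw [hrest, zero_add, hv0, hκper, hτ0] at h3
    exact h3
  have hGpos : ∀ g ∈ G, 0 < g.2.1 - h * g.2.2.1 := by
    intro g hg
    simp only [G, List.mem_flatMap] at hg
    obtain ⟨i, _, hg⟩ := hg
    simp only [fsBlk, List.mem_cons, List.mem_map] at hg
    rcases hg with rfl | ⟨p, hp, rfl⟩
    · simp only
      have := abs_lt.mp (hhκ i)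
      linarith [this.2]
    · simp only [mul_zero, sub_zero]
      have : ∀ (Z : List ℝ) (s t : ℂ), (∀ w ∈ Z, 0 < w) → ∀ p ∈ place s t Z, 0 < p.2 := by
        intro Z
        induction Z with
        | nil =>
          intro s t _ p hp
          simp [place] at hp
        | cons w Z ih =>
          intro s t hw p hp
          simp only [place, List.mem_cons] at hp
          rcases hp with rfl | hp
          · exact hw w (by simp)
          · exact ih _ _ (fun w' hw' => hw w' (by simp [hw'])) p hp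
      exact this (W i) _ _ (fun w hw => (hW1' i w hw).1) p hp
  have hGouter : G.map outer = tips ((List.range n).map k1) := by
    unfold tips
    rw [fs_flat n k1 (fun x y => edgeTips x y)
      (fun i => (fsBlk (v i) (τ i) R (κ i) (W i)).map outer) hk1]
    · simp only [G]
      rw [List.map_flatMap]
    · intro i
      simp only [fsBlk, List.map_cons]
      rw [fs_place_outer]
      rfl
  -- the directions of the shifted polygon
  have hk2dir : ∀ i, dir (k2 i).1 (k2 (i + 1)).1 = τ i ∧
      ‖(k2 (i + 1)).1 - (k2 i).1‖ = ell i - h * κ i - h * κ (i + 1) := by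
    intro i
    apply fs_dir
    · have h1 := abs_lt.mp (hhκ i)
      have h2 := abs_lt.mp (hhκ (i + 1))
      have h3 := hR4 i
      linarith [h1.2, h2.2]
    · exact hτn i
    · simp only [k2]
      have e1 := hκ i
      have e2 := hτdef i
      push_cast
      linear_combination e2 + (h : ℂ) * e1
  have hGinner : G.map (inner h) = tips ((List.range n).map k2) := by
    unfold tips
    rw [fs_flat n k2 (fun x y => edgeTips x y)
      (fun i => (fsBlk (v i) (τ i) R (κ i) (W i)).map (inner h)) hk2]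
    · simp only [G]
      rw [List.map_flatMap]
    · intro i
      simp only [fsBlk, List.map_cons]
      rw [fs_place_shift]
      simp only [edgeTips]
      rw [(hk2dir i).1]
      congr 1
      simp only [k2]
      congr 1
      push_cast
      ring
  refine ⟨R, hR, (List.range n).map k1, ?_, ?_, ?_, ?_⟩
  · rw [List.map_map]
    exact hVv.symm
  · intro x hx
    rw [List.mem_map] at hx
    obtain ⟨i, _, rfl⟩ := hx
    refine ⟨rfl, ?_⟩
    intro w hw
    have := hW1' i w hw
    refine ⟨this.1, ?_⟩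
    have h2 : min κ0 (1 / 2) * R ≤ 1 / 2 * R := by
      apply mul_le_mul_of_nonneg_right (min_le_right _ _) hR.le
    linarith [this.2]
  · intro e he
    rw [fs_cyc_range n k1 hk1, List.mem_map] at he
    obtain ⟨i, _, rfl⟩ := he
    refine ⟨hR, fun w hw => (hW1' i w hw).1, ?_⟩
    have := hW2' i
    show ell i = R + 2 * (W i).sum + R
    linarith
  · rw [← hGouter]
    apply ring hh G hGchain hGpos
    rw [hGinner]
    apply hFill R hR hRδ
    · rw [hVv, List.forall₂_map_left_iff, List.forall₂_map_right_iff, List.forall₂_same]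
      intro i _
      simp only [k2]
      have e1 : v i - (v i + (h : ℂ) * ((κ i : ℂ) + I) * τ i) =
          -((h : ℂ) * ((κ i : ℂ) + I) * τ i) := by ring
      rw [e1, norm_neg, norm_mul, norm_mul, hτn i, mul_one, Complex.norm_real,
        Real.norm_of_nonneg hh.le]
      have e2 : ‖(κ i : ℂ) + I‖ ≤ |κ i| + 1 := by
        refine (norm_add_le _ _).trans ?_
        simp
      have := (hh1 i).1
      nlinarith
    · intro x hx
      rw [List.mem_map] at hx
      obtain ⟨i, _, rfl⟩ := hx
      have h1 := abs_lt.mp (hhκ i)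
      refine ⟨?_, ?_, ?_⟩
      · simp only [k2]
        linarith [h1.2]
      · simp only [k2]
        linarith [h1.1]
      · intro w hw
        have := hW1' i w hw
        refine ⟨this.1, this.2.trans ?_⟩
        exact mul_le_mul_of_nonneg_right (min_le_left _ _) hR.le
    · intro e he
      rw [fs_cyc_range n k2 hk2, List.mem_map] at he
      obtain ⟨i, _, rfl⟩ := he
      have h1 := abs_lt.mp (hhκ i)
      refine ⟨?_, fun w hw => (hW1' i w hw).1, ?_⟩
      · simp only [k2]
        linarith [h1.2]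
      · rw [(hk2dir i).2]
        simp only [k2]
        have := hW2' i
        linarith

end

end Pool.Agent.Helper22.FC
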