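import Mathlib

/-! Simple polygons, the piece of paper bounded by a simple polygon, and flat foldings of a piece of
paper. The plane is `ℂ` with its usual distance. -/

namespace Pool.Agent.Helper22.FC

/-- the `i`-th edge of the closed polygon with vertices `v 0, v 1, …, v (n + 2)`
(indices are cyclic: the last edge joins `v (n + 2)` to `v 0`) -/
def edge {n : ℕ} (v : Fin (n + 3) → ℂ) (i : Fin (n + 3)) : Set ℂ := segment ℝ (v i) (v (i + 1))

/-- the union of the edges -/
def boundary {n : ℕ} (v : Fin (n + 3) → ℂ) : Set ℂ := ⋃ i, edge v i

/-- `v` is a simple closed polygon with `n + 3` vertices: the vertices are distinct, and two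
different edges meet at most in common endpoints -/
structure SimplePolygon {n : ℕ} (v : Fin (n + 3) → ℂ) : Prop where
  inj : Function.Injective v
  simple : ∀ i j, i ≠ j → edge v i ∩ edge v j ⊆ {v i, v (i + 1)} ∩ {v j, v (j + 1)}

/-- `P` is the closed region bounded by the polygon `v` (the piece of paper): it is compact, it is
the closure of its interior, and its topological boundary is the union of the edges -/
structure IsPaper {n : ℕ} (v : Fin (n + 3) → ℂ) (P : Set ℂ) : Prop where
  compact : IsCompact P
  regular : closure (interior P) = P
  bdry : frontier P = boundary v

/-- the faces `i` and `j` are adjacent along a crease at the point `x`: `x` lies in both faces, and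
these two faces cover a neighbourhood of `x` -/
def Meets {ι : Type} (face : ι → Set ℂ) (i j : ι) (x : ℂ) : Prop :=
  i ≠ j ∧ x ∈ face i ∧ x ∈ face j ∧ face i ∪ face j ∈ nhds x

/-- the image of `A` near `x` and the image of `B` near `y` are equal; used when `f x = f y`, to say
that two folded faces lie on the same side of the image of a crease -/
def SameGerm (f : ℂ → ℂ) (A B : Set ℂ) (x y : ℂ) : Prop :=
  ∃ ε > 0, f '' (A ∩ Metric.ball x ε) = f '' (B ∩ Metric.ball y ε)

/-- `b` lies strictly between `a` and `c` -/
def Between (a b c : ℝ) : Prop := (a < b ∧ b < c) ∨ (c < b ∧ b < a)

/-- A flat folding (flat folded state) of the piece of paper `P`. -/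
structure FlatFolding (P : Set ℂ) where
  /-- the folding map; only its values on `P` matter -/
  f : ℂ → ℂ
  /-- the index set of the faces of the crease pattern -/
  ι : Type
  /-- there are finitely many faces -/
  fin : Finite ι
  /-- the faces -/
  face : ι → Set ℂ
  /-- each face is a convex polygon -/
  polygon : ∀ i, ∃ s : Finset ℂ, face i = convexHull ℝ (s : Set ℂ)
  /-- each face has interior points -/
  solid : ∀ i, (interior (face i)).Nonempty
  /-- different faces do not overlap -/
  disjoint : ∀ i j, i ≠ j → Disjoint (interior (face i)) (interior (face j))
  /-- the faces cover exactly the paper -/
  cover : ⋃ i, face i = P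
  /-- the folding map is continuous on the paper -/
  continuous : ContinuousOn f P
  /-- on each face the folding map is the restriction of an isometry of the plane -/
  isometric : ∀ i, ∃ g : ℂ ≃ᵢ ℂ, ∀ x ∈ face i, f x = g x
  /-- the layer ordering: `level i < level j` means that face `i` lies below face `j` -/
  level : ι → ℝ
  /-- different faces lie in different layers -/
  level_injective : Function.Injective level
  /-- no face passes through a crease: if an interior point of face `k` lies over a point of a
  crease between the faces `i` and `j`, then `k` is not between `i` and `j` -/
  crease_face : ∀ (i j k : ι) (x y : ℂ), Meets face i j x → y ∈ interior (face k) → f y = f x →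
    ¬ Between (level i) (level k) (level j)
  /-- if the paper is folded at the crease between `i` and `j`, and `k` is a face between `i` and
  `j` which ends along the same line, on the same side, at a crease joining it to `l`, then the
  paper is folded there too and `l` is also between `i` and `j` -/
  folded_crease : ∀ (i j k l : ι) (x y : ℂ), Meets face i j x → Meets face k l y → f x = f y →
    SameGerm f (face i) (face j) x x → SameGerm f (face i) (face k) x y →
    Between (level i) (level k) (level j) →
    SameGerm f (face k) (face l) y y ∧ Between (level i) (level l) (level j)
  /-- if the paper is not folded at the crease between `i` and `j` and not folded at the crease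
  between `k` and `l` lying over it, `i` and `k` being on the same side and `j` and `l` being on the
  same side, then the two sheets do not exchange their order -/
  flat_crease : ∀ (i j k l : ι) (x y : ℂ), Meets face i j x → Meets face k l y → f x = f y →
    ¬ SameGerm f (face i) (face j) x x → ¬ SameGerm f (face k) (face l) y y →
    SameGerm f (face i) (face k) x y → SameGerm f (face j) (face l) x y →
    (level i < level k ↔ level j < level l)

end Pool.Agent.Helper22.FC
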