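import Mathlib
import Pool.Agent.Helper22.FC.Model

/-! Basic definitions for the fold-and-cut construction: cyclic lists of points, angles and winding
of closed polygons, trapezoidal pieces and stacks of pieces. -/

namespace Pool.Agent.Helper22.FC

open Complex

noncomputable section

/-- consecutive pairs of a cyclic list -/
def cyc {α : Type*} (V : List α) : List (α × α) := V.zip (V.rotate 1)

/-- the angle under which the segment from `a` to `b` is seen from `x` -/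
def ang (x a b : ℂ) : ℝ := arg ((b - x) / (a - x))

/-- total angle of the closed polygon `V` seen from `x` -/
def wnd (x : ℂ) (V : List ℂ) : ℝ := ((cyc V).map (fun e => ang x e.1 e.2)).sum

/-- the closed polygonal curve with vertex list `V` -/
def curve (V : List ℂ) : Set ℂ := {x | ∃ e ∈ cyc V, x ∈ segment ℝ e.1 e.2}

/-- a trapezoidal piece: `s` tells the orientation of its frame, `t` is the origin and `τ` the
unit direction of its frame; its image is the trapezoid between the heights `y0` and `y1`, bounded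
by the vertical axis and with widths `ρ0` (bottom) and `ρ1` (top). -/
structure Pc where
  s : Bool
  t : ℂ
  τ : ℂ
  y0 : ℝ
  y1 : ℝ
  ρ0 : ℝ
  ρ1 : ℝ

namespace Pc

/-- the point of the paper with image coordinates `(a, b)` -/
def pt (p : Pc) (a b : ℝ) : ℂ := p.t + ((if p.s then (a : ℂ) else -(a : ℂ)) + b * I) * p.τ

/-- the isometry carrying the piece to its image -/
def σ (p : Pc) (x : ℂ) : ℂ :=
  if p.s then (x - p.t) * (starRingEnd ℂ) p.τ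
  else -(starRingEnd ℂ) ((x - p.t) * (starRingEnd ℂ) p.τ)

def s0 (p : Pc) : ℂ := p.pt 0 p.y0
def s1 (p : Pc) : ℂ := p.pt 0 p.y1
def e0 (p : Pc) : ℂ := p.pt p.ρ0 p.y0
def e1 (p : Pc) : ℂ := p.pt p.ρ1 p.y1

/-- the image trapezoid -/
def trap (p : Pc) : Set ℂ :=
  {q | p.y0 ≤ q.im ∧ q.im ≤ p.y1 ∧ 0 ≤ q.re ∧
    q.re * (p.y1 - p.y0) ≤ p.ρ0 * (p.y1 - q.im) + p.ρ1 * (q.im - p.y0)}

/-- the piece of paper -/
def face (p : Pc) : Set ℂ := {x | p.σ x ∈ p.trap}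

/-- its vertices in counterclockwise order -/
def bd (p : Pc) : List ℂ := if p.s then [p.s0, p.e0, p.e1, p.s1] else [p.e0, p.s0, p.s1, p.e1]

/-- well-formed pieces -/
def Ok (p : Pc) : Prop := ‖p.τ‖ = 1 ∧ p.y0 < p.y1 ∧ 0 < p.ρ0 ∧ 0 ≤ p.ρ1

/-- glued along the vertical side -/
def MS (p q : Pc) : Prop := p.s ≠ q.s ∧ p.y0 = q.y0 ∧ p.y1 = q.y1 ∧ p.s0 = q.s0 ∧ p.s1 = q.s1

/-- glued along the slanted side -/
def MB (p q : Pc) : Prop := p.s ≠ q.s ∧ p.y0 = q.y0 ∧ p.y1 = q.y1 ∧ p.ρ0 = q.ρ0 ∧ p.ρ1 = q.ρ1 ∧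
  p.e0 = q.e0 ∧ p.e1 = q.e1

/-- glued along the bottom -/
def ML (p q : Pc) : Prop := p.s ≠ q.s ∧ p.y0 = q.y0 ∧ p.ρ0 = q.ρ0 ∧ p.s0 = q.s0 ∧ p.e0 = q.e0

/-- `q` continues `p` above the top of `p` -/
def MF (p q : Pc) : Prop := p.s = q.s ∧ p.t = q.t ∧ p.τ = q.τ ∧ p.y1 = q.y0 ∧ p.ρ1 = q.ρ0

end Pc

/-- the geometry of the two bottom pieces `p` (right piece at the tip `a`) and `q` (left piece at
the tip `b`) along the boundary edge from `a` to `b`, at base height `H` -/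
def EdgeGeo (H : ℝ) (a b : ℂ × ℝ) (p q : Pc) : Prop :=
  ∃ τ : ℂ, ‖τ‖ = 1 ∧ b.1 - a.1 = ((a.2 + b.2 : ℝ) : ℂ) * τ ∧ p.s = false ∧ q.s = true ∧
    p.τ = τ ∧ q.τ = τ ∧ p.t = a.1 + a.2 * τ - H * I * τ ∧ q.t = a.1 + a.2 * τ - H * I * τ ∧
    p.y0 = H ∧ q.y0 = H ∧ p.ρ0 = a.2 ∧ q.ρ0 = b.2 ∧ p.y1 = q.y1

/-- a stack of pieces over the closed polygon with tips `D` (centres and radii), base height `H` -/
structure Stack (H : ℝ) (D : List (ℂ × ℝ)) where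
  ι : Type
  fin : Fintype ι
  pc : ι → Pc
  z : ι → ℝ
  T : List ((ℂ × ℝ) × ι × ι)
  RS : ι → ι → Prop
  RB : ι → ι → Prop
  RL : ι → ι → Prop
  RF : ι → ι → Prop
  hT : T.map Prod.fst = D
  hne : T ≠ []
  z_inj : Function.Injective z
  ok : ∀ k, (pc k).Ok ∧ H ≤ (pc k).y0
  geo : ∀ e ∈ cyc T, EdgeGeo H e.1.1 e.2.1 (pc e.1.2.2) (pc e.2.2.1) ∧ RS e.1.2.2 e.2.2.1
  sorted : (T.flatMap (fun e => [e.2.1, e.2.2])).Pairwise (fun a b => z a < z b)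
  gap : T.IsChain (fun e e' => ∀ k, ¬ (z e.2.2 < z k ∧ z k < z e'.2.1))
  rootL : ∀ e ∈ T.head?, ∀ k, z e.2.1 ≤ z k
  rootR : ∀ e ∈ T.getLast?, ∀ k, z k ≤ z e.2.2
  symS : ∀ k l, RS k l → RS l k
  symB : ∀ k l, RB k l → RB l k
  symL : ∀ k l, RL k l → RL l k
  geoS : ∀ k l, RS k l → (pc k).MS (pc l)
  geoB : ∀ k l, RB k l → (pc k).MB (pc l)
  geoL : ∀ k l, RL k l → (pc k).ML (pc l)
  geoF : ∀ k l, RF k l → (pc k).MF (pc l)
  exS : ∀ k, ∃ l, RS k l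
  exB : ∀ k, ∃ l, RB k l
  exBase : ∀ k, (∃ e ∈ T, k = e.2.1 ∨ k = e.2.2) ∨ (∃ l, RL k l) ∨ ∃ l, RF l k
  exTop : ∀ k, (pc k).ρ1 = 0 ∨ ∃ l, RF k l
  lamS : ∀ k l k' l', RS k l → RS k' l' → z k < z k' → z k' < z l → z l < z l' → False
  lamL : ∀ k l k' l', RL k l → RL k' l' → z k < z k' → z k' < z l → z l < z l' → False
  baseL : ∀ k l m, RL k l → z k < z m → z m < z l → (pc k).y0 ≤ (pc m).y0
  baseB : ∀ k l m, RB k l → z k < z m → z m < z l → (pc k).y1 ≤ (pc m).y0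
  flagL : ∀ k l, RL k l → ∀ e ∈ T, k ≠ e.2.1 ∧ k ≠ e.2.2 ∧ ¬ (z k < z e.2.1 ∧ z e.2.1 < z l) ∧
    ¬ (z k < z e.2.2 ∧ z e.2.2 < z l)
  flagB : ∀ k l, RB k l → ∀ e ∈ T, ¬ (z k < z e.2.1 ∧ z e.2.1 < z l) ∧
    ¬ (z k < z e.2.2 ∧ z e.2.2 < z l)
  adjF : ∀ k l m, RF k l → ¬ (z k < z m ∧ z m < z l) ∧ ¬ (z l < z m ∧ z m < z k)
  wind : ∀ x, (∀ k, x ∉ curve (pc k).bd) →
    ∑ k ∈ fin.elems, wnd x (pc k).bd = wnd x (D.map Prod.fst)

/-- `x` is strictly to the left of the directed line from `a` to `b` iff this is positive -/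
def side (a b x : ℂ) : ℝ := ((x - a) * (starRingEnd ℂ) (b - a)).im

/-- the cyclic list of points `V` is a simple closed polygon -/
def SimpleL (V : List ℂ) : Prop := 3 ≤ V.length ∧ V.Nodup ∧
  ∀ e ∈ cyc V, ∀ e' ∈ cyc V, e ≠ e' →
    segment ℝ e.1 e.2 ∩ segment ℝ e'.1 e'.2 ⊆ ({e.1, e.2} ∩ {e'.1, e'.2} : Set ℂ)

/-- polygons with a formal triangulation by positively oriented triangles -/
inductive Good : List ℂ → Prop
  | tri (a b c : ℂ) (h : 0 < side a b c) : Good [a, b, c]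
  | cut (x y : ℂ) (E B : List ℂ) (hE : E ≠ []) (hB : B ≠ []) (h1 : Good ([x, y] ++ B))
      (h2 : Good ([x] ++ E ++ [y])) : Good ([x] ++ E ++ [y] ++ B)
  | rot (V : List ℂ) (k : ℕ) (h : Good V) : Good (V.rotate k)

/-- a convex closed chain of pairwise touching discs, indexed quasi-periodically -/
structure CPI (n : ℕ) (c : ℕ → ℂ) (r θ : ℕ → ℝ) : Prop where
  n3 : 3 ≤ n
  perc : ∀ i, c (i + n) = c i
  perr : ∀ i, r (i + n) = r i
  perθ : ∀ i, θ (i + n) = θ i + 2 * Real.pi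
  mono : ∀ i, θ i ≤ θ (i + 1)
  lt : ∀ i, θ (i + 1) < θ i + Real.pi
  edge : ∀ i, c (i + 1) - c i = ((r i + r (i + 1) : ℝ) : ℂ) * exp (θ i * I)
  pos : ∀ i, 0 < r i
  disj : ∀ i j, i + 2 ≤ j → j + 2 ≤ i + n → r i + r j ≤ ‖c i - c j‖

/-- turning parameter at the tip `i` -/
def kap (n : ℕ) (θ : ℕ → ℝ) (i : ℕ) : ℝ := Real.tan ((θ (i + n) - θ (i + n - 1)) / 2)

/-- the centre of the tip `i` after moving all edges inwards by `t` -/
def cen (n : ℕ) (c : ℕ → ℂ) (θ : ℕ → ℝ) (t : ℝ) (i : ℕ) : ℂ :=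
  c i + t * ((kap n θ i : ℂ) + I) * exp (θ i * I)

/-- its radius -/
def rad (n : ℕ) (r θ : ℕ → ℝ) (t : ℝ) (i : ℕ) : ℝ := r i - t * kap n θ i

/-- data of a closed chain of tips: centre, radius, turning parameter, direction of the next edge -/
abbrev Tip := ℂ × ℝ × ℝ × ℂ

def RingRel (g g' : Tip) : Prop :=
  ‖g.2.2.2‖ = 1 ∧ g'.1 - g.1 = ((g.2.1 + g'.2.1 : ℝ) : ℂ) * g.2.2.2 ∧
    ((g'.2.2.1 : ℂ) + I) * g'.2.2.2 = (-(g'.2.2.1 : ℂ) + I) * g.2.2.2 ∧ 0 < g.2.1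

def outer (g : Tip) : ℂ × ℝ := (g.1, g.2.1)
def inner (h : ℝ) (g : Tip) : ℂ × ℝ := (g.1 + h * ((g.2.2.1 : ℂ) + I) * g.2.2.2, g.2.1 - h * g.2.2.1)

/-- Facts about `wnd` which are proved elsewhere and may be used. -/
structure WndFacts : Prop where
  const : ∀ {V : List ℂ} {S : Set ℂ}, IsPreconnected S → Disjoint S (curve V) →
    ∀ {x y : ℂ}, x ∈ S → y ∈ S → wnd x V = wnd y V
  closed : ∀ V : List ℂ, IsClosed (curve V)
  half : ∀ {x u : ℂ} {V : List ℂ}, (∀ v ∈ V, 0 < ((v - x) * (starRingEnd ℂ) u).re) → wnd x V = 0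
  rot : ∀ (x : ℂ) (V : List ℂ) (k : ℕ), wnd x (V.rotate k) = wnd x V
  crot : ∀ (V : List ℂ) (k : ℕ), curve (V.rotate k) = curve V
  swap : ∀ {x a b : ℂ}, x ∉ segment ℝ a b → ang x b a = - ang x a b
  add : ∀ {x a b c : ℂ}, b ∈ segment ℝ a c → x ∉ segment ℝ a c →
    ang x a c = ang x a b + ang x b c
  int : ∀ {x : ℂ} {V : List ℂ}, x ∉ curve V → ∃ k : ℤ, wnd x V = 2 * Real.pi * k
  jump : ∀ {V : List ℂ} {a b y : ℂ} {R : List (ℂ × ℂ)}, a ≠ b →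
    (cyc V).Perm ((a, b) :: R) → y ∈ openSegment ℝ a b → (∀ e ∈ R, y ∉ segment ℝ e.1 e.2) →
    ∃ δ > 0, ∀ x x', ‖x - y‖ < δ → ‖x' - y‖ < δ → 0 < side a b x → side a b x' < 0 →
      x ∉ curve V ∧ x' ∉ curve V ∧ wnd x V = wnd x' V + 2 * Real.pi

/-- touching discs with radii `W` placed along the direction `τ`, starting at the point `s` -/
def place (s τ : ℂ) : List ℝ → List (ℂ × ℝ)
  | [] => []
  | w :: W => (s + w * τ, w) :: place (s + 2 * w * τ) τ W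

/-- unit direction from `a` to `b` -/
def dir (a b : ℂ) : ℂ := (b - a) / (‖b - a‖ : ℂ)

/-- a corner, the radius of its disc, and the radii of the discs along the next edge -/
abbrev Cor := ℂ × ℝ × List ℝ

/-- the disc at the corner `x` followed by the discs on the edge from `x` to `y` -/
def edgeTips (x y : Cor) : List (ℂ × ℝ) :=
  (x.1, x.2.1) :: place (x.1 + x.2.1 * dir x.1 y.1) (dir x.1 y.1) x.2.2

/-- all discs of the disc system `K`, in cyclic order -/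
def tips (K : List Cor) : List (ℂ × ℝ) := (cyc K).flatMap (fun e => edgeTips e.1 e.2)

/-- the discs on the edge from `x` to `y` fill the edge exactly -/
def FitE (x y : Cor) : Prop :=
  0 < x.2.1 ∧ (∀ w ∈ x.2.2, 0 < w) ∧ ‖y.1 - x.1‖ = x.2.1 + 2 * x.2.2.sum + y.2.1

/-- the property `P` holds for all fine disc systems on polygons close to `V` -/
def Fill (P : ℝ → List (ℂ × ℝ) → Prop) (V : List ℂ) : Prop :=
  ∃ κ > 0, ∃ η > 0, ∃ δ > 0, ∀ R : ℝ, 0 < R → R < δ → ∀ K : List Cor,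
    List.Forall₂ (fun v x => ‖v - x.1‖ < η) V K →
    (∀ x ∈ K, R / 2 ≤ x.2.1 ∧ x.2.1 ≤ 2 * R ∧ ∀ w ∈ x.2.2, 0 < w ∧ w ≤ κ * R) →
    (∀ e ∈ cyc K, FitE e.1 e.2) → ∀ H, P H (tips K)

/-- Facts about pieces, proved elsewhere. -/
structure PcFacts : Prop where
  face_hull : ∀ {p : Pc}, p.Ok → p.face = convexHull ℝ {p.s0, p.e0, p.e1, p.s1}
  isom : ∀ {p : Pc}, p.Ok → Isometry p.σ
  surj : ∀ {p : Pc}, p.Ok → Function.Surjective p.σ
  σ_pt : ∀ {p : Pc}, p.Ok → ∀ a b : ℝ, p.σ (p.pt a b) = (a : ℂ) + b * I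
  mem_face : ∀ {p : Pc}, p.Ok → ∀ a b : ℝ, p.pt a b ∈ p.face ↔
    p.y0 ≤ b ∧ b ≤ p.y1 ∧ 0 ≤ a ∧ a * (p.y1 - p.y0) ≤ p.ρ0 * (p.y1 - b) + p.ρ1 * (b - p.y0)
  mem_int : ∀ {p : Pc}, p.Ok → ∀ a b : ℝ, p.pt a b ∈ interior p.face ↔
    p.y0 < b ∧ b < p.y1 ∧ 0 < a ∧ a * (p.y1 - p.y0) < p.ρ0 * (p.y1 - b) + p.ρ1 * (b - p.y0)
  face_closure : ∀ {p : Pc}, p.Ok → closure (interior p.face) = p.face
  frontier_face : ∀ {p : Pc}, p.Ok → frontier p.face = curve p.bd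
  wnd_inside : ∀ {p : Pc}, p.Ok → ∀ {x : ℂ}, x ∈ interior p.face → wnd x p.bd = 2 * Real.pi
  wnd_outside : ∀ {p : Pc}, p.Ok → ∀ {x : ℂ}, x ∉ p.face → wnd x p.bd = 0

/-- a stack over the boundary of the region `P` with the properties of the final stack -/
structure FSt (D : List (ℂ × ℝ)) (P : Set ℂ) where
  S : Stack 0 D
  hflag : ∀ k, (∀ e ∈ S.T, k ≠ e.2.1 ∧ k ≠ e.2.2) → 0 < (S.pc k).y0
  hB : ∀ e ∈ S.T, S.RB e.2.1 e.2.2
  hU : SimpleL (D.map Prod.fst)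
  hcpt : IsCompact P
  hreg : closure (interior P) = P
  hfr : frontier P = curve (D.map Prod.fst)
  disj : ∀ k l, k ≠ l → Disjoint (interior (S.pc k).face) (interior (S.pc l).face)
  cover : ⋃ k, (S.pc k).face = P

end

end Pool.Agent.Helper22.FC
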