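import Pool.Agent.Helper22.FC.Base

namespace Pool.Agent.Helper22.FC

open Complex

noncomputable section

lemma CPI.thmono {n : ℕ} {c : ℕ → ℂ} {r θ : ℕ → ℝ} (h : CPI n c r θ) : Monotone θ :=
  monotone_nat_of_le_succ h.mono

lemma CPI.sum {n : ℕ} {c : ℕ → ℂ} {r θ : ℕ → ℝ} (h : CPI n c r θ) (p q : ℕ) (hpq : p ≤ q) :
    c q - c p = ∑ k ∈ Finset.Ico p q, ((r k + r (k + 1) : ℝ) : ℂ) * exp (θ k * I) := by
  induction q, hpq using Nat.le_induction with
  | base => simp
  | succ q hq ih =>
    rw [Finset.sum_Ico_succ_top hq, ← ih, ← h.edge q]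
    ring

lemma CPI.G {n : ℕ} {c : ℕ → ℂ} {r θ : ℕ → ℝ} (h : CPI n c r θ) {p q : ℕ} (hpq : p + 2 ≤ q)
    (ψ : ℝ) (hs : ∀ k, p ≤ k → k < q → 0 ≤ Real.sin (θ k - ψ)) (hd : ‖c q - c p‖ = r p + r q) :
    0 < (exp (-(ψ : ℂ) * I) * (c q - c p)).im := by
  have hsum := h.sum p q (by omega)
  have him : (exp (-(ψ : ℂ) * I) * (c q - c p)).im
      = ∑ k ∈ Finset.Ico p q, (r k + r (k + 1)) * Real.sin (θ k - ψ) := by
    rw [hsum, Finset.mul_sum, Complex.im_sum]
    apply Finset.sum_congr rfl
    intro k _
    have e : exp (-(ψ : ℂ) * I) * (((r k + r (k + 1) : ℝ) : ℂ) * exp (θ k * I))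
        = ((r k + r (k + 1) : ℝ) : ℂ) * exp (((θ k - ψ : ℝ) : ℂ) * I) := by
      rw [mul_left_comm, ← Complex.exp_add]
      congr 2
      push_cast; ring
    rw [e, Complex.im_ofReal_mul, Complex.exp_ofReal_mul_I_im]
  rw [him]
  have hl : ∀ k, 0 < r k + r (k + 1) := fun k => add_pos (h.pos k) (h.pos (k + 1))
  have hnn : ∀ k ∈ Finset.Ico p q, 0 ≤ (r k + r (k + 1)) * Real.sin (θ k - ψ) := by
    intro k hk
    rw [Finset.mem_Ico] at hk
    exact mul_nonneg (hl k).le (hs k hk.1 hk.2)
  refine lt_of_le_of_ne (Finset.sum_nonneg hnn) ?_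
  intro h0
  have hz := (Finset.sum_eq_zero_iff_of_nonneg hnn).mp h0.symm
  have hz' : ∀ k, p ≤ k → k < q → Real.sin (θ k - ψ) = 0 := by
    intro k hk1 hk2
    have := hz k (Finset.mem_Ico.mpr ⟨hk1, hk2⟩)
    exact (mul_eq_zero.mp this).resolve_left (hl k).ne'
  have hθ : ∀ k, p ≤ k → k < q → θ k = θ p := by
    intro k hk
    induction k, hk using Nat.le_induction with
    | base => intro _; rfl
    | succ k hk ih =>
      intro hkq
      rw [← ih (by omega)]
      have h1 := hz' k hk (by omega)
      have h2 := hz' (k + 1) (by omega) hkq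
      have h3 : Real.sin (θ (k + 1) - θ k) = 0 := by
        have : θ (k + 1) - θ k = (θ (k + 1) - ψ) - (θ k - ψ) := by ring
        rw [this, Real.sin_sub, h1, h2]; ring
      by_contra hne
      have hlt : 0 < θ (k + 1) - θ k := by
        have := h.mono k
        rcases this.lt_or_eq with h4 | h4
        · linarith
        · exact absurd h4.symm hne
      have := Real.sin_pos_of_pos_of_lt_pi hlt (by linarith [h.lt k])
      linarith
  have hn : ‖c q - c p‖ = ∑ k ∈ Finset.Ico p q, (r k + r (k + 1)) := by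
    have : c q - c p = ((∑ k ∈ Finset.Ico p q, (r k + r (k + 1)) : ℝ) : ℂ) * exp (θ p * I) := by
      rw [hsum, Complex.ofReal_sum, Finset.sum_mul]
      apply Finset.sum_congr rfl
      intro k hk
      rw [Finset.mem_Ico] at hk
      rw [hθ k hk.1 hk.2]
    rw [this, norm_mul, Complex.norm_exp_ofReal_mul_I, mul_one, Complex.norm_real, Real.norm_eq_abs,
      abs_of_nonneg (Finset.sum_nonneg (fun k _ => (hl k).le))]
  obtain ⟨q', rfl⟩ : ∃ q', q = q' + 1 := ⟨q - 1, by omega⟩
  have h5 : (r p + r (p + 1)) + (r q' + r (q' + 1)) ≤ ∑ k ∈ Finset.Ico p (q' + 1), (r k + r (k + 1)) := by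
    rw [Finset.sum_Ico_succ_top (by omega)]
    gcongr
    exact Finset.single_le_sum (f := fun k => r k + r (k + 1)) (fun k _ => (hl k).le)
      (Finset.mem_Ico.mpr ⟨le_refl p, by omega⟩)
  have := h.pos (p + 1)
  have := h.pos q'
  linarith

lemma CPI.H1 {n : ℕ} {c : ℕ → ℂ} {r θ : ℕ → ℝ} (h : CPI n c r θ) {a b : ℕ} (hab : a + 2 ≤ b)
    (hba : b + 2 ≤ a + n) (ht : ‖c a - c b‖ = r a + r b) :
    0 < (exp (-(θ a : ℂ) * I) * (c b - c a)).im := by
  have hm := h.thmono
  have hper := h.perθ a
  rcases le_or_gt (θ (b - 1) - θ a) Real.pi with hc | hc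
  · apply h.G hab (θ a) _ (by rw [norm_sub_rev, ht])
    intro k hk1 hk2
    apply Real.sin_nonneg_of_nonneg_of_le_pi
    · have := hm hk1; linarith
    · have := hm (show k ≤ b - 1 by omega); linarith
  · have := h.G hba (θ a + Real.pi) (by
      intro k hk1 hk2
      apply Real.sin_nonneg_of_nonneg_of_le_pi
      · have := hm (show b - 1 ≤ k by omega); linarith
      · have := hm (show k ≤ a + n by omega); linarith) (by rw [h.perc, h.perr, ht, add_comm])
    rw [h.perc] at this
    have e : exp (-((θ a + Real.pi : ℝ) : ℂ) * I) * (c a - c b) = exp (-(θ a : ℂ) * I) * (c b - c a) := by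
      have : -((θ a + Real.pi : ℝ) : ℂ) * I = -(θ a : ℂ) * I + -((Real.pi : ℂ) * I) := by
        push_cast; ring
      rw [this, Complex.exp_add, Complex.exp_neg (Real.pi * I), Complex.exp_pi_mul_I]
      ring
    rwa [e] at this

lemma CPI.H2 {n : ℕ} {c : ℕ → ℂ} {r θ : ℕ → ℝ} (h : CPI n c r θ) {a b : ℕ} (hab : a + 2 ≤ b)
    (hba : b + 2 ≤ a + n) (ht : ‖c a - c b‖ = r a + r b) :
    0 < (exp (-(θ (b - 1) : ℂ) * I) * (c a - c b)).im := by
  have hm := h.thmono
  have hper := h.perθ a
  rcases le_or_gt (θ (b - 1) - θ a) Real.pi with hc | hc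
  · have := h.G hab (θ (b - 1) - Real.pi) (by
      intro k hk1 hk2
      apply Real.sin_nonneg_of_nonneg_of_le_pi
      · have := hm hk1; linarith
      · have := hm (show k ≤ b - 1 by omega); linarith) (by rw [norm_sub_rev, ht])
    have e : exp (-((θ (b - 1) - Real.pi : ℝ) : ℂ) * I) * (c b - c a)
        = exp (-(θ (b - 1) : ℂ) * I) * (c a - c b) := by
      have : -((θ (b - 1) - Real.pi : ℝ) : ℂ) * I = -(θ (b - 1) : ℂ) * I + ((Real.pi : ℂ) * I) := by
        push_cast; ring
      rw [this, Complex.exp_add, Complex.exp_pi_mul_I]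
      ring
    rwa [e] at this
  · have := h.G hba (θ (b - 1)) (by
      intro k hk1 hk2
      apply Real.sin_nonneg_of_nonneg_of_le_pi
      · have := hm (show b - 1 ≤ k by omega); linarith
      · have := hm (show k ≤ a + n by omega); linarith) (by rw [h.perc, h.perr, ht, add_comm])
    rwa [h.perc] at this

lemma CPI.H3 {n : ℕ} {c : ℕ → ℂ} {r θ : ℕ → ℝ} (h : CPI n c r θ) {a b : ℕ} (hab : a + 2 ≤ b)
    (hba : b + 2 ≤ a + n) (ht : ‖c a - c b‖ = r a + r b) :
    ∃ φ : ℝ, θ (b - 1) < φ ∧ φ < θ (b - 1) + Real.pi ∧ θ a + Real.pi < φ ∧ φ < θ a + 2 * Real.pi ∧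
      c a - c b = ((r b + r a : ℝ) : ℂ) * exp (φ * I) := by
  have hm := h.thmono
  have hper := h.perθ a
  have h1 := h.H1 hab hba ht
  have h2 := h.H2 hab hba ht
  set w := exp (-(θ (b - 1) : ℂ) * I) * (c a - c b) with hw
  have hwn : ‖w‖ = r b + r a := by
    have : -(θ (b - 1) : ℂ) * I = ((-θ (b - 1) : ℝ) : ℂ) * I := by push_cast; ring
    rw [hw, norm_mul, this, Complex.norm_exp_ofReal_mul_I, one_mul, ht, add_comm]
  have ha0 : 0 < arg w := by
    rcases (Complex.arg_nonneg_iff.mpr h2.le).lt_or_eq with h3 | h3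
    · exact h3
    · exfalso
      have := Complex.arg_eq_zero_iff.mp h3.symm
      rw [this.2] at h2
      exact lt_irrefl _ h2
  have ha1 : arg w < Real.pi := by
    rcases (Complex.arg_le_pi w).lt_or_eq with h3 | h3
    · exact h3
    · exfalso
      have := Complex.arg_eq_pi_iff.mp h3
      rw [this.2] at h2
      exact lt_irrefl _ h2
  set φ := θ (b - 1) + arg w with hφ
  have hc : c a - c b = ((r b + r a : ℝ) : ℂ) * exp (φ * I) := by
    have e1 : c a - c b = exp ((θ (b - 1) : ℂ) * I) * w := by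
      rw [hw, ← mul_assoc, ← Complex.exp_add]
      have : (θ (b - 1) : ℂ) * I + -(θ (b - 1) : ℂ) * I = 0 := by ring
      rw [this, Complex.exp_zero, one_mul]
    have e2 : w = ((r b + r a : ℝ) : ℂ) * exp (arg w * I) := by
      rw [← hwn, Complex.norm_mul_exp_arg_mul_I]
    rw [e1]
    conv_lhs => rw [e2]
    rw [mul_left_comm, ← Complex.exp_add]
    congr 2
    rw [hφ]; push_cast; ring
  have hsin : Real.sin (φ - θ a) < 0 := by
    have e : exp (-(θ a : ℂ) * I) * (c b - c a)
        = ((-(r b + r a) : ℝ) : ℂ) * exp (((φ - θ a : ℝ) : ℂ) * I) := by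
      have : c b - c a = -(c a - c b) := by ring
      rw [this, hc]
      have e3 : exp (((φ - θ a : ℝ) : ℂ) * I) = exp (-(θ a : ℂ) * I) * exp (φ * I) := by
        rw [← Complex.exp_add]; congr 1; push_cast; ring
      rw [e3]; push_cast; ring
    rw [e, Complex.im_ofReal_mul, Complex.exp_ofReal_mul_I_im] at h1
    have := h.pos a
    have := h.pos b
    nlinarith
  have hb1 : θ a ≤ θ (b - 1) := hm (by omega)
  have hb2 : θ (b - 1) ≤ θ a + 2 * Real.pi := by
    rw [← hper]; exact hm (by omega)
  have hpi := Real.pi_pos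
  have k1 : Real.pi < φ - θ a := by
    by_contra hcon
    push Not at hcon
    have := Real.sin_nonneg_of_nonneg_of_le_pi (show 0 ≤ φ - θ a by linarith) hcon
    linarith
  have k2 : φ - θ a < 2 * Real.pi := by
    by_contra hcon
    push Not at hcon
    have := Real.sin_nonneg_of_nonneg_of_le_pi (show 0 ≤ φ - θ a - 2 * Real.pi by linarith)
      (by linarith)
    rw [Real.sin_sub_two_pi] at this
    linarith
  exact ⟨φ, by linarith, by linarith, by linarith, by linarith, hc⟩

theorem CPI.arc {n : ℕ} {c : ℕ → ℂ} {r θ : ℕ → ℝ} (h : CPI n c r θ) {a b : ℕ} (hab : a + 2 ≤ b)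
    (hba : b + 2 ≤ a + n) (ht : ‖c a - c b‖ = r a + r b) :
    ∃ (c' : ℕ → ℂ) (r' θ' : ℕ → ℝ), CPI (b - a + 1) c' r' θ' ∧
      ∀ i, i ≤ b - a → c' i = c (a + i) ∧ r' i = r (a + i) := by
  obtain ⟨φ, f1, f2, f3, f4, f5⟩ := h.H3 hab hba ht
  have hpi := Real.pi_pos
  set N := b - a + 1 with hN
  have hNpos : 0 < N := by omega
  refine ⟨fun i => c (a + i % N), fun i => r (a + i % N),
    fun i => (if i % N < b - a then θ (a + i % N) else φ) + 2 * Real.pi * ((i / N : ℕ) : ℝ), ?_, ?_⟩
  · have key : ∀ i, (i % N < b - a - 1 ∧ (i + 1) % N = i % N + 1 ∧ (i + 1) / N = i / N) ∨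
        (i % N = b - a - 1 ∧ (i + 1) % N = b - a ∧ (i + 1) / N = i / N) ∨
        (i % N = b - a ∧ (i + 1) % N = 0 ∧ (i + 1) / N = i / N + 1) := by
      intro i
      have hlt := Nat.mod_lt i hNpos
      have hd := Nat.div_add_mod i N
      have hA : ∀ s t, s < N → i + 1 = N * t + s → (i + 1) % N = s ∧ (i + 1) / N = t := by
        intro s t hs ht
        rw [ht]
        constructor
        · rw [Nat.mul_add_mod, Nat.mod_eq_of_lt hs]
        · rw [Nat.mul_add_div hNpos, Nat.div_eq_of_lt hs, add_zero]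
      rcases Nat.lt_or_ge (i % N) (b - a - 1) with h1 | h1
      · left
        refine ⟨h1, ?_⟩
        exact hA (i % N + 1) (i / N) (by omega) (by omega)
      · right
        rcases Nat.lt_or_ge (i % N) (b - a) with h2 | h2
        · left
          refine ⟨by omega, ?_⟩
          exact hA (b - a) (i / N) (by omega) (by omega)
        · right
          refine ⟨by omega, ?_⟩
          refine hA 0 (i / N + 1) (by omega) ?_
          rw [Nat.mul_add]
          omega
    have hbb : a + (b - a - 1) = b - 1 := by omega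
    have hbb2 : a + (b - a) = b := by omega
    have hbb3 : b - a - 1 < b - a := by omega
    have hbb4 : 0 < b - a := by omega
    constructor
    · omega
    · intro i; simp only [Nat.add_mod_right]
    · intro i; simp only [Nat.add_mod_right]
    · intro i
      simp only [Nat.add_mod_right, Nat.add_div_right _ hNpos]
      push_cast; ring
    · intro i
      rcases key i with ⟨k1, k2, k3⟩ | ⟨k1, k2, k3⟩ | ⟨k1, k2, k3⟩
      · simp only [k2, k3]
        rw [if_pos (by omega), if_pos (by omega)]
        have := h.mono (a + i % N)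
        rw [← add_assoc]; linarith
      · simp only [k1, k2, k3]
        rw [if_pos (by omega), if_neg (by omega), hbb]
        linarith
      · simp only [k1, k2, k3]
        rw [if_neg (by omega), if_pos (by omega), add_zero]
        push_cast
        linarith
    · intro i
      rcases key i with ⟨k1, k2, k3⟩ | ⟨k1, k2, k3⟩ | ⟨k1, k2, k3⟩
      · simp only [k2, k3]
        rw [if_pos (by omega), if_pos (by omega)]
        have := h.lt (a + i % N)
        rw [← add_assoc]; linarith
      · simp only [k1, k2, k3]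
        rw [if_neg (by omega), if_pos (by omega), hbb]
        linarith
      · simp only [k1, k2, k3]
        rw [if_pos (by omega), if_neg (by omega), add_zero]
        push_cast
        linarith
    · intro i
      have hexp : ∀ (x : ℝ) (m : ℕ), exp (((x + 2 * Real.pi * (m : ℝ) : ℝ) : ℂ) * I) = exp (x * I) := by
        intro x m
        have : ((x + 2 * Real.pi * (m : ℝ) : ℝ) : ℂ) * I = x * I + (m : ℂ) * (2 * Real.pi * I) := by
          push_cast; ring
        rw [this, Complex.exp_add, Complex.exp_nat_mul_two_pi_mul_I, mul_one]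
      rcases key i with ⟨k1, k2, k3⟩ | ⟨k1, k2, k3⟩ | ⟨k1, k2, k3⟩
      · simp only [k2, hexp]
        rw [if_pos (by omega)]
        exact h.edge (a + i % N)
      · simp only [k1, k2, hexp]
        rw [if_pos (by omega), hbb, hbb2]
        have := h.edge (b - 1)
        rwa [show b - 1 + 1 = b by omega] at this
      · simp only [k1, k2, hexp]
        rw [if_neg (by omega), hbb2, add_zero]
        exact f5
    · intro i; exact h.pos _
    · intro i j hij hji
      have hi := Nat.mod_lt i hNpos
      have hj := Nat.mod_lt j hNpos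
      have hdi := Nat.div_add_mod i N
      have hdj := Nat.div_add_mod j N
      have q1 : i / N ≤ j / N := Nat.div_le_div_right (by omega)
      have q2 : j / N ≤ i / N + 1 := by
        rw [← Nat.add_div_right _ hNpos]
        exact Nat.div_le_div_right (by omega)
      rcases (show j / N = i / N ∨ j / N = i / N + 1 by omega) with hq | hq
      · rw [hq] at hdj
        exact h.disj _ _ (by omega) (by omega)
      · rw [hq, Nat.mul_add] at hdj
        have := h.disj (a + j % N) (a + i % N) (by omega) (by omega)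
        rw [norm_sub_rev, add_comm]
        exact this
  · intro i hi
    have : i % N = i := Nat.mod_eq_of_lt (by omega)
    simp only [this, and_self]

end

end Pool.Agent.Helper22.FC
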