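import Pool.Agent.Helper22.FC.Base

namespace Pool.Agent.Helper22.FC

open Complex

noncomputable section

theorem zero_run {n : ℕ} {c : ℕ → ℂ} {r θ : ℕ → ℝ} (n3 : 3 ≤ n)
    (perc : ∀ i, c (i + n) = c i) (perr : ∀ i, r (i + n) = r i)
    (perθ : ∀ i, θ (i + n) = θ i + 2 * Real.pi)
    (mono : ∀ i, θ i ≤ θ (i + 1)) (lt : ∀ i, θ (i + 1) < θ i + Real.pi)
    (edge : ∀ i, c (i + 1) - c i = ((r i + r (i + 1) : ℝ) : ℂ) * exp (θ i * I))
    (nonneg : ∀ i, 0 ≤ r i)
    (strict : ∀ i, r (i + 1) = 0 → θ i < θ (i + 1))
    (disj : ∀ i j, i + 2 ≤ j → j + 2 ≤ i + n → r i + r j ≤ ‖c i - c j‖)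
    (h0 : ∃ i, r i = 0) : ∀ i, r i = 0 := by
  by_contra hne
  push Not at hne
  obtain ⟨i1, hi1⟩ := hne
  obtain ⟨i0, hi0⟩ := h0
  have pos1 : 0 < r i1 := lt_of_le_of_ne (nonneg i1) (Ne.symm hi1)
  have perr' : ∀ k i, r (i + k * n) = r i := by
    intro k
    induction k with
    | zero => intro i; simp
    | succ k ih =>
      intro i
      have : i + (k + 1) * n = (i + k * n) + n := by ring
      rw [this, perr, ih]
  have monoθ : Monotone θ := monotone_nat_of_le_succ mono
  -- find a
  have exa : ∃ m, i1 < m ∧ r m = 0 := by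
    refine ⟨i0 + (i1 + 1) * n, ?_, ?_⟩
    · have : i1 + 1 ≤ (i1 + 1) * n := Nat.le_mul_of_pos_right _ (by omega)
      omega
    · rw [perr', hi0]
  classical
  obtain ⟨a, ha, ha1⟩ : ∃ a, 0 < r a ∧ r (a + 1) = 0 := by
    have hs := Nat.find_spec exa
    have hm := fun k (hk : k < Nat.find exa) => Nat.find_min exa hk
    set m := Nat.find exa with hmdef
    refine ⟨m - 1, ?_, ?_⟩
    · by_cases h : m - 1 = i1
      · rw [h]; exact pos1
      · have h1 := hm (m - 1) (by omega)
        have h2 : i1 < m - 1 := by omega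
        have h3 : r (m - 1) ≠ 0 := fun h' => h1 ⟨h2, h'⟩
        exact lt_of_le_of_ne (nonneg _) (Ne.symm h3)
    · have : m - 1 + 1 = m := by omega
      rw [this]; exact hs.2
  have exb : ∃ b, a + 1 < b ∧ 0 < r b := ⟨a + n, by omega, by rw [perr]; exact ha⟩
  obtain ⟨b, hab, hrb, hmin, hbn⟩ : ∃ b, a + 1 < b ∧ 0 < r b ∧ (∀ j, a < j → j < b → r j = 0) ∧
      b ≤ a + n := by
    refine ⟨Nat.find exb, (Nat.find_spec exb).1, (Nat.find_spec exb).2, ?_, ?_⟩
    · intro j h1 h2
      by_cases h : j = a + 1
      · rw [h]; exact ha1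
      · have := Nat.find_min exb h2
        by_contra h3
        exact this ⟨by omega, lt_of_le_of_ne (nonneg j) (Ne.symm h3)⟩
    · exact Nat.find_min' exb ⟨by omega, by rw [perr]; exact ha⟩
  -- chain
  have hc1 : c (a + 1) - c a = (r a : ℂ) * exp (θ a * I) := by
    rw [edge a, ha1, add_zero]
  have hmid : ∀ m, a + 1 + m < b → c (a + 1 + m) = c (a + 1) := by
    intro m
    induction m with
    | zero => intro _; rfl
    | succ m ih =>
      intro h
      have e := edge (a + 1 + m)
      rw [hmin (a + 1 + m) (by omega) (by omega), hmin (a + 1 + m + 1) (by omega) (by omega)] at e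
      have e' : c (a + 1 + m + 1) = c (a + 1 + m) := by
        have : c (a + 1 + m + 1) - c (a + 1 + m) = 0 := by rw [e]; simp
        exact sub_eq_zero.mp this
      rw [show a + 1 + (m + 1) = a + 1 + m + 1 by ring, e', ih (by omega)]
  have hcb : c b - c (b - 1) = (r b : ℂ) * exp (θ (b - 1) * I) := by
    have e := edge (b - 1)
    rw [show b - 1 + 1 = b by omega, hmin (b - 1) (by omega) (by omega), zero_add] at e
    exact e
  have hcm : c (b - 1) = c (a + 1) := by
    have := hmid (b - 1 - (a + 1)) (by omega)
    rwa [show a + 1 + (b - 1 - (a + 1)) = b - 1 by omega] at this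
  have hD : c b - c a = (r a : ℂ) * exp (θ a * I) + (r b : ℂ) * exp (θ (b - 1) * I) := by
    rw [← hc1, ← hcb, hcm]; ring
  -- norm square formula
  have nsq : ∀ (x y α β : ℝ), ‖(x : ℂ) * exp (α * I) + (y : ℂ) * exp (β * I)‖ ^ 2
      = x ^ 2 + y ^ 2 + 2 * x * y * Real.cos (β - α) := by
    intro x y α β
    rw [← Complex.normSq_eq_norm_sq, Complex.normSq_apply]
    have h1 : ((x : ℂ) * exp (α * I) + (y : ℂ) * exp (β * I)).re
        = x * Real.cos α + y * Real.cos β := by
      simp [Complex.exp_re, Complex.exp_im]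
    have h2 : ((x : ℂ) * exp (α * I) + (y : ℂ) * exp (β * I)).im
        = x * Real.sin α + y * Real.sin β := by
      simp [Complex.exp_re, Complex.exp_im]
    rw [h1, h2, Real.cos_sub]
    have s1 := Real.sin_sq_add_cos_sq α
    have s2 := Real.sin_sq_add_cos_sq β
    linear_combination x ^ 2 * s1 + y ^ 2 * s2
  have expeq : ∀ α β : ℝ, Real.cos (β - α) = 1 → exp (β * I) = exp (α * I) := by
    intro α β h
    have hs : Real.sin (β - α) = 0 := by
      have := Real.sin_sq_add_cos_sq (β - α)
      rw [h] at this
      have : Real.sin (β - α) ^ 2 = 0 := by linarith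
      exact pow_eq_zero_iff (two_ne_zero) |>.mp this
    have h2 : exp (((β - α : ℝ) : ℂ) * I) = 1 := by
      rw [Complex.exp_mul_I, ← Complex.ofReal_cos, ← Complex.ofReal_sin, h, hs]; simp
    have : ((β : ℂ) * I) = ((β - α : ℝ) : ℂ) * I + α * I := by push_cast; ring
    rw [this, Complex.exp_add, h2, one_mul]
  have hδ0 : θ a ≤ θ (b - 1) := monoθ (by omega)
  have hδ1 : θ (b - 1) ≤ θ a + 2 * Real.pi := by
    rw [← perθ a]; exact monoθ (by omega)
  have pipos := Real.pi_pos
  have hra0 : c (a + n) = c a := perc a
  rcases Nat.lt_or_ge b (a + n) with hlt | hge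
  · rcases Nat.lt_or_ge b (a + n - 1) with hlt' | hge'
    · -- case 3
      have hdis := disj a b (by omega) (by omega)
      have hn : r a + r b ≤ ‖(r a : ℂ) * exp (θ a * I) + (r b : ℂ) * exp (θ (b - 1) * I)‖ := by
        rw [← hD, ← norm_sub_rev (c a) (c b)]; exact hdis
      have hsq : (r a + r b) ^ 2 ≤
          r a ^ 2 + r b ^ 2 + 2 * r a * r b * Real.cos (θ (b - 1) - θ a) := by
        rw [← nsq]
        exact pow_le_pow_left₀ (by linarith) hn 2
      have hcos : Real.cos (θ (b - 1) - θ a) = 1 := by
        apply le_antisymm (Real.cos_le_one _)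
        have hp : 0 < 2 * r a * r b := by positivity
        by_contra hcon
        push Not at hcon
        have := mul_lt_mul_of_pos_left hcon hp
        nlinarith
      rcases lt_or_eq_of_le hδ1 with hl | he
      · have h0' : θ (b - 1) - θ a = 0 :=
          (Real.cos_eq_one_iff_of_lt_of_lt (by linarith) (by linarith)).mp hcos
        have h1 := strict a ha1
        have h2 : θ (a + 1) ≤ θ (b - 1) := monoθ (by omega)
        linarith
      · have hk : ∀ k, b - 1 ≤ k → k ≤ a + n → θ k = θ a + 2 * Real.pi := by
          intro k h1 h2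
          apply le_antisymm
          · rw [← perθ a]; exact monoθ h2
          · rw [← he]; exact monoθ h1
        have hexp2 : ∀ k, b - 1 ≤ k → k ≤ a + n → exp (θ k * I) = exp (θ a * I) := by
          intro k h1 h2
          apply expeq
          rw [hk k h1 h2, show θ a + 2 * Real.pi - θ a = 2 * Real.pi by ring, Real.cos_two_pi]
        have hsum : ∀ m, b + m ≤ a + n → ∃ s : ℝ, 0 ≤ s ∧
            c (b + m) - c b = (s : ℂ) * exp (θ a * I) := by
          intro m
          induction m with
          | zero => intro _; exact ⟨0, le_refl _, by simp⟩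
          | succ m ih =>
            intro h
            obtain ⟨s, hs0, hs⟩ := ih (by omega)
            refine ⟨s + (r (b + m) + r (b + m + 1)), ?_, ?_⟩
            · have := nonneg (b + m); have := nonneg (b + m + 1); linarith
            · have e := edge (b + m)
              rw [hexp2 (b + m) (by omega) (by omega)] at e
              have : c (b + (m + 1)) - c b = (c (b + m + 1) - c (b + m)) + (c (b + m) - c b) := by
                rw [show b + (m + 1) = b + m + 1 by ring]; ring
              rw [this, e, hs]; push_cast; ring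
        obtain ⟨s, hs0, hs⟩ := hsum (a + n - b) (by omega)
        rw [show b + (a + n - b) = a + n by omega, hra0] at hs
        rw [hexp2 (b - 1) le_rfl (by omega)] at hD
        have hz : (((s + r a + r b : ℝ)) : ℂ) * exp (θ a * I) = 0 := by
          push_cast
          linear_combination -hs - hD
        rcases mul_eq_zero.mp hz with h | h
        · have : s + r a + r b = 0 := by exact_mod_cast h
          linarith
        · exact Complex.exp_ne_zero _ h
    · -- case 2
      have hb : b = a + n - 1 := by omega
      have hcl : c (a + n) - c b = ((r b + r a : ℝ) : ℂ) * exp (θ b * I) := by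
        have e := edge b
        rw [show b + 1 = a + n by omega, perr] at e
        exact e
      rw [hra0] at hcl
      have hN : (r a : ℂ) * exp (θ a * I) + (r b : ℂ) * exp (θ (b - 1) * I)
          = -(((r b + r a : ℝ) : ℂ) * exp (θ b * I)) := by
        rw [← hD, ← hcl]; ring
      have hn : ‖(r a : ℂ) * exp (θ a * I) + (r b : ℂ) * exp (θ (b - 1) * I)‖ = r b + r a := by
        rw [hN, norm_neg, norm_mul, Complex.norm_exp_ofReal_mul_I, mul_one, Complex.norm_real,
          Real.norm_eq_abs, abs_of_pos (by linarith)]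
      have hsq : (r b + r a) ^ 2 =
          r a ^ 2 + r b ^ 2 + 2 * r a * r b * Real.cos (θ (b - 1) - θ a) := by
        rw [← nsq, hn]
      have hcos : Real.cos (θ (b - 1) - θ a) = 1 := by
        have hp : 0 < 2 * r a * r b := by positivity
        have : 2 * r a * r b * Real.cos (θ (b - 1) - θ a) = 2 * r a * r b * 1 := by linarith
        exact mul_left_cancel₀ hp.ne' this
      have he := expeq _ _ hcos
      rw [← he] at hN
      have hz : (1 : ℝ) * exp (θ (b - 1) * I) + (1 : ℝ) * exp (θ b * I) = 0 := by
        have hne : ((r b + r a : ℝ) : ℂ) ≠ 0 := by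
          have : r b + r a ≠ 0 := by linarith
          exact_mod_cast this
        apply mul_left_cancel₀ hne
        push_cast
        push_cast at hN
        linear_combination hN
      have h2 := nsq 1 1 (θ (b - 1)) (θ b)
      rw [hz] at h2
      simp only [norm_zero] at h2
      have hcos2 : Real.cos (θ b - θ (b - 1)) = -1 := by nlinarith
      have h3 : θ (b - 1) ≤ θ b := monoθ (by omega)
      have h4 : θ b < θ (b - 1) + Real.pi := by
        have := lt (b - 1)
        rwa [show b - 1 + 1 = b by omega] at this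
      have h5 : Real.cos (θ b - θ (b - 1) - Real.pi) = 1 := by
        rw [Real.cos_sub_pi, hcos2]; ring
      have h6 := (Real.cos_eq_one_iff_of_lt_of_lt (by linarith) (by linarith)).mp h5
      linarith
  · -- case 1
    have hb : b = a + n := le_antisymm hbn hge
    have hrr : r b = r a := by rw [hb, perr]
    have h2 := nsq (r a) (r b) (θ a) (θ (b - 1))
    rw [← hD, hb, hra0, sub_self, norm_zero, ← hb, hrr] at h2
    have hcos2 : Real.cos (θ (b - 1) - θ a) = -1 := by
      have hp : 0 < 2 * r a * r a := by positivity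
      have : 2 * r a * r a * Real.cos (θ (b - 1) - θ a) = 2 * r a * r a * (-1) := by linarith
      exact mul_left_cancel₀ hp.ne' this
    have h4 : θ a + 2 * Real.pi < θ (b - 1) + Real.pi := by
      have := lt (b - 1)
      rwa [show b - 1 + 1 = a + n by omega, perθ] at this
    have h5 : Real.cos (θ (b - 1) - θ a - Real.pi) = 1 := by
      rw [Real.cos_sub_pi, hcos2]; ring
    have h6 := (Real.cos_eq_one_iff_of_lt_of_lt (by linarith) (by linarith)).mp h5
    linarith

end

end Pool.Agent.Helper22.FC
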