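import Pool.Agent.Helper22.FC.Base

namespace Pool.Agent.Helper22.FC

open Complex

noncomputable section

theorem kap_succ {n : ℕ} {c : ℕ → ℂ} {r θ : ℕ → ℝ} (h : CPI n c r θ) (i : ℕ) :
    kap n θ (i + 1) = Real.tan ((θ (i + 1) - θ i) / 2) := by
  unfold kap
  have h1 : i + 1 + n - 1 = i + n := by omega
  rw [h1, h.perθ, h.perθ]
  congr 1
  ring

theorem kap_rel {n : ℕ} {c : ℕ → ℂ} {r θ : ℕ → ℝ} (h : CPI n c r θ) (i : ℕ) :
    ((kap n θ (i + 1) : ℂ) + I) * exp (θ (i + 1) * I) =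
      (-(kap n θ (i + 1) : ℂ) + I) * exp (θ i * I) := by
  rw [kap_succ h i]
  set x : ℝ := (θ (i + 1) - θ i) / 2 with hx
  have hx0 : 0 ≤ x := by have := h.mono i; rw [hx]; linarith
  have hx1 : x < Real.pi / 2 := by have := h.lt i; rw [hx]; linarith
  have hcos : Real.cos x ≠ 0 := by
    apply ne_of_gt
    apply Real.cos_pos_of_mem_Ioo
    constructor
    · linarith [Real.pi_pos]
    · exact hx1
  have h1 : (θ (i + 1) : ℂ) = (θ i : ℂ) + 2 * (x : ℂ) := by
    have : θ (i + 1) = θ i + 2 * x := by rw [hx]; ring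
    rw [this]; push_cast; ring
  have h2 : exp ((θ (i + 1) : ℂ) * I) = exp (θ i * I) * (exp ((x : ℂ) * I) * exp ((x : ℂ) * I)) := by
    rw [h1, ← Complex.exp_add, ← Complex.exp_add]
    congr 1
    ring
  have hc : (Real.cos x : ℂ) ≠ 0 := by exact_mod_cast hcos
  have h3 : exp ((x : ℂ) * I) = (Real.cos x : ℂ) + (Real.sin x : ℂ) * I := by
    rw [Complex.exp_mul_I]; push_cast; ring
  have h4 : ((Real.tan x : ℝ) : ℂ) = (Real.sin x : ℂ) / (Real.cos x : ℂ) := by
    rw [Real.tan_eq_sin_div_cos]; push_cast; ring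
  have h5 : (Real.sin x : ℂ) ^ 2 + (Real.cos x : ℂ) ^ 2 = 1 := by
    exact_mod_cast Real.sin_sq_add_cos_sq x
  have hkey : (((Real.tan x : ℝ) : ℂ) + I) * (exp ((x : ℂ) * I) * exp ((x : ℂ) * I)) =
      -((Real.tan x : ℝ) : ℂ) + I := by
    rw [h3, h4]
    have hI : I * I = -1 := Complex.I_mul_I
    have hI2 : I ^ 2 = -1 := Complex.I_sq
    have hI3 : I ^ 3 = -I := by rw [pow_succ, hI2]; ring
    field_simp
    ring_nf
    rw [hI2, hI3]
    linear_combination ((-Real.sin x : ℂ) + (Real.cos x : ℂ) * I) * h5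
  rw [h2]
  calc (((Real.tan x : ℝ) : ℂ) + I) * (exp (θ i * I) * (exp ((x : ℂ) * I) * exp ((x : ℂ) * I)))
      = exp (θ i * I) * ((((Real.tan x : ℝ) : ℂ) + I) * (exp ((x : ℂ) * I) * exp ((x : ℂ) * I))) := by
        ring
    _ = _ := by rw [hkey]; ring

theorem kap_nonneg {n : ℕ} {c : ℕ → ℂ} {r θ : ℕ → ℝ} (h : CPI n c r θ) (i : ℕ) :
    0 ≤ kap n θ i := by
  unfold kap
  have h3 := h.n3
  obtain ⟨m, hm⟩ : ∃ m, i + n = m + 1 := ⟨i + n - 1, by omega⟩
  have hm' : i + n - 1 = m := by omega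
  rw [hm, Nat.add_sub_cancel]
  have h1 := h.mono m
  have h2 := h.lt m
  apply Real.tan_nonneg_of_nonneg_of_le_pi_div_two <;> linarith

theorem kap_per {n : ℕ} {c : ℕ → ℂ} {r θ : ℕ → ℝ} (h : CPI n c r θ) (i : ℕ) :
    kap n θ (i + n) = kap n θ i := by
  unfold kap
  have h3 := h.n3
  obtain ⟨m, hm⟩ : ∃ m, i + n = m + 1 := ⟨i + n - 1, by omega⟩
  have hm1 : i + n + n - 1 = m + n := by omega
  have hm2 : i + n - 1 = m := by omega
  rw [hm1, hm2, h.perθ (i + n), h.perθ m]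
  congr 1
  ring

theorem cen_edge {n : ℕ} {c : ℕ → ℂ} {r θ : ℕ → ℝ} (h : CPI n c r θ) (t : ℝ) (i : ℕ) :
    cen n c θ t (i + 1) - cen n c θ t i =
      ((rad n r θ t i + rad n r θ t (i + 1) : ℝ) : ℂ) * exp (θ i * I) := by
  unfold cen rad
  have h1 := kap_rel h i
  have h2 := h.edge i
  push_cast at h2 ⊢
  linear_combination h2 + (t : ℂ) * h1

theorem exp_per {n : ℕ} {c : ℕ → ℂ} {r θ : ℕ → ℝ} (h : CPI n c r θ) (i : ℕ) :
    exp (θ (i + n) * I) = exp (θ i * I) := by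
  rw [h.perθ]
  push_cast
  rw [add_mul, Complex.exp_add, Complex.exp_two_pi_mul_I, mul_one]

theorem cen_per {n : ℕ} {c : ℕ → ℂ} {r θ : ℕ → ℝ} (h : CPI n c r θ) (t : ℝ) (i : ℕ) :
    cen n c θ t (i + n) = cen n c θ t i := by
  unfold cen
  rw [h.perc, kap_per h, exp_per h]

theorem rad_per {n : ℕ} {c : ℕ → ℂ} {r θ : ℕ → ℝ} (h : CPI n c r θ) (t : ℝ) (i : ℕ) :
    rad n r θ t (i + n) = rad n r θ t i := by
  unfold rad
  rw [h.perr, kap_per h]

theorem cen_per' {n : ℕ} {c : ℕ → ℂ} {r θ : ℕ → ℝ} (h : CPI n c r θ) (t : ℝ) (i k : ℕ) :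
    cen n c θ t (i + k * n) = cen n c θ t i := by
  induction k with
  | zero => simp
  | succ k ih =>
    have : i + (k + 1) * n = (i + k * n) + n := by ring
    rw [this, cen_per h, ih]

theorem rad_per' {n : ℕ} {c : ℕ → ℂ} {r θ : ℕ → ℝ} (h : CPI n c r θ) (t : ℝ) (i k : ℕ) :
    rad n r θ t (i + k * n) = rad n r θ t i := by
  induction k with
  | zero => simp
  | succ k ih =>
    have : i + (k + 1) * n = (i + k * n) + n := by ring
    rw [this, rad_per h, ih]

theorem exists_kap_pos {n : ℕ} {c : ℕ → ℂ} {r θ : ℕ → ℝ} (h : CPI n c r θ) :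
    ∃ i, 0 < kap n θ i := by
  by_contra hcon
  push Not at hcon
  have hz : ∀ i, θ (i + 1) = θ i := by
    intro i
    have h1 : kap n θ (i + 1) = 0 := le_antisymm (hcon _) (kap_nonneg h _)
    rw [kap_succ h] at h1
    have h2 := h.mono i
    have h3 := h.lt i
    by_contra hne
    have h4 : 0 < (θ (i + 1) - θ i) / 2 := by
      have : θ i < θ (i + 1) := lt_of_le_of_ne h2 (Ne.symm hne)
      linarith
    have h5 := Real.tan_pos_of_pos_of_lt_pi_div_two h4 (by linarith)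
    linarith
  have h6 : ∀ m, θ m = θ 0 := by
    intro m
    induction m with
    | zero => rfl
    | succ m ih => rw [hz, ih]
  have h7 := h.perθ 0
  rw [h6 (0 + n)] at h7
  linarith [Real.pi_pos]

/-- the first time at which a radius vanishes or two non consecutive discs touch -/
theorem first_time {n : ℕ} {c : ℕ → ℂ} {r θ : ℕ → ℝ} (h : CPI n c r θ)
    (hno : ∀ i j, i + 2 ≤ j → j + 2 ≤ i + n → r i + r j < ‖c i - c j‖) :
    ∃ t : ℝ, 0 < t ∧ (∀ i, 0 ≤ rad n r θ t i) ∧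
      (∀ i j, i + 2 ≤ j → j + 2 ≤ i + n →
        rad n r θ t i + rad n r θ t j ≤ ‖cen n c θ t i - cen n c θ t j‖) ∧
      ((∃ i, rad n r θ t i = 0) ∨ ∃ i j, i + 2 ≤ j ∧ j + 2 ≤ i + n ∧
        rad n r θ t i + rad n r θ t j = ‖cen n c θ t i - cen n c θ t j‖) := by
  classical
  have hn : 0 < n := by have := h.n3; omega
  have hradc : ∀ i, Continuous fun t => rad n r θ t i := by
    intro i; unfold rad; fun_prop
  have hcenc : ∀ i, Continuous fun t => cen n c θ t i := by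
    intro i; unfold cen; fun_prop
  set A : Set ℝ := {t | ∃ i ∈ Finset.range n, rad n r θ t i ≤ 0} with hA
  set B : Set ℝ := {t | ∃ p ∈ (Finset.range n ×ˢ Finset.range (2 * n)).filter
    (fun p => p.1 + 2 ≤ p.2 ∧ p.2 + 2 ≤ p.1 + n),
    ‖cen n c θ t p.1 - cen n c θ t p.2‖ ≤ rad n r θ t p.1 + rad n r θ t p.2} with hB
  have hAc : IsClosed A := by
    have : A = ⋃ i ∈ Finset.range n, {t | rad n r θ t i ≤ 0} := by
      ext t; simp [hA]
    rw [this]
    exact isClosed_biUnion_finset fun i _ => isClosed_le (hradc i) continuous_const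
  have hBc : IsClosed B := by
    have : B = ⋃ p ∈ (Finset.range n ×ˢ Finset.range (2 * n)).filter
        (fun p => p.1 + 2 ≤ p.2 ∧ p.2 + 2 ≤ p.1 + n),
        {t | ‖cen n c θ t p.1 - cen n c θ t p.2‖ ≤ rad n r θ t p.1 + rad n r θ t p.2} := by
      ext t
      simp only [hB, Set.mem_setOf_eq, Set.mem_iUnion, exists_prop]
    rw [this]
    exact isClosed_biUnion_finset fun p _ =>
      isClosed_le ((hcenc p.1).sub (hcenc p.2)).norm ((hradc p.1).add (hradc p.2))
  have hAi : ∀ t i, rad n r θ t i ≤ 0 → t ∈ A := by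
    intro t i hi
    refine ⟨i % n, Finset.mem_range.2 (Nat.mod_lt _ hn), ?_⟩
    rw [← rad_per' h t (i % n) (i / n)]
    have : i % n + i / n * n = i := by rw [mul_comm]; exact Nat.mod_add_div i n
    rwa [this]
  have hBi : ∀ t i j, i + 2 ≤ j → j + 2 ≤ i + n →
      ‖cen n c θ t i - cen n c θ t j‖ ≤ rad n r θ t i + rad n r θ t j → t ∈ B := by
    intro t i j h1 h2 h3
    have hi : i % n + i / n * n = i := by rw [mul_comm]; exact Nat.mod_add_div i n
    have hlt : i % n < n := Nat.mod_lt _ hn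
    obtain ⟨j', hj'⟩ : ∃ j', j = j' + i / n * n := ⟨j - i / n * n, by omega⟩
    refine ⟨(i % n, j'), ?_, ?_⟩
    · simp only [Finset.mem_filter, Finset.mem_product, Finset.mem_range]
      refine ⟨⟨hlt, ?_⟩, ?_, ?_⟩ <;> omega
    · simp only
      rw [← rad_per' h t (i % n) (i / n), ← rad_per' h t j' (i / n),
        ← cen_per' h t (i % n) (i / n), ← cen_per' h t j' (i / n), hi, ← hj']
      exact h3
  set S : Set ℝ := {t | 0 ≤ t} ∩ (A ∪ B) with hS
  have hSc : IsClosed S := (isClosed_le continuous_const continuous_id).inter (hAc.union hBc)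
  have hSb : BddBelow S := ⟨0, fun t ht => ht.1⟩
  have hSne : S.Nonempty := by
    obtain ⟨i, hi⟩ := exists_kap_pos h
    refine ⟨r i / kap n θ i, (div_nonneg (h.pos i).le hi.le), Or.inl (hAi _ i ?_)⟩
    unfold rad
    rw [div_mul_cancel₀ _ hi.ne']
    simp
  have h0 : (0 : ℝ) ∉ S := by
    rintro ⟨-, ⟨i, -, hi⟩ | ⟨p, hp, hp2⟩⟩
    · have := h.pos i
      unfold rad at hi
      linarith
    · simp only [Finset.mem_filter] at hp
      have := hno p.1 p.2 hp.2.1 hp.2.2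
      unfold rad cen at hp2
      simp only [Complex.ofReal_zero, zero_mul, add_zero, sub_zero] at hp2
      linarith
  set T := sInf S with hT
  have hTS : T ∈ S := hSc.csInf_mem hSne hSb
  have hTpos : 0 < T := by
    refine lt_of_le_of_ne hTS.1 fun h1 => h0 ?_
    rw [h1]; exact hTS
  have hbefore : ∀ s, 0 ≤ s → s < T → s ∉ A ∧ s ∉ B := by
    intro s hs hsT
    have : s ∉ S := fun hs' => absurd (csInf_le hSb hs') (not_le.2 hsT)
    constructor
    · intro hA'; exact this ⟨hs, Or.inl hA'⟩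
    · intro hB'; exact this ⟨hs, Or.inr hB'⟩
  have hcl : ∀ U : Set ℝ, IsClosed U → (∀ s, 0 ≤ s → s < T → s ∈ U) → T ∈ U := by
    intro U hU hs
    have h1 : Set.Ico 0 T ⊆ U := fun s hs' => hs s hs'.1 hs'.2
    have h2 : closure (Set.Ico 0 T) ⊆ U := hU.closure_subset_iff.2 h1
    rw [closure_Ico hTpos.ne] at h2
    exact h2 ⟨hTpos.le, le_rfl⟩
  have hradT : ∀ i, 0 ≤ rad n r θ T i := by
    intro i
    refine hcl {t | 0 ≤ rad n r θ t i} (isClosed_le continuous_const (hradc i)) fun s hs hsT => ?_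
    by_contra hlt
    exact (hbefore s hs hsT).1 (hAi s i (le_of_lt (not_le.1 hlt)))
  have hdT : ∀ i j, i + 2 ≤ j → j + 2 ≤ i + n →
        rad n r θ T i + rad n r θ T j ≤ ‖cen n c θ T i - cen n c θ T j‖ := by
    intro i j h1 h2
    refine hcl {t | rad n r θ t i + rad n r θ t j ≤ ‖cen n c θ t i - cen n c θ t j‖}
      (isClosed_le ((hradc i).add (hradc j)) ((hcenc i).sub (hcenc j)).norm) fun s hs hsT => ?_
    by_contra hlt
    exact (hbefore s hs hsT).2 (hBi s i j h1 h2 (le_of_lt (not_le.1 hlt)))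
  refine ⟨T, hTpos, hradT, hdT, ?_⟩
  rcases hTS.2 with ⟨i, -, hi⟩ | ⟨p, hp, hp2⟩
  · exact Or.inl ⟨i, le_antisymm hi (hradT i)⟩
  · simp only [Finset.mem_filter] at hp
    exact Or.inr ⟨p.1, p.2, hp.2.1, hp.2.2, le_antisymm (hdT _ _ hp.2.1 hp.2.2) hp2⟩

end

end Pool.Agent.Helper22.FC
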