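import Pool.Agent.Helper22.FC.Base

namespace Pool.Agent.Helper22.FC

open Complex

noncomputable section

lemma cyc_rot {α : Type*} (V : List α) : cyc (V.rotate 1) = (cyc V).rotate 1 := by
  unfold cyc
  exact (List.zipWith_rotate_distrib Prod.mk V (V.rotate 1) 1 (by simp)).symm

lemma mem_cyc_snoc {α : Type*} (x : α) (V : List α) (e : α × α) :
    e ∈ cyc (V ++ [x]) ↔ e ∈ cyc (x :: V) := by
  have h : V ++ [x] = (x :: V).rotate 1 := by simp
  rw [h, cyc_rot, List.mem_rotate]

lemma wnd_snoc (x : ℂ) (a : ℂ) (V : List ℂ) : wnd x (V ++ [a]) = wnd x (a :: V) := by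
  have h : V ++ [a] = (a :: V).rotate 1 := by simp
  unfold wnd
  rw [h, cyc_rot]
  exact (((List.rotate_perm (cyc (a :: V)) 1).map _)).sum_eq

lemma edge_ne {H : ℝ} {a b : ℂ × ℝ} {p q : Pc} (h : EdgeGeo H a b p q) (hp : p.Ok) (hq : q.Ok) :
    ¬ p.MB q := by
  obtain ⟨τ, h1, h2, h3, h4, h5, h6, h7, h8, h9, h10, h11, h12, h13⟩ := h
  rintro ⟨-, -, -, -, -, he, -⟩
  unfold Pc.e0 Pc.pt at he
  rw [h3, h4, h5, h6, h7, h8, h9, h10, h11, h12] at he
  simp only [if_true] at he
  have h14 : (a.2 + b.2 : ℂ) * τ = 0 := by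
    have : (if (false = true) then (a.2 : ℂ) else -(a.2 : ℂ)) = -(a.2 : ℂ) := by simp
    rw [this] at he
    linear_combination -he
  have hτ : τ ≠ 0 := by
    intro h
    rw [h, norm_zero] at h1
    norm_num at h1
  have h15 := (mul_eq_zero.mp h14).resolve_right hτ
  have h16 : a.2 + b.2 = 0 := by exact_mod_cast h15
  have h17 := hp.2.2.1
  have h18 := hq.2.2.1
  rw [h11] at h17
  rw [h12] at h18
  linarith

theorem Stack.reroot {H : ℝ} {a : ℂ × ℝ} {D : List (ℂ × ℝ)} (S : Stack H (a :: D)) :
    Nonempty (Stack H (D ++ [a])) := by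
  classical
  obtain ⟨ι, fin, pc, z, T, RS, RB, RL, RF, hT, hne, z_inj, ok, geo, sorted, gap, rootL, rootR,
    symS, symB, symL, geoS, geoB, geoL, geoF, exS, exB, exBase, exTop, lamS, lamL, baseL, baseB,
    flagL, flagB, adjF, wind⟩ := S
  cases T with
  | nil => exact absurd rfl hne
  | cons x T' =>
  obtain ⟨a', L, R⟩ := x
  rw [List.map_cons, List.cons.injEq] at hT
  obtain ⟨ha, hT⟩ := hT
  have ha' : a' = a := ha
  subst ha'
  cases T' with
  | nil =>
    rw [List.map_nil] at hT
    subst hT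
    exact ⟨⟨ι, fin, pc, z, [(a', L, R)], RS, RB, RL, RF, rfl, hne, z_inj, ok, geo, sorted, gap, rootL, rootR,
    symS, symB, symL, geoS, geoB, geoL, geoF, exS, exB, exBase, exTop, lamS, lamL, baseL, baseB,
    flagL, flagB, adjF, wind⟩⟩
  | cons y T'' =>
  obtain ⟨b, L', R'⟩ := y
  obtain ⟨T', hT'⟩ : ∃ T', T' = (b, L', R') :: T'' := ⟨_, rfl⟩
  -- consequences of sortedness
  rw [← hT'] at hT geo sorted gap rootL rootR exBase flagL flagB hne
  rw [List.flatMap_cons] at sorted
  rw [List.pairwise_append] at sorted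
  obtain ⟨sorted1, sorted2, sorted3⟩ := sorted
  have hLR : z L < z R := by simpa using sorted1
  have hhi : ∀ m ∈ T'.flatMap (fun e => [e.2.1, e.2.2]), z R < z m := fun m hm => sorted3 R (by simp) m hm
  have hL'mem : L' ∈ T'.flatMap (fun e => [e.2.1, e.2.2]) := by rw [hT']; simp
  have hRL' : z R < z L' := hhi L' hL'mem
  have hgap1 : ∀ k, ¬ (z R < z k ∧ z k < z L') := by
    rw [hT'] at gap
    exact (List.isChain_cons_cons.mp gap).1
  have hgap2 : T'.IsChain (fun e e' => ∀ k, ¬ (z e.2.2 < z k ∧ z k < z e'.2.1)) := by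
    rw [hT'] at gap ⊢
    exact (List.isChain_cons_cons.mp gap).2
  have hrootL : ∀ k, z L ≤ z k := rootL (a', L, R) (by simp)
  have hrootR : ∀ e ∈ T'.getLast?, ∀ k, z k ≤ z e.2.2 := by
    intro e he
    apply rootR e
    rw [hT'] at he ⊢
    rw [List.getLast?_cons_cons]
    exact he
  have hxmem : (a', L, R) ∈ ((a', L, R) :: T') := List.mem_cons_self
  have hymem : (b, L', R') ∈ ((a', L, R) :: T') := by rw [hT']; simp
  -- edge geometry at the cut
  have hedge : EdgeGeo H a' b (pc R) (pc L') := by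
    have hm : (((a', L, R), (b, L', R')) : ((ℂ × ℝ) × ι × ι) × ((ℂ × ℝ) × ι × ι)) ∈ cyc ((a', L, R) :: T') := by
      unfold cyc
      rw [hT']
      simp
    exact (geo _ hm).1
  -- the new heights
  obtain ⟨C, hC⟩ : ∃ C : ℝ, ∀ k m, z m < z k + C := by
    have := fin
    obtain ⟨C0, hC0⟩ := (Set.finite_range (fun p : ι × ι => z p.1 - z p.2)).bddAbove
    refine ⟨C0 + 1, fun k m => ?_⟩
    have : z m - z k ≤ C0 := hC0 ⟨(m, k), rfl⟩
    linarith
  obtain ⟨z', hz'⟩ : ∃ z' : ι → ℝ, ∀ k, z' k = if z k ≤ z R then z k + C else z k := ⟨_, fun _ => rfl⟩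
  have hlo : ∀ k, z k ≤ z R → z' k = z k + C := fun k hk => by rw [hz', if_pos hk]
  have hhi' : ∀ k, z R < z k → z' k = z k := fun k hk => by rw [hz', if_neg (not_le.mpr hk)]
  -- comparison of heights
  have cmp : ∀ k m, z' k < z' m ↔ ((z k ≤ z R ∧ z m ≤ z R ∧ z k < z m) ∨ (z R < z k ∧ z R < z m ∧ z k < z m) ∨
      (z R < z k ∧ z m ≤ z R)) := by
    intro k m
    rcases le_or_gt (z k) (z R) with hk | hk <;> rcases le_or_gt (z m) (z R) with hm | hm
    · rw [hlo k hk, hlo m hm]
      constructor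
      · intro h; exact Or.inl ⟨hk, hm, by linarith⟩
      · rintro (h | h | h)
        · linarith [h.2.2]
        · linarith [h.1]
        · linarith [h.1]
    · rw [hlo k hk, hhi' m hm]
      have := hC k m
      constructor
      · intro h; linarith
      · rintro (h | h | h)
        · linarith [h.2.1]
        · linarith [h.1]
        · linarith [h.1]
    · rw [hhi' k hk, hlo m hm]
      have := hC m k
      constructor
      · intro _; exact Or.inr (Or.inr ⟨hk, hm⟩)
      · intro _; exact this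
    · rw [hhi' k hk, hhi' m hm]
      constructor
      · intro h; exact Or.inr (Or.inl ⟨hk, hm, h⟩)
      · rintro (h | h | h)
        · exact h.2.2
        · exact h.2.2
        · linarith [h.2]
  -- no straddling
  have strL : ∀ k l, RL k l → z k ≤ z R → z l ≤ z R := by
    intro k l h hk
    by_contra hl
    push Not at hl
    have h1 := flagL k l h _ hxmem
    have h2 : z k ≠ z R := fun h3 => h1.2.1 (z_inj h3)
    exact h1.2.2.2 ⟨lt_of_le_of_ne hk h2, hl⟩
  have strB : ∀ k l, RB k l → z k ≤ z R → z l ≤ z R := by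
    intro k l h hk
    by_contra hl
    push Not at hl
    have h1 := (flagB k l h _ hxmem).2
    have hkR : z k = z R := by
      by_contra hne'
      exact h1 ⟨lt_of_le_of_ne hk hne', hl⟩
    have h2 := (flagB k l h _ hymem).1
    have hkR' : k = R := z_inj hkR
    have h3 : z l ≤ z L' := by
      by_contra h4
      push Not at h4
      exact h2 ⟨by show z k < z L'; linarith, h4⟩
    have h5 : z l = z L' := by
      by_contra h6
      exact hgap1 l ⟨hl, lt_of_le_of_ne h3 h6⟩
    have hlL : l = L' := z_inj h5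
    subst hkR' hlL
    exact edge_ne hedge (ok k).1 (ok l).1 (geoB k l h)
  have strF : ∀ k l, RF k l → z k ≤ z R → z l ≤ z R := by
    intro k l h hk
    by_contra hl
    push Not at hl
    have hkR : z k = z R := by
      by_contra hne'
      exact (adjF k l R h).1 ⟨lt_of_le_of_ne hk hne', hl⟩
    have h3 : z l ≤ z L' := by
      by_contra h4
      push Not at h4
      exact (adjF k l L' h).1 ⟨by linarith, h4⟩
    have h5 : z l = z L' := by
      by_contra h6
      exact hgap1 l ⟨hl, lt_of_le_of_ne h3 h6⟩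
    have hkR' : k = R := z_inj hkR
    have hlL : l = L' := z_inj h5
    subst hkR' hlL
    obtain ⟨τ, h1, h2, h3, h4, h5, h6, h7, h8, h9, h10, h11, h12, h13⟩ := hedge
    have h14 := (geoF k l h).2.2.2.1
    have h15 := (ok k).1.2.1
    linarith
  have strF' : ∀ k l, RF k l → z l ≤ z R → z k ≤ z R := by
    intro k l h hl
    by_contra hk
    push Not at hk
    have hlR : z l = z R := by
      by_contra hne'
      exact (adjF k l R h).2 ⟨lt_of_le_of_ne hl hne', hk⟩
    have h3 : z k ≤ z L' := by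
      by_contra h4
      push Not at h4
      exact (adjF k l L' h).2 ⟨by linarith, h4⟩
    have h5 : z k = z L' := by
      by_contra h6
      exact hgap1 k ⟨hk, lt_of_le_of_ne h3 h6⟩
    have hlR' : l = R := z_inj hlR
    have hkL : k = L' := z_inj h5
    subst hlR' hkL
    obtain ⟨τ, h1, h2, h3, h4, h5, h6, h7, h8, h9, h10, h11, h12, h13⟩ := hedge
    have h14 := (geoF k l h).2.2.2.1
    have h15 := (ok k).1.2.1
    linarith
  -- betweenness for pairs on the same side
  have btw : ∀ k m l, (z k ≤ z R ↔ z l ≤ z R) → z' k < z' m → z' m < z' l → z k < z m ∧ z m < z l := by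
    intro k m l hkl h1 h2
    rw [cmp] at h1 h2
    rcases h1 with h1 | h1 | h1 <;> rcases h2 with h2 | h2 | h2
    · exact ⟨h1.2.2, h2.2.2⟩
    · linarith [h1.2.1, h2.1]
    · linarith [h1.2.1, h2.1]
    · linarith [h1.2.1, h2.1]
    · exact ⟨h1.2.2, h2.2.2⟩
    · have := hkl.mpr h2.2
      linarith [h1.1]
    · have := hkl.mpr h2.2.1
      linarith [h1.1]
    · linarith [h1.2, h2.1]
    · linarith [h1.2, h2.1]
  have sideL : ∀ k l, RL k l → (z k ≤ z R ↔ z l ≤ z R) := fun k l h =>
    ⟨strL k l h, strL l k (symL k l h)⟩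
  have sideB : ∀ k l, RB k l → (z k ≤ z R ↔ z l ≤ z R) := fun k l h =>
    ⟨strB k l h, strB l k (symB k l h)⟩
  have sideF : ∀ k l, RF k l → (z k ≤ z R ↔ z l ≤ z R) := fun k l h => ⟨strF k l h, strF' k l h⟩
  have memT : ∀ e, e ∈ T' ++ [(a', L, R)] ↔ e ∈ (a', L, R) :: T' := by
    intro e
    simp only [List.mem_append, List.mem_cons, List.not_mem_nil, or_false]
    tauto
  -- interleaving
  have inter : ∀ (Q : ι → ι → Prop), (∀ k l, Q k l → Q l k) →
      (∀ k l k' l', Q k l → Q k' l' → z k < z k' → z k' < z l → z l < z l' → False) →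
      ∀ k l k' l', Q k l → Q k' l' → z' k < z' k' → z' k' < z' l → z' l < z' l' → False := by
    intro Q hs hl k l k' l' q1 q2 h1 h2 h3
    rw [cmp] at h1 h2 h3
    rcases h1 with h1 | h1 | h1 <;> rcases h2 with h2 | h2 | h2 <;> rcases h3 with h3 | h3 | h3 <;>
      first
      | exact absurd h1.2.1 (not_le.mpr h2.1)
      | exact absurd h2.2.1 (not_le.mpr h3.1)
      | exact absurd h2.1 (not_le.mpr h1.2.1)
      | exact absurd h3.1 (not_le.mpr h2.2.1)
      | exact absurd h1.2 (not_le.mpr h2.1)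
      | exact absurd h2.2 (not_le.mpr h3.1)
      | exact hl k l k' l' q1 q2 h1.2.2 h2.2.2 h3.2.2
      | exact hl l' k' k l (hs _ _ q2) q1 (lt_of_le_of_lt h3.2 h1.1) h1.2.2 h2.2.2
      | exact hl l k l' k' (hs _ _ q1) (hs _ _ q2) h3.2.2 (lt_of_le_of_lt h3.2.1 h1.1) h1.2.2
      | exact hl k' l' l k q2 (hs _ _ q1) h2.2.2 h3.2.2 (lt_of_le_of_lt h3.2.1 h1.1)
  refine ⟨{
    ι := ι
    fin := fin
    pc := pc
    z := z'
    T := T' ++ [(a', L, R)]
    RS := RS
    RB := RB
    RL := RL
    RF := RF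
    hT := ?_
    hne := by simp
    z_inj := ?_
    ok := ok
    geo := ?_
    sorted := ?_
    gap := ?_
    rootL := ?_
    rootR := ?_
    symS := symS
    symB := symB
    symL := symL
    geoS := geoS
    geoB := geoB
    geoL := geoL
    geoF := geoF
    exS := exS
    exB := exB
    exBase := ?_
    exTop := exTop
    lamS := inter RS symS lamS
    lamL := inter RL symL lamL
    baseL := ?_
    baseB := ?_
    flagL := ?_
    flagB := ?_
    adjF := ?_
    wind := ?_ }⟩
  · rw [List.map_append, hT]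
    rfl
  · intro k l h
    have h1 : ¬ z' k < z' l := by rw [h]; exact lt_irrefl _
    have h2 : ¬ z' l < z' k := by rw [h]; exact lt_irrefl _
    rw [cmp] at h1 h2
    apply z_inj
    rcases lt_trichotomy (z k) (z l) with h3 | h3 | h3
    · exfalso
      rcases le_or_gt (z k) (z R) with hk | hk <;> rcases le_or_gt (z l) (z R) with hm | hm
      · exact h1 (Or.inl ⟨hk, hm, h3⟩)
      · exact h2 (Or.inr (Or.inr ⟨hm, hk⟩))
      · linarith
      · exact h1 (Or.inr (Or.inl ⟨hk, hm, h3⟩))
    · exact h3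
    · exfalso
      rcases le_or_gt (z k) (z R) with hk | hk <;> rcases le_or_gt (z l) (z R) with hm | hm
      · exact h2 (Or.inl ⟨hm, hk, h3⟩)
      · linarith
      · exact h1 (Or.inr (Or.inr ⟨hk, hm⟩))
      · exact h2 (Or.inr (Or.inl ⟨hm, hk, h3⟩))
  · intro e he
    exact geo e ((mem_cyc_snoc _ _ _).mp he)
  · rw [List.flatMap_append, List.pairwise_append]
    refine ⟨?_, ?_, ?_⟩
    · apply List.Pairwise.imp_of_mem _ sorted2
      intro u v hu hv huv
      rw [cmp]
      exact Or.inr (Or.inl ⟨hhi u hu, hhi v hv, huv⟩)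
    · simp only [List.flatMap_cons, List.flatMap_nil, List.append_nil]
      rw [List.pairwise_pair, cmp]
      exact Or.inl ⟨hLR.le, le_rfl, hLR⟩
    · intro u hu v hv
      simp only [List.flatMap_cons, List.flatMap_nil, List.append_nil, List.mem_cons, List.not_mem_nil, or_false] at hv
      rw [cmp]
      refine Or.inr (Or.inr ⟨hhi u hu, ?_⟩)
      rcases hv with rfl | rfl
      · exact hLR.le
      · exact le_rfl
  · rw [List.isChain_append]
    refine ⟨?_, List.isChain_singleton _, ?_⟩
    · refine List.IsChain.imp_of_mem_imp ?_ hgap2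
      intro e e' he he' h k hk
      rw [cmp, cmp] at hk
      have m1 : z R < z e.2.2 := hhi _ (List.mem_flatMap.mpr ⟨e, he, by simp⟩)
      have m2 : z R < z e'.2.1 := hhi _ (List.mem_flatMap.mpr ⟨e', he', by simp⟩)
      obtain ⟨h1, h2⟩ := hk
      rcases h1 with h1 | h1 | h1
      · linarith [h1.1]
      · rcases h2 with h2 | h2 | h2
        · linarith [h2.1, h1.2.1]
        · exact h k ⟨h1.2.2, h2.2.2⟩
        · linarith [h2.2]
      · rcases h2 with h2 | h2 | h2
        · linarith [h2.2.1]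
        · linarith [h2.1, h1.2]
        · linarith [h2.1, h1.2]
    · intro e he e' he' k hk
      rw [List.head?_cons, Option.mem_some_iff] at he'
      subst he'
      rw [cmp, cmp] at hk
      have m0 := hrootR e he
      have m1 : z R < z e.2.2 := by
        apply hhi
        apply List.mem_flatMap.mpr
        exact ⟨e, List.mem_of_mem_getLast? he, by simp⟩
      obtain ⟨h1, h2⟩ := hk
      rcases h1 with h1 | h1 | h1
      · linarith [h1.1]
      · linarith [m0 k, h1.2.2]
      · rcases h2 with h2 | h2 | h2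
        · have h3 : z k < z L := h2.2.2
          linarith [hrootL k]
        · linarith [h2.1, h1.2]
        · linarith [h2.1, h1.2]
  · intro e he k
    have he2 : e = (b, L', R') := by
      rw [hT'] at he
      simpa using he.symm
    subst he2
    by_contra h
    push Not at h
    rw [cmp] at h
    show False
    rcases h with h | h | h
    · have h1 : z L' ≤ z R := h.2.1
      linarith
    · exact hgap1 k ⟨h.1, h.2.2⟩
    · have h1 : z L' ≤ z R := h.2
      linarith
  · intro e he k
    have he2 : e = (a', L, R) := by simpa using he.symm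
    subst he2
    by_contra h
    push Not at h
    rw [cmp] at h
    rcases h with h | h | h
    · have h1 : z R < z k := h.2.2
      linarith [h.2.1]
    · have h1 : z R < z R := h.1
      linarith
    · have h1 : z R < z R := h.1
      linarith
  · intro k
    rcases exBase k with ⟨e, he, h⟩ | h
    · exact Or.inl ⟨e, (memT e).mpr he, h⟩
    · exact Or.inr h
  · intro k l m h h1 h2
    obtain ⟨h3, h4⟩ := btw k m l (sideL k l h) h1 h2
    exact baseL k l m h h3 h4
  · intro k l m h h1 h2
    obtain ⟨h3, h4⟩ := btw k m l (sideB k l h) h1 h2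
    exact baseB k l m h h3 h4
  · intro k l h e he
    obtain ⟨h1, h2, h3, h4⟩ := flagL k l h e ((memT e).mp he)
    refine ⟨h1, h2, ?_, ?_⟩
    · rintro ⟨h5, h6⟩
      exact h3 (btw _ _ _ (sideL k l h) h5 h6)
    · rintro ⟨h5, h6⟩
      exact h4 (btw _ _ _ (sideL k l h) h5 h6)
  · intro k l h e he
    obtain ⟨h3, h4⟩ := flagB k l h e ((memT e).mp he)
    refine ⟨?_, ?_⟩
    · rintro ⟨h5, h6⟩
      exact h3 (btw _ _ _ (sideB k l h) h5 h6)
    · rintro ⟨h5, h6⟩
      exact h4 (btw _ _ _ (sideB k l h) h5 h6)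
  · intro k l m h
    obtain ⟨h3, h4⟩ := adjF k l m h
    refine ⟨?_, ?_⟩
    · rintro ⟨h5, h6⟩
      exact h3 (btw _ _ _ (sideF k l h) h5 h6)
    · rintro ⟨h5, h6⟩
      exact h4 (btw _ _ _ (sideF k l h).symm h5 h6)
  · intro x hx
    rw [wind x hx, List.map_append]
    exact (wnd_snoc x a'.1 (D.map Prod.fst)).symm

theorem Stack.rotate {H : ℝ} {D : List (ℂ × ℝ)} (S : Stack H D) (k : ℕ) :
    Nonempty (Stack H (D.rotate k)) := by
  induction k generalizing D with
  | zero =>
    rw [List.rotate_zero]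
    exact ⟨S⟩
  | succ k ih =>
    cases D with
    | nil =>
      rw [List.rotate_nil]
      exact ⟨S⟩
    | cons a D =>
      rw [List.rotate_cons_succ]
      obtain ⟨S'⟩ := S.reroot
      exact ih S'

end

end Pool.Agent.Helper22.FC
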