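import Pool.Agent.Helper22.FC.Base

namespace Pool.Agent.Helper22.FC

open Complex

noncomputable section

section ListLemmas
variable {α : Type*}

theorem cyc_cons (a : α) (l : List α) : cyc (a :: l) = (a :: l).zip (l ++ [a]) := by
  unfold cyc
  rw [List.rotate_cons_succ, List.rotate_zero]

theorem zip_forall (P : α → α → Prop) (l : List α) : ∀ a b : α,
    (∀ e ∈ (a :: l).zip (l ++ [b]), P e.1 e.2) ↔ List.IsChain P (a :: (l ++ [b])) := by
  induction l with
  | nil =>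
    intro a b
    simp
  | cons c l ih =>
    intro a b
    rw [List.cons_append, List.zip_cons_cons, List.isChain_cons_cons, List.forall_mem_cons, ih c b]

theorem cyc_forall (P : α → α → Prop) (V : List α) :
    (∀ e ∈ cyc V, P e.1 e.2) ↔ List.IsChain P (V ++ V.head?.toList) := by
  cases V with
  | nil => simp [cyc]
  | cons a l =>
    rw [cyc_cons, zip_forall]
    simp

/-- sum over consecutive pairs -/
def psum (f : α → α → ℝ) : List α → ℝ
  | [] => 0
  | [_] => 0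
  | a :: b :: l => f a b + psum f (b :: l)

theorem zip_sum (f : α → α → ℝ) (l : List α) : ∀ a b : α,
    (((a :: l).zip (l ++ [b])).map (fun e => f e.1 e.2)).sum = psum f (a :: (l ++ [b])) := by
  induction l with
  | nil =>
    intro a b
    simp [psum]
  | cons c l ih =>
    intro a b
    rw [List.cons_append, List.zip_cons_cons, List.map_cons, List.sum_cons, ih c b]
    rfl

theorem cyc_sum (f : α → α → ℝ) (V : List α) :
    ((cyc V).map (fun e => f e.1 e.2)).sum = psum f (V ++ V.head?.toList) := by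
  cases V with
  | nil => simp [cyc, psum]
  | cons a l =>
    rw [cyc_cons, zip_sum]
    simp

theorem psum_split (f : α → α → ℝ) (c : α) (l2 : List α) : ∀ l1 : List α,
    psum f (l1 ++ c :: l2) = psum f (l1 ++ [c]) + psum f (c :: l2) := by
  intro l1
  induction l1 with
  | nil => simp [psum]
  | cons a l1 ih =>
    cases l1 with
    | nil =>
      simp only [List.cons_append, List.nil_append, psum]
      ring
    | cons b l1 =>
      simp only [List.cons_append, psum] at ih ⊢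
      rw [ih]
      ring

theorem cyc_sum_remove (f : α → α → ℝ) (A B : List α) (x y : α) :
    ((cyc (A ++ [x, y, x] ++ B)).map (fun e => f e.1 e.2)).sum
      = f x y + f y x + ((cyc (A ++ [x] ++ B)).map (fun e => f e.1 e.2)).sum := by
  rw [cyc_sum, cyc_sum]
  have hh : (A ++ [x, y, x] ++ B).head? = (A ++ [x] ++ B).head? := by
    cases A <;> simp
  rw [hh]
  set t := (A ++ [x] ++ B).head?.toList with ht
  have e1 : A ++ [x, y, x] ++ B ++ t = A ++ x :: (y :: x :: (B ++ t)) := by simp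
  have e2 : A ++ [x] ++ B ++ t = A ++ x :: (B ++ t) := by simp
  rw [e1, e2, psum_split, psum_split f x (B ++ t)]
  simp only [psum]
  ring

theorem chain_swap {P : α → α → Prop} {TA TB : List α} {m1 m2 m3 m' : α}
    (h1 : ∀ e, P e m1 → P e m') (h3 : ∀ e, P m3 e → P m' e)
    (h : List.IsChain P (TA ++ [m1, m2, m3] ++ TB)) : List.IsChain P (TA ++ [m'] ++ TB) := by
  have e1 : TA ++ [m1, m2, m3] ++ TB = TA ++ m1 :: (m2 :: m3 :: TB) := by simp
  have e2 : TA ++ [m'] ++ TB = TA ++ m' :: TB := by simp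
  rw [e1, List.isChain_split] at h
  rw [e2, List.isChain_split]
  obtain ⟨ha, hb⟩ := h
  constructor
  · rw [List.isChain_append] at ha ⊢
    refine ⟨ha.1, by simp, ?_⟩
    intro e he e' he'
    simp only [List.head?_cons, Option.mem_def, Option.some.injEq] at he'
    subst he'
    exact h1 e (ha.2.2 e he m1 (by simp))
  · have hc : List.IsChain P (m3 :: TB) := by
      rw [List.isChain_cons_cons] at hb
      have := hb.2
      rw [List.isChain_cons_cons] at this
      exact this.2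
    rw [List.isChain_cons] at hc ⊢
    exact ⟨fun e he => h3 e (hc.1 e he), hc.2⟩

theorem cyc_swap {P : α → α → Prop} {TA TB : List α} {m1 m2 m3 m' : α}
    (h1 : ∀ e, P e m1 → P e m') (h3 : ∀ e, P m3 e → P m' e)
    (h : ∀ e ∈ cyc (TA ++ [m1, m2, m3] ++ TB), P e.1 e.2) :
    ∀ e ∈ cyc (TA ++ [m'] ++ TB), P e.1 e.2 := by
  rw [cyc_forall] at h ⊢
  cases TA with
  | nil =>
    simp only [List.nil_append, List.cons_append, List.head?_cons, Option.toList_some] at h ⊢
    have h4 : List.IsChain P ([] ++ [m'] ++ (TB ++ [m1])) :=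
      chain_swap h1 h3 (TA := []) (TB := TB ++ [m1]) (by simpa using h)
    have h5 : List.IsChain P ((m' :: TB) ++ [m1]) := by simpa using h4
    rw [List.isChain_append] at h5
    have h6 : List.IsChain P ((m' :: TB) ++ [m']) := by
      rw [List.isChain_append]
      refine ⟨h5.1, by simp, ?_⟩
      intro e he e' he'
      simp only [List.head?_cons, Option.mem_def, Option.some.injEq] at he'
      subst he'
      exact h1 e (h5.2.2 e he m1 (by simp))
    simpa using h6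
  | cons a TA =>
    simp only [List.cons_append, List.head?_cons, Option.toList_some] at h ⊢
    have h4 := chain_swap h1 h3 (TA := a :: TA) (TB := TB ++ [a]) (by simpa using h)
    simpa using h4

end ListLemmas

theorem ang_add_K2 {p a b : ℂ} (h : p ∉ segment ℝ a b) : ang p a b + ang p b a = 0 := by
  unfold ang
  have h1 : (a - p) / (b - p) = ((b - p) / (a - p))⁻¹ := by rw [inv_div]
  rw [h1, Complex.arg_inv]
  split_ifs with h2
  · exfalso
    apply h
    rw [Complex.arg_eq_pi_iff] at h2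
    set z := (b - p) / (a - p) with hz
    have hz0 : z ≠ 0 := by
      intro h0
      rw [h0] at h2
      simp at h2
    have hap : a - p ≠ 0 := by
      intro h0
      apply hz0
      rw [hz, h0, div_zero]
    have h3 : b - p = z * (a - p) := by rw [hz]; field_simp
    have h4 : z = ((z.re : ℝ) : ℂ) := by
      apply Complex.ext
      · simp
      · simp [h2.2]
    set s : ℝ := -z.re with hs
    have hs0 : 0 < s := by rw [hs]; linarith [h2.1]
    have h5 : b - p = -(s : ℂ) * (a - p) := by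
      rw [h3, h4, hs]
      simp
    refine ⟨s / (1 + s), 1 / (1 + s), by positivity, by positivity, by field_simp; ring, ?_⟩
    have h6 : (1 + (s : ℂ)) ≠ 0 := by
      have : (1 + s : ℝ) ≠ 0 := by positivity
      exact_mod_cast this
    rw [Complex.real_smul, Complex.real_smul]
    push_cast
    field_simp
    linear_combination h5
  · ring

theorem seg_union {a c τ : ℂ} {r1 r2 : ℝ} (h1 : 0 < r1) (h2 : 0 < r2)
    (hc : c - a = ((r1 + r2 : ℝ) : ℂ) * τ) {p : ℂ} (hp : p ∈ segment ℝ a c) :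
    p ∈ segment ℝ a (a + r1 * τ) ∨ p ∈ segment ℝ (a + r1 * τ) c := by
  rw [segment_eq_image'] at hp
  obtain ⟨θ, hθ, rfl⟩ := hp
  have hr1 : (r1 : ℂ) ≠ 0 := by exact_mod_cast h1.ne'
  have hr2 : (r2 : ℂ) ≠ 0 := by exact_mod_cast h2.ne'
  simp only [hc]
  rcases le_total (θ * (r1 + r2)) r1 with h | h
  · left
    rw [segment_eq_image']
    refine ⟨θ * (r1 + r2) / r1, ⟨?_, ?_⟩, ?_⟩
    · have := hθ.1
      positivity
    · rw [div_le_one h1]; exact h
    · simp only [Complex.real_smul]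
      push_cast
      field_simp
      ring
  · right
    rw [segment_eq_image']
    refine ⟨(θ * (r1 + r2) - r1) / r2, ⟨?_, ?_⟩, ?_⟩
    · apply div_nonneg _ h2.le
      linarith
    · rw [div_le_one h2]
      have := hθ.2
      nlinarith
    · have hc' : c = a + ((r1 + r2 : ℝ) : ℂ) * τ := by rw [← hc]; ring
      simp only [Complex.real_smul]
      rw [hc']
      push_cast
      field_simp
      ring

theorem Pc.ML.symm' {p q : Pc} (h : p.ML q) : q.ML p :=
  ⟨h.1.symm, h.2.1.symm, h.2.2.1.symm, h.2.2.2.1.symm, h.2.2.2.2.symm⟩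

theorem flag_of {ι : Type} {L1 R1 L2 R2 L3 R3 k l : ι}
    (h : (k = L2 ∧ l = R2) ∨ (k = R2 ∧ l = L2) ∨ (k = R1 ∧ l = L3) ∨ (k = L3 ∧ l = R1)) :
    (k = L1 ∨ k = R1 ∨ k = L2 ∨ k = R2 ∨ k = L3 ∨ k = R3) ∧
      (l = L1 ∨ l = R1 ∨ l = L2 ∨ l = R2 ∨ l = L3 ∨ l = R3) := by
  rcases h with ⟨rfl, rfl⟩ | ⟨rfl, rfl⟩ | ⟨rfl, rfl⟩ | ⟨rfl, rfl⟩ <;> simp

theorem no_cross {ι : Type} {z : ι → ℝ} {R1 L2 R2 L3 k l k' l' : ι} (o2 : z R1 < z L2)
    (o3 : z L2 < z R2) (o4 : z R2 < z L3)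
    (h : (k = L2 ∧ l = R2) ∨ (k = R2 ∧ l = L2) ∨ (k = R1 ∧ l = L3) ∨ (k = L3 ∧ l = R1))
    (h' : (k' = L2 ∧ l' = R2) ∨ (k' = R2 ∧ l' = L2) ∨ (k' = R1 ∧ l' = L3) ∨ (k' = L3 ∧ l' = R1))
    (h1 : z k < z k') (h2 : z k' < z l) (h3 : z l < z l') : False := by
  rcases h with ⟨e1, e2⟩ | ⟨e1, e2⟩ | ⟨e1, e2⟩ | ⟨e1, e2⟩ <;>
    rcases h' with ⟨e3, e4⟩ | ⟨e3, e4⟩ | ⟨e3, e4⟩ | ⟨e3, e4⟩ <;>
    rw [e1, e3] at h1 <;> rw [e3, e2] at h2 <;> rw [e2, e4] at h3 <;> linarith

theorem Stack.zip {H : ℝ} {x y : ℂ × ℝ} {A B : List (ℂ × ℝ)} (hAB : A ≠ [] ∨ B ≠ [])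
    (S : Stack H (A ++ [x, y, x] ++ B)) : Nonempty (Stack H (A ++ [x] ++ B)) := by
  classical
  -- split the list of flags
  obtain ⟨T1, TB, hT1, hTM, hTB⟩ := List.map_eq_append_iff.1 S.hT
  obtain ⟨TA, TM, hT2, hTA, hTM'⟩ := List.map_eq_append_iff.1 hTM
  obtain ⟨m1, TM1, hm1, hm1x, hTM1⟩ := List.map_eq_cons_iff.1 hTM'
  obtain ⟨m2, TM2, hm2, hm2y, hTM2⟩ := List.map_eq_cons_iff.1 hTM1
  obtain ⟨m3, TM3, hm3, hm3x, hTM3⟩ := List.map_eq_cons_iff.1 hTM2
  have hTM3' : TM3 = [] := List.map_eq_nil_iff.1 hTM3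
  obtain ⟨xx, L1, R1⟩ := m1
  obtain ⟨yy, L2, R2⟩ := m2
  obtain ⟨xx', L3, R3⟩ := m3
  simp only at hm1x hm2y hm3x
  subst hm1x hm2y
  have hT : S.T = TA ++ [(xx, L1, R1), (yy, L2, R2), (xx', L3, R3)] ++ TB := by
    rw [hT1, hT2, hm1, hm2, hm3, hTM3']
  subst hm3x
  set m1 : (ℂ × ℝ) × S.ι × S.ι := (xx', L1, R1) with hm1d
  set m2 : (ℂ × ℝ) × S.ι × S.ι := (yy, L2, R2) with hm2d
  set m3 : (ℂ × ℝ) × S.ι × S.ι := (xx', L3, R3) with hm3d
  set m' : (ℂ × ℝ) × S.ι × S.ι := (xx', L1, R3) with hm'd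
  have hmem : ∀ e, e ∈ S.T ↔ e ∈ TA ∨ e = m1 ∨ e = m2 ∨ e = m3 ∨ e ∈ TB := by
    intro e
    rw [hT]
    simp only [List.mem_append, List.mem_cons, List.not_mem_nil, or_false]
    tauto
  have hmem' : ∀ e, e ∈ TA ++ [m'] ++ TB ↔ e ∈ TA ∨ e = m' ∨ e ∈ TB := by
    intro e
    simp only [List.mem_append, List.mem_cons, List.not_mem_nil, or_false]
    tauto
  -- geometry of the two edges
  have hgeo := S.geo
  rw [hT] at hgeo
  have hch := (cyc_forall (fun e e' : (ℂ × ℝ) × S.ι × S.ι =>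
    EdgeGeo H e.1 e'.1 (S.pc e.2.2) (S.pc e'.2.1) ∧ S.RS e.2.2 e'.2.1) _).1 hgeo
  have e0 : ∀ t, TA ++ [m1, m2, m3] ++ TB ++ t = TA ++ m1 :: (m2 :: m3 :: (TB ++ t)) := by
    intro t; simp
  rw [e0, List.isChain_split, List.isChain_cons_cons, List.isChain_cons_cons] at hch
  obtain ⟨_, ⟨hg12, hS12⟩, ⟨hg23, hS23⟩, _⟩ := hch
  simp only [hm1d, hm2d, hm3d] at hg12 hg23 hS12 hS23
  obtain ⟨τ, hτn, hτ, hsR1, hsL2, hτR1, hτL2, htR1, htL2, hyR1, hyL2, hρR1, hρL2, _⟩ := hg12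
  obtain ⟨τ', hτn', hτ', hsR2, hsL3, hτR2, hτL3, htR2, htL3, hyR2, hyL3, hρR2, hρL3, _⟩ := hg23
  have hx2 : 0 < xx'.2 := by rw [← hρR1]; exact (S.ok R1).1.2.2.1
  have hy2 : 0 < yy.2 := by rw [← hρL2]; exact (S.ok L2).1.2.2.1
  have hττ : τ' = -τ := by
    have h1 : ((xx'.2 + yy.2 : ℝ) : ℂ) * (τ' + τ) = 0 := by
      have h2 : ((yy.2 + xx'.2 : ℝ) : ℂ) = ((xx'.2 + yy.2 : ℝ) : ℂ) := by push_cast; ring
      rw [h2] at hτ'
      linear_combination -hτ - hτ'
    have h3 : ((xx'.2 + yy.2 : ℝ) : ℂ) ≠ 0 := by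
      have : (xx'.2 + yy.2 : ℝ) ≠ 0 := by positivity
      exact_mod_cast this
    have h4 := (mul_eq_zero.1 h1).resolve_left h3
    linear_combination h4
  have hy1 : yy.1 = xx'.1 + (xx'.2 + yy.2) * τ := by
    have : yy.1 - xx'.1 = (xx'.2 + yy.2) * τ := by rw [hτ]; push_cast; ring
    linear_combination this
  -- the points
  have pR1s0 : (S.pc R1).s0 = xx'.1 + xx'.2 * τ := by
    simp only [Pc.s0, Pc.pt, hsR1, htR1, hτR1, hyR1]
    simp
  have pR1e0 : (S.pc R1).e0 = xx'.1 := by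
    simp only [Pc.e0, Pc.pt, hsR1, htR1, hτR1, hyR1, hρR1]
    simp
    ring
  have pL2s0 : (S.pc L2).s0 = xx'.1 + xx'.2 * τ := by
    simp only [Pc.s0, Pc.pt, hsL2, htL2, hτL2, hyL2]
    simp
  have pL2e0 : (S.pc L2).e0 = yy.1 := by
    simp only [Pc.e0, Pc.pt, hsL2, htL2, hτL2, hyL2, hρL2]
    rw [hy1]
    simp
    ring
  have pR2s0 : (S.pc R2).s0 = xx'.1 + xx'.2 * τ := by
    simp only [Pc.s0, Pc.pt, hsR2, htR2, hτR2, hyR2]
    rw [hy1, hττ]
    simp
    ring
  have pR2e0 : (S.pc R2).e0 = yy.1 := by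
    simp only [Pc.e0, Pc.pt, hsR2, htR2, hτR2, hyR2, hρR2]
    simp
    ring
  have pL3s0 : (S.pc L3).s0 = xx'.1 + xx'.2 * τ := by
    simp only [Pc.s0, Pc.pt, hsL3, htL3, hτL3, hyL3]
    rw [hy1, hττ]
    simp
    ring
  have pL3e0 : (S.pc L3).e0 = xx'.1 := by
    simp only [Pc.e0, Pc.pt, hsL3, htL3, hτL3, hyL3, hρL3]
    rw [hy1, hττ]
    simp
    ring
  have hML1 : (S.pc R1).ML (S.pc L3) := by
    refine ⟨by rw [hsR1, hsL3]; simp, by rw [hyR1, hyL3], by rw [hρR1, hρL3], ?_, ?_⟩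
    · rw [pR1s0, pL3s0]
    · rw [pR1e0, pL3e0]
  have hML2 : (S.pc L2).ML (S.pc R2) := by
    refine ⟨by rw [hsL2, hsR2]; simp, by rw [hyL2, hyR2], by rw [hρL2, hρR2], ?_, ?_⟩
    · rw [pL2s0, pR2s0]
    · rw [pL2e0, pR2e0]
  -- order of the flags
  have hso := S.sorted
  rw [hT] at hso
  simp only [List.flatMap_append, List.flatMap_cons, List.flatMap_nil, List.append_nil, hm1d, hm2d,
    hm3d] at hso
  set FA := TA.flatMap (fun e => [e.2.1, e.2.2]) with hFA
  set FB := TB.flatMap (fun e => [e.2.1, e.2.2]) with hFB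
  have hso' : List.Pairwise (fun a b => S.z a < S.z b)
      (FA ++ [L1, R1, L2, R2, L3, R3] ++ FB) := by simpa using hso
  rw [List.pairwise_append, List.pairwise_append] at hso'
  obtain ⟨⟨_, hmid, hAm⟩, _, hmB⟩ := hso'
  simp only [List.pairwise_cons, List.mem_cons, List.not_mem_nil, or_false, forall_eq_or_imp,
    forall_eq] at hmid
  obtain ⟨⟨o1, _⟩, ⟨o2, _⟩, ⟨o3, _⟩, ⟨o4, _⟩, o5, _⟩ := hmid
  have hA1 : ∀ e ∈ TA, S.z e.2.1 < S.z L1 ∧ S.z e.2.2 < S.z L1 := by
    intro e he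
    constructor
    · apply hAm _ _ _ (by simp)
      rw [hFA, List.mem_flatMap]
      exact ⟨e, he, by simp⟩
    · apply hAm _ _ _ (by simp)
      rw [hFA, List.mem_flatMap]
      exact ⟨e, he, by simp⟩
  have hB1 : ∀ e ∈ TB, S.z R3 < S.z e.2.1 ∧ S.z R3 < S.z e.2.2 := by
    intro e he
    constructor
    · apply hmB R3 (by simp)
      rw [hFB, List.mem_flatMap]
      exact ⟨e, he, by simp⟩
    · apply hmB R3 (by simp)
      rw [hFB, List.mem_flatMap]
      exact ⟨e, he, by simp⟩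
  -- the new relation
  let RL' : S.ι → S.ι → Prop := fun k l => S.RL k l ∨
    ((k = L2 ∧ l = R2) ∨ (k = R2 ∧ l = L2) ∨ (k = R1 ∧ l = L3) ∨ (k = L3 ∧ l = R1))
  have hm1T : m1 ∈ S.T := (hmem m1).2 (Or.inr (Or.inl rfl))
  have hm2T : m2 ∈ S.T := (hmem m2).2 (Or.inr (Or.inr (Or.inl rfl)))
  have hm3T : m3 ∈ S.T := (hmem m3).2 (Or.inr (Or.inr (Or.inr (Or.inl rfl))))
  -- flags are never inside an RL pair
  have hflag : ∀ k l, S.RL k l → ∀ f, (f = L1 ∨ f = R1 ∨ f = L2 ∨ f = R2 ∨ f = L3 ∨ f = R3) →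
      k ≠ f ∧ ¬ (S.z k < S.z f ∧ S.z f < S.z l) := by
    intro k l hkl f hf
    have f1 := S.flagL k l hkl m1 hm1T
    have f2 := S.flagL k l hkl m2 hm2T
    have f3 := S.flagL k l hkl m3 hm3T
    simp only [hm1d, hm2d, hm3d] at f1 f2 f3
    rcases hf with rfl | rfl | rfl | rfl | rfl | rfl
    · exact ⟨f1.1, f1.2.2.1⟩
    · exact ⟨f1.2.1, f1.2.2.2⟩
    · exact ⟨f2.1, f2.2.2.1⟩
    · exact ⟨f2.2.1, f2.2.2.2⟩
    · exact ⟨f3.1, f3.2.2.1⟩
    · exact ⟨f3.2.1, f3.2.2.2⟩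
  refine ⟨{ ι := S.ι, fin := S.fin, pc := S.pc, z := S.z, T := TA ++ [m'] ++ TB, RS := S.RS
            RB := S.RB, RL := RL', RF := S.RF, hT := ?_, hne := by simp, z_inj := S.z_inj
            ok := S.ok, geo := ?_, sorted := ?_, gap := ?_, rootL := ?_, rootR := ?_
            symS := S.symS, symB := S.symB, symL := ?_, geoS := S.geoS, geoB := S.geoB
            geoL := ?_, geoF := S.geoF, exS := S.exS, exB := S.exB, exBase := ?_
            exTop := S.exTop, lamS := S.lamS, lamL := ?_, baseL := ?_, baseB := S.baseB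
            flagL := ?_, flagB := ?_, adjF := S.adjF, wind := ?_ }⟩
  · -- hT
    rw [List.map_append, List.map_append, hTA, hTB]
    rfl
  · -- geo
    exact cyc_swap (P := fun e e' : (ℂ × ℝ) × S.ι × S.ι =>
      EdgeGeo H e.1 e'.1 (S.pc e.2.2) (S.pc e'.2.1) ∧ S.RS e.2.2 e'.2.1)
      (m1 := m1) (m2 := m2) (m3 := m3) (fun e h => h) (fun e h => h) hgeo
  · -- sorted
    have hsub : List.Sublist ([L1, R3] : List S.ι) [L1, R1, L2, R2, L3, R3] := by
      exact List.Sublist.cons_cons _ (.cons _ (.cons _ (.cons _ (.cons _ (.refl _)))))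
    have h1 : List.Sublist (FA ++ [L1, R3] ++ FB) (FA ++ [L1, R1, L2, R2, L3, R3] ++ FB) :=
      ((List.Sublist.refl FA).append hsub).append (List.Sublist.refl FB)
    have h2 : (TA ++ [m'] ++ TB).flatMap (fun e => [e.2.1, e.2.2]) = FA ++ [L1, R3] ++ FB := by
      simp [hFA, hFB, hm'd]
    rw [h2]
    apply List.Pairwise.sublist h1
    simpa using hso
  · -- gap
    have hgap := S.gap
    rw [hT] at hgap
    exact chain_swap (P := fun e e' : (ℂ × ℝ) × S.ι × S.ι =>
      ∀ k, ¬ (S.z e.2.2 < S.z k ∧ S.z k < S.z e'.2.1))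
      (m1 := m1) (m2 := m2) (m3 := m3) (fun e h => h) (fun e h => h) hgap
  · -- rootL
    have hr := S.rootL
    rw [hT] at hr
    cases TA with
    | nil =>
      intro e he
      simp only [List.nil_append, List.cons_append, List.head?_cons, Option.mem_def,
        Option.some.injEq] at he
      subst he
      exact hr m1 (by simp)
    | cons a TA =>
      intro e he
      exact hr e (by simpa using he)
  · -- rootR
    have hr := S.rootR
    rw [hT] at hr
    rcases List.eq_nil_or_concat TB with hTBn | ⟨TB', b, hTBn⟩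
    · intro e he
      rw [hTBn] at he hr
      simp only [List.append_nil, List.getLast?_append, List.getLast?_singleton,
        Option.mem_def, Option.some_or, Option.some.injEq] at he
      subst he
      exact hr m3 (by simp)
    · intro e he
      rw [hTBn] at he hr
      apply hr e
      have e1 : TA ++ [m'] ++ (TB' ++ [b]) = (TA ++ [m'] ++ TB') ++ [b] := by simp
      have e2 : TA ++ [m1, m2, m3] ++ (TB' ++ [b]) = (TA ++ [m1, m2, m3] ++ TB') ++ [b] := by simp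
      rw [List.concat_eq_append, e1, List.getLast?_concat] at he
      rw [List.concat_eq_append, e2, List.getLast?_concat]
      exact he
  · -- symL
    intro k l hkl
    rcases hkl with h | h
    · exact Or.inl (S.symL k l h)
    · right
      rcases h with ⟨a1, a2⟩ | ⟨a1, a2⟩ | ⟨a1, a2⟩ | ⟨a1, a2⟩
      · exact Or.inr (Or.inl ⟨a2, a1⟩)
      · exact Or.inl ⟨a2, a1⟩
      · exact Or.inr (Or.inr (Or.inr ⟨a2, a1⟩))
      · exact Or.inr (Or.inr (Or.inl ⟨a2, a1⟩))
  · -- geoL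
    intro k l hkl
    rcases hkl with h | ⟨rfl, rfl⟩ | ⟨rfl, rfl⟩ | ⟨rfl, rfl⟩ | ⟨rfl, rfl⟩
    · exact S.geoL k l h
    · exact hML2
    · exact hML2.symm'
    · exact hML1
    · exact hML1.symm'
  · -- exBase
    intro k
    rcases S.exBase k with ⟨e, he, hk⟩ | ⟨l, hl⟩ | h
    · rw [hmem] at he
      rcases he with he | rfl | rfl | rfl | he
      · exact Or.inl ⟨e, (hmem' e).2 (Or.inl he), hk⟩
      · rcases hk with hk | hk
        · exact Or.inl ⟨m', (hmem' m').2 (Or.inr (Or.inl rfl)), Or.inl hk⟩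
        · exact Or.inr (Or.inl ⟨L3, Or.inr (Or.inr (Or.inr (Or.inl ⟨hk, rfl⟩)))⟩)
      · rcases hk with hk | hk
        · exact Or.inr (Or.inl ⟨R2, Or.inr (Or.inl ⟨hk, rfl⟩)⟩)
        · exact Or.inr (Or.inl ⟨L2, Or.inr (Or.inr (Or.inl ⟨hk, rfl⟩))⟩)
      · rcases hk with hk | hk
        · exact Or.inr (Or.inl ⟨R1, Or.inr (Or.inr (Or.inr (Or.inr ⟨hk, rfl⟩)))⟩)
        · exact Or.inl ⟨m', (hmem' m').2 (Or.inr (Or.inl rfl)), Or.inr hk⟩
      · exact Or.inl ⟨e, (hmem' e).2 (Or.inr (Or.inr he)), hk⟩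
    · exact Or.inr (Or.inl ⟨l, Or.inl hl⟩)
    · exact Or.inr (Or.inr h)
  · -- lamL
    intro k l k' l' hkl hkl' h1 h2 h3
    rcases hkl with h | h <;> rcases hkl' with h' | h'
    · exact S.lamL k l k' l' h h' h1 h2 h3
    · exact (hflag k l h k' (flag_of h').1).2 ⟨h1, h2⟩
    · exact (hflag k' l' h' l (flag_of h).2).2 ⟨h2, h3⟩
    · exact no_cross o2 o3 o4 h h' h1 h2 h3
  · -- baseL
    intro k l m hkl h1 h2
    rcases hkl with h | h
    · exact S.baseL k l m h h1 h2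
    · have hH : (S.pc k).y0 = H := by
        rcases h with ⟨rfl, rfl⟩ | ⟨rfl, rfl⟩ | ⟨rfl, rfl⟩ | ⟨rfl, rfl⟩ <;> assumption
      rw [hH]
      exact (S.ok m).2
  · -- flagL
    intro k l hkl e he
    rw [hmem'] at he
    rcases hkl with h | h
    · rcases he with he | rfl | he
      · exact S.flagL k l h e ((hmem e).2 (Or.inl he))
      · have f1 := hflag k l h L1 (Or.inl rfl)
        have f3 := hflag k l h R3 (Or.inr (Or.inr (Or.inr (Or.inr (Or.inr rfl)))))
        exact ⟨f1.1, f3.1, f1.2, f3.2⟩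
      · exact S.flagL k l h e ((hmem e).2 (Or.inr (Or.inr (Or.inr (Or.inr he)))))
    · have hz : S.z L1 < S.z k ∧ S.z k < S.z R3 ∧ S.z L1 < S.z l ∧ S.z l < S.z R3 := by
        have q1 : S.z L1 < S.z L2 := o1.trans o2
        have q2 : S.z L1 < S.z R2 := q1.trans o3
        have q3 : S.z L1 < S.z L3 := q2.trans o4
        have q4 : S.z R2 < S.z R3 := o4.trans o5
        have q5 : S.z L2 < S.z R3 := o3.trans q4
        have q6 : S.z R1 < S.z R3 := o2.trans q5
        rcases h with ⟨rfl, rfl⟩ | ⟨rfl, rfl⟩ | ⟨rfl, rfl⟩ | ⟨rfl, rfl⟩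
        · exact ⟨q1, q5, q2, q4⟩
        · exact ⟨q2, q4, q1, q5⟩
        · exact ⟨o1, q6, q3, o5⟩
        · exact ⟨q3, o5, o1, q6⟩
      obtain ⟨z1, z2, z3, z4⟩ := hz
      rcases he with he | rfl | he
      · obtain ⟨a1, a2⟩ := hA1 e he
        refine ⟨?_, ?_, ?_, ?_⟩
        · intro hk; rw [hk] at z1; linarith only [z1, a1, a2]
        · intro hk; rw [hk] at z1; linarith only [z1, a1, a2]
        · rintro ⟨b1, b2⟩; linarith only [b1, b2, z1, z2, z3, z4, a1, a2]
        · rintro ⟨b1, b2⟩; linarith only [b1, b2, z1, z2, z3, z4, a1, a2]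
      · refine ⟨?_, ?_, ?_, ?_⟩
        · intro hk
          simp only [hm'd] at hk
          rw [hk] at z1; exact lt_irrefl _ z1
        · intro hk
          simp only [hm'd] at hk
          rw [hk] at z2; exact lt_irrefl _ z2
        · rintro ⟨b1, b2⟩
          simp only [hm'd] at b1 b2
          linarith only [b1, b2, z1, z2, z3, z4]
        · rintro ⟨b1, b2⟩
          simp only [hm'd] at b1 b2
          linarith only [b1, b2, z1, z2, z3, z4]
      · obtain ⟨a1, a2⟩ := hB1 e he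
        refine ⟨?_, ?_, ?_, ?_⟩
        · intro hk; rw [hk] at z2; linarith only [z2, a1, a2]
        · intro hk; rw [hk] at z2; linarith only [z2, a1, a2]
        · rintro ⟨b1, b2⟩; linarith only [b1, b2, z1, z2, z3, z4, a1, a2]
        · rintro ⟨b1, b2⟩; linarith only [b1, b2, z1, z2, z3, z4, a1, a2]
  · -- flagB
    intro k l hkl e he
    rw [hmem'] at he
    rcases he with he | rfl | he
    · exact S.flagB k l hkl e ((hmem e).2 (Or.inl he))
    · have f1 := S.flagB k l hkl m1 hm1T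
      have f3 := S.flagB k l hkl m3 hm3T
      exact ⟨f1.1, f3.2⟩
    · exact S.flagB k l hkl e ((hmem e).2 (Or.inr (Or.inr (Or.inr (Or.inr he)))))
  · -- wind
    intro p hp
    have h1 := S.wind p hp
    rw [h1]
    have e1 : (A ++ [xx', yy, xx'] ++ B).map Prod.fst
        = A.map Prod.fst ++ [xx'.1, yy.1, xx'.1] ++ B.map Prod.fst := by simp
    have e2 : (A ++ [xx'] ++ B).map Prod.fst = A.map Prod.fst ++ [xx'.1] ++ B.map Prod.fst := by simp
    unfold wnd
    rw [e1, e2, cyc_sum_remove (fun a b => ang p a b)]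
    have hseg : p ∉ segment ℝ xx'.1 yy.1 := by
      intro hps
      rcases seg_union (c := yy.1) (τ := τ) hx2 hy2 hτ hps with h | h
      · apply hp R1
        refine ⟨((S.pc R1).e0, (S.pc R1).s0), ?_, ?_⟩
        · simp [Pc.bd, hsR1, cyc]
        · rw [pR1e0, pR1s0]; exact h
      · apply hp L2
        refine ⟨((S.pc L2).s0, (S.pc L2).e0), ?_, ?_⟩
        · simp [Pc.bd, hsL2, cyc]
        · rw [pL2s0, pL2e0]; exact h
    rw [ang_add_K2 hseg, zero_add]

end

end Pool.Agent.Helper22.FC
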