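import Pool.Agent.Helper22.FC.Base

namespace Pool.Agent.Helper22.FC

open Complex

noncomputable section

/-- consecutive pairs of `v :: W ++ [u]` -/
def g1cp {α : Type*} : α → List α → α → List (α × α)
  | v, [], u => [(v, u)]
  | v, w :: W, u => (v, w) :: g1cp w W u

theorem g1cyc {α : Type*} (v : α) (W : List α) : cyc (v :: W) = g1cp v W v := by
  have key : ∀ (W : List α) (v u : α), (v :: W).zip (W ++ [u]) = g1cp v W u := by
    intro W
    induction W with
    | nil => intro v u; rfl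
    | cons w W ih =>
      intro v u
      show (v, w) :: (w :: W).zip (W ++ [u]) = (v, w) :: g1cp w W u
      rw [ih]
  unfold cyc
  rw [List.rotate_cons_succ, List.rotate_zero, key]

theorem g1cp_append {α : Type*} (v : α) (W1 : List α) (w : α) (W2 : List α) (u : α) :
    g1cp v (W1 ++ w :: W2) u = g1cp v W1 w ++ g1cp w W2 u := by
  induction W1 generalizing v with
  | nil => rfl
  | cons a W1 ih =>
    show (v, a) :: g1cp a (W1 ++ w :: W2) u = (v, a) :: (g1cp a W1 w ++ g1cp w W2 u)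
    rw [ih]

theorem g1cp_lift {α β : Type*} (f : α → β) (P : α → α → Prop) (Q : β → β → Prop) (W : List α)
    (h1 : ∀ a b, P a b → Q (f a) (f b)) :
    ∀ (v u : α) (v' u' : β), (∀ x ∈ g1cp v W u, P x.1 x.2) → (∀ b, P v b → Q v' (f b)) →
      (∀ a, P a u → Q (f a) u') → (P v u → Q v' u') →
      ∀ x ∈ g1cp v' (W.map f) u', Q x.1 x.2 := by
  induction W with
  | nil =>
    intro v u v' u' hP _ _ hvu x hx
    have hx' : x = (v', u') := by simpa [g1cp] using hx
    rw [hx']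
    exact hvu (hP (v, u) (by simp [g1cp]))
  | cons w W ih =>
    intro v u v' u' hP hv hu _ x hx
    have hx' : x = (v', f w) ∨ x ∈ g1cp (f w) (W.map f) u' := by simpa [g1cp] using hx
    rcases hx' with hx' | hx'
    · rw [hx']
      exact hv w (hP (v, w) (by simp [g1cp]))
    · exact ih w u (f w) u' (fun x hx => hP x (by simp [g1cp, hx])) (fun b hb => h1 w b hb) hu
        (fun h => hu w h) x hx'

theorem g1chain_iff {α : Type*} (R : α → α → Prop) (W : List α) :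
    ∀ v u : α, (v :: W ++ [u]).IsChain R ↔ ∀ x ∈ g1cp v W u, R x.1 x.2 := by
  induction W with
  | nil => intro v u; simp [g1cp]
  | cons w W ih =>
    intro v u
    have := ih w u
    rw [List.cons_append] at this ⊢
    rw [List.cons_append, List.isChain_cons_cons, this]
    simp [g1cp]

theorem g1ang {x a b : ℂ} (h : x ∉ segment ℝ a b) : ang x a b + ang x b a = 0 := by
  have ha : a - x ≠ 0 := by
    intro h0
    apply h
    rw [sub_eq_zero] at h0
    rw [← h0]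
    exact left_mem_segment ℝ a b
  have hb : b - x ≠ 0 := by
    intro h0
    apply h
    rw [sub_eq_zero] at h0
    rw [← h0]
    exact right_mem_segment ℝ a b
  unfold ang
  have e1 : (a - x) / (b - x) = ((b - x) / (a - x))⁻¹ := by rw [inv_div]
  rw [e1, Complex.arg_inv]
  split_ifs with hpi
  · exfalso
    rw [Complex.arg_eq_pi_iff] at hpi
    obtain ⟨h1, h2⟩ := hpi
    set w := (b - x) / (a - x) with hw
    have hwr : w = ((w.re : ℝ) : ℂ) := by
      apply Complex.ext <;> simp [h2]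
    have hbx : b - x = w * (a - x) := by rw [hw]; field_simp
    apply h
    rw [segment_eq_image']
    refine ⟨1 / (1 - w.re), ⟨by
      have : 0 < 1 - w.re := by linarith
      positivity, ?_⟩, ?_⟩
    · rw [div_le_one (by linarith)]
      linarith
    · have hne : (1 - (w.re : ℂ)) ≠ 0 := by
        intro h0
        have := congrArg Complex.re h0
        simp at this
        linarith
      show a + (1 / (1 - w.re) : ℝ) • (b - a) = x
      rw [Complex.real_smul]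
      push_cast
      rw [hwr] at hbx
      field_simp
      linear_combination hbx
  · ring

/-- the points of the two bottom pieces along a boundary edge -/
theorem g1pts {H : ℝ} {a b : ℂ × ℝ} {P Q : Pc} {τ : ℂ} (hs : P.s = false) (hs' : Q.s = true)
    (hτ : P.τ = τ) (hτ' : Q.τ = τ) (ht : P.t = a.1 + a.2 * τ - H * I * τ)
    (ht' : Q.t = a.1 + a.2 * τ - H * I * τ) (hy : P.y0 = H) (hy' : Q.y0 = H) (hr : P.ρ0 = a.2)
    (hr' : Q.ρ0 = b.2) (hab : b.1 - a.1 = ((a.2 + b.2 : ℝ) : ℂ) * τ) :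
    P.s0 = a.1 + a.2 * τ ∧ Q.s0 = a.1 + a.2 * τ ∧ P.e0 = a.1 ∧ Q.e0 = b.1 := by
  refine ⟨?_, ?_, ?_, ?_⟩
  · unfold Pc.s0 Pc.pt
    rw [hs, hτ, ht, hy]
    push_cast
    simp
  · unfold Pc.s0 Pc.pt
    rw [hs', hτ', ht', hy']
    push_cast
    simp
  · unfold Pc.e0 Pc.pt
    rw [hs, hτ, ht, hy, hr]
    simp
    ring
  · unfold Pc.e0 Pc.pt
    rw [hs', hτ', ht', hy', hr']
    push_cast at hab
    simp
    linear_combination -hab

set_option maxHeartbeats 4000000 in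
theorem Stack.glue1 {H : ℝ} {p y : ℂ × ℝ} {X Y : List (ℂ × ℝ)} (hY : Y ≠ [])
    (S : Stack H ([p, y] ++ Y)) (S' : Stack H ([p] ++ X ++ [y])) :
    Nonempty (Stack H ([p] ++ X ++ [y] ++ Y)) := by
  classical
  obtain ⟨⟨p0, L1, R1⟩, T1, hT1, he1, hT1'⟩ := List.map_eq_cons_iff.mp S.hT
  obtain ⟨⟨y0, L2, R2⟩, TY, hT2, he2, hTY⟩ := List.map_eq_cons_iff.mp hT1'
  replace he1 : p0 = p := he1
  replace he2 : y0 = y := he2
  rw [he1, hT2, he2] at hT1
  obtain ⟨l1, l2, hl, hl1, hl2⟩ := List.map_eq_append_iff.mp S'.hT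
  obtain ⟨⟨p0', L1', R1'⟩, TX, hTX1, he1', hTX⟩ := List.map_eq_cons_iff.mp hl1
  obtain ⟨⟨y0', L2', R2'⟩, Tn, hTn, he2', hTn'⟩ := List.map_eq_cons_iff.mp hl2
  replace he1' : p0' = p := he1'
  replace he2' : y0' = y := he2'
  rw [List.map_eq_nil_iff] at hTn'
  rw [hTX1, hTn, he1', he2', hTn'] at hl
  replace hl : S'.T = (p, L1', R1') :: (TX ++ [(y, L2', R2')]) := hl
  replace hTX : TX.map Prod.fst = X := hTX
  have hTYne : TY ≠ [] := by
    rintro rfl
    exact hY hTY.symm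
  -- order facts
  let F1 : (ℂ × ℝ) × S.ι × S.ι → List S.ι := fun e => [e.2.1, e.2.2]
  let F2 : (ℂ × ℝ) × S'.ι × S'.ι → List S'.ι := fun e => [e.2.1, e.2.2]
  have so : List.Pairwise (fun a b => S.z a < S.z b) (L1 :: R1 :: L2 :: R2 :: TY.flatMap F1) := by
    have := S.sorted
    rw [hT1] at this
    exact this
  have so' : List.Pairwise (fun a b => S'.z a < S'.z b)
      (L1' :: R1' :: (TX.flatMap F2 ++ [L2', R2'])) := by
    have := S'.sorted
    rw [hl] at this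
    rw [List.flatMap_cons, List.flatMap_append] at this
    exact this
  obtain ⟨so1, so2⟩ := List.pairwise_cons.mp so
  obtain ⟨so3, so4⟩ := List.pairwise_cons.mp so2
  obtain ⟨so5, so6⟩ := List.pairwise_cons.mp so4
  obtain ⟨so7, so8⟩ := List.pairwise_cons.mp so6
  obtain ⟨so1', so2'⟩ := List.pairwise_cons.mp so'
  have hL1R1 : S.z L1 < S.z R1 := so1 R1 (by simp)
  have hR1L2 : S.z R1 < S.z L2 := so3 L2 (by simp)
  have hL2R2 : S.z L2 < S.z R2 := so5 R2 (by simp)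
  have ga := S.gap
  rw [hT1] at ga
  obtain ⟨hgap, ga2⟩ := List.isChain_cons_cons.mp ga
  replace hgap : ∀ k, S.z R1 < S.z k → S.z k < S.z L2 → False := fun k h1 h2 => hgap k ⟨h1, h2⟩
  have ga' := S'.gap
  rw [hl, ← List.cons_append, g1chain_iff] at ga'
  have hrL' : ∀ k, S'.z L1' ≤ S'.z k := by
    have := S'.rootL
    rw [hl] at this
    exact this _ rfl
  have hrR' : ∀ k, S'.z k ≤ S'.z R2' := by
    have := S'.rootR
    rw [hl, ← List.cons_append, List.getLast?_append] at this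
    exact this _ rfl
  have hrL : ∀ k, S.z L1 ≤ S.z k := by
    have := S.rootL
    rw [hT1] at this
    exact this _ rfl
  -- the embedding of the second stack
  obtain ⟨g, hgm, hg0, hg1⟩ : ∃ g : ℝ → ℝ, StrictMono g ∧ (∀ t, S.z R1 < g t) ∧
      ∀ t, g t < S.z L2 := by
    refine ⟨fun t => S.z R1 + (S.z L2 - S.z R1) * (Real.arctan t / Real.pi + 1 / 2), ?_, ?_, ?_⟩
    · intro s t hst
      have h1 := Real.arctan_strictMono hst
      have h2 : Real.arctan s / Real.pi < Real.arctan t / Real.pi :=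
        div_lt_div_of_pos_right h1 Real.pi_pos
      have h3 : 0 < S.z L2 - S.z R1 := by linarith
      show S.z R1 + (S.z L2 - S.z R1) * (Real.arctan s / Real.pi + 1 / 2) <
        S.z R1 + (S.z L2 - S.z R1) * (Real.arctan t / Real.pi + 1 / 2)
      nlinarith
    · intro t
      have h1 := Real.neg_pi_div_two_lt_arctan t
      have h2 : -(1 / 2) < Real.arctan t / Real.pi := by
        rw [lt_div_iff₀ Real.pi_pos]; linarith
      have h3 : 0 < S.z L2 - S.z R1 := by linarith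
      show S.z R1 < S.z R1 + (S.z L2 - S.z R1) * (Real.arctan t / Real.pi + 1 / 2)
      nlinarith
    · intro t
      have h1 := Real.arctan_lt_pi_div_two t
      have h2 : Real.arctan t / Real.pi < 1 / 2 := by
        rw [div_lt_iff₀ Real.pi_pos]; linarith
      have h3 : 0 < S.z L2 - S.z R1 := by linarith
      show S.z R1 + (S.z L2 - S.z R1) * (Real.arctan t / Real.pi + 1 / 2) < S.z L2
      nlinarith
  let Z : S.ι ⊕ S'.ι → ℝ := Sum.elim S.z (fun k => g (S'.z k))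
  let PC : S.ι ⊕ S'.ι → Pc := Sum.elim S.pc S'.pc
  have hZl : ∀ k, Z (Sum.inl k) = S.z k := fun _ => rfl
  have hZr : ∀ k, Z (Sum.inr k) = g (S'.z k) := fun _ => rfl
  have hbr : ∀ (k l : S.ι) (m : S'.ι), S.z k < g (S'.z m) → g (S'.z m) < S.z l →
      S.z k ≤ S.z R1 ∧ S.z L2 ≤ S.z l := by
    intro k l m h1 h2
    constructor
    · by_contra hc
      push Not at hc
      exact hgap k hc (lt_trans h1 (hg1 _))
    · by_contra hc
      push Not at hc
      exact hgap l (lt_trans (hg0 _) h2) hc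
  -- geometry along the common edge
  obtain ⟨hg12, hRS12⟩ := S.geo ((p, L1, R1), (y, L2, R2)) (by
    rw [hT1, g1cyc]; simp [g1cp])
  obtain ⟨hg21, hRS21⟩ := S'.geo ((y, L2', R2'), (p, L1', R1')) (by
    rw [hl, g1cyc, g1cp_append]; simp [g1cp])
  obtain ⟨τ, hτn, hab, as1, as2, at1, at2, ap1, ap2, ay1, ay2, ar1, ar2, -⟩ := hg12
  obtain ⟨τ', hτn', hab', bs1, bs2, bt1, bt2, bp1, bp2, by1, by2, br1, br2, -⟩ := hg21
  dsimp only at hab as1 as2 at1 at2 ap1 ap2 ay1 ay2 ar1 ar2 hab' bs1 bs2 bt1 bt2 bp1 bp2 by1 by2 br1 br2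
  have hpp : 0 < p.2 := by
    have := (S.ok R1).1.2.2.1
    rwa [ar1] at this
  have hyp : 0 < y.2 := by
    have := (S.ok L2).1.2.2.1
    rwa [ar2] at this
  have hsum : ((p.2 + y.2 : ℝ) : ℂ) ≠ 0 := by
    intro h0
    have : p.2 + y.2 = 0 := by exact_mod_cast h0
    linarith
  have hττ : τ' = -τ := by
    have h1 : ((p.2 + y.2 : ℝ) : ℂ) * (τ' + τ) = 0 := by
      have e1 : ((y.2 + p.2 : ℝ) : ℂ) = ((p.2 + y.2 : ℝ) : ℂ) := by rw [add_comm]
      rw [e1] at hab'
      linear_combination -hab - hab'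
    rcases mul_eq_zero.mp h1 with h2 | h2
    · exact absurd h2 hsum
    · linear_combination h2
  have hτ0 : τ ≠ 0 := by
    intro h0
    rw [h0, norm_zero] at hτn
    norm_num at hτn
  have hpy : y.1 ≠ p.1 := by
    intro h0
    have : ((p.2 + y.2 : ℝ) : ℂ) * τ = 0 := by rw [← hab, h0, sub_self]
    rcases mul_eq_zero.mp this with h2 | h2
    · exact hsum h2
    · exact hτ0 h2
  obtain ⟨c1, c2, c3, c4⟩ := g1pts as1 as2 at1 at2 ap1 ap2 ay1 ay2 ar1 ar2 hab
  obtain ⟨d1, d2, d3, d4⟩ := g1pts bs1 bs2 bt1 bt2 bp1 bp2 by1 by2 br1 br2 hab'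
  have hmid : y.1 + y.2 * τ' = p.1 + p.2 * τ := by
    rw [hττ]
    push_cast at hab
    linear_combination hab
  have hML1 : (S.pc R1).ML (S'.pc L1') := by
    refine ⟨?_, ?_, ?_, ?_, ?_⟩
    · rw [as1, bs2]; decide
    · rw [ay1, by2]
    · rw [ar1, br2]
    · rw [c1, d2, hmid]
    · rw [c3, d4]
  have hML2 : (S'.pc R2').ML (S.pc L2) := by
    refine ⟨?_, ?_, ?_, ?_, ?_⟩
    · rw [bs1, as2]; decide
    · rw [by1, ay2]
    · rw [br1, ar2]
    · rw [d1, c2, hmid]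
    · rw [d3, c4]
  have hMLs : ∀ {P Q : Pc}, P.ML Q → Q.ML P := fun h =>
    ⟨h.1.symm, h.2.1.symm, h.2.2.1.symm, h.2.2.2.1.symm, h.2.2.2.2.symm⟩
  -- relations
  let RS : S.ι ⊕ S'.ι → S.ι ⊕ S'.ι → Prop := Sum.LiftRel S.RS S'.RS
  let RB : S.ι ⊕ S'.ι → S.ι ⊕ S'.ι → Prop := Sum.LiftRel S.RB S'.RB
  let RF : S.ι ⊕ S'.ι → S.ι ⊕ S'.ι → Prop := Sum.LiftRel S.RF S'.RF
  let M1 : S.ι ⊕ S'.ι → S.ι ⊕ S'.ι → Prop := fun k l =>
    (k = Sum.inl R1 ∧ l = Sum.inr L1') ∨ (k = Sum.inr R2' ∧ l = Sum.inl L2)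
  let RL : S.ι ⊕ S'.ι → S.ι ⊕ S'.ι → Prop := fun k l =>
    Sum.LiftRel S.RL S'.RL k l ∨ M1 k l ∨ M1 l k
  have hM1lt : ∀ k l, M1 k l → Z k < Z l := by
    rintro k l (⟨rfl, rfl⟩ | ⟨rfl, rfl⟩)
    · exact hg0 _
    · exact hg1 _
  have hM1adj : ∀ k l, (M1 k l ∨ M1 l k) → ∀ m, Z k < Z m → Z m < Z l → False := by
    intro k l hkl m h1 h2
    rcases hkl with hkl | hkl
    · rcases hkl with ⟨rfl, rfl⟩ | ⟨rfl, rfl⟩
      · rcases m with m | m
        · exact hgap m h1 (lt_trans h2 (hg1 _))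
        · exact absurd (hgm.lt_iff_lt.mp h2) (not_lt.mpr (hrL' m))
      · rcases m with m | m
        · exact hgap m (lt_trans (hg0 _) h1) h2
        · exact absurd (hgm.lt_iff_lt.mp h1) (not_lt.mpr (hrR' m))
    · exact absurd (lt_trans h1 h2) (not_lt.mpr (hM1lt l k hkl).le)
  -- the new list
  let G1 : (ℂ × ℝ) × S.ι × S.ι → (ℂ × ℝ) × (S.ι ⊕ S'.ι) × (S.ι ⊕ S'.ι) :=
    fun e => (e.1, Sum.inl e.2.1, Sum.inl e.2.2)
  let G2 : (ℂ × ℝ) × S'.ι × S'.ι → (ℂ × ℝ) × (S.ι ⊕ S'.ι) × (S.ι ⊕ S'.ι) :=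
    fun e => (e.1, Sum.inr e.2.1, Sum.inr e.2.2)
  let n1 : (ℂ × ℝ) × (S.ι ⊕ S'.ι) × (S.ι ⊕ S'.ι) := (p, Sum.inl L1, Sum.inr R1')
  let n2 : (ℂ × ℝ) × (S.ι ⊕ S'.ι) × (S.ι ⊕ S'.ι) := (y, Sum.inr L2', Sum.inl R2)
  let T : List ((ℂ × ℝ) × (S.ι ⊕ S'.ι) × (S.ι ⊕ S'.ι)) := n1 :: (TX.map G2 ++ n2 :: TY.map G1)
  -- entries
  let Ent : S.ι ⊕ S'.ι → Prop := fun q => (∃ r, q = Sum.inl r ∧ (∃ e ∈ S.T, r = e.2.1 ∨ r = e.2.2) ∧
      r ≠ R1 ∧ r ≠ L2) ∨ (∃ r, q = Sum.inr r ∧ (∃ e ∈ S'.T, r = e.2.1 ∨ r = e.2.2) ∧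
      r ≠ L1' ∧ r ≠ R2')
  have hneS : ∀ {a b : S.ι}, S.z a < S.z b → a ≠ b := by
    rintro a b h rfl
    exact lt_irrefl _ h
  have hneS' : ∀ {a b : S'.ι}, S'.z a < S'.z b → a ≠ b := by
    rintro a b h rfl
    exact lt_irrefl _ h
  have hmemB : ∀ e ∈ TY, e.2.1 ∈ TY.flatMap F1 ∧ e.2.2 ∈ TY.flatMap F1 := by
    intro e he
    exact ⟨List.mem_flatMap.mpr ⟨e, he, by simp [F1]⟩, List.mem_flatMap.mpr ⟨e, he, by simp [F1]⟩⟩
  have hmemA : ∀ e ∈ TX, e.2.1 ∈ TX.flatMap F2 ∧ e.2.2 ∈ TX.flatMap F2 := by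
    intro e he
    exact ⟨List.mem_flatMap.mpr ⟨e, he, by simp [F2]⟩, List.mem_flatMap.mpr ⟨e, he, by simp [F2]⟩⟩
  have hB2 : ∀ b ∈ TY.flatMap F1, S.z R2 < S.z b := fun b hb => so7 b hb
  have hR1L2' : S'.z R1' < S'.z L2' := (List.pairwise_cons.mp so2').1 L2' (by simp)
  have hsoA := (List.pairwise_cons.mp so2').2
  rw [List.pairwise_append] at hsoA
  obtain ⟨hsoA1, hsoA2, hsoA3⟩ := hsoA
  have hL2R2' : S'.z L2' < S'.z R2' := (List.pairwise_cons.mp hsoA2).1 R2' (by simp)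
  have hA1 : ∀ b ∈ TX.flatMap F2, S'.z L1' < S'.z b := fun b hb => so1' b (by simp [hb])
  have hA2 : ∀ b ∈ TX.flatMap F2, S'.z b < S'.z L2' := fun b hb => hsoA3 b hb L2' (by simp)
  have hEnt : ∀ e ∈ T, Ent e.2.1 ∧ Ent e.2.2 := by
    intro e he
    have he' : e = n1 ∨ e ∈ TX.map G2 ∨ e = n2 ∨ e ∈ TY.map G1 := by
      simpa [T] using he
    rcases he' with rfl | he' | rfl | he'
    · refine ⟨Or.inl ⟨L1, rfl, ⟨(p, L1, R1), by rw [hT1]; simp, Or.inl rfl⟩, hneS hL1R1,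
        hneS (hL1R1.trans hR1L2)⟩, Or.inr ⟨R1', rfl, ⟨(p, L1', R1'), by rw [hl]; simp, Or.inr rfl⟩,
        (hneS' (so1' R1' (by simp))).symm, hneS' (hR1L2'.trans hL2R2')⟩⟩
    · obtain ⟨f, hf, rfl⟩ := List.mem_map.mp he'
      obtain ⟨hf1, hf2⟩ := hmemA f hf
      refine ⟨Or.inr ⟨f.2.1, rfl, ⟨f, by rw [hl]; simp [hf], Or.inl rfl⟩, (hneS' (hA1 _ hf1)).symm,
        hneS' ((hA2 _ hf1).trans hL2R2')⟩, Or.inr ⟨f.2.2, rfl, ⟨f, by rw [hl]; simp [hf],
        Or.inr rfl⟩, (hneS' (hA1 _ hf2)).symm, hneS' ((hA2 _ hf2).trans hL2R2')⟩⟩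
    · refine ⟨Or.inr ⟨L2', rfl, ⟨(y, L2', R2'), by rw [hl]; simp, Or.inl rfl⟩,
        (hneS' (so1' L2' (by simp))).symm, hneS' hL2R2'⟩, Or.inl ⟨R2, rfl, ⟨(y, L2, R2),
        by rw [hT1]; simp, Or.inr rfl⟩, (hneS (hR1L2.trans hL2R2)).symm, (hneS hL2R2).symm⟩⟩
    · obtain ⟨f, hf, rfl⟩ := List.mem_map.mp he'
      obtain ⟨hf1, hf2⟩ := hmemB f hf
      refine ⟨Or.inl ⟨f.2.1, rfl, ⟨f, by rw [hT1]; simp [hf], Or.inl rfl⟩,
        (hneS ((hR1L2.trans hL2R2).trans (hB2 _ hf1))).symm, (hneS (hL2R2.trans (hB2 _ hf1))).symm⟩,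
        Or.inl ⟨f.2.2, rfl, ⟨f, by rw [hT1]; simp [hf], Or.inr rfl⟩,
        (hneS ((hR1L2.trans hL2R2).trans (hB2 _ hf2))).symm, (hneS (hL2R2.trans (hB2 _ hf2))).symm⟩⟩
  have hentR1 : (p, L1, R1) ∈ S.T := by rw [hT1]; simp
  have hentL2 : (y, L2, R2) ∈ S.T := by rw [hT1]; simp
  -- enclosing facts
  have encL : ∀ (k l : S.ι) (m : S'.ι), S.RL k l → S.z k < g (S'.z m) → g (S'.z m) < S.z l →
      False := by
    intro k l m hkl h1 h2
    obtain ⟨h3, h4⟩ := hbr k l m h1 h2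
    obtain ⟨f1, f2, f3, f4⟩ := S.flagL k l hkl _ hentR1
    have h5 : S.z k < S.z R1 := lt_of_le_of_ne h3 fun h => f2 (S.z_inj h)
    exact f4 ⟨h5, lt_of_lt_of_le hR1L2 h4⟩
  have encB : ∀ (k l : S.ι) (m : S'.ι), S.RB k l → S.z k < g (S'.z m) → g (S'.z m) < S.z l →
      False := by
    intro k l m hkl h1 h2
    obtain ⟨h3, h4⟩ := hbr k l m h1 h2
    have f1 := (S.flagB k l hkl _ hentR1).2
    have f2 := (S.flagB k l hkl _ hentL2).1
    have h5 : k = R1 := by
      by_contra hne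
      have h5 : S.z k < S.z R1 := lt_of_le_of_ne h3 fun h => hne (S.z_inj h)
      exact f1 ⟨h5, lt_of_lt_of_le hR1L2 h4⟩
    have h6 : l = L2 := by
      by_contra hne
      have h6 : S.z L2 < S.z l := lt_of_le_of_ne h4 fun h => hne (S.z_inj h).symm
      exact f2 ⟨lt_of_le_of_lt h3 hR1L2, h6⟩
    subst h5 h6
    obtain ⟨-, -, -, -, -, h7, -⟩ := S.geoB _ _ hkl
    rw [c3, c4] at h7
    exact hpy h7.symm
  have hMFs : ¬ (S.pc R1).MF (S.pc L2) := by
    rintro ⟨h, -⟩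
    rw [as1, as2] at h
    exact absurd h (by decide)
  have hMFs' : ¬ (S.pc L2).MF (S.pc R1) := by
    rintro ⟨h, -⟩
    rw [as1, as2] at h
    exact absurd h (by decide)
  have encF : ∀ (k l : S.ι) (m : S'.ι), S.RF k l →
      ¬ (S.z k < g (S'.z m) ∧ g (S'.z m) < S.z l) ∧
      ¬ (S.z l < g (S'.z m) ∧ g (S'.z m) < S.z k) := by
    intro k l m hkl
    constructor
    · rintro ⟨h1, h2⟩
      obtain ⟨h3, h4⟩ := hbr k l m h1 h2
      have h5 : k = R1 := by
        by_contra hne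
        have h5 : S.z k < S.z R1 := lt_of_le_of_ne h3 fun h => hne (S.z_inj h)
        exact (S.adjF k l R1 hkl).1 ⟨h5, lt_of_lt_of_le hR1L2 h4⟩
      have h6 : l = L2 := by
        by_contra hne
        have h6 : S.z L2 < S.z l := lt_of_le_of_ne h4 fun h => hne (S.z_inj h).symm
        exact (S.adjF k l L2 hkl).1 ⟨lt_of_le_of_lt h3 hR1L2, h6⟩
      subst h5 h6
      exact hMFs (S.geoF _ _ hkl)
    · rintro ⟨h1, h2⟩
      obtain ⟨h3, h4⟩ := hbr l k m h1 h2
      have h5 : l = R1 := by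
        by_contra hne
        have h5 : S.z l < S.z R1 := lt_of_le_of_ne h3 fun h => hne (S.z_inj h)
        exact (S.adjF k l R1 hkl).2 ⟨h5, lt_of_lt_of_le hR1L2 h4⟩
      have h6 : k = L2 := by
        by_contra hne
        have h6 : S.z L2 < S.z k := lt_of_le_of_ne h4 fun h => hne (S.z_inj h).symm
        exact (S.adjF k l L2 hkl).2 ⟨lt_of_le_of_lt h3 hR1L2, h6⟩
      subst h5 h6
      exact hMFs' (S.geoF _ _ hkl)
  have encr : ∀ (k l : S'.ι) (m : S.ι), g (S'.z k) < S.z m → S.z m < g (S'.z l) → False :=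
    fun k l m h1 h2 => hgap m (lt_trans (hg0 _) h1) (lt_trans h2 (hg1 _))
  -- the fields
  have f_hT : T.map Prod.fst = [p] ++ X ++ [y] ++ Y := by
    show p :: (List.map Prod.fst (TX.map G2 ++ n2 :: TY.map G1)) = _
    rw [List.map_append, List.map_map, List.map_cons, List.map_map]
    have e1 : (Prod.fst ∘ G2 : _ → ℂ × ℝ) = Prod.fst := rfl
    have e2 : (Prod.fst ∘ G1 : _ → ℂ × ℝ) = Prod.fst := rfl
    rw [e1, e2, hTX, hTY]
    simp [n2]
  have f_zinj : Function.Injective Z := by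
    rintro (k | k) (l | l) h
    · exact congrArg _ (S.z_inj h)
    · exfalso
      have h : S.z k = g (S'.z l) := h
      exact hgap k (h ▸ hg0 _) (h ▸ hg1 _)
    · exfalso
      have h : g (S'.z k) = S.z l := h
      exact hgap l (h ▸ hg0 _) (h ▸ hg1 _)
    · exact congrArg _ (S'.z_inj (hgm.injective h))
  have f_ok : ∀ k, (PC k).Ok ∧ H ≤ (PC k).y0 := by
    rintro (k | k)
    · exact S.ok k
    · exact S'.ok k
  have f_geo : ∀ e ∈ cyc T, EdgeGeo H e.1.1 e.2.1 (PC e.1.2.2) (PC e.2.2.1) ∧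
      RS e.1.2.2 e.2.2.1 := by
    have hcyc : cyc T = g1cp n1 (TX.map G2) n2 ++ g1cp n2 (TY.map G1) n1 := by
      rw [g1cyc, g1cp_append]
    rw [hcyc]
    have a1 : ∀ x ∈ g1cp n1 (TX.map G2) n2, EdgeGeo H x.1.1 x.2.1 (PC x.1.2.2) (PC x.2.2.1) ∧
        RS x.1.2.2 x.2.2.1 := by
      refine g1cp_lift G2 (fun a b => EdgeGeo H a.1 b.1 (S'.pc a.2.2) (S'.pc b.2.1) ∧
        S'.RS a.2.2 b.2.1) (fun a b => EdgeGeo H a.1 b.1 (PC a.2.2) (PC b.2.1) ∧ RS a.2.2 b.2.1)
        TX ?_ (p, L1', R1') (y, L2', R2') n1 n2 ?_ ?_ ?_ ?_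
      · rintro a b ⟨h1, h2⟩
        exact ⟨h1, Sum.LiftRel.inr h2⟩
      · intro x hx
        refine S'.geo x ?_
        rw [hl, g1cyc, g1cp_append]
        exact List.mem_append_left _ hx
      · rintro b ⟨h1, h2⟩
        exact ⟨h1, Sum.LiftRel.inr h2⟩
      · rintro b ⟨h1, h2⟩
        exact ⟨h1, Sum.LiftRel.inr h2⟩
      · rintro ⟨h1, h2⟩
        exact ⟨h1, Sum.LiftRel.inr h2⟩
    have a2 : ∀ x ∈ g1cp n2 (TY.map G1) n1, EdgeGeo H x.1.1 x.2.1 (PC x.1.2.2) (PC x.2.2.1) ∧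
        RS x.1.2.2 x.2.2.1 := by
      refine g1cp_lift G1 (fun a b => EdgeGeo H a.1 b.1 (S.pc a.2.2) (S.pc b.2.1) ∧
        S.RS a.2.2 b.2.1) (fun a b => EdgeGeo H a.1 b.1 (PC a.2.2) (PC b.2.1) ∧ RS a.2.2 b.2.1)
        TY ?_ (y, L2, R2) (p, L1, R1) n2 n1 ?_ ?_ ?_ ?_
      · rintro a b ⟨h1, h2⟩
        exact ⟨h1, Sum.LiftRel.inl h2⟩
      · intro x hx
        refine S.geo x ?_
        rw [hT1, g1cyc]
        exact List.mem_cons_of_mem _ hx
      · rintro b ⟨h1, h2⟩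
        exact ⟨h1, Sum.LiftRel.inl h2⟩
      · rintro b ⟨h1, h2⟩
        exact ⟨h1, Sum.LiftRel.inl h2⟩
      · rintro ⟨h1, h2⟩
        exact ⟨h1, Sum.LiftRel.inl h2⟩
    intro x hx
    rcases List.mem_append.mp hx with hx | hx
    · exact a1 x hx
    · exact a2 x hx
  have f_sorted : (T.flatMap (fun e => [e.2.1, e.2.2])).Pairwise (fun a b => Z a < Z b) := by
    have hflat : T.flatMap (fun e => [e.2.1, e.2.2]) =
        Sum.inl L1 :: ((R1' :: (TX.flatMap F2 ++ [L2'])).map Sum.inr ++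
          (R2 :: TY.flatMap F1).map Sum.inl) := by
      show Sum.inl L1 :: Sum.inr R1' :: ((TX.map G2 ++ n2 :: TY.map G1).flatMap
        (fun e => [e.2.1, e.2.2])) = _
      rw [List.flatMap_append, List.flatMap_map, List.flatMap_cons, List.flatMap_map]
      simp only [List.map_cons, List.map_append, List.map_flatMap, List.cons_append, n2,
        List.append_assoc, List.nil_append, List.map_nil, F1, F2, G1, G2]
    rw [hflat, List.pairwise_cons]
    constructor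
    · intro q hq
      rcases List.mem_append.mp hq with hq | hq
      · obtain ⟨r, -, rfl⟩ := List.mem_map.mp hq
        exact lt_trans hL1R1 (hg0 _)
      · obtain ⟨r, hr, rfl⟩ := List.mem_map.mp hq
        refine so1 r ?_
        simp only [List.mem_cons] at hr ⊢
        tauto
    · rw [List.pairwise_append]
      refine ⟨?_, ?_, ?_⟩
      · rw [List.pairwise_map]
        have h1 : (R1' :: (TX.flatMap F2 ++ [L2'])).Pairwise (fun a b => S'.z a < S'.z b) := by
          refine so2'.sublist ?_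
          refine List.Sublist.cons_cons _ (List.Sublist.append_left ?_ _)
          exact List.Sublist.cons_cons _ (List.nil_sublist _)
        exact h1.imp fun h => hgm h
      · rw [List.pairwise_map]
        exact so6
      · intro a ha b hb
        obtain ⟨r, hr, rfl⟩ := List.mem_map.mp ha
        obtain ⟨r', hr', rfl⟩ := List.mem_map.mp hb
        refine lt_trans (hg1 _) ?_
        exact so5 r' hr'
  have f_gap : T.IsChain (fun e e' => ∀ k, ¬ (Z e.2.2 < Z k ∧ Z k < Z e'.2.1)) := by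
    show List.IsChain _ ((n1 :: TX.map G2) ++ n2 :: TY.map G1)
    rw [List.isChain_split]
    constructor
    · rw [g1chain_iff]
      refine g1cp_lift G2 (fun a b => ∀ k, ¬ (S'.z a.2.2 < S'.z k ∧ S'.z k < S'.z b.2.1))
        (fun e e' => ∀ k, ¬ (Z e.2.2 < Z k ∧ Z k < Z e'.2.1)) TX ?_ (p, L1', R1') (y, L2', R2')
        n1 n2 ga' ?_ ?_ ?_
      · rintro a b h (k | k) ⟨h1, h2⟩
        · exact encr _ _ _ h1 h2
        · exact h k ⟨hgm.lt_iff_lt.mp h1, hgm.lt_iff_lt.mp h2⟩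
      · rintro b h (k | k) ⟨h1, h2⟩
        · exact encr _ _ _ h1 h2
        · exact h k ⟨hgm.lt_iff_lt.mp h1, hgm.lt_iff_lt.mp h2⟩
      · rintro b h (k | k) ⟨h1, h2⟩
        · exact encr _ _ _ h1 h2
        · exact h k ⟨hgm.lt_iff_lt.mp h1, hgm.lt_iff_lt.mp h2⟩
      · rintro h (k | k) ⟨h1, h2⟩
        · exact encr _ _ _ h1 h2
        · exact h k ⟨hgm.lt_iff_lt.mp h1, hgm.lt_iff_lt.mp h2⟩
    · have hstep : ∀ (e : (ℂ × ℝ) × (S.ι ⊕ S'.ι) × (S.ι ⊕ S'.ι)) (r : S.ι) (W : List _),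
          e.2.2 = Sum.inl r → (r = R2 ∨ r ∈ TY.flatMap F1) → (∀ f ∈ W, f ∈ TY) →
          (∀ f ∈ W.head?, ∀ k, ¬ (S.z r < S.z k ∧ S.z k < S.z f.2.1)) →
          W.IsChain (fun e e' => ∀ k, ¬ (S.z e.2.2 < S.z k ∧ S.z k < S.z e'.2.1)) →
          (e :: W.map G1).IsChain (fun e e' => ∀ k, ¬ (Z e.2.2 < Z k ∧ Z k < Z e'.2.1)) := by
        intro e r W
        induction W generalizing e r with
        | nil => intro _ _ _ _ _; exact List.isChain_singleton _
        | cons w W ih =>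
          intro he hr hW hh hc
          rw [List.map_cons, List.isChain_cons_cons]
          constructor
          · rintro (k | k) ⟨h1, h2⟩
            · rw [he] at h1
              exact hh w rfl k ⟨h1, h2⟩
            · rw [he] at h1
              have h3 : S.z L2 < S.z r := by
                rcases hr with hr | hr
                · rw [hr]; exact hL2R2
                · exact hL2R2.trans (hB2 r hr)
              exact absurd (lt_trans h3 h1) (not_lt.mpr (hg1 _).le)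
          · rw [List.isChain_cons] at hc
            exact ih (G1 w) w.2.2 rfl (Or.inr (hmemB w (hW w (by simp))).2)
              (fun f hf => hW f (List.mem_cons_of_mem _ hf)) hc.1 hc.2
      rw [List.isChain_cons] at ga2
      exact hstep n2 R2 TY rfl (Or.inl rfl) (fun f hf => hf) ga2.1 ga2.2
  have f_rootL : ∀ e ∈ T.head?, ∀ k, Z e.2.1 ≤ Z k := by
    intro e he k
    have he' : e = n1 := by
      have : some n1 = some e := he
      exact (Option.some.inj this).symm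
    rw [he']
    rcases k with k | k
    · exact hrL k
    · exact (lt_trans hL1R1 (hg0 _)).le
  have f_rootR : ∀ e ∈ T.getLast?, ∀ k, Z k ≤ Z e.2.2 := by
    intro e he k
    have hlast : T.getLast? = (TY.getLast?).map G1 := by
      show ((n1 :: TX.map G2) ++ n2 :: TY.map G1).getLast? = _
      rw [List.getLast?_append]
      obtain ⟨w, W, hw⟩ := List.exists_cons_of_ne_nil hTYne
      have : (n2 :: TY.map G1).getLast? = (TY.map G1).getLast? := by
        rw [hw, List.map_cons, List.getLast?_cons_cons]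
      rw [this, List.getLast?_map]
      rw [hw]
      simp [List.getLast?_cons]
    have hlastS : S.T.getLast? = TY.getLast? := by
      rw [hT1]
      obtain ⟨w, W, hw⟩ := List.exists_cons_of_ne_nil hTYne
      rw [hw, List.getLast?_cons_cons, List.getLast?_cons_cons]
    rw [hlast] at he
    obtain ⟨f, hf, rfl⟩ : ∃ f, TY.getLast? = some f ∧ G1 f = e := by
      simpa [Option.map_eq_some_iff] using he
    have hf' : f ∈ S.T.getLast? := by rw [hlastS, hf]; rfl
    have hr := S.rootR f hf'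
    rcases k with k | k
    · exact hr k
    · exact (lt_of_lt_of_le (hg1 _) (hr L2)).le
  have f_symS : ∀ k l, RS k l → RS l k := by
    rintro _ _ (h | h)
    · exact Sum.LiftRel.inl (S.symS _ _ h)
    · exact Sum.LiftRel.inr (S'.symS _ _ h)
  have f_symB : ∀ k l, RB k l → RB l k := by
    rintro _ _ (h | h)
    · exact Sum.LiftRel.inl (S.symB _ _ h)
    · exact Sum.LiftRel.inr (S'.symB _ _ h)
  have f_symL : ∀ k l, RL k l → RL l k := by
    rintro _ _ ((h | h) | h | h)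
    · exact Or.inl (Sum.LiftRel.inl (S.symL _ _ h))
    · exact Or.inl (Sum.LiftRel.inr (S'.symL _ _ h))
    · exact Or.inr (Or.inr h)
    · exact Or.inr (Or.inl h)
  have f_geoS : ∀ k l, RS k l → (PC k).MS (PC l) := by
    rintro _ _ (h | h)
    · exact S.geoS _ _ h
    · exact S'.geoS _ _ h
  have f_geoB : ∀ k l, RB k l → (PC k).MB (PC l) := by
    rintro _ _ (h | h)
    · exact S.geoB _ _ h
    · exact S'.geoB _ _ h
  have hM1geo : ∀ k l, M1 k l → (PC k).ML (PC l) := by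
    rintro k l (⟨rfl, rfl⟩ | ⟨rfl, rfl⟩)
    · exact hML1
    · exact hML2
  have f_geoL : ∀ k l, RL k l → (PC k).ML (PC l) := by
    rintro _ _ ((h | h) | h | h)
    · exact S.geoL _ _ h
    · exact S'.geoL _ _ h
    · exact hM1geo _ _ h
    · exact hMLs (hM1geo _ _ h)
  have f_geoF : ∀ k l, RF k l → (PC k).MF (PC l) := by
    rintro _ _ (h | h)
    · exact S.geoF _ _ h
    · exact S'.geoF _ _ h
  have f_exS : ∀ k, ∃ l, RS k l := by
    rintro (k | k)
    · obtain ⟨l, h⟩ := S.exS k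
      exact ⟨_, Sum.LiftRel.inl h⟩
    · obtain ⟨l, h⟩ := S'.exS k
      exact ⟨_, Sum.LiftRel.inr h⟩
  have f_exB : ∀ k, ∃ l, RB k l := by
    rintro (k | k)
    · obtain ⟨l, h⟩ := S.exB k
      exact ⟨_, Sum.LiftRel.inl h⟩
    · obtain ⟨l, h⟩ := S'.exB k
      exact ⟨_, Sum.LiftRel.inr h⟩
  have f_exBase : ∀ k, (∃ e ∈ T, k = e.2.1 ∨ k = e.2.2) ∨ (∃ l, RL k l) ∨ ∃ l, RF l k := by
    rintro (k | k)
    · rcases S.exBase k with ⟨e, he, hk⟩ | ⟨l, h⟩ | ⟨l, h⟩
      · rw [hT1] at he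
        have he' : e = (p, L1, R1) ∨ e = (y, L2, R2) ∨ e ∈ TY := by simpa using he
        rcases he' with rfl | rfl | he'
        · rcases hk with hk | hk
          · exact Or.inl ⟨n1, by simp [T], Or.inl (congrArg Sum.inl hk)⟩
          · refine Or.inr (Or.inl ⟨Sum.inr L1', Or.inr (Or.inl (Or.inl ⟨congrArg Sum.inl hk, rfl⟩))⟩)
        · rcases hk with hk | hk
          · refine Or.inr (Or.inl ⟨Sum.inr R2', Or.inr (Or.inr (Or.inr ⟨rfl, congrArg Sum.inl hk⟩))⟩)
          · exact Or.inl ⟨n2, by simp [T], Or.inr (congrArg Sum.inl hk)⟩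
        · refine Or.inl ⟨G1 e, ?_, ?_⟩
          · have : G1 e ∈ TY.map G1 := List.mem_map_of_mem he'
            simp only [T, List.mem_cons, List.mem_append]
            exact Or.inr (Or.inr (Or.inr this))
          · rcases hk with hk | hk
            · exact Or.inl (congrArg Sum.inl hk)
            · exact Or.inr (congrArg Sum.inl hk)
      · exact Or.inr (Or.inl ⟨_, Or.inl (Sum.LiftRel.inl h)⟩)
      · exact Or.inr (Or.inr ⟨_, Sum.LiftRel.inl h⟩)
    · rcases S'.exBase k with ⟨e, he, hk⟩ | ⟨l, h⟩ | ⟨l, h⟩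
      · rw [hl] at he
        have he' : e = (p, L1', R1') ∨ e ∈ TX ∨ e = (y, L2', R2') := by simpa using he
        rcases he' with rfl | he' | rfl
        · rcases hk with hk | hk
          · refine Or.inr (Or.inl ⟨Sum.inl R1, Or.inr (Or.inr (Or.inl ⟨rfl, congrArg Sum.inr hk⟩))⟩)
          · exact Or.inl ⟨n1, by simp [T], Or.inr (congrArg Sum.inr hk)⟩
        · refine Or.inl ⟨G2 e, ?_, ?_⟩
          · have : G2 e ∈ TX.map G2 := List.mem_map_of_mem he'
            simp only [T, List.mem_cons, List.mem_append]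
            exact Or.inr (Or.inl this)
          · rcases hk with hk | hk
            · exact Or.inl (congrArg Sum.inr hk)
            · exact Or.inr (congrArg Sum.inr hk)
        · rcases hk with hk | hk
          · exact Or.inl ⟨n2, by simp [T], Or.inl (congrArg Sum.inr hk)⟩
          · refine Or.inr (Or.inl ⟨Sum.inl L2, Or.inr (Or.inl (Or.inr ⟨congrArg Sum.inr hk, rfl⟩))⟩)
      · exact Or.inr (Or.inl ⟨_, Or.inl (Sum.LiftRel.inr h)⟩)
      · exact Or.inr (Or.inr ⟨_, Sum.LiftRel.inr h⟩)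
  have f_exTop : ∀ k, (PC k).ρ1 = 0 ∨ ∃ l, RF k l := by
    rintro (k | k)
    · rcases S.exTop k with h | ⟨l, h⟩
      · exact Or.inl h
      · exact Or.inr ⟨_, Sum.LiftRel.inl h⟩
    · rcases S'.exTop k with h | ⟨l, h⟩
      · exact Or.inl h
      · exact Or.inr ⟨_, Sum.LiftRel.inr h⟩
  have lam_gen : ∀ (A : S.ι → S.ι → Prop) (A' : S'.ι → S'.ι → Prop),
      (∀ k l k' l', A k l → A k' l' → S.z k < S.z k' → S.z k' < S.z l → S.z l < S.z l' → False) →
      (∀ k l k' l', A' k l → A' k' l' → S'.z k < S'.z k' → S'.z k' < S'.z l →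
        S'.z l < S'.z l' → False) →
      ∀ k l k' l', Sum.LiftRel A A' k l → Sum.LiftRel A A' k' l' → Z k < Z k' → Z k' < Z l →
        Z l < Z l' → False := by
    rintro A A' hA hA' _ _ _ _ (h | h) (h' | h') h1 h2 h3
    · exact hA _ _ _ _ h h' h1 h2 h3
    · exact encr _ _ _ h2 h3
    · exact encr _ _ _ h1 h2
    · exact hA' _ _ _ _ h h' (hgm.lt_iff_lt.mp h1) (hgm.lt_iff_lt.mp h2) (hgm.lt_iff_lt.mp h3)
  have f_lamS : ∀ k l k' l', RS k l → RS k' l' → Z k < Z k' → Z k' < Z l → Z l < Z l' → False :=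
    lam_gen S.RS S'.RS S.lamS S'.lamS
  have f_lamL : ∀ k l k' l', RL k l → RL k' l' → Z k < Z k' → Z k' < Z l → Z l < Z l' →
      False := by
    rintro k l k' l' (h | h) (h' | h') h1 h2 h3
    · exact lam_gen S.RL S'.RL S.lamL S'.lamL k l k' l' h h' h1 h2 h3
    · exact hM1adj _ _ h' l h2 h3
    · exact hM1adj _ _ h k' h1 h2
    · exact hM1adj _ _ h k' h1 h2
  have f_baseL : ∀ k l m, RL k l → Z k < Z m → Z m < Z l → (PC k).y0 ≤ (PC m).y0 := by
    rintro k l m (h | h) h1 h2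
    · rcases h with h | h
      · rcases m with m | m
        · exact S.baseL _ _ _ h h1 h2
        · exact (encL _ _ _ h h1 h2).elim
      · rcases m with m | m
        · exact (encr _ _ _ h1 h2).elim
        · exact S'.baseL _ _ _ h (hgm.lt_iff_lt.mp h1) (hgm.lt_iff_lt.mp h2)
    · exact (hM1adj _ _ h m h1 h2).elim
  have f_baseB : ∀ k l m, RB k l → Z k < Z m → Z m < Z l → (PC k).y1 ≤ (PC m).y0 := by
    rintro _ _ m (h | h) h1 h2
    · rcases m with m | m
      · exact S.baseB _ _ _ h h1 h2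
      · exact (encB _ _ _ h h1 h2).elim
    · rcases m with m | m
      · exact (encr _ _ _ h1 h2).elim
      · exact S'.baseB _ _ _ h (hgm.lt_iff_lt.mp h1) (hgm.lt_iff_lt.mp h2)
  have hflagL : ∀ k l, RL k l → ∀ q, Ent q → k ≠ q ∧ ¬ (Z k < Z q ∧ Z q < Z l) := by
    rintro k l (h | h) q hq
    · rcases h with h | h
      · rcases hq with ⟨r, rfl, ⟨e, he, hr⟩, -, -⟩ | ⟨r, rfl, -, -, -⟩
        · obtain ⟨a1, a2, a3, a4⟩ := S.flagL _ _ h e he
          rcases hr with rfl | rfl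
          · exact ⟨fun h => a1 (Sum.inl.inj h), a3⟩
          · exact ⟨fun h => a2 (Sum.inl.inj h), a4⟩
        · exact ⟨Sum.inl_ne_inr, fun h12 => encL _ _ _ h h12.1 h12.2⟩
      · rcases hq with ⟨r, rfl, -, -, -⟩ | ⟨r, rfl, ⟨e, he, hr⟩, -, -⟩
        · exact ⟨Sum.inr_ne_inl, fun h12 => encr _ _ _ h12.1 h12.2⟩
        · obtain ⟨a1, a2, a3, a4⟩ := S'.flagL _ _ h e he
          rcases hr with rfl | rfl
          · exact ⟨fun h => a1 (Sum.inr.inj h),
              fun h12 => a3 ⟨hgm.lt_iff_lt.mp h12.1, hgm.lt_iff_lt.mp h12.2⟩⟩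
          · exact ⟨fun h => a2 (Sum.inr.inj h),
              fun h12 => a4 ⟨hgm.lt_iff_lt.mp h12.1, hgm.lt_iff_lt.mp h12.2⟩⟩
    · refine ⟨?_, fun h12 => hM1adj _ _ h q h12.1 h12.2⟩
      have hk : k = Sum.inl R1 ∨ k = Sum.inl L2 ∨ k = Sum.inr L1' ∨ k = Sum.inr R2' := by
        rcases h with (h | h) | (h | h)
        · exact Or.inl h.1
        · exact Or.inr (Or.inr (Or.inr h.1))
        · exact Or.inr (Or.inr (Or.inl h.2))
        · exact Or.inr (Or.inl h.2)
      rintro rfl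
      rcases hq with ⟨r, hr, -, h1, h2⟩ | ⟨r, hr, -, h1, h2⟩
      · rcases hk with hk | hk | hk | hk
        · exact h1 (Sum.inl.inj (hr.symm.trans hk))
        · exact h2 (Sum.inl.inj (hr.symm.trans hk))
        · exact Sum.inl_ne_inr (hr.symm.trans hk)
        · exact Sum.inl_ne_inr (hr.symm.trans hk)
      · rcases hk with hk | hk | hk | hk
        · exact Sum.inr_ne_inl (hr.symm.trans hk)
        · exact Sum.inr_ne_inl (hr.symm.trans hk)
        · exact h1 (Sum.inr.inj (hr.symm.trans hk))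
        · exact h2 (Sum.inr.inj (hr.symm.trans hk))
  have f_flagL : ∀ k l, RL k l → ∀ e ∈ T, k ≠ e.2.1 ∧ k ≠ e.2.2 ∧
      ¬ (Z k < Z e.2.1 ∧ Z e.2.1 < Z l) ∧ ¬ (Z k < Z e.2.2 ∧ Z e.2.2 < Z l) := by
    intro k l h e he
    obtain ⟨h1, h2⟩ := hEnt e he
    exact ⟨(hflagL k l h _ h1).1, (hflagL k l h _ h2).1, (hflagL k l h _ h1).2,
      (hflagL k l h _ h2).2⟩
  have hflagB : ∀ k l, RB k l → ∀ q, Ent q → ¬ (Z k < Z q ∧ Z q < Z l) := by
    rintro _ _ (h | h) q hq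
    · rcases hq with ⟨r, rfl, ⟨e, he, hr⟩, -, -⟩ | ⟨r, rfl, -, -, -⟩
      · obtain ⟨a3, a4⟩ := S.flagB _ _ h e he
        rcases hr with rfl | rfl
        · exact a3
        · exact a4
      · exact fun h12 => encB _ _ _ h h12.1 h12.2
    · rcases hq with ⟨r, rfl, -, -, -⟩ | ⟨r, rfl, ⟨e, he, hr⟩, -, -⟩
      · exact fun h12 => encr _ _ _ h12.1 h12.2
      · obtain ⟨a3, a4⟩ := S'.flagB _ _ h e he
        rcases hr with rfl | rfl
        · exact fun h12 => a3 ⟨hgm.lt_iff_lt.mp h12.1, hgm.lt_iff_lt.mp h12.2⟩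
        · exact fun h12 => a4 ⟨hgm.lt_iff_lt.mp h12.1, hgm.lt_iff_lt.mp h12.2⟩
  have f_flagB : ∀ k l, RB k l → ∀ e ∈ T, ¬ (Z k < Z e.2.1 ∧ Z e.2.1 < Z l) ∧
      ¬ (Z k < Z e.2.2 ∧ Z e.2.2 < Z l) := by
    intro k l h e he
    obtain ⟨h1, h2⟩ := hEnt e he
    exact ⟨hflagB k l h _ h1, hflagB k l h _ h2⟩
  have f_adjF : ∀ k l m, RF k l → ¬ (Z k < Z m ∧ Z m < Z l) ∧ ¬ (Z l < Z m ∧ Z m < Z k) := by
    rintro _ _ m (h | h)
    · rcases m with m | m
      · exact S.adjF _ _ _ h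
      · exact encF _ _ _ h
    · rcases m with m | m
      · exact ⟨fun h12 => encr _ _ _ h12.1 h12.2, fun h12 => encr _ _ _ h12.1 h12.2⟩
      · obtain ⟨a1, a2⟩ := S'.adjF _ _ m h
        exact ⟨fun h12 => a1 ⟨hgm.lt_iff_lt.mp h12.1, hgm.lt_iff_lt.mp h12.2⟩,
          fun h12 => a2 ⟨hgm.lt_iff_lt.mp h12.1, hgm.lt_iff_lt.mp h12.2⟩⟩
  have hseg : ∀ x, x ∈ segment ℝ p.1 y.1 → x ∈ curve (S.pc R1).bd ∨ x ∈ curve (S.pc L2).bd := by
    intro x hx
    rw [segment_eq_image'] at hx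
    obtain ⟨θ, ⟨h0, h1⟩, rfl⟩ := hx
    show p.1 + θ • (y.1 - p.1) ∈ _ ∨ p.1 + θ • (y.1 - p.1) ∈ _
    rw [hab, Complex.real_smul]
    rcases le_or_gt (θ * (p.2 + y.2)) p.2 with h | h
    · left
      refine ⟨((S.pc R1).e0, (S.pc R1).s0), ?_, ?_⟩
      · unfold Pc.bd
        rw [as1]
        simp [cyc]
      · dsimp only
        rw [c3, c1, segment_eq_image']
        refine ⟨θ * (p.2 + y.2) / p.2, ⟨by positivity, ?_⟩, ?_⟩
        · rw [div_le_one hpp]; exact h
        · show p.1 + (θ * (p.2 + y.2) / p.2 : ℝ) • (p.1 + p.2 * τ - p.1) = _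
          rw [Complex.real_smul]
          have : (p.2 : ℂ) ≠ 0 := by exact_mod_cast hpp.ne'
          push_cast
          field_simp
          ring
    · right
      refine ⟨((S.pc L2).s0, (S.pc L2).e0), ?_, ?_⟩
      · unfold Pc.bd
        rw [as2]
        simp [cyc]
      · dsimp only
        rw [c4, c2, segment_eq_image']
        refine ⟨(θ * (p.2 + y.2) - p.2) / y.2, ⟨div_nonneg (by linarith) hyp.le, ?_⟩, ?_⟩
        · rw [div_le_one hyp]; nlinarith
        · show (p.1 + p.2 * τ) + ((θ * (p.2 + y.2) - p.2) / y.2 : ℝ) • (y.1 - (p.1 + p.2 * τ)) = _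
          have hy1 : y.1 - (p.1 + p.2 * τ) = y.2 * τ := by
            push_cast at hab
            linear_combination hab
          rw [hy1, Complex.real_smul]
          have : (y.2 : ℂ) ≠ 0 := by exact_mod_cast hyp.ne'
          push_cast
          field_simp
          ring
  letI := S.fin
  letI := S'.fin
  have f_wind : ∀ x, (∀ k, x ∉ curve (PC k).bd) →
      ∑ k : S.ι ⊕ S'.ι, wnd x (PC k).bd = wnd x (([p] ++ X ++ [y] ++ Y).map Prod.fst) := by
    intro x hx
    have w1 := S.wind x (fun k => hx (Sum.inl k))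
    have w2 := S'.wind x (fun k => hx (Sum.inr k))
    rw [Fintype.sum_sum_type]
    have w1' : ∑ k : S.ι, wnd x (PC (Sum.inl k)).bd = wnd x (([p, y] ++ Y).map Prod.fst) := w1
    have w2' : ∑ k : S'.ι, wnd x (PC (Sum.inr k)).bd = wnd x (([p] ++ X ++ [y]).map Prod.fst) := w2
    rw [w1', w2']
    have hns : x ∉ segment ℝ p.1 y.1 := by
      intro h
      rcases hseg x h with h | h
      · exact hx (Sum.inl R1) h
      · exact hx (Sum.inl L2) h
    have hang := g1ang hns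
    have e1 : ([p, y] ++ Y).map Prod.fst = p.1 :: (y.1 :: Y.map Prod.fst) := by simp
    have e2 : ([p] ++ X ++ [y]).map Prod.fst = p.1 :: (X.map Prod.fst ++ y.1 :: []) := by simp
    have e3 : ([p] ++ X ++ [y] ++ Y).map Prod.fst =
        p.1 :: (X.map Prod.fst ++ y.1 :: Y.map Prod.fst) := by simp
    rw [e1, e2, e3]
    unfold wnd
    rw [g1cyc, g1cyc, g1cyc, g1cp_append, g1cp_append]
    simp only [g1cp, List.map_cons, List.map_append, List.sum_cons, List.sum_append, List.map_nil,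
      List.sum_nil]
    linarith
  exact ⟨{
    ι := S.ι ⊕ S'.ι
    fin := inferInstance
    pc := PC
    z := Z
    T := T
    RS := RS
    RB := RB
    RL := RL
    RF := RF
    hT := f_hT
    hne := by simp [T]
    z_inj := f_zinj
    ok := f_ok
    geo := f_geo
    sorted := f_sorted
    gap := f_gap
    rootL := f_rootL
    rootR := f_rootR
    symS := f_symS
    symB := f_symB
    symL := f_symL
    geoS := f_geoS
    geoB := f_geoB
    geoL := f_geoL
    geoF := f_geoF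
    exS := f_exS
    exB := f_exB
    exBase := f_exBase
    exTop := f_exTop
    lamS := f_lamS
    lamL := f_lamL
    baseL := f_baseL
    baseB := f_baseB
    flagL := f_flagL
    flagB := f_flagB
    adjF := f_adjF
    wind := f_wind }⟩

end

end Pool.Agent.Helper22.FC
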