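import Pool.Agent.Helper22.FC.Base

namespace Pool.Agent.Helper22.FC

open Complex

noncomputable section

/-! cyclic lists given by functions on `Fin n` -/

/-- cyclic successor -/
def nx {n : ℕ} (m : Fin n) : Fin n := ⟨(m.1 + 1) % n, Nat.mod_lt _ (Nat.lt_of_le_of_lt (Nat.zero_le _) m.2)⟩

theorem nx_inj {n : ℕ} : Function.Injective (nx : Fin n → Fin n) := by
  intro a b h
  have ha := a.2
  have hb := b.2
  have h' : (a.1 + 1) % n = (b.1 + 1) % n := congrArg Fin.val h
  apply Fin.ext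
  have : a.1 + 1 ≡ b.1 + 1 [MOD n] := h'
  have h2 : a.1 ≡ b.1 [MOD n] := Nat.ModEq.add_right_cancel' 1 this
  have h3 : a.1 % n = b.1 % n := h2
  rwa [Nat.mod_eq_of_lt ha, Nat.mod_eq_of_lt hb] at h3

theorem nx_bij {n : ℕ} : Function.Bijective (nx : Fin n → Fin n) :=
  Finite.injective_iff_bijective.1 nx_inj

theorem nx_surj {n : ℕ} (m : Fin n) : ∃ m', nx m' = m := nx_bij.2 m

/-- either `m+1 < n` and `nx m = m+1` or `m` is last and `nx m` is first -/
theorem nx_cases {n : ℕ} (m : Fin n) :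
    (∃ h : m.1 + 1 < n, nx m = ⟨m.1 + 1, h⟩) ∨ (m.1 + 1 = n ∧ (nx m).1 = 0) := by
  rcases Nat.lt_or_ge (m.1 + 1) n with h | h
  · left
    exact ⟨h, Fin.ext (Nat.mod_eq_of_lt h)⟩
  · right
    have h2 : m.1 + 1 = n := le_antisymm m.2 h
    refine ⟨h2, ?_⟩
    show (m.1 + 1) % n = 0
    rw [h2, Nat.mod_self]

theorem cyc_ofFn {α : Type*} {n : ℕ} (f : Fin n → α) :
    cyc (List.ofFn f) = List.ofFn (fun m => (f m, f (nx m))) := by
  apply List.ext_getElem
  · simp [cyc]
  · intro i h1 h2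
    simp [cyc, List.getElem_rotate, nx]

theorem wnd_ofFn (x : ℂ) {n : ℕ} (f : Fin n → ℂ) :
    wnd x (List.ofFn f) = ∑ m, ang x (f m) (f (nx m)) := by
  unfold wnd
  rw [cyc_ofFn, List.map_ofFn, List.sum_ofFn]
  rfl


/-! additivity of angles -/

theorem arg_add_aux {u v : ℂ} (hu : u ≠ 0) (hv : v ≠ 0) (h1 : 0 ≤ u.im) (h2 : 0 ≤ v.im)
    (h3 : 0 < (u * v).im) : arg u + arg v = arg (u * v) := by
  have a1 := arg_nonneg_iff.2 h1
  have a2 := arg_nonneg_iff.2 h2
  have b1 := arg_le_pi u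
  have b2 := arg_le_pi v
  refine ((arg_mul_eq_add_arg_iff hu hv).2 ⟨?_, ?_⟩).symm
  · linarith [Real.pi_pos]
  · by_contra hc
    push Not at hc
    have hs : 0 < Real.sin (arg u + arg v) := by
      rw [Real.sin_add, sin_arg, cos_arg hv, cos_arg hu, sin_arg]
      have hnu : 0 < ‖u‖ := norm_pos_iff.2 hu
      have hnv : 0 < ‖v‖ := norm_pos_iff.2 hv
      have : u.im / ‖u‖ * (v.re / ‖v‖) + u.re / ‖u‖ * (v.im / ‖v‖) = (u * v).im / (‖u‖ * ‖v‖) := by
        rw [mul_im]; field_simp; ring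
      rw [this]; positivity
    have hs2 : Real.sin (arg u + arg v) ≤ 0 := by
      have := Real.sin_nonneg_of_nonneg_of_le_pi (x := arg u + arg v - Real.pi) (by linarith)
        (by linarith)
      rw [Real.sin_sub_pi] at this
      linarith
    linarith

theorem arg_add_aux' {u v : ℂ} (hu : u ≠ 0) (hv : v ≠ 0) (h1 : u.im ≤ 0) (h2 : v.im ≤ 0)
    (h3 : (u * v).im < 0) (hu' : arg u ≠ Real.pi) (hv' : arg v ≠ Real.pi) :
    arg u + arg v = arg (u * v) := by
  have key := arg_add_aux (u := (starRingEnd ℂ) u) (v := (starRingEnd ℂ) v)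
    (by simpa using hu) (by simpa using hv) (by simpa using h1) (by simpa using h2)
    (by rw [← map_mul, conj_im]; linarith)
  rw [← map_mul, arg_conj, arg_conj, arg_conj, if_neg hu', if_neg hv'] at key
  have : arg (u * v) ≠ Real.pi := by
    intro h
    have := (arg_eq_pi_iff.1 h).2
    linarith
  rw [if_neg this] at key
  linarith

theorem arg_interp {w : ℂ} (hw : w ∈ slitPlane) {s : ℝ} (h0 : 0 ≤ s) (h1 : s ≤ 1)
    (hu : (((1 - s : ℝ) : ℂ) + s * w) ≠ 0) :
    arg (((1 - s : ℝ) : ℂ) + s * w) + arg (w / (((1 - s : ℝ) : ℂ) + s * w)) = arg w := by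
  set u : ℂ := ((1 - s : ℝ) : ℂ) + s * w with hudef
  have hw0 : w ≠ 0 := slitPlane_ne_zero hw
  have hv0 : w / u ≠ 0 := div_ne_zero hw0 hu
  have huim : u.im = s * w.im := by simp [hudef]
  have hure : u.re = (1 - s) + s * w.re := by simp [hudef]
  have hns : 0 < normSq u := normSq_pos.2 hu
  have hvim : (w / u).im = (1 - s) * w.im / normSq u := by
    rw [div_im, huim, hure]; field_simp; ring
  have huv : u * (w / u) = w := by field_simp
  rcases lt_trichotomy w.im 0 with h | h | h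
  · have huim' : u.im ≤ 0 := by rw [huim]; nlinarith
    have hvim' : (w / u).im ≤ 0 := by
      rw [hvim]
      apply div_nonpos_of_nonpos_of_nonneg _ hns.le
      nlinarith
    have key := arg_add_aux' hu hv0 huim' hvim' (by rw [huv]; exact h) ?_ ?_
    · rw [huv] at key; exact key
    · intro hp
      have hp' := arg_eq_pi_iff.1 hp
      rcases h0.eq_or_lt with hs | hs
      · rw [← hs] at hure; simp at hure; linarith [hp'.1]
      · rw [huim] at hp'
        have := hp'.2
        rcases mul_eq_zero.1 this with h' | h' <;> linarith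
    · intro hp
      have hp' := arg_eq_pi_iff.1 hp
      rcases h1.eq_or_lt with hs | hs
      · have : u = w := by rw [hudef, hs]; simp
        rw [this, div_self hw0] at hp'
        simp at hp'
        linarith [hp']
      · rw [hvim] at hp'
        have := hp'.2
        rw [div_eq_zero_iff] at this
        rcases this with h' | h'
        · rcases mul_eq_zero.1 h' with h' | h' <;> linarith
        · linarith
  · have hwre : 0 < w.re := by
      rcases mem_slitPlane_iff.1 hw with h' | h'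
      · exact h'
      · exact absurd h h'
    have hwr : w = (w.re : ℂ) := by
      apply Complex.ext <;> simp [h]
    have hur : u = ((1 - s + s * w.re : ℝ) : ℂ) := by
      rw [hudef, hwr]; push_cast; simp
    have hup : 0 ≤ 1 - s + s * w.re := by nlinarith
    have e1 : arg u = 0 := by rw [hur]; exact arg_ofReal_of_nonneg hup
    have e2 : arg w = 0 := by rw [hwr]; exact arg_ofReal_of_nonneg hwre.le
    have e3 : arg (w / u) = 0 := by
      rw [hwr, hur, ← ofReal_div]; exact arg_ofReal_of_nonneg (div_nonneg hwre.le hup)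
    rw [e1, e2, e3]; ring
  · have huim' : 0 ≤ u.im := by rw [huim]; positivity
    have hvim' : 0 ≤ (w / u).im := by
      rw [hvim]
      apply div_nonneg _ hns.le
      nlinarith
    have key := arg_add_aux hu hv0 huim' hvim' (by rw [huv]; exact h)
    rw [huv] at key; exact key

theorem slit_of_not_seg {x a b : ℂ} (hx : x ∉ segment ℝ a b) : (b - x) / (a - x) ∈ slitPlane := by
  have hxa : a - x ≠ 0 := by
    intro h; apply hx; rw [sub_eq_zero] at h; rw [← h]; exact left_mem_segment ℝ a b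
  by_contra hc
  rw [mem_slitPlane_iff] at hc
  push Not at hc
  set w := (b - x) / (a - x) with hw
  have hwr : w = -((-w.re : ℝ) : ℂ) := by
    apply Complex.ext <;> simp [hc.2]
  set c : ℝ := -w.re with hcdef
  have hc0 : 0 ≤ c := by rw [hcdef]; linarith [hc.1]
  have h1 : b - x = -(c : ℂ) * (a - x) := by
    rw [← hwr, hw]; field_simp
  have hc1 : (1 + c) ≠ 0 := by positivity
  apply hx
  refine ⟨c / (1 + c), 1 / (1 + c), by positivity, by positivity, by field_simp; ring, ?_⟩
  have hc1' : (1 + (c : ℂ)) ≠ 0 := by exact_mod_cast hc1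
  simp only [real_smul]
  push_cast
  field_simp
  linear_combination h1

theorem ang_swap_K4 {x a b : ℂ} (hx : x ∉ segment ℝ a b) : ang x b a = -ang x a b := by
  have h := slit_of_not_seg hx
  have h' := (mem_slitPlane_iff_arg.1 h).1
  unfold ang
  rw [← inv_div, arg_inv, if_neg h']

theorem not_mem_seg_of {x a b P : ℂ} (hP : P ∈ segment ℝ a b) (h1 : x ∉ segment ℝ a P)
    (h2 : x ∉ segment ℝ P b) : x ∉ segment ℝ a b := by
  have hxP : P - x ≠ 0 := by
    intro h; apply h1; rw [sub_eq_zero] at h; rw [← h]; exact right_mem_segment ℝ a P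
  have hxa : a - x ≠ 0 := by
    intro h; apply h1; rw [sub_eq_zero] at h; rw [← h]; exact left_mem_segment ℝ a P
  have hxb : b - x ≠ 0 := by
    intro h; apply h2; rw [sub_eq_zero] at h; rw [← h]; exact right_mem_segment ℝ P b
  intro hx
  rw [← insert_endpoints_openSegment] at hx
  rcases hx with hx | hx | hx
  · exact hxa (by rw [hx]; ring)
  · exact hxb (by rw [Set.mem_singleton_iff.1 hx]; ring)
  · have hP' : P ∈ Set.range (AffineMap.lineMap a b : ℝ → ℂ) := by
      rw [segment_eq_image_lineMap] at hP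
      obtain ⟨t, _, rfl⟩ := hP
      exact ⟨t, rfl⟩
    rcases openSegment_subset_union a b hP' hx with hx | hx | hx
    · exact hxP (by rw [hx]; ring)
    · exact h1 (openSegment_subset_segment ℝ _ _ hx)
    · exact h2 (openSegment_subset_segment ℝ _ _ hx)

theorem ang_add_K4 {x a b P : ℂ} (hP : P ∈ segment ℝ a b) (h1 : x ∉ segment ℝ a P)
    (h2 : x ∉ segment ℝ P b) : ang x a P + ang x P b = ang x a b := by
  have hxP : P - x ≠ 0 := by
    intro h; apply h1; rw [sub_eq_zero] at h; rw [← h]; exact right_mem_segment ℝ a P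
  have hxa : a - x ≠ 0 := by
    intro h; apply h1; rw [sub_eq_zero] at h; rw [← h]; exact left_mem_segment ℝ a P
  have hxb : b - x ≠ 0 := by
    intro h; apply h2; rw [sub_eq_zero] at h; rw [← h]; exact right_mem_segment ℝ P b
  have hx : x ∉ segment ℝ a b := not_mem_seg_of hP h1 h2
  obtain ⟨α, β, hα, hβ, hαβ, rfl⟩ := hP
  have hw := slit_of_not_seg hx
  have e : (α • a + β • b - x) / (a - x) = ((1 - β : ℝ) : ℂ) + β * ((b - x) / (a - x)) := by
    have : α = 1 - β := by linarith
    subst this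
    simp only [real_smul]
    push_cast
    field_simp
    ring
  have e2 : (b - x) / (α • a + β • b - x) =
      ((b - x) / (a - x)) / (((1 - β : ℝ) : ℂ) + β * ((b - x) / (a - x))) := by
    rw [← e]
    field_simp
  unfold ang
  rw [e, e2]
  apply arg_interp hw hβ (by linarith)
  rw [← e]
  exact div_ne_zero hxP hxa

/-- the new left piece at the tip `g'` in the frame of the edge from `g` to `g'` -/
def PT (H h : ℝ) (g g' : Tip) : Pc :=
  ⟨true, g.1 + g.2.1 * g.2.2.2 - H * I * g.2.2.2, g.2.2.2, H, H + h, g'.2.1,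
    g'.2.1 - h * g'.2.2.1⟩
/-- the new right piece at the tip `g` -/
def PF (H h : ℝ) (g : Tip) : Pc :=
  ⟨false, g.1 + g.2.1 * g.2.2.2 - H * I * g.2.2.2, g.2.2.2, H, H + h, g.2.1,
    g.2.1 - h * g.2.2.1⟩

/-- the touching point on the outer edge -/
def tp (g : Tip) : ℂ := g.1 + g.2.1 * g.2.2.2
/-- the touching point on the inner edge -/
def tq (h : ℝ) (g : Tip) : ℂ := g.1 + g.2.1 * g.2.2.2 + h * I * g.2.2.2

theorem PF_e0 (H h : ℝ) (g : Tip) : (PF H h g).e0 = g.1 := by
  simp only [Pc.e0, Pc.pt, PF]; simp; ring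
theorem PF_e1 (H h : ℝ) (g : Tip) : (PF H h g).e1 = (inner h g).1 := by
  simp only [Pc.e1, Pc.pt, PF, inner]; simp; ring
theorem PF_s0 (H h : ℝ) (g : Tip) : (PF H h g).s0 = tp g := by
  simp only [Pc.s0, Pc.pt, PF, tp]; simp
theorem PF_s1 (H h : ℝ) (g : Tip) : (PF H h g).s1 = tq h g := by
  simp only [Pc.s1, Pc.pt, PF, tq]; simp; ring

theorem PT_s0 (H h : ℝ) (g g' : Tip) : (PT H h g g').s0 = tp g := by
  simp only [Pc.s0, Pc.pt, PT, tp]; simp
theorem PT_s1 (H h : ℝ) (g g' : Tip) : (PT H h g g').s1 = tq h g := by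
  simp only [Pc.s1, Pc.pt, PT, tq]; simp; ring

theorem PT_e0 (H h : ℝ) {g g' : Tip} (R : RingRel g g') : (PT H h g g').e0 = g'.1 := by
  have h1 := R.2.1
  simp only [Pc.e0, Pc.pt, PT]
  push_cast at h1
  simp only [if_true]
  linear_combination -h1
theorem PT_e1 (H h : ℝ) {g g' : Tip} (R : RingRel g g') : (PT H h g g').e1 = (inner h g').1 := by
  have h1 := R.2.1
  have h2 := R.2.2.1
  simp only [Pc.e1, Pc.pt, PT, inner]
  push_cast at h1 ⊢
  linear_combination -h1 - h * h2

/-- inner touching point is also the one of the inner edge -/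
theorem tq_eq (h : ℝ) (g : Tip) :
    tq h g = (inner h g).1 + ((inner h g).2 : ℂ) * g.2.2.2 := by
  simp only [tq, inner]; push_cast; ring

theorem inner_edge {h : ℝ} {g g' : Tip} (R : RingRel g g') :
    (inner h g').1 - (inner h g).1 =
      (((inner h g).2 + (inner h g').2 : ℝ) : ℂ) * g.2.2.2 := by
  have h1 := R.2.1
  have h2 := R.2.2.1
  simp only [inner]
  push_cast at h1 ⊢
  linear_combination h1 + h * h2

theorem geo_outer (H h : ℝ) {g g' : Tip} (R : RingRel g g') :
    EdgeGeo H (outer g) (outer g') (PF H h g) (PT H h g g') := by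
  refine ⟨g.2.2.2, R.1, R.2.1, rfl, rfl, rfl, rfl, rfl, rfl, rfl, rfl, rfl, rfl, rfl⟩

theorem geo_inner {H h : ℝ} {g g' : Tip} (R : RingRel g g')
    (hr : 0 < (inner h g).2) (hr' : 0 < (inner h g').2) {p q : Pc}
    (E : EdgeGeo (H + h) (inner h g) (inner h g') p q) :
    (PF H h g).MF p ∧ (PT H h g g').MF q ∧ p.y0 = H + h ∧ q.y0 = H + h ∧
      p.e0 = (inner h g).1 ∧ q.e0 = (inner h g').1 := by
  obtain ⟨τ, hτ, hd, ps, qs, pτ, qτ, pt, qt, py, qy, pr, qr, hy⟩ := E
  have hτ' : τ = g.2.2.2 := by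
    have h1 := inner_edge (h := h) R
    rw [h1] at hd
    have h2 : (0 : ℝ) < (inner h g).2 + (inner h g').2 := add_pos hr hr'
    have h3 : (((inner h g).2 + (inner h g').2 : ℝ) : ℂ) ≠ 0 := by
      exact_mod_cast h2.ne'
    exact (mul_left_cancel₀ h3 hd).symm
  subst hτ'
  have ht : (inner h g).1 + ((inner h g).2 : ℂ) * g.2.2.2 - ((H + h : ℝ) : ℂ) * I * g.2.2.2 =
      g.1 + g.2.1 * g.2.2.2 - H * I * g.2.2.2 := by
    simp only [inner]; push_cast; ring
  refine ⟨⟨?_, ?_, ?_, ?_, ?_⟩, ⟨?_, ?_, ?_, ?_, ?_⟩, py, qy, ?_, ?_⟩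
  · rw [ps]; rfl
  · rw [pt, ht]; rfl
  · rw [pτ]; rfl
  · rw [py]; rfl
  · rw [pr]; rfl
  · rw [qs]; rfl
  · rw [qt, ht]; rfl
  · rw [qτ]; rfl
  · rw [qy]; rfl
  · rw [qr]; rfl
  · simp only [Pc.e0, Pc.pt, ps, pt, pτ, py, pr]
    simp
    ring
  · simp only [Pc.e0, Pc.pt, qs, qt, qτ, qy, qr]
    simp only [if_true]
    have h1 := inner_edge (h := h) R
    push_cast at h1 ⊢
    linear_combination -h1


/-! winding numbers of the ring -/

theorem wnd4 (x a b c d : ℂ) :
    wnd x [a, b, c, d] = ang x a b + ang x b c + ang x c d + ang x d a := by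
  simp [wnd, cyc]; ring

theorem curve4 {x a b c d : ℂ} (h : x ∉ curve [a, b, c, d]) :
    x ∉ segment ℝ a b ∧ x ∉ segment ℝ b c ∧ x ∉ segment ℝ c d ∧ x ∉ segment ℝ d a := by
  simp only [curve, cyc, Set.mem_ofPred_eq, not_exists, not_and] at h
  refine ⟨h (a, b) (by simp), h (b, c) (by simp), h (c, d) (by simp), h (d, a) (by simp)⟩

theorem tp_mem {g g' : Tip} (R : RingRel g g') (hr : 0 < g.2.1) (hr' : 0 < g'.2.1) :
    tp g ∈ segment ℝ g.1 g'.1 := by
  have h1 := R.2.1
  have hs : (0 : ℝ) < g.2.1 + g'.2.1 := add_pos hr hr'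
  have hs' : ((g.2.1 : ℂ) + g'.2.1) ≠ 0 := by exact_mod_cast hs.ne'
  refine ⟨g'.2.1 / (g.2.1 + g'.2.1), g.2.1 / (g.2.1 + g'.2.1), by positivity, by positivity,
    by field_simp; ring, ?_⟩
  simp only [real_smul, tp]
  have h2 : g'.1 = g.1 + ((g.2.1 + g'.2.1 : ℝ) : ℂ) * g.2.2.2 := by rw [← h1]; ring
  rw [h2]
  push_cast
  field_simp
  ring

theorem tq_mem {h : ℝ} {g g' : Tip} (R : RingRel g g') (hr : 0 < (inner h g).2)
    (hr' : 0 < (inner h g').2) :
    tq h g ∈ segment ℝ (inner h g').1 (inner h g).1 := by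
  have h1 := inner_edge (h := h) R
  have hs : (0 : ℝ) < (inner h g).2 + (inner h g').2 := add_pos hr hr'
  have hs' : (((inner h g).2 : ℂ) + (inner h g').2) ≠ 0 := by exact_mod_cast hs.ne'
  refine ⟨(inner h g).2 / ((inner h g).2 + (inner h g').2),
    (inner h g').2 / ((inner h g).2 + (inner h g').2), by positivity, by positivity,
    by field_simp, ?_⟩
  rw [tq_eq]
  simp only [real_smul]
  have h2 : (inner h g').1 = (inner h g).1 +
      (((inner h g).2 + (inner h g').2 : ℝ) : ℂ) * g.2.2.2 := by rw [← h1]; ring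
  rw [h2]
  push_cast
  field_simp
  ring

theorem wind_edge {H h : ℝ} {g g' : Tip} (R : RingRel g g') (hr : 0 < g.2.1) (hr' : 0 < g'.2.1)
    (hi : 0 < (inner h g).2) (hi' : 0 < (inner h g').2) {x : ℂ}
    (hF : x ∉ curve (PF H h g).bd) (hT : x ∉ curve (PT H h g g').bd) :
    wnd x (PF H h g).bd + wnd x (PT H h g g').bd =
      ang x g.1 g'.1 - ang x (inner h g).1 (inner h g').1
        - ang x g.1 (inner h g).1 + ang x g'.1 (inner h g').1 := by
  have e1 : (PF H h g).bd = [g.1, tp g, tq h g, (inner h g).1] := by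
    have : (PF H h g).bd = [(PF H h g).e0, (PF H h g).s0, (PF H h g).s1, (PF H h g).e1] := rfl
    rw [this, PF_e0, PF_e1, PF_s0, PF_s1]
  have e2 : (PT H h g g').bd = [tp g, g'.1, (inner h g').1, tq h g] := by
    have : (PT H h g g').bd = [(PT H h g g').s0, (PT H h g g').e0, (PT H h g g').e1,
      (PT H h g g').s1] := rfl
    rw [this, PT_e0 H h R, PT_e1 H h R, PT_s0, PT_s1]
  rw [e1] at hF ⊢
  rw [e2] at hT ⊢
  rw [wnd4, wnd4]
  obtain ⟨f1, f2, f3, f4⟩ := curve4 hF
  obtain ⟨t1, t2, t3, t4⟩ := curve4 hT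
  have a1 := ang_add_K4 (tp_mem R hr hr') f1 t1
  have a2 := ang_add_K4 (tq_mem R hi hi') t3 f3
  have a3 : x ∉ segment ℝ (inner h g').1 (inner h g).1 := not_mem_seg_of (tq_mem R hi hi') t3 f3
  have a4 := ang_swap_K4 a3
  have a5 := ang_swap_K4 f2
  have a6 := ang_swap_K4 f4
  linarith

theorem wind_ring {H h : ℝ} {n : ℕ} (g : Fin n → Tip) (R : ∀ m, RingRel (g m) (g (nx m)))
    (hi : ∀ m, 0 < (inner h (g m)).2) {x : ℂ}
    (hF : ∀ m, x ∉ curve (PF H h (g m)).bd) (hT : ∀ m, x ∉ curve (PT H h (g m) (g (nx m))).bd) :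
    (∑ m, wnd x (PF H h (g m)).bd) + ∑ m, wnd x (PT H h (g m) (g (nx m))).bd =
      wnd x (List.ofFn fun m => (g m).1) - wnd x (List.ofFn fun m => (inner h (g m)).1) := by
  rw [wnd_ofFn, wnd_ofFn, ← Finset.sum_add_distrib]
  have key : ∀ m, wnd x (PF H h (g m)).bd + wnd x (PT H h (g m) (g (nx m))).bd =
      ang x (g m).1 (g (nx m)).1 - ang x (inner h (g m)).1 (inner h (g (nx m))).1
        - ang x (g m).1 (inner h (g m)).1 + ang x (g (nx m)).1 (inner h (g (nx m))).1 :=
    fun m => wind_edge (R m) (R m).2.2.2 (R (nx m)).2.2.2 (hi _) (hi _) (hF m) (hT m)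
  rw [Finset.sum_congr rfl fun m _ => key m]
  rw [Finset.sum_add_distrib, Finset.sum_sub_distrib, Finset.sum_sub_distrib]
  have e : ∑ m, ang x (g (nx m)).1 (inner h (g (nx m))).1 = ∑ m, ang x (g m).1 (inner h (g m)).1 :=
    Equiv.sum_comp (Equiv.ofBijective nx nx_bij) fun m => ang x (g m).1 (inner h (g m)).1
  rw [e]
  ring

/-! separating the positions -/

theorem exists_sep {ι : Type} [Finite ι] (z : ι → ℝ) :
    ∃ δ > 0, ∀ k l, z k < z l → z k + 2 * δ < z l := by
  have h1 : ∀ k l, ∀ᶠ δ in nhdsWithin (0 : ℝ) (Set.Ioi 0), z k < z l → z k + 2 * δ < z l := by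
    intro k l
    by_cases h : z k < z l
    · have : Filter.Tendsto (fun δ : ℝ => z k + 2 * δ) (nhdsWithin (0 : ℝ) (Set.Ioi 0))
          (nhds (z k + 2 * 0)) :=
        (Continuous.tendsto (by fun_prop) 0).mono_left nhdsWithin_le_nhds
      have h2 := this.eventually_lt_const (u := z l) (by simpa using h)
      filter_upwards [h2] with δ hδ _ using hδ
    · exact Filter.Eventually.of_forall fun δ h' => absurd h' h
  have h2 : ∀ᶠ δ in nhdsWithin (0 : ℝ) (Set.Ioi 0), ∀ k l, z k < z l → z k + 2 * δ < z l := by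
    rw [Filter.eventually_all]
    intro k
    rw [Filter.eventually_all]
    exact h1 k
  obtain ⟨δ, h3, h4⟩ := (h2.and self_mem_nhdsWithin).exists
  exact ⟨δ, h4, h3⟩

/-- new positions -/
def zz {ι : Type} {n : ℕ} (z : ι → ℝ) (δ : ℝ) (l r : Fin n → ι) : ι ⊕ (Fin n × Bool) → ℝ
  | .inl k => z k
  | .inr (m, true) => z (l m) - δ
  | .inr (m, false) => z (r m) + δ

section order

variable {ι : Type} {n : ℕ} {z : ι → ℝ} {δ : ℝ} {l r : Fin n → ι}

theorem c_kl (hδ : 0 < δ) (hs : ∀ k l, z k < z l → z k + 2 * δ < z l) (k : ι) (m : Fin n) :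
    zz z δ l r (.inl k) < zz z δ l r (.inr (m, true)) ↔ z k < z (l m) := by
  simp only [zz]
  constructor
  · intro h; linarith
  · intro h; have := hs _ _ h; linarith

theorem c_lk (hδ : 0 < δ) (hs : ∀ k l, z k < z l → z k + 2 * δ < z l) (k : ι) (m : Fin n) :
    zz z δ l r (.inr (m, true)) < zz z δ l r (.inl k) ↔ z (l m) ≤ z k := by
  simp only [zz]
  constructor
  · intro h
    by_contra hc
    have := hs _ _ (not_le.1 hc); linarith
  · intro h; linarith

theorem c_kr (hδ : 0 < δ) (hs : ∀ k l, z k < z l → z k + 2 * δ < z l) (k : ι) (m : Fin n) :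
    zz z δ l r (.inl k) < zz z δ l r (.inr (m, false)) ↔ z k ≤ z (r m) := by
  simp only [zz]
  constructor
  · intro h
    by_contra hc
    have := hs _ _ (not_le.1 hc); linarith
  · intro h; linarith

theorem c_rk (hδ : 0 < δ) (hs : ∀ k l, z k < z l → z k + 2 * δ < z l) (k : ι) (m : Fin n) :
    zz z δ l r (.inr (m, false)) < zz z δ l r (.inl k) ↔ z (r m) < z k := by
  simp only [zz]
  constructor
  · intro h; linarith
  · intro h; have := hs _ _ h; linarith

theorem c_kk (k k' : ι) :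
    zz z δ l r (.inl k) < zz z δ l r (.inl k') ↔ z k < z k' := Iff.rfl

theorem c_ll (m m' : Fin n) :
    zz z δ l r (.inr (m, true)) < zz z δ l r (.inr (m', true)) ↔ z (l m) < z (l m') := by
  simp only [zz]
  constructor <;> intro h <;> linarith

theorem c_rr (m m' : Fin n) :
    zz z δ l r (.inr (m, false)) < zz z δ l r (.inr (m', false)) ↔ z (r m) < z (r m') := by
  simp only [zz]
  constructor <;> intro h <;> linarith

theorem c_lr (hδ : 0 < δ) (hs : ∀ k l, z k < z l → z k + 2 * δ < z l) (m m' : Fin n) :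
    zz z δ l r (.inr (m, true)) < zz z δ l r (.inr (m', false)) ↔ z (l m) ≤ z (r m') := by
  simp only [zz]
  constructor
  · intro h
    by_contra hc
    have := hs _ _ (not_le.1 hc); linarith
  · intro h; linarith

theorem c_rl (hδ : 0 < δ) (hs : ∀ k l, z k < z l → z k + 2 * δ < z l) (m m' : Fin n) :
    zz z δ l r (.inr (m, false)) < zz z δ l r (.inr (m', true)) ↔ z (r m) < z (l m') := by
  simp only [zz]
  constructor
  · intro h; linarith
  · intro h; have := hs _ _ h; linarith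

theorem zz_inj (hδ : 0 < δ) (hs : ∀ k l, z k < z l → z k + 2 * δ < z l)
    (hz : Function.Injective z) (hl : Function.Injective l) (hr : Function.Injective r) :
    Function.Injective (zz z δ l r) := by
  have far : ∀ k l, z k = z l ∨ z k + 2 * δ < z l ∨ z l + 2 * δ < z k := by
    intro k l
    rcases lt_trichotomy (z k) (z l) with h | h | h
    · right; left; exact hs _ _ h
    · left; exact h
    · right; right; exact hs _ _ h
  rintro (k | ⟨m, b⟩) (k' | ⟨m', b'⟩) h
  · exact congrArg _ (hz h)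
  · exfalso
    cases b' <;> simp only [zz] at h
    · rcases far k (r m') with h' | h' | h' <;> linarith
    · rcases far k (l m') with h' | h' | h' <;> linarith
  · exfalso
    cases b <;> simp only [zz] at h
    · rcases far k' (r m) with h' | h' | h' <;> linarith
    · rcases far k' (l m) with h' | h' | h' <;> linarith
  · cases b <;> cases b' <;> simp only [zz] at h
    · have : r m = r m' := hz (by linarith)
      rw [hr this]
    · exfalso
      rcases far (r m) (l m') with h' | h' | h' <;> linarith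
    · exfalso
      rcases far (r m') (l m) with h' | h' | h' <;> linarith
    · have : l m = l m' := hz (by linarith)
      rw [hl this]

end order

/-! the new stack -/

/-- new pieces -/
def ppc {ι : Type} {n : ℕ} (pc : ι → Pc) (H h : ℝ) (g : Fin n → Tip) (pv : Fin n → Fin n) :
    ι ⊕ (Fin n × Bool) → Pc
  | .inl k => pc k
  | .inr (m, true) => PT H h (g (pv m)) (g m)
  | .inr (m, false) => PF H h (g m)

def rS {ι : Type} {n : ℕ} (R : ι → ι → Prop) : ι ⊕ (Fin n × Bool) → ι ⊕ (Fin n × Bool) → Prop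
  | .inl k, .inl k' => R k k'
  | .inr (m, false), .inr (m', true) => m' = nx m
  | .inr (m', true), .inr (m, false) => m' = nx m
  | _, _ => False

def rB {ι : Type} {n : ℕ} (R : ι → ι → Prop) : ι ⊕ (Fin n × Bool) → ι ⊕ (Fin n × Bool) → Prop
  | .inl k, .inl k' => R k k'
  | .inr (m, false), .inr (m', true) => m' = m
  | .inr (m', true), .inr (m, false) => m' = m
  | _, _ => False

def rL {ι : Type} {n : ℕ} (R : ι → ι → Prop) : ι ⊕ (Fin n × Bool) → ι ⊕ (Fin n × Bool) → Prop
  | .inl k, .inl k' => R k k'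
  | _, _ => False

def rF {ι : Type} {n : ℕ} (R : ι → ι → Prop) (l r : Fin n → ι) :
    ι ⊕ (Fin n × Bool) → ι ⊕ (Fin n × Bool) → Prop
  | .inl k, .inl k' => R k k'
  | .inr (m, true), .inl k => k = l m
  | .inr (m, false), .inl k => k = r m
  | _, _ => False

theorem Stack.ring {H h : ℝ} (hh : 0 < h) (G : List Tip) (hG : ∀ e ∈ cyc G, RingRel e.1 e.2)
    (hr : ∀ g ∈ G, 0 < g.2.1 - h * g.2.2.1) (S : Stack (H + h) (G.map (inner h))) :
    ∃ S' : Stack H (G.map outer),
      (∀ k, (∀ e ∈ S'.T, k ≠ e.2.1 ∧ k ≠ e.2.2) → H < (S'.pc k).y0) ∧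
      ∀ e ∈ S'.T, S'.RB e.2.1 e.2.2 := by
  classical
  obtain ⟨n, g, rfl⟩ : ∃ n, ∃ g : Fin n → Tip, G = List.ofFn g :=
    ⟨G.length, G.get, (List.ofFn_get G).symm⟩
  obtain ⟨t, ht⟩ : ∃ t : Fin n → ((ℂ × ℝ) × S.ι × S.ι), S.T = List.ofFn t := by
    have hlen : S.T.length = n := by
      have := congrArg List.length S.hT
      simpa using this
    refine ⟨fun m => S.T.get (m.cast hlen.symm), ?_⟩
    apply List.ext_getElem
    · simp [hlen]
    · intro i h1 h2
      simp
  have hn : 0 < n := by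
    rcases Nat.eq_zero_or_pos n with h0 | h0
    · exfalso
      subst h0
      exact S.hne (by rw [ht]; simp)
    · exact h0
  have hT : ∀ m, (t m).1 = inner h (g m) := by
    have h1 := S.hT
    rw [ht, List.map_ofFn] at h1
    have h2 : List.map (inner h) (List.ofFn g) = List.ofFn (inner h ∘ g) := List.map_ofFn
    intro m
    exact congrFun (List.ofFn_injective (h1.trans h2)) m
  have hR : ∀ m, RingRel (g m) (g (nx m)) := by
    intro m
    apply hG (g m, g (nx m))
    rw [cyc_ofFn, List.mem_ofFn]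
    exact ⟨m, rfl⟩
  have hi : ∀ m, 0 < (inner h (g m)).2 := by
    intro m
    apply hr (g m)
    rw [List.mem_ofFn]
    exact ⟨m, rfl⟩
  have hr0 : ∀ m, 0 < (g m).2.1 := fun m => (hR m).2.2.2
  set l : Fin n → S.ι := fun m => (t m).2.1 with hldef
  set r : Fin n → S.ι := fun m => (t m).2.2 with hrdef
  have hgeo : ∀ m, EdgeGeo (H + h) (inner h (g m)) (inner h (g (nx m))) (S.pc (r m))
      (S.pc (l (nx m))) ∧ S.RS (r m) (l (nx m)) := by
    intro m
    have := S.geo (t m, t (nx m)) (by rw [ht, cyc_ofFn, List.mem_ofFn]; exact ⟨m, rfl⟩)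
    rw [hT, hT] at this
    exact this
  have hgi := fun m => geo_inner (hR m) (hi m) (hi (nx m)) (hgeo m).1
  obtain ⟨pv, hpv⟩ : ∃ pv : Fin n → Fin n, ∀ m, nx (pv m) = m :=
    ⟨fun m => (nx_surj m).choose, fun m => (nx_surj m).choose_spec⟩
  have hpv' : ∀ m, pv (nx m) = m := fun m => nx_inj (hpv _)
  -- order of the flags
  have hsort := S.sorted
  rw [ht, List.pairwise_flatMap] at hsort
  have hlr : ∀ m, S.z (l m) < S.z (r m) := by
    intro m
    have := hsort.1 (t m) (by rw [List.mem_ofFn]; exact ⟨m, rfl⟩)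
    simp at this
    exact this
  have hrl : ∀ m m', m < m' → S.z (r m) < S.z (l m') := by
    intro m m' hm
    have := (List.pairwise_ofFn.1 hsort.2) hm
    exact this (r m) (by simp [hrdef]) (l m') (by simp [hldef])
  have hll : ∀ m m', m < m' → S.z (l m) < S.z (l m') := fun m m' hm =>
    (hlr m).trans (hrl m m' hm)
  have hrr : ∀ m m', m < m' → S.z (r m) < S.z (r m') := fun m m' hm =>
    (hrl m m' hm).trans (hlr m')
  have hlinj : Function.Injective l := by
    intro m m' he
    rcases lt_trichotomy m m' with h1 | h1 | h1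
    · have := hll _ _ h1; rw [he] at this; exact absurd this (lt_irrefl _)
    · exact h1
    · have := hll _ _ h1; rw [he] at this; exact absurd this (lt_irrefl _)
  have hrinj : Function.Injective r := by
    intro m m' he
    rcases lt_trichotomy m m' with h1 | h1 | h1
    · have := hrr _ _ h1; rw [he] at this; exact absurd this (lt_irrefl _)
    · exact h1
    · have := hrr _ _ h1; rw [he] at this; exact absurd this (lt_irrefl _)
  have hgap : ∀ i (hi : i + 1 < n), ∀ k, ¬ (S.z (r ⟨i, by omega⟩) < S.z k ∧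
      S.z k < S.z (l ⟨i + 1, hi⟩)) := by
    have := S.gap
    rw [ht, List.isChain_ofFn] at this
    exact this
  have hrootL : ∀ m : Fin n, m.1 = 0 → ∀ k, S.z (l m) ≤ S.z k := by
    intro m hm k
    apply S.rootL (t m) _ k
    rw [ht]
    have : m = ⟨0, hn⟩ := Fin.ext hm
    subst this
    simp [List.head?_eq_getElem?, hn]
  have hrootR : ∀ m : Fin n, m.1 + 1 = n → ∀ k, S.z k ≤ S.z (r m) := by
    intro m hm k
    apply S.rootR (t m) _ k
    rw [ht]
    have : m = ⟨n - 1, by omega⟩ := Fin.ext (by simp; omega)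
    rw [show t m = t ⟨n - 1, by omega⟩ from congrArg t this]
    simp [List.getLast?_eq_getElem?, hn]
  have hE : ∀ m, (S.z (r m) < S.z (l (nx m)) ∧
      ∀ k, ¬ (S.z (r m) < S.z k ∧ S.z k < S.z (l (nx m)))) ∨
      ((∀ k, S.z (l (nx m)) ≤ S.z k) ∧ ∀ k, S.z k ≤ S.z (r m)) := by
    intro m
    rcases nx_cases m with ⟨h1, h2⟩ | ⟨h1, h2⟩
    · left
      rw [h2]
      refine ⟨hrl _ _ (by rw [Fin.lt_def]; simp), hgap m.1 h1⟩
    · right
      exact ⟨hrootL _ h2, hrootR _ h1⟩
  -- flags and the old relations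
  have hfB : ∀ k k', S.RB k k' → ∀ m, ¬ (S.z k < S.z (l m) ∧ S.z (l m) < S.z k') ∧
      ¬ (S.z k < S.z (r m) ∧ S.z (r m) < S.z k') := by
    intro k k' hk m
    exact S.flagB k k' hk (t m) (by rw [ht, List.mem_ofFn]; exact ⟨m, rfl⟩)
  have hfL : ∀ k k', S.RL k k' → ∀ m, k ≠ l m ∧ k ≠ r m ∧
      ¬ (S.z k < S.z (l m) ∧ S.z (l m) < S.z k') ∧
      ¬ (S.z k < S.z (r m) ∧ S.z (r m) < S.z k') := by
    intro k k' hk m
    exact S.flagL k k' hk (t m) (by rw [ht, List.mem_ofFn]; exact ⟨m, rfl⟩)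
  have hyl : ∀ m, (S.pc (l m)).y0 = H + h := by
    intro m
    have := (hgi (pv m)).2.2.2.1
    rwa [hpv] at this
  have hyr : ∀ m, (S.pc (r m)).y0 = H + h := fun m => (hgi m).2.2.1
  have hnoB : ∀ m, ¬ S.RB (r m) (l (nx m)) := by
    intro m hB
    have h1 := (S.geoB _ _ hB).2.2.2.2.2.1
    rw [(hgi m).2.2.2.2.1, (hgi m).2.2.2.2.2] at h1
    have h2 := inner_edge (h := h) (hR m)
    rw [h1, sub_self] at h2
    have h3 : (0 : ℝ) < (inner h (g m)).2 + (inner h (g (nx m))).2 := add_pos (hi _) (hi _)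
    have h4 : (((inner h (g m)).2 + (inner h (g (nx m))).2 : ℝ) : ℂ) ≠ 0 := by
      exact_mod_cast h3.ne'
    rcases mul_eq_zero.1 h2.symm with h5 | h5
    · exact h4 h5
    · have := (hR m).1
      rw [h5] at this
      simp at this
  have KB : ∀ k k', S.RB k k' → ∀ m, ¬ (S.z k < S.z (l m) ∧ S.z (l m) ≤ S.z k') ∧
      ¬ (S.z k ≤ S.z (r m) ∧ S.z (r m) < S.z k') := by
    intro k k' hk m
    constructor
    · rintro ⟨h1, h2⟩
      rcases h2.lt_or_eq with h2 | h2
      · exact (hfB k k' hk m).1 ⟨h1, h2⟩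
      · have h3 := S.z_inj h2
        have h4 := hE (pv m)
        rw [hpv] at h4
        rcases h4 with ⟨h4, h5⟩ | ⟨h4, h5⟩
        · rcases lt_trichotomy (S.z k) (S.z (r (pv m))) with h6 | h6 | h6
          · exact (hfB k k' hk (pv m)).2 ⟨h6, by rw [← h3]; exact h4⟩
          · have h7 := S.z_inj h6
            have h8 := hnoB (pv m)
            rw [hpv] at h8
            apply h8
            rw [← h7, h3]
            exact hk
          · exact h5 k ⟨h6, h1⟩
        · exact absurd (h4 k) (not_le.2 h1)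
    · rintro ⟨h1, h2⟩
      rcases h1.lt_or_eq with h1 | h1
      · exact (hfB k k' hk m).2 ⟨h1, h2⟩
      · have h3 := S.z_inj h1
        rcases hE m with ⟨h4, h5⟩ | ⟨h4, h5⟩
        · rcases lt_trichotomy (S.z (l (nx m))) (S.z k') with h6 | h6 | h6
          · exact (hfB k k' hk (nx m)).1 ⟨by rw [h3]; exact h4, h6⟩
          · have h7 := S.z_inj h6
            apply hnoB m
            rw [h7, ← h3]
            exact hk
          · exact h5 k' ⟨h2, h6⟩
        · exact absurd (h5 k') (not_le.2 h2)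
  have hFl : ∀ k k', S.RF k k' → ∀ m, k' ≠ l m ∧ k' ≠ r m := by
    intro k k' hk m
    have h1 := (S.geoF k k' hk).2.2.2.1
    have h2 := (S.ok k).1.2.1
    have h3 := (S.ok k).2
    constructor
    · intro h4
      rw [h4, hyl] at h1
      linarith
    · intro h4
      rw [h4, hyr] at h1
      linarith
  have KF : ∀ k k', S.RF k k' → ∀ m, ¬ (S.z k < S.z (l m) ∧ S.z (l m) ≤ S.z k') ∧
      ¬ (S.z k ≤ S.z (r m) ∧ S.z (r m) < S.z k') ∧
      ¬ (S.z k' < S.z (l m) ∧ S.z (l m) ≤ S.z k) ∧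
      ¬ (S.z k' ≤ S.z (r m) ∧ S.z (r m) < S.z k) := by
    intro k k' hk m
    have hadj := S.adjF k k'
    refine ⟨?_, ?_, ?_, ?_⟩
    · rintro ⟨h1, h2⟩
      rcases h2.lt_or_eq with h2 | h2
      · exact (hadj _ hk).1 ⟨h1, h2⟩
      · exact (hFl k k' hk m).1 (S.z_inj h2).symm
    · rintro ⟨h1, h2⟩
      rcases h1.lt_or_eq with h1 | h1
      · exact (hadj _ hk).1 ⟨h1, h2⟩
      · have h3 := S.z_inj h1
        rcases hE m with ⟨h4, h5⟩ | ⟨h4, h5⟩
        · rcases lt_trichotomy (S.z (l (nx m))) (S.z k') with h6 | h6 | h6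
          · exact (hadj (l (nx m)) hk).1 ⟨by rw [h3]; exact h4, h6⟩
          · exact (hFl k k' hk (nx m)).1 (S.z_inj h6).symm
          · exact h5 k' ⟨h2, h6⟩
        · exact absurd (h5 k') (not_le.2 h2)
    · rintro ⟨h1, h2⟩
      rcases h2.lt_or_eq with h2 | h2
      · exact (hadj _ hk).2 ⟨h1, h2⟩
      · have h3 := S.z_inj h2
        have h4 := hE (pv m)
        rw [hpv] at h4
        rcases h4 with ⟨h4, h5⟩ | ⟨h4, h5⟩
        · rcases lt_trichotomy (S.z k') (S.z (r (pv m))) with h6 | h6 | h6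
          · exact (hadj (r (pv m)) hk).2 ⟨h6, by rw [← h3]; exact h4⟩
          · exact (hFl k k' hk (pv m)).2 (S.z_inj h6)
          · exact h5 k' ⟨h6, h1⟩
        · exact absurd (h4 k') (not_le.2 h1)
    · rintro ⟨h1, h2⟩
      rcases h1.lt_or_eq with h1 | h1
      · exact (hadj _ hk).2 ⟨h1, h2⟩
      · exact (hFl k k' hk m).2 (S.z_inj h1)
  have KL : ∀ k k', S.RL k k' → ∀ m, ¬ (S.z k < S.z (l m) ∧ S.z (l m) ≤ S.z k') ∧
      ¬ (S.z k ≤ S.z (r m) ∧ S.z (r m) < S.z k') := by
    intro k k' hk m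
    have h0 := hfL k k' hk m
    have h0' := hfL k' k (S.symL _ _ hk) m
    constructor
    · rintro ⟨h1, h2⟩
      rcases h2.lt_or_eq with h2 | h2
      · exact h0.2.2.1 ⟨h1, h2⟩
      · exact h0'.1 (S.z_inj h2).symm
    · rintro ⟨h1, h2⟩
      rcases h1.lt_or_eq with h1 | h1
      · exact h0.2.2.2 ⟨h1, h2⟩
      · exact h0.2.1 (S.z_inj h1)
  -- nothing between the two flags of a tip and other flags
  have KT : ∀ m m', ¬ (S.z (l m) < S.z (l m') ∧ S.z (l m') ≤ S.z (r m)) ∧
      ¬ (S.z (l m) ≤ S.z (r m') ∧ S.z (r m') < S.z (r m)) := by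
    intro m m'
    rcases lt_trichotomy m m' with h1 | h1 | h1
    · have h2 := hrl _ _ h1
      have h3 := hrr _ _ h1
      constructor
      · rintro ⟨h4, h5⟩; linarith
      · rintro ⟨h4, h5⟩; linarith
    · subst h1
      exact ⟨fun h => lt_irrefl _ h.1, fun h => lt_irrefl _ h.2⟩
    · have h2 := hll _ _ h1
      have h3 := hrl _ _ h1
      constructor
      · rintro ⟨h4, h5⟩; linarith
      · rintro ⟨h4, h5⟩; linarith
  obtain ⟨δ, hδ, hs⟩ : ∃ δ > 0, ∀ k l, S.z k < S.z l → S.z k + 2 * δ < S.z l :=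
    letI := S.fin
    exists_sep S.z
  have C1 := fun k m => c_kl (l := l) (r := r) hδ hs k m
  have C2 := fun k m => c_lk (l := l) (r := r) hδ hs k m
  have C3 := fun k m => c_kr (l := l) (r := r) hδ hs k m
  have C4 := fun k m => c_rk (l := l) (r := r) hδ hs k m
  have C5 := fun k k' => c_kk (z := S.z) (δ := δ) (l := l) (r := r) k k'
  have C6 := fun m m' => c_ll (z := S.z) (δ := δ) (l := l) (r := r) m m'
  have C7 := fun m m' => c_rr (z := S.z) (δ := δ) (l := l) (r := r) m m'
  have C8 := fun m m' => c_lr (l := l) (r := r) hδ hs m m'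
  have C9 := fun m m' => c_rl (l := l) (r := r) hδ hs m m'
  have hmem : ∀ e ∈ List.ofFn (fun m : Fin n => (outer (g m), (Sum.inr (m, true) : S.ι ⊕ (Fin n × Bool)),
      (Sum.inr (m, false) : S.ι ⊕ (Fin n × Bool)))), ∃ m, e = (outer (g m), (Sum.inr (m, true) : S.ι ⊕ (Fin n × Bool)),
      (Sum.inr (m, false) : S.ι ⊕ (Fin n × Bool))) := by
    intro e he
    rw [List.mem_ofFn] at he
    obtain ⟨m, hm⟩ := he
    exact ⟨m, hm.symm⟩
  refine ⟨{
    ι := S.ι ⊕ (Fin n × Bool)
    fin := haveI := S.fin; inferInstance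
    pc := ppc S.pc H h g pv
    z := zz S.z δ l r
    T := List.ofFn (fun m => (outer (g m), Sum.inr (m, true), Sum.inr (m, false)))
    RS := rS S.RS
    RB := rB S.RB
    RL := rL S.RL
    RF := rF S.RF l r
    hT := ?_
    hne := ?_
    z_inj := zz_inj hδ hs S.z_inj hlinj hrinj
    ok := ?_
    geo := ?_
    sorted := ?_
    gap := ?_
    rootL := ?_
    rootR := ?_
    symS := ?_
    symB := ?_
    symL := ?_
    geoS := ?_
    geoB := ?_
    geoL := ?_
    geoF := ?_
    exS := ?_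
    exB := ?_
    exBase := ?_
    exTop := ?_
    lamS := ?_
    lamL := ?_
    baseL := ?_
    baseB := ?_
    flagL := ?_
    flagB := ?_
    adjF := ?_
    wind := ?_ }, ?_⟩
  · -- hT
    rw [List.map_ofFn]
    have h2 : List.map outer (List.ofFn g) = List.ofFn (outer ∘ g) := List.map_ofFn
    exact h2.symm
  · -- hne
    rw [Ne, List.ofFn_eq_nil_iff]
    omega
  · -- ok
    rintro (k | ⟨m, b⟩)
    · exact ⟨(S.ok k).1, by have := (S.ok k).2; show H ≤ (S.pc k).y0; linarith⟩
    · cases b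
      · exact ⟨⟨(hR m).1, by show H < H + h; linarith, hr0 m, (hi m).le⟩, le_refl H⟩
      · exact ⟨⟨(hR (pv m)).1, by show H < H + h; linarith, hr0 m, (hi m).le⟩, le_refl H⟩
  · -- geo
    intro e he
    rw [cyc_ofFn, List.mem_ofFn] at he
    obtain ⟨m, rfl⟩ := he
    refine ⟨?_, rfl⟩
    show EdgeGeo H (outer (g m)) (outer (g (nx m))) (PF H h (g m)) (PT H h (g (pv (nx m))) (g (nx m)))
    rw [hpv']
    exact geo_outer H h (hR m)
  · -- sorted
    rw [List.pairwise_flatMap]
    constructor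
    · intro e he
      obtain ⟨m, rfl⟩ := hmem e he
      simp only [List.pairwise_cons, List.mem_singleton, forall_eq, List.not_mem_nil,
        IsEmpty.forall_iff, implies_true, List.Pairwise.nil, and_true]
      exact (C8 m m).2 (hlr m).le
    · rw [List.pairwise_ofFn]
      intro m m' hm x hx y hy
      simp only [List.mem_cons, List.not_mem_nil, or_false] at hx hy
      rcases hx with rfl | rfl <;> rcases hy with rfl | rfl
      · exact (C6 _ _).2 (hll _ _ hm)
      · exact (C8 _ _).2 ((hll _ _ hm).trans (hlr _)).le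
      · exact (C9 _ _).2 (hrl _ _ hm)
      · exact (C7 _ _).2 (hrr _ _ hm)
  · -- gap
    rw [List.isChain_ofFn]
    intro i hi' k
    have hg := hgap i hi'
    rcases k with k | ⟨m, b⟩
    · rw [C4, C1]
      exact hg k
    · cases b
      · rw [C7, C9]
        exact hg (r m)
      · rw [C9, C6]
        exact hg (l m)
  · -- rootL
    intro e he k
    have he' : e = (outer (g ⟨0, hn⟩), Sum.inr (⟨0, hn⟩, true), Sum.inr (⟨0, hn⟩, false)) := by
      simp [List.head?_eq_getElem?, hn] at he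
      exact he.symm
    subst he'
    have h0 := hrootL ⟨0, hn⟩ rfl
    rw [← not_lt]
    rcases k with k | ⟨m, b⟩
    · rw [C1, not_lt]
      exact h0 k
    · cases b
      · rw [C9, not_lt]
        exact h0 (r m)
      · rw [C6, not_lt]
        exact h0 (l m)
  · -- rootR
    intro e he k
    have he' : e = (outer (g ⟨n - 1, by omega⟩), Sum.inr (⟨n - 1, by omega⟩, true),
        Sum.inr (⟨n - 1, by omega⟩, false)) := by
      simp [List.getLast?_eq_getElem?, hn] at he
      exact he.symm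
    subst he'
    have h0 := hrootR ⟨n - 1, by omega⟩ (by simp; omega)
    rw [← not_lt]
    rcases k with k | ⟨m, b⟩
    · rw [C4, not_lt]
      exact h0 k
    · cases b
      · rw [C7, not_lt]
        exact h0 (r m)
      · rw [C9, not_lt]
        exact h0 (l m)
  · -- symS
    rintro (k | ⟨m, _ | _⟩) (k' | ⟨m', _ | _⟩) hk
    all_goals first | exact hk | exact hk.elim | exact S.symS _ _ hk
  · -- symB
    rintro (k | ⟨m, _ | _⟩) (k' | ⟨m', _ | _⟩) hk
    all_goals first | exact hk | exact hk.elim | exact S.symB _ _ hk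
  · -- symL
    rintro (k | ⟨m, _ | _⟩) (k' | ⟨m', _ | _⟩) hk
    all_goals first | exact hk | exact hk.elim | exact S.symL _ _ hk
  · -- geoS
    have key : ∀ m, (PF H h (g m)).MS (PT H h (g m) (g (nx m))) := by
      intro m
      refine ⟨by simp [PF, PT], rfl, rfl, ?_, ?_⟩
      · rw [PF_s0, PT_s0]
      · rw [PF_s1, PT_s1]
    have sym : ∀ p q : Pc, p.MS q → q.MS p := fun p q h =>
      ⟨h.1.symm, h.2.1.symm, h.2.2.1.symm, h.2.2.2.1.symm, h.2.2.2.2.symm⟩
    rintro (k | ⟨m, _ | _⟩) (k' | ⟨m', _ | _⟩) hk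
    · exact S.geoS _ _ hk
    · exact hk.elim
    · exact hk.elim
    · exact hk.elim
    · exact hk.elim
    · have : m' = nx m := hk
      subst this
      show (PF H h (g m)).MS (PT H h (g (pv (nx m))) (g (nx m)))
      rw [hpv']; exact key m
    · exact hk.elim
    · have : m = nx m' := hk
      subst this
      show (PT H h (g (pv (nx m'))) (g (nx m'))).MS (PF H h (g m'))
      rw [hpv']; exact sym _ _ (key m')
    · exact hk.elim
  · -- geoB
    have key : ∀ m, (PF H h (g m)).MB (PT H h (g (pv m)) (g m)) := by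
      intro m
      have hR' : RingRel (g (pv m)) (g m) := by
        have := hR (pv m); rwa [hpv] at this
      refine ⟨by simp [PF, PT], rfl, rfl, rfl, rfl, ?_, ?_⟩
      · rw [PF_e0, PT_e0 H h hR']
      · rw [PF_e1, PT_e1 H h hR']
    have sym : ∀ p q : Pc, p.MB q → q.MB p := fun p q h =>
      ⟨h.1.symm, h.2.1.symm, h.2.2.1.symm, h.2.2.2.1.symm, h.2.2.2.2.1.symm, h.2.2.2.2.2.1.symm,
        h.2.2.2.2.2.2.symm⟩
    rintro (k | ⟨m, _ | _⟩) (k' | ⟨m', _ | _⟩) hk
    · exact S.geoB _ _ hk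
    · exact hk.elim
    · exact hk.elim
    · exact hk.elim
    · exact hk.elim
    · have : m' = m := hk
      subst this
      exact key m'
    · exact hk.elim
    · have : m = m' := hk
      subst this
      exact sym _ _ (key m)
    · exact hk.elim
  · -- geoL
    rintro (k | ⟨m, _ | _⟩) (k' | ⟨m', _ | _⟩) hk
    all_goals first | exact S.geoL _ _ hk | exact hk.elim
  · -- geoF
    rintro (k | ⟨m, _ | _⟩) (k' | ⟨m', _ | _⟩) hk
    · exact S.geoF _ _ hk
    · exact hk.elim
    · exact hk.elim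
    · have : k' = r m := hk
      subst this
      exact (hgi m).1
    · exact hk.elim
    · exact hk.elim
    · have : k' = l m := hk
      subst this
      have := (hgi (pv m)).2.1
      rw [hpv] at this
      exact this
    · exact hk.elim
    · exact hk.elim
  · -- exS
    rintro (k | ⟨m, _ | _⟩)
    · obtain ⟨k', hk'⟩ := S.exS k
      exact ⟨.inl k', hk'⟩
    · exact ⟨.inr (nx m, true), rfl⟩
    · exact ⟨.inr (pv m, false), (hpv m).symm⟩
  · -- exB
    rintro (k | ⟨m, _ | _⟩)
    · obtain ⟨k', hk'⟩ := S.exB k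
      exact ⟨.inl k', hk'⟩
    · exact ⟨.inr (m, true), rfl⟩
    · exact ⟨.inr (m, false), rfl⟩
  · -- exBase
    rintro (k | ⟨m, _ | _⟩)
    · right
      rcases S.exBase k with ⟨e, he, hk⟩ | ⟨k', hk'⟩ | ⟨k', hk'⟩
      · right
        rw [ht, List.mem_ofFn] at he
        obtain ⟨m, rfl⟩ := he
        rcases hk with hk | hk
        · exact ⟨.inr (m, true), hk⟩
        · exact ⟨.inr (m, false), hk⟩
      · left
        exact ⟨.inl k', hk'⟩
      · right
        exact ⟨.inl k', hk'⟩
    · left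
      refine ⟨_, List.mem_ofFn.2 ⟨m, rfl⟩, Or.inr rfl⟩
    · left
      refine ⟨_, List.mem_ofFn.2 ⟨m, rfl⟩, Or.inl rfl⟩
  · -- exTop
    rintro (k | ⟨m, _ | _⟩)
    · rcases S.exTop k with hk | ⟨k', hk'⟩
      · left; exact hk
      · right; exact ⟨.inl k', hk'⟩
    · right; exact ⟨.inl (r m), rfl⟩
    · right; exact ⟨.inl (l m), rfl⟩
  · -- lamS
    -- a new spine pair is either adjacent or extreme
    have hE' : ∀ m, (zz S.z δ l r (.inr (m, false)) < zz S.z δ l r (.inr (nx m, true)) ∧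
        ∀ k, ¬ (zz S.z δ l r (.inr (m, false)) < zz S.z δ l r k ∧
          zz S.z δ l r k < zz S.z δ l r (.inr (nx m, true)))) ∨
        ((∀ k, ¬ zz S.z δ l r k < zz S.z δ l r (.inr (nx m, true))) ∧
          ∀ k, ¬ zz S.z δ l r (.inr (m, false)) < zz S.z δ l r k) := by
      intro m
      rcases hE m with ⟨h1, h2⟩ | ⟨h1, h2⟩
      · left
        refine ⟨(C9 _ _).2 h1, ?_⟩
        rintro (k | ⟨m', _ | _⟩)
        · rw [C4, C1]; exact h2 k
        · rw [C7, C9]; exact h2 _
        · rw [C9, C6]; exact h2 _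
      · right
        constructor
        · rintro (k | ⟨m', _ | _⟩)
          · rw [C1, not_lt]; exact h1 k
          · rw [C9, not_lt]; exact h1 _
          · rw [C6, not_lt]; exact h1 _
        · rintro (k | ⟨m', _ | _⟩)
          · rw [C4, not_lt]; exact h2 k
          · rw [C7, not_lt]; exact h2 _
          · rw [C9, not_lt]; exact h2 _
    have hnew : ∀ m (a b : S.ι ⊕ (Fin n × Bool)),
        (a = .inr (m, false) ∧ b = .inr (nx m, true)) ∨ (b = .inr (m, false) ∧ a = .inr (nx m, true)) →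
        (∀ k, ¬ (zz S.z δ l r a < zz S.z δ l r k ∧ zz S.z δ l r k < zz S.z δ l r b)) ∨
        ((∀ k, ¬ zz S.z δ l r k < zz S.z δ l r a) ∧ ∀ k, ¬ zz S.z δ l r b < zz S.z δ l r k) := by
      rintro m a b (⟨rfl, rfl⟩ | ⟨rfl, rfl⟩)
      · left
        rcases hE' m with ⟨h1, h2⟩ | ⟨h1, h2⟩
        · exact h2
        · intro k hk
          exact h2 k hk.1
      · rcases hE' m with ⟨h1, h2⟩ | ⟨h1, h2⟩
        · left
          intro k hk
          exact absurd (hk.1.trans hk.2) (not_lt.2 h1.le)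
        · right
          exact ⟨h1, h2⟩
    have hcl : ∀ k k' : S.ι ⊕ (Fin n × Bool), rS S.RS k k' → (∃ a b, k = Sum.inl a ∧ k' = Sum.inl b ∧ S.RS a b) ∨
        ∃ m, (k = .inr (m, false) ∧ k' = .inr (nx m, true)) ∨
          (k' = .inr (m, false) ∧ k = .inr (nx m, true)) := by
      rintro (k | ⟨m, _ | _⟩) (k' | ⟨m', _ | _⟩) hk
      · left; exact ⟨k, k', rfl, rfl, hk⟩
      · exact hk.elim
      · exact hk.elim
      · exact hk.elim
      · exact hk.elim
      · right
        have : m' = nx m := hk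
        subst this
        exact ⟨m, Or.inl ⟨rfl, rfl⟩⟩
      · exact hk.elim
      · right
        have : m = nx m' := hk
        subst this
        exact ⟨m', Or.inr ⟨rfl, rfl⟩⟩
      · exact hk.elim
    intro k1 k2 k3 k4 h12 h34 i1 i2 i3
    rcases hcl _ _ h12 with ⟨a, b, rfl, rfl, hab⟩ | ⟨m, hm⟩
    · rcases hcl _ _ h34 with ⟨c, d, rfl, rfl, hcd⟩ | ⟨m', hm'⟩
      · exact S.lamS a b c d hab hcd i1 i2 i3
      · rcases hnew m' _ _ hm' with h5 | ⟨h5, h6⟩
        · exact h5 _ ⟨i2, i3⟩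
        · exact h5 _ i1
    · rcases hnew m _ _ hm with h5 | ⟨h5, h6⟩
      · exact h5 _ ⟨i1, i2⟩
      · exact h6 _ i3
  · -- lamL
    rintro (k1 | ⟨m1, _ | _⟩) (k2 | ⟨m2, _ | _⟩) (k3 | ⟨m3, _ | _⟩) (k4 | ⟨m4, _ | _⟩) h12 h34
    all_goals first | exact S.lamL _ _ _ _ h12 h34 | exact h12.elim | exact h34.elim
  · -- baseL
    rintro (k1 | ⟨m1, _ | _⟩) (k2 | ⟨m2, _ | _⟩) k3 h12 i1 i2
    · have h12' : S.RL k1 k2 := h12
      rcases k3 with k3 | ⟨m, _ | _⟩
      · exact S.baseL _ _ _ h12 i1 i2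
      · rw [C3] at i1
        rw [C4] at i2
        exact absurd ⟨i1, i2⟩ (KL _ _ h12' m).2
      · rw [C1] at i1
        rw [C2] at i2
        exact absurd ⟨i1, i2⟩ (KL _ _ h12' m).1
    all_goals exact h12.elim
  · -- baseB
    have key : ∀ m k3, zz S.z δ l r (.inr (m, true)) < zz S.z δ l r k3 →
        zz S.z δ l r k3 < zz S.z δ l r (.inr (m, false)) → H + h ≤ (ppc S.pc H h g pv k3).y0 := by
      intro m k3 i1 i2
      rcases k3 with k3 | ⟨m', _ | _⟩
      · exact (S.ok k3).2
      · rw [C8] at i1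
        rw [C7] at i2
        exact absurd ⟨i1, i2⟩ (KT m m').2
      · rw [C6] at i1
        rw [C8] at i2
        exact absurd ⟨i1, i2⟩ (KT m m').1
    have hfar : ∀ m k3, zz S.z δ l r (.inr (m, false)) < zz S.z δ l r k3 →
        zz S.z δ l r k3 < zz S.z δ l r (.inr (m, true)) → False := by
      intro m k3 i1 i2
      have := i1.trans i2
      rw [C9] at this
      linarith [hlr m]
    rintro (k1 | ⟨m1, _ | _⟩) (k2 | ⟨m2, _ | _⟩) k3 h12 i1 i2
    · have h12' : S.RB k1 k2 := h12
      rcases k3 with k3 | ⟨m, _ | _⟩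
      · exact S.baseB _ _ _ h12 i1 i2
      · rw [C3] at i1
        rw [C4] at i2
        exact absurd ⟨i1, i2⟩ (KB _ _ h12' m).2
      · rw [C1] at i1
        rw [C2] at i2
        exact absurd ⟨i1, i2⟩ (KB _ _ h12' m).1
    · exact h12.elim
    · exact h12.elim
    · exact h12.elim
    · exact h12.elim
    · have : m2 = m1 := h12
      subst this
      exact (hfar _ _ i1 i2).elim
    · exact h12.elim
    · have : m1 = m2 := h12
      subst this
      exact key _ _ i1 i2
    · exact h12.elim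
  · -- flagL
    rintro (k1 | ⟨m1, _ | _⟩) (k2 | ⟨m2, _ | _⟩) h12 e he
    · obtain ⟨m, rfl⟩ := hmem e he
      have h12' : S.RL k1 k2 := h12
      refine ⟨by simp, by simp, ?_, ?_⟩
      · rw [C1, C2]; exact (KL _ _ h12' m).1
      · rw [C3, C4]; exact (KL _ _ h12' m).2
    all_goals exact h12.elim
  · -- flagB
    rintro (k1 | ⟨m1, _ | _⟩) (k2 | ⟨m2, _ | _⟩) h12 e he
    · obtain ⟨m, rfl⟩ := hmem e he
      have h12' : S.RB k1 k2 := h12
      refine ⟨?_, ?_⟩
      · rw [C1, C2]; exact (KB _ _ h12' m).1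
      · rw [C3, C4]; exact (KB _ _ h12' m).2
    · exact h12.elim
    · exact h12.elim
    · exact h12.elim
    · exact h12.elim
    · obtain ⟨m, rfl⟩ := hmem e he
      have : m2 = m1 := h12
      subst this
      have h5 : ∀ x, ¬ (zz S.z δ l r (.inr (m2, false)) < x ∧ x < zz S.z δ l r (.inr (m2, true))) := by
        rintro x ⟨i1, i2⟩
        have := i1.trans i2
        rw [C9] at this
        linarith [hlr m2]
      exact ⟨h5 _, h5 _⟩
    · exact h12.elim
    · obtain ⟨m, rfl⟩ := hmem e he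
      have : m1 = m2 := h12
      subst this
      refine ⟨?_, ?_⟩
      · rw [C6, C8]; exact (KT m1 m).1
      · rw [C8, C7]; exact (KT m1 m).2
    · exact h12.elim
  · -- adjF
    rintro (k1 | ⟨m1, _ | _⟩) (k2 | ⟨m2, _ | _⟩) k3 h12
    · have h12' : S.RF k1 k2 := h12
      rcases k3 with k3 | ⟨m, _ | _⟩
      · exact S.adjF _ _ _ h12
      · rw [C3, C4, C3, C4]
        exact ⟨(KF _ _ h12' m).2.1, (KF _ _ h12' m).2.2.2⟩
      · rw [C1, C2, C1, C2]
        exact ⟨(KF _ _ h12' m).1, (KF _ _ h12' m).2.2.1⟩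
    · exact h12.elim
    · exact h12.elim
    · have : k2 = r m1 := h12
      subst this
      rcases k3 with k3 | ⟨m, _ | _⟩
      · rw [C4, C5, C5, C3]
        exact ⟨fun h => absurd h.1 (not_lt.2 h.2.le), fun h => absurd h.1 (not_lt.2 h.2)⟩
      · rw [C7, C4, C3, C7]
        exact ⟨fun h => absurd h.1 (not_lt.2 h.2.le), fun h => absurd h.1 (not_le.2 h.2)⟩
      · rw [C9, C2, C1, C8]
        exact ⟨fun h => absurd h.1 (not_lt.2 h.2), fun h => absurd h.1 (not_lt.2 h.2)⟩
    · exact h12.elim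
    · exact h12.elim
    · have : k2 = l m1 := h12
      subst this
      rcases k3 with k3 | ⟨m, _ | _⟩
      · rw [C2, C5, C5, C1]
        exact ⟨fun h => absurd h.1 (not_le.2 h.2), fun h => absurd h.1 (not_lt.2 h.2.le)⟩
      · rw [C8, C4, C3, C9]
        exact ⟨fun h => absurd h.1 (not_le.2 h.2), fun h => absurd h.1 (not_le.2 h.2)⟩
      · rw [C6, C2, C1, C6]
        exact ⟨fun h => absurd h.1 (not_lt.2 h.2), fun h => absurd h.1 (not_lt.2 h.2.le)⟩
    · exact h12.elim
    · exact h12.elim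
  · -- wind
    intro x hx
    have h1 := S.wind x fun k => hx (.inl k)
    have hF : ∀ m, x ∉ curve (PF H h (g m)).bd := fun m => hx (.inr (m, false))
    have hTT : ∀ m, x ∉ curve (PT H h (g m) (g (nx m))).bd := by
      intro m
      have := hx (.inr (nx m, true))
      have h2 : ppc S.pc H h g pv (.inr (nx m, true)) = PT H h (g m) (g (nx m)) := by
        show PT H h (g (pv (nx m))) (g (nx m)) = _
        rw [hpv']
      rwa [h2] at this
    have h2 := wind_ring g hR hi hF hTT
    letI := S.fin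
    have h3 : ∑ k : S.ι ⊕ (Fin n × Bool), wnd x (ppc S.pc H h g pv k).bd =
        wnd x ((List.map outer (List.ofFn g)).map Prod.fst) := by
      rw [Fintype.sum_sum_type, Fintype.sum_prod_type]
      have h4 : ∑ k : S.ι, wnd x (ppc S.pc H h g pv (.inl k)).bd =
          wnd x ((List.map (inner h) (List.ofFn g)).map Prod.fst) := h1
      rw [h4]
      have h5 : ∀ m : Fin n, ∑ b : Bool, wnd x (ppc S.pc H h g pv (.inr (m, b))).bd =
          wnd x (PT H h (g (pv m)) (g m)).bd + wnd x (PF H h (g m)).bd := by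
        intro m
        rw [Fintype.sum_bool]
        rfl
      rw [Finset.sum_congr rfl fun m _ => h5 m, Finset.sum_add_distrib]
      have h6 : ∑ m, wnd x (PT H h (g m) (g (nx m))).bd = ∑ m, wnd x (PT H h (g (pv m)) (g m)).bd := by
        rw [← Equiv.sum_comp (Equiv.ofBijective nx nx_bij)
          fun m => wnd x (PT H h (g (pv m)) (g m)).bd]
        apply Finset.sum_congr rfl
        intro m _
        show _ = wnd x (PT H h (g (pv (nx m))) (g (nx m))).bd
        rw [hpv']
      rw [← h6]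
      rw [List.map_ofFn, List.map_ofFn, List.map_ofFn, List.map_ofFn]
      have e1 : (Prod.fst ∘ inner h ∘ g) = fun m => (inner h (g m)).1 := rfl
      have e2 : (Prod.fst ∘ outer ∘ g) = fun m => (g m).1 := rfl
      rw [e1, e2]
      linarith
    exact h3
  · -- last
    refine ⟨?_, ?_⟩
    · rintro (k | ⟨m, _ | _⟩) hk
      · have := (S.ok k).2
        show H < (S.pc k).y0
        linarith
      · exact absurd rfl (hk _ (List.mem_ofFn.2 ⟨m, rfl⟩)).2
      · exact absurd rfl (hk _ (List.mem_ofFn.2 ⟨m, rfl⟩)).1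
    · intro e he
      obtain ⟨m, rfl⟩ := hmem e he
      exact (rfl : m = m)

end

end Pool.Agent.Helper22.FC
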