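import Pool.Agent.Helper22.FC.Base

namespace Pool.Agent.Helper22.FC

open Complex

noncomputable section

theorem slit_of_notMem {x a b : ℂ} (h : x ∉ segment ℝ a b) : (b - x) / (a - x) ∈ slitPlane := by
  by_contra hn
  have hax : a - x ≠ 0 := by
    intro h0
    apply h
    rw [sub_eq_zero.1 h0]
    exact left_mem_segment ℝ x b
  rw [mem_slitPlane_iff] at hn
  push Not at hn
  obtain ⟨h1, h2⟩ := hn
  set w := (b - x) / (a - x) with hw
  have hwr : w = ((w.re : ℝ) : ℂ) := by
    apply Complex.ext <;> simp [h2]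
  have hb : b - x = w * (a - x) := by
    rw [hw]; field_simp
  apply h
  have hpos : 0 < 1 - w.re := by linarith
  refine ⟨-w.re / (1 - w.re), 1 / (1 - w.re), div_nonneg (by linarith) hpos.le, by positivity, ?_, ?_⟩
  · field_simp; ring
  · have hne : ((1 - w.re : ℝ) : ℂ) ≠ 0 := by exact_mod_cast hpos.ne'
    have hb' : b = x + (w.re : ℂ) * (a - x) := by
      rw [hwr] at hb
      linear_combination hb
    rw [hb']
    simp only [Complex.real_smul]
    push_cast at hne ⊢
    field_simp
    ring

theorem ang_symm {x a b : ℂ} (h : x ∉ segment ℝ a b) : ang x a b + ang x b a = 0 := by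
  unfold ang
  have h1 := slit_of_notMem h
  have h2 : (a - x) / (b - x) = ((b - x) / (a - x))⁻¹ := by rw [inv_div]
  rw [h2, Complex.arg_inv]
  rw [mem_slitPlane_iff_arg] at h1
  rw [if_neg h1.1]
  ring

theorem ang_self (x a : ℂ) : ang x a a = 0 := by
  unfold ang
  by_cases h : a - x = 0
  · simp [h]
  · rw [div_self h]; simp

theorem ang_add_K5 {x a b t : ℂ} (h1 : x ∉ segment ℝ a t) (h2 : x ∉ segment ℝ t b)
    (ht : t ∈ segment ℝ a b) : ang x a t + ang x t b = ang x a b := by
  have hu := slit_of_notMem h1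
  have hv := slit_of_notMem h2
  have hax : a - x ≠ 0 := by
    intro h0
    apply h1
    rw [sub_eq_zero.1 h0]
    exact left_mem_segment ℝ x t
  have htx : t - x ≠ 0 := by
    intro h0
    apply h2
    rw [sub_eq_zero.1 h0]
    exact left_mem_segment ℝ x b
  unfold ang
  set u := (t - x) / (a - x) with hudef
  set v := (b - x) / (t - x) with hvdef
  set w := (b - x) / (a - x) with hwdef
  have huv : u * v = w := by
    rw [hudef, hvdef, hwdef]; field_simp
  have hu0 : u ≠ 0 := slitPlane_ne_zero hu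
  have hv0 : v ≠ 0 := slitPlane_ne_zero hv
  obtain ⟨p, q, hp, hq, hpq, hpt⟩ := ht
  have huw : u = (p : ℂ) + q * w := by
    have : t - x = p * (a - x) + q * (b - x) := by
      have hpq' : (p : ℂ) + q = 1 := by exact_mod_cast hpq
      rw [← hpt]
      simp only [Complex.real_smul]
      linear_combination x * hpq'
    rw [hudef, this, hwdef]; field_simp
  have huim : u.im = q * w.im := by
    rw [huw]; simp
  have hvim : v.im * Complex.normSq u = p * w.im := by
    have h3 : v * (Complex.normSq u : ℂ) = w * (starRingEnd ℂ) u := by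
      rw [← Complex.mul_conj, ← huv]; ring
    have h4 := congrArg Complex.im h3
    rw [huw] at h4
    simp only [Complex.mul_im, Complex.ofReal_re, Complex.ofReal_im, map_add, map_mul,
      Complex.conj_ofReal, Complex.add_re, Complex.add_im, Complex.mul_re, Complex.conj_re,
      Complex.conj_im, mul_zero, zero_mul, add_zero, sub_zero, zero_add] at h4
    rw [huw]
    linarith
  have hnu : 0 < Complex.normSq u := Complex.normSq_pos.2 hu0
  have hang := Complex.arg_mul_coe_angle hu0 hv0
  rw [huv] at hang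
  have hang2 : ((w.arg : ℝ) : Real.Angle) = ((u.arg + v.arg : ℝ) : Real.Angle) := by
    rw [hang]; push_cast; rfl
  rw [Real.Angle.angle_eq_iff_two_pi_dvd_sub] at hang2
  obtain ⟨k, hk⟩ := hang2
  have hpi := Real.pi_pos
  have key : k = 0 := by
    rcases le_total 0 w.im with hw | hw
    · have hui : 0 ≤ u.im := by rw [huim]; positivity
      have hvi : 0 ≤ v.im := by
        by_contra hcon
        push Not at hcon
        have : v.im * Complex.normSq u < 0 := mul_neg_of_neg_of_pos hcon hnu
        have : 0 ≤ p * w.im := mul_nonneg hp hw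
        linarith
      have a1 := Complex.arg_nonneg_iff.2 hui
      have a2 := Complex.arg_nonneg_iff.2 hvi
      have a3 := Complex.arg_nonneg_iff.2 hw
      have b1 : u.arg < Real.pi := lt_of_le_of_ne (Complex.arg_le_pi u) (mem_slitPlane_iff_arg.1 hu).1
      have b2 : v.arg < Real.pi := lt_of_le_of_ne (Complex.arg_le_pi v) (mem_slitPlane_iff_arg.1 hv).1
      have b3 := Complex.arg_le_pi w
      have c1 : (-1 : ℝ) < k := by
        by_contra hc; push Not at hc; nlinarith
      have c2 : (k : ℝ) < 1 := by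
        by_contra hc; push Not at hc; nlinarith
      have c1' : (-1 : ℤ) < k := by exact_mod_cast c1
      have c2' : k < (1 : ℤ) := by exact_mod_cast c2
      omega
    · have aux : ∀ y : ℂ, y ∈ slitPlane → y.im ≤ 0 → y.arg ≤ 0 := by
        intro y hy hyi
        rcases hyi.lt_or_eq with h | h
        · exact (Complex.arg_neg_iff.2 h).le
        · have hre : 0 < y.re := by
            rw [mem_slitPlane_iff] at hy
            rcases hy with hy | hy
            · exact hy
            · exact absurd h hy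
          exact (Complex.arg_eq_zero_iff.2 ⟨hre.le, h⟩).le
      have hui : u.im ≤ 0 := by rw [huim]; exact mul_nonpos_of_nonneg_of_nonpos hq hw
      have hvi : v.im ≤ 0 := by
        by_contra hcon
        push Not at hcon
        have : 0 < v.im * Complex.normSq u := mul_pos hcon hnu
        have : p * w.im ≤ 0 := mul_nonpos_of_nonneg_of_nonpos hp hw
        linarith
      have a1 := aux u hu hui
      have a2 := aux v hv hvi
      have b1 := Complex.neg_pi_lt_arg u
      have b2 := Complex.neg_pi_lt_arg v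
      have b3 := Complex.neg_pi_lt_arg w
      have b4 := Complex.arg_le_pi w
      have a3 : w.arg ≤ 0 := by
        rcases hw.lt_or_eq with h | h
        · exact (Complex.arg_neg_iff.2 h).le
        · have e1 : u.im = 0 := by rw [huim, h, mul_zero]
          have e2 : v.im = 0 := by
            rw [h, mul_zero] at hvim
            exact (mul_eq_zero.1 hvim).resolve_right hnu.ne'
          have r1 : 0 < u.re := by
            rcases mem_slitPlane_iff.1 hu with hy | hy
            · exact hy
            · exact absurd e1 hy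
          have r2 : 0 < v.re := by
            rcases mem_slitPlane_iff.1 hv with hy | hy
            · exact hy
            · exact absurd e2 hy
          have r3 : 0 < w.re := by
            rw [← huv, Complex.mul_re, e1, e2]
            nlinarith [mul_pos r1 r2]
          exact (Complex.arg_eq_zero_iff.2 ⟨r3.le, h⟩).le
      have c1 : (-1 : ℝ) < k := by
        by_contra hc; push Not at hc; nlinarith
      have c2 : (k : ℝ) < 1 := by
        by_contra hc; push Not at hc; nlinarith
      have c1' : (-1 : ℤ) < k := by exact_mod_cast c1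
      have c2' : k < (1 : ℤ) := by exact_mod_cast c2
      omega
  rw [key] at hk
  simp at hk
  linarith

theorem cyc_ofFn_K5 {α : Type*} {N : ℕ} (f : Fin (N + 1) → α) :
    cyc (List.ofFn f) = List.ofFn (fun i => (f i, f (i + 1))) := by
  unfold cyc
  apply List.ext_getElem
  · simp
  · intro i h1 h2
    simp only [List.getElem_zip, List.getElem_ofFn, List.getElem_rotate, List.length_ofFn,
      Prod.mk.injEq, true_and]
    congr 1
    apply Fin.ext
    simp [Fin.val_add]

def pp (H h : ℝ) {N : ℕ} (g : Fin (N + 1) → Tip) : Fin (N + 1) × Bool → Pc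
  | (m, true) => ⟨true, (g (m - 1)).1 + (g (m - 1)).2.1 * (g (m - 1)).2.2.2
      - H * I * (g (m - 1)).2.2.2, (g (m - 1)).2.2.2, H, H + h, (g m).2.1, 0⟩
  | (m, false) => ⟨false, (g m).1 + (g m).2.1 * (g m).2.2.2
      - H * I * (g m).2.2.2, (g m).2.2.2, H, H + h, (g m).2.1, 0⟩

def zz_K5 {N : ℕ} : Fin (N + 1) × Bool → ℕ
  | (m, true) => 2 * m.val
  | (m, false) => 2 * m.val + 1

theorem zz_inj_K5 {N : ℕ} : Function.Injective (zz_K5 (N := N)) := by
  rintro ⟨a, b⟩ ⟨c, d⟩ h
  cases b <;> cases d <;> simp only [zz_K5] at h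
  · have : a = c := Fin.ext (by omega)
    rw [this]
  · omega
  · omega
  · have : a = c := Fin.ext (by omega)
    rw [this]

theorem zz_le {N : ℕ} (k : Fin (N + 1) × Bool) : zz_K5 k ≤ 2 * N + 1 := by
  obtain ⟨a, b⟩ := k
  have := a.2
  cases b <;> simp only [zz_K5] <;> omega

def rS_K5 {N : ℕ} (k l : Fin (N + 1) × Bool) : Prop :=
  ∃ m : Fin (N + 1), (k = (m, false) ∧ l = (m + 1, true)) ∨ (l = (m, false) ∧ k = (m + 1, true))

def rB_K5 {N : ℕ} (k l : Fin (N + 1) × Bool) : Prop :=
  k.1 = l.1 ∧ k.2 ≠ l.2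

theorem val_succ {N : ℕ} (m : Fin (N + 1)) :
    (m + 1).val = m.val + 1 ∨ (m.val = N ∧ (m + 1).val = 0) := by
  have hm := m.2
  rcases Nat.lt_or_ge m.val N with h | h
  · left
    rw [Fin.val_add_one_of_lt]
    exact Fin.lt_def.2 (by simpa using h)
  · right
    have hmN : m = Fin.last N := Fin.ext (by simp; omega)
    subst hmN
    simp

theorem rS_z {N : ℕ} {k l : Fin (N + 1) × Bool} (h : rS_K5 k l) (hz : zz_K5 k < zz_K5 l) :
    zz_K5 l = zz_K5 k + 1 ∨ (zz_K5 k = 0 ∧ zz_K5 l = 2 * N + 1) := by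
  obtain ⟨m, ⟨rfl, rfl⟩ | ⟨rfl, rfl⟩⟩ := h
  · simp only [zz_K5] at hz ⊢
    rcases val_succ m with h | h <;> omega
  · simp only [zz_K5] at hz ⊢
    rcases val_succ m with h | h <;> omega

theorem rB_z {N : ℕ} {k l : Fin (N + 1) × Bool} (h : rB_K5 k l) (hz : zz_K5 k < zz_K5 l) :
    zz_K5 l = zz_K5 k + 1 := by
  obtain ⟨a, b⟩ := k
  obtain ⟨c, d⟩ := l
  obtain ⟨h1, h2⟩ := h
  simp only at h1 h2
  subst h1
  cases b <;> cases d <;> simp only [zz_K5] at hz ⊢ <;> first | omega | exact absurd rfl h2

theorem pp_geo (H h : ℝ) {N : ℕ} (g : Fin (N + 1) → Tip) (m : Fin (N + 1))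
    (hR : RingRel (g m) (g (m + 1))) :
    EdgeGeo H (outer (g m)) (outer (g (m + 1))) (pp H h g (m, false)) (pp H h g (m + 1, true)) := by
  refine ⟨(g m).2.2.2, hR.1, hR.2.1, rfl, rfl, rfl, ?_, rfl, ?_, rfl, rfl, rfl, rfl, rfl⟩
  · simp [pp]
  · simp [pp, outer]

/-- the touching point of the discs `m` and `m + 1` -/
def tt {N : ℕ} (g : Fin (N + 1) → Tip) (m : Fin (N + 1)) : ℂ := (g m).1 + (g m).2.1 * (g m).2.2.2

/-- the top point -/
def OO (h : ℝ) {N : ℕ} (g : Fin (N + 1) → Tip) (m : Fin (N + 1)) : ℂ :=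
  tt g m + h * I * (g m).2.2.2

theorem pt_e0t (H h : ℝ) {N : ℕ} (g : Fin (N + 1) → Tip)
    (hR : ∀ m, RingRel (g m) (g (m + 1))) (m : Fin (N + 1)) :
    (pp H h g (m, true)).e0 = (g m).1 := by
  have h1 := (hR (m - 1)).2.1
  rw [sub_add_cancel] at h1
  push_cast at h1
  simp only [pp, Pc.e0, Pc.pt, if_true]
  linear_combination -h1

theorem pt_e0f (H h : ℝ) {N : ℕ} (g : Fin (N + 1) → Tip) (m : Fin (N + 1)) :
    (pp H h g (m, false)).e0 = (g m).1 := by
  simp only [pp, Pc.e0, Pc.pt, Bool.false_eq_true, if_false]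
  ring

theorem pt_s0t (H h : ℝ) {N : ℕ} (g : Fin (N + 1) → Tip) (m : Fin (N + 1)) :
    (pp H h g (m, true)).s0 = tt g (m - 1) := by
  simp only [pp, Pc.s0, Pc.pt, if_true, tt]
  push_cast
  ring

theorem pt_s0f (H h : ℝ) {N : ℕ} (g : Fin (N + 1) → Tip) (m : Fin (N + 1)) :
    (pp H h g (m, false)).s0 = tt g m := by
  simp only [pp, Pc.s0, Pc.pt, Bool.false_eq_true, if_false, tt]
  push_cast
  ring

theorem pt_s1t (H h : ℝ) {N : ℕ} (g : Fin (N + 1) → Tip) (m : Fin (N + 1)) :
    (pp H h g (m, true)).s1 = OO h g (m - 1) := by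
  simp only [pp, Pc.s1, Pc.pt, if_true, tt, OO]
  push_cast
  ring

theorem pt_s1f (H h : ℝ) {N : ℕ} (g : Fin (N + 1) → Tip) (m : Fin (N + 1)) :
    (pp H h g (m, false)).s1 = OO h g m := by
  simp only [pp, Pc.s1, Pc.pt, Bool.false_eq_true, if_false, tt, OO]
  push_cast
  ring

theorem pt_e1t (H h : ℝ) {N : ℕ} (g : Fin (N + 1) → Tip) (m : Fin (N + 1)) :
    (pp H h g (m, true)).e1 = OO h g (m - 1) := by
  simp only [pp, Pc.e1, Pc.pt, if_true, tt, OO]
  push_cast
  ring

theorem pt_e1f (H h : ℝ) {N : ℕ} (g : Fin (N + 1) → Tip) (m : Fin (N + 1)) :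
    (pp H h g (m, false)).e1 = OO h g m := by
  simp only [pp, Pc.e1, Pc.pt, Bool.false_eq_true, if_false, tt, OO]
  push_cast
  ring

theorem O_const {h : ℝ} {N : ℕ} (g : Fin (N + 1) → Tip)
    (hR : ∀ m, RingRel (g m) (g (m + 1))) (hk : ∀ m, (g m).2.1 = h * (g m).2.2.1)
    (m : Fin (N + 1)) : OO h g (m - 1) = OO h g m := by
  obtain ⟨-, h1, h2, -⟩ := hR (m - 1)
  rw [sub_add_cancel] at h1 h2
  have h3 : ((g m).2.1 : ℂ) = h * (g m).2.2.1 := by rw [hk m]; push_cast; ring
  push_cast at h1
  simp only [OO, tt]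
  rw [h3] at h1 ⊢
  linear_combination -h1 - h * h2

theorem stack_point {H h : ℝ} (hh : 0 < h) (G : List Tip) (hne : G ≠ [])
    (hG : ∀ e ∈ cyc G, RingRel e.1 e.2) (hr : ∀ g ∈ G, g.2.1 - h * g.2.2.1 = 0) :
    Nonempty (Stack H (G.map outer)) := by
  obtain ⟨N, g, rfl⟩ : ∃ N, ∃ g : Fin (N + 1) → Tip, G = List.ofFn g := by
    refine ⟨G.length - 1, fun i => G[i.val]'(by
      have := List.length_pos_of_ne_nil hne
      have := i.2
      omega), ?_⟩
    apply List.ext_getElem
    · have := List.length_pos_of_ne_nil hne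
      simp; omega
    · intro i h1 h2
      simp only [List.getElem_ofFn]
  have hR : ∀ m, RingRel (g m) (g (m + 1)) := by
    intro m
    have := hG (g m, g (m + 1)) (by rw [cyc_ofFn_K5]; exact List.mem_ofFn.2 ⟨m, rfl⟩)
    exact this
  have hk : ∀ m, (g m).2.1 = h * (g m).2.2.1 := by
    intro m
    have := hr (g m) (List.mem_ofFn.2 ⟨m, rfl⟩)
    linarith
  set T : List ((ℂ × ℝ) × (Fin (N + 1) × Bool) × (Fin (N + 1) × Bool)) :=
    List.ofFn (fun i => (outer (g i), (i, true), (i, false))) with hTdef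
  have hcT : cyc T = List.ofFn (fun i : Fin (N + 1) => ((outer (g i), (i, true), (i, false)),
      (outer (g (i + 1)), (i + 1, true), (i + 1, false)))) := by
    rw [hTdef, cyc_ofFn_K5]
  refine ⟨{
    ι := Fin (N + 1) × Bool
    fin := inferInstance
    pc := pp H h g
    z := fun k => (zz_K5 k : ℝ)
    T := T
    RS := rS_K5
    RB := rB_K5
    RL := fun _ _ => False
    RF := fun _ _ => False
    hT := ?_
    hne := ?_
    z_inj := ?_
    ok := ?_
    geo := ?_
    sorted := ?_
    gap := ?_
    rootL := ?_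
    rootR := ?_
    symS := ?_
    symB := ?_
    symL := fun _ _ h => h
    geoS := ?_
    geoB := ?_
    geoL := fun _ _ h => h.elim
    geoF := fun _ _ h => h.elim
    exS := ?_
    exB := ?_
    exBase := ?_
    exTop := ?_
    lamS := ?_
    lamL := fun _ _ _ _ h => h.elim
    baseL := fun _ _ _ h => h.elim
    baseB := ?_
    flagL := fun _ _ h => h.elim
    flagB := ?_
    adjF := fun _ _ _ h => h.elim
    wind := ?_ }⟩
  · rw [hTdef, List.map_ofFn, List.map_ofFn]; rfl
  · intro h0
    have := congrArg List.length h0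
    simp [hTdef] at this
  · intro a b hab
    have hab' : (zz_K5 a : ℝ) = zz_K5 b := hab
    exact zz_inj_K5 (by exact_mod_cast hab')
  · rintro ⟨m, b⟩
    cases b
    · exact ⟨⟨(hR m).1, by simp [pp, hh], (hR m).2.2.2, le_rfl⟩, le_rfl⟩
    · refine ⟨⟨(hR (m - 1)).1, by simp [pp, hh], (hR m).2.2.2, le_rfl⟩, le_rfl⟩
  · intro e he
    rw [hcT] at he
    obtain ⟨i, rfl⟩ := List.mem_ofFn.1 he
    exact ⟨pp_geo H h g i (hR i), i, Or.inl ⟨rfl, rfl⟩⟩
  · rw [List.pairwise_flatMap]
    constructor
    · intro e he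
      obtain ⟨i, rfl⟩ := List.mem_ofFn.1 he
      simp [zz_K5]
    · rw [hTdef, List.pairwise_ofFn]
      intro i j hij x hx y hy
      have hij' : i.val < j.val := hij
      simp only [List.mem_cons, List.not_mem_nil, or_false] at hx hy
      have : zz_K5 x < zz_K5 y := by
        rcases hx with rfl | rfl <;> rcases hy with rfl | rfl <;> simp only [zz_K5] <;> omega
      exact_mod_cast this
  · rw [List.isChain_iff_getElem]
    intro i hi k hk1
    simp only [hTdef, List.getElem_ofFn] at hk1
    obtain ⟨h1, h2⟩ := hk1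
    have h1' : zz_K5 ((⟨i, by simpa [hTdef] using Nat.lt_of_succ_lt hi⟩, false) : Fin (N+1) × Bool) < zz_K5 k := by exact_mod_cast h1
    have h2' : zz_K5 k < zz_K5 ((⟨i + 1, by simpa [hTdef] using hi⟩, true) : Fin (N+1) × Bool) := by exact_mod_cast h2
    simp only [zz_K5] at h1' h2'
    omega
  · intro e he k
    have : e = (outer (g 0), (0, true), (0, false)) := by
      rw [hTdef, List.ofFn_succ] at he
      simpa using he.symm
    subst this
    simp [zz_K5]
  · intro e he k
    have : e = (outer (g (Fin.last N)), (Fin.last N, true), (Fin.last N, false)) := by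
      rw [hTdef, List.getLast?_eq_getElem?, List.getElem?_ofFn] at he
      simp only [List.length_ofFn, Nat.add_sub_cancel] at he
      rw [dif_pos (Nat.lt_succ_self N)] at he
      simp only [Option.mem_def, Option.some.injEq] at he
      rw [← he]
      rfl
    subst this
    have := zz_le k
    have h3 : zz_K5 ((Fin.last N, false) : Fin (N+1) × Bool) = 2 * N + 1 := by simp [zz_K5]
    rw [h3]
    exact_mod_cast this
  · rintro k l ⟨m, h⟩
    exact ⟨m, h.symm⟩
  · rintro k l ⟨h1, h2⟩
    exact ⟨h1.symm, h2.symm⟩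
  · rintro k l ⟨m, ⟨rfl, rfl⟩ | ⟨rfl, rfl⟩⟩
    · refine ⟨by simp [pp], rfl, rfl, ?_, ?_⟩ <;> simp [pp, Pc.s0, Pc.s1, Pc.pt]
    · refine ⟨by simp [pp], rfl, rfl, ?_, ?_⟩ <;> simp [pp, Pc.s0, Pc.s1, Pc.pt]
  · rintro ⟨m, b⟩ ⟨m', b'⟩ ⟨h1, h2⟩
    simp only at h1 h2
    subst h1
    have e0t := pt_e0t H h g hR m
    have e0f := pt_e0f H h g m
    have e1t := pt_e1t H h g m
    have e1f := pt_e1f H h g m
    have hO := O_const (h := h) g hR hk m
    cases b <;> cases b'
    · exact absurd rfl h2
    · exact ⟨by simp [pp], rfl, rfl, rfl, rfl, by rw [e0t, e0f], by rw [e1t, e1f, hO]⟩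
    · exact ⟨by simp [pp], rfl, rfl, rfl, rfl, by rw [e0t, e0f], by rw [e1t, e1f, hO]⟩
    · exact absurd rfl h2
  · rintro ⟨m, b⟩
    cases b
    · exact ⟨(m + 1, true), m, Or.inl ⟨rfl, rfl⟩⟩
    · exact ⟨(m - 1, false), m - 1, Or.inr ⟨rfl, by simp⟩⟩
  · rintro ⟨m, b⟩
    exact ⟨(m, !b), rfl, by simp⟩
  · rintro ⟨m, b⟩
    left
    refine ⟨(outer (g m), (m, true), (m, false)), List.mem_ofFn.2 ⟨m, rfl⟩, ?_⟩
    cases b <;> simp
  · rintro ⟨m, b⟩
    left
    cases b <;> rfl
  · intro k l k' l' h1 h2 h3 h4 h5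
    have h3' : zz_K5 k < zz_K5 k' := by exact_mod_cast h3
    have h4' : zz_K5 k' < zz_K5 l := by exact_mod_cast h4
    have h5' : zz_K5 l < zz_K5 l' := by exact_mod_cast h5
    have := rS_z h1 (by omega)
    have := zz_le l'
    omega
  · intro k l m h1 h2 h3
    have h2' : zz_K5 k < zz_K5 m := by exact_mod_cast h2
    have h3' : zz_K5 m < zz_K5 l := by exact_mod_cast h3
    have := rB_z h1 (by omega)
    omega
  · intro k l h1 e he
    constructor
    · rintro ⟨h2, h3⟩
      have h2' : zz_K5 k < zz_K5 e.2.1 := by exact_mod_cast h2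
      have h3' : zz_K5 e.2.1 < zz_K5 l := by exact_mod_cast h3
      have := rB_z h1 (by omega)
      omega
    · rintro ⟨h2, h3⟩
      have h2' : zz_K5 k < zz_K5 e.2.2 := by exact_mod_cast h2
      have h3' : zz_K5 e.2.2 < zz_K5 l := by exact_mod_cast h3
      have := rB_z h1 (by omega)
      omega
  · intro x hx
    have hbt : ∀ m, (pp H h g (m, true)).bd = [tt g (m - 1), (g m).1, OO h g m, OO h g m] := by
      intro m
      have hs : (pp H h g (m, true)).s = true := rfl
      rw [Pc.bd, if_pos hs, pt_s0t, pt_e0t H h g hR, pt_e1t, pt_s1t, O_const g hR hk]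
    have hbf : ∀ m, (pp H h g (m, false)).bd = [(g m).1, tt g m, OO h g m, OO h g m] := by
      intro m
      have hs : ¬ (pp H h g (m, false)).s = true := by simp [pp]
      rw [Pc.bd, if_neg hs, pt_s0f, pt_e0f, pt_e1f, pt_s1f]
    have hwt : ∀ m, wnd x (pp H h g (m, true)).bd = ang x (tt g (m - 1)) (g m).1
        + ang x (g m).1 (OO h g m) + ang x (OO h g m) (tt g (m - 1)) := by
      intro m
      rw [hbt]
      simp [wnd, cyc, List.rotate, ang_self]
      ring
    have hwf : ∀ m, wnd x (pp H h g (m, false)).bd = ang x (g m).1 (tt g m)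
        + ang x (tt g m) (OO h g m) + ang x (OO h g m) (g m).1 := by
      intro m
      rw [hbf]
      simp [wnd, cyc, List.rotate, ang_self]
      ring
    have hst : ∀ m, x ∉ segment ℝ (tt g (m - 1)) (g m).1 ∧ x ∉ segment ℝ (g m).1 (OO h g m) ∧
        x ∉ segment ℝ (OO h g m) (tt g (m - 1)) := by
      intro m
      have := hx (m, true)
      simp only [hbt, curve, cyc, List.rotate] at this
      simp at this
      tauto
    have hsf : ∀ m, x ∉ segment ℝ (g m).1 (tt g m) ∧ x ∉ segment ℝ (tt g m) (OO h g m) ∧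
        x ∉ segment ℝ (OO h g m) (g m).1 := by
      intro m
      have := hx (m, false)
      simp only [hbf, curve, cyc, List.rotate] at this
      simp at this
      tauto
    have hrhs : wnd x (((List.ofFn g).map outer).map Prod.fst) =
        ∑ m : Fin (N + 1), ang x (g m).1 (g (m + 1)).1 := by
      rw [List.map_ofFn, List.map_ofFn, wnd, cyc_ofFn_K5, List.map_ofFn, List.sum_ofFn]
      rfl
    rw [hrhs]
    have hlhs : (∑ k ∈ (inferInstance : Fintype (Fin (N + 1) × Bool)).elems, wnd x (pp H h g k).bd)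
        = ∑ k : Fin (N + 1) × Bool, wnd x (pp H h g k).bd := rfl
    rw [hlhs, Fintype.sum_prod_type]
    simp only [Fintype.sum_bool, hwt, hwf]
    have hre : ∑ m : Fin (N + 1), (ang x (tt g (m - 1)) (g m).1 + ang x (OO h g m) (tt g (m - 1)))
        = ∑ m : Fin (N + 1), (ang x (tt g m) (g (m + 1)).1 + ang x (OO h g m) (tt g m)) := by
      rw [← Equiv.sum_comp (Equiv.addRight (1 : Fin (N + 1)))]
      apply Finset.sum_congr rfl
      intro m _
      have := O_const g hR hk (m + 1)
      rw [add_sub_cancel_right] at this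
      simp only [Equiv.coe_addRight, add_sub_cancel_right]
      rw [this]
    calc _ = ∑ m : Fin (N + 1), ((ang x (tt g (m - 1)) (g m).1 + ang x (OO h g m) (tt g (m - 1)))
          + (ang x (g m).1 (tt g m) + ang x (tt g m) (OO h g m))) := by
          apply Finset.sum_congr rfl
          intro m _
          have := ang_symm (hst m).2.1
          linarith
      _ = ∑ m : Fin (N + 1), ((ang x (tt g m) (g (m + 1)).1 + ang x (OO h g m) (tt g m))
          + (ang x (g m).1 (tt g m) + ang x (tt g m) (OO h g m))) := by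
          rw [Finset.sum_add_distrib, hre, ← Finset.sum_add_distrib]
      _ = ∑ m : Fin (N + 1), ang x (g m).1 (g (m + 1)).1 := by
          apply Finset.sum_congr rfl
          intro m _
          have h1 := ang_symm (hsf m).2.1
          have h2 := (hst (m + 1)).1
          rw [add_sub_cancel_right] at h2
          have h3 : tt g m ∈ segment ℝ (g m).1 (g (m + 1)).1 := by
            obtain ⟨-, e1, -, e2⟩ := hR m
            have e3 := (hR (m + 1)).2.2.2
            have e4 : 0 < (g m).2.1 + (g (m + 1)).2.1 := by linarith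
            have e5 : (((g m).2.1 + (g (m + 1)).2.1 : ℝ) : ℂ) ≠ 0 := by exact_mod_cast e4.ne'
            refine ⟨(g (m + 1)).2.1 / ((g m).2.1 + (g (m + 1)).2.1),
              (g m).2.1 / ((g m).2.1 + (g (m + 1)).2.1), by positivity, by positivity, ?_, ?_⟩
            · field_simp; ring
            · have e6 : (g (m + 1)).1 = (g m).1 +
                (((g m).2.1 + (g (m + 1)).2.1 : ℝ) : ℂ) * (g m).2.2.2 := by
                linear_combination e1
              rw [e6, tt]
              simp only [Complex.real_smul]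
              push_cast at e5 ⊢
              field_simp
              ring
          have h4 := ang_add_K5 (hsf m).1 h2 h3
          linarith

end

end Pool.Agent.Helper22.FC
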