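import Pool.Agent.Helper22.FC.Base

namespace Pool.Agent.Helper22.FC

open Complex

noncomputable section

theorem isClosed_seg (x y : ℂ) : IsClosed (segment ℝ x y) := by
  rw [segment_eq_image]
  exact (isCompact_Icc.image (by fun_prop)).isClosed

theorem ex_ball (b : ℂ) : ∀ L : List (ℂ × ℂ), (∀ e ∈ L, b ∉ segment ℝ e.1 e.2) →
    ∃ r > 0, ∀ e ∈ L, ∀ x : ℂ, ‖x - b‖ < r → x ∉ segment ℝ e.1 e.2
  | [], _ => ⟨1, one_pos, by simp⟩
  | e :: L, h => by
    obtain ⟨r, hr, h1⟩ := ex_ball b L (fun e he => h e (List.mem_cons_of_mem _ he))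
    obtain ⟨ε, hε, h2⟩ := Metric.isOpen_iff.1 (isClosed_seg e.1 e.2).isOpen_compl b
      (h e List.mem_cons_self)
    refine ⟨min r ε, lt_min hr hε, ?_⟩
    intro e' he' x hx
    rcases List.mem_cons.1 he' with rfl | he'
    · have : x ∈ Metric.ball b ε := by
        rw [Metric.mem_ball, dist_eq_norm]; exact hx.trans_le (min_le_right _ _)
      exact h2 this
    · exact h1 e' he' x (hx.trans_le (min_le_left _ _))

theorem cyc_eq (a b c : ℂ) (M : List ℂ) :
    cyc ([b, c] ++ M ++ [a]) = (b, c) :: ((c :: M).zip (M ++ [a]) ++ [(a, b)]) := by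
  have h1 : ([b, c] ++ M ++ [a]).rotate 1 = c :: ((M ++ [a]) ++ [b]) := by
    simp
  have h2 : [b, c] ++ M ++ [a] = b :: ((c :: M) ++ [a]) := by simp
  unfold cyc
  rw [h1, h2, List.zip_cons_cons, List.zip_append (by simp)]
  rfl

theorem near_extreme (W : WndFacts) {a b c u : ℂ} {M : List ℂ} (hV : SimpleL ([b, c] ++ M ++ [a]))
    (hu : ∀ v ∈ [c] ++ M ++ [a], 0 < ((v - b) * (starRingEnd ℂ) u).re) :
    side a b c ≠ 0 ∧ ∃ δ > 0,
      (∀ x, ‖x - b‖ < δ → (∃ α β : ℝ, 0 < α ∧ 0 < β ∧ x = b + α * (c - b) + β * (a - b)) →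
        x ∉ curve ([b, c] ++ M ++ [a]) ∧
        wnd x ([b, c] ++ M ++ [a]) = if 0 < side a b c then 2 * Real.pi else - (2 * Real.pi)) ∧
      (∀ x, ‖x - b‖ < δ → (¬ ∃ α β : ℝ, 0 ≤ α ∧ 0 ≤ β ∧ x = b + α * (c - b) + β * (a - b)) →
        x ∉ curve ([b, c] ++ M ++ [a]) ∧ wnd x ([b, c] ++ M ++ [a]) = 0) := by
  obtain ⟨hlen, hnd, hseg⟩ := hV
  have hcyc := cyc_eq a b c M
  set V := [b, c] ++ M ++ [a] with hVdef
  have hVmem : ∀ v ∈ V, v = b ∨ v ∈ [c] ++ M ++ [a] := by
    intro v hv
    rw [hVdef] at hv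
    simp only [List.cons_append, List.nil_append, List.mem_cons, List.mem_append,
      List.not_mem_nil, or_false] at hv ⊢
    tauto
  have hnd' : (b :: ((c :: M) ++ [a])).Nodup := by
    have : V = b :: ((c :: M) ++ [a]) := by rw [hVdef]; simp
    rwa [this] at hnd
  have hb1 : b ∉ (c :: M) ++ [a] := (List.nodup_cons.1 hnd').1
  have hnd2 : ((c :: M) ++ [a]).Nodup := (List.nodup_cons.1 hnd').2
  have hbc : b ≠ c := fun h => hb1 (by rw [h]; simp)
  have hba : b ≠ a := fun h => hb1 (by rw [h]; simp)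
  have hca : c ≠ a := by
    intro h
    have := (List.nodup_append.1 hnd2).2.2 c (by simp) a (by simp)
    exact this h
  have hebc : (b, c) ∈ cyc V := by rw [hcyc]; exact List.mem_cons_self
  have heab : (a, b) ∈ cyc V := by
    rw [hcyc]; exact List.mem_cons_of_mem _ (List.mem_append_right _ (by simp))
  have hne : ((b, c) : ℂ × ℂ) ≠ (a, b) := fun h => hba (congrArg Prod.fst h)
  -- the other edges
  have hR : ∀ e ∈ (c :: M).zip (M ++ [a]), e ∈ cyc V ∧ e.1 ≠ b ∧ e.2 ≠ b := by
    intro e he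
    refine ⟨by rw [hcyc]; exact List.mem_cons_of_mem _ (List.mem_append_left _ he), ?_, ?_⟩
    · have h1 := (List.of_mem_zip (a := e.1) (b := e.2) (by simpa using he)).1
      intro h
      exact hb1 (List.mem_append_left _ (h ▸ h1))
    · have h1 := (List.of_mem_zip (a := e.1) (b := e.2) (by simpa using he)).2
      intro h
      rw [h] at h1
      apply hb1
      simp only [List.cons_append, List.mem_cons, List.mem_append] at h1 ⊢
      tauto
  have hRb : ∀ e ∈ (c :: M).zip (M ++ [a]), b ∉ segment ℝ e.1 e.2 := by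
    intro e he hb
    obtain ⟨h1, h2, h3⟩ := hR e he
    have h4 : e ≠ (b, c) := fun h => h2 (congrArg Prod.fst h)
    have h5 := (hseg e h1 (b, c) hebc h4 ⟨hb, left_mem_segment ℝ b c⟩).1
    rcases h5 with h5 | h5
    · exact h2 h5.symm
    · exact h3 h5.symm
  obtain ⟨r, hr, hball⟩ := ex_ball b _ hRb
  -- points of the curve near b
  have hsegbc : ∀ x, x ∈ segment ℝ b c → ∃ t : ℝ, 0 ≤ t ∧ t ≤ 1 ∧ x = b + t * (c - b) := by
    rintro x ⟨s, t, hs, ht, hst, rfl⟩
    refine ⟨t, ht, by linarith, ?_⟩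
    have : (s : ℂ) = 1 - t := by
      rw [eq_sub_iff_add_eq, ← Complex.ofReal_add, hst, Complex.ofReal_one]
    rw [Complex.real_smul, Complex.real_smul, this]; ring
  have hsegab : ∀ x, x ∈ segment ℝ a b → ∃ t : ℝ, 0 ≤ t ∧ t ≤ 1 ∧ x = b + t * (a - b) := by
    rintro x ⟨s, t, hs, ht, hst, rfl⟩
    refine ⟨s, hs, by linarith, ?_⟩
    have : (t : ℂ) = 1 - s := by
      rw [eq_sub_iff_add_eq, ← Complex.ofReal_add, add_comm t s, hst, Complex.ofReal_one]
    rw [Complex.real_smul, Complex.real_smul, this]; ring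
  have hcurve : ∀ x, x ∈ curve V → ‖x - b‖ < r →
      (∃ t : ℝ, 0 ≤ t ∧ x = b + t * (c - b)) ∨ (∃ t : ℝ, 0 ≤ t ∧ x = b + t * (a - b)) := by
    rintro x ⟨e, he, hx⟩ hxr
    rw [hcyc] at he
    rcases List.mem_cons.1 he with rfl | he
    · obtain ⟨t, h1, -, h2⟩ := hsegbc x hx
      exact Or.inl ⟨t, h1, h2⟩
    · rcases List.mem_append.1 he with he | he
      · exact absurd hx (hball e he x hxr)
      · rw [List.mem_singleton] at he
        subst he
        obtain ⟨t, h1, -, h2⟩ := hsegab x hx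
        exact Or.inr ⟨t, h1, h2⟩
  -- the linear functional
  obtain ⟨ip, hip⟩ : ∃ ip : ℂ → ℝ, ∀ v, ip v = (v * (starRingEnd ℂ) u).re := ⟨_, fun _ => rfl⟩
  have ip_add : ∀ v w, ip (v + w) = ip v + ip w := by
    intro v w; rw [hip, hip, hip, add_mul, Complex.add_re]
  have ip_sub : ∀ v w, ip (v - w) = ip v - ip w := by
    intro v w; rw [hip, hip, hip, sub_mul, Complex.sub_re]
  have ip_mul : ∀ (t : ℝ) v, ip (t * v) = t * ip v := by
    intro t v; rw [hip, hip, mul_assoc, Complex.re_ofReal_mul]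
  have ip_le : ∀ v, |ip v| ≤ ‖v‖ * ‖u‖ := by
    intro v
    rw [hip]
    refine (Complex.abs_re_le_norm _).trans ?_
    rw [norm_mul, Complex.norm_conj]
  obtain ⟨p, hp⟩ : ∃ p, a - b = p := ⟨_, rfl⟩
  obtain ⟨q, hq⟩ : ∃ q, c - b = q := ⟨_, rfl⟩
  have hipp : 0 < ip p := by rw [hip, ← hp]; exact hu a (by simp)
  have hipq : 0 < ip q := by rw [hip, ← hq]; exact hu c (by simp)
  have hp0 : p ≠ 0 := by rintro rfl; rw [hip] at hipp; simp at hipp
  have hq0 : q ≠ 0 := by rintro rfl; rw [hip] at hipq; simp at hipq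
  have hu0 : 0 < ‖u‖ := by
    rw [norm_pos_iff]; rintro rfl; rw [hip] at hipp; simp at hipp
  have hside : side a b c = (p * (starRingEnd ℂ) q).im := by
    rw [← hp, ← hq]
    simp only [side, Complex.mul_im, Complex.sub_re, Complex.sub_im, Complex.conj_re,
      Complex.conj_im]
    ring
  have hd : side a b c ≠ 0 := by
    intro h0
    rw [hside] at h0
    -- q = s p
    have hs : ∃ s : ℝ, q = s * p := by
      refine ⟨(q * (starRingEnd ℂ) p).re / Complex.normSq p, ?_⟩
      have hn : (Complex.normSq p : ℂ) ≠ 0 := by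
        rw [Ne, Complex.ofReal_eq_zero, Complex.normSq_eq_zero]; exact hp0
      have h1 : q * (starRingEnd ℂ) p = ((q * (starRingEnd ℂ) p).re : ℂ) := by
        apply Complex.ext
        · simp
        · rw [Complex.ofReal_im]
          simp only [Complex.mul_im, Complex.conj_re, Complex.conj_im] at h0 ⊢
          linarith
      rw [Complex.ofReal_div, ← h1, div_mul_eq_mul_div, eq_div_iff hn, ← Complex.mul_conj]
      ring
    obtain ⟨s, hs⟩ := hs
    have hs0 : 0 < s := by
      rw [hs, ip_mul] at hipq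
      exact (pos_iff_pos_of_mul_pos hipq).2 hipp
    rcases le_total s 1 with h1 | h1
    · -- c in segment a b
      have hc : c ∈ segment ℝ a b := by
        refine ⟨s, 1 - s, hs0.le, by linarith, by ring, ?_⟩
        rw [Complex.real_smul, Complex.real_smul]
        push_cast
        have : c = b + s * (a - b) := by rw [hp, ← hs, ← hq]; ring
        rw [this]; ring
      have h2 := (hseg (b, c) hebc (a, b) heab hne ⟨right_mem_segment ℝ b c, hc⟩).2
      rcases h2 with h2 | h2
      · exact hca h2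
      · exact hbc h2.symm
    · have ha : a ∈ segment ℝ b c := by
        refine ⟨1 - s⁻¹, s⁻¹, by rw [sub_nonneg]; exact inv_le_one_of_one_le₀ h1, by positivity,
          by ring, ?_⟩
        rw [Complex.real_smul, Complex.real_smul]
        push_cast
        have h3 : a = b + (s : ℂ)⁻¹ * (c - b) := by
          rw [hq, hs, ← mul_assoc, inv_mul_cancel₀ (by exact_mod_cast hs0.ne'), one_mul, ← hp]
          ring
        rw [h3]; ring
      have h2 := (hseg (b, c) hebc (a, b) heab hne ⟨ha, left_mem_segment ℝ a b⟩).1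
      rcases h2 with h2 | h2
      · exact hba h2.symm
      · exact hca h2.symm
  have hd' : (p * (starRingEnd ℂ) q).im ≠ 0 := by rwa [← hside]
  -- coordinates
  have huniq : ∀ α β α' β' : ℝ, (α : ℂ) * q + β * p = α' * q + β' * p → α = α' ∧ β = β' := by
    intro α β α' β' h
    have h1 := congrArg (fun z : ℂ => (z * (starRingEnd ℂ) q).im) h
    have h2 := congrArg (fun z : ℂ => (z * (starRingEnd ℂ) p).im) h
    simp only [Complex.mul_im, Complex.mul_re, Complex.add_re, Complex.add_im, Complex.conj_re,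
      Complex.conj_im, Complex.ofReal_re, Complex.ofReal_im] at h1 h2 hd'
    constructor
    · have : (α - α') * (p.re * -q.im + p.im * q.re) = 0 := by linarith
      rcases mul_eq_zero.1 this with h3 | h3
      · linarith
      · exact absurd h3 hd'
    · have : (β - β') * (p.re * -q.im + p.im * q.re) = 0 := by linarith
      rcases mul_eq_zero.1 this with h3 | h3
      · linarith
      · exact absurd h3 hd'
  rw [hp, hq]
  refine ⟨hd, ?_⟩
  simp only [hp, hq] at hcurve
  -- outside the cone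
  set w := q + p with hw
  have hipw : 0 < ip w := by rw [hw, ip_add]; linarith
  have hout : ∀ x, ‖x - b‖ < r →
      (¬ ∃ α β : ℝ, 0 ≤ α ∧ 0 ≤ β ∧ x = b + α * q + β * p) → x ∉ curve V := by
    intro x hxr hx hxc
    rcases hcurve x hxc hxr with ⟨t, ht, hxt⟩ | ⟨t, ht, hxt⟩
    · exact hx ⟨t, 0, ht, le_rfl, by rw [hxt]; simp⟩
    · exact hx ⟨0, t, le_rfl, ht, by rw [hxt]; simp⟩
  set C := 2 * ‖u‖ / ip w with hC
  have hCpos : 0 < C := by rw [hC]; positivity
  set δ := r / (1 + C * ‖w‖) with hδ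
  have hden : 0 < 1 + C * ‖w‖ := by positivity
  have hδpos : 0 < δ := by rw [hδ]; positivity
  have hδr : δ ≤ r := by
    rw [hδ]; apply div_le_self hr.le
    have : 0 ≤ C * ‖w‖ := by positivity
    linarith
  have hmain0 : ∀ x, ‖x - b‖ < δ →
      (¬ ∃ α β : ℝ, 0 ≤ α ∧ 0 ≤ β ∧ x = b + α * q + β * p) → x ∉ curve V ∧ wnd x V = 0 := by
    intro x hxδ hx
    refine ⟨hout x (hxδ.trans_le hδr) hx, ?_⟩
    have hxb : 0 < ‖x - b‖ := by
      rw [norm_pos_iff, sub_ne_zero]
      rintro rfl
      exact hx ⟨0, 0, le_rfl, le_rfl, by simp⟩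
    set t := C * ‖x - b‖ with ht
    have htpos : 0 < t := by rw [ht]; positivity
    set z := x - t * w with hz
    have hS : Disjoint (segment ℝ x z) (curve V) := by
      rw [Set.disjoint_left]
      rintro y ⟨s1, s2, h1, h2, h12, rfl⟩
      have hy : s1 • x + s2 • z = x - ((s2 * t : ℝ) : ℂ) * w := by
        rw [Complex.real_smul, Complex.real_smul, hz]
        have : (s1 : ℂ) = 1 - s2 := by
          rw [eq_sub_iff_add_eq, ← Complex.ofReal_add, h12, Complex.ofReal_one]
        rw [this]; push_cast; ring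
      rw [hy]
      apply hout
      · have h3 : x - ((s2 * t : ℝ) : ℂ) * w - b = (x - b) - ((s2 * t : ℝ) : ℂ) * w := by ring
        rw [h3]
        calc ‖(x - b) - ((s2 * t : ℝ) : ℂ) * w‖ ≤ ‖x - b‖ + ‖((s2 * t : ℝ) : ℂ) * w‖ :=
              norm_sub_le _ _
          _ = ‖x - b‖ + s2 * t * ‖w‖ := by
              rw [norm_mul, Complex.norm_real, Real.norm_of_nonneg (by positivity)]
          _ ≤ ‖x - b‖ + 1 * t * ‖w‖ := by
              have : s2 ≤ 1 := by linarith
              gcongr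
          _ = ‖x - b‖ * (1 + C * ‖w‖) := by rw [ht]; ring
          _ < δ * (1 + C * ‖w‖) := by
              exact mul_lt_mul_of_pos_right hxδ hden
          _ = r := by rw [hδ]; field_simp
      · rintro ⟨α, β, hα, hβ, h3⟩
        refine hx ⟨α + s2 * t, β + s2 * t, by positivity, by positivity, ?_⟩
        have h4 : x = b + α * q + β * p + ((s2 * t : ℝ) : ℂ) * w := by rw [← h3]; ring
        rw [h4, hw]; push_cast; ring
    have hconst := W.const (V := V) (convex_segment x z).isPreconnected hS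
      (left_mem_segment ℝ x z) (right_mem_segment ℝ x z)
    rw [hconst]
    apply W.half (u := u)
    intro v hv
    have hbz : 0 < ip (b - z) := by
      have h1 : b - z = (t : ℂ) * w - (x - b) := by rw [hz]; ring
      rw [h1, ip_sub, ip_mul]
      have h2 : t * ip w = 2 * ‖u‖ * ‖x - b‖ := by
        rw [ht, hC]; field_simp
      have h3 := (abs_le.1 (ip_le (x - b))).2
      have h4 : 0 < ‖u‖ * ‖x - b‖ := by positivity
      rw [h2]
      nlinarith
    have hvb : 0 ≤ ip (v - b) := by
      rcases hVmem v hv with rfl | hv'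
      · rw [sub_self, hip]; simp
      · rw [hip]; exact (hu v hv').le
    have h5 : v - z = (v - b) + (b - z) := by ring
    rw [← hip, h5, ip_add]
    linarith
  refine ⟨δ, hδpos, ?_, hmain0⟩
  -- inside the sector
  set S : Set ℂ := {x | ‖x - b‖ < δ ∧ ∃ α β : ℝ, 0 < α ∧ 0 < β ∧ x = b + α * q + β * p} with hSdef
  have hSconv : Convex ℝ S := by
    rintro x ⟨hx1, α, β, hα, hβ, hx2⟩ y ⟨hy1, α', β', hα', hβ', hy2⟩ s t hs ht hst
    have hst' : (s : ℂ) + t = 1 := by rw [← Complex.ofReal_add, hst, Complex.ofReal_one]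
    refine ⟨?_, s * α + t * α', s * β + t * β', ?_, ?_, ?_⟩
    · have h1 := convex_ball b δ (x := x) (by rw [Metric.mem_ball, dist_eq_norm]; exact hx1)
        (y := y) (by rw [Metric.mem_ball, dist_eq_norm]; exact hy1) hs ht hst
      rw [Metric.mem_ball, dist_eq_norm] at h1
      exact h1
    · rcases hs.lt_or_eq with h | h
      · have := mul_pos h hα
        have := mul_nonneg ht hα'.le
        linarith
      · have : t = 1 := by linarith
        rw [← h, this]; linarith
    · rcases hs.lt_or_eq with h | h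
      · have := mul_pos h hβ
        have := mul_nonneg ht hβ'.le
        linarith
      · have : t = 1 := by linarith
        rw [← h, this]; linarith
    · rw [Complex.real_smul, Complex.real_smul, hx2, hy2]
      have : (s : ℂ) = 1 - t := by rw [← hst']; ring
      push_cast
      rw [this]; ring
  have hSdisj : Disjoint S (curve V) := by
    rw [Set.disjoint_left]
    rintro x ⟨hx1, α, β, hα, hβ, hx2⟩ hxc
    rcases hcurve x hxc (hx1.trans_le hδr) with ⟨t, ht, hxt⟩ | ⟨t, ht, hxt⟩
    · have h1 : (α : ℂ) * q + β * p = t * q + ((0 : ℝ) : ℂ) * p := by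
        have : b + (α : ℂ) * q + β * p = b + t * q := by rw [← hx2, ← hxt]
        have h2 : (α : ℂ) * q + β * p = t * q := by
          linear_combination this
        rw [h2]; simp
      exact hβ.ne' (huniq _ _ _ _ h1).2
    · have h1 : (α : ℂ) * q + β * p = ((0 : ℝ) : ℂ) * q + t * p := by
        have : b + (α : ℂ) * q + β * p = b + t * p := by rw [← hx2, ← hxt]
        have h2 : (α : ℂ) * q + β * p = t * p := by
          linear_combination this
        rw [h2]; simp
      exact hα.ne' (huniq _ _ _ _ h1).1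
  -- a point near b on the edge b c
  have hqn : 0 < ‖q‖ := norm_pos_iff.2 hq0
  have hpn : 0 < ‖p‖ := norm_pos_iff.2 hp0
  obtain ⟨ε, hε0, hε1, hε2⟩ : ∃ ε : ℝ, 0 < ε ∧ ε < 1 ∧ ε * ‖q‖ < δ / 2 := by
    refine ⟨min (1 / 2) (δ / (4 * ‖q‖)), by positivity, ?_, ?_⟩
    · exact (min_le_left _ _).trans_lt (by norm_num)
    · calc min (1 / 2) (δ / (4 * ‖q‖)) * ‖q‖ ≤ δ / (4 * ‖q‖) * ‖q‖ := by
            gcongr; exact min_le_right _ _
        _ = δ / 4 := by field_simp
        _ < δ / 2 := by linarith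
  set y := b + (ε : ℂ) * q with hy
  have hyseg : y ∈ openSegment ℝ b c := by
    refine ⟨1 - ε, ε, by linarith, hε0, by ring, ?_⟩
    rw [Complex.real_smul, Complex.real_smul, hy, ← hq]; push_cast; ring
  have hyR : ∀ e ∈ ((c :: M).zip (M ++ [a]) ++ [(a, b)]), y ∉ segment ℝ e.1 e.2 := by
    intro e he hye
    have h1 : e ∈ cyc V := by rw [hcyc]; exact List.mem_cons_of_mem _ he
    have h2 : e ≠ (b, c) := by
      rcases List.mem_append.1 he with he | he
      · exact fun h => (hR e he).2.1 (congrArg Prod.fst h)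
      · rw [List.mem_singleton] at he
        rw [he]; exact hne.symm
    have h3 := (hseg e h1 (b, c) hebc h2 ⟨hye, openSegment_subset_segment ℝ b c hyseg⟩).2
    rcases h3 with h3 | h3
    · have : (ε : ℂ) * q = 0 := by
        have h4 : b + (ε : ℂ) * q = b := h3
        linear_combination h4
      rcases mul_eq_zero.1 this with h4 | h4
      · exact hε0.ne' (by exact_mod_cast h4)
      · exact hq0 h4
    · have : ((1 : ℂ) - ε) * q = 0 := by
        have h4 : b + (ε : ℂ) * q = c := h3
        have h5 : c = b + q := by rw [← hq]; ring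
        rw [h5] at h4
        linear_combination -h4
      rcases mul_eq_zero.1 this with h4 | h4
      · have h5 : (ε : ℂ) = ((1 : ℝ) : ℂ) := by rw [Complex.ofReal_one]; linear_combination -h4
        have h6 : ε = 1 := by exact_mod_cast h5
        linarith
      · exact hq0 h4
  obtain ⟨δ1, hδ1, hjump⟩ := W.jump (V := V) hbc (by rw [hcyc]) hyseg hyR
  obtain ⟨η, hη0, hη1, hη2⟩ : ∃ η : ℝ, 0 < η ∧ η * ‖p‖ < δ / 2 ∧ η * ‖p‖ < δ1 := by
    refine ⟨min (δ / 4) (δ1 / 2) / ‖p‖, by positivity, ?_, ?_⟩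
    · rw [div_mul_cancel₀ _ hpn.ne']
      exact (min_le_left _ _).trans_lt (by linarith)
    · rw [div_mul_cancel₀ _ hpn.ne']
      exact (min_le_right _ _).trans_lt (by linarith)
  set x1 := y + (η : ℂ) * p with hx1
  set x2 := y - (η : ℂ) * p with hx2
  have hnη : ‖(η : ℂ) * p‖ = η * ‖p‖ := by
    rw [norm_mul, Complex.norm_real, Real.norm_of_nonneg hη0.le]
  have hnε : ‖(ε : ℂ) * q‖ = ε * ‖q‖ := by
    rw [norm_mul, Complex.norm_real, Real.norm_of_nonneg hε0.le]
  have hx1y : ‖x1 - y‖ < δ1 := by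
    rw [hx1, add_sub_cancel_left, hnη]; exact hη2
  have hx2y : ‖x2 - y‖ < δ1 := by
    rw [hx2, sub_sub_cancel_left, norm_neg, hnη]; exact hη2
  have hx1b : ‖x1 - b‖ < δ := by
    have : x1 - b = (ε : ℂ) * q + (η : ℂ) * p := by rw [hx1, hy]; ring
    rw [this]
    refine (norm_add_le _ _).trans_lt ?_
    rw [hnη, hnε]; linarith
  have hx2b : ‖x2 - b‖ < δ := by
    have : x2 - b = (ε : ℂ) * q - (η : ℂ) * p := by rw [hx2, hy]; ring
    rw [this]
    refine (norm_sub_le _ _).trans_lt ?_
    rw [hnη, hnε]; linarith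
  have hx1S : x1 ∈ S := ⟨hx1b, ε, η, hε0, hη0, rfl⟩
  have hx2K : ¬ ∃ α β : ℝ, 0 ≤ α ∧ 0 ≤ β ∧ x2 = b + α * q + β * p := by
    rintro ⟨α, β, hα, hβ, h⟩
    have h1 : (α : ℂ) * q + β * p = ε * q + ((-η : ℝ) : ℂ) * p := by
      have : b + (ε : ℂ) * q - (η : ℂ) * p = b + α * q + β * p := h
      push_cast
      linear_combination -this
    have := (huniq _ _ _ _ h1).2
    linarith
  have hw2 : wnd x2 V = 0 := (hmain0 x2 hx2b hx2K).2
  have hs1 : side b c x1 = η * side a b c := by
    rw [hside]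
    have : x1 - b = (ε : ℂ) * q + (η : ℂ) * p := by rw [hx1, hy]; ring
    unfold side
    rw [this, hq]
    simp only [Complex.mul_im, Complex.mul_re, Complex.add_re, Complex.add_im, Complex.conj_re,
      Complex.conj_im, Complex.ofReal_re, Complex.ofReal_im]
    ring
  have hs2 : side b c x2 = -(η * side a b c) := by
    rw [hside]
    have : x2 - b = (ε : ℂ) * q - (η : ℂ) * p := by rw [hx2, hy]; ring
    unfold side
    rw [this, hq]
    simp only [Complex.mul_im, Complex.mul_re, Complex.sub_re, Complex.sub_im, Complex.conj_re,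
      Complex.conj_im, Complex.ofReal_re, Complex.ofReal_im]
    ring
  have hw1 : wnd x1 V = if 0 < side a b c then 2 * Real.pi else - (2 * Real.pi) := by
    split_ifs with hpos
    · have h1 := (hjump x1 x2 hx1y hx2y (by rw [hs1]; positivity)
        (by rw [hs2]; have := mul_pos hη0 hpos; linarith)).2.2
      rw [h1, hw2]; ring
    · have hneg : side a b c < 0 := lt_of_le_of_ne (not_lt.1 hpos) hd
      have h1 := (hjump x2 x1 hx2y hx1y
        (by rw [hs2]; have := mul_neg_of_pos_of_neg hη0 hneg; linarith)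
        (by rw [hs1]; exact mul_neg_of_pos_of_neg hη0 hneg)).2.2
      rw [hw2] at h1
      linarith
  intro x hxδ hx
  have hxS : x ∈ S := ⟨hxδ, hx⟩
  refine ⟨fun h => Set.disjoint_left.1 hSdisj hxS h, ?_⟩
  rw [W.const hSconv.isPreconnected hSdisj hxS hx1S, hw1]

end

end Pool.Agent.Helper22.FC
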