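import Pool.Agent.Helper22.FC.Base

namespace Pool.Agent.Helper22.FC

open Complex

noncomputable section

/-- path edges of a list -/
def pe733 {α : Type*} (L : List α) : List (α × α) := L.zip L.tail

theorem pe733_cc {α : Type*} (x y : α) (L : List α) :
    pe733 (x :: y :: L) = (x, y) :: pe733 (y :: L) := rfl

theorem pe733_zip {α : Type*} (L : List α) (x y : α) :
    (x :: L).zip (L ++ [y]) = pe733 (x :: (L ++ [y])) := by
  induction L generalizing x with
  | nil => rfl
  | cons z L ih =>
    have h := ih z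
    simp only [List.cons_append, List.zip_cons_cons, pe733_cc]
    rw [h]

theorem cyc733_cons {α : Type*} (x : α) (L : List α) :
    cyc (x :: L) = pe733 (x :: (L ++ [x])) := by
  unfold cyc
  rw [List.rotate_cons_succ, List.rotate_zero, pe733_zip]

theorem pe733_append {α : Type*} (A B : List α) (x : α) :
    pe733 (A ++ x :: B) = pe733 (A ++ [x]) ++ pe733 (x :: B) := by
  induction A with
  | nil => rfl
  | cons y A ih =>
    cases A with
    | nil => rfl
    | cons z A =>
      simp only [List.cons_append, pe733_cc] at ih ⊢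
      rw [ih]

theorem pe733_mem {α : Type*} {x : α} {L : List α} {e : α × α} (h : e ∈ pe733 (x :: L)) :
    e.1 ∈ x :: L ∧ e.2 ∈ L := by
  obtain ⟨p, q⟩ := e
  exact List.of_mem_zip h

/-- affine coordinates for the triangle -/
structure Co733 (a b c : ℂ) where
  u : ℂ → ℝ
  v : ℂ → ℝ
  rep : ∀ x, x = b + (u x : ℂ) * (c - b) + (v x : ℂ) * (a - b)
  ulin : ∀ (x y : ℂ) (s t : ℝ), s + t = 1 → u (s • x + t • y) = s * u x + t * u y
  vlin : ∀ (x y : ℂ) (s t : ℝ), s + t = 1 → v (s • x + t • y) = s * v x + t * v y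
  ua : u a = 0
  ub : u b = 0
  uc : u c = 1
  va : v a = 1
  vb : v b = 0
  vc : v c = 0

theorem co733 {a b c : ℂ} (hs : side a b c ≠ 0) : Nonempty (Co733 a b c) := by
  refine ⟨⟨fun x => side a b x / side a b c, fun x => side b c x / side a b c, ?_, ?_, ?_, ?_, ?_, ?_, ?_, ?_, ?_⟩⟩
  · intro x
    have h : (side a b c : ℂ) ≠ 0 := by exact_mod_cast hs
    have h2 : (side a b c : ℂ) * x = side a b c * b + side a b x * (c - b) + side b c x * (a - b) := by
      apply Complex.ext
      · simp [side]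
        ring
      · simp [side]
        ring
    push_cast
    field_simp
    linear_combination h2
  · intro x y s t hst
    have ht : t = 1 - s := by linarith
    subst ht
    simp only [side]
    field_simp
    simp
    ring
  · intro x y s t hst
    have ht : t = 1 - s := by linarith
    subst ht
    simp only [side]
    field_simp
    simp
    ring
  · simp [side]
  · have : side a b b = 0 := by simp [side]; ring
    simp [this]
  · exact div_self hs
  · have : side b c a = side a b c := by simp [side]; ring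
    rw [this]
    exact div_self hs
  · simp [side]
  · have : side b c c = 0 := by simp [side]; ring
    simp [this]

namespace Co733

variable {a b c : ℂ} (k : Co733 a b c)

include k

theorem ext733 {x y : ℂ} (h1 : k.u x = k.u y) (h2 : k.v x = k.v y) : x = y := by
  rw [k.rep x, k.rep y, h1, h2]

theorem eq_a {x : ℂ} (h1 : k.u x = 0) (h2 : k.v x = 1) : x = a :=
  k.ext733 (by rw [h1, k.ua]) (by rw [h2, k.va])

theorem eq_c {x : ℂ} (h1 : k.u x = 1) (h2 : k.v x = 0) : x = c :=
  k.ext733 (by rw [h1, k.uc]) (by rw [h2, k.vc])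

theorem eq_b {x : ℂ} (h1 : k.u x = 0) (h2 : k.v x = 0) : x = b :=
  k.ext733 (by rw [h1, k.ub]) (by rw [h2, k.vb])

theorem mem_hull {x : ℂ} : x ∈ convexHull ℝ {a, b, c} ↔ 0 ≤ k.u x ∧ 0 ≤ k.v x ∧ k.u x + k.v x ≤ 1 := by
  constructor
  · intro hx
    have hsub : convexHull ℝ {a, b, c} ⊆ {x | 0 ≤ k.u x ∧ 0 ≤ k.v x ∧ k.u x + k.v x ≤ 1} := by
      apply convexHull_min
      · intro y hy
        simp only [Set.mem_insert_iff, Set.mem_singleton_iff] at hy
        rcases hy with rfl | rfl | rfl
        · show 0 ≤ k.u y ∧ 0 ≤ k.v y ∧ k.u y + k.v y ≤ 1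
          rw [k.ua, k.va]; norm_num
        · show 0 ≤ k.u y ∧ 0 ≤ k.v y ∧ k.u y + k.v y ≤ 1
          rw [k.ub, k.vb]; norm_num
        · show 0 ≤ k.u y ∧ 0 ≤ k.v y ∧ k.u y + k.v y ≤ 1
          rw [k.uc, k.vc]; norm_num
      · intro y hy z hz s t hs ht hst
        obtain ⟨h1, h2, h3⟩ := hy
        obtain ⟨h4, h5, h6⟩ := hz
        show 0 ≤ k.u _ ∧ 0 ≤ k.v _ ∧ k.u _ + k.v _ ≤ 1
        rw [k.ulin _ _ _ _ hst, k.vlin _ _ _ _ hst]
        refine ⟨by positivity, by positivity, ?_⟩
        nlinarith [mul_le_mul_of_nonneg_left h3 hs, mul_le_mul_of_nonneg_left h6 ht]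
    exact hsub hx
  · rintro ⟨h1, h2, h3⟩
    have hc := convex_convexHull ℝ ({a, b, c} : Set ℂ)
    have hmem := hc.sum_mem (t := Finset.univ) (w := ![k.v x, 1 - k.u x - k.v x, k.u x]) (z := ![a, b, c])
      (by
        intro i _
        fin_cases i
        · exact h2
        · show 0 ≤ 1 - k.u x - k.v x
          linarith
        · exact h1)
      (by
        rw [Fin.sum_univ_three]
        show k.v x + (1 - k.u x - k.v x) + k.u x = 1
        ring)
      (by
        intro i _
        apply subset_convexHull ℝ ({a, b, c} : Set ℂ)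
        fin_cases i <;> simp)
    rw [Fin.sum_univ_three] at hmem
    have e : x = ![k.v x, 1 - k.u x - k.v x, k.u x] 0 • ![a, b, c] 0 +
        ![k.v x, 1 - k.u x - k.v x, k.u x] 1 • ![a, b, c] 1 +
        ![k.v x, 1 - k.u x - k.v x, k.u x] 2 • ![a, b, c] 2 := by
      show x = k.v x • a + (1 - k.u x - k.v x) • b + k.u x • c
      rw [Complex.real_smul, Complex.real_smul, Complex.real_smul]
      nth_rw 1 [k.rep x]
      push_cast
      ring
    rw [e]
    exact hmem

theorem seg_bc {x : ℂ} (h0 : k.v x = 0) (h1 : 0 ≤ k.u x) (h2 : k.u x ≤ 1) : x ∈ segment ℝ b c := by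
  refine ⟨1 - k.u x, k.u x, by linarith, h1, by ring, ?_⟩
  nth_rw 3 [k.rep x]
  rw [h0, Complex.real_smul, Complex.real_smul]
  push_cast; ring

theorem seg_ab {x : ℂ} (h0 : k.u x = 0) (h1 : 0 ≤ k.v x) (h2 : k.v x ≤ 1) : x ∈ segment ℝ a b := by
  refine ⟨k.v x, 1 - k.v x, h1, by linarith, by ring, ?_⟩
  nth_rw 3 [k.rep x]
  rw [h0, Complex.real_smul, Complex.real_smul]
  push_cast; ring

/-- Key claim A. -/
theorem claimA {m : ℝ} (hm : 0 ≤ m) {p q : ℂ}
    (hbc : segment ℝ p q ∩ segment ℝ b c ⊆ ({c} : Set ℂ))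
    (hab : segment ℝ p q ∩ segment ℝ a b ⊆ ({a} : Set ℂ))
    (hp : ¬ (p ∈ convexHull ℝ {a, b, c} ∧ m < 1 - k.u p - k.v p))
    (hq : ¬ (q ∈ convexHull ℝ {a, b, c} ∧ m < 1 - k.u q - k.v q))
    {y : ℂ} (hy : y ∈ segment ℝ p q) (hyT : y ∈ convexHull ℝ {a, b, c}) :
    1 - k.u y - k.v y ≤ m := by
  by_contra hcon
  push Not at hcon
  wlog hle : 1 - k.u p - k.v p ≤ 1 - k.u q - k.v q generalizing p q
  · refine this ?_ ?_ hq hp ?_ (le_of_not_ge hle)
    · rwa [segment_symm]
    · rwa [segment_symm]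
    · rwa [segment_symm]
  obtain ⟨s, t, hs, ht, hst, rfl⟩ := hy
  rw [k.ulin _ _ _ _ hst, k.vlin _ _ _ _ hst] at hcon
  have hqm : m < 1 - k.u q - k.v q := by
    have hs' : s = 1 - t := by linarith
    subst hs'
    nlinarith
  have hqT : q ∉ convexHull ℝ {a, b, c} := fun h => hq ⟨h, hqm⟩
  rw [k.mem_hull] at hqT hyT
  obtain ⟨hy1, hy2, hy3⟩ := hyT
  have hmin : min (k.u q) (k.v q) < 0 := by
    by_contra h
    push Not at h
    rw [le_min_iff] at h
    exact hqT ⟨h.1, h.2, by linarith⟩
  set y := s • p + t • q with hydef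
  -- moving point
  have hcont : ContinuousOn (fun r : ℝ => min ((1 - r) * k.u y + r * k.u q) ((1 - r) * k.v y + r * k.v q))
      (Set.Icc 0 1) := by fun_prop
  have hivt := intermediate_value_Icc' (zero_le_one) hcont
  have h0mem : (0:ℝ) ∈ Set.Icc ((fun r : ℝ => min ((1 - r) * k.u y + r * k.u q) ((1 - r) * k.v y + r * k.v q)) 1)
      ((fun r : ℝ => min ((1 - r) * k.u y + r * k.u q) ((1 - r) * k.v y + r * k.v q)) 0) := by
    constructor
    · show min ((1 - (1:ℝ)) * k.u y + 1 * k.u q) ((1 - (1:ℝ)) * k.v y + 1 * k.v q) ≤ 0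
      rw [show (1 - (1:ℝ)) * k.u y + 1 * k.u q = k.u q by ring,
        show (1 - (1:ℝ)) * k.v y + 1 * k.v q = k.v q by ring]
      exact hmin.le
    · show (0:ℝ) ≤ min ((1 - (0:ℝ)) * k.u y + 0 * k.u q) ((1 - (0:ℝ)) * k.v y + 0 * k.v q)
      rw [show (1 - (0:ℝ)) * k.u y + 0 * k.u q = k.u y by ring,
        show (1 - (0:ℝ)) * k.v y + 0 * k.v q = k.v y by ring]
      exact le_min hy1 hy2
  obtain ⟨r, ⟨hr0, hr1⟩, hr⟩ := hivt h0mem
  simp only at hr
  set z := (1 - r) • y + r • q with hz
  have hsum : (1 - r) + r = 1 := by ring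
  have hzu : k.u z = (1 - r) * k.u y + r * k.u q := k.ulin _ _ _ _ hsum
  have hzv : k.v z = (1 - r) * k.v y + r * k.v q := k.vlin _ _ _ _ hsum
  rw [← hzu, ← hzv] at hr
  have hyu : k.u y = s * k.u p + t * k.u q := k.ulin _ _ _ _ hst
  have hyv : k.v y = s * k.v p + t * k.v q := k.vlin _ _ _ _ hst
  have hηy : m < 1 - k.u y - k.v y := by rw [hyu, hyv]; exact hcon
  have hηz : m < 1 - k.u z - k.v z := by
    rw [hzu, hzv]
    have e : 1 - ((1 - r) * k.u y + r * k.u q) - ((1 - r) * k.v y + r * k.v q) - m =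
      (1 - r) * (1 - k.u y - k.v y - m) + r * (1 - k.u q - k.v q - m) := by ring
    have h1 : 0 ≤ (1 - r) * (1 - k.u y - k.v y - m) := mul_nonneg (by linarith) (by linarith)
    have h2 : 0 ≤ r * (1 - k.u q - k.v q - m) := mul_nonneg hr0 (by linarith)
    rcases hr0.lt_or_eq with h | h
    · have h3 : 0 < r * (1 - k.u q - k.v q - m) := mul_pos h (by linarith)
      linarith
    · have h3 : 0 < (1 - r) * (1 - k.u y - k.v y - m) := mul_pos (by linarith) (by linarith)
      linarith
  have hzseg : z ∈ segment ℝ p q := by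
    refine ⟨(1 - r) * s, (1 - r) * t + r, by nlinarith, by nlinarith, by nlinarith, ?_⟩
    rw [hz, hydef]
    module
  have hzu0 : 0 ≤ k.u z := by
    have := min_le_left (k.u z) (k.v z)
    linarith
  have hzv0 : 0 ≤ k.v z := by
    have := min_le_right (k.u z) (k.v z)
    linarith
  rcases min_choice (k.u z) (k.v z) with h | h
  · have hu : k.u z = 0 := by rw [← h]; exact hr
    have hza := hab ⟨hzseg, k.seg_ab hu hzv0 (by linarith)⟩
    have hza' : z = a := hza
    rw [hza', k.ua, k.va] at hηz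
    linarith
  · have hv : k.v z = 0 := by rw [← h]; exact hr
    have hzc := hbc ⟨hzseg, k.seg_bc hv hzu0 (by linarith)⟩
    have hzc' : z = c := hzc
    rw [hzc', k.uc, k.vc] at hηz
    linarith

/-- Case 1 for one edge -/
theorem case1 {p q : ℂ}
    (hbc : segment ℝ p q ∩ segment ℝ b c ⊆ ({p, q} ∩ {c} : Set ℂ))
    (hab : segment ℝ p q ∩ segment ℝ a b ⊆ ({p, q} ∩ {a} : Set ℂ))
    (hp : p ∈ convexHull ℝ {a, b, c} → p = a ∨ p = c)
    (hq : q ∈ convexHull ℝ {a, b, c} → q = a ∨ q = c)
    (hne : ¬ (p = a ∧ q = c)) (hne' : ¬ (p = c ∧ q = a)) (hpq : p ≠ q) :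
    segment ℝ p q ∩ convexHull ℝ {a, b, c} ⊆ ({a, c} : Set ℂ) := by
  rintro y ⟨hy, hyT⟩
  have hηp : p ∈ convexHull ℝ {a, b, c} → 1 - k.u p - k.v p = 0 := by
    intro h
    rcases hp h with h | h
    · rw [h, k.ua, k.va]; ring
    · rw [h, k.uc, k.vc]; ring
  have hηq : q ∈ convexHull ℝ {a, b, c} → 1 - k.u q - k.v q = 0 := by
    intro h
    rcases hq h with h | h
    · rw [h, k.ua, k.va]; ring
    · rw [h, k.uc, k.vc]; ring
  have hbc' : segment ℝ p q ∩ segment ℝ b c ⊆ ({c} : Set ℂ) := fun x hx => (hbc hx).2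
  have hab' : segment ℝ p q ∩ segment ℝ a b ⊆ ({a} : Set ℂ) := fun x hx => (hab hx).2
  have hA : ∀ z ∈ segment ℝ p q, z ∈ convexHull ℝ {a, b, c} → 1 - k.u z - k.v z ≤ 0 := by
    intro z hz hzT
    refine k.claimA le_rfl hbc' hab' ?_ ?_ hz hzT
    · rintro ⟨h1, h2⟩
      rw [hηp h1] at h2
      exact lt_irrefl _ h2
    · rintro ⟨h1, h2⟩
      rw [hηq h1] at h2
      exact lt_irrefl _ h2
  have hy0 := hA y hy hyT
  have hyT' := k.mem_hull.1 hyT
  obtain ⟨hy1, hy2, hy3⟩ := hyT'
  have hyη : k.u y + k.v y = 1 := by linarith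
  by_contra hcon
  have hya : y ≠ a := fun h => hcon (by rw [h]; simp)
  have hyc : y ≠ c := fun h => hcon (by rw [h]; simp)
  have hu0 : 0 < k.u y := by
    rcases hy1.lt_or_eq with h | h
    · exact h
    · exact absurd (k.eq_a h.symm (by linarith)) hya
  have hv0 : 0 < k.v y := by
    rcases hy2.lt_or_eq with h | h
    · exact h
    · exact absurd (k.eq_c (by linarith) h.symm) hyc
  -- no endpoint has positive height
  have hmove : ∀ w ∈ segment ℝ p q, 1 - k.u w - k.v w ≤ 0 := by
    intro w hw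
    by_contra hw0
    push Not at hw0
    -- small step from y towards w
    obtain ⟨ε, hε0, hε1, hεu, hεv⟩ : ∃ ε : ℝ, 0 < ε ∧ ε < 1 ∧ 0 ≤ (1 - ε) * k.u y + ε * k.u w ∧
        0 ≤ (1 - ε) * k.v y + ε * k.v w := by
      set M := |k.u w| + |k.v w| + 1 with hM
      have hMpos : 0 < M := by positivity
      set δ := min (k.u y) (k.v y) with hδ
      have hδ0 : 0 < δ := lt_min hu0 hv0
      have hδu : δ ≤ k.u y := min_le_left _ _
      have hδv : δ ≤ k.v y := min_le_right _ _
      have hu1 : -M ≤ k.u w := by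
        have := neg_abs_le (k.u w)
        have := abs_nonneg (k.v w)
        linarith
      have hv1 : -M ≤ k.v w := by
        have := neg_abs_le (k.v w)
        have := abs_nonneg (k.u w)
        linarith
      refine ⟨δ / (δ + M), by positivity, ?_, ?_, ?_⟩
      · rw [div_lt_one (by positivity)]; linarith
      · have e : (1 - δ / (δ + M)) * k.u y + δ / (δ + M) * k.u w = (M * k.u y + δ * k.u w) / (δ + M) := by
          field_simp; ring
        rw [e]
        apply div_nonneg _ (by positivity)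
        nlinarith
      · have e : (1 - δ / (δ + M)) * k.v y + δ / (δ + M) * k.v w = (M * k.v y + δ * k.v w) / (δ + M) := by
          field_simp; ring
        rw [e]
        apply div_nonneg _ (by positivity)
        nlinarith
    have hsum : (1 - ε) + ε = 1 := by ring
    set z := (1 - ε) • y + ε • w with hz
    have hzu : k.u z = (1 - ε) * k.u y + ε * k.u w := k.ulin _ _ _ _ hsum
    have hzv : k.v z = (1 - ε) * k.v y + ε * k.v w := k.vlin _ _ _ _ hsum
    have hzη : 0 < 1 - k.u z - k.v z := by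
      rw [hzu, hzv]
      nlinarith
    have hzT : z ∈ convexHull ℝ {a, b, c} := by
      rw [k.mem_hull]
      refine ⟨by rw [hzu]; exact hεu, by rw [hzv]; exact hεv, by linarith⟩
    have hzs : z ∈ segment ℝ p q := (convex_segment p q) hy hw (by linarith) hε0.le hsum
    have := hA z hzs hzT
    linarith
  have hp0 := hmove p (left_mem_segment ℝ p q)
  have hq0 := hmove q (right_mem_segment ℝ p q)
  have hyseg := hy
  obtain ⟨s, t, hs, ht, hst, hyst⟩ := hy
  have hyu : k.u y = s * k.u p + t * k.u q := by rw [← hyst]; exact k.ulin _ _ _ _ hst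
  have hyv : k.v y = s * k.v p + t * k.v q := by rw [← hyst]; exact k.vlin _ _ _ _ hst
  have hs0 : 0 < s := by
    rcases hs.lt_or_eq with h | h
    · exact h
    · exfalso
      have ht1 : t = 1 := by linarith
      rw [← h, ht1, zero_smul, one_smul, zero_add] at hyst
      rw [hyst] at hq
      rcases hq hyT with h | h
      · exact hya h
      · exact hyc h
  have ht0 : 0 < t := by
    rcases ht.lt_or_eq with h | h
    · exact h
    · exfalso
      have hs1 : s = 1 := by linarith
      rw [← h, hs1, zero_smul, one_smul, add_zero] at hyst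
      rw [hyst] at hp
      rcases hp hyT with h | h
      · exact hya h
      · exact hyc h
  have hp1 : 1 - k.u p - k.v p = 0 := by
    by_contra hne
    have : 1 - k.u p - k.v p < 0 := lt_of_le_of_ne hp0 hne
    nlinarith
  have hq1 : 1 - k.u q - k.v q = 0 := by
    by_contra hne
    have : 1 - k.u q - k.v q < 0 := lt_of_le_of_ne hq0 hne
    nlinarith
  -- the endpoints on the line ac
  have hpu : k.u p ≤ 0 ∨ 1 ≤ k.u p := by
    by_contra h
    push Not at h
    have hpT : p ∈ convexHull ℝ {a, b, c} := by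
      rw [k.mem_hull]
      exact ⟨by linarith [h.1], by linarith [h.2], by linarith⟩
    rcases hp hpT with h' | h'
    · rw [h', k.ua] at h; linarith [h.1]
    · rw [h', k.uc] at h; linarith [h.2]
  have hqu : k.u q ≤ 0 ∨ 1 ≤ k.u q := by
    by_contra h
    push Not at h
    have hqT : q ∈ convexHull ℝ {a, b, c} := by
      rw [k.mem_hull]
      exact ⟨by linarith [h.1], by linarith [h.2], by linarith⟩
    rcases hq hqT with h' | h'
    · rw [h', k.ua] at h; linarith [h.1]
    · rw [h', k.uc] at h; linarith [h.2]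
  have hyu1 : k.u y < 1 := by linarith
  -- both a and c are on the segment p q
  have hline : ∀ τ : ℝ, ((k.u p ≤ τ ∧ τ ≤ k.u q) ∨ (k.u q ≤ τ ∧ τ ≤ k.u p)) → k.u p ≠ k.u q →
      ∃ z ∈ segment ℝ p q, k.u z = τ ∧ k.v z = 1 - τ := by
    intro τ hτ hne
    have hd : k.u q - k.u p ≠ 0 := fun h => hne (by linarith)
    have hr0 : 0 ≤ (τ - k.u p) / (k.u q - k.u p) := by
      rcases hτ with h | h
      · exact div_nonneg (by linarith [h.1]) (by linarith [h.1, h.2])
      · exact div_nonneg_of_nonpos (by linarith [h.2]) (by linarith [h.1, h.2])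
    have hr1 : (τ - k.u p) / (k.u q - k.u p) ≤ 1 := by
      rcases hτ with h | h
      · have : 0 < k.u q - k.u p := lt_of_le_of_ne (by linarith [h.1, h.2]) (Ne.symm hd)
        rw [div_le_one this]; linarith [h.2]
      · have : k.u q - k.u p < 0 := lt_of_le_of_ne (by linarith [h.1, h.2]) hd
        rw [div_le_one_of_neg this]; linarith [h.1]
    set r := (τ - k.u p) / (k.u q - k.u p) with hr
    have hru : r * (k.u q - k.u p) = τ - k.u p := by rw [hr]; field_simp
    refine ⟨(1 - r) • p + r • q, ⟨1 - r, r, by linarith, hr0, by ring, rfl⟩, ?_, ?_⟩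
    · rw [k.ulin _ _ _ _ (by ring)]; linarith
    · rw [k.vlin _ _ _ _ (by ring)]
      have e1 : k.v p = 1 - k.u p := by linarith
      have e2 : k.v q = 1 - k.u q := by linarith
      rw [e1, e2]; linarith
  have hbetween : (k.u p ≤ 0 ∧ 1 ≤ k.u q) ∨ (k.u q ≤ 0 ∧ 1 ≤ k.u p) := by
    rcases hpu with h1 | h1 <;> rcases hqu with h2 | h2
    · exfalso; nlinarith
    · exact Or.inl ⟨h1, h2⟩
    · exact Or.inr ⟨h2, h1⟩
    · exfalso; nlinarith
  have hupq : k.u p ≠ k.u q := by
    rcases hbetween with h | h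
    · intro h'; linarith [h.1, h.2]
    · intro h'; linarith [h.1, h.2]
  obtain ⟨z1, hz1s, hz1u, hz1v⟩ := hline 0 (by
    rcases hbetween with h | h
    · exact Or.inl ⟨h.1, by linarith [h.2]⟩
    · exact Or.inr ⟨h.1, by linarith [h.2]⟩) hupq
  obtain ⟨z2, hz2s, hz2u, hz2v⟩ := hline 1 (by
    rcases hbetween with h | h
    · exact Or.inl ⟨by linarith [h.1], h.2⟩
    · exact Or.inr ⟨by linarith [h.1], h.2⟩) hupq
  have hz1 : z1 = a := k.eq_a hz1u (by linarith)
  have hz2 : z2 = c := k.eq_c hz2u (by linarith)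
  rw [hz1] at hz1s
  rw [hz2] at hz2s
  have ha := (hab ⟨hz1s, left_mem_segment ℝ a b⟩).1
  have hc := (hbc ⟨hz2s, right_mem_segment ℝ b c⟩).1
  have hac : a ≠ c := by
    intro h
    have h1 : k.u a = k.u c := congrArg k.u h
    rw [k.ua, k.uc] at h1
    norm_num at h1
  simp only [Set.mem_insert_iff, Set.mem_singleton_iff] at ha hc
  rcases ha with ha | ha <;> rcases hc with hc | hc
  · exact hac (ha.trans hc.symm)
  · exact hne ⟨ha.symm, hc.symm⟩
  · exact hne' ⟨hc.symm, ha.symm⟩
  · exact hac (ha.trans hc.symm)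

end Co733

theorem pairs733 (E C : List (ℂ × ℂ)) (f : ℂ × ℂ) (hE : ∀ e ∈ E, e = f ∨ e ∈ C)
    (hC : ∀ e ∈ C, ∀ e' ∈ C, e ≠ e' →
      segment ℝ e.1 e.2 ∩ segment ℝ e'.1 e'.2 ⊆ ({e.1, e.2} ∩ {e'.1, e'.2} : Set ℂ))
    (hf : ∀ e ∈ E, e ≠ f →
      segment ℝ e.1 e.2 ∩ segment ℝ f.1 f.2 ⊆ ({e.1, e.2} ∩ {f.1, f.2} : Set ℂ)) :
    ∀ e ∈ E, ∀ e' ∈ E, e ≠ e' →
      segment ℝ e.1 e.2 ∩ segment ℝ e'.1 e'.2 ⊆ ({e.1, e.2} ∩ {e'.1, e'.2} : Set ℂ) := by
  intro e he e' he' hne
  by_cases h1 : e = f
  · have h2 : e' ≠ f := fun h => hne (h1.trans h.symm)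
    have h3 := hf e' he' h2
    rw [h1]
    rw [Set.inter_comm, Set.inter_comm ({f.1, f.2} : Set ℂ)]
    exact h3
  · by_cases h2 : e' = f
    · rw [h2]; exact hf e he h1
    · exact hC e ((hE e he).resolve_left h1) e' ((hE e' he').resolve_left h2) hne

theorem ear_or_diag {a b c : ℂ} {M : List ℂ} (hV : SimpleL ([b, c] ++ M ++ [a])) (hM : M ≠ [])
    (hs : side a b c ≠ 0) :
    (SimpleL ([c] ++ M ++ [a]) ∧ ∀ e ∈ cyc ([c] ++ M ++ [a]), e ≠ (a, c) →
      segment ℝ e.1 e.2 ∩ convexHull ℝ {a, b, c} ⊆ ({a, c} : Set ℂ)) ∨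
    (∃ (M₁ : List ℂ) (d : ℂ) (M₂ : List ℂ), M = M₁ ++ [d] ++ M₂ ∧
      SimpleL ([b, c] ++ M₁ ++ [d]) ∧ SimpleL ([b, d] ++ M₂ ++ [a]) ∧
      (∃ α β : ℝ, 0 < α ∧ 0 < β ∧ d = b + α * (c - b) + β * (a - b)) ∧
      segment ℝ b d ∩ curve ([b, c] ++ M ++ [a]) ⊆ ({b, d} : Set ℂ)) := by
  classical
  obtain ⟨k⟩ := co733 hs
  obtain ⟨hlen, hnd, hint⟩ := hV
  have hnd' : (b :: c :: (M ++ [a])).Nodup := hnd
  rw [List.nodup_cons, List.nodup_cons, List.nodup_append] at hnd'
  obtain ⟨hb, hc, hMnd, -, haM⟩ := hnd'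
  have hbc : b ≠ c := fun h => hb (by rw [h]; simp)
  have hbM : b ∉ M := fun h => hb (by simp [h])
  have hba : b ≠ a := fun h => hb (by rw [h]; simp)
  have hcM : c ∉ M := fun h => hc (by simp [h])
  have hca : c ≠ a := fun h => hc (by rw [h]; simp)
  have haM' : a ∉ M := fun h => haM a h a (by simp) rfl
  set P := pe733 (c :: (M ++ [a])) with hP
  have hcycV : cyc ([b, c] ++ M ++ [a]) = (b, c) :: (P ++ [(a, b)]) := by
    show cyc (b :: (c :: (M ++ [a]))) = _
    rw [cyc733_cons]
    show pe733 (b :: c :: ((M ++ [a]) ++ [b])) = _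
    rw [pe733_cc]
    congr 1
    have := pe733_append (c :: M) [b] a
    rw [List.append_assoc]
    exact this
  rw [hcycV] at hint
  have hPmem : ∀ e ∈ P, e ∈ (b, c) :: (P ++ [(a, b)]) := by
    intro e he; simp [he]
  have hP1 : ∀ e ∈ P, e.1 ∈ c :: (M ++ [a]) ∧ e.2 ∈ M ++ [a] := fun e he => pe733_mem he
  have hPb : ∀ e ∈ P, b ≠ e.1 ∧ b ≠ e.2 := by
    intro e he
    obtain ⟨h1, h2⟩ := hP1 e he
    refine ⟨fun h => hb (h ▸ h1), fun h => hb ?_⟩
    rw [h]; exact List.mem_cons_of_mem _ h2
  have hPbc : ∀ e ∈ P, segment ℝ e.1 e.2 ∩ segment ℝ b c ⊆ ({e.1, e.2} ∩ {c} : Set ℂ) := by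
    intro e he x hx
    have hne : e ≠ (b, c) := fun h => (hPb e he).1 (by rw [h])
    obtain ⟨h1, h2⟩ := hint e (hPmem e he) (b, c) (by simp) hne hx
    refine ⟨h1, ?_⟩
    rcases h2 with h2 | h2
    · exfalso
      have h2' : x = b := h2
      rw [h2'] at h1
      rcases h1 with h1 | h1
      · exact (hPb e he).1 h1
      · exact (hPb e he).2 h1
    · exact h2
  have hPab : ∀ e ∈ P, segment ℝ e.1 e.2 ∩ segment ℝ a b ⊆ ({e.1, e.2} ∩ {a} : Set ℂ) := by
    intro e he x hx
    have hne : e ≠ (a, b) := fun h => (hPb e he).2 (by rw [h])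
    obtain ⟨h1, h2⟩ := hint e (hPmem e he) (a, b) (by simp) hne hx
    refine ⟨h1, ?_⟩
    rcases h2 with h2 | h2
    · exact h2
    · exfalso
      have h2' : x = b := h2
      rw [h2'] at h1
      rcases h1 with h1 | h1
      · exact (hPb e he).1 h1
      · exact (hPb e he).2 h1
  have hPca : ∀ e ∈ P, ¬ (e.1 = c ∧ e.2 = a) := by
    rintro e he ⟨h1, h2⟩
    obtain ⟨z, M', rfl⟩ := List.exists_cons_of_ne_nil hM
    have he' : e ∈ (c, z) :: pe733 (z :: (M' ++ [a])) := he
    rcases List.mem_cons.1 he' with h | h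
    · rw [h] at h2
      exact haM' (by rw [← h2]; simp)
    · have h3 := (pe733_mem h).1
      rw [h1] at h3
      rw [← List.cons_append, List.mem_append] at h3
      rcases h3 with h3 | h3
      · exact hcM h3
      · exact hca (by simpa using h3)
  have hPac : ∀ e ∈ P, ¬ (e.1 = a ∧ e.2 = c) := by
    rintro e he ⟨-, h2⟩
    have h3 := (hP1 e he).2
    rw [h2] at h3
    exact hc h3
  have hPne : ∀ e ∈ P, e.1 ≠ e.2 := by
    intro e he h
    obtain ⟨p, q⟩ := e
    -- an edge of a nodup path has distinct endpoints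
    have key : ∀ (L : List ℂ), L.Nodup → ∀ e ∈ pe733 L, e.1 ≠ e.2 := by
      intro L
      induction L with
      | nil => intro _ e he; simp [pe733] at he
      | cons x L ih =>
        intro hnd e he
        cases L with
        | nil => simp [pe733] at he
        | cons y L =>
          rw [pe733_cc] at he
          rcases List.mem_cons.1 he with h | h
          · rw [h]
            intro hxy
            have hxy' : x = y := hxy
            rw [List.nodup_cons] at hnd
            exact hnd.1 (by rw [hxy']; simp)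
          · exact ih (List.nodup_cons.1 hnd).2 e h
    exact key _ (List.nodup_cons.1 hnd).2 _ he h
  by_cases hT : ∃ v ∈ M, v ∈ convexHull ℝ {a, b, c}
  · -- Case 2
    right
    obtain ⟨d, hdmem, hdmax⟩ := (M.toFinset.filter (fun v => v ∈ convexHull ℝ {a, b, c})).exists_max_image
      (fun v => 1 - k.u v - k.v v) (by
        obtain ⟨v, hv, hvT⟩ := hT
        exact ⟨v, by simp [hv, hvT]⟩)
    rw [Finset.mem_filter, List.mem_toFinset] at hdmem
    obtain ⟨hdM, hdT⟩ := hdmem
    have hdmax' : ∀ v ∈ M, v ∈ convexHull ℝ {a, b, c} → 1 - k.u v - k.v v ≤ 1 - k.u d - k.v d := by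
      intro v hv hvT
      exact hdmax v (by rw [Finset.mem_filter, List.mem_toFinset]; exact ⟨hv, hvT⟩)
    obtain ⟨M₁, M₂, hMM⟩ := List.append_of_mem hdM
    have hdb : d ≠ b := fun h => hbM (h ▸ hdM)
    have hdc : d ≠ c := fun h => hcM (h ▸ hdM)
    have hda : d ≠ a := fun h => haM' (h ▸ hdM)
    have hPsplit : P = pe733 (c :: (M₁ ++ [d])) ++ pe733 (d :: (M₂ ++ [a])) := by
      have := pe733_append (c :: M₁) (M₂ ++ [a]) d
      rw [hP, hMM, List.append_assoc]
      exact this
    -- an edge of P starting at d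
    obtain ⟨f, hfP, hf1⟩ : ∃ f ∈ P, f.1 = d := by
      cases hM₂ : M₂ with
      | nil =>
        refine ⟨(d, a), ?_, rfl⟩
        rw [hPsplit, hM₂]
        simp [pe733]
      | cons z L =>
        refine ⟨(d, z), ?_, rfl⟩
        rw [hPsplit, hM₂]
        simp [pe733]
    have hdf : d ∈ segment ℝ f.1 f.2 := by rw [← hf1]; exact left_mem_segment ℝ _ _
    obtain ⟨hdu, hdv, hduv⟩ := k.mem_hull.1 hdT
    have hu0 : 0 < k.u d := by
      rcases hdu.lt_or_eq with h | h
      · exact h
      · exfalso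
        have := hPab f hfP ⟨hdf, k.seg_ab h.symm hdv (by linarith)⟩
        exact hda this.2
    have hv0 : 0 < k.v d := by
      rcases hdv.lt_or_eq with h | h
      · exact h
      · exfalso
        have := hPbc f hfP ⟨hdf, k.seg_bc h.symm hdu (by linarith)⟩
        exact hdc this.2
    -- claim A
    have hA : ∀ e ∈ P, ∀ y ∈ segment ℝ e.1 e.2, y ∈ convexHull ℝ {a, b, c} →
        1 - k.u y - k.v y ≤ 1 - k.u d - k.v d := by
      intro e he y hy hyT
      refine k.claimA (by linarith) (fun x hx => (hPbc e he hx).2) (fun x hx => (hPab e he hx).2) ?_ ?_ hy hyT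
      · rintro ⟨h1, h2⟩
        have h3 := (hP1 e he).1
        rw [List.mem_cons, List.mem_append, List.mem_singleton] at h3
        rcases h3 with h3 | h3 | h3
        · rw [h3, k.uc, k.vc] at h2; linarith
        · have := hdmax' _ h3 h1; linarith
        · rw [h3, k.ua, k.va] at h2; linarith
      · rintro ⟨h1, h2⟩
        have h3 := (hP1 e he).2
        rw [List.mem_append, List.mem_singleton] at h3
        rcases h3 with h3 | h3
        · have := hdmax' _ h3 h1; linarith
        · rw [h3, k.ua, k.va] at h2; linarith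
    -- points of the segment b d
    have hseg : ∀ x ∈ segment ℝ b d, ∃ s : ℝ, 0 ≤ s ∧ s ≤ 1 ∧ k.u x = s * k.u d ∧ k.v x = s * k.v d := by
      rintro x ⟨t, s, ht, hs, hts, rfl⟩
      refine ⟨s, hs, by linarith, ?_, ?_⟩
      · rw [k.ulin _ _ _ _ hts, k.ub]; ring
      · rw [k.vlin _ _ _ _ hts, k.vb]; ring
    have hPbd : ∀ e ∈ P, ∀ x ∈ segment ℝ e.1 e.2, x ∈ segment ℝ b d → x = d ∧ x ∈ ({e.1, e.2} : Set ℂ) := by
      intro e he x hx hxbd
      obtain ⟨s, hs0, hs1, hxu, hxv⟩ := hseg x hxbd
      have hxT : x ∈ convexHull ℝ {a, b, c} := by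
        rw [k.mem_hull, hxu, hxv]
        refine ⟨by positivity, by positivity, by nlinarith⟩
      have h1 := hA e he x hx hxT
      rw [hxu, hxv] at h1
      have hs : s = 1 := by
        by_contra hne
        have : s < 1 := lt_of_le_of_ne hs1 hne
        nlinarith
      have hxd : x = d := k.ext733 (by rw [hxu, hs, one_mul]) (by rw [hxv, hs, one_mul])
      refine ⟨hxd, ?_⟩
      by_cases hef : e = f
      · rw [hef, hxd, hf1]; simp
      · rw [hxd] at hx ⊢
        exact (hint e (hPmem e he) f (hPmem f hfP) hef ⟨hx, hdf⟩).1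
    have hbcbd : ∀ x ∈ segment ℝ b c, x ∈ segment ℝ b d → x = b := by
      intro x hx hxbd
      obtain ⟨s, hs0, hs1, hxu, hxv⟩ := hseg x hxbd
      have hv : k.v x = 0 := by
        obtain ⟨t, r, ht, hr, htr, rfl⟩ := hx
        rw [k.vlin _ _ _ _ htr, k.vb, k.vc]; ring
      have hs : s = 0 := by
        rw [hxv] at hv
        rcases mul_eq_zero.1 hv with h | h
        · exact h
        · exact absurd h hv0.ne'
      exact k.eq_b (by rw [hxu, hs, zero_mul]) hv
    have habbd : ∀ x ∈ segment ℝ a b, x ∈ segment ℝ b d → x = b := by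
      intro x hx hxbd
      obtain ⟨s, hs0, hs1, hxu, hxv⟩ := hseg x hxbd
      have hu : k.u x = 0 := by
        obtain ⟨t, r, ht, hr, htr, rfl⟩ := hx
        rw [k.ulin _ _ _ _ htr, k.ub, k.ua]; ring
      have hs : s = 0 := by
        rw [hxu] at hu
        rcases mul_eq_zero.1 hu with h | h
        · exact h
        · exact absurd h hu0.ne'
      exact k.eq_b hu (by rw [hxv, hs, zero_mul])
    refine ⟨M₁, d, M₂, by rw [hMM]; simp, ⟨?_, ?_, ?_⟩, ⟨?_, ?_, ?_⟩, ⟨k.u d, k.v d, hu0, hv0, k.rep d⟩, ?_⟩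
    · simp
    · -- nodup
      refine hnd.sublist ?_
      rw [hMM]
      show (b :: c :: (M₁ ++ [d])).Sublist (b :: c :: ((M₁ ++ d :: M₂) ++ [a]))
      refine List.Sublist.cons_cons _ (List.Sublist.cons_cons _ ?_)
      rw [List.append_assoc]
      refine List.Sublist.append_left ?_ _
      exact List.Sublist.cons_cons _ (List.nil_sublist _)
    · have hE : cyc ([b, c] ++ M₁ ++ [d]) = (b, c) :: (pe733 (c :: (M₁ ++ [d])) ++ [(d, b)]) := by
        show cyc (b :: (c :: (M₁ ++ [d]))) = _
        rw [cyc733_cons]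
        show pe733 (b :: c :: ((M₁ ++ [d]) ++ [b])) = _
        rw [pe733_cc]
        congr 1
        have := pe733_append (c :: M₁) [b] d
        rw [List.append_assoc]
        exact this
      rw [hE]
      refine pairs733 _ _ (d, b) ?_ hint ?_
      · intro e he
        rw [List.mem_cons, List.mem_append, List.mem_singleton] at he
        rcases he with h | h | h
        · right; rw [h]; simp
        · right; exact hPmem e (by rw [hPsplit]; exact List.mem_append_left _ h)
        · left; exact h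
      · intro e he hne
        rw [List.mem_cons, List.mem_append, List.mem_singleton] at he
        rintro x ⟨hx1, hx2⟩
        rw [segment_symm] at hx2
        rcases he with h | h | h
        · rw [h] at hx1 ⊢
          have := hbcbd x hx1 hx2
          rw [this]; simp
        · have heP : e ∈ P := by rw [hPsplit]; exact List.mem_append_left _ h
          obtain ⟨h1, h2⟩ := hPbd e heP x hx1 hx2
          exact ⟨h2, by rw [h1]; simp⟩
        · exact absurd h hne
    · simp
    · refine hnd.sublist ?_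
      rw [hMM]
      show (b :: d :: (M₂ ++ [a])).Sublist (b :: c :: ((M₁ ++ d :: M₂) ++ [a]))
      refine List.Sublist.cons_cons _ (List.Sublist.cons _ ?_)
      rw [List.append_assoc]
      exact List.sublist_append_right _ _
    · have hE : cyc ([b, d] ++ M₂ ++ [a]) = (b, d) :: (pe733 (d :: (M₂ ++ [a])) ++ [(a, b)]) := by
        show cyc (b :: (d :: (M₂ ++ [a]))) = _
        rw [cyc733_cons]
        show pe733 (b :: d :: ((M₂ ++ [a]) ++ [b])) = _
        rw [pe733_cc]
        congr 1
        have := pe733_append (d :: M₂) [b] a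
        rw [List.append_assoc]
        exact this
      rw [hE]
      refine pairs733 _ _ (b, d) ?_ hint ?_
      · intro e he
        rw [List.mem_cons, List.mem_append, List.mem_singleton] at he
        rcases he with h | h | h
        · left; exact h
        · right; exact hPmem e (by rw [hPsplit]; exact List.mem_append_right _ h)
        · right; rw [h]; simp
      · intro e he hne
        rw [List.mem_cons, List.mem_append, List.mem_singleton] at he
        rintro x ⟨hx1, hx2⟩
        rcases he with h | h | h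
        · exact absurd h hne
        · have heP : e ∈ P := by rw [hPsplit]; exact List.mem_append_right _ h
          obtain ⟨h1, h2⟩ := hPbd e heP x hx1 hx2
          exact ⟨h2, by rw [h1]; simp⟩
        · rw [h] at hx1 ⊢
          have := habbd x hx1 hx2
          rw [this]; simp
    · rintro x ⟨hx, e, he, hxe⟩
      rw [hcycV, List.mem_cons, List.mem_append, List.mem_singleton] at he
      rcases he with h | h | h
      · rw [h] at hxe
        rw [hbcbd x hxe hx]; simp
      · rw [(hPbd e h x hxe hx).1]; simp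
      · rw [h] at hxe
        rw [habbd x hxe hx]; simp
  · -- Case 1
    left
    push Not at hT
    have hE : cyc ([c] ++ M ++ [a]) = P ++ [(a, c)] := by
      show cyc (c :: (M ++ [a])) = _
      rw [cyc733_cons]
      have := pe733_append (c :: M) [c] a
      rw [List.append_assoc]
      exact this
    have hcase : ∀ e ∈ P, segment ℝ e.1 e.2 ∩ convexHull ℝ {a, b, c} ⊆ ({a, c} : Set ℂ) := by
      intro e he
      refine k.case1 (hPbc e he) (hPab e he) ?_ ?_ (hPac e he) (hPca e he) (hPne e he)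
      · intro h
        have h3 := (hP1 e he).1
        rw [List.mem_cons, List.mem_append, List.mem_singleton] at h3
        rcases h3 with h3 | h3 | h3
        · exact Or.inr h3
        · exact absurd h (hT _ h3)
        · exact Or.inl h3
      · intro h
        have h3 := (hP1 e he).2
        rw [List.mem_append, List.mem_singleton] at h3
        rcases h3 with h3 | h3
        · exact absurd h (hT _ h3)
        · exact Or.inl h3
    refine ⟨⟨?_, ?_, ?_⟩, ?_⟩
    · obtain ⟨z, M', rfl⟩ := List.exists_cons_of_ne_nil hM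
      simp
    · exact (List.nodup_cons.1 hnd).2
    · rw [hE]
      refine pairs733 _ _ (a, c) ?_ hint ?_
      · intro e he
        rw [List.mem_append, List.mem_singleton] at he
        rcases he with h | h
        · right; exact hPmem e h
        · left; exact h
      · intro e he hne
        rw [List.mem_append, List.mem_singleton] at he
        rcases he with h | h
        · rintro x ⟨hx1, hx2⟩
          have hacT : segment ℝ a c ⊆ convexHull ℝ {a, b, c} :=
            (convex_convexHull ℝ _).segment_subset (subset_convexHull ℝ _ (by simp))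
              (subset_convexHull ℝ _ (by simp))
          have hxac := hcase e h ⟨hx1, hacT hx2⟩
          refine ⟨?_, hxac⟩
          rcases hxac with hx | hx
          · have hx' : x = a := hx
            rw [hx'] at hx1 ⊢
            exact (hPab e h ⟨hx1, left_mem_segment ℝ a b⟩).1
          · have hx' : x = c := hx
            rw [hx'] at hx1 ⊢
            exact (hPbc e h ⟨hx1, right_mem_segment ℝ b c⟩).1
        · exact absurd h hne
    · intro e he hne
      rw [hE, List.mem_append, List.mem_singleton] at he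
      rcases he with h | h
      · exact hcase e h
      · exact absurd h hne

end

end Pool.Agent.Helper22.FC
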