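import Pool.Agent.Helper22.FC.Base

namespace Pool.Agent.Helper22.FC

open Complex

noncomputable section

theorem side_eq' (a b x : ℂ) : side a b x =
    (x.im - a.im) * (b.re - a.re) - (x.re - a.re) * (b.im - a.im) := by
  simp [side, Complex.mul_im]; ring

theorem bary_re (a b c x : ℂ) : side a b c * x.re =
    side b c x * a.re + side c a x * b.re + side a b x * c.re := by
  simp only [side_eq']; ring

theorem bary_im (a b c x : ℂ) : side a b c * x.im =
    side b c x * a.im + side c a x * b.im + side a b x * c.im := by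
  simp only [side_eq']; ring

theorem bary_sum (a b c x : ℂ) : side b c x + side c a x + side a b x = side a b c := by
  simp only [side_eq']; ring

/-- normalised barycentric coordinates -/
theorem bary_eq {a b c x : ℂ} (hs : side a b c ≠ 0) : x =
    ((side b c x / side a b c : ℝ) : ℂ) * a + ((side c a x / side a b c : ℝ) : ℂ) * b
      + ((side a b x / side a b c : ℝ) : ℂ) * c := by
  apply Complex.ext
  · simp only [Complex.add_re, Complex.mul_re, Complex.ofReal_re, Complex.ofReal_im, zero_mul, sub_zero]
    have := bary_re a b c x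
    field_simp
    linarith
  · simp only [Complex.add_im, Complex.mul_im, Complex.ofReal_re, Complex.ofReal_im, zero_mul, add_zero]
    have := bary_im a b c x
    field_simp
    linarith

theorem bary_one {a b c x : ℂ} (hs : side a b c ≠ 0) :
    side b c x / side a b c + side c a x / side a b c + side a b x / side a b c = 1 := by
  have := bary_sum a b c x
  field_simp
  linarith

/-- open triangle in terms of barycentric coordinates -/
def tri (a b c : ℂ) : Set ℂ := {x | 0 < side b c x / side a b c ∧ 0 < side c a x / side a b c ∧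
  0 < side a b x / side a b c}

theorem tri_convex (a b c : ℂ) : Convex ℝ (tri a b c) := by
  intro x hx y hy p q hp hq hpq
  obtain ⟨h1, h2, h3⟩ := hx
  obtain ⟨g1, g2, g3⟩ := hy
  have key : ∀ u v : ℂ, side u v (p • x + q • y) = p * side u v x + q * side u v y := by
    intro u v
    have hp' : p = 1 - q := by linarith
    subst hp'
    simp only [side_eq', Complex.add_im, Complex.add_re, Complex.real_smul, Complex.mul_re,
      Complex.mul_im, Complex.ofReal_re, Complex.ofReal_im]
    ring
  have key2 : ∀ u v : ℂ, 0 < side u v x / side a b c → 0 < side u v y / side a b c →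
      0 < side u v (p • x + q • y) / side a b c := by
    intro u v h h'
    rw [key, add_div, mul_div_assoc, mul_div_assoc]
    rcases hp.eq_or_lt with h0 | h0
    · have : q = 1 := by linarith
      subst this; rw [← h0]; simpa using h'
    · have := mul_pos h0 h
      have := mul_nonneg hq h'.le
      linarith
  exact ⟨key2 _ _ h1 g1, key2 _ _ h2 g2, key2 _ _ h3 g3⟩

theorem tri_sub_hull {a b c x : ℂ} (hs : side a b c ≠ 0) (hx : 0 ≤ side b c x / side a b c)
    (hy : 0 ≤ side c a x / side a b c) (hz : 0 ≤ side a b x / side a b c) :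
    x ∈ convexHull ℝ ({a, b, c} : Set ℂ) := by
  rw [bary_eq (x := x) hs]
  have hconv := convex_convexHull ℝ ({a, b, c} : Set ℂ)
  have ha : a ∈ convexHull ℝ ({a, b, c} : Set ℂ) := subset_convexHull ℝ _ (by simp)
  have hb : b ∈ convexHull ℝ ({a, b, c} : Set ℂ) := subset_convexHull ℝ _ (by simp)
  have hc : c ∈ convexHull ℝ ({a, b, c} : Set ℂ) := subset_convexHull ℝ _ (by simp)
  have h1 := bary_one (x := x) hs
  have := hconv.sum_mem (t := Finset.univ (α := Fin 3))
    (w := ![side b c x / side a b c, side c a x / side a b c, side a b x / side a b c])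
    (z := ![a, b, c]) (by intro i _; fin_cases i <;> simpa) (by simpa [Fin.sum_univ_three] using h1)
    (by intro i _; fin_cases i <;> simp [ha, hb, hc])
  simpa [Fin.sum_univ_three] using this

theorem cyc_ear {a b c : ℂ} {M : List ℂ} :
    cyc ([b, c] ++ M ++ [a]) = (b, c) :: ((c :: M).zip (M ++ [a]) ++ [(a, b)]) := by
  have : cyc ([b, c] ++ M ++ [a]) = (b, c) :: ((c :: M) ++ [a]).zip ((M ++ [a]) ++ [b]) := by
    simp [cyc]
  rw [this, List.zip_append (by simp)]
  simp

theorem cyc_ear2 {a c : ℂ} {M : List ℂ} :
    cyc ([c] ++ M ++ [a]) = (c :: M).zip (M ++ [a]) ++ [(a, c)] := by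
  have : cyc ([c] ++ M ++ [a]) = ((c :: M) ++ [a]).zip ((M ++ [a]) ++ [c]) := by
    simp [cyc]
  rw [this, List.zip_append (by simp)]
  simp

theorem re_side (r : ℝ) (p q x v : ℂ) : ((v - x) * (starRingEnd ℂ) ((r : ℂ) * (q - p) * I)).re =
    r * (side p q v - side p q x) := by
  simp only [side_eq', Complex.mul_re, map_mul, Complex.conj_ofReal, Complex.conj_I,
    Complex.ofReal_re, Complex.ofReal_im, Complex.mul_im, Complex.conj_re, Complex.conj_im,
    Complex.sub_re, Complex.sub_im, Complex.neg_re, Complex.neg_im, Complex.I_re, Complex.I_im]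
  ring

theorem wnd3 (x a b c : ℂ) : wnd x [b, c, a] = ang x b c + ang x c a + ang x a b := by
  simp [wnd, cyc]; ring

theorem tri_out (W : WndFacts) {a b c x : ℂ} (hs : side a b c ≠ 0)
    (h : side b c x / side a b c < 0 ∨ side c a x / side a b c < 0 ∨ side a b x / side a b c < 0) :
    wnd x [b, c, a] = 0 := by
  have key : ∀ p q r : ℂ, side p q r = side a b c → side p q x / side a b c < 0 →
      (∀ v ∈ [b, c, a], v = p ∨ v = q ∨ v = r) → wnd x [b, c, a] = 0 := by
    intro p q r h1 h2 h3
    refine W.half (u := ((1 / side a b c : ℝ) : ℂ) * (q - p) * I) ?_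
    intro v hv
    rw [re_side]
    have hp : side p q p = 0 := by simp [side_eq']
    have hq : side p q q = 0 := by simp only [side_eq']; ring
    have e : 1 / side a b c * (side p q v - side p q x) =
        side p q v / side a b c - side p q x / side a b c := by ring
    rw [e]
    rcases h3 v hv with rfl | rfl | rfl
    · rw [hp]; simp only [zero_div]; linarith
    · rw [hq]; simp only [zero_div]; linarith
    · rw [h1, div_self hs]; linarith
  rcases h with h | h | h
  · exact key b c a (by simp only [side_eq']; ring) h (by intro v hv; simp at hv; tauto)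
  · exact key c a b (by simp only [side_eq']; ring) h (by intro v hv; simp at hv; tauto)
  · exact key a b c rfl h (by intro v hv; simp at hv; tauto)

theorem im_div_side (x a b : ℂ) : ((b - x) / (a - x)).im = side a b x / Complex.normSq (a - x) := by
  rw [Complex.div_im, side_eq', div_sub_div_same]
  congr 1
  simp; ring

theorem ang_pos_T3 {x a b : ℂ} (h : 0 < side a b x) : 0 < ang x a b ∧ ang x a b < Real.pi := by
  have hne : a - x ≠ 0 := by
    intro h0
    have : x = a := (sub_eq_zero.1 h0).symm
    rw [this] at h; simp [side_eq'] at h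
  have h1 : 0 < ((b - x) / (a - x)).im := by
    rw [im_div_side]; exact div_pos h (Complex.normSq_pos.2 hne)
  refine ⟨?_, ?_⟩
  · rcases (Complex.arg_nonneg_iff.2 h1.le).eq_or_lt with h2 | h2
    · have := (Complex.arg_eq_zero_iff.1 h2.symm).2
      rw [this] at h1; exact absurd h1 (lt_irrefl _)
    · exact h2
  · exact Complex.arg_lt_pi_iff.2 (Or.inr h1.ne')

theorem ang_neg {x a b : ℂ} (h : side a b x < 0) : ang x a b < 0 ∧ -Real.pi < ang x a b := by
  have hne : a - x ≠ 0 := by
    intro h0
    have : x = a := (sub_eq_zero.1 h0).symm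
    rw [this] at h; simp [side_eq'] at h
  have h1 : ((b - x) / (a - x)).im < 0 := by
    rw [im_div_side]; exact div_neg_of_neg_of_pos h (Complex.normSq_pos.2 hne)
  exact ⟨Complex.arg_neg_iff.2 h1, Complex.neg_pi_lt_arg _⟩

theorem side_seg {a b x : ℂ} (h : x ∈ segment ℝ a b) : side a b x = 0 := by
  obtain ⟨p, q, hp, hq, hpq, rfl⟩ := h
  have hp' : p = 1 - q := by linarith
  subst hp'
  simp only [side_eq', Complex.add_im, Complex.add_re, Complex.real_smul, Complex.mul_re,
      Complex.mul_im, Complex.ofReal_re, Complex.ofReal_im]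
  ring

theorem tri_in (W : WndFacts) {a b c x : ℂ} (hs : side a b c ≠ 0) (hx : x ∈ tri a b c) :
    (0 < side a b c → wnd x [b, c, a] = 2 * Real.pi) ∧
    (side a b c < 0 → wnd x [b, c, a] = - (2 * Real.pi)) := by
  obtain ⟨h1, h2, h3⟩ := hx
  have n1 : side b c x ≠ 0 := by intro h; rw [h] at h1; simp at h1
  have n2 : side c a x ≠ 0 := by intro h; rw [h] at h2; simp at h2
  have n3 : side a b x ≠ 0 := by intro h; rw [h] at h3; simp at h3
  obtain ⟨k, hk⟩ := W.int (x := x) (V := [b, c, a]) (by
    rintro ⟨e, he, hx⟩
    simp [cyc] at he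
    rcases he with rfl | rfl | rfl
    · exact n1 (side_seg hx)
    · exact n2 (side_seg hx)
    · exact n3 (side_seg hx))
  have hpi := Real.pi_pos
  constructor
  · intro hD
    have s1 : 0 < side b c x := by have := mul_pos h1 hD; rwa [div_mul_cancel₀ _ hs] at this
    have s2 : 0 < side c a x := by have := mul_pos h2 hD; rwa [div_mul_cancel₀ _ hs] at this
    have s3 : 0 < side a b x := by have := mul_pos h3 hD; rwa [div_mul_cancel₀ _ hs] at this
    have a1 := ang_pos_T3 s1
    have a2 := ang_pos_T3 s2
    have a3 := ang_pos_T3 s3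
    have hw := wnd3 x a b c
    have hk0 : 0 < k := by
      by_contra hcon
      have : (k : ℝ) ≤ 0 := by exact_mod_cast not_lt.1 hcon
      nlinarith
    have hk2 : k < 2 := by
      by_contra hcon
      have : (2 : ℝ) ≤ k := by exact_mod_cast not_lt.1 hcon
      nlinarith
    have : k = 1 := by omega
    rw [hk, this]; simp
  · intro hD
    have s1 : side b c x < 0 := by
      have := mul_neg_of_pos_of_neg h1 hD; rwa [div_mul_cancel₀ _ hs] at this
    have s2 : side c a x < 0 := by
      have := mul_neg_of_pos_of_neg h2 hD; rwa [div_mul_cancel₀ _ hs] at this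
    have s3 : side a b x < 0 := by
      have := mul_neg_of_pos_of_neg h3 hD; rwa [div_mul_cancel₀ _ hs] at this
    have a1 := ang_neg s1
    have a2 := ang_neg s2
    have a3 := ang_neg s3
    have hw := wnd3 x a b c
    have hk0 : k < 0 := by
      by_contra hcon
      have : (0 : ℝ) ≤ k := by exact_mod_cast not_lt.1 hcon
      nlinarith
    have hk2 : -2 < k := by
      by_contra hcon
      have : (k : ℝ) ≤ -2 := by exact_mod_cast not_lt.1 hcon
      nlinarith
    have : k = -1 := by omega
    rw [hk, this]; simp

theorem seg_coord {a b c x : ℂ} (hs : side a b c ≠ 0) (hx : x ∈ segment ℝ a c) :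
    0 ≤ side b c x / side a b c ∧ side c a x / side a b c = 0 ∧ 0 ≤ side a b x / side a b c := by
  obtain ⟨p, q, hp, hq, hpq, rfl⟩ := hx
  have e1 : side b c (p • a + q • c) = p * side a b c := by
    have hp' : p = 1 - q := by linarith
    subst hp'
    simp only [side_eq', Complex.add_im, Complex.add_re, Complex.real_smul, Complex.mul_re,
      Complex.mul_im, Complex.ofReal_re, Complex.ofReal_im]
    ring
  have e2 : side c a (p • a + q • c) = 0 := by
    have hp' : p = 1 - q := by linarith
    subst hp'
    simp only [side_eq', Complex.add_im, Complex.add_re, Complex.real_smul, Complex.mul_re,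
      Complex.mul_im, Complex.ofReal_re, Complex.ofReal_im]
    ring
  have e3 : side a b (p • a + q • c) = q * side a b c := by
    have hp' : p = 1 - q := by linarith
    subst hp'
    simp only [side_eq', Complex.add_im, Complex.add_re, Complex.real_smul, Complex.mul_re,
      Complex.mul_im, Complex.ofReal_re, Complex.ofReal_im]
    ring
  rw [e1, e2, e3, mul_div_cancel_right₀ _ hs, mul_div_cancel_right₀ _ hs]
  exact ⟨hp, by simp, hq⟩

theorem seg_of_coord0 {p q x : ℂ} {r t : ℝ} (hr : 0 ≤ r) (ht : 0 ≤ t) (h1 : r + t = 1)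
    (hx : x = (r : ℂ) * p + (t : ℂ) * q) : x ∈ segment ℝ p q :=
  ⟨r, t, hr, ht, h1, by rw [hx]; simp⟩

theorem ear_values (W : WndFacts) {a b c u : ℂ} {M : List ℂ} (hM : M ≠ [])
    (hV : SimpleL ([b, c] ++ M ++ [a]))
    (hu : ∀ v ∈ [c] ++ M ++ [a], 0 < ((v - b) * (starRingEnd ℂ) u).re)
    (h2 : SimpleL ([c] ++ M ++ [a]))
    (hT : ∀ e ∈ cyc ([c] ++ M ++ [a]), e ≠ (a, c) →
      segment ℝ e.1 e.2 ∩ convexHull ℝ {a, b, c} ⊆ ({a, c} : Set ℂ))
    (hs : side a b c ≠ 0) {s : ℝ} (hs1 : s = 1 ∨ s = -1)
    (hw : ∀ x, x ∉ curve ([c] ++ M ++ [a]) →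
      wnd x ([c] ++ M ++ [a]) = 0 ∨ wnd x ([c] ++ M ++ [a]) = 2 * Real.pi * s) :
    (s = 1 → 0 < side a b c) ∧ ∀ x, x ∉ curve ([b, c] ++ M ++ [a]) →
      wnd x ([b, c] ++ M ++ [a]) = 0 ∨ wnd x ([b, c] ++ M ++ [a]) = 2 * Real.pi * s := by
  have hpi := Real.pi_pos
  have hc1 : cyc ([b, c] ++ M ++ [a]) = (b, c) :: ((c :: M).zip (M ++ [a]) ++ [(a, b)]) := cyc_ear
  have hc2 : cyc ([c] ++ M ++ [a]) = (c :: M).zip (M ++ [a]) ++ [(a, c)] := cyc_ear2
  generalize hP : (c :: M).zip (M ++ [a]) = P at hc1 hc2
  have hnd : ([b, c] ++ M ++ [a]).Nodup := hV.2.1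
  have hac : a ∉ c :: M := by
    have h := h2.2.1
    intro hmem
    have : List.Disjoint (c :: M) [a] := by
      have h' : ((c :: M) ++ [a]).Nodup := by simpa using h
      exact (List.nodup_append'.1 h').2.2
    exact this hmem (by simp)
  have hac' : a ≠ c := by rintro rfl; exact hac (by simp)
  have hPac : (a, c) ∉ P := by
    rw [← hP]; intro h; exact hac (List.of_mem_zip h).1
  have hwd : ∀ x, x ∉ segment ℝ a c →
      wnd x ([b, c] ++ M ++ [a]) = wnd x ([c] ++ M ++ [a]) + wnd x [b, c, a] := by
    intro x hx
    rw [wnd3]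
    simp only [wnd, hc1, hc2]
    simp only [List.map_cons, List.map_append, List.sum_cons, List.sum_append, List.map_nil,
      List.sum_nil]
    have := W.swap hx
    rw [this]; ring
  have hPT : ∀ e ∈ P, ∀ x ∈ segment ℝ e.1 e.2, x ∈ convexHull ℝ ({a, b, c} : Set ℂ) →
      x = a ∨ x = c := by
    intro e he x hx hx'
    have := hT e (by rw [hc2]; simp [he]) (by rintro rfl; exact hPac he) ⟨hx, hx'⟩
    simpa using this
  have hcurve2 : ∀ x ∈ curve ([c] ++ M ++ [a]), (∃ e ∈ P, x ∈ segment ℝ e.1 e.2) ∨ x ∈ segment ℝ a c := by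
    rintro x ⟨e, he, hx⟩
    rw [hc2] at he
    simp only [List.mem_append, List.mem_singleton] at he
    rcases he with he | rfl
    · exact Or.inl ⟨e, he, hx⟩
    · exact Or.inr hx
  have htriT : ∀ x ∈ tri a b c, x ∈ convexHull ℝ ({a, b, c} : Set ℂ) := fun x hx =>
    tri_sub_hull hs hx.1.le hx.2.1.le hx.2.2.le
  have hseg0 : ∀ x ∈ segment ℝ a c, x ∉ tri a b c := by
    intro x hx hx'
    have := (seg_coord hs hx).2.1
    have h := hx'.2.1
    rw [this] at h; exact lt_irrefl _ h
  have hU : Disjoint (tri a b c) (curve ([c] ++ M ++ [a])) := by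
    rw [Set.disjoint_left]
    intro x hx hx'
    rcases hcurve2 x hx' with ⟨e, he, hxe⟩ | h
    · rcases hPT e he x hxe (htriT x hx) with rfl | rfl
      · exact hseg0 _ (left_mem_segment ℝ _ _) hx
      · exact hseg0 _ (right_mem_segment ℝ _ _) hx
    · exact hseg0 _ h hx
  have hU0 : ∀ x ∈ tri a b c, wnd x ([c] ++ M ++ [a]) = 0 := by
    have hev : ∀ᶠ t : ℝ in nhdsWithin 0 (Set.Ioi 0), ∀ v ∈ {v | v ∈ [c] ++ M ++ [a]},
        0 < ((v - (b + (t : ℂ) * ((a - b) + (c - b)))) * (starRingEnd ℂ) u).re := by
      rw [Filter.eventually_all_finite (List.finite_toSet _)]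
      intro v hv
      have hcont : Continuous (fun t : ℝ =>
          ((v - (b + (t : ℂ) * ((a - b) + (c - b)))) * (starRingEnd ℂ) u).re) := by fun_prop
      have h0 : 0 < ((v - (b + ((0 : ℝ) : ℂ) * ((a - b) + (c - b)))) * (starRingEnd ℂ) u).re := by
        simpa using hu v hv
      exact (hcont.continuousAt.eventually (lt_mem_nhds h0)).filter_mono nhdsWithin_le_nhds
    have hev2 : ∀ᶠ t : ℝ in nhdsWithin 0 (Set.Ioi 0), t ∈ Set.Ioo (0 : ℝ) (1/2) :=
      Ioo_mem_nhdsGT (by norm_num)
    obtain ⟨t, ht, ht0, ht1⟩ := (hev.and hev2).exists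
    have hmem : (b + (t : ℂ) * ((a - b) + (c - b))) ∈ tri a b c := by
      have e1 : side b c (b + (t : ℂ) * ((a - b) + (c - b))) = t * side a b c := by
        simp only [side_eq', Complex.add_im, Complex.add_re, Complex.mul_re,
          Complex.mul_im, Complex.ofReal_re, Complex.ofReal_im, Complex.sub_re, Complex.sub_im]
        ring
      have e2 : side c a (b + (t : ℂ) * ((a - b) + (c - b))) = (1 - 2 * t) * side a b c := by
        simp only [side_eq', Complex.add_im, Complex.add_re, Complex.mul_re,
          Complex.mul_im, Complex.ofReal_re, Complex.ofReal_im, Complex.sub_re, Complex.sub_im]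
        ring
      have e3 : side a b (b + (t : ℂ) * ((a - b) + (c - b))) = t * side a b c := by
        simp only [side_eq', Complex.add_im, Complex.add_re, Complex.mul_re,
          Complex.mul_im, Complex.ofReal_re, Complex.ofReal_im, Complex.sub_re, Complex.sub_im]
        ring
      refine ⟨?_, ?_, ?_⟩
      · rw [e1, mul_div_cancel_right₀ _ hs]; exact ht0
      · rw [e2, mul_div_cancel_right₀ _ hs]; linarith
      · rw [e3, mul_div_cancel_right₀ _ hs]; exact ht0
    have h0 := W.half (x := b + (t : ℂ) * ((a - b) + (c - b))) (u := u) (V := [c] ++ M ++ [a]) ht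
    intro x hx
    rw [W.const (tri_convex a b c).isPreconnected hU hx hmem]
    exact h0
  -- the sign
  have hsgn : (0 < side a b c → s = 1) ∧ (side a b c < 0 → s = -1) := by
    set y : ℂ := (((1/2 : ℝ)) : ℂ) * a + (((1/2 : ℝ)) : ℂ) * c with hy
    have hyo : y ∈ openSegment ℝ a c := ⟨1/2, 1/2, by norm_num, by norm_num, by norm_num, by
      rw [hy]; simp⟩
    have hys : y ∈ segment ℝ a c := openSegment_subset_segment _ _ _ hyo
    have hyT : y ∈ convexHull ℝ ({a, b, c} : Set ℂ) := by
      have h := seg_coord hs hys
      exact tri_sub_hull hs h.1 h.2.1.symm.le h.2.2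
    have hya : y ≠ a := by
      intro h
      apply hac'
      have h2 : (((1/2 : ℝ)) : ℂ) * a + (((1/2 : ℝ)) : ℂ) * c = a := by rw [← hy, h]
      have h3 : c = a := by
        push_cast at h2
        linear_combination 2 * h2
      exact h3.symm
    have hyc : y ≠ c := by
      intro h
      apply hac'
      have h2 : (((1/2 : ℝ)) : ℂ) * a + (((1/2 : ℝ)) : ℂ) * c = c := by rw [← hy, h]
      push_cast at h2
      linear_combination 2 * h2
    obtain ⟨δ, hδ, hj⟩ := W.jump (V := [c] ++ M ++ [a]) (a := a) (b := c) (y := y) (R := P) hac'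
      (by rw [hc2]; exact List.perm_append_singleton _ _) hyo (by
        intro e he hye
        rcases hPT e he y hye hyT with h | h
        · exact hya h
        · exact hyc h)
    have hn : 0 < ‖b - y‖ + 1 := by positivity
    set t : ℝ := min (1/2) (δ / (2 * (‖b - y‖ + 1))) with ht
    have ht0 : 0 < t := lt_min (by norm_num) (by positivity)
    have ht1 : t ≤ 1/2 := min_le_left _ _
    have ht2 : t * ‖b - y‖ < δ := by
      have h1 : t ≤ δ / (2 * (‖b - y‖ + 1)) := min_le_right _ _
      have h2 : t * (2 * (‖b - y‖ + 1)) ≤ δ := by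
        rwa [le_div_iff₀ (by positivity)] at h1
      nlinarith [norm_nonneg (b - y)]
    have d1 : ‖(y + (t : ℂ) * (b - y)) - y‖ < δ := by
      have : (y + (t : ℂ) * (b - y)) - y = (t : ℂ) * (b - y) := by ring
      rw [this, norm_mul, Complex.norm_real, Real.norm_eq_abs, abs_of_pos ht0]
      exact ht2
    have d2 : ‖(y - (t : ℂ) * (b - y)) - y‖ < δ := by
      have : (y - (t : ℂ) * (b - y)) - y = - ((t : ℂ) * (b - y)) := by ring
      rw [this, norm_neg, norm_mul, Complex.norm_real, Real.norm_eq_abs, abs_of_pos ht0]
      exact ht2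
    have s1 : side a c (y + (t : ℂ) * (b - y)) = - (t * side a b c) := by
      simp only [hy, side_eq', Complex.add_im, Complex.add_re, Complex.mul_re,
          Complex.mul_im, Complex.ofReal_re, Complex.ofReal_im, Complex.sub_re, Complex.sub_im]
      ring
    have s2 : side a c (y - (t : ℂ) * (b - y)) = t * side a b c := by
      simp only [hy, side_eq', Complex.add_im, Complex.add_re, Complex.mul_re,
          Complex.mul_im, Complex.ofReal_re, Complex.ofReal_im, Complex.sub_re, Complex.sub_im]
      ring
    have hmem : (y + (t : ℂ) * (b - y)) ∈ tri a b c := by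
      have e1 : side b c (y + (t : ℂ) * (b - y)) = ((1 - t) / 2) * side a b c := by
        simp only [hy, side_eq', Complex.add_im, Complex.add_re, Complex.mul_re,
          Complex.mul_im, Complex.ofReal_re, Complex.ofReal_im, Complex.sub_re, Complex.sub_im]
        ring
      have e2 : side c a (y + (t : ℂ) * (b - y)) = t * side a b c := by
        simp only [hy, side_eq', Complex.add_im, Complex.add_re, Complex.mul_re,
          Complex.mul_im, Complex.ofReal_re, Complex.ofReal_im, Complex.sub_re, Complex.sub_im]
        ring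
      have e3 : side a b (y + (t : ℂ) * (b - y)) = ((1 - t) / 2) * side a b c := by
        simp only [hy, side_eq', Complex.add_im, Complex.add_re, Complex.mul_re,
          Complex.mul_im, Complex.ofReal_re, Complex.ofReal_im, Complex.sub_re, Complex.sub_im]
        ring
      refine ⟨?_, ?_, ?_⟩
      · rw [e1, mul_div_cancel_right₀ _ hs]; linarith
      · rw [e2, mul_div_cancel_right₀ _ hs]; exact ht0
      · rw [e3, mul_div_cancel_right₀ _ hs]; linarith
    constructor
    · intro hD
      obtain ⟨n1, n2, hh⟩ := hj (y - (t : ℂ) * (b - y)) (y + (t : ℂ) * (b - y)) d2 d1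
        (by rw [s2]; positivity) (by rw [s1]; have := mul_pos ht0 hD; linarith)
      rw [hU0 _ hmem] at hh
      rcases hw _ n1 with h | h
      · rw [h] at hh; linarith
      · rw [h] at hh
        have : (2 * Real.pi) * (s - 1) = 0 := by linarith
        rcases mul_eq_zero.1 this with h | h
        · linarith
        · linarith
    · intro hD
      have hneg : t * side a b c < 0 := mul_neg_of_pos_of_neg ht0 hD
      obtain ⟨n1, n2, hh⟩ := hj (y + (t : ℂ) * (b - y)) (y - (t : ℂ) * (b - y)) d1 d2
        (by rw [s1]; linarith) (by rw [s2]; exact hneg)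
      rw [hU0 _ hmem] at hh
      rcases hw _ n2 with h | h
      · rw [h] at hh; linarith
      · rw [h] at hh
        have : (2 * Real.pi) * (s + 1) = 0 := by linarith
        rcases mul_eq_zero.1 this with h | h
        · linarith
        · linarith
  have hin : ∀ x ∈ tri a b c, wnd x ([b, c] ++ M ++ [a]) = 2 * Real.pi * s := by
    intro x hx
    rw [hwd x (fun h => hseg0 x h hx), hU0 x hx, zero_add]
    rcases lt_or_gt_of_ne hs with h | h
    · rw [(tri_in W hs hx).2 h, hsgn.2 h]; ring
    · rw [(tri_in W hs hx).1 h, hsgn.1 h]; ring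
  refine ⟨?_, ?_⟩
  · intro h1
    rcases lt_or_gt_of_ne hs with h | h
    · have := hsgn.2 h; rw [h1] at this; norm_num at this
    · exact h
  · intro x hx
    have hxP : ∀ e ∈ P, x ∉ segment ℝ e.1 e.2 := by
      intro e he hxe
      exact hx ⟨e, by rw [hc1]; simp [he], hxe⟩
    have hxbc : x ∉ segment ℝ b c := by
      intro h; exact hx ⟨(b, c), by rw [hc1]; simp, h⟩
    have hxab : x ∉ segment ℝ a b := by
      intro h; exact hx ⟨(a, b), by rw [hc1]; simp, h⟩
    by_cases hneg : side b c x / side a b c < 0 ∨ side c a x / side a b c < 0 ∨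
        side a b x / side a b c < 0
    · have hxs : x ∉ segment ℝ a c := by
        intro h
        have := seg_coord hs h
        rcases hneg with h' | h' | h'
        · exact absurd this.1 (not_le.2 h')
        · rw [this.2.1] at h'; exact lt_irrefl _ h'
        · exact absurd this.2.2 (not_le.2 h')
      rw [hwd x hxs, tri_out W hs hneg, add_zero]
      apply hw
      intro hxc
      rcases hcurve2 x hxc with ⟨e, he, hxe⟩ | h
      · exact hxP e he hxe
      · exact hxs h
    · push Not at hneg
      obtain ⟨g1, g2, g3⟩ := hneg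
      have hbe := bary_eq (x := x) hs
      have hb1 := bary_one (x := x) hs
      have g1' : 0 < side b c x / side a b c := by
        rcases g1.eq_or_lt with h | h
        · exfalso
          rw [← h] at hbe hb1
          apply hxbc
          exact seg_of_coord0 g2 g3 (by linarith) (by
            conv_lhs => rw [hbe]
            simp)
        · exact h
      have g3' : 0 < side a b x / side a b c := by
        rcases g3.eq_or_lt with h | h
        · exfalso
          rw [← h] at hbe hb1
          apply hxab
          exact seg_of_coord0 g1 g2 (by linarith) (by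
            conv_lhs => rw [hbe]
            simp)
        · exact h
      right
      rcases g2.eq_or_lt with h | h
      · -- x on the open segment a c
        have hcl := W.closed ([b, c] ++ M ++ [a])
        obtain ⟨ε, hε, hball⟩ := Metric.isOpen_iff.1 hcl.isOpen_compl x hx
        have hn : 0 < ‖b - x‖ + 1 := by positivity
        set t : ℝ := min (1/2) (ε / (2 * (‖b - x‖ + 1))) with ht
        have ht0 : 0 < t := lt_min (by norm_num) (by positivity)
        have ht1 : t ≤ 1/2 := min_le_left _ _
        have ht2 : t * ‖b - x‖ < ε := by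
          have h1 : t ≤ ε / (2 * (‖b - x‖ + 1)) := min_le_right _ _
          have h2 : t * (2 * (‖b - x‖ + 1)) ≤ ε := by
            rwa [le_div_iff₀ (by positivity)] at h1
          nlinarith [norm_nonneg (b - x)]
        have hx' : (x + (t : ℂ) * (b - x)) ∈ Metric.ball x ε := by
          rw [Metric.mem_ball, dist_eq_norm]
          have : (x + (t : ℂ) * (b - x)) - x = (t : ℂ) * (b - x) := by ring
          rw [this, norm_mul, Complex.norm_real, Real.norm_eq_abs, abs_of_pos ht0]
          exact ht2
        have hmem : (x + (t : ℂ) * (b - x)) ∈ tri a b c := by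
          have e1 : side b c (x + (t : ℂ) * (b - x)) = (1 - t) * side b c x := by
            simp only [side_eq', Complex.add_im, Complex.add_re, Complex.mul_re,
              Complex.mul_im, Complex.ofReal_re, Complex.ofReal_im, Complex.sub_re, Complex.sub_im]
            ring
          have e2 : side c a (x + (t : ℂ) * (b - x)) =
              (1 - t) * side c a x + t * side a b c := by
            simp only [side_eq', Complex.add_im, Complex.add_re, Complex.mul_re,
              Complex.mul_im, Complex.ofReal_re, Complex.ofReal_im, Complex.sub_re, Complex.sub_im]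
            ring
          have e3 : side a b (x + (t : ℂ) * (b - x)) = (1 - t) * side a b x := by
            simp only [side_eq', Complex.add_im, Complex.add_re, Complex.mul_re,
              Complex.mul_im, Complex.ofReal_re, Complex.ofReal_im, Complex.sub_re, Complex.sub_im]
            ring
          refine ⟨?_, ?_, ?_⟩
          · rw [e1, mul_div_assoc]; exact mul_pos (by linarith) g1'
          · rw [e2, add_div, mul_div_assoc, ← h, mul_zero, zero_add, mul_div_cancel_right₀ _ hs]
            exact ht0
          · rw [e3, mul_div_assoc]; exact mul_pos (by linarith) g3'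
        rw [W.const (convex_ball x ε).isPreconnected (Set.disjoint_left.2 fun z hz => hball hz)
          (Metric.mem_ball_self hε) hx']
        exact hin _ hmem
      · exact hin x ⟨g1', h, g3'⟩

end

end Pool.Agent.Helper22.FC
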