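import Pool.Agent.Helper22.FC.Base

namespace Pool.Agent.Helper22.FC

open Complex

noncomputable section

theorem cyc_rotate {α : Type*} (V : List α) (k : ℕ) : cyc (V.rotate k) = (cyc V).rotate k := by
  unfold cyc
  rw [List.zip_eq_zipWith, List.zip_eq_zipWith,
    List.zipWith_rotate_distrib _ _ _ _ (List.length_rotate V 1).symm,
    List.rotate_rotate, List.rotate_rotate, Nat.add_comm]

theorem SimpleL.rotate {V : List ℂ} (h : SimpleL V) (k : ℕ) : SimpleL (V.rotate k) := by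
  obtain ⟨h1, h2, h3⟩ := h
  refine ⟨by rw [List.length_rotate]; exact h1, List.nodup_rotate.mpr h2, ?_⟩
  intro e he e' he' hne
  rw [cyc_rotate, List.mem_rotate] at he he'
  exact h3 e he e' he' hne

theorem exists_dir (V : List ℂ) (hV : V ≠ []) :
    ∃ b ∈ V, ∃ u : ℂ, ∀ v ∈ V, v ≠ b → 0 < ((v - b) * (starRingEnd ℂ) u).re := by
  classical
  have hfin : Set.Finite {t : ℝ | ∃ v ∈ V, ∃ w ∈ V, v ≠ w ∧ (v - w).re + t * (v - w).im = 0} := by
    have h1 : Set.Finite (⋃ v ∈ {v | v ∈ V}, ⋃ w ∈ {w | w ∈ V},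
        {t : ℝ | v ≠ w ∧ (v - w).re + t * (v - w).im = 0}) := by
      refine Set.Finite.biUnion (List.finite_toSet V) fun v _ => ?_
      refine Set.Finite.biUnion (List.finite_toSet V) fun w _ => ?_
      apply Set.Subsingleton.finite
      rintro t ⟨hne, ht⟩ t' ⟨_, ht'⟩
      by_cases him : (v - w).im = 0
      · exfalso
        rw [him, mul_zero, add_zero] at ht
        apply hne
        have : v - w = 0 := Complex.ext ht him
        exact sub_eq_zero.mp this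
      · have : (t - t') * (v - w).im = 0 := by linear_combination ht - ht'
        rcases mul_eq_zero.mp this with h | h
        · exact sub_eq_zero.mp h
        · exact absurd h him
    refine h1.subset ?_
    rintro t ⟨v, hv, w, hw, hne, ht⟩
    simp only [Set.mem_iUnion]
    exact ⟨v, hv, w, hw, hne, ht⟩
  obtain ⟨t, ht⟩ := hfin.infinite_compl.nonempty
  obtain ⟨b, hb, hmin⟩ := Finset.exists_min_image V.toFinset (fun v : ℂ => v.re + t * v.im)
    (List.toFinset_nonempty_iff V |>.mpr hV)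
  refine ⟨b, List.mem_toFinset.mp hb, ⟨1, t⟩, ?_⟩
  intro v hv hvb
  have h1 := hmin v (List.mem_toFinset.mpr hv)
  have h2 : (v - b).re + t * (v - b).im ≠ 0 := by
    intro h0
    exact ht ⟨v, hv, b, List.mem_toFinset.mp hb, hvb, h0⟩
  have h3 : ((v - b) * (starRingEnd ℂ) ⟨1, t⟩).re = (v - b).re + t * (v - b).im := by
    simp [Complex.mul_re]
    ring
  rw [h3]
  have h4 : (v - b).re + t * (v - b).im = (v.re + t * v.im) - (b.re + t * b.im) := by
    simp only [Complex.sub_re, Complex.sub_im]; ring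
  rw [h4] at h2 ⊢
  have : 0 ≤ (v.re + t * v.im) - (b.re + t * b.im) := by
    simpa using h1
  exact lt_of_le_of_ne this (Ne.symm h2)

/-- Main theorem on simple polygons: two values of the winding angle and a triangulation. The
hypotheses `ne`, `ed`, `ev`, `sv` are proved elsewhere. -/
theorem simple_good
    (rot : ∀ (x : ℂ) (V : List ℂ) (k : ℕ), wnd x (V.rotate k) = wnd x V)
    (crot : ∀ (V : List ℂ) (k : ℕ), curve (V.rotate k) = curve V)
    (tri3 : ∀ (a b c : ℂ), SimpleL [b, c, a] → ∀ x, x ∉ curve [b, c, a] → wnd x [b, c, a] = 0 ∨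
      wnd x [b, c, a] = if 0 < side a b c then 2 * Real.pi else - (2 * Real.pi))
    (ne : ∀ {a b c u : ℂ} {M : List ℂ}, SimpleL ([b, c] ++ M ++ [a]) →
      (∀ v ∈ [c] ++ M ++ [a], 0 < ((v - b) * (starRingEnd ℂ) u).re) → side a b c ≠ 0)
    (ed : ∀ {a b c : ℂ} {M : List ℂ}, SimpleL ([b, c] ++ M ++ [a]) → M ≠ [] →
      side a b c ≠ 0 →
      (SimpleL ([c] ++ M ++ [a]) ∧ ∀ e ∈ cyc ([c] ++ M ++ [a]), e ≠ (a, c) →
        segment ℝ e.1 e.2 ∩ convexHull ℝ {a, b, c} ⊆ ({a, c} : Set ℂ)) ∨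
      (∃ (M₁ : List ℂ) (d : ℂ) (M₂ : List ℂ), M = M₁ ++ [d] ++ M₂ ∧
        SimpleL ([b, c] ++ M₁ ++ [d]) ∧ SimpleL ([b, d] ++ M₂ ++ [a]) ∧
        (∃ α β : ℝ, 0 < α ∧ 0 < β ∧ d = b + α * (c - b) + β * (a - b)) ∧
        segment ℝ b d ∩ curve ([b, c] ++ M ++ [a]) ⊆ ({b, d} : Set ℂ)))
    (ev : ∀ {a b c u : ℂ} {M : List ℂ}, M ≠ [] → SimpleL ([b, c] ++ M ++ [a]) →
      (∀ v ∈ [c] ++ M ++ [a], 0 < ((v - b) * (starRingEnd ℂ) u).re) →
      SimpleL ([c] ++ M ++ [a]) →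
      (∀ e ∈ cyc ([c] ++ M ++ [a]), e ≠ (a, c) →
        segment ℝ e.1 e.2 ∩ convexHull ℝ {a, b, c} ⊆ ({a, c} : Set ℂ)) →
      side a b c ≠ 0 → ∀ {s : ℝ}, (s = 1 ∨ s = -1) →
      (∀ x, x ∉ curve ([c] ++ M ++ [a]) →
        wnd x ([c] ++ M ++ [a]) = 0 ∨ wnd x ([c] ++ M ++ [a]) = 2 * Real.pi * s) →
      (s = 1 → 0 < side a b c) ∧ ∀ x, x ∉ curve ([b, c] ++ M ++ [a]) →
        wnd x ([b, c] ++ M ++ [a]) = 0 ∨ wnd x ([b, c] ++ M ++ [a]) = 2 * Real.pi * s)
    (sv : ∀ {a b c d u : ℂ} {M₁ M₂ : List ℂ}, SimpleL ([b, c] ++ (M₁ ++ [d] ++ M₂) ++ [a]) →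
      (∀ v ∈ [c] ++ (M₁ ++ [d] ++ M₂) ++ [a], 0 < ((v - b) * (starRingEnd ℂ) u).re) →
      SimpleL ([b, c] ++ M₁ ++ [d]) → SimpleL ([b, d] ++ M₂ ++ [a]) →
      (∃ α β : ℝ, 0 < α ∧ 0 < β ∧ d = b + α * (c - b) + β * (a - b)) →
      segment ℝ b d ∩ curve ([b, c] ++ (M₁ ++ [d] ++ M₂) ++ [a]) ⊆ ({b, d} : Set ℂ) →
      ∀ {s₁ s₂ : ℝ}, (s₁ = 1 ∨ s₁ = -1) → (s₂ = 1 ∨ s₂ = -1) →
      (∀ x, x ∉ curve ([b, c] ++ M₁ ++ [d]) →
        wnd x ([b, c] ++ M₁ ++ [d]) = 0 ∨ wnd x ([b, c] ++ M₁ ++ [d]) = 2 * Real.pi * s₁) →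
      (∀ x, x ∉ curve ([b, d] ++ M₂ ++ [a]) →
        wnd x ([b, d] ++ M₂ ++ [a]) = 0 ∨ wnd x ([b, d] ++ M₂ ++ [a]) = 2 * Real.pi * s₂) →
      s₁ = s₂ ∧ ∀ x, x ∉ curve ([b, c] ++ (M₁ ++ [d] ++ M₂) ++ [a]) →
        wnd x ([b, c] ++ (M₁ ++ [d] ++ M₂) ++ [a]) = 0 ∨
        wnd x ([b, c] ++ (M₁ ++ [d] ++ M₂) ++ [a]) = 2 * Real.pi * s₁)
    {V : List ℂ} (hV : SimpleL V) :
    ∃ s : ℝ, (s = 1 ∨ s = -1) ∧
      (∀ x, x ∉ curve V → wnd x V = 0 ∨ wnd x V = 2 * Real.pi * s) ∧ (s = 1 → Good V) := by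
  induction hn : V.length using Nat.strong_induction_on generalizing V with
  | _ n ih =>
  subst hn
  have hVne : V ≠ [] := by
    intro h
    have := hV.1
    rw [h] at this
    simp at this
  obtain ⟨b, hb, u, hu⟩ := exists_dir V hVne
  obtain ⟨S, T, hST⟩ := List.append_of_mem hb
  -- rotated list
  have hrot : V.rotate S.length = b :: (T ++ S) := by
    rw [hST, List.rotate_append_length_eq]
    rfl
  have hlen : 3 ≤ (b :: (T ++ S)).length := by
    rw [← hrot, List.length_rotate]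
    exact hV.1
  obtain ⟨c, W, hcW⟩ : ∃ c W, T ++ S = c :: W := by
    cases hTS : T ++ S with
    | nil => rw [hTS] at hlen; simp at hlen
    | cons c W => exact ⟨c, W, rfl⟩
  obtain ⟨M, a, hMa⟩ : ∃ M a, W = M ++ [a] := by
    rcases List.eq_nil_or_concat W with h | ⟨M, a, h⟩
    · rw [hcW, h] at hlen
      simp at hlen
    · exact ⟨M, a, by rw [h, List.concat_eq_append]⟩
  have hV' : V.rotate S.length = [b, c] ++ M ++ [a] := by
    rw [hrot, hcW, hMa]
    simp
  have hSV : SimpleL ([b, c] ++ M ++ [a]) := hV' ▸ hV.rotate S.length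
  have hlenV : V.length = M.length + 3 := by
    rw [← List.length_rotate V S.length, hV']
    simp
  have huV : ∀ v ∈ [c] ++ M ++ [a], 0 < ((v - b) * (starRingEnd ℂ) u).re := by
    intro v hv
    have hvV : v ∈ V := by
      rw [← List.mem_rotate (n := S.length), hV']
      simp only [List.mem_append, List.mem_cons, List.not_mem_nil, or_false] at hv ⊢
      tauto
    have hvb : v ≠ b := by
      have hnd := hSV.2.1
      intro h
      rw [h] at hv
      have : ([b, c] ++ M ++ [a] : List ℂ) = b :: ([c] ++ M ++ [a]) := by simp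
      rw [this, List.nodup_cons] at hnd
      exact hnd.1 hv
    exact hu v hvV hvb
  -- it suffices to treat the rotated list
  suffices hmain : ∃ s : ℝ, (s = 1 ∨ s = -1) ∧
      (∀ x, x ∉ curve ([b, c] ++ M ++ [a]) → wnd x ([b, c] ++ M ++ [a]) = 0 ∨
        wnd x ([b, c] ++ M ++ [a]) = 2 * Real.pi * s) ∧ (s = 1 → Good ([b, c] ++ M ++ [a])) by
    obtain ⟨s, hs, hx, hg⟩ := hmain
    refine ⟨s, hs, ?_, ?_⟩
    · intro x hxV
      rw [← hV', crot] at hx
      have := hx x hxV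
      rwa [rot] at this
    · intro hs1
      have hG := hg hs1
      rw [← hV'] at hG
      obtain ⟨k', hk'⟩ : V.rotate S.length ~r V := List.IsRotated.symm ⟨S.length, rfl⟩
      have := Good.rot _ k' hG
      rwa [hk'] at this
  by_cases hM : M = []
  · subst hM
    have hL : ([b, c] ++ [] ++ [a] : List ℂ) = [b, c, a] := rfl
    rw [hL] at hSV ⊢
    by_cases hside : 0 < side a b c
    · refine ⟨1, Or.inl rfl, ?_, ?_⟩
      · intro x hx
        have := tri3 a b c hSV x hx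
        rw [if_pos hside] at this
        simpa using this
      · intro _
        have := Good.rot _ 1 (Good.tri a b c hside)
        exact this
    · refine ⟨-1, Or.inr rfl, ?_, ?_⟩
      · intro x hx
        have := tri3 a b c hSV x hx
        rw [if_neg hside] at this
        simpa using this
      · intro h
        norm_num at h
  · have hne := ne hSV huV
    rcases ed hSV hM hne with ⟨hS1, hE⟩ | ⟨M₁, d, M₂, hMM, hS1, hS2, hab, hseg⟩
    · -- ear
      obtain ⟨s, hs, hx, hg⟩ := ih ([c] ++ M ++ [a]).length (by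
        rw [hlenV]; simp) hS1 rfl
      obtain ⟨h1, h2⟩ := ev hM hSV huV hS1 hE hne hs hx
      refine ⟨s, hs, h2, ?_⟩
      intro hs1
      have hG := hg hs1
      have hG1 : Good ([a, c] ++ M) := by
        have := Good.rot _ ([c] ++ M).length hG
        rw [List.rotate_append_length_eq] at this
        exact this
      have hG2 : Good ([a] ++ [b] ++ [c]) := Good.tri a b c (h1 hs1)
      have hG3 := Good.cut a c [b] M (by simp) hM hG1 hG2
      have hG4 := Good.rot _ [a].length hG3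
      have : ([a] ++ [b] ++ [c] ++ M : List ℂ) = [a] ++ ([b, c] ++ M) := by simp
      rw [this, List.rotate_append_length_eq] at hG4
      exact hG4
    · -- diagonal
      subst hMM
      have hl : ([b, c] ++ M₁ ++ [d]).length < V.length := by
        rw [hlenV]; simp
      have hl2 : ([b, d] ++ M₂ ++ [a]).length < V.length := by
        rw [hlenV]; simp
      obtain ⟨s₁, hs1, hx1, hg1⟩ := ih _ hl hS1 rfl
      obtain ⟨s₂, hs2, hx2, hg2⟩ := ih _ hl2 hS2 rfl
      obtain ⟨hss, hx⟩ := sv hSV huV hS1 hS2 hab hseg hs1 hs2 hx1 hx2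
      refine ⟨s₁, hs1, hx, ?_⟩
      intro h1
      have hG1 := hg1 h1
      have hG2 := hg2 (hss ▸ h1)
      have hA : ([b, d] ++ M₂ ++ [a] : List ℂ) = [b, d] ++ (M₂ ++ [a]) := by simp
      have hB : ([b, c] ++ M₁ ++ [d] : List ℂ) = [b] ++ ([c] ++ M₁) ++ [d] := by simp
      rw [hA] at hG2
      rw [hB] at hG1
      have hG := Good.cut b d ([c] ++ M₁) (M₂ ++ [a]) (by simp) (by simp) hG2 hG1
      have hC : ([b] ++ ([c] ++ M₁) ++ [d] ++ (M₂ ++ [a]) : List ℂ)
          = [b, c] ++ (M₁ ++ [d] ++ M₂) ++ [a] := by simp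
      rwa [hC] at hG

end

end Pool.Agent.Helper22.FC
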