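import Pool.Agent.Helper22.FC.Base

namespace Pool.Agent.Helper22.FC

open Complex

noncomputable section

theorem w2_im_div (a b x : ℂ) : ((b - x) / (a - x)).im = side a b x / Complex.normSq (a - x) := by
  unfold side
  rw [Complex.div_im]
  simp only [Complex.sub_re, Complex.sub_im, Complex.mul_im, Complex.conj_re, Complex.conj_im,
    map_sub]
  ring

theorem w2_val {a b y : ℂ} (hab : a ≠ b) (hy : y ∈ openSegment ℝ a b) :
    y ≠ a ∧ ((b - y) / (a - y)).re < 0 ∧ ((b - y) / (a - y)).im = 0 := by
  obtain ⟨p, q, hp, hq, hpq, rfl⟩ := hy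
  have hd : b - a ≠ 0 := sub_ne_zero.mpr hab.symm
  have hp' : (p : ℂ) + (q : ℂ) = 1 := by exact_mod_cast hpq
  have e1 : b - (p • a + q • b) = (p : ℂ) * (b - a) := by
    simp only [Complex.real_smul]
    linear_combination (-b) * hp'
  have e2 : a - (p • a + q • b) = -((q : ℂ) * (b - a)) := by
    simp only [Complex.real_smul]
    linear_combination (-a) * hp'
  have hq' : (q : ℂ) ≠ 0 := by exact_mod_cast hq.ne'
  have e3 : (b - (p • a + q • b)) / (a - (p • a + q • b)) = ((-(p / q) : ℝ) : ℂ) := by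
    rw [e1, e2]
    push_cast
    field_simp
  refine ⟨?_, ?_, ?_⟩
  · intro h
    have : a - (p • a + q • b) = 0 := by rw [h]; ring
    rw [e2, neg_eq_zero, mul_eq_zero] at this
    exact this.elim hq' hd
  · rw [e3, Complex.ofReal_re]
    have := div_pos hp hq
    linarith
  · rw [e3, Complex.ofReal_im]

theorem ang_jump {a b y : ℂ} (hab : a ≠ b) (hy : y ∈ openSegment ℝ a b) {ε : ℝ} (hε : 0 < ε) :
    ∃ δ > 0, ∀ x, ‖x - y‖ < δ → (0 < side a b x → |ang x a b - Real.pi| < ε) ∧
      (side a b x < 0 → |ang x a b + Real.pi| < ε) := by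
  obtain ⟨hya, hre, him⟩ := w2_val hab hy
  have hay : a - y ≠ 0 := sub_ne_zero.mpr hya.symm
  have hcont : ContinuousAt (fun x : ℂ => (b - x) / (a - x)) y := by
    apply ContinuousAt.div
    · fun_prop
    · fun_prop
    · exact hay
  have h1 := Complex.tendsto_arg_nhdsWithin_im_nonneg_of_re_neg_of_im_zero hre him
  have h2 := Complex.tendsto_arg_nhdsWithin_im_neg_of_re_neg_of_im_zero hre him
  rw [Metric.tendsto_nhdsWithin_nhds] at h1 h2
  obtain ⟨η1, hη1, h1⟩ := h1 ε hε
  obtain ⟨η2, hη2, h2⟩ := h2 ε hε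
  obtain ⟨δ1, hδ1, h3⟩ := Metric.continuousAt_iff.mp hcont (min η1 η2) (lt_min hη1 hη2)
  have hpos : 0 < ‖a - y‖ := norm_pos_iff.mpr hay
  refine ⟨min δ1 ‖a - y‖, lt_min hδ1 hpos, fun x hx => ?_⟩
  have hx1 : dist x y < δ1 := by rw [dist_eq_norm]; exact hx.trans_le (min_le_left _ _)
  have hx2 : ‖x - y‖ < ‖a - y‖ := hx.trans_le (min_le_right _ _)
  have hax : a - x ≠ 0 := by
    intro h
    rw [sub_eq_zero] at h
    rw [h] at hx2
    exact lt_irrefl _ hx2
  have hns : 0 < Complex.normSq (a - x) := Complex.normSq_pos.mpr hax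
  have hd := h3 hx1
  constructor
  · intro hs
    have := h1 (x := (b - x) / (a - x)) (by
      show 0 ≤ ((b - x) / (a - x)).im
      rw [w2_im_div]; positivity) (hd.trans_le (min_le_left _ _))
    rwa [Real.dist_eq] at this
  · intro hs
    have := h2 (x := (b - x) / (a - x)) (by
      show ((b - x) / (a - x)).im < 0
      rw [w2_im_div]; exact div_neg_of_neg_of_pos hs hns) (hd.trans_le (min_le_right _ _))
    rw [Real.dist_eq, sub_neg_eq_add] at this
    exact this

theorem w2_prod_div (L : List (ℂ × ℂ)) (f g : ℂ × ℂ → ℂ) :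
    (L.map (fun e => f e / g e)).prod = (L.map f).prod / (L.map g).prod := by
  induction L with
  | nil => simp
  | cons e L ih =>
    simp only [List.map_cons, List.prod_cons, ih]
    rw [mul_div_mul_comm]

theorem w2_prod_exp (L : List (ℂ × ℂ)) (z : ℂ × ℂ → ℂ) :
    (L.map z).prod = (‖(L.map z).prod‖ : ℂ) *
      Complex.exp (((L.map (fun e => arg (z e))).sum : ℝ) * I) := by
  induction L with
  | nil => simp
  | cons e L ih =>
    simp only [List.map_cons, List.prod_cons, List.sum_cons]
    rw [norm_mul]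
    push_cast
    rw [add_mul, Complex.exp_add]
    calc z e * (L.map z).prod
        = (‖z e‖ * Complex.exp (arg (z e) * I)) * ((‖(L.map z).prod‖ : ℂ) *
          Complex.exp (((L.map (fun e => arg (z e))).sum : ℝ) * I)) := by
          rw [Complex.norm_mul_exp_arg_mul_I, ← ih]
      _ = _ := by push_cast; ring

theorem w2_wnd_int {V : List ℂ} {x : ℂ} (hx : ∀ v ∈ V, v ≠ x) :
    ∃ n : ℤ, wnd x V = n * (2 * Real.pi) := by
  have hlen : V.length = (V.rotate 1).length := (List.length_rotate V 1).symm
  have e1 : (cyc V).map Prod.fst = V := List.map_fst_zip hlen.le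
  have e2 : (cyc V).map Prod.snd = V.rotate 1 := List.map_snd_zip hlen.ge
  have hprod : ((cyc V).map (fun e => (e.2 - x) / (e.1 - x))).prod = 1 := by
    rw [w2_prod_div (cyc V) (fun e => e.2 - x) (fun e => e.1 - x)]
    have h1 : (cyc V).map (fun e : ℂ × ℂ => e.1 - x) = V.map (fun v => v - x) := by
      conv_rhs => rw [← e1]
      rw [List.map_map]; rfl
    have h2 : (cyc V).map (fun e : ℂ × ℂ => e.2 - x) = (V.rotate 1).map (fun v => v - x) := by
      conv_rhs => rw [← e2]
      rw [List.map_map]; rfl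
    rw [h1, h2]
    have h3 : ((V.rotate 1).map (fun v => v - x)).prod = (V.map (fun v => v - x)).prod :=
      ((List.rotate_perm V 1).map _).prod_eq
    rw [h3, div_self]
    apply List.prod_ne_zero
    intro h0
    rw [List.mem_map] at h0
    obtain ⟨v, hv, hv0⟩ := h0
    exact hx v hv (sub_eq_zero.mp hv0)
  have hexp := w2_prod_exp (cyc V) (fun e => (e.2 - x) / (e.1 - x))
  rw [hprod, norm_one, Complex.ofReal_one, one_mul] at hexp
  obtain ⟨n, hn⟩ := Complex.exp_eq_one_iff.mp hexp.symm
  refine ⟨n, ?_⟩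
  have h4 : (((cyc V).map (fun e => arg ((e.2 - x) / (e.1 - x)))).sum : ℂ) =
      ((n * (2 * Real.pi) : ℝ) : ℂ) := by
    have hI : (I : ℂ) ≠ 0 := Complex.I_ne_zero
    apply mul_right_cancel₀ hI
    rw [hn]
    push_cast
    ring
  have h5 := Complex.ofReal_injective h4
  exact h5

/-- continuity of the angle of an edge away from it -/
theorem w2_ang_cont {a b y : ℂ} (hy : y ∉ segment ℝ a b) :
    ContinuousAt (fun x => ang x a b) y := by
  have hya : a - y ≠ 0 := by
    intro h
    apply hy
    rw [sub_eq_zero] at h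
    rw [← h]; exact left_mem_segment ℝ a b
  have hyb : b - y ≠ 0 := by
    intro h
    apply hy
    rw [sub_eq_zero] at h
    rw [← h]; exact right_mem_segment ℝ a b
  have hcont : ContinuousAt (fun x : ℂ => (b - x) / (a - x)) y := by
    apply ContinuousAt.div
    · fun_prop
    · fun_prop
    · exact hya
  have hs : (b - y) / (a - y) ∈ Complex.slitPlane := by
    rw [Complex.mem_slitPlane_iff]
    by_contra hcon
    push Not at hcon
    obtain ⟨hre, him⟩ := hcon
    apply hy
    set r : ℝ := -((b - y) / (a - y)).re with hr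
    have hr0 : 0 ≤ r := by rw [hr]; linarith
    have heq : (b - y) / (a - y) = -(r : ℂ) := by
      apply Complex.ext
      · simp [hr]
      · simp [him]
    rw [div_eq_iff hya] at heq
    have hr1 : (1 : ℝ) + r ≠ 0 := by positivity
    have hr1' : (1 : ℂ) + (r : ℂ) ≠ 0 := by exact_mod_cast hr1
    refine ⟨r / (1 + r), 1 / (1 + r), by positivity, by positivity, by field_simp; ring, ?_⟩
    simp only [Complex.real_smul]
    push_cast
    field_simp
    linear_combination heq
  exact ContinuousAt.comp (g := Complex.arg) (f := fun x : ℂ => (b - x) / (a - x))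
    (Complex.continuousAt_arg hs) hcont

/-- the total angle jumps by `2 π` across an edge -/
theorem wnd_jump {V : List ℂ} {a b y : ℂ} {R : List (ℂ × ℂ)} (hab : a ≠ b)
    (hV : (cyc V).Perm ((a, b) :: R)) (hy : y ∈ openSegment ℝ a b)
    (hR : ∀ e ∈ R, y ∉ segment ℝ e.1 e.2) :
    ∃ δ > 0, ∀ x x', ‖x - y‖ < δ → ‖x' - y‖ < δ → 0 < side a b x → side a b x' < 0 →
      x ∉ curve V ∧ x' ∉ curve V ∧ wnd x V = wnd x' V + 2 * Real.pi := by
  obtain ⟨δ1, hδ1, hj⟩ := ang_jump hab hy (ε := 1 / 2) (by norm_num)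
  -- continuity of the remaining sum
  have hgc : ContinuousAt (fun x => (R.map (fun e => ang x e.1 e.2)).sum) y := by
    have : ∀ L : List (ℂ × ℂ), (∀ e ∈ L, y ∉ segment ℝ e.1 e.2) →
        ContinuousAt (fun x => (L.map (fun e => ang x e.1 e.2)).sum) y := by
      intro L
      induction L with
      | nil => intro _; simp only [List.map_nil, List.sum_nil]; exact continuousAt_const
      | cons e L ih =>
        intro hL
        simp only [List.map_cons, List.sum_cons]
        exact (w2_ang_cont (hL e List.mem_cons_self)).add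
          (ih fun e' he' => hL e' (List.mem_cons_of_mem _ he'))
    exact this R hR
  obtain ⟨δ2, hδ2, hg⟩ := Metric.continuousAt_iff.mp hgc (1 / 2) (by norm_num)
  -- staying away from the other edges
  have haway : ∀ᶠ x in nhds y, ∀ e ∈ R, x ∉ segment ℝ e.1 e.2 := by
    have : ∀ L : List (ℂ × ℂ), (∀ e ∈ L, y ∉ segment ℝ e.1 e.2) →
        ∀ᶠ x in nhds y, ∀ e ∈ L, x ∉ segment ℝ e.1 e.2 := by
      intro L
      induction L with
      | nil => intro _; simp
      | cons e L ih =>
        intro hL
        have h1 : ∀ᶠ x in nhds y, x ∉ segment ℝ e.1 e.2 := by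
          have hc : IsClosed (segment ℝ e.1 e.2) := by
            rw [segment_eq_image_lineMap]
            exact (isCompact_Icc.image (AffineMap.lineMap_continuous)).isClosed
          exact hc.isOpen_compl.mem_nhds (hL e List.mem_cons_self)
        filter_upwards [h1, ih fun e' he' => hL e' (List.mem_cons_of_mem _ he')] with x hx1 hx2
        intro e' he'
        rcases List.mem_cons.mp he' with h | h
        · rw [h]; exact hx1
        · exact hx2 e' h
    exact this R hR
  obtain ⟨δ3, hδ3, haw⟩ := Metric.eventually_nhds_iff.mp haway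
  refine ⟨min δ1 (min δ2 δ3), lt_min hδ1 (lt_min hδ2 hδ3), fun x x' hx hx' hs hs' => ?_⟩
  have hseg : ∀ z, side a b z ≠ 0 → z ∉ segment ℝ a b := by
    rintro z hz ⟨p, q, hp, hq, hpq, rfl⟩
    apply hz
    unfold side
    have hp' : (p : ℂ) + (q : ℂ) = 1 := by exact_mod_cast hpq
    have e1 : (p • a + q • b) - a = (q : ℂ) * (b - a) := by
      simp only [Complex.real_smul]
      linear_combination a * hp'
    rw [e1, mul_assoc, Complex.mul_conj]
    simp
  have hcurve : ∀ z, ‖z - y‖ < min δ1 (min δ2 δ3) → side a b z ≠ 0 → z ∉ curve V := by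
    rintro z hz hsz ⟨e, he, hze⟩
    have he' := hV.mem_iff.mp he
    rcases List.mem_cons.mp he' with h | h
    · subst h
      exact hseg z hsz hze
    · exact haw (y := z) (by
        rw [dist_eq_norm]
        exact hz.trans_le ((min_le_right _ _).trans (min_le_right _ _))) e h hze
  have hxc := hcurve x hx hs.ne'
  have hxc' := hcurve x' hx' hs'.ne
  refine ⟨hxc, hxc', ?_⟩
  have hvert : ∀ z, z ∉ curve V → ∀ v ∈ V, v ≠ z := by
    intro z hz v hv hvz
    apply hz
    have hlen : V.length = (V.rotate 1).length := (List.length_rotate V 1).symm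
    have e1 : (cyc V).map Prod.fst = V := List.map_fst_zip hlen.le
    rw [← e1, List.mem_map] at hv
    obtain ⟨e, he, hev⟩ := hv
    refine ⟨e, he, ?_⟩
    rw [← hvz, ← hev]
    exact left_mem_segment ℝ _ _
  obtain ⟨n, hn⟩ := w2_wnd_int (hvert x hxc)
  obtain ⟨n', hn'⟩ := w2_wnd_int (hvert x' hxc')
  have hsum : ∀ z, wnd z V = ang z a b + (R.map (fun e => ang z e.1 e.2)).sum := by
    intro z
    unfold wnd
    rw [(hV.map _).sum_eq]
    simp
  have h1 := (hj x (hx.trans_le (min_le_left _ _))).1 hs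
  have h2 := (hj x' (hx'.trans_le (min_le_left _ _))).2 hs'
  have h3 := hg (x := x) (by
    rw [dist_eq_norm]; exact hx.trans_le ((min_le_right _ _).trans (min_le_left _ _)))
  have h4 := hg (x := x') (by
    rw [dist_eq_norm]; exact hx'.trans_le ((min_le_right _ _).trans (min_le_left _ _)))
  rw [Real.dist_eq] at h3 h4
  rw [abs_lt] at h1 h2 h3 h4
  have hw := hsum x
  have hw' := hsum x'
  have hpi : 3 < Real.pi := Real.pi_gt_three
  have hdiff : |((n : ℝ) - n' - 1) * (2 * Real.pi)| < 2 := by
    have : ((n : ℝ) - n' - 1) * (2 * Real.pi) = wnd x V - wnd x' V - 2 * Real.pi := by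
      rw [hn, hn']; ring
    rw [this, hw, hw', abs_lt]
    constructor <;> linarith
  have hzero : (n - n' - 1 : ℤ) = 0 := by
    by_contra hne
    have h5 : (1 : ℝ) ≤ |((n - n' - 1 : ℤ) : ℝ)| := by
      exact_mod_cast Int.one_le_abs hne
    rw [abs_mul, abs_of_pos (by positivity : (0 : ℝ) < 2 * Real.pi)] at hdiff
    push_cast at h5
    nlinarith
  have hz' : (n : ℝ) = n' + 1 := by
    have : (n : ℤ) = n' + 1 := by omega
    exact_mod_cast this
  rw [hn, hn', hz']
  ring

end

end Pool.Agent.Helper22.FC
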