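import Pool.Agent.Helper22.FC.Base

namespace Pool.Agent.Helper22.FC

open Complex

noncomputable section

namespace Pc

theorem tau_mul {p : Pc} (hp : p.Ok) : p.τ * (starRingEnd ℂ) p.τ = 1 := by
  rw [Complex.mul_conj, Complex.normSq_eq_norm_sq, hp.1]; simp

theorem σ_pt {p : Pc} (hp : p.Ok) (a b : ℝ) : p.σ (p.pt a b) = (a : ℂ) + b * I := by
  have h := tau_mul hp
  unfold σ pt
  split_ifs with hs
  · simp only [add_sub_cancel_left]
    rw [mul_assoc, h, mul_one]
  · simp only [add_sub_cancel_left]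
    rw [mul_assoc, h, mul_one]
    simp [add_comm]

theorem pt_σ {p : Pc} (hp : p.Ok) (x : ℂ) : p.pt (p.σ x).re (p.σ x).im = x := by
  have h := tau_mul hp
  unfold σ pt
  split_ifs with hs
  · rw [Complex.re_add_im, mul_assoc, mul_comm ((starRingEnd ℂ) p.τ), h]
    ring
  · set w := (x - p.t) * (starRingEnd ℂ) p.τ with hw
    have h2 : (-(((-(starRingEnd ℂ) w).re : ℝ) : ℂ) + ((-(starRingEnd ℂ) w).im : ℝ) * I) = w := by
      apply Complex.ext <;> simp
    rw [h2, hw, mul_assoc, mul_comm ((starRingEnd ℂ) p.τ), h]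
    ring

theorem exists_pt {p : Pc} (hp : p.Ok) (x : ℂ) : ∃ a b : ℝ, x = p.pt a b :=
  ⟨_, _, (pt_σ hp x).symm⟩

theorem pt_inj {p : Pc} (hp : p.Ok) {a b a' b' : ℝ} (h : p.pt a b = p.pt a' b') :
    a = a' ∧ b = b' := by
  have h1 := congrArg p.σ h
  rw [σ_pt hp, σ_pt hp] at h1
  constructor
  · simpa using congrArg Complex.re h1
  · simpa using congrArg Complex.im h1

theorem pt_comb (p : Pc) (u v a b a' b' : ℝ) (huv : u + v = 1) :
    u • p.pt a b + v • p.pt a' b' = p.pt (u * a + v * a') (u * b + v * b') := by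
  unfold pt
  have huv' : (u : ℂ) + v = 1 := by exact_mod_cast huv
  split_ifs with hs
  · simp only [Complex.real_smul]
    push_cast
    linear_combination p.t * huv'
  · simp only [Complex.real_smul]
    push_cast
    linear_combination p.t * huv'

theorem σ_isometry {p : Pc} (hp : p.Ok) : Isometry p.σ := by
  refine Isometry.of_dist_eq fun x y => ?_
  have hτ : ‖(starRingEnd ℂ) p.τ‖ = 1 := by rw [RCLike.norm_conj, hp.1]
  unfold σ
  split_ifs with hs
  · rw [dist_eq_norm, dist_eq_norm, ← sub_mul, norm_mul, hτ, mul_one]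
    congr 1
    ring
  · rw [dist_eq_norm, dist_eq_norm]
    have : -(starRingEnd ℂ) ((x - p.t) * (starRingEnd ℂ) p.τ) -
        -(starRingEnd ℂ) ((y - p.t) * (starRingEnd ℂ) p.τ) =
        -(starRingEnd ℂ) ((x - y) * (starRingEnd ℂ) p.τ) := by
      simp only [map_mul, map_sub]
      ring
    rw [this, norm_neg, RCLike.norm_conj, norm_mul, hτ, mul_one]

theorem σ_surj {p : Pc} (hp : p.Ok) : Function.Surjective p.σ := by
  intro q
  refine ⟨p.pt q.re q.im, ?_⟩
  rw [σ_pt hp, Complex.re_add_im]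

theorem mem_face {p : Pc} (hp : p.Ok) (a b : ℝ) : p.pt a b ∈ p.face ↔
    p.y0 ≤ b ∧ b ≤ p.y1 ∧ 0 ≤ a ∧ a * (p.y1 - p.y0) ≤ p.ρ0 * (p.y1 - b) + p.ρ1 * (b - p.y0) := by
  unfold face trap
  simp only [Set.mem_ofPred_eq, σ_pt hp]
  simp

theorem convex_face {p : Pc} (hp : p.Ok) : Convex ℝ p.face := by
  intro x hx y hy u v hu hv huv
  obtain ⟨a, b, rfl⟩ := exists_pt hp x
  obtain ⟨a', b', rfl⟩ := exists_pt hp y
  rw [pt_comb p u v a b a' b' huv]
  rw [mem_face hp] at hx hy ⊢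
  obtain ⟨h1, h2, h3, h4⟩ := hx
  obtain ⟨k1, k2, k3, k4⟩ := hy
  have hv' : v = 1 - u := by linarith
  refine ⟨?_, ?_, ?_, ?_⟩
  · have := mul_le_mul_of_nonneg_left h1 hu
    have := mul_le_mul_of_nonneg_left k1 hv
    subst hv'; nlinarith
  · have := mul_le_mul_of_nonneg_left h2 hu
    have := mul_le_mul_of_nonneg_left k2 hv
    subst hv'; nlinarith
  · positivity
  · have e1 := mul_le_mul_of_nonneg_left h4 hu
    have e2 := mul_le_mul_of_nonneg_left k4 hv
    subst hv'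
    nlinarith

theorem isClosed_face {p : Pc} (hp : p.Ok) : IsClosed p.face := by
  have hc : Continuous p.σ := (σ_isometry hp).continuous
  have h : IsClosed p.trap := by
    unfold trap
    apply IsClosed.inter (isClosed_le continuous_const Complex.continuous_im)
    apply IsClosed.inter (isClosed_le Complex.continuous_im continuous_const)
    apply IsClosed.inter (isClosed_le continuous_const Complex.continuous_re)
    exact isClosed_le (Complex.continuous_re.mul continuous_const)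
      ((continuous_const.mul (continuous_const.sub Complex.continuous_im)).add
        (continuous_const.mul (Complex.continuous_im.sub continuous_const)))
  exact h.preimage hc

theorem face_hull {p : Pc} (hp : p.Ok) : p.face = convexHull ℝ {p.s0, p.e0, p.e1, p.s1} := by
  obtain ⟨h1, h2, h3, h4⟩ := hp
  have hp : p.Ok := ⟨h1, h2, h3, h4⟩
  apply Set.Subset.antisymm
  · intro x hx
    obtain ⟨a, b, rfl⟩ := exists_pt hp x
    rw [mem_face hp] at hx
    obtain ⟨k1, k2, k3, k4⟩ := hx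
    set C := convexHull ℝ ({p.s0, p.e0, p.e1, p.s1} : Set ℂ) with hC
    have hconv : Convex ℝ C := convex_convexHull ℝ _
    have hs0 : p.s0 ∈ C := subset_convexHull ℝ _ (by simp)
    have hs1 : p.s1 ∈ C := subset_convexHull ℝ _ (by simp)
    have he0 : p.e0 ∈ C := subset_convexHull ℝ _ (by simp)
    have he1 : p.e1 ∈ C := subset_convexHull ℝ _ (by simp)
    have hd : 0 < p.y1 - p.y0 := by linarith
    set l := (b - p.y0) / (p.y1 - p.y0) with hl
    have hl0 : 0 ≤ l := div_nonneg (by linarith) hd.le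
    have hl1 : l ≤ 1 := by rw [hl, div_le_one hd]; linarith
    have hlb : (1 - l) * p.y0 + l * p.y1 = b := by
      rw [hl]; field_simp; ring
    have hP : p.pt 0 b ∈ C := by
      have := hconv hs0 hs1 (sub_nonneg.2 hl1) hl0 (by ring)
      unfold s0 s1 at this
      rw [pt_comb p _ _ _ _ _ _ (by ring)] at this
      rw [hlb] at this
      simpa using this
    set w := (1 - l) * p.ρ0 + l * p.ρ1 with hw
    have hR : p.pt w b ∈ C := by
      have := hconv he0 he1 (sub_nonneg.2 hl1) hl0 (by ring)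
      unfold e0 e1 at this
      rw [pt_comb p _ _ _ _ _ _ (by ring)] at this
      rw [hlb] at this
      simpa using this
    have hww : w * (p.y1 - p.y0) = p.ρ0 * (p.y1 - b) + p.ρ1 * (b - p.y0) := by
      rw [hw, hl]; field_simp; ring
    have haw : a ≤ w := by
      have : a * (p.y1 - p.y0) ≤ w * (p.y1 - p.y0) := by rw [hww]; exact k4
      exact le_of_mul_le_mul_right this hd
    rcases eq_or_lt_of_le (le_trans k3 haw) with h0 | h0
    · have : a = 0 := by linarith
      rw [this]; exact hP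
    · have := hconv hP hR (sub_nonneg.2 ((div_le_one h0).2 haw)) (div_nonneg k3 h0.le) (by ring)
      rw [pt_comb p _ _ _ _ _ _ (by ring)] at this
      have e1 : (1 - a / w) * 0 + a / w * w = a := by
        rw [mul_zero, zero_add, div_mul_cancel₀]; exact h0.ne'
      have e2 : (1 - a / w) * b + a / w * b = b := by ring
      rw [e1, e2] at this
      exact this
  · apply convexHull_min _ (convex_face hp)
    intro v hv
    simp only [Set.mem_insert_iff, Set.mem_singleton_iff] at hv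
    rcases hv with rfl | rfl | rfl | rfl
    · unfold s0; rw [mem_face hp]
      refine ⟨le_refl _, h2.le, le_refl _, ?_⟩
      have : 0 < p.ρ0 * (p.y1 - p.y0) := mul_pos h3 (by linarith)
      linarith
    · unfold e0; rw [mem_face hp]
      refine ⟨le_refl _, h2.le, h3.le, ?_⟩
      linarith
    · unfold e1; rw [mem_face hp]
      refine ⟨h2.le, le_refl _, h4, ?_⟩
      linarith
    · unfold s1; rw [mem_face hp]
      refine ⟨h2.le, le_refl _, le_refl _, ?_⟩
      have : 0 ≤ p.ρ1 * (p.y1 - p.y0) := mul_nonneg h4 (by linarith)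
      linarith

theorem dist_pt {p : Pc} (hp : p.Ok) (a b a' b' : ℝ) :
    dist (p.pt a b) (p.pt a' b') = ‖((a - a' : ℝ) : ℂ) + ((b - b' : ℝ) : ℂ) * I‖ := by
  rw [← (σ_isometry hp).dist_eq, σ_pt hp, σ_pt hp, dist_eq_norm]
  congr 1
  push_cast
  ring

theorem mem_interior_face {p : Pc} (hp : p.Ok) (a b : ℝ) : p.pt a b ∈ interior p.face ↔
    p.y0 < b ∧ b < p.y1 ∧ 0 < a ∧ a * (p.y1 - p.y0) < p.ρ0 * (p.y1 - b) + p.ρ1 * (b - p.y0) := by
  constructor
  · intro h
    rw [mem_interior_iff_mem_nhds, Metric.mem_nhds_iff] at h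
    obtain ⟨ε, hε, hb⟩ := h
    have key : ∀ a' b' : ℝ, ‖((a' - a : ℝ) : ℂ) + ((b' - b : ℝ) : ℂ) * I‖ < ε →
        p.pt a' b' ∈ p.face := by
      intro a' b' h'
      apply hb
      rw [Metric.mem_ball, dist_pt hp]
      exact h'
    have hε2 : |ε / 2| < ε := by rw [abs_of_pos (by linarith)]; linarith
    have q1 := key a (b - ε / 2) (by
      have : ((a - a : ℝ) : ℂ) + ((b - ε / 2 - b : ℝ) : ℂ) * I = -((ε / 2 : ℝ) : ℂ) * I := by
        push_cast; ring
      rw [this, norm_mul, norm_neg, Complex.norm_real, Complex.norm_I, mul_one]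
      rw [Real.norm_eq_abs]; exact hε2)
    have q2 := key a (b + ε / 2) (by
      have : ((a - a : ℝ) : ℂ) + ((b + ε / 2 - b : ℝ) : ℂ) * I = ((ε / 2 : ℝ) : ℂ) * I := by
        push_cast; ring
      rw [this, norm_mul, Complex.norm_real, Complex.norm_I, mul_one]
      rw [Real.norm_eq_abs]; exact hε2)
    have q3 := key (a - ε / 2) b (by
      have : ((a - ε / 2 - a : ℝ) : ℂ) + ((b - b : ℝ) : ℂ) * I = -((ε / 2 : ℝ) : ℂ) := by
        push_cast; ring
      rw [this, norm_neg, Complex.norm_real]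
      rw [Real.norm_eq_abs]; exact hε2)
    have q4 := key (a + ε / 2) b (by
      have : ((a + ε / 2 - a : ℝ) : ℂ) + ((b - b : ℝ) : ℂ) * I = ((ε / 2 : ℝ) : ℂ) := by
        push_cast; ring
      rw [this, Complex.norm_real]
      rw [Real.norm_eq_abs]; exact hε2)
    rw [mem_face hp] at q1 q2 q3 q4
    refine ⟨by linarith [q1.1], by linarith [q2.2.1], by linarith [q3.2.2.1], ?_⟩
    have hd : 0 < p.y1 - p.y0 := by linarith [hp.2.1]
    have := q4.2.2.2
    nlinarith
  · rintro ⟨h1, h2, h3, h4⟩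
    rw [mem_interior]
    refine ⟨p.σ ⁻¹' {q : ℂ | p.y0 < q.im ∧ q.im < p.y1 ∧ 0 < q.re ∧
      q.re * (p.y1 - p.y0) < p.ρ0 * (p.y1 - q.im) + p.ρ1 * (q.im - p.y0)}, ?_, ?_, ?_⟩
    · intro x hx
      simp only [Set.mem_preimage, Set.mem_ofPred_eq] at hx
      unfold face trap
      simp only [Set.mem_ofPred_eq]
      exact ⟨hx.1.le, hx.2.1.le, hx.2.2.1.le, hx.2.2.2.le⟩
    · apply IsOpen.preimage (σ_isometry hp).continuous
      apply IsOpen.inter (isOpen_lt continuous_const Complex.continuous_im)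
      apply IsOpen.inter (isOpen_lt Complex.continuous_im continuous_const)
      apply IsOpen.inter (isOpen_lt continuous_const Complex.continuous_re)
      exact isOpen_lt (Complex.continuous_re.mul continuous_const)
        ((continuous_const.mul (continuous_const.sub Complex.continuous_im)).add
          (continuous_const.mul (Complex.continuous_im.sub continuous_const)))
    · simp only [Set.mem_preimage, Set.mem_ofPred_eq, σ_pt hp]
      simp [h1, h2, h3, h4]

theorem face_closure {p : Pc} (hp : p.Ok) : closure (interior p.face) = p.face := by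
  have hne : (interior p.face).Nonempty := by
    refine ⟨p.pt (p.ρ0 / 4) ((p.y0 + p.y1) / 2), ?_⟩
    rw [mem_interior_face hp]
    obtain ⟨h1, h2, h3, h4⟩ := hp
    refine ⟨by linarith, by linarith, by linarith, ?_⟩
    have e1 : 0 < p.ρ0 * (p.y1 - p.y0) := mul_pos h3 (by linarith)
    have e2 : 0 ≤ p.ρ1 * (p.y1 - p.y0) := mul_nonneg h4 (by linarith)
    nlinarith
  rw [(convex_face hp).closure_interior_eq_closure_of_nonempty_interior hne]
  exact (isClosed_face hp).closure_eq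

theorem pt_mem_segment {p : Pc} (hp : p.Ok) (a b a1 b1 a2 b2 : ℝ) :
    p.pt a b ∈ segment ℝ (p.pt a1 b1) (p.pt a2 b2) ↔
      ∃ u v : ℝ, 0 ≤ u ∧ 0 ≤ v ∧ u + v = 1 ∧ a = u * a1 + v * a2 ∧ b = u * b1 + v * b2 := by
  constructor
  · rintro ⟨u, v, hu, hv, huv, h⟩
    rw [pt_comb p _ _ _ _ _ _ huv] at h
    obtain ⟨h1, h2⟩ := pt_inj hp h
    exact ⟨u, v, hu, hv, huv, h1.symm, h2.symm⟩
  · rintro ⟨u, v, hu, hv, huv, h1, h2⟩
    exact ⟨u, v, hu, hv, huv, by rw [pt_comb p _ _ _ _ _ _ huv, h1, h2]⟩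

theorem mem_curve_bd {p : Pc} (x : ℂ) : x ∈ curve p.bd ↔
    (x ∈ segment ℝ p.s0 p.e0 ∨ x ∈ segment ℝ p.e0 p.e1 ∨ x ∈ segment ℝ p.e1 p.s1 ∨
      x ∈ segment ℝ p.s1 p.s0) := by
  unfold curve bd
  split_ifs with hs
  · have : cyc [p.s0, p.e0, p.e1, p.s1] =
        [(p.s0, p.e0), (p.e0, p.e1), (p.e1, p.s1), (p.s1, p.s0)] := rfl
    rw [this]
    simp
  · have : cyc [p.e0, p.s0, p.s1, p.e1] =
        [(p.e0, p.s0), (p.s0, p.s1), (p.s1, p.e1), (p.e1, p.e0)] := rfl
    rw [this]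
    simp only [Set.mem_ofPred_eq, List.mem_cons, List.not_mem_nil, or_false, exists_eq_or_imp,
      exists_eq_left]
    rw [segment_symm ℝ p.e0 p.s0, segment_symm ℝ p.s0 p.s1, segment_symm ℝ p.s1 p.e1,
      segment_symm ℝ p.e1 p.e0]
    tauto

theorem frontier_face {p : Pc} (hp : p.Ok) : frontier p.face = curve p.bd := by
  ext x
  obtain ⟨a, b, rfl⟩ := exists_pt hp x
  rw [(isClosed_face hp).frontier_eq, Set.mem_sdiff, mem_face hp, mem_interior_face hp,
    mem_curve_bd]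
  unfold s0 e0 e1 s1
  rw [pt_mem_segment hp, pt_mem_segment hp, pt_mem_segment hp, pt_mem_segment hp]
  obtain ⟨h1, h2, h3, h4⟩ := hp
  have hd : 0 < p.y1 - p.y0 := by linarith
  constructor
  · rintro ⟨⟨k1, k2, k3, k4⟩, hn⟩
    rcases eq_or_lt_of_le k1 with e | e
    · left
      refine ⟨1 - a / p.ρ0, a / p.ρ0, ?_, div_nonneg k3 h3.le, by ring, ?_, ?_⟩
      · rw [sub_nonneg, div_le_one h3]
        rw [← e] at k4
        have : a * (p.y1 - p.y0) ≤ p.ρ0 * (p.y1 - p.y0) := by linarith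
        exact le_of_mul_le_mul_right this hd
      · field_simp; ring
      · rw [← e]; ring
    · rcases eq_or_lt_of_le k2 with e' | e'
      · right; right; left
        rw [e'] at k4
        have hle : a ≤ p.ρ1 := by
          have : a * (p.y1 - p.y0) ≤ p.ρ1 * (p.y1 - p.y0) := by linarith
          exact le_of_mul_le_mul_right this hd
        rcases eq_or_lt_of_le h4 with e4 | e4
        · refine ⟨1, 0, zero_le_one, le_refl _, by ring, ?_, ?_⟩
          · linarith
          · rw [e']; ring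
        · refine ⟨a / p.ρ1, 1 - a / p.ρ1, div_nonneg k3 e4.le, ?_, by ring, ?_, ?_⟩
          · rw [sub_nonneg, div_le_one e4]; exact hle
          · field_simp; ring
          · rw [e']; ring
      · rcases eq_or_lt_of_le k3 with e'' | e''
        · right; right; right
          refine ⟨(b - p.y0) / (p.y1 - p.y0), (p.y1 - b) / (p.y1 - p.y0),
            div_nonneg (by linarith) hd.le, div_nonneg (by linarith) hd.le, ?_, ?_, ?_⟩
          · rw [← add_div, div_eq_one_iff_eq hd.ne']; ring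
          · rw [← e'']; ring
          · field_simp; ring
        · right; left
          have e3 : a * (p.y1 - p.y0) = p.ρ0 * (p.y1 - b) + p.ρ1 * (b - p.y0) := by
            by_contra hne
            exact hn ⟨e, e', e'', lt_of_le_of_ne k4 hne⟩
          refine ⟨(p.y1 - b) / (p.y1 - p.y0), (b - p.y0) / (p.y1 - p.y0),
            div_nonneg (by linarith) hd.le, div_nonneg (by linarith) hd.le, ?_, ?_, ?_⟩
          · rw [← add_div, div_eq_one_iff_eq hd.ne']; ring
          · field_simp; linarith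
          · field_simp; ring
  · rintro (⟨u, v, hu, hv, huv, rfl, rfl⟩ | ⟨u, v, hu, hv, huv, rfl, rfl⟩ |
      ⟨u, v, hu, hv, huv, rfl, rfl⟩ | ⟨u, v, hu, hv, huv, rfl, rfl⟩)
    · have hu' : u = 1 - v := by linarith
      have hv1 : v ≤ 1 := by linarith
      have e1 : 0 ≤ (1 - v) * (p.ρ0 * (p.y1 - p.y0)) :=
        mul_nonneg (by linarith) (mul_nonneg h3.le hd.le)
      subst hu'
      refine ⟨⟨by nlinarith, by nlinarith, by positivity, by nlinarith⟩, ?_⟩
      rintro ⟨c1, _⟩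
      nlinarith
    · have hu' : u = 1 - v := by linarith
      have hv1 : v ≤ 1 := by linarith
      have e1 : 0 ≤ v * (p.y1 - p.y0) := mul_nonneg hv hd.le
      have e2 : 0 ≤ (1 - v) * (p.y1 - p.y0) := mul_nonneg (by linarith) hd.le
      have e3 : 0 ≤ (1 - v) * p.ρ0 := mul_nonneg (by linarith) h3.le
      have e4 : 0 ≤ v * p.ρ1 := mul_nonneg hv h4
      subst hu'
      refine ⟨⟨by nlinarith, by nlinarith, by linarith, by nlinarith⟩, ?_⟩
      rintro ⟨_, _, _, c4⟩
      nlinarith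
    · have hu' : u = 1 - v := by linarith
      have hv1 : v ≤ 1 := by linarith
      have e1 : 0 ≤ v * (p.ρ1 * (p.y1 - p.y0)) :=
        mul_nonneg hv (mul_nonneg h4 hd.le)
      have e3 : 0 ≤ (1 - v) * p.ρ1 := mul_nonneg (by linarith) h4
      subst hu'
      refine ⟨⟨by nlinarith, by nlinarith, by linarith, by nlinarith⟩, ?_⟩
      rintro ⟨_, c1, _⟩
      nlinarith
    · have hu' : u = 1 - v := by linarith
      have hv1 : v ≤ 1 := by linarith
      have e1 : 0 ≤ v * (p.y1 - p.y0) := mul_nonneg hv hd.le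
      have e2 : 0 ≤ (1 - v) * (p.y1 - p.y0) := mul_nonneg (by linarith) hd.le
      have e3 : 0 ≤ p.ρ0 * (v * (p.y1 - p.y0)) := mul_nonneg h3.le e1
      have e4 : 0 ≤ p.ρ1 * ((1 - v) * (p.y1 - p.y0)) := mul_nonneg h4 e2
      subst hu'
      refine ⟨⟨by nlinarith, by nlinarith, by linarith, by nlinarith⟩, ?_⟩
      rintro ⟨_, _, c3, _⟩
      linarith

theorem cyc_four {α : Type*} (A B C D : α) :
    cyc [A, B, C, D] = [(A, B), (B, C), (C, D), (D, A)] := rfl

theorem wnd_four (x A B C D : ℂ) :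
    wnd x [A, B, C, D] = ang x A B + ang x B C + ang x C D + ang x D A := by
  unfold wnd
  rw [cyc_four]
  simp only [List.map_cons, List.map_nil, List.sum_cons, List.sum_nil]
  ring

theorem ang_pos {x A B : ℂ} (h : 0 < ((B - x) * (starRingEnd ℂ) (A - x)).im) :
    0 < ang x A B ∧ ang x A B < Real.pi := by
  have hne : A - x ≠ 0 := by
    intro h0
    rw [h0] at h
    simp at h
  have him : 0 < ((B - x) / (A - x)).im := by
    rw [div_eq_mul_inv, Complex.inv_def, ← mul_assoc, Complex.im_mul_ofReal]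
    exact mul_pos h (inv_pos.2 (Complex.normSq_pos.2 hne))
  unfold ang
  have h1 : 0 ≤ arg ((B - x) / (A - x)) := Complex.arg_nonneg_iff.2 him.le
  have h2 : arg ((B - x) / (A - x)) ≠ 0 := by
    intro h0
    have := (Complex.arg_eq_zero_iff.1 h0).2
    exact him.ne' this
  have h3 : arg ((B - x) / (A - x)) ≠ Real.pi := by
    intro h0
    have := (Complex.arg_eq_pi_iff.1 h0).2
    exact him.ne' this
  exact ⟨lt_of_le_of_ne h1 (Ne.symm h2), lt_of_le_of_ne (Complex.arg_le_pi _) h3⟩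

theorem ang_nonneg {x A B : ℂ} (hA : A ≠ x)
    (h : 0 < ((B - x) * (starRingEnd ℂ) (A - x)).im ∨ A = B) :
    0 ≤ ang x A B ∧ ang x A B < Real.pi := by
  rcases h with h | h
  · exact ⟨(ang_pos h).1.le, (ang_pos h).2⟩
  · subst h
    unfold ang
    rw [div_self (sub_ne_zero.2 hA), Complex.arg_one]
    exact ⟨le_refl _, Real.pi_pos⟩

theorem ang_sum {x A B C D : ℂ} (hA : A ≠ x) (hB : B ≠ x) (hC : C ≠ x) (hD : D ≠ x) :
    ∃ k : ℤ, ang x A B + ang x B C + ang x C D + ang x D A = 2 * Real.pi * k := by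
  have a0 := sub_ne_zero.2 hA
  have b0 := sub_ne_zero.2 hB
  have c0 := sub_ne_zero.2 hC
  have d0 := sub_ne_zero.2 hD
  have h : ((ang x A B + ang x B C + ang x C D + ang x D A : ℝ) : Real.Angle) =
      ((0 : ℝ) : Real.Angle) := by
    unfold ang
    rw [Real.Angle.coe_add, Real.Angle.coe_add, Real.Angle.coe_add]
    rw [← Complex.arg_mul_coe_angle (div_ne_zero b0 a0) (div_ne_zero c0 b0),
      ← Complex.arg_mul_coe_angle (mul_ne_zero (div_ne_zero b0 a0) (div_ne_zero c0 b0))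
        (div_ne_zero d0 c0),
      ← Complex.arg_mul_coe_angle (mul_ne_zero (mul_ne_zero (div_ne_zero b0 a0)
        (div_ne_zero c0 b0)) (div_ne_zero d0 c0)) (div_ne_zero a0 d0)]
    have : (B - x) / (A - x) * ((C - x) / (B - x)) * ((D - x) / (C - x)) *
        ((A - x) / (D - x)) = 1 := by
      field_simp
    rw [this, Complex.arg_one]
  obtain ⟨k, hk⟩ := Real.Angle.angle_eq_iff_two_pi_dvd_sub.1 h
  exact ⟨k, by rw [← hk, sub_zero]⟩

theorem wnd_in {x A B C D : ℂ} (hA : A ≠ x) (hB : B ≠ x) (hC : C ≠ x) (hD : D ≠ x)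
    (h1 : 0 < ((B - x) * (starRingEnd ℂ) (A - x)).im)
    (h2 : 0 < ((C - x) * (starRingEnd ℂ) (B - x)).im ∨ B = C)
    (h3 : 0 < ((D - x) * (starRingEnd ℂ) (C - x)).im ∨ C = D)
    (h4 : 0 < ((A - x) * (starRingEnd ℂ) (D - x)).im ∨ D = A) :
    wnd x [A, B, C, D] = 2 * Real.pi := by
  rw [wnd_four]
  obtain ⟨k, hk⟩ := ang_sum hA hB hC hD
  have e1 := ang_pos h1
  have e2 := ang_nonneg hB h2
  have e3 := ang_nonneg hC h3
  have e4 := ang_nonneg hD h4
  have hpi := Real.pi_pos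
  have k1 : (0 : ℝ) < k := by
    by_contra hcon
    push Not at hcon
    have : 2 * Real.pi * (k : ℝ) ≤ 0 := mul_nonpos_of_nonneg_of_nonpos (by positivity) hcon
    linarith [e1.1, e2.1, e3.1, e4.1]
  have k2 : (k : ℝ) < 2 := by
    by_contra hcon
    push Not at hcon
    have : 2 * Real.pi * 2 ≤ 2 * Real.pi * (k : ℝ) := by gcongr
    linarith [e1.2, e2.2, e3.2, e4.2]
  have k3 : k = 1 := by
    have q1 : (0 : ℤ) < k := by exact_mod_cast k1
    have q2 : k < 2 := by exact_mod_cast k2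
    omega
  rw [hk, k3]
  simp

theorem ang_out {x A B u : ℂ} (hA : 0 < ((A - x) * (starRingEnd ℂ) u).re)
    (hB : 0 < ((B - x) * (starRingEnd ℂ) u).re) :
    ang x A B = arg ((B - x) * (starRingEnd ℂ) u) - arg ((A - x) * (starRingEnd ℂ) u) := by
  set z := (A - x) * (starRingEnd ℂ) u with hz
  set w := (B - x) * (starRingEnd ℂ) u with hw
  have hu : (starRingEnd ℂ) u ≠ 0 := by
    intro h0
    rw [hz, h0] at hA
    simp at hA
  have hz0 : z ≠ 0 := by
    intro h0; rw [h0] at hA; simp at hA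
  have hw0 : w ≠ 0 := by
    intro h0; rw [h0] at hB; simp at hB
  have hq : (B - x) / (A - x) = w * z⁻¹ := by
    rw [hz, hw, ← div_eq_mul_inv, mul_div_mul_right _ _ hu]
  have az := abs_lt.1 (Complex.abs_arg_lt_pi_div_two_iff.2 (Or.inl hA))
  have aw := abs_lt.1 (Complex.abs_arg_lt_pi_div_two_iff.2 (Or.inl hB))
  have hpi := Real.pi_pos
  have hinv : arg z⁻¹ = -arg z := by
    rw [Complex.arg_inv, if_neg]
    intro h0
    rw [h0] at az
    linarith [az.2]
  unfold ang
  rw [hq, Complex.arg_mul hw0 (inv_ne_zero hz0), hinv]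
  · ring
  · rw [hinv]
    constructor
    · linarith [az.1, az.2, aw.1, aw.2]
    · linarith [az.1, az.2, aw.1, aw.2]

theorem wnd_out {x A B C D u : ℂ} (hA : 0 < ((A - x) * (starRingEnd ℂ) u).re)
    (hB : 0 < ((B - x) * (starRingEnd ℂ) u).re) (hC : 0 < ((C - x) * (starRingEnd ℂ) u).re)
    (hD : 0 < ((D - x) * (starRingEnd ℂ) u).re) : wnd x [A, B, C, D] = 0 := by
  rw [wnd_four, ang_out hA hB, ang_out hB hC, ang_out hC hD, ang_out hD hA]
  ring

theorem cross_pt {p : Pc} (hp : p.Ok) (a b v1 v2 w1 w2 : ℝ) :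
    ((p.pt w1 w2 - p.pt a b) * (starRingEnd ℂ) (p.pt v1 v2 - p.pt a b)).im =
      (if p.s then 1 else -1) * ((w2 - b) * (v1 - a) - (w1 - a) * (v2 - b)) := by
  have h := tau_mul hp
  unfold pt
  split_ifs with hs
  · have : (p.t + ((w1 : ℂ) + w2 * I) * p.τ - (p.t + ((a : ℂ) + b * I) * p.τ)) *
        (starRingEnd ℂ) (p.t + ((v1 : ℂ) + v2 * I) * p.τ - (p.t + ((a : ℂ) + b * I) * p.τ)) =
        (((w1 - a : ℝ) : ℂ) + ((w2 - b : ℝ) : ℂ) * I) *
          (((v1 - a : ℝ) : ℂ) - ((v2 - b : ℝ) : ℂ) * I) := by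
      simp only [map_sub, map_add, map_mul, Complex.conj_ofReal, Complex.conj_I]
      push_cast
      linear_combination (((w1 : ℂ) - a) + ((w2 : ℂ) - b) * I) *
        (((v1 : ℂ) - a) - ((v2 : ℂ) - b) * I) * h
    rw [this]
    simp
    ring
  · have : (p.t + (-(w1 : ℂ) + w2 * I) * p.τ - (p.t + (-(a : ℂ) + b * I) * p.τ)) *
        (starRingEnd ℂ) (p.t + (-(v1 : ℂ) + v2 * I) * p.τ - (p.t + (-(a : ℂ) + b * I) * p.τ)) =
        (-((w1 - a : ℝ) : ℂ) + ((w2 - b : ℝ) : ℂ) * I) *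
          (-((v1 - a : ℝ) : ℂ) - ((v2 - b : ℝ) : ℂ) * I) := by
      simp only [map_sub, map_add, map_mul, map_neg, Complex.conj_ofReal, Complex.conj_I]
      push_cast
      linear_combination (-((w1 : ℂ) - a) + ((w2 : ℂ) - b) * I) *
        (-((v1 : ℂ) - a) - ((v2 : ℂ) - b) * I) * h
    rw [this]
    simp
    ring

theorem dot_pt {p : Pc} (hp : p.Ok) (a b v1 v2 c d : ℝ) :
    ((p.pt v1 v2 - p.pt a b) *
      (starRingEnd ℂ) (((if p.s then (c : ℂ) else -(c : ℂ)) + d * I) * p.τ)).re =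
      (v1 - a) * c + (v2 - b) * d := by
  have h := tau_mul hp
  unfold pt
  split_ifs with hs
  · have : (p.t + ((v1 : ℂ) + v2 * I) * p.τ - (p.t + ((a : ℂ) + b * I) * p.τ)) *
        (starRingEnd ℂ) (((c : ℂ) + d * I) * p.τ) =
        (((v1 - a : ℝ) : ℂ) + ((v2 - b : ℝ) : ℂ) * I) * ((c : ℂ) - (d : ℂ) * I) := by
      simp only [map_add, map_mul, Complex.conj_ofReal, Complex.conj_I]
      push_cast
      linear_combination (((v1 : ℂ) - a) + ((v2 : ℂ) - b) * I) * ((c : ℂ) - d * I) * h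
    rw [this]
    simp
  · have : (p.t + (-(v1 : ℂ) + v2 * I) * p.τ - (p.t + (-(a : ℂ) + b * I) * p.τ)) *
        (starRingEnd ℂ) ((-(c : ℂ) + d * I) * p.τ) =
        (-((v1 - a : ℝ) : ℂ) + ((v2 - b : ℝ) : ℂ) * I) * (-(c : ℂ) - (d : ℂ) * I) := by
      simp only [map_add, map_mul, map_neg, Complex.conj_ofReal, Complex.conj_I]
      push_cast
      linear_combination (-((v1 : ℂ) - a) + ((v2 : ℂ) - b) * I) * (-(c : ℂ) - d * I) * h
    rw [this]
    simp
    ring

theorem pt_ne {p : Pc} (hp : p.Ok) {a b v1 v2 : ℝ} (h : v1 ≠ a ∨ v2 ≠ b) :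
    p.pt v1 v2 ≠ p.pt a b := by
  intro h0
  obtain ⟨h1, h2⟩ := pt_inj hp h0
  rcases h with h | h
  · exact h h1
  · exact h h2

theorem wnd_inside {p : Pc} (hp : p.Ok) {x : ℂ} (hx : x ∈ interior p.face) :
    wnd x p.bd = 2 * Real.pi := by
  obtain ⟨a, b, rfl⟩ := exists_pt hp x
  rw [mem_interior_face hp] at hx
  obtain ⟨k1, k2, k3, k4⟩ := hx
  obtain ⟨h1, h2, h3, h4⟩ := hp
  have hp : p.Ok := ⟨h1, h2, h3, h4⟩
  have n1 : p.pt 0 p.y0 ≠ p.pt a b := pt_ne hp (Or.inr k1.ne)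
  have n2 : p.pt p.ρ0 p.y0 ≠ p.pt a b := pt_ne hp (Or.inr k1.ne)
  have n3 : p.pt p.ρ1 p.y1 ≠ p.pt a b := pt_ne hp (Or.inr k2.ne')
  have n4 : p.pt 0 p.y1 ≠ p.pt a b := pt_ne hp (Or.inr k2.ne')
  have c1 : 0 < (b - p.y0) * p.ρ0 := mul_pos (by linarith) h3
  have c2 : 0 < p.ρ0 * (p.y1 - b) + p.ρ1 * (b - p.y0) - a * (p.y1 - p.y0) := by linarith
  have c4 : 0 < a * (p.y1 - p.y0) := mul_pos k3 (by linarith)
  have c3 : 0 < (p.y1 - b) * p.ρ1 ∨ p.ρ1 = 0 := by
    rcases eq_or_lt_of_le h4 with e | e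
    · right; exact e.symm
    · left; exact mul_pos (by linarith) e
  unfold bd s0 e0 e1 s1
  by_cases hs : p.s
  · rw [if_pos hs]
    refine wnd_in n1 n2 n3 n4 ?_ (Or.inl ?_) ?_ (Or.inl ?_)
    · rw [cross_pt hp, if_pos hs]; linarith
    · rw [cross_pt hp, if_pos hs]; linarith
    · rcases c3 with c3 | c3
      · left; rw [cross_pt hp, if_pos hs]; linarith
      · right; rw [c3]
    · rw [cross_pt hp, if_pos hs]; linarith
  · rw [if_neg hs]
    refine wnd_in n2 n1 n4 n3 ?_ (Or.inl ?_) ?_ (Or.inl ?_)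
    · rw [cross_pt hp, if_neg hs]; linarith
    · rw [cross_pt hp, if_neg hs]; linarith
    · rcases c3 with c3 | c3
      · left; rw [cross_pt hp, if_neg hs]; linarith
      · right; rw [c3]
    · rw [cross_pt hp, if_neg hs]; linarith

theorem wnd_outside {p : Pc} (hp : p.Ok) {x : ℂ} (hx : x ∉ p.face) : wnd x p.bd = 0 := by
  obtain ⟨a, b, rfl⟩ := exists_pt hp x
  rw [mem_face hp] at hx
  obtain ⟨h1, h2, h3, h4⟩ := hp
  have hp : p.Ok := ⟨h1, h2, h3, h4⟩
  have hd : 0 < p.y1 - p.y0 := by linarith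
  have key : ∃ c d : ℝ, 0 < (0 - a) * c + (p.y0 - b) * d ∧ 0 < (p.ρ0 - a) * c + (p.y0 - b) * d ∧
      0 < (p.ρ1 - a) * c + (p.y1 - b) * d ∧ 0 < (0 - a) * c + (p.y1 - b) * d := by
    by_cases g1 : p.y0 ≤ b
    · by_cases g2 : b ≤ p.y1
      · by_cases g3 : 0 ≤ a
        · have g4 : p.ρ0 * (p.y1 - b) + p.ρ1 * (b - p.y0) < a * (p.y1 - p.y0) := by
            by_contra hcon
            exact hx ⟨g1, g2, g3, not_lt.1 hcon⟩
          have e1 : 0 < p.ρ0 * (p.y1 - p.y0) := mul_pos h3 hd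
          have e2 : 0 ≤ p.ρ1 * (p.y1 - p.y0) := mul_nonneg h4 hd.le
          refine ⟨-(p.y1 - p.y0), p.ρ1 - p.ρ0, ?_, ?_, ?_, ?_⟩ <;> nlinarith
        · refine ⟨1, 0, ?_, ?_, ?_, ?_⟩ <;> linarith
      · refine ⟨0, -1, ?_, ?_, ?_, ?_⟩ <;> linarith
    · refine ⟨0, 1, ?_, ?_, ?_, ?_⟩ <;> linarith
  obtain ⟨c, d, q1, q2, q3, q4⟩ := key
  unfold bd s0 e0 e1 s1
  split_ifs with hs
  · refine wnd_out (u := ((if p.s then (c : ℂ) else -(c : ℂ)) + d * I) * p.τ) ?_ ?_ ?_ ?_ <;>
      rw [dot_pt hp] <;> assumption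
  · refine wnd_out (u := ((if p.s then (c : ℂ) else -(c : ℂ)) + d * I) * p.τ) ?_ ?_ ?_ ?_ <;>
      rw [dot_pt hp] <;> assumption

end Pc

end

end Pool.Agent.Helper22.FC
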