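import Pool.Agent.Helper22.FC.W1
import Pool.Agent.Helper22.FC.W2
import Pool.Agent.Helper22.FC.W3
import Pool.Agent.Helper22.FC.K1
import Pool.Agent.Helper22.FC.K2
import Pool.Agent.Helper22.FC.K3
import Pool.Agent.Helper22.FC.K4
import Pool.Agent.Helper22.FC.K5
import Pool.Agent.Helper22.FC.C1
import Pool.Agent.Helper22.FC.C2
import Pool.Agent.Helper22.FC.C3
import Pool.Agent.Helper22.FC.T1
import Pool.Agent.Helper22.FC.T2
import Pool.Agent.Helper22.FC.T3
import Pool.Agent.Helper22.FC.T4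
import Pool.Agent.Helper22.FC.T5
import Pool.Agent.Helper22.FC.A1
import Pool.Agent.Helper22.FC.A2
import Pool.Agent.Helper22.FC.A3
import Pool.Agent.Helper22.FC.A4
import Pool.Agent.Helper22.FC.A7

/-! Assembling the construction of the stack of pieces over a simple polygon. -/

namespace Pool.Agent.Helper22.FC

open Complex

noncomputable section

theorem wndFacts : WndFacts where
  const := wnd_const
  closed := curve_isClosed
  half := wnd_half
  rot := wnd_rotate
  crot := curve_rotate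
  swap := ang_swap
  add := ang_add
  int := wnd_int
  jump := wnd_jump

theorem pcFacts : PcFacts where
  face_hull := Pc.face_hull
  isom := Pc.σ_isometry
  surj := Pc.σ_surj
  σ_pt := Pc.σ_pt
  mem_face := Pc.mem_face
  mem_int := Pc.mem_interior_face
  face_closure := Pc.face_closure
  frontier_face := Pc.frontier_face
  wnd_inside := Pc.wnd_inside
  wnd_outside := Pc.wnd_outside

/-- there is a stack -/
def NS (H : ℝ) (D : List (ℂ × ℝ)) : Prop := Nonempty (Stack H D)

theorem ns_glue1 {H : ℝ} {p y : ℂ × ℝ} {X Y : List (ℂ × ℝ)} (hY : Y ≠ [])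
    (h1 : NS H ([p, y] ++ Y)) (h2 : NS H ([p] ++ X ++ [y])) : NS H ([p] ++ X ++ [y] ++ Y) := by
  obtain ⟨S⟩ := h1
  obtain ⟨S'⟩ := h2
  exact Stack.glue1 hY S S'

theorem ns_zip {H : ℝ} {x y : ℂ × ℝ} {A B : List (ℂ × ℝ)} (hAB : A ≠ [] ∨ B ≠ [])
    (h : NS H (A ++ [x, y, x] ++ B)) : NS H (A ++ [x] ++ B) := by
  obtain ⟨S⟩ := h
  exact Stack.zip hAB S

theorem ns_rotate {H : ℝ} {D : List (ℂ × ℝ)} (h : NS H D) (k : ℕ) : NS H (D.rotate k) := by
  obtain ⟨S⟩ := h
  exact S.rotate k

theorem ns_glue {H : ℝ} {p q : ℂ × ℝ} {M D B : List (ℂ × ℝ)} (hB : B ≠ [])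
    (h1 : NS H ([p] ++ M ++ [q] ++ B)) (h2 : NS H ([p] ++ D ++ [q] ++ M.reverse)) :
    NS H ([p] ++ D ++ [q] ++ B) :=
  glue_path NS (fun hY h1 h2 => ns_glue1 hY h1 h2) (fun hAB h => ns_zip hAB h) hB h1 h2

theorem ns_cpi {n : ℕ} {c : ℕ → ℂ} {r θ : ℕ → ℝ} (h : CPI n c r θ) (H : ℝ) :
    NS H ((List.range n).map (fun i => (c i, r i))) :=
  cpi_stack NS (fun h _ _ h1 h2 h3 => CPI.arc h h1 h2 h3) (fun h1 h2 h3 h4 h5 h6 h7 h8 h9 h10 h11 =>
    zero_run h1 h2 h3 h4 h5 h6 h7 h8 h9 h10 h11) (fun h i => kap_rel h i)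
    (fun h i => kap_nonneg h i) (fun h i => kap_per h i) (fun h t i => cen_edge h t i)
    (fun h h' => first_time h h')
    (fun hh G hG hpos hS => by
      obtain ⟨S⟩ := hS
      obtain ⟨S', _⟩ := Stack.ring hh G hG hpos S
      exact ⟨S'⟩)
    (fun hh G hne hG h0 => stack_point hh G hne hG h0)
    (fun hY h1 h2 => ns_glue1 hY h1 h2) (fun h k => ns_rotate h k) h H

theorem good_ne {V : List ℂ} (h : Good V) : ∀ e ∈ cyc V, e.1 ≠ e.2 := by
  induction h with
  | tri a b c h =>
    intro e he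
    have hab : a ≠ b := by rintro rfl; simp [side] at h
    have hbc : b ≠ c := by
      rintro rfl
      have : side a b b = 0 := by simp only [side_eq']; ring
      linarith
    have hca : c ≠ a := by rintro rfl; simp [side] at h
    simp [cyc] at he
    rcases he with rfl | rfl | rfl
    · exact hab
    · exact hbc
    · exact hca
  | cut x y E B hE hB h1 h2 ih1 ih2 =>
    intro e he
    have e0 : [x] ++ E ++ [y] ++ B = x :: (E ++ y :: B) := by simp
    have e1 : [x] ++ E ++ [y] = x :: (E ++ y :: []) := by simp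
    have e2 : [x, y] ++ B = x :: ([] ++ y :: B) := by simp
    rw [e0, g1cyc, g1cp_append, List.mem_append] at he
    rcases he with he | he
    · refine ih2 e ?_
      rw [e1, g1cyc, g1cp_append, List.mem_append]
      exact Or.inl he
    · refine ih1 e ?_
      rw [e2, g1cyc, g1cp_append, List.mem_append]
      exact Or.inr he
  | rot V k h ih =>
    intro e he
    rw [cyc_rotate, List.mem_rotate] at he
    exact ih e he

theorem good_fill {V : List ℂ} (h : Good V) : Fill NS V := by
  induction h with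
  | tri a b c h => exact fill_tri NS (fun n c r θ h H => ns_cpi h H) h
  | cut x y E B hE hB h1 h2 ih1 ih2 =>
    have hxy : x ≠ y := by
      refine good_ne h1 (x, y) ?_
      rw [show [x, y] ++ B = x :: (y :: B) from rfl, g1cyc]
      simp [g1cp]
    exact fill_cut NS (fun hB h1 h2 => ns_glue hB h1 h2) hxy hE hB ih1 ih2
  | rot V k h ih => exact fill_rot NS (fun h k => ns_rotate h k) ih k

theorem tri_ne {a b c : ℂ} (h : SimpleL [b, c, a]) : side a b c ≠ 0 := by
  obtain ⟨v, hv, u, hu⟩ := exists_dir [b, c, a] (by simp)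
  have hnd := h.2.1
  simp only [List.nodup_cons, List.mem_cons, List.not_mem_nil, or_false, not_or] at hnd
  obtain ⟨⟨hbc, hba⟩, hca, _⟩ := hnd
  have hc1 : side b c a = side a b c := by simp only [side_eq']; ring
  have hc2 : side c a b = side a b c := by simp only [side_eq']; ring
  simp only [List.mem_cons, List.not_mem_nil, or_false] at hv
  rcases hv with rfl | rfl | rfl
  · refine (near_extreme wndFacts (a := a) (b := v) (c := c) (u := u) (M := []) h ?_).1
    intro w hw
    simp at hw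
    rcases hw with rfl | rfl
    · exact hu _ (by simp) (Ne.symm hbc)
    · exact hu _ (by simp) (Ne.symm hba)
  · rw [← hc1]
    have h' : SimpleL [v, a, b] := h.rotate 1
    refine (near_extreme wndFacts (a := b) (b := v) (c := a) (u := u) (M := []) h' ?_).1
    intro w hw
    simp at hw
    rcases hw with rfl | rfl
    · exact hu _ (by simp) (Ne.symm hca)
    · exact hu _ (by simp) hbc
  · rw [← hc2]
    have h' : SimpleL [v, b, c] := h.rotate 2
    refine (near_extreme wndFacts (a := c) (b := v) (c := b) (u := u) (M := []) h' ?_).1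
    intro w hw
    simp at hw
    rcases hw with rfl | rfl
    · exact hu _ (by simp) hba
    · exact hu _ (by simp) hca

theorem tri3 (a b c : ℂ) (h : SimpleL [b, c, a]) (x : ℂ) (hx : x ∉ curve [b, c, a]) :
    wnd x [b, c, a] = 0 ∨
      wnd x [b, c, a] = if 0 < side a b c then 2 * Real.pi else - (2 * Real.pi) := by
  have hs := tri_ne h
  have hcurve : ∀ p q, (p, q) ∈ cyc [b, c, a] → x ∉ segment ℝ p q := fun p q hpq hx' =>
    hx ⟨(p, q), hpq, hx'⟩
  by_cases hA : side b c x / side a b c < 0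
  · exact Or.inl (tri_out wndFacts hs (Or.inl hA))
  by_cases hB : side c a x / side a b c < 0
  · exact Or.inl (tri_out wndFacts hs (Or.inr (Or.inl hB)))
  by_cases hC : side a b x / side a b c < 0
  · exact Or.inl (tri_out wndFacts hs (Or.inr (Or.inr hC)))
  rw [not_lt] at hA hB hC
  have h1 := bary_one (x := x) hs
  have he := bary_eq (x := x) hs
  rcases hA.eq_or_lt with hA0 | hA0
  · exfalso
    refine hcurve b c (by simp [cyc]) ?_
    refine seg_of_coord0 hB hC (by rw [← hA0] at h1; linarith) ?_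
    rw [← hA0] at he
    simpa using he
  rcases hB.eq_or_lt with hB0 | hB0
  · exfalso
    refine hcurve c a (by simp [cyc]) ?_
    refine seg_of_coord0 hC hA (by rw [← hB0] at h1; linarith) ?_
    rw [← hB0] at he
    rw [add_comm]
    simpa using he
  rcases hC.eq_or_lt with hC0 | hC0
  · exfalso
    refine hcurve a b (by simp [cyc]) ?_
    refine seg_of_coord0 hA hB (by rw [← hC0] at h1; linarith) ?_
    rw [← hC0] at he
    simpa using he
  have hin := tri_in wndFacts hs (x := x) ⟨hA0, hB0, hC0⟩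
  right
  split_ifs with hpos
  · exact hin.1 hpos
  · exact hin.2 (lt_of_le_of_ne (not_lt.1 hpos) hs)

theorem simple_good' {V : List ℂ} (hV : SimpleL V) :
    ∃ s : ℝ, (s = 1 ∨ s = -1) ∧ (∀ x, x ∉ curve V → wnd x V = 0 ∨ wnd x V = 2 * Real.pi * s) ∧
      (s = 1 → Good V) :=
  simple_good wnd_rotate curve_rotate tri3 (fun h hu => (near_extreme wndFacts h hu).1)
    (fun h hM hs => ear_or_diag h hM hs)
    (fun hM hV hu h2 hT hs _ hs1 hw => ear_values wndFacts hM hV hu h2 hT hs hs1 hw)
    (fun hV hu h1 h2 hd hsub _ _ hs1 hs2 hw1 hw2 =>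
      split_values wndFacts (fun h hu => near_extreme wndFacts h hu) hV hu h1 h2 hd hsub hs1 hs2
        hw1 hw2) hV

/-- the bottom ring of the final stack -/
def FinalQ (D : List (ℂ × ℝ)) : Prop := ∃ S : Stack 0 D,
  (∀ k, (∀ e ∈ S.T, k ≠ e.2.1 ∧ k ≠ e.2.2) → 0 < (S.pc k).y0) ∧ ∀ e ∈ S.T, S.RB e.2.1 e.2.2

theorem final_good {V : List ℂ} (hV : SimpleL V) (hg : Good V) :
    ∃ R > 0, ∃ K : List Cor, K.map Prod.fst = V ∧
      (∀ x ∈ K, x.2.1 = R ∧ ∀ w ∈ x.2.2, 0 < w ∧ w < R) ∧ (∀ e ∈ cyc K, FitE e.1 e.2) ∧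
      FinalQ (tips K) := by
  refine final_stack NS FinalQ ?_ hV (good_fill hg)
  intro h hh G hG hpos hS
  have hS' : NS (0 + h) (G.map (inner h)) := by rw [zero_add]; exact hS
  obtain ⟨S⟩ := hS'
  obtain ⟨S', h1, h2⟩ := Stack.ring hh G hG hpos S
  exact ⟨S', h1, h2⟩

end

end Pool.Agent.Helper22.FC
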