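import Pool.Agent.Helper22.FC.Base

namespace Pool.Agent.Helper22.FC

open Complex

noncomputable section

theorem j1560_cyc_cons {α : Type*} (a : α) (Y : List α) :
    cyc (a :: Y) = (a :: Y).zip (Y ++ [a]) := by
  simp [cyc]

theorem j1560_cyc_rotate {α : Type*} (V : List α) (k : ℕ) :
    cyc (V.rotate k) = (cyc V).rotate k := by
  unfold cyc
  rw [List.rotate_rotate, Nat.add_comm, ← List.rotate_rotate]
  unfold List.zip
  rw [List.zipWith_rotate_distrib]
  simp

theorem j1560_simple_rot {V : List ℂ} (h : SimpleL V) (k : ℕ) : SimpleL (V.rotate k) := by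
  obtain ⟨h1, h2, h3⟩ := h
  refine ⟨by simpa using h1, by simpa using h2, ?_⟩
  intro e he e' he' hne
  rw [j1560_cyc_rotate, List.mem_rotate] at he he'
  exact h3 e he e' he' hne

theorem j1560_fst_mem {α : Type*} {Y Z : List α} {e : α × α} (h : e ∈ Y.zip Z) : e.1 ∈ Y :=
  (List.of_mem_zip (a := e.1) (b := e.2) h).1

theorem j1560_exists_edge {V : List ℂ} {m : ℂ} (h : m ∈ V) : ∃ e ∈ cyc V, e.1 = m := by
  obtain ⟨i, hi, rfl⟩ := List.mem_iff_getElem.1 h
  refine ⟨(V[i], (V.rotate 1)[i]'(by simpa using hi)), ?_, rfl⟩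
  unfold cyc
  rw [List.mem_iff_getElem]
  refine ⟨i, by simpa using hi, by simp⟩

theorem j1560_param {a b x : ℂ} (h : x ∈ segment ℝ a b) :
    ∃ t : ℝ, 0 ≤ t ∧ t ≤ 1 ∧ x = a + t * (b - a) := by
  rw [segment_eq_image'] at h
  obtain ⟨t, ht, rfl⟩ := h
  exact ⟨t, ht.1, ht.2, by simp⟩

theorem j1560_param' {a b x : ℂ} {t : ℝ} (h0 : 0 ≤ t) (h1 : t ≤ 1) (h : x = a + t * (b - a)) :
    x ∈ segment ℝ a b := by
  rw [segment_eq_image']
  exact ⟨t, ⟨h0, h1⟩, by simp [h]⟩

theorem j1560_paramo {a b x : ℂ} (h : x ∈ openSegment ℝ a b) :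
    ∃ t : ℝ, 0 < t ∧ t < 1 ∧ x = a + t * (b - a) := by
  rw [openSegment_eq_image'] at h
  obtain ⟨t, ht, rfl⟩ := h
  exact ⟨t, ht.1, ht.2, by simp⟩

theorem j1560_paramo' {a b x : ℂ} {t : ℝ} (h0 : 0 < t) (h1 : t < 1) (h : x = a + t * (b - a)) :
    x ∈ openSegment ℝ a b := by
  rw [openSegment_eq_image']
  exact ⟨t, ⟨h0, h1⟩, by simp [h]⟩

theorem j1560_seg_union {a m b : ℂ} (hm : m ∈ openSegment ℝ a b) :
    segment ℝ a m ∪ segment ℝ m b = segment ℝ a b := by
  obtain ⟨t, h0, h1, hmt⟩ := j1560_paramo hm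
  apply Set.Subset.antisymm
  · apply Set.union_subset
    · intro x hx
      obtain ⟨u, hu0, hu1, hx⟩ := j1560_param hx
      refine j1560_param' (t := u * t) (by positivity) (by nlinarith) ?_
      rw [hx, hmt]; push_cast; ring
    · intro x hx
      obtain ⟨u, hu0, hu1, hx⟩ := j1560_param hx
      refine j1560_param' (t := t + u * (1 - t)) (by nlinarith) (by nlinarith) ?_
      rw [hx, hmt]; push_cast; ring
  · intro x hx
    obtain ⟨u, hu0, hu1, hx⟩ := j1560_param hx
    rcases le_total u t with h | h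
    · left
      refine j1560_param' (t := u / t) (by positivity) (by rw [div_le_one h0]; exact h) ?_
      have ht : (t : ℂ) ≠ 0 := by exact_mod_cast h0.ne'
      rw [hx, hmt]; push_cast; field_simp; ring
    · right
      have h1' : 0 < 1 - t := by linarith
      refine j1560_param' (t := (u - t) / (1 - t)) (div_nonneg (by linarith) h1'.le)
        (by rw [div_le_one h1']; linarith) ?_
      have ht : (1 - t : ℂ) ≠ 0 := by exact_mod_cast h1'.ne'
      rw [hx, hmt]; push_cast; field_simp; ring

theorem j1560_seg_inter {a m b x : ℂ} (hab : a ≠ b) (hm : m ∈ openSegment ℝ a b)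
    (h1 : x ∈ segment ℝ a m) (h2 : x ∈ segment ℝ m b) : x = m := by
  obtain ⟨t, ht0, ht1, hmt⟩ := j1560_paramo hm
  obtain ⟨u, hu0, hu1, hx⟩ := j1560_param h1
  obtain ⟨v, hv0, hv1, hx'⟩ := j1560_param h2
  have hba : b - a ≠ 0 := sub_ne_zero.2 hab.symm
  have e1 : ((u * t : ℝ) : ℂ) * (b - a) = ((t + v * (1 - t) : ℝ) : ℂ) * (b - a) := by
    have : a + ((u * t : ℝ) : ℂ) * (b - a) = a + ((t + v * (1 - t) : ℝ) : ℂ) * (b - a) := by
      calc a + ((u * t : ℝ) : ℂ) * (b - a) = x := by rw [hx, hmt]; push_cast; ring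
        _ = _ := by rw [hx', hmt]; push_cast; ring
    exact add_left_cancel this
  have e2 : u * t = t + v * (1 - t) := by exact_mod_cast mul_right_cancel₀ hba e1
  have e3 : v = 0 := by
    by_contra hne
    have : 0 < v := lt_of_le_of_ne hv0 (Ne.symm hne)
    nlinarith
  rw [hx', e3]; simp

theorem j1560_right_not_mem {a m b : ℂ} (hab : a ≠ b) (hm : m ∈ openSegment ℝ a b) :
    b ∉ segment ℝ a m := by
  intro h
  have h2 : b ∈ segment ℝ m b := right_mem_segment ℝ m b
  have := j1560_seg_inter hab hm h h2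
  obtain ⟨t, ht0, ht1, hmt⟩ := j1560_paramo hm
  have hba : b - a ≠ 0 := sub_ne_zero.2 hab.symm
  have e : ((1 - t : ℝ) : ℂ) * (b - a) = 0 := by
    push_cast; linear_combination this + hmt
  rcases mul_eq_zero.1 e with e | e
  · have : (1 - t : ℝ) = 0 := by exact_mod_cast e
    linarith
  · exact hba e

theorem j1560_left_not_mem {a m b : ℂ} (hab : a ≠ b) (hm : m ∈ openSegment ℝ a b) :
    a ∉ segment ℝ m b := by
  intro h
  have h2 : a ∈ segment ℝ a m := left_mem_segment ℝ a m
  have := j1560_seg_inter hab hm h2 h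
  obtain ⟨t, ht0, ht1, hmt⟩ := j1560_paramo hm
  have hba : b - a ≠ 0 := sub_ne_zero.2 hab.symm
  have e : ((t : ℝ) : ℂ) * (b - a) = 0 := by
    linear_combination -(this + hmt)
  rcases mul_eq_zero.1 e with e | e
  · have : (t : ℝ) = 0 := by exact_mod_cast e
    linarith
  · exact hba e

/-- inserting a point of an open edge keeps a polygon simple -/
theorem simple_insert {a m b : ℂ} {Y : List ℂ} (h : SimpleL (a :: b :: Y))
    (hm : m ∈ openSegment ℝ a b) : SimpleL (a :: m :: b :: Y) := by
  obtain ⟨h1, h2, h3⟩ := h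
  have hc : cyc (a :: b :: Y) = (a, b) :: (b :: Y).zip (Y ++ [a]) := by
    rw [j1560_cyc_cons]; rfl
  have hc' : cyc (a :: m :: b :: Y) = (a, m) :: (m, b) :: (b :: Y).zip (Y ++ [a]) := by
    rw [j1560_cyc_cons]; rfl
  have ha : a ∉ b :: Y := (List.nodup_cons.1 h2).1
  have hab : a ≠ b := fun e => ha (e ▸ List.mem_cons_self)
  have hma : m ≠ a := by
    rintro rfl
    exact j1560_left_not_mem hab hm (left_mem_segment ℝ _ _)
  have hmb : m ≠ b := by
    rintro rfl
    exact j1560_right_not_mem hab hm (right_mem_segment ℝ _ _)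
  have hmab : m ∈ segment ℝ a b := openSegment_subset_segment ℝ a b hm
  have hmY : m ∉ a :: b :: Y := by
    intro hmem
    obtain ⟨e, he, hem⟩ := j1560_exists_edge hmem
    have hne : (a, b) ≠ e := by
      rintro rfl
      exact hma hem.symm
    have hx := h3 (a, b) (by rw [hc]; exact List.mem_cons_self) e he hne
      ⟨hmab, by rw [← hem]; exact left_mem_segment ℝ _ _⟩
    rcases hx.1 with h | h
    · exact hma h
    · exact hmb h
  refine ⟨by simp only [List.length_cons] at h1 ⊢; omega, ?_, ?_⟩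
  · have hp : (a :: m :: b :: Y).Perm (m :: a :: b :: Y) := List.Perm.swap _ _ _
    rw [hp.nodup_iff]
    exact List.nodup_cons.2 ⟨hmY, h2⟩
  · have hR : ∀ e ∈ (b :: Y).zip (Y ++ [a]), (a, b) ≠ e := by
      rintro e he rfl
      exact ha (j1560_fst_mem he)
    have hsub1 : segment ℝ a m ⊆ segment ℝ a b := by
      rw [← j1560_seg_union hm]; exact Set.subset_union_left
    have hsub2 : segment ℝ m b ⊆ segment ℝ a b := by
      rw [← j1560_seg_union hm]; exact Set.subset_union_right
    have key1 : ∀ e ∈ (b :: Y).zip (Y ++ [a]), segment ℝ a m ∩ segment ℝ e.1 e.2 ⊆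
        ({a, m} ∩ {e.1, e.2} : Set ℂ) := by
      intro e he x hx
      have hx' := h3 (a, b) (by rw [hc]; exact List.mem_cons_self) e
        (by rw [hc]; exact List.mem_cons_of_mem _ he) (hR e he) ⟨hsub1 hx.1, hx.2⟩
      refine ⟨?_, hx'.2⟩
      rcases hx'.1 with h | h
      · exact Or.inl h
      · exfalso
        have h : x = b := h
        rw [h] at hx
        exact j1560_right_not_mem hab hm hx.1
    have key2 : ∀ e ∈ (b :: Y).zip (Y ++ [a]), segment ℝ m b ∩ segment ℝ e.1 e.2 ⊆
        ({m, b} ∩ {e.1, e.2} : Set ℂ) := by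
      intro e he x hx
      have hx' := h3 (a, b) (by rw [hc]; exact List.mem_cons_self) e
        (by rw [hc]; exact List.mem_cons_of_mem _ he) (hR e he) ⟨hsub2 hx.1, hx.2⟩
      refine ⟨?_, hx'.2⟩
      rcases hx'.1 with h | h
      · exfalso
        have h : x = a := h
        rw [h] at hx
        exact j1560_left_not_mem hab hm hx.1
      · exact Or.inr h
    intro e he e' he' hne
    rw [hc'] at he he'
    simp only [List.mem_cons] at he he'
    rcases he with rfl | rfl | he <;> rcases he' with rfl | rfl | he'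
    · exact absurd rfl hne
    · rintro x ⟨hx1, hx2⟩
      have := j1560_seg_inter hab hm hx1 hx2
      subst this
      simp
    · exact key1 e' he'
    · rintro x ⟨hx1, hx2⟩
      have := j1560_seg_inter hab hm hx2 hx1
      subst this
      simp
    · exact absurd rfl hne
    · exact key2 e' he'
    · rw [Set.inter_comm, Set.inter_comm {e.1, e.2}]; exact key1 e he
    · rw [Set.inter_comm, Set.inter_comm {e.1, e.2}]; exact key2 e he
    · exact h3 e (by rw [hc]; exact List.mem_cons_of_mem _ he) e'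
        (by rw [hc]; exact List.mem_cons_of_mem _ he') hne

def j1560_Ext (V V' : List ℂ) : Prop :=
  SimpleL V' ∧ curve V' = curve V ∧ ∀ x, x ∉ curve V → wnd x V' = wnd x V

theorem j1560_Ext.trans {V V' V'' : List ℂ} (h : j1560_Ext V V') (h' : j1560_Ext V' V'') :
    j1560_Ext V V'' := by
  refine ⟨h'.1, h'.2.1.trans h.2.1, ?_⟩
  intro x hx
  rw [h'.2.2 x (by rw [h.2.1]; exact hx), h.2.2 x hx]

theorem j1560_Ext.rot (W : WndFacts) {V V' : List ℂ} (h : j1560_Ext V V') (i j : ℕ) :
    j1560_Ext (V.rotate i) (V'.rotate j) := by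
  refine ⟨j1560_simple_rot h.1 j, ?_, ?_⟩
  · rw [W.crot, W.crot]; exact h.2.1
  · intro x hx
    rw [W.crot] at hx
    rw [W.rot, W.rot]
    exact h.2.2 x hx

theorem j1560_Ext.refl {V : List ℂ} (h : SimpleL V) : j1560_Ext V V := ⟨h, rfl, fun _ _ => rfl⟩

theorem j1560_ext_insert (W : WndFacts) {a m b : ℂ} {Y : List ℂ} (h : SimpleL (a :: b :: Y))
    (hm : m ∈ openSegment ℝ a b) : j1560_Ext (a :: b :: Y) (a :: m :: b :: Y) := by
  have hc : cyc (a :: b :: Y) = (a, b) :: (b :: Y).zip (Y ++ [a]) := by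
    rw [j1560_cyc_cons]; rfl
  have hc' : cyc (a :: m :: b :: Y) = (a, m) :: (m, b) :: (b :: Y).zip (Y ++ [a]) := by
    rw [j1560_cyc_cons]; rfl
  refine ⟨simple_insert h hm, ?_, ?_⟩
  · ext x
    unfold curve
    rw [hc, hc']
    simp only [List.mem_cons, exists_eq_or_imp, Set.mem_ofPred_eq]
    rw [← or_assoc, ← Set.mem_union, j1560_seg_union hm]
  · intro x hx
    have hx' : x ∉ segment ℝ a b := by
      intro h'
      exact hx ⟨(a, b), by rw [hc]; exact List.mem_cons_self, h'⟩
    unfold wnd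
    rw [hc, hc']
    simp only [List.map_cons, List.sum_cons]
    rw [W.add (openSegment_subset_segment ℝ a b hm) hx']
    ring

theorem j1560_multi (W : WndFacts) (τ : ℂ) (hτ : τ ≠ 0) : ∀ (L : List ℝ) (a b : ℂ) (Y : List ℂ)
    (ρ ρ' : ℝ), 0 < ρ → 0 < ρ' → (∀ w ∈ L, 0 < w) →
    b - a = ((ρ + 2 * L.sum + ρ' : ℝ) : ℂ) * τ → SimpleL (a :: b :: Y) →
    j1560_Ext (a :: b :: Y) (a :: ((place (a + ρ * τ) τ L).map Prod.fst ++ b :: Y)) := by
  intro L
  induction L with
  | nil =>
    intro a b Y ρ ρ' _ _ _ _ hS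
    simpa [place] using j1560_Ext.refl hS
  | cons w L ih =>
    intro a b Y ρ ρ' hρ hρ' hw hab hS
    have hw0 : 0 < w := hw w List.mem_cons_self
    have hL : 0 ≤ L.sum := List.sum_nonneg (fun x hx => (hw x (List.mem_cons_of_mem _ hx)).le)
    set m : ℂ := a + ρ * τ + w * τ with hmdef
    have hlen : 0 < ρ + 2 * (w :: L).sum + ρ' := by
      rw [List.sum_cons]; positivity
    have hm : m ∈ openSegment ℝ a b := by
      refine j1560_paramo' (t := (ρ + w) / (ρ + 2 * (w :: L).sum + ρ')) (by positivity) ?_ ?_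
      · rw [div_lt_one hlen, List.sum_cons]; linarith
      · rw [hab]
        have : ((ρ + 2 * (w :: L).sum + ρ' : ℝ) : ℂ) ≠ 0 := by exact_mod_cast hlen.ne'
        rw [Complex.ofReal_div, div_mul_eq_mul_div, mul_comm ((ρ + w : ℝ) : ℂ), mul_assoc,
          mul_div_assoc, mul_div_cancel₀ _ this] <;> try rfl
        rw [hmdef]; push_cast; ring
    have s1 := j1560_ext_insert W hS hm
    have hS2 : SimpleL (m :: b :: (Y ++ [a])) := by
      have := j1560_simple_rot s1.1 1
      simpa using this
    have hmb : b - m = ((w + 2 * L.sum + ρ' : ℝ) : ℂ) * τ := by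
      have : b - m = (b - a) - (ρ + w) * τ := by rw [hmdef]; ring
      rw [this, hab, List.sum_cons]; push_cast; ring
    have s2 := ih m b (Y ++ [a]) w ρ' hw0 hρ' (fun x hx => hw x (List.mem_cons_of_mem _ hx)) hmb hS2
    have s3 : j1560_Ext (a :: m :: b :: Y)
        (a :: m :: ((place (m + w * τ) τ L).map Prod.fst ++ b :: Y)) := by
      have := s2.rot W (b :: Y ++ [a]).length
        ((m :: ((place (m + w * τ) τ L).map Prod.fst ++ b :: Y))).length
      have e1 : (m :: b :: (Y ++ [a])).rotate (b :: Y ++ [a]).length = a :: m :: b :: Y := by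
        have : m :: b :: (Y ++ [a]) = (m :: b :: Y) ++ [a] := by simp
        rw [this, show (b :: Y ++ [a]).length = (m :: b :: Y).length by simp]
        rw [List.rotate_append_length_eq]; rfl
      have e2 : (m :: ((place (m + w * τ) τ L).map Prod.fst ++ b :: (Y ++ [a]))).rotate
          (m :: ((place (m + w * τ) τ L).map Prod.fst ++ b :: Y)).length =
          a :: m :: ((place (m + w * τ) τ L).map Prod.fst ++ b :: Y) := by
        have : m :: ((place (m + w * τ) τ L).map Prod.fst ++ b :: (Y ++ [a])) =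
          (m :: ((place (m + w * τ) τ L).map Prod.fst ++ b :: Y)) ++ [a] := by simp
        rw [this, List.rotate_append_length_eq]; rfl
      rw [e1, e2] at this
      exact this
    have s4 := s1.trans s3
    have e3 : a :: ((place (a + ρ * τ) τ (w :: L)).map Prod.fst ++ b :: Y) =
        a :: m :: ((place (m + w * τ) τ L).map Prod.fst ++ b :: Y) := by
      have : a + ρ * τ + 2 * w * τ = m + w * τ := by rw [hmdef]; ring
      simp only [place, List.map_cons, List.cons_append]
      rw [this]
    rw [e3]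
    exact s4

theorem j1560_edge (W : WndFacts) {x y : Cor} {Y : List ℂ} (hy : 0 < y.2.1) (hf : FitE x y)
    (hS : SimpleL (x.1 :: y.1 :: Y)) :
    j1560_Ext (x.1 :: y.1 :: Y) ((edgeTips x y).map Prod.fst ++ y.1 :: Y) := by
  obtain ⟨h1, h2, h3⟩ := hf
  have hne : y.1 - x.1 ≠ 0 := by
    intro h
    rw [h] at h3
    have : 0 ≤ x.2.2.sum := List.sum_nonneg (fun w hw => (h2 w hw).le)
    simp at h3
    linarith
  have hn : ((‖y.1 - x.1‖ : ℝ) : ℂ) ≠ 0 := by exact_mod_cast norm_ne_zero_iff.2 hne
  have hd : y.1 - x.1 = ((x.2.1 + 2 * x.2.2.sum + y.2.1 : ℝ) : ℂ) * dir x.1 y.1 := by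
    rw [← h3]; unfold dir; field_simp
  have hτ : dir x.1 y.1 ≠ 0 := by
    unfold dir; exact div_ne_zero hne hn
  have := j1560_multi W (dir x.1 y.1) hτ x.2.2 x.1 y.1 Y x.2.1 y.2.1 h1 hy h2 hd hS
  simpa [edgeTips] using this

theorem j1560_chain (W : WndFacts) : ∀ (L : List Cor) (x z : Cor) (P : List ℂ),
    SimpleL (P ++ x.1 :: L.map Prod.fst) → (P ++ [x.1]).head? = some z.1 →
    (∀ e ∈ (x :: L).zip (L ++ [z]), FitE e.1 e.2) → 0 < z.2.1 →
    j1560_Ext (P ++ x.1 :: L.map Prod.fst)
      (P ++ (((x :: L).zip (L ++ [z])).flatMap (fun e => edgeTips e.1 e.2)).map Prod.fst) := by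
  intro L
  induction L with
  | nil =>
    intro x z P hS hz hf hz0
    rcases P with _ | ⟨b, Y⟩
    · exfalso
      have := hS.1
      simp at this
    · have hb : b = z.1 := by simpa using hz
      subst hb
      have hfe : FitE x z := hf (x, z) (by simp)
      have hS' : SimpleL (x.1 :: z.1 :: Y) := by
        have := j1560_simple_rot hS (z.1 :: Y).length
        rw [List.rotate_append_length_eq] at this
        simpa using this
      have := (j1560_edge W hz0 hfe hS').rot W [x.1].length ((edgeTips x z).map Prod.fst).length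
      have e1 : (x.1 :: z.1 :: Y).rotate [x.1].length = z.1 :: Y ++ [x.1] := by
        simp
      rw [e1, List.rotate_append_length_eq] at this
      simpa using this
  | cons y L ih =>
    intro x z P hS hz hf hz0
    have hfe : FitE x y := hf (x, y) (by simp)
    have hf' : ∀ e ∈ (y :: L).zip (L ++ [z]), FitE e.1 e.2 := by
      intro e he
      exact hf e (by simp only [List.cons_append, List.zip_cons_cons]; exact List.mem_cons_of_mem _ he)
    have hy0 : 0 < y.2.1 := by
      rcases L with _ | ⟨y', L⟩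
      · exact (hf' (y, z) (by simp)).1
      · exact (hf' (y, y') (by simp)).1
    have hS' : SimpleL (x.1 :: y.1 :: (L.map Prod.fst ++ P)) := by
      have := j1560_simple_rot hS P.length
      rw [List.rotate_append_length_eq] at this
      simpa using this
    have s1 := (j1560_edge W hy0 hfe hS').rot W (x.1 :: y.1 :: L.map Prod.fst).length
      ((edgeTips x y).map Prod.fst ++ y.1 :: L.map Prod.fst).length
    have e1 : (x.1 :: y.1 :: (L.map Prod.fst ++ P)).rotate (x.1 :: y.1 :: L.map Prod.fst).length =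
        P ++ x.1 :: (y :: L).map Prod.fst := by
      have : x.1 :: y.1 :: (L.map Prod.fst ++ P) = (x.1 :: y.1 :: L.map Prod.fst) ++ P := by simp
      rw [this, List.rotate_append_length_eq]; simp
    have e2 : ((edgeTips x y).map Prod.fst ++ y.1 :: (L.map Prod.fst ++ P)).rotate
        ((edgeTips x y).map Prod.fst ++ y.1 :: L.map Prod.fst).length =
        (P ++ (edgeTips x y).map Prod.fst) ++ y.1 :: L.map Prod.fst := by
      have : (edgeTips x y).map Prod.fst ++ y.1 :: (L.map Prod.fst ++ P) =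
        ((edgeTips x y).map Prod.fst ++ y.1 :: L.map Prod.fst) ++ P := by simp
      rw [this, List.rotate_append_length_eq]; simp
    rw [e1, e2] at s1
    have hz' : ((P ++ (edgeTips x y).map Prod.fst) ++ [y.1]).head? = some z.1 := by
      rcases P with _ | ⟨b, P⟩
      · simpa [edgeTips] using hz
      · simpa using hz
    have s2 := ih y z (P ++ (edgeTips x y).map Prod.fst) s1.1 hz' hf' hz0
    have s3 := s1.trans s2
    have e3 : P ++ (((x :: y :: L).zip (y :: L ++ [z])).flatMap
        (fun e => edgeTips e.1 e.2)).map Prod.fst =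
        P ++ (edgeTips x y).map Prod.fst ++ (((y :: L).zip (L ++ [z])).flatMap
        (fun e => edgeTips e.1 e.2)).map Prod.fst := by
      simp [List.flatMap_cons]
    rw [e3]
    exact s3

/-- the polygon of all disc centres is simple and has the same curve and winding angles -/
theorem tips_simple (W : WndFacts) {V : List ℂ} {K : List Cor} (hV : SimpleL V)
    (hK : K.map Prod.fst = V) (hfit : ∀ e ∈ cyc K, FitE e.1 e.2) :
    SimpleL ((tips K).map Prod.fst) ∧ curve ((tips K).map Prod.fst) = curve V ∧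
      ∀ x, x ∉ curve V → wnd x ((tips K).map Prod.fst) = wnd x V := by
  rcases K with _ | ⟨x, L⟩
  · exfalso
    have := hV.1
    rw [← hK] at this
    simp at this
  · subst hK
    rw [j1560_cyc_cons] at hfit
    have hx0 : 0 < x.2.1 := by
      rcases L with _ | ⟨y', L⟩
      · exact (hfit (x, x) (by simp)).1
      · exact (hfit (x, y') (by simp)).1
    have := j1560_chain W L x x [] (by simpa using hV) (by simp) hfit hx0
    unfold tips
    rw [j1560_cyc_cons]
    exact this

end

end Pool.Agent.Helper22.FC
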