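import Pool.Agent.Helper22.FC.Base

namespace Pool.Agent.Helper22.FC

open Complex

noncomputable section

theorem cyc_reverse_perm {α : Type*} (V : List α) :
    (cyc V.reverse).Perm ((cyc V).map Prod.swap) := by
  rcases V with _ | ⟨a, l⟩
  · simp [cyc]
  have h1 : ((cyc (a :: l)).map Prod.swap) = ((a :: l).rotate 1).zip (a :: l) := by
    unfold cyc
    rw [List.zip_swap]
  have h2 : cyc (a :: l).reverse = ((((a :: l).rotate 1).zip (a :: l)).reverse).rotate 1 := by
    unfold cyc
    rw [List.zip_eq_zipWith, List.zip_eq_zipWith, List.reverse_zipWith (by simp),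
      List.zipWith_rotate_distrib _ _ _ _ (by simp)]
    simp
  rw [h1, h2]
  exact (List.rotate_perm _ _).trans (List.reverse_perm _)

theorem pre_sub {S P : Set ℂ} (hS : IsPreconnected S) (h : Disjoint S (frontier P)) :
    S ⊆ P ∨ S ⊆ Pᶜ := by
  have hcov : S ⊆ interior P ∪ (closure P)ᶜ := by
    intro x hx
    by_cases hc : x ∈ closure P
    · left
      by_contra hi
      exact Set.disjoint_left.1 h hx ⟨hc, hi⟩
    · right; exact hc
  have hd : Disjoint (interior P) (closure P)ᶜ :=
    Set.disjoint_left.2 fun x hx hx' => hx' (subset_closure (interior_subset hx))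
  rcases hS.subset_or_subset isOpen_interior isClosed_closure.isOpen_compl hd hcov with h1 | h1
  · left; exact h1.trans interior_subset
  · right; exact fun x hx hxP => h1 hx (subset_closure hxP)

theorem cyc_fst_mem {α : Type*} {V : List α} {e : α × α} (he : e ∈ cyc V) : e.1 ∈ V :=
  (List.of_mem_zip he).1

theorem cyc_snd_mem {α : Type*} {V : List α} {e : α × α} (he : e ∈ cyc V) : e.2 ∈ V :=
  List.mem_rotate.1 (List.of_mem_zip he).2

theorem cyc_nodup {α : Type*} {V : List α} (h : V.Nodup) : (cyc V).Nodup := by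
  have h1 : (cyc V).map Prod.fst = V := by
    unfold cyc
    exact List.map_fst_zip (by simp)
  have h2 : ((cyc V).map Prod.fst).Nodup := by rw [h1]; exact h
  exact List.Nodup.of_map _ h2

theorem mem_cyc_of_mem {α : Type*} {V : List α} {v : α} (h : v ∈ V) : ∃ e ∈ cyc V, e.1 = v := by
  have h1 : (cyc V).map Prod.fst = V := by
    unfold cyc
    exact List.map_fst_zip (by simp)
  rw [← h1] at h
  obtain ⟨e, he, rfl⟩ := List.mem_map.1 h
  exact ⟨e, he, rfl⟩

theorem convex_side_pos (a b : ℂ) : Convex ℝ {x | 0 < side a b x} := by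
  intro x hx y hy s t hs ht hst
  have hx' : 0 < side a b x := hx
  have hy' : 0 < side a b y := hy
  show 0 < side a b (s • x + t • y)
  have : side a b (s • x + t • y) = s * side a b x + t * side a b y := by
    have hs' : s = 1 - t := by linarith
    subst hs'
    unfold side
    simp only [Complex.real_smul, Complex.mul_im, Complex.sub_re, Complex.sub_im, Complex.add_re,
      Complex.add_im, Complex.mul_re, Complex.ofReal_re, Complex.ofReal_im, Complex.conj_re,
      Complex.conj_im]
    ring
  rw [this]
  rcases hs.eq_or_lt with h0 | h0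
  · have : t = 1 := by linarith
    rw [← h0, this]; linarith
  · have := mul_pos h0 hx'
    have := mul_nonneg ht hy'.le
    linarith

theorem side_swap (a b x : ℂ) : side b a x = - side a b x := by
  unfold side
  simp only [Complex.mul_im, Complex.sub_re, Complex.sub_im, Complex.conj_re,
      Complex.conj_im]
  ring

theorem convex_side_neg (a b : ℂ) : Convex ℝ {x | side a b x < 0} := by
  have : {x | side a b x < 0} = {x | 0 < side b a x} := by
    ext x
    simp only [Set.mem_setOf_eq]
    rw [side_swap]
    constructor <;> intro h <;> linarith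
  rw [this]
  exact convex_side_pos b a

/-- points of the line near an inner point of the segment are on the segment -/
theorem near_seg {a b y : ℂ} (hab : a ≠ b) (hy : y ∈ openSegment ℝ a b) :
    ∃ δ > 0, ∀ x, ‖x - y‖ < δ → side a b x = 0 → x ∈ segment ℝ a b := by
  obtain ⟨s, t, hs, ht, hst, rfl⟩ := hy
  have hn : 0 < ‖b - a‖ := norm_pos_iff.2 (sub_ne_zero.2 hab.symm)
  refine ⟨min s t * ‖b - a‖, by positivity, ?_⟩
  intro x hx h0
  have hne : (b - a) ≠ 0 := sub_ne_zero.2 hab.symm
  -- x - a = r (b - a)
  obtain ⟨r, hr⟩ : ∃ r : ℝ, x - a = r * (b - a) := by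
    refine ⟨((x - a) * (starRingEnd ℂ) (b - a)).re / Complex.normSq (b - a), ?_⟩
    have hreal : ((x - a) * (starRingEnd ℂ) (b - a)) =
        (((x - a) * (starRingEnd ℂ) (b - a)).re : ℂ) := by
      apply Complex.ext
      · simp
      · rw [Complex.ofReal_im]; exact h0
    have hns : (Complex.normSq (b - a) : ℂ) ≠ 0 := by
      rw [Complex.ofReal_ne_zero]; exact (Complex.normSq_pos.2 hne).ne'
    rw [Complex.ofReal_div, ← hreal]
    rw [div_mul_eq_mul_div, eq_div_iff hns, Complex.normSq_eq_conj_mul_self]
    ring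
  have hxa : x = a + r * (b - a) := by rw [← hr]; ring
  have hd : x - (s • a + t • b) = ((r - t : ℝ) : ℂ) * (b - a) := by
    have hs' : s = 1 - t := by linarith
    rw [hxa, hs']
    simp only [Complex.real_smul]
    push_cast
    ring
  rw [hd, norm_mul, Complex.norm_real, Real.norm_eq_abs] at hx
  have hlt : |r - t| < min s t := lt_of_mul_lt_mul_right hx hn.le
  have h1 := (abs_lt.1 hlt).1
  have h2 := (abs_lt.1 hlt).2
  have h3 := min_le_left s t
  have h4 := min_le_right s t
  refine ⟨1 - r, r, by linarith, by linarith, by ring, ?_⟩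
  rw [hxa]
  simp only [Complex.real_smul]
  push_cast
  ring

/-- a regular closed compact set bounded by a simple polygon with winding values 0, 2π is the set
of points with winding angle 2π -/
theorem region_eq (W : WndFacts) {U : List ℂ} {P : Set ℂ} (hU : SimpleL U)
    (hw : ∀ x, x ∉ curve U → wnd x U = 0 ∨ wnd x U = 2 * Real.pi) (hc : IsCompact P)
    (hr : closure (interior P) = P) (hf : frontier P = curve U) :
    ∀ x, x ∉ curve U → (x ∈ P ↔ wnd x U = 2 * Real.pi) := by
  classical
  have hPc : IsClosed P := hc.isClosed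
  have hpi : (2 * Real.pi : ℝ) ≠ 0 := by positivity
  have hCP : curve U ⊆ P := by
    rw [← hf]; exact hPc.frontier_subset
  have hCint : interior (curve U) = ∅ := by rw [← hf]; exact interior_frontier hPc
  set V0 : Set ℂ := {v | v ∈ U} with hV0
  have hV0C : V0 ⊆ curve U := by
    intro v hv
    obtain ⟨e, he, rfl⟩ := mem_cyc_of_mem (V := U) hv
    exact ⟨e, he, left_mem_segment ℝ _ _⟩
  have hconn : IsPreconnected V0ᶜ := by
    have hcount : V0.Countable := (List.finite_toSet U).countable
    refine (hcount.isConnected_compl_of_one_lt_rank ?_).isPreconnected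
    rw [Complex.rank_real_complex]; exact Nat.one_lt_ofNat
  set A : Set ℂ := {x | ∃ ε > 0, ∀ x' ∈ Metric.ball x ε, x' ∉ curve U →
    (x' ∈ P ↔ wnd x' U = 2 * Real.pi)} with hA
  set B : Set ℂ := {x | ∃ ε > 0, ∀ x' ∈ Metric.ball x ε, x' ∉ curve U →
    ¬ (x' ∈ P ↔ wnd x' U = 2 * Real.pi)} with hB
  have hopen : ∀ p : ℂ → Prop, IsOpen {x | ∃ ε > 0, ∀ x' ∈ Metric.ball x ε, x' ∉ curve U → p x'} := by
    intro p
    rw [Metric.isOpen_iff]
    rintro x ⟨ε, hε, h⟩
    refine ⟨ε, hε, fun y hy => ⟨ε - dist y x, ?_, fun x' hx' hx'' => h x' ?_ hx''⟩⟩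
    · have := Metric.mem_ball.1 hy; linarith
    · exact Metric.ball_subset (by linarith) hx'
  have hAo : IsOpen A := hopen _
  have hBo : IsOpen B := hopen _
  have hoff : ∀ O : Set ℂ, IsOpen O → O.Nonempty → ∃ x ∈ O, x ∉ curve U := by
    intro O hO hne
    by_contra hcon
    push Not at hcon
    have : O ⊆ interior (curve U) := interior_maximal hcon hO
    rw [hCint] at this
    obtain ⟨x, hx⟩ := hne
    exact this hx
  have hAB : ∀ x, x ∈ A → x ∈ B → False := by
    rintro x ⟨ε, hε, h⟩ ⟨ε', hε', h'⟩
    obtain ⟨y, hy, hyc⟩ := hoff (Metric.ball x (min ε ε')) Metric.isOpen_ball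
      ⟨x, Metric.mem_ball_self (lt_min hε hε')⟩
    exact h' y (Metric.ball_subset_ball (min_le_right _ _) hy) hyc
      (h y (Metric.ball_subset_ball (min_le_left _ _) hy) hyc)
  have hcov : V0ᶜ ⊆ A ∪ B := by
    intro x hx
    by_cases hxc : x ∈ curve U
    · obtain ⟨e, he, hxe⟩ := hxc
      have hne1 : x ≠ e.1 := fun h => hx (by rw [h]; exact cyc_fst_mem he)
      have hne2 : x ≠ e.2 := fun h => hx (by rw [h]; exact cyc_snd_mem he)
      have hxo : x ∈ openSegment ℝ e.1 e.2 := by
        exact mem_openSegment_of_ne_left_right hne1.symm hne2.symm hxe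
      have hab : e.1 ≠ e.2 := by
        intro h
        rw [← h, openSegment_same] at hxo
        exact hne1 hxo
      have hperm : (cyc U).Perm ((e.1, e.2) :: (cyc U).erase e) := by
        have := List.perm_cons_erase he
        simpa using this
      have hother : ∀ e' ∈ (cyc U).erase e, x ∉ segment ℝ e'.1 e'.2 := by
        intro e' he' hxe'
        have h1 := (cyc_nodup hU.2.1).mem_erase_iff.1 he'
        have h2 := hU.2.2 e he e' h1.2 h1.1.symm ⟨hxe, hxe'⟩
        rcases h2.1 with h3 | h3
        · exact hne1 h3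
        · exact hne2 h3
      obtain ⟨δ, hδ, hj⟩ := W.jump hab hperm hxo hother
      obtain ⟨δ', hδ', hn⟩ := near_seg hab hxo
      set ε := min δ δ' with hε
      have hεpos : 0 < ε := lt_min hδ hδ'
      have hzero : ∀ y ∈ Metric.ball x ε, side e.1 e.2 y = 0 → y ∈ curve U := by
        intro y hy h0
        refine ⟨e, he, hn y ?_ h0⟩
        rw [Metric.mem_ball, dist_eq_norm] at hy
        exact lt_of_lt_of_le hy (min_le_right _ _)
      -- existence of points on both sides
      have hball : ∀ y, y ∈ Metric.ball x ε → ‖y - x‖ < δ := by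
        intro y hy
        rw [Metric.mem_ball, dist_eq_norm] at hy
        exact lt_of_lt_of_le hy (min_le_left _ _)
      have hside0 : side e.1 e.2 x = 0 := by
        obtain ⟨s, t, hs, ht, hst, hxx⟩ := hxo
        have hs' : s = 1 - t := by linarith
        rw [← hxx, hs']
        unfold side
        simp only [Complex.real_smul, Complex.mul_im, Complex.sub_re, Complex.sub_im, Complex.add_re,
          Complex.add_im, Complex.mul_re, Complex.ofReal_re, Complex.ofReal_im, Complex.conj_re,
          Complex.conj_im]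
        ring
      have hshift : ∀ c : ℝ, side e.1 e.2 (x + c * I * (e.2 - e.1)) = c * Complex.normSq (e.2 - e.1) := by
        intro c
        have : side e.1 e.2 (x + c * I * (e.2 - e.1)) = side e.1 e.2 x + c * Complex.normSq (e.2 - e.1) := by
          unfold side
          rw [Complex.normSq_apply]
          simp only [Complex.mul_im, Complex.sub_re, Complex.sub_im, Complex.add_re,
            Complex.add_im, Complex.mul_re, Complex.ofReal_re, Complex.ofReal_im, Complex.conj_re,
            Complex.conj_im, Complex.I_re, Complex.I_im]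
          ring
        rw [this, hside0, zero_add]
      have hnsq : 0 < Complex.normSq (e.2 - e.1) := Complex.normSq_pos.2 (sub_ne_zero.2 hab.symm)
      have hnrm : 0 < ‖e.2 - e.1‖ := norm_pos_iff.2 (sub_ne_zero.2 hab.symm)
      have hinball : ∀ c : ℝ, |c| * ‖e.2 - e.1‖ < ε → x + c * I * (e.2 - e.1) ∈ Metric.ball x ε := by
        intro c hc'
        rw [Metric.mem_ball, dist_eq_norm]
        have : x + c * I * (e.2 - e.1) - x = c * I * (e.2 - e.1) := by ring
        rw [this, norm_mul, norm_mul, Complex.norm_I, Complex.norm_real, Real.norm_eq_abs, mul_one]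
        exact hc'
      set c0 : ℝ := ε / (2 * ‖e.2 - e.1‖) with hc0
      have hc0pos : 0 < c0 := by positivity
      have hc0lt : c0 * ‖e.2 - e.1‖ < ε := by
        rw [hc0]
        have : ε / (2 * ‖e.2 - e.1‖) * ‖e.2 - e.1‖ = ε / 2 := by field_simp
        rw [this]; linarith
      obtain ⟨xl, hxl, hxls⟩ : ∃ xl ∈ Metric.ball x ε, 0 < side e.1 e.2 xl := by
        refine ⟨x + c0 * I * (e.2 - e.1), hinball c0 (by rw [abs_of_pos hc0pos]; exact hc0lt), ?_⟩
        rw [hshift]; positivity
      obtain ⟨xr, hxr, hxrs⟩ : ∃ xr ∈ Metric.ball x ε, side e.1 e.2 xr < 0 := by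
        refine ⟨x + (-c0 : ℝ) * I * (e.2 - e.1), hinball (-c0) (by rw [abs_neg, abs_of_pos hc0pos]; exact hc0lt), ?_⟩
        rw [hshift]
        have := mul_pos hc0pos hnsq
        linarith
      -- winding
      have hL : ∀ y ∈ Metric.ball x ε, 0 < side e.1 e.2 y → y ∉ curve U ∧ wnd y U = 2 * Real.pi := by
        intro y hy hys
        obtain ⟨h1, h2, h3⟩ := hj y xr (hball y hy) (hball xr hxr) hys hxrs
        refine ⟨h1, ?_⟩
        rcases hw y h1 with h4 | h4
        · rcases hw xr h2 with h5 | h5
          · rw [h4, h5] at h3; exact absurd (by linarith) hpi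
          · rw [h4, h5] at h3; exact absurd (by linarith) hpi
        · exact h4
      have hR : ∀ y ∈ Metric.ball x ε, side e.1 e.2 y < 0 → y ∉ curve U ∧ wnd y U = 0 := by
        intro y hy hys
        obtain ⟨h1, h2, h3⟩ := hj xl y (hball xl hxl) (hball y hy) hxls hys
        refine ⟨h2, ?_⟩
        rcases hw y h2 with h4 | h4
        · exact h4
        · rcases hw xl h1 with h5 | h5
          · rw [h4, h5] at h3; exact absurd (by linarith) hpi
          · rw [h4, h5] at h3; exact absurd (by linarith) hpi
      have hLpre : IsPreconnected (Metric.ball x ε ∩ {y | 0 < side e.1 e.2 y}) :=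
        ((convex_ball x ε).inter (convex_side_pos _ _)).isPreconnected
      have hRpre : IsPreconnected (Metric.ball x ε ∩ {y | side e.1 e.2 y < 0}) :=
        ((convex_ball x ε).inter (convex_side_neg _ _)).isPreconnected
      have hLP := pre_sub (P := P) hLpre (by
        rw [hf]; exact Set.disjoint_left.2 fun y hy => (hL y hy.1 hy.2).1)
      have hRP := pre_sub (P := P) hRpre (by
        rw [hf]; exact Set.disjoint_left.2 fun y hy => (hR y hy.1 hy.2).1)
      have hxC : x ∈ curve U := ⟨e, he, hxe⟩
      have hxF : x ∈ frontier P := by rw [hf]; exact hxC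
      rcases hLP with hLP | hLP <;> rcases hRP with hRP | hRP
      · exfalso
        have hsub : Metric.ball x ε ⊆ P := by
          intro y hy
          rcases lt_trichotomy (side e.1 e.2 y) 0 with h | h | h
          · exact hRP ⟨hy, h⟩
          · exact hCP (hzero y hy h)
          · exact hLP ⟨hy, h⟩
        exact hxF.2 (interior_maximal hsub Metric.isOpen_ball (Metric.mem_ball_self hεpos))
      · left
        refine ⟨ε, hεpos, fun y hy hyc => ?_⟩
        rcases lt_trichotomy (side e.1 e.2 y) 0 with h | h | h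
        · have h1 : y ∉ P := hRP ⟨hy, h⟩
          have h2 := (hR y hy h).2
          rw [h2]
          exact ⟨fun h3 => absurd h3 h1, fun h3 => absurd h3.symm hpi⟩
        · exact absurd (hzero y hy h) hyc
        · exact ⟨fun _ => (hL y hy h).2, fun _ => hLP ⟨hy, h⟩⟩
      · right
        refine ⟨ε, hεpos, fun y hy hyc => ?_⟩
        rcases lt_trichotomy (side e.1 e.2 y) 0 with h | h | h
        · have h1 : y ∈ P := hRP ⟨hy, h⟩
          have h2 := (hR y hy h).2
          intro h3
          have := h3.1 h1
          rw [h2] at this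
          exact hpi this.symm
        · exact absurd (hzero y hy h) hyc
        · intro h3
          exact hLP ⟨hy, h⟩ (h3.2 (hL y hy h).2)
      · exfalso
        have hxP : x ∈ closure (interior P) := by rw [hr]; exact hCP hxC
        obtain ⟨y, hy1, hy2⟩ := mem_closure_iff.1 hxP (Metric.ball x ε) Metric.isOpen_ball
          (Metric.mem_ball_self hεpos)
        obtain ⟨z, hz, hzc⟩ := hoff (Metric.ball x ε ∩ interior P)
          (Metric.isOpen_ball.inter isOpen_interior) ⟨y, hy1, hy2⟩
        have hzP : z ∈ P := interior_subset hz.2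
        rcases lt_trichotomy (side e.1 e.2 z) 0 with h | h | h
        · exact hRP ⟨hz.1, h⟩ hzP
        · exact hzc (hzero z hz.1 h)
        · exact hLP ⟨hz.1, h⟩ hzP
    · obtain ⟨ε, hε, hb⟩ := Metric.isOpen_iff.1 (W.closed U).isOpen_compl x hxc
      have hpre : IsPreconnected (Metric.ball x ε) := (convex_ball x ε).isPreconnected
      have hdis : Disjoint (Metric.ball x ε) (curve U) :=
        Set.disjoint_left.2 fun y hy hyc => hb hy hyc
      have hxb := Metric.mem_ball_self (x := x) hε
      have hwc : ∀ y ∈ Metric.ball x ε, wnd y U = wnd x U := fun y hy => W.const hpre hdis hy hxb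
      have hPP := pre_sub (P := P) hpre (by rw [hf]; exact hdis)
      have hPc' : ∀ y ∈ Metric.ball x ε, (y ∈ P ↔ x ∈ P) := by
        intro y hy
        rcases hPP with h | h
        · exact ⟨fun _ => h hxb, fun _ => h hy⟩
        · exact ⟨fun h1 => absurd h1 (h hy), fun h1 => absurd h1 (h hxb)⟩
      by_cases hg : (x ∈ P ↔ wnd x U = 2 * Real.pi)
      · left
        refine ⟨ε, hε, fun y hy _ => ?_⟩
        rw [hPc' y hy, hwc y hy]; exact hg
      · right
        refine ⟨ε, hε, fun y hy _ => ?_⟩
        rw [hPc' y hy, hwc y hy]; exact hg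
  -- far away
  obtain ⟨M, hM⟩ := hc.isBounded.exists_norm_le
  have hfar : ∀ y : ℂ, M < y.re → y ∉ P ∧ wnd y U = 0 := by
    intro y hy
    refine ⟨fun h => ?_, ?_⟩
    · have := hM y h
      have := Complex.re_le_norm y
      linarith
    · refine W.half (u := -1) fun v hv => ?_
      have hvM := hM v (hCP (hV0C hv))
      have := Complex.re_le_norm v
      simp
      linarith
  set x0 : ℂ := ((M + 2 : ℝ) : ℂ) with hx0
  have hx0A : x0 ∈ A := by
    refine ⟨1, one_pos, fun y hy _ => ?_⟩
    rw [Metric.mem_ball, dist_eq_norm] at hy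
    have h1 := Complex.abs_re_le_norm (y - x0)
    have h2 : |y.re - (M + 2)| < 1 := by
      refine lt_of_le_of_lt ?_ hy
      refine le_trans (le_of_eq ?_) h1
      rw [Complex.sub_re, hx0, Complex.ofReal_re]
    have h3 := (abs_lt.1 h2).1
    obtain ⟨h4, h5⟩ := hfar y (by linarith)
    rw [h5]
    exact ⟨fun h => absurd h h4, fun h => absurd h.symm hpi⟩
  have hx0V : x0 ∈ V0ᶜ := by
    intro h
    refine (hfar x0 ?_).1 (hCP (hV0C h))
    rw [hx0, Complex.ofReal_re]; linarith
  have hsub : V0ᶜ ⊆ A := by
    intro x hx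
    rcases hcov hx with h | h
    · exact h
    · exfalso
      obtain ⟨z, hz, hzA, hzB⟩ := hconn A B hAo hBo hcov ⟨x0, hx0V, hx0A⟩ ⟨x, hx, h⟩
      exact hAB z hzA hzB
  intro x hx
  obtain ⟨ε, hε, h⟩ := hsub (fun h : x ∈ V0 => hx (hV0C h))
  exact h x (Metric.mem_ball_self hε) hx

theorem wnd_reverse (W : WndFacts) {V : List ℂ} {x : ℂ} (hx : x ∉ curve V) :
    wnd x V.reverse = - wnd x V := by
  unfold wnd
  rw [((cyc_reverse_perm V).map (fun e => ang x e.1 e.2)).sum_eq, List.map_map]
  have : ∀ L : List (ℂ × ℂ), (∀ e ∈ L, x ∉ segment ℝ e.1 e.2) →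
      (L.map ((fun e => ang x e.1 e.2) ∘ Prod.swap)).sum = - (L.map (fun e => ang x e.1 e.2)).sum := by
    intro L
    induction L with
    | nil => intro _; simp
    | cons e L ih =>
      intro h
      simp only [List.map_cons, List.sum_cons, Function.comp_apply]
      rw [ih (fun e' he' => h e' (List.mem_cons_of_mem _ he'))]
      have := W.swap (h e List.mem_cons_self)
      simp only [Prod.fst_swap, Prod.snd_swap]
      rw [this]; ring
  apply this
  intro e he hxe
  exact hx ⟨e, he, hxe⟩

theorem mem_cyc_reverse {α : Type*} {V : List α} {e : α × α} :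
    e ∈ cyc V.reverse ↔ e.swap ∈ cyc V := by
  rw [(cyc_reverse_perm V).mem_iff, List.mem_map]
  constructor
  · rintro ⟨a, ha, rfl⟩; simpa using ha
  · intro h; exact ⟨e.swap, h, by simp⟩

theorem curve_reverse (V : List ℂ) : curve V.reverse = curve V := by
  ext x
  unfold curve
  simp only [Set.mem_setOf_eq]
  constructor
  · rintro ⟨e, he, hx⟩
    refine ⟨e.swap, mem_cyc_reverse.1 he, ?_⟩
    rw [segment_symm] at hx
    simpa using hx
  · rintro ⟨e, he, hx⟩
    refine ⟨e.swap, mem_cyc_reverse.2 (by simpa using he), ?_⟩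
    rw [segment_symm] at hx
    simpa using hx

theorem simple_reverse {V : List ℂ} (hV : SimpleL V) : SimpleL V.reverse := by
  obtain ⟨h3, hnd, h⟩ := hV
  refine ⟨by simpa using h3, List.nodup_reverse.2 hnd, ?_⟩
  intro e he e' he' hne
  have h1 := h e.swap (mem_cyc_reverse.1 he) e'.swap (mem_cyc_reverse.1 he')
    (fun hh => hne (Prod.swap_injective hh))
  simp only [Prod.fst_swap, Prod.snd_swap] at h1
  rw [segment_symm ℝ e.2 e.1, segment_symm ℝ e'.2 e'.1, Set.pair_comm e.2 e.1,
    Set.pair_comm e'.2 e'.1] at h1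
  exact h1

end

end Pool.Agent.Helper22.FC
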