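import Pool.Agent.Helper22.FC.Base

namespace Pool.Agent.Helper22.FC

open Complex

noncomputable section

lemma cyc_map_G1 {α β : Type*} (f : α → β) (V : List α) :
    cyc (V.map f) = (cyc V).map (Prod.map f f) := by
  unfold cyc
  rw [← List.map_rotate, List.zip_map]

lemma bd_false_G1 {p : Pc} (h : p.s = false) {x : ℂ} (hx : x ∈ segment ℝ p.e0 p.s0) :
    x ∈ curve p.bd := by
  refine ⟨(p.e0, p.s0), ?_, hx⟩
  simp [Pc.bd, h, cyc]

lemma bd_true_G1 {p : Pc} (h : p.s = true) {x : ℂ} (hx : x ∈ segment ℝ p.s0 p.e0) :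
    x ∈ curve p.bd := by
  refine ⟨(p.s0, p.e0), ?_, hx⟩
  simp [Pc.bd, h, cyc]

lemma curve_sub_G1 {H : ℝ} {D : List (ℂ × ℝ)} (S : Stack H D) {x : ℂ}
    (hx : x ∈ curve (D.map Prod.fst)) : ∃ k, x ∈ curve (S.pc k).bd := by
  obtain ⟨e, he, hxe⟩ := hx
  rw [← S.hT, List.map_map, cyc_map_G1, List.mem_map] at he
  obtain ⟨u, hu, rfl⟩ := he
  obtain ⟨⟨τ, hτ, hab, hps, hqs, hpτ, hqτ, hpt, hqt, hp0, hq0, hpr, hqr, _⟩, _⟩ := S.geo u hu
  have ha : 0 < u.1.1.2 := by rw [← hpr]; exact (S.ok _).1.2.2.1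
  have hb : 0 < u.2.1.2 := by rw [← hqr]; exact (S.ok _).1.2.2.1
  have hp_e0 : (S.pc u.1.2.2).e0 = u.1.1.1 := by
    simp only [Pc.e0, Pc.pt, hps, hpt, hpτ, hp0, hpr]
    simp
    ring
  have hp_s0 : (S.pc u.1.2.2).s0 = u.1.1.1 + u.1.1.2 * τ := by
    simp only [Pc.s0, Pc.pt, hps, hpt, hpτ, hp0]
    simp
  have hq_s0 : (S.pc u.2.2.1).s0 = u.1.1.1 + u.1.1.2 * τ := by
    simp only [Pc.s0, Pc.pt, hqs, hqt, hqτ, hq0]
    simp
  have hq_e0 : (S.pc u.2.2.1).e0 = u.2.1.1 := by
    have h2 : u.2.1.1 = u.1.1.1 + ((u.1.1.2 + u.2.1.2 : ℝ) : ℂ) * τ := by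
      rw [← hab]; ring
    rw [h2]
    simp only [Pc.e0, Pc.pt, hqs, hqt, hqτ, hq0, hqr]
    simp
    ring
  simp only [Prod.map_fst, Prod.map_snd, Function.comp_apply] at hxe
  rw [segment_eq_image'] at hxe
  obtain ⟨θ, ⟨h0, h1⟩, rfl⟩ := hxe
  simp only [hab]
  by_cases hc : θ * (u.1.1.2 + u.2.1.2) ≤ u.1.1.2
  · refine ⟨u.1.2.2, bd_false_G1 hps ?_⟩
    rw [hp_e0, hp_s0, segment_eq_image']
    refine ⟨θ * (u.1.1.2 + u.2.1.2) / u.1.1.2, ⟨by positivity, ?_⟩, ?_⟩
    · rw [div_le_one ha]; exact hc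
    · simp only [add_sub_cancel_left, Complex.real_smul]
      push_cast
      have : (u.1.1.2 : ℂ) ≠ 0 := by exact_mod_cast ha.ne'
      field_simp
  · push Not at hc
    refine ⟨u.2.2.1, bd_true_G1 hqs ?_⟩
    rw [hq_e0, hq_s0, segment_eq_image']
    have h2 : u.2.1.1 = u.1.1.1 + ((u.1.1.2 + u.2.1.2 : ℝ) : ℂ) * τ := by
      rw [← hab]; ring
    refine ⟨(θ * (u.1.1.2 + u.2.1.2) - u.1.1.2) / u.2.1.2, ⟨?_, ?_⟩, ?_⟩
    · apply div_nonneg _ hb.le
      linarith
    · rw [div_le_one hb]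
      nlinarith
    · rw [h2]
      simp only [Complex.real_smul]
      push_cast
      have : (u.2.1.2 : ℂ) ≠ 0 := by exact_mod_cast hb.ne'
      field_simp
      ring

lemma generic_G1 (PF : PcFacts) {H : ℝ} {D : List (ℂ × ℝ)} (S : Stack H D) :
    Dense (⋂ k, (curve (S.pc k).bd)ᶜ) := by
  have : Finite S.ι := by
    have := S.fin
    exact Finite.of_fintype _
  have hcl : ∀ k, IsClosed (S.pc k).face := fun k => by
    rw [← PF.face_closure (S.ok k).1]; exact isClosed_closure
  apply dense_iInter_of_isOpen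
  · intro k
    rw [← PF.frontier_face (S.ok k).1]
    exact isClosed_frontier.isOpen_compl
  · intro k
    rw [← PF.frontier_face (S.ok k).1, ← interior_eq_empty_iff_dense_compl]
    exact interior_frontier (hcl k)

lemma count_G1 (PF : PcFacts) {H : ℝ} {D : List (ℂ × ℝ)} (S : Stack H D) {x : ℂ}
    (hx : x ∈ ⋂ k, (curve (S.pc k).bd)ᶜ) : x ∉ curve (D.map Prod.fst) ∧
    (∀ k, (x ∈ interior (S.pc k).face ∧ wnd x (S.pc k).bd = 2 * Real.pi) ∨
      (x ∉ interior (S.pc k).face ∧ wnd x (S.pc k).bd = 0)) ∧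
    ∑ k ∈ S.fin.elems, wnd x (S.pc k).bd = wnd x (D.map Prod.fst) := by
  rw [Set.mem_iInter] at hx
  refine ⟨?_, ?_, S.wind x (fun k => hx k)⟩
  · intro h
    obtain ⟨k, hk⟩ := curve_sub_G1 S h
    exact hx k hk
  · intro k
    have hcl : IsClosed (S.pc k).face := by
      rw [← PF.face_closure (S.ok k).1]; exact isClosed_closure
    by_cases hf : x ∈ (S.pc k).face
    · left
      have hi : x ∈ interior (S.pc k).face := by
        by_contra hni
        apply hx k
        rw [← PF.frontier_face (S.ok k).1, hcl.frontier_eq]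
        exact ⟨hf, hni⟩
      exact ⟨hi, PF.wnd_inside (S.ok k).1 hi⟩
    · right
      exact ⟨fun h => hf (interior_subset h), PF.wnd_outside (S.ok k).1 hf⟩

theorem faces_disjoint (PF : PcFacts) {H : ℝ} {D : List (ℂ × ℝ)} (S : Stack H D)
    (hw : ∀ x, x ∉ curve (D.map Prod.fst) →
      wnd x (D.map Prod.fst) = 0 ∨ wnd x (D.map Prod.fst) = 2 * Real.pi)
    {k l : S.ι} (hkl : k ≠ l) :
    Disjoint (interior (S.pc k).face) (interior (S.pc l).face) := by
  classical
  rw [Set.disjoint_iff_inter_eq_empty]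
  by_contra hne
  have hne' : (interior (S.pc k).face ∩ interior (S.pc l).face).Nonempty :=
    Set.nonempty_iff_ne_empty.mpr hne
  obtain ⟨x, hx1, hx2⟩ := (generic_G1 PF S).inter_open_nonempty _
    (isOpen_interior.inter isOpen_interior) hne'
  obtain ⟨hx, hk, hs⟩ := count_G1 PF S hx2
  have hnn : ∀ j, 0 ≤ wnd x (S.pc j).bd := by
    intro j
    rcases hk j with h | h
    · rw [h.2]; positivity
    · rw [h.2]
  have h1 : wnd x (S.pc k).bd = 2 * Real.pi := by
    rcases hk k with h | h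
    · exact h.2
    · exact absurd hx1.1 h.1
  have h2 : wnd x (S.pc l).bd = 2 * Real.pi := by
    rcases hk l with h | h
    · exact h.2
    · exact absurd hx1.2 h.1
  have h3 : ∑ j ∈ ({k, l} : Finset S.ι), wnd x (S.pc j).bd ≤
      ∑ j ∈ S.fin.elems, wnd x (S.pc j).bd := by
    apply Finset.sum_le_sum_of_subset_of_nonneg
    · intro j _
      exact S.fin.complete j
    · intro j _ _
      exact hnn j
  rw [Finset.sum_pair hkl, h1, h2, hs] at h3
  have hpi := Real.pi_pos
  rcases hw x hx with h | h <;> rw [h] at h3 <;> linarith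

theorem faces_cover (PF : PcFacts) {H : ℝ} {D : List (ℂ × ℝ)} (S : Stack H D) {P : Set ℂ}
    (hw : ∀ x, x ∉ curve (D.map Prod.fst) →
      wnd x (D.map Prod.fst) = 0 ∨ wnd x (D.map Prod.fst) = 2 * Real.pi)
    (hP : ∀ x, x ∉ curve (D.map Prod.fst) → (x ∈ P ↔ wnd x (D.map Prod.fst) = 2 * Real.pi))
    (hc : IsCompact P) (hr : closure (interior P) = P)
    (hf : frontier P = curve (D.map Prod.fst)) :
    ⋃ k, (S.pc k).face = P := by
  classical
  have hfin : Finite S.ι := by
    have := S.fin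
    exact Finite.of_fintype _
  have hcl : ∀ k, IsClosed (S.pc k).face := fun k => by
    rw [← PF.face_closure (S.ok k).1]; exact isClosed_closure
  have hpi := Real.pi_pos
  apply Set.Subset.antisymm
  · apply Set.iUnion_subset
    intro k
    rw [← PF.face_closure (S.ok k).1]
    have h1 := (generic_G1 PF S).open_subset_closure_inter
      (isOpen_interior (s := (S.pc k).face))
    have h2 : interior (S.pc k).face ∩ (⋂ k, (curve (S.pc k).bd)ᶜ) ⊆ P := by
      rintro x ⟨hx1, hx2⟩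
      obtain ⟨hx, hk, hs⟩ := count_G1 PF S hx2
      rw [hP x hx]
      have hnn : ∀ j, 0 ≤ wnd x (S.pc j).bd := by
        intro j
        rcases hk j with h | h
        · rw [h.2]; positivity
        · rw [h.2]
      have h3 : wnd x (S.pc k).bd = 2 * Real.pi := by
        rcases hk k with h | h
        · exact h.2
        · exact absurd hx1 h.1
      have h4 : wnd x (S.pc k).bd ≤ ∑ j ∈ S.fin.elems, wnd x (S.pc j).bd :=
        Finset.single_le_sum (fun j _ => hnn j) (S.fin.complete k)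
      rw [h3, hs] at h4
      rcases hw x hx with h | h
      · rw [h] at h4; linarith
      · exact h
    calc closure (interior (S.pc k).face)
        ⊆ closure (closure (interior (S.pc k).face ∩ (⋂ k, (curve (S.pc k).bd)ᶜ))) :=
          closure_mono h1
      _ ⊆ P := by
          rw [closure_closure]
          exact closure_minimal h2 hc.isClosed
  · rw [← hr]
    have h1 := (generic_G1 PF S).open_subset_closure_inter (isOpen_interior (s := P))
    have hclU : IsClosed (⋃ k, (S.pc k).face) := isClosed_iUnion_of_finite hcl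
    have h2 : interior P ∩ (⋂ k, (curve (S.pc k).bd)ᶜ) ⊆ ⋃ k, (S.pc k).face := by
      rintro x ⟨hx1, hx2⟩
      obtain ⟨hx, hk, hs⟩ := count_G1 PF S hx2
      have h3 := (hP x hx).mp (interior_subset hx1)
      rw [h3] at hs
      by_contra hno
      have : ∑ j ∈ S.fin.elems, wnd x (S.pc j).bd = 0 := by
        apply Finset.sum_eq_zero
        intro j _
        rcases hk j with h | h
        · exact absurd (Set.mem_iUnion.mpr ⟨j, interior_subset h.1⟩) hno
        · exact h.2
      rw [this] at hs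
      linarith
    calc closure (interior P)
        ⊆ closure (closure (interior P ∩ (⋂ k, (curve (S.pc k).bd)ᶜ))) := closure_mono h1
      _ ⊆ _ := by
          rw [closure_closure]
          exact closure_minimal h2 hclU

end

end Pool.Agent.Helper22.FC
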