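import Pool.Agent.Helper22.FC.Base

namespace Pool.Agent.Helper22.FC

open Complex

noncomputable section

theorem pt_σ_G2 (PF : PcFacts) {p : Pc} (hp : p.Ok) (x : ℂ) : p.pt (p.σ x).re (p.σ x).im = x := by
  apply (PF.isom hp).injective
  rw [PF.σ_pt hp]
  exact Complex.re_add_im _

theorem pt_sub_norm {p : Pc} (hp : p.Ok) (a b a' b' : ℝ) :
    ‖p.pt a b - p.pt a' b'‖ ≤ |a - a'| + |b - b'| := by
  have h1 : p.pt a b - p.pt a' b' =
      ((if p.s then ((a - a' : ℝ) : ℂ) else -((a - a' : ℝ) : ℂ)) + ((b - b' : ℝ) : ℂ) * I) * p.τ := by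
    unfold Pc.pt
    split_ifs <;> push_cast <;> ring
  rw [h1, norm_mul, hp.1, mul_one]
  refine (norm_add_le _ _).trans ?_
  apply add_le_add
  · split_ifs
    · rw [Complex.norm_real, Real.norm_eq_abs]
    · rw [norm_neg, Complex.norm_real, Real.norm_eq_abs]
  · rw [norm_mul, Complex.norm_I, mul_one, Complex.norm_real, Real.norm_eq_abs]

theorem small (δ A B : ℝ) (hδ : 0 < δ) (hB : 0 < B) : ∃ s, 0 < s ∧ s < δ ∧ s * A < B := by
  have h1 : (0 : ℝ) < |A| + 1 := by positivity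
  refine ⟨min (δ / 2) (B / (2 * (|A| + 1))), lt_min (by positivity) (by positivity), ?_, ?_⟩
  · exact (min_le_left _ _).trans_lt (by linarith)
  · have h2 : min (δ / 2) (B / (2 * (|A| + 1))) ≤ B / (2 * (|A| + 1)) := min_le_right _ _
    have h3 : 0 < min (δ / 2) (B / (2 * (|A| + 1))) := lt_min (by positivity) (by positivity)
    set s := min (δ / 2) (B / (2 * (|A| + 1)))
    calc s * A ≤ s * |A| := mul_le_mul_of_nonneg_left (le_abs_self A) h3.le
      _ ≤ B / (2 * (|A| + 1)) * |A| := mul_le_mul_of_nonneg_right h2 (abs_nonneg A)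
      _ = B * (|A| / (2 * (|A| + 1))) := by ring
      _ < B * 1 := by
        apply mul_lt_mul_of_pos_left _ hB
        rw [div_lt_one (by positivity)]
        linarith [abs_nonneg A]
      _ = B := mul_one B

theorem eq_of_mem (PF : PcFacts) {D : List (ℂ × ℝ)} {P : Set ℂ} (F : FSt D P) {l j : F.S.ι}
    {u : ℂ} (h1 : u ∈ interior (F.S.pc l).face) (h2 : u ∈ (F.S.pc j).face) : l = j := by
  by_contra hne
  have hd := F.disj l j hne
  rw [← PF.face_closure (F.S.ok j).1, mem_closure_iff] at h2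
  obtain ⟨v, hv1, hv2⟩ := h2 _ isOpen_interior h1
  exact Set.disjoint_left.1 hd hv1 hv2

theorem corner (PF : PcFacts) {p : Pc} (hp : p.Ok) {G : Set ℂ} (hG : Convex ℝ G) {a b δ : ℝ}
    (hδ : 0 < δ) (hloc : ∀ y, ‖y - p.pt a b‖ < δ → y ∉ p.face → y ∈ G)
    (hx : p.pt a b ∈ p.face) (α1 β1 α2 β2 r1 r2 : ℝ)
    (h1 : ∀ a' b', p.pt a' b' ∈ p.face → 0 ≤ α1 * (a' - a) + β1 * (b' - b))
    (h2 : ∀ a' b', p.pt a' b' ∈ p.face → 0 ≤ α2 * (a' - a) + β2 * (b' - b))
    (hr1 : α1 * r1 + β1 * r2 < 0) (hr2 : 0 < α2 * r1 + β2 * r2) :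
    ∃ y ∈ interior p.face, y ∈ G := by
  obtain ⟨hτ, hy, hρ0, hρ1⟩ := id hp
  obtain ⟨hx1, hx2, hx3, hx4⟩ := (PF.mem_face hp a b).1 hx
  obtain ⟨v1, hv1⟩ : ∃ v1 : ℝ, v1 = p.ρ0 / 4 - a := ⟨_, rfl⟩
  obtain ⟨v2, hv2⟩ : ∃ v2 : ℝ, v2 = (p.y0 + p.y1) / 2 - b := ⟨_, rfl⟩
  obtain ⟨C, hC⟩ : ∃ C : ℝ, C > max ((α1 * v1 + β1 * v2) / (-(α1 * r1 + β1 * r2)))
    ((α2 * v1 + β2 * v2) / (α2 * r1 + β2 * r2)) := exists_gt _
  have hC1 : α1 * v1 + β1 * v2 < C * (-(α1 * r1 + β1 * r2)) := by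
    rw [← div_lt_iff₀ (by linarith)]
    exact (le_max_left _ _).trans_lt hC
  have hC2 : α2 * v1 + β2 * v2 < C * (α2 * r1 + β2 * r2) := by
    rw [← div_lt_iff₀ (by linarith)]
    exact (le_max_right _ _).trans_lt hC
  obtain ⟨M, hM⟩ : ∃ M : ℝ, M = |v1| + |C * r1| + (|v2| + |C * r2|) := ⟨_, rfl⟩
  have hM0 : 0 ≤ M := by rw [hM]; positivity
  obtain ⟨s, hs0, hs1, hs2⟩ : ∃ s : ℝ, 0 < s ∧ s < 1 ∧ s * M < δ := small 1 M δ one_pos hδ
  have hy1 : p.pt (a + s * (v1 + C * r1)) (b + s * (v2 + C * r2)) ∈ G := by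
    apply hloc
    · refine (pt_sub_norm hp _ _ _ _).trans_lt ?_
      rw [add_sub_cancel_left, add_sub_cancel_left, abs_mul, abs_mul, abs_of_pos hs0, ← mul_add]
      refine lt_of_le_of_lt (mul_le_mul_of_nonneg_left ?_ hs0.le) hs2
      rw [hM]
      exact add_le_add (abs_add_le _ _) (abs_add_le _ _)
    · intro hmem
      have := h1 _ _ hmem
      rw [add_sub_cancel_left, add_sub_cancel_left] at this
      have h3 : α1 * (s * (v1 + C * r1)) + β1 * (s * (v2 + C * r2)) =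
          s * ((α1 * v1 + β1 * v2) - C * (-(α1 * r1 + β1 * r2))) := by ring
      rw [h3] at this
      have h4 : s * ((α1 * v1 + β1 * v2) - C * (-(α1 * r1 + β1 * r2))) < 0 :=
        mul_neg_of_pos_of_neg hs0 (by linarith)
      linarith
  have hy2 : p.pt (a + s * (v1 - C * r1)) (b + s * (v2 - C * r2)) ∈ G := by
    apply hloc
    · refine (pt_sub_norm hp _ _ _ _).trans_lt ?_
      rw [add_sub_cancel_left, add_sub_cancel_left, abs_mul, abs_mul, abs_of_pos hs0, ← mul_add]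
      refine lt_of_le_of_lt (mul_le_mul_of_nonneg_left ?_ hs0.le) hs2
      rw [hM]
      exact add_le_add (abs_sub _ _) (abs_sub _ _)
    · intro hmem
      have := h2 _ _ hmem
      rw [add_sub_cancel_left, add_sub_cancel_left] at this
      have h3 : α2 * (s * (v1 - C * r1)) + β2 * (s * (v2 - C * r2)) =
          s * ((α2 * v1 + β2 * v2) - C * (α2 * r1 + β2 * r2)) := by ring
      rw [h3] at this
      have h4 : s * ((α2 * v1 + β2 * v2) - C * (α2 * r1 + β2 * r2)) < 0 :=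
        mul_neg_of_pos_of_neg hs0 (by linarith)
      linarith
  refine ⟨p.pt (a + s * v1) (b + s * v2), ?_, ?_⟩
  · rw [PF.mem_int hp]
    have e1 : b + s * v2 = (1 - s) * b + s * ((p.y0 + p.y1) / 2) := by rw [hv2]; ring
    have e2 : a + s * v1 = (1 - s) * a + s * (p.ρ0 / 4) := by rw [hv1]; ring
    have hs3 : 0 ≤ 1 - s := by linarith
    refine ⟨?_, ?_, ?_, ?_⟩
    · rw [e1]
      nlinarith [mul_le_mul_of_nonneg_left hx1 hs3]
    · rw [e1]
      nlinarith [mul_le_mul_of_nonneg_left hx2 hs3]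
    · rw [e2]
      nlinarith [mul_nonneg hs3 hx3, mul_pos hs0 hρ0]
    · rw [e1, e2]
      have k1 := mul_le_mul_of_nonneg_left hx4 hs3
      have k2 : p.ρ0 / 4 * (p.y1 - p.y0) < p.ρ0 * (p.y1 - (p.y0 + p.y1) / 2) +
          p.ρ1 * ((p.y0 + p.y1) / 2 - p.y0) := by
        have : 0 < p.ρ0 * (p.y1 - p.y0) := mul_pos hρ0 (by linarith)
        have : 0 ≤ p.ρ1 * (p.y1 - p.y0) := mul_nonneg hρ1 (by linarith)
        linarith
      have k3 := mul_lt_mul_of_pos_left k2 hs0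
      calc ((1 - s) * a + s * (p.ρ0 / 4)) * (p.y1 - p.y0)
          = (1 - s) * (a * (p.y1 - p.y0)) + s * (p.ρ0 / 4 * (p.y1 - p.y0)) := by ring
        _ < (1 - s) * (p.ρ0 * (p.y1 - b) + p.ρ1 * (b - p.y0)) +
            s * (p.ρ0 * (p.y1 - (p.y0 + p.y1) / 2) + p.ρ1 * ((p.y0 + p.y1) / 2 - p.y0)) := by
            linarith
        _ = _ := by ring
  · have hmid : p.pt (a + s * v1) (b + s * v2) =
        (1 / 2 : ℝ) • p.pt (a + s * (v1 + C * r1)) (b + s * (v2 + C * r2)) +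
        (1 / 2 : ℝ) • p.pt (a + s * (v1 - C * r1)) (b + s * (v2 - C * r2)) := by
      simp only [Pc.pt, Complex.real_smul]
      split_ifs <;> push_cast <;> ring
    rw [hmid]
    exact hG hy1 hy2 (by norm_num) (by norm_num) (by norm_num)

theorem MS_pt {p q : Pc} (h : p.MS q) (hp : p.Ok) (a b : ℝ) : q.pt a b = p.pt (-a) b := by
  obtain ⟨hs, h0, h1, h2, h3⟩ := h
  obtain ⟨hτ, hy, hρ0, hρ1⟩ := hp
  have e2 : p.t + (p.y0 : ℂ) * I * p.τ = q.t + (p.y0 : ℂ) * I * q.τ := by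
    simpa [Pc.s0, Pc.pt, ← h0] using h2
  have e3 : p.t + (p.y1 : ℂ) * I * p.τ = q.t + (p.y1 : ℂ) * I * q.τ := by
    simpa [Pc.s1, Pc.pt, ← h1] using h3
  have hne : ((p.y1 : ℂ) - p.y0) * I ≠ 0 := by
    apply mul_ne_zero _ Complex.I_ne_zero
    rw [← Complex.ofReal_sub]
    exact Complex.ofReal_ne_zero.2 (by linarith)
  have e4 : p.τ = q.τ := by
    apply mul_left_cancel₀ hne
    linear_combination e3 - e2
  have e5 : p.t = q.t := by rw [e4] at e2; linear_combination e2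
  unfold Pc.pt
  rw [e4, e5]
  cases hps : p.s <;> cases hqs : q.s <;> simp_all

theorem ML_pt {p q : Pc} (h : p.ML q) (hp : p.Ok) (a b : ℝ) :
    q.pt a b = p.pt a (2 * p.y0 - b) := by
  obtain ⟨hs, h0, h1, h2, h3⟩ := h
  obtain ⟨hτ, hy, hρ0, hρ1⟩ := hp
  have e2 : p.t + (p.y0 : ℂ) * I * p.τ = q.t + (p.y0 : ℂ) * I * q.τ := by
    simpa [Pc.s0, Pc.pt, ← h0] using h2
  have hne : (p.ρ0 : ℂ) ≠ 0 := Complex.ofReal_ne_zero.2 hρ0.ne'
  simp only [Pc.e0, ← h0, ← h1] at h3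
  unfold Pc.pt at h3 ⊢
  cases hps : p.s <;> cases hqs : q.s <;> simp only [hps, hqs] at hs h3 ⊢
  · exact absurd rfl hs
  · have e4 : q.τ = - p.τ := by
      apply mul_left_cancel₀ hne
      simp at h3
      linear_combination e2 - h3
    rw [e4] at e2 ⊢
    push_cast
    simp
    linear_combination - e2
  · have e4 : q.τ = - p.τ := by
      apply mul_left_cancel₀ hne
      simp at h3
      linear_combination h3 - e2
    rw [e4] at e2 ⊢
    push_cast
    simp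
    linear_combination - e2
  · exact absurd rfl hs

theorem MF_pt {p q : Pc} (h : p.MF q) (a b : ℝ) : q.pt a b = p.pt a b := by
  obtain ⟨hs, h0, h1, h2, h3⟩ := h
  unfold Pc.pt
  rw [hs, h0, h1]

theorem MB_pt {p q : Pc} (h : p.MB q) (hp : p.Ok) (a b : ℝ)
    (hab : a * (p.y1 - p.y0) = p.ρ0 * (p.y1 - b) + p.ρ1 * (b - p.y0)) : q.pt a b = p.pt a b := by
  obtain ⟨hs, h0, h1, hr0, hr1, h2, h3⟩ := h
  obtain ⟨hτ, hy, hρ0, hρ1⟩ := hp
  have hne : ((p.y1 : ℂ) - p.y0) ≠ 0 := by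
    rw [← Complex.ofReal_sub]
    exact Complex.ofReal_ne_zero.2 (by linarith)
  have hab' : (a : ℂ) * (p.y1 - p.y0) = p.ρ0 * (p.y1 - b) + p.ρ1 * (b - p.y0) := by
    exact_mod_cast hab
  simp only [Pc.e0, Pc.e1, ← h0, ← h1, ← hr0, ← hr1] at h2 h3
  apply mul_left_cancel₀ hne
  unfold Pc.pt at h2 h3 ⊢
  cases hps : p.s <;> cases hqs : q.s <;> simp only [hps, hqs] at hs h2 h3 ⊢
  · exact absurd rfl hs
  · simp only [if_true, Bool.false_eq_true, if_false] at h2 h3 ⊢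
    linear_combination - (p.y1 - b) * h2 - (b - p.y0) * h3 + (q.τ + p.τ) * hab'
  · simp only [if_true, Bool.false_eq_true, if_false] at h2 h3 ⊢
    linear_combination - (p.y1 - b) * h2 - (b - p.y0) * h3 - (q.τ + p.τ) * hab'
  · exact absurd rfl hs

theorem side_pt {p : Pc} (hp : p.Ok) (a b : ℝ) : side p.e0 p.e1 (p.pt a b) =
    (if p.s then 1 else -1) * (p.ρ0 * (p.y1 - b) + p.ρ1 * (b - p.y0) - a * (p.y1 - p.y0)) := by
  have hτ : p.τ * (starRingEnd ℂ) p.τ = 1 := by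
    rw [Complex.mul_conj, Complex.normSq_eq_norm_sq, hp.1]; simp
  unfold side Pc.e0 Pc.e1 Pc.pt
  cases hps : p.s
  · have h1 : (p.t + ((if false = true then (a : ℂ) else -(a : ℂ)) + b * I) * p.τ -
        (p.t + ((if false = true then (p.ρ0 : ℂ) else -(p.ρ0 : ℂ)) + p.y0 * I) * p.τ)) *
        (starRingEnd ℂ) (p.t + ((if false = true then (p.ρ1 : ℂ) else -(p.ρ1 : ℂ)) + p.y1 * I) * p.τ -
        (p.t + ((if false = true then (p.ρ0 : ℂ) else -(p.ρ0 : ℂ)) + p.y0 * I) * p.τ)) =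
        (((p.ρ0 - a : ℝ) : ℂ) + ((b - p.y0 : ℝ) : ℂ) * I) *
        (((p.ρ0 - p.ρ1 : ℝ) : ℂ) - ((p.y1 - p.y0 : ℝ) : ℂ) * I) * (p.τ * (starRingEnd ℂ) p.τ) := by
      simp only [map_sub, map_add, map_mul, Complex.conj_ofReal, Complex.conj_I, map_neg,
        Bool.false_eq_true, if_false]
      push_cast
      ring
    rw [h1, hτ, mul_one]
    simp
    ring
  · have h1 : (p.t + ((if true = true then (a : ℂ) else -(a : ℂ)) + b * I) * p.τ -
        (p.t + ((if true = true then (p.ρ0 : ℂ) else -(p.ρ0 : ℂ)) + p.y0 * I) * p.τ)) *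
        (starRingEnd ℂ) (p.t + ((if true = true then (p.ρ1 : ℂ) else -(p.ρ1 : ℂ)) + p.y1 * I) * p.τ -
        (p.t + ((if true = true then (p.ρ0 : ℂ) else -(p.ρ0 : ℂ)) + p.y0 * I) * p.τ)) =
        (((a - p.ρ0 : ℝ) : ℂ) + ((b - p.y0 : ℝ) : ℂ) * I) *
        (((p.ρ1 - p.ρ0 : ℝ) : ℂ) - ((p.y1 - p.y0 : ℝ) : ℂ) * I) * (p.τ * (starRingEnd ℂ) p.τ) := by
      simp only [map_sub, map_add, map_mul, Complex.conj_ofReal, Complex.conj_I, if_true]
      push_cast
      ring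
    rw [h1, hτ, mul_one]
    simp
    ring

theorem cyc_map {α β : Type*} (f : α → β) (V : List α) :
    cyc (V.map f) = (cyc V).map (Prod.map f f) := by
  unfold cyc
  rw [← List.map_rotate, List.zip_map]

theorem cyc_next {α : Type*} {V : List α} {e : α} (he : e ∈ V) : ∃ e', (e, e') ∈ cyc V := by
  obtain ⟨k, hk, rfl⟩ := List.mem_iff_getElem.1 he
  have hk' : k < (V.zip (V.rotate 1)).length := by simpa using hk
  have hk2 : k < (V.rotate 1).length := by simpa using hk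
  refine ⟨(V.rotate 1)[k], ?_⟩
  unfold cyc
  have : (V[k], (V.rotate 1)[k]) = (V.zip (V.rotate 1))[k] := by simp
  rw [this]
  exact List.getElem_mem _

theorem cyc_prev {α : Type*} {V : List α} {e : α} (he : e ∈ V) : ∃ e', (e', e) ∈ cyc V := by
  have he' : e ∈ V.rotate 1 := List.mem_rotate.2 he
  obtain ⟨k, hk, hke⟩ := List.mem_iff_getElem.1 he'
  have hk1 : k < V.length := by simpa using hk
  have hk' : k < (V.zip (V.rotate 1)).length := by simpa using hk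
  refine ⟨V[k], ?_⟩
  unfold cyc
  have : (V[k], e) = (V.zip (V.rotate 1))[k] := by simp only [List.getElem_zip, hke]
  rw [this]
  exact List.getElem_mem _

/-- points on the bottom side of a flag are on the boundary curve -/
theorem flag_curve {D : List (ℂ × ℝ)} (S : Stack 0 D) {i : S.ι} {a : ℝ}
    (hi : ∃ e ∈ S.T, i = e.2.1 ∨ i = e.2.2) (ha0 : 0 ≤ a) (ha1 : a ≤ (S.pc i).ρ0) :
    (S.pc i).pt a (S.pc i).y0 ∈ curve (D.map Prod.fst) := by
  have key : ∀ e e' : (ℂ × ℝ) × S.ι × S.ι, (e, e') ∈ cyc S.T →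
      ∀ z : ℝ, 0 ≤ z → z ≤ e.1.2 + e'.1.2 → 0 < e.1.2 + e'.1.2 → ∀ τ : ℂ,
      e'.1.1 - e.1.1 = ((e.1.2 + e'.1.2 : ℝ) : ℂ) * τ →
      e.1.1 + z * τ ∈ curve (D.map Prod.fst) := by
    intro e e' hee z hz0 hz1 hpos τ hτ
    refine ⟨(e.1.1, e'.1.1), ?_, ?_⟩
    · have h1 : (e.1.1, e'.1.1) ∈ cyc ((S.T.map Prod.fst).map Prod.fst) := by
        rw [List.map_map, cyc_map]
        exact List.mem_map.2 ⟨(e, e'), hee, rfl⟩
      rwa [S.hT] at h1
    · show e.1.1 + z * τ ∈ segment ℝ e.1.1 e'.1.1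
      rw [segment_eq_image']
      refine ⟨z / (e.1.2 + e'.1.2), ⟨by positivity, by rw [div_le_one hpos]; exact hz1⟩, ?_⟩
      show e.1.1 + (z / (e.1.2 + e'.1.2)) • (e'.1.1 - e.1.1) = _
      rw [hτ, Complex.real_smul, ← mul_assoc, ← Complex.ofReal_mul, div_mul_cancel₀ _ hpos.ne']
  obtain ⟨e, he, hie | hie⟩ := hi
  · obtain ⟨e', hee⟩ := cyc_prev he
    obtain ⟨⟨τ, hτ, hab, hps, hqs, hpτ, hqτ, hpt, hqt, hp0, hq0, hpρ, hqρ, -⟩, -⟩ := S.geo _ hee
    simp only at hab hps hqs hpτ hqτ hpt hqt hp0 hq0 hpρ hqρ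
    have hok := (S.ok e'.2.2).1
    have hok' := (S.ok e.2.1).1
    have k1 : 0 < e'.1.2 := by rw [← hpρ]; exact hok.2.2.1
    have k2 : 0 < e.1.2 := by rw [← hqρ]; exact hok'.2.2.1
    have := key e' e hee (e'.1.2 + a) (by linarith) (by rw [hie, hqρ] at ha1; linarith)
      (by linarith) τ hab
    rw [hie]
    convert this using 1
    unfold Pc.pt
    rw [hqs, hqτ, hqt, hq0]
    push_cast
    simp
    ring
  · obtain ⟨e', hee⟩ := cyc_next he
    obtain ⟨⟨τ, hτ, hab, hps, hqs, hpτ, hqτ, hpt, hqt, hp0, hq0, hpρ, hqρ, -⟩, -⟩ := S.geo _ hee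
    simp only at hab hps hqs hpτ hqτ hpt hqt hp0 hq0 hpρ hqρ
    have hok := (S.ok e.2.2).1
    have hok' := (S.ok e'.2.1).1
    have k1 : 0 < e.1.2 := by rw [← hpρ]; exact hok.2.2.1
    have k2 : 0 < e'.1.2 := by rw [← hqρ]; exact hok'.2.2.1
    have := key e e' hee (e.1.2 - a) (by rw [hie, hpρ] at ha1; linarith) (by linarith)
      (by linarith) τ hab
    rw [hie]
    convert this using 1
    unfold Pc.pt
    rw [hps, hpτ, hpt, hp0]
    push_cast
    simp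
    ring

/-- two faces meeting along a crease are related, in coordinates -/
theorem meets_aux (PF : PcFacts) {D : List (ℂ × ℝ)} {P : Set ℂ} (F : FSt D P) {i j : F.S.ι}
    {a b : ℝ} (h : Meets (fun k => (F.S.pc k).face) i j ((F.S.pc i).pt a b)) :
    (F.S.RS i j ∧ a = 0 ∧ (F.S.pc i).y0 < b ∧ b < (F.S.pc i).y1) ∨
    (F.S.RB i j ∧ 0 < a ∧ (F.S.pc i).y0 < b ∧ b < (F.S.pc i).y1 ∧
      a * ((F.S.pc i).y1 - (F.S.pc i).y0) =
        (F.S.pc i).ρ0 * ((F.S.pc i).y1 - b) + (F.S.pc i).ρ1 * (b - (F.S.pc i).y0)) ∨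
    (F.S.RL i j ∧ b = (F.S.pc i).y0 ∧ 0 < a ∧ a < (F.S.pc i).ρ0) ∨
    (F.S.RF i j ∧ b = (F.S.pc i).y1 ∧ 0 < a ∧ a < (F.S.pc i).ρ1) ∨
    (F.S.RF j i ∧ b = (F.S.pc i).y0 ∧ 0 < a ∧ a < (F.S.pc i).ρ0) := by
  obtain ⟨hij, hxi, hxj, hnhds⟩ := h
  simp only at hxi hxj hnhds
  have hp := (F.S.ok i).1
  obtain ⟨hτ, hy, hρ0, hρ1⟩ := id hp
  obtain ⟨c1, c2, c3, c4⟩ := (PF.mem_face hp a b).1 hxi
  obtain ⟨δ, hδ, hball⟩ := Metric.mem_nhds_iff.1 hnhds
  have hloc : ∀ y, ‖y - (F.S.pc i).pt a b‖ < δ → y ∉ (F.S.pc i).face → y ∈ (F.S.pc j).face := by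
    intro y hy1 hy2
    have : y ∈ Metric.ball ((F.S.pc i).pt a b) δ := by rwa [Metric.mem_ball, dist_eq_norm]
    rcases hball this with h3 | h3
    · exact absurd h3 hy2
    · exact h3
  have hconv : Convex ℝ (F.S.pc j).face := by
    rw [PF.face_hull (F.S.ok j).1]
    exact convex_convexHull ℝ _
  have hno : ∀ α1 β1 α2 β2 r1 r2 : ℝ,
      (∀ a' b', (F.S.pc i).pt a' b' ∈ (F.S.pc i).face → 0 ≤ α1 * (a' - a) + β1 * (b' - b)) →
      (∀ a' b', (F.S.pc i).pt a' b' ∈ (F.S.pc i).face → 0 ≤ α2 * (a' - a) + β2 * (b' - b)) →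
      α1 * r1 + β1 * r2 < 0 → 0 < α2 * r1 + β2 * r2 → False := by
    intro α1 β1 α2 β2 r1 r2 h1 h2 h3 h4
    obtain ⟨y, hy1, hy2⟩ := corner PF hp hconv hδ hloc hxi α1 β1 α2 β2 r1 r2 h1 h2 h3 h4
    exact hij (eq_of_mem PF F hy1 hy2)
  have t1 : b = (F.S.pc i).y0 → ∀ a' b', (F.S.pc i).pt a' b' ∈ (F.S.pc i).face →
      0 ≤ 0 * (a' - a) + 1 * (b' - b) := by
    intro hb a' b' hm
    have := ((PF.mem_face hp a' b').1 hm).1
    linarith
  have t2 : b = (F.S.pc i).y1 → ∀ a' b', (F.S.pc i).pt a' b' ∈ (F.S.pc i).face →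
      0 ≤ 0 * (a' - a) + (-1) * (b' - b) := by
    intro hb a' b' hm
    have := ((PF.mem_face hp a' b').1 hm).2.1
    linarith
  have t3 : a = 0 → ∀ a' b', (F.S.pc i).pt a' b' ∈ (F.S.pc i).face →
      0 ≤ 1 * (a' - a) + 0 * (b' - b) := by
    intro hb a' b' hm
    have := ((PF.mem_face hp a' b').1 hm).2.2.1
    linarith
  have t4 : a * ((F.S.pc i).y1 - (F.S.pc i).y0) =
        (F.S.pc i).ρ0 * ((F.S.pc i).y1 - b) + (F.S.pc i).ρ1 * (b - (F.S.pc i).y0) →
      ∀ a' b', (F.S.pc i).pt a' b' ∈ (F.S.pc i).face →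
      0 ≤ (-((F.S.pc i).y1 - (F.S.pc i).y0)) * (a' - a) +
        ((F.S.pc i).ρ1 - (F.S.pc i).ρ0) * (b' - b) := by
    intro hb a' b' hm
    have := ((PF.mem_face hp a' b').1 hm).2.2.2
    linarith
  have hh : 0 < (F.S.pc i).y1 - (F.S.pc i).y0 := by linarith
  have no13 : b = (F.S.pc i).y0 → a = 0 → False := fun h1 h3 =>
    hno 0 1 1 0 1 (-1) (t1 h1) (t3 h3) (by norm_num) (by norm_num)
  have no23 : b = (F.S.pc i).y1 → a = 0 → False := fun h1 h3 =>
    hno 0 (-1) 1 0 1 1 (t2 h1) (t3 h3) (by norm_num) (by norm_num)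
  have no14 : b = (F.S.pc i).y0 → a * ((F.S.pc i).y1 - (F.S.pc i).y0) =
        (F.S.pc i).ρ0 * ((F.S.pc i).y1 - b) + (F.S.pc i).ρ1 * (b - (F.S.pc i).y0) → False := by
    intro h1 h4
    refine hno 0 1 _ _ (-((|(F.S.pc i).ρ1 - (F.S.pc i).ρ0| + 1) /
      ((F.S.pc i).y1 - (F.S.pc i).y0))) (-1) (t1 h1) (t4 h4) (by norm_num) ?_
    have e : (-((F.S.pc i).y1 - (F.S.pc i).y0)) * (-((|(F.S.pc i).ρ1 - (F.S.pc i).ρ0| + 1) /
      ((F.S.pc i).y1 - (F.S.pc i).y0))) = |(F.S.pc i).ρ1 - (F.S.pc i).ρ0| + 1 := by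
      field_simp
    rw [e]
    linarith [le_abs_self ((F.S.pc i).ρ1 - (F.S.pc i).ρ0)]
  have no24 : b = (F.S.pc i).y1 → a * ((F.S.pc i).y1 - (F.S.pc i).y0) =
        (F.S.pc i).ρ0 * ((F.S.pc i).y1 - b) + (F.S.pc i).ρ1 * (b - (F.S.pc i).y0) → False := by
    intro h1 h4
    refine hno 0 (-1) _ _ (-((|(F.S.pc i).ρ1 - (F.S.pc i).ρ0| + 1) /
      ((F.S.pc i).y1 - (F.S.pc i).y0))) 1 (t2 h1) (t4 h4) (by norm_num) ?_
    have e : (-((F.S.pc i).y1 - (F.S.pc i).y0)) * (-((|(F.S.pc i).ρ1 - (F.S.pc i).ρ0| + 1) /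
      ((F.S.pc i).y1 - (F.S.pc i).y0))) = |(F.S.pc i).ρ1 - (F.S.pc i).ρ0| + 1 := by
      field_simp
    rw [e]
    linarith [neg_abs_le ((F.S.pc i).ρ1 - (F.S.pc i).ρ0)]
  -- closing lemma
  have close : ∀ (l : F.S.ι) (y : ℂ), ‖y - (F.S.pc i).pt a b‖ < δ → y ∉ (F.S.pc i).face →
      y ∈ interior (F.S.pc l).face → l = j := fun l y h1 h2 h3 =>
    eq_of_mem PF F h3 (hloc y h1 h2)
  rcases eq_or_lt_of_le c3 with ha | ha
  · -- vertical side
    left
    have hb1 : (F.S.pc i).y0 < b := lt_of_le_of_ne c1 (fun h => no13 h.symm ha.symm)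
    have hb2 : b < (F.S.pc i).y1 := lt_of_le_of_ne c2 (fun h => no23 h ha.symm)
    obtain ⟨l, hl⟩ := F.S.exS i
    have hMS := F.S.geoS _ _ hl
    have hq := (F.S.ok l).1
    obtain ⟨hτ', hy', hρ0', hρ1'⟩ := id hq
    have hpt := MS_pt hMS hp
    obtain ⟨-, g0, g1, -, -⟩ := hMS
    have hB : 0 < (F.S.pc l).ρ0 * ((F.S.pc i).y1 - b) + (F.S.pc l).ρ1 * (b - (F.S.pc i).y0) := by
      have : 0 < (F.S.pc l).ρ0 * ((F.S.pc i).y1 - b) := mul_pos hρ0' (by linarith)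
      have : 0 ≤ (F.S.pc l).ρ1 * (b - (F.S.pc i).y0) := mul_nonneg hρ1' (by linarith)
      linarith
    obtain ⟨s, hs0, hs1, hs2⟩ := small δ ((F.S.pc i).y1 - (F.S.pc i).y0) _ hδ hB
    have hlj : l = j := by
      apply close l ((F.S.pc l).pt s b)
      · rw [hpt]
        refine (pt_sub_norm hp _ _ _ _).trans_lt ?_
        rw [← ha]
        simp only [sub_zero, abs_neg, sub_self, abs_zero, add_zero, abs_of_pos hs0]
        exact hs1
      · rw [hpt, PF.mem_face hp]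
        rintro ⟨-, -, hc, -⟩
        linarith
      · rw [PF.mem_int hq, ← g0, ← g1]
        exact ⟨hb1, hb2, hs0, hs2⟩
    rw [← hlj]
    exact ⟨hl, ha.symm, hb1, hb2⟩
  rcases eq_or_lt_of_le c1 with hb | hb
  · -- bottom
    have ha2 : a < (F.S.pc i).ρ0 := by
      by_contra hcon
      push Not at hcon
      apply no14 hb.symm
      apply le_antisymm c4
      rw [← hb, sub_self, mul_zero, add_zero]
      exact mul_le_mul_of_nonneg_right hcon hh.le
    rcases F.S.exBase i with hfl | ⟨l, hl⟩ | ⟨l, hl⟩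
    · exfalso
      have hc := flag_curve F.S hfl ha.le ha2.le
      rw [← F.hfr, hb] at hc
      have hP : P ∈ nhds ((F.S.pc i).pt a b) := by
        apply Filter.mem_of_superset hnhds
        rintro y (hy1 | hy1)
        · exact F.cover.subset (Set.mem_iUnion.2 ⟨i, hy1⟩)
        · exact F.cover.subset (Set.mem_iUnion.2 ⟨j, hy1⟩)
      exact hc.2 (mem_interior_iff_mem_nhds.2 hP)
    · right; right; left
      have hML := F.S.geoL _ _ hl
      have hq := (F.S.ok l).1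
      obtain ⟨hτ', hy', hρ0', hρ1'⟩ := id hq
      have hpt := ML_pt hML hp
      obtain ⟨-, g0, g1, -, -⟩ := hML
      have hB : 0 < ((F.S.pc i).ρ0 - a) * ((F.S.pc l).y1 - (F.S.pc l).y0) :=
        mul_pos (by linarith) (by linarith)
      obtain ⟨s, hs0, hs1, hs2⟩ := small (min δ ((F.S.pc l).y1 - (F.S.pc l).y0))
        (F.S.pc i).ρ0 _ (lt_min hδ (by linarith)) hB
      have hs3 := hs1.trans_le (min_le_left _ _)
      have hs4 := hs1.trans_le (min_le_right _ _)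
      have hlj : l = j := by
        apply close l ((F.S.pc l).pt a ((F.S.pc i).y0 + s))
        · rw [hpt]
          refine (pt_sub_norm hp _ _ _ _).trans_lt ?_
          rw [← hb, sub_self, abs_zero, zero_add]
          have : 2 * (F.S.pc i).y0 - ((F.S.pc i).y0 + s) - (F.S.pc i).y0 = -s := by ring
          rw [this, abs_neg, abs_of_pos hs0]
          exact hs3
        · rw [hpt, PF.mem_face hp]
          rintro ⟨hc, -, -, -⟩
          linarith
        · rw [PF.mem_int hq, ← g0, ← g1]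
          rw [← g0] at hs4 hs2 hy'
          refine ⟨by linarith, by linarith, ha, ?_⟩
          have : 0 ≤ (F.S.pc l).ρ1 * s := mul_nonneg hρ1' hs0.le
          linarith
      rw [← hlj]
      exact ⟨hl, hb.symm, ha, ha2⟩
    · right; right; right; right
      have hMF := F.S.geoF _ _ hl
      have hq := (F.S.ok l).1
      obtain ⟨hτ', hy', hρ0', hρ1'⟩ := id hq
      have hpt := MF_pt hMF
      obtain ⟨-, -, -, g0, g1⟩ := hMF
      have hB : 0 < ((F.S.pc i).ρ0 - a) * ((F.S.pc l).y1 - (F.S.pc l).y0) :=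
        mul_pos (by linarith) (by linarith)
      obtain ⟨s, hs0, hs1, hs2⟩ := small (min δ ((F.S.pc l).y1 - (F.S.pc l).y0))
        (F.S.pc i).ρ0 _ (lt_min hδ (by linarith)) hB
      have hs3 := hs1.trans_le (min_le_left _ _)
      have hs4 := hs1.trans_le (min_le_right _ _)
      have hlj : l = j := by
        apply close l ((F.S.pc l).pt a ((F.S.pc i).y0 - s))
        · rw [← hpt]
          refine (pt_sub_norm hp _ _ _ _).trans_lt ?_
          rw [← hb, sub_self, abs_zero, zero_add]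
          have : (F.S.pc i).y0 - s - (F.S.pc i).y0 = -s := by ring
          rw [this, abs_neg, abs_of_pos hs0]
          exact hs3
        · rw [← hpt, PF.mem_face hp]
          rintro ⟨hc, -, -, -⟩
          linarith
        · rw [PF.mem_int hq, g0, g1]
          rw [g0] at hs4 hs2 hy'
          refine ⟨by linarith, by linarith, ha, ?_⟩
          have : 0 ≤ (F.S.pc l).ρ0 * s := mul_nonneg hρ0'.le hs0.le
          linarith
      rw [← hlj]
      exact ⟨hl, hb.symm, ha, ha2⟩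
  rcases eq_or_lt_of_le c2 with hb2 | hb2
  · -- top
    right; right; right; left
    have ha2 : a < (F.S.pc i).ρ1 := by
      by_contra hcon
      push Not at hcon
      apply no24 hb2
      apply le_antisymm c4
      rw [hb2, sub_self, mul_zero, zero_add]
      exact mul_le_mul_of_nonneg_right hcon hh.le
    rcases F.S.exTop i with h0 | ⟨l, hl⟩
    · linarith
    · have hMF := F.S.geoF _ _ hl
      have hq := (F.S.ok l).1
      obtain ⟨hτ', hy', hρ0', hρ1'⟩ := id hq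
      have hpt := MF_pt hMF
      obtain ⟨-, -, -, g0, g1⟩ := hMF
      have hB : 0 < ((F.S.pc i).ρ1 - a) * ((F.S.pc l).y1 - (F.S.pc l).y0) :=
        mul_pos (by linarith) (by linarith)
      obtain ⟨s, hs0, hs1, hs2⟩ := small (min δ ((F.S.pc l).y1 - (F.S.pc l).y0))
        (F.S.pc i).ρ1 _ (lt_min hδ (by linarith)) hB
      have hs3 := hs1.trans_le (min_le_left _ _)
      have hs4 := hs1.trans_le (min_le_right _ _)
      have hlj : l = j := by
        apply close l ((F.S.pc l).pt a ((F.S.pc i).y1 + s))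
        · rw [hpt]
          refine (pt_sub_norm hp _ _ _ _).trans_lt ?_
          rw [hb2, sub_self, abs_zero, zero_add, add_sub_cancel_left, abs_of_pos hs0]
          exact hs3
        · rw [hpt, PF.mem_face hp]
          rintro ⟨-, hc, -, -⟩
          linarith
        · rw [PF.mem_int hq, ← g0, ← g1]
          rw [← g0] at hs4 hs2 hy'
          refine ⟨by linarith, by linarith, ha, ?_⟩
          have : 0 ≤ (F.S.pc l).ρ1 * s := mul_nonneg hρ1' hs0.le
          linarith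
      rw [← hlj]
      exact ⟨hl, hb2, ha, ha2⟩
  rcases eq_or_lt_of_le c4 with h4 | h4
  · -- slanted side
    right; left
    obtain ⟨l, hl⟩ := F.S.exB i
    have hMB := F.S.geoB _ _ hl
    have hq := (F.S.ok l).1
    obtain ⟨hτ', hy', hρ0', hρ1'⟩ := id hq
    have hpt := MB_pt hMB hp a b h4
    obtain ⟨hs, g0, g1, k0, k1, l0, l1⟩ := hMB
    obtain ⟨s, hs0, hs1, hs2⟩ := small δ 1 a hδ ha
    have hlj : l = j := by
      apply close l ((F.S.pc l).pt (a - s) b)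
      · rw [← hpt]
        refine (pt_sub_norm hq _ _ _ _).trans_lt ?_
        have : a - s - a = -s := by ring
        rw [this, abs_neg, abs_of_pos hs0, sub_self, abs_zero, add_zero]
        exact hs1
      · intro hmem
        have e1 := pt_σ_G2 PF hp ((F.S.pc l).pt (a - s) b)
        have e2 := side_pt hp ((F.S.pc i).σ ((F.S.pc l).pt (a - s) b)).re
          ((F.S.pc i).σ ((F.S.pc l).pt (a - s) b)).im
        have e3 := side_pt hq (a - s) b
        rw [e1, l0, l1, e3, ← g0, ← g1, ← k0, ← k1] at e2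
        rw [← e1, PF.mem_face hp] at hmem
        have e4 := hmem.2.2.2
        have e5 : 0 < s * ((F.S.pc i).y1 - (F.S.pc i).y0) := mul_pos hs0 hh
        cases hps : (F.S.pc i).s <;> cases hqs : (F.S.pc l).s
        · exact hs (by rw [hps, hqs])
        · rw [hps, hqs] at e2
          simp only [if_true, Bool.false_eq_true, if_false] at e2
          linarith
        · rw [hps, hqs] at e2
          simp only [if_true, Bool.false_eq_true, if_false] at e2
          linarith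
        · exact hs (by rw [hps, hqs])
      · rw [PF.mem_int hq, ← g0, ← g1, ← k0, ← k1]
        refine ⟨hb, hb2, by linarith, ?_⟩
        have e5 : 0 < s * ((F.S.pc i).y1 - (F.S.pc i).y0) := mul_pos hs0 hh
        linarith
    rw [← hlj]
    exact ⟨hl, ha, hb, hb2, h4⟩
  · exfalso
    exact hij (eq_of_mem PF F ((PF.mem_int hp a b).2 ⟨hb, hb2, ha, h4⟩) hxj)

/-- two faces meeting along a crease are related -/
theorem meets_cases (PF : PcFacts) {D : List (ℂ × ℝ)} {P : Set ℂ} (F : FSt D P) {i j : F.S.ι}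
    {x : ℂ} (h : Meets (fun k => (F.S.pc k).face) i j x) :
    (F.S.RS i j ∧ ((F.S.pc i).σ x).re = 0 ∧ (F.S.pc i).y0 < ((F.S.pc i).σ x).im ∧
      ((F.S.pc i).σ x).im < (F.S.pc i).y1) ∨
    (F.S.RB i j ∧ 0 < ((F.S.pc i).σ x).re ∧ (F.S.pc i).y0 < ((F.S.pc i).σ x).im ∧
      ((F.S.pc i).σ x).im < (F.S.pc i).y1) ∨
    (F.S.RL i j ∧ ((F.S.pc i).σ x).im = (F.S.pc i).y0 ∧ 0 < ((F.S.pc i).σ x).re ∧
      ((F.S.pc i).σ x).re < (F.S.pc i).ρ0) ∨
    (F.S.RF i j ∧ ((F.S.pc i).σ x).im = (F.S.pc i).y1 ∧ 0 < ((F.S.pc i).σ x).re ∧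
      ((F.S.pc i).σ x).re < (F.S.pc i).ρ1) ∨
    (F.S.RF j i ∧ ((F.S.pc i).σ x).im = (F.S.pc i).y0 ∧ 0 < ((F.S.pc i).σ x).re ∧
      ((F.S.pc i).σ x).re < (F.S.pc i).ρ0) := by
  rw [← pt_σ_G2 PF (F.S.ok i).1 x] at h
  rcases meets_aux PF F h with h | ⟨h1, h2, h3, h4, -⟩ | h | h | h
  · exact Or.inl h
  · exact Or.inr (Or.inl ⟨h1, h2, h3, h4⟩)
  · exact Or.inr (Or.inr (Or.inl h))
  · exact Or.inr (Or.inr (Or.inr (Or.inl h)))
  · exact Or.inr (Or.inr (Or.inr (Or.inr h)))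

/-- related faces have the same image of the common points -/
theorem meets_agree (PF : PcFacts) {D : List (ℂ × ℝ)} {P : Set ℂ} (F : FSt D P) {i j : F.S.ι}
    {x : ℂ} (h : Meets (fun k => (F.S.pc k).face) i j x) :
    (F.S.pc i).σ x = (F.S.pc j).σ x := by
  have hx := pt_σ_G2 PF (F.S.ok i).1 x
  rw [← hx] at h
  have hp := (F.S.ok i).1
  have hq := (F.S.ok j).1
  have key : (F.S.pc j).pt ((F.S.pc i).σ x).re ((F.S.pc i).σ x).im =
      (F.S.pc i).pt ((F.S.pc i).σ x).re ((F.S.pc i).σ x).im → (F.S.pc i).σ x = (F.S.pc j).σ x := by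
    intro he
    rw [hx] at he
    conv_rhs => rw [← he]
    rw [PF.σ_pt hq, Complex.re_add_im]
  apply key
  rcases meets_aux PF F h with ⟨h1, h2, -, -⟩ | ⟨h1, -, -, -, h5⟩ | ⟨h1, h2, -, -⟩ | ⟨h1, -⟩ | ⟨h1, -⟩
  · rw [MS_pt (F.S.geoS _ _ h1) hp, h2, neg_zero]
  · exact MB_pt (F.S.geoB _ _ h1) hp _ _ h5
  · rw [ML_pt (F.S.geoL _ _ h1) hp, h2]
    congr 1
    ring
  · exact MF_pt (F.S.geoF _ _ h1) _ _
  · exact (MF_pt (F.S.geoF _ _ h1) _ _).symm

end

end Pool.Agent.Helper22.FC
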