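import Pool.Agent.Helper22.FC.Base

namespace Pool.Agent.Helper22.FC

open Complex

noncomputable section

open Filter Topology

section g3sec

variable {D : List (ℂ × ℝ)} {P : Set ℂ}

lemma g3_mem {p : Pc} {x : ℂ} : x ∈ p.face ↔ p.y0 ≤ (p.σ x).im ∧ (p.σ x).im ≤ p.y1 ∧
    0 ≤ (p.σ x).re ∧ (p.σ x).re * (p.y1 - p.y0) ≤
      p.ρ0 * (p.y1 - (p.σ x).im) + p.ρ1 * ((p.σ x).im - p.y0) := Iff.rfl

/-- the linear function vanishing on the slanted side -/
def g3G (p : Pc) (x : ℂ) : ℝ := p.ρ0 * (p.y1 - (p.σ x).im) + p.ρ1 * ((p.σ x).im - p.y0) -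
  (p.σ x).re * (p.y1 - p.y0)

lemma g3_mem' {p : Pc} {x : ℂ} (h1 : p.y0 ≤ (p.σ x).im) (h2 : (p.σ x).im ≤ p.y1)
    (h3 : 0 ≤ (p.σ x).re) (h4 : 0 ≤ g3G p x) : x ∈ p.face := by
  rw [g3_mem]; unfold g3G at h4; exact ⟨h1, h2, h3, by linarith⟩

lemma g3_of_mem {p : Pc} {x : ℂ} (h : x ∈ p.face) : p.y0 ≤ (p.σ x).im ∧ (p.σ x).im ≤ p.y1 ∧
    0 ≤ (p.σ x).re ∧ 0 ≤ g3G p x := by
  rw [g3_mem] at h; unfold g3G; exact ⟨h.1, h.2.1, h.2.2.1, by linarith [h.2.2.2]⟩

lemma g3_cont (p : Pc) : Continuous p.σ := by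
  unfold Pc.σ
  split
  · fun_prop
  · exact (Complex.continuous_conj.comp (by fun_prop)).neg

lemma g3_cre (p : Pc) : Continuous (fun x => (p.σ x).re) := Complex.continuous_re.comp (g3_cont p)
lemma g3_cim (p : Pc) : Continuous (fun x => (p.σ x).im) := Complex.continuous_im.comp (g3_cont p)
lemma g3_cG (p : Pc) : Continuous (g3G p) := by
  unfold g3G
  have h1 := g3_cre p
  have h2 := g3_cim p
  fun_prop

lemma g3_eq (PF : PcFacts) {p : Pc} (hp : p.Ok) {x : ℂ} {a b : ℝ} (h1 : (p.σ x).re = a)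
    (h2 : (p.σ x).im = b) : x = p.pt a b := by
  apply (PF.isom hp).injective
  rw [PF.σ_pt hp, ← h1, ← h2]
  exact (Complex.re_add_im _).symm

/-- relations between the frames of partners -/
lemma g3_MS {p q : Pc} (hp : p.Ok) (hq : q.Ok) (h : p.MS q) (x : ℂ) :
    (q.σ x).re = -(p.σ x).re ∧ (q.σ x).im = (p.σ x).im := by
  obtain ⟨hs, h0, h1, hs0, hs1⟩ := h
  have hy : (p.y1 : ℂ) - p.y0 ≠ 0 := by
    rw [← Complex.ofReal_sub]; exact_mod_cast (sub_pos.mpr hp.2.1).ne'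
  have e0 : p.t + (p.y0 * I) * p.τ = q.t + (p.y0 * I) * q.τ := by
    have := hs0
    unfold Pc.s0 Pc.pt at this
    rw [← h0] at this
    simpa using this
  have e1 : p.t + (p.y1 * I) * p.τ = q.t + (p.y1 * I) * q.τ := by
    have := hs1
    unfold Pc.s1 Pc.pt at this
    rw [← h1] at this
    simpa using this
  have hτ : p.τ = q.τ := by
    have h2 : ((p.y1 : ℂ) - p.y0) * I * (p.τ - q.τ) = 0 := by linear_combination e1 - e0
    rcases mul_eq_zero.mp h2 with h3 | h3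
    · exact absurd h3 (mul_ne_zero hy I_ne_zero)
    · exact sub_eq_zero.mp h3
  have ht : p.t = q.t := by rw [hτ] at e0; linear_combination e0
  have key : q.σ x = -(starRingEnd ℂ) (p.σ x) := by
    unfold Pc.σ
    rw [← hτ, ← ht]
    cases hps : p.s <;> cases hqs : q.s
    · exact absurd (hps.trans hqs.symm) hs
    · simp
    · simp
    · exact absurd (hps.trans hqs.symm) hs
  rw [key]; simp

lemma g3_norm {τ : ℂ} (h : ‖τ‖ = 1) : τ * (starRingEnd ℂ) τ = 1 := by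
  rw [Complex.mul_conj, Complex.normSq_eq_norm_sq, h]; simp

lemma g3_ML {p q : Pc} (hp : p.Ok) (hq : q.Ok) (h : p.ML q) (x : ℂ) :
    (q.σ x).re = (p.σ x).re ∧ (q.σ x).im = 2 * p.y0 - (p.σ x).im := by
  obtain ⟨hs, h0, hρ, hs0, he0⟩ := h
  have hρ0 : (p.ρ0 : ℂ) ≠ 0 := by exact_mod_cast hp.2.2.1.ne'
  have e0 : p.t + (p.y0 * I) * p.τ = q.t + (p.y0 * I) * q.τ := by
    have := hs0
    unfold Pc.s0 Pc.pt at this
    rw [← h0] at this
    simpa using this
  have hτ : q.τ = -p.τ := by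
    have h1 := he0
    unfold Pc.e0 Pc.pt at h1
    rw [← h0, ← hρ] at h1
    have h2 : (p.ρ0 : ℂ) * (q.τ + p.τ) = 0 := by
      cases hps : p.s <;> cases hqs : q.s
      · exact absurd (hps.trans hqs.symm) hs
      · simp only [hps, hqs, if_true, if_false, Bool.false_eq_true] at h1
        linear_combination e0 - h1
      · simp only [hps, hqs, if_true, if_false, Bool.false_eq_true] at h1
        linear_combination h1 - e0
      · exact absurd (hps.trans hqs.symm) hs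
    rcases mul_eq_zero.mp h2 with h3 | h3
    · exact absurd h3 hρ0
    · linear_combination h3
  have ht : q.t = p.t + 2 * p.y0 * I * p.τ := by rw [hτ] at e0; linear_combination -e0
  have hn := g3_norm hp.1
  have key : q.σ x = (starRingEnd ℂ) (p.σ x) + 2 * p.y0 * I := by
    unfold Pc.σ
    rw [hτ, ht]
    cases hps : p.s <;> cases hqs : q.s
    · exact absurd (hps.trans hqs.symm) hs
    · simp only [if_true, if_false, Bool.false_eq_true, map_neg, Complex.conj_conj]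
      linear_combination (2 * p.y0 * I) * hn
    · simp only [if_true, if_false, Bool.false_eq_true, map_neg, map_mul, map_sub, map_add,
        Complex.conj_conj, Complex.conj_I, Complex.conj_ofReal, map_ofNat]
      linear_combination (2 * p.y0 * I) * hn
    · exact absurd (hps.trans hqs.symm) hs
  rw [key]
  constructor
  · simp
  · simp; ring

lemma g3_MF {p q : Pc} (h : p.MF q) (x : ℂ) : q.σ x = p.σ x := by
  obtain ⟨hs, ht, hτ, _, _⟩ := h
  unfold Pc.σ
  rw [hs, ht, hτ]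

/-- direction of the slanted side -/
def g3z (p : Pc) : ℂ := ((p.ρ1 - p.ρ0 : ℝ) : ℂ) + ((p.y1 - p.y0 : ℝ) : ℂ) * I
def g3w (p : Pc) : ℂ := (p.ρ0 : ℂ) + (p.y0 : ℂ) * I

lemma g3z_ne {p : Pc} (hp : p.Ok) : g3z p ≠ 0 := by
  intro h
  have := congrArg Complex.im h
  simp [g3z] at this
  linarith [hp.2.1]

lemma g3G_eq (p : Pc) (x : ℂ) : g3G p x = ((starRingEnd ℂ) (g3z p) * (p.σ x - g3w p)).im := by
  unfold g3G g3z g3w
  simp
  ring

lemma g3_MB {p q : Pc} (hp : p.Ok) (hq : q.Ok) (h : p.MB q) (x : ℂ) :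
    q.σ x - g3w p = g3z p / (starRingEnd ℂ) (g3z p) * (starRingEnd ℂ) (p.σ x - g3w p) := by
  obtain ⟨hs, h0, h1, hρ0, hρ1, he0, he1⟩ := h
  have hz := g3z_ne hp
  have hzc : (starRingEnd ℂ) (g3z p) ≠ 0 := by
    rwa [Ne, map_eq_zero]
  have hn := g3_norm hp.1
  have hnq := g3_norm hq.1
  have f0 := he0
  have f1 := he1
  unfold Pc.e0 Pc.pt at f0
  unfold Pc.e1 Pc.pt at f1
  rw [← h0, ← hρ0] at f0
  rw [← h1, ← hρ1] at f1
  cases hps : p.s <;> cases hqs : q.s
  · exact absurd (hps.trans hqs.symm) hs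
  · simp only [hps, hqs, if_true, if_false, Bool.false_eq_true] at f0 f1
    have hτ : (starRingEnd ℂ) (g3z p) * p.τ = - (g3z p * q.τ) := by
      unfold g3z
      simp only [map_add, map_mul, Complex.conj_ofReal, Complex.conj_I]
      push_cast
      linear_combination f0 - f1
    have hτc : g3z p * (starRingEnd ℂ) p.τ = - ((starRingEnd ℂ) (g3z p) * (starRingEnd ℂ) q.τ) := by
      have := congrArg (starRingEnd ℂ) hτ
      simpa using this
    have eq1 : q.σ x - g3w p = (x - q.e0) * (starRingEnd ℂ) q.τ := by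
      unfold Pc.σ g3w Pc.e0 Pc.pt
      rw [← h0, ← hρ0]
      simp only [hqs, if_true]
      linear_combination ((p.ρ0 : ℂ) + p.y0 * I) * hnq
    have eq2 : (starRingEnd ℂ) (p.σ x - g3w p) = -((x - p.e0) * (starRingEnd ℂ) p.τ) := by
      unfold Pc.σ g3w Pc.e0 Pc.pt
      simp only [hps, if_false, Bool.false_eq_true, map_sub, map_neg, Complex.conj_conj, map_add,
        map_mul, Complex.conj_ofReal, Complex.conj_I]
      linear_combination -(-(p.ρ0 : ℂ) + p.y0 * I) * hn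
    rw [eq1, eq2, he0]
    field_simp
    linear_combination (x - q.e0) * hτc
  · simp only [hps, hqs, if_true, if_false, Bool.false_eq_true] at f0 f1
    have hτ : g3z p * p.τ = - ((starRingEnd ℂ) (g3z p) * q.τ) := by
      unfold g3z
      simp only [map_add, map_mul, Complex.conj_ofReal, Complex.conj_I]
      push_cast
      linear_combination f1 - f0
    have hτc : (starRingEnd ℂ) (g3z p) * (starRingEnd ℂ) p.τ = - (g3z p * (starRingEnd ℂ) q.τ) := by
      have := congrArg (starRingEnd ℂ) hτ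
      simpa using this
    have eq1 : (starRingEnd ℂ) (q.σ x - g3w p) = -((x - q.e0) * (starRingEnd ℂ) q.τ) := by
      unfold Pc.σ g3w Pc.e0 Pc.pt
      rw [← h0, ← hρ0]
      simp only [hqs, if_false, Bool.false_eq_true, map_sub, map_neg, Complex.conj_conj, map_add,
        map_mul, Complex.conj_ofReal, Complex.conj_I]
      linear_combination -(-(p.ρ0 : ℂ) + p.y0 * I) * hnq
    have eq2 : p.σ x - g3w p = (x - p.e0) * (starRingEnd ℂ) p.τ := by
      unfold Pc.σ g3w Pc.e0 Pc.pt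
      simp only [hps, if_true]
      linear_combination ((p.ρ0 : ℂ) + p.y0 * I) * hn
    have eq3 : (starRingEnd ℂ) (q.σ x - g3w p) =
        (starRingEnd ℂ) (g3z p) / g3z p * (p.σ x - g3w p) := by
      rw [eq1, eq2, he0]
      field_simp
      linear_combination -(x - q.e0) * hτc
    have := congrArg (starRingEnd ℂ) eq3
    simpa using this
  · exact absurd (hps.trans hqs.symm) hs

lemma g3_ev_re {p : Pc} {x : ℂ} {a : ℝ} (h : a < (p.σ x).re) : ∀ᶠ y in 𝓝 x, a < (p.σ y).re :=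
  (g3_cre p).continuousAt.eventually (lt_mem_nhds h)
lemma g3_ev_re' {p : Pc} {x : ℂ} {a : ℝ} (h : (p.σ x).re < a) : ∀ᶠ y in 𝓝 x, (p.σ y).re < a :=
  (g3_cre p).continuousAt.eventually (gt_mem_nhds h)
lemma g3_ev_im {p : Pc} {x : ℂ} {a : ℝ} (h : a < (p.σ x).im) : ∀ᶠ y in 𝓝 x, a < (p.σ y).im :=
  (g3_cim p).continuousAt.eventually (lt_mem_nhds h)
lemma g3_ev_im' {p : Pc} {x : ℂ} {a : ℝ} (h : (p.σ x).im < a) : ∀ᶠ y in 𝓝 x, (p.σ y).im < a :=
  (g3_cim p).continuousAt.eventually (gt_mem_nhds h)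
lemma g3_ev_G {p : Pc} {x : ℂ} (h : 0 < g3G p x) : ∀ᶠ y in 𝓝 x, 0 < g3G p y :=
  (g3_cG p).continuousAt.eventually (lt_mem_nhds h)

lemma g3_Gpos {p : Pc} (hp : p.Ok) {x : ℂ} (h0 : (p.σ x).re ≤ 0) (h1 : p.y0 ≤ (p.σ x).im)
    (h2 : (p.σ x).im < p.y1) : 0 < g3G p x := by
  unfold g3G
  have a1 : 0 < p.ρ0 * (p.y1 - (p.σ x).im) := mul_pos hp.2.2.1 (by linarith)
  have a2 : 0 ≤ p.ρ1 * ((p.σ x).im - p.y0) := mul_nonneg hp.2.2.2 (by linarith)
  have a3 : (p.σ x).re * (p.y1 - p.y0) ≤ 0 :=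
    mul_nonpos_of_nonpos_of_nonneg h0 (by linarith [hp.2.1])
  linarith

lemma g3_Gbot {p : Pc} (hp : p.Ok) {x : ℂ} (h1 : (p.σ x).im = p.y0) (h2 : (p.σ x).re < p.ρ0) :
    0 < g3G p x := by
  unfold g3G
  rw [h1]
  have := mul_pos (sub_pos.mpr h2) (sub_pos.mpr hp.2.1)
  nlinarith

lemma g3_Gtop {p : Pc} (hp : p.Ok) {x : ℂ} (h1 : (p.σ x).im = p.y1) (h2 : (p.σ x).re < p.ρ1) :
    0 < g3G p x := by
  unfold g3G
  rw [h1]
  have := mul_pos (sub_pos.mpr h2) (sub_pos.mpr hp.2.1)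
  nlinarith

lemma g3_uMS {p q : Pc} (hp : p.Ok) (hq : q.Ok) (h : p.MS q) {x : ℂ} (hA : (p.σ x).re = 0)
    (hB0 : p.y0 < (p.σ x).im) (hB1 : (p.σ x).im < p.y1) : p.face ∪ q.face ∈ 𝓝 x := by
  have hq0 := h.2.1
  have hq1 := h.2.2.1
  have hx := g3_MS hp hq h x
  have G1 : 0 < g3G p x := g3_Gpos hp hA.le hB0.le hB1
  have G2 : 0 < g3G q x := g3_Gpos hq (by rw [hx.1, hA]; simp) (by rw [hx.2, ← hq0]; exact hB0.le)
    (by rw [hx.2, ← hq1]; exact hB1)
  filter_upwards [g3_ev_im hB0, g3_ev_im' hB1, g3_ev_G G1, g3_ev_G G2] with y h1 h2 h3 h4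
  have hy := g3_MS hp hq h y
  rcases le_or_gt 0 (p.σ y).re with h5 | h5
  · exact Or.inl (g3_mem' h1.le h2.le h5 h3.le)
  · refine Or.inr (g3_mem' ?_ ?_ ?_ h4.le)
    · rw [hy.2, ← hq0]; exact h1.le
    · rw [hy.2, ← hq1]; exact h2.le
    · rw [hy.1]; linarith

lemma g3_uML {p q : Pc} (hp : p.Ok) (hq : q.Ok) (h : p.ML q) {x : ℂ} (hB : (p.σ x).im = p.y0)
    (hA0 : 0 < (p.σ x).re) (hA1 : (p.σ x).re < p.ρ0) : p.face ∪ q.face ∈ 𝓝 x := by
  have hq0 := h.2.1
  have hq1 := h.2.2.1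
  have hx := g3_ML hp hq h x
  have hBq : (q.σ x).im = q.y0 := by rw [hx.2, hB, ← hq0]; ring
  have G1 : 0 < g3G p x := g3_Gbot hp hB hA1
  have G2 : 0 < g3G q x := g3_Gbot hq hBq (by rw [hx.1, ← hq1]; exact hA1)
  have h1 : (p.σ x).im < p.y1 := by rw [hB]; exact hp.2.1
  have h2 : (q.σ x).im < q.y1 := by rw [hBq]; exact hq.2.1
  filter_upwards [g3_ev_im' h1, g3_ev_im' h2, g3_ev_G G1, g3_ev_G G2, g3_ev_re hA0] with
    y h1 h2 h3 h4 h5
  have hy := g3_ML hp hq h y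
  rcases le_or_gt p.y0 (p.σ y).im with h6 | h6
  · exact Or.inl (g3_mem' h6 h1.le h5.le h3.le)
  · refine Or.inr (g3_mem' ?_ h2.le ?_ h4.le)
    · rw [hy.2, ← hq0]; linarith
    · rw [hy.1]; exact h5.le

lemma g3_uMF {p q : Pc} (hp : p.Ok) (hq : q.Ok) (h : p.MF q) {x : ℂ} (hB : (p.σ x).im = p.y1)
    (hA0 : 0 < (p.σ x).re) (hA1 : (p.σ x).re < p.ρ1) : p.face ∪ q.face ∈ 𝓝 x := by
  have hy1 := h.2.2.2.1
  have hr := h.2.2.2.2
  have hx := g3_MF h x
  have hBq : (q.σ x).im = q.y0 := by rw [hx, hB, hy1]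
  have G1 : 0 < g3G p x := g3_Gtop hp hB hA1
  have G2 : 0 < g3G q x := g3_Gbot hq hBq (by rw [hx, ← hr]; exact hA1)
  have h1 : p.y0 < (p.σ x).im := by rw [hB]; exact hp.2.1
  have h2 : (q.σ x).im < q.y1 := by rw [hBq]; exact hq.2.1
  filter_upwards [g3_ev_im h1, g3_ev_im' h2, g3_ev_G G1, g3_ev_G G2, g3_ev_re hA0] with
    y h1 h2 h3 h4 h5
  have hy := g3_MF h y
  rcases le_or_gt (p.σ y).im p.y1 with h6 | h6
  · exact Or.inl (g3_mem' h1.le h6 h5.le h3.le)
  · refine Or.inr (g3_mem' ?_ h2.le ?_ h4.le)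
    · rw [hy, ← hy1]; exact h6.le
    · rw [hy]; exact h5.le

lemma g3_MB_G {p q : Pc} (hp : p.Ok) (hq : q.Ok) (h : p.MB q) (x : ℂ) :
    g3G q x = - g3G p x := by
  have hz := g3z_ne hp
  have hzc : (starRingEnd ℂ) (g3z p) ≠ 0 := by
    rwa [Ne, map_eq_zero]
  have e1 : g3z q = g3z p := by
    unfold g3z; rw [h.2.1, h.2.2.1, h.2.2.2.1, h.2.2.2.2.1]
  have e2 : g3w q = g3w p := by
    unfold g3w; rw [h.2.1, h.2.2.2.1]
  rw [g3G_eq, g3G_eq, e1, e2, g3_MB hp hq h x]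
  have : (starRingEnd ℂ) (g3z p) * (g3z p / (starRingEnd ℂ) (g3z p) *
      (starRingEnd ℂ) (p.σ x - g3w p)) =
      (starRingEnd ℂ) ((starRingEnd ℂ) (g3z p) * (p.σ x - g3w p)) := by
    rw [map_mul, Complex.conj_conj]
    field_simp
  rw [this, Complex.conj_im]

lemma g3_MB_eq {p q : Pc} (hp : p.Ok) (hq : q.Ok) (h : p.MB q) {x : ℂ} (hG : g3G p x = 0) :
    q.σ x = p.σ x := by
  have hz := g3z_ne hp
  have hzc : (starRingEnd ℂ) (g3z p) ≠ 0 := by
    rwa [Ne, map_eq_zero]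
  have h1 := g3_MB hp hq h x
  rw [g3G_eq] at hG
  have h2 : (starRingEnd ℂ) ((starRingEnd ℂ) (g3z p) * (p.σ x - g3w p)) =
      (starRingEnd ℂ) (g3z p) * (p.σ x - g3w p) := Complex.conj_eq_iff_im.mpr hG
  rw [map_mul, Complex.conj_conj] at h2
  have h3 : q.σ x - g3w p = p.σ x - g3w p := by
    rw [h1]
    field_simp
    linear_combination h2
  linear_combination h3

lemma g3_uMB {p q : Pc} (hp : p.Ok) (hq : q.Ok) (h : p.MB q) {x : ℂ} (hG : g3G p x = 0)
    (hB0 : p.y0 < (p.σ x).im) (hB1 : (p.σ x).im < p.y1) (hA : 0 < (p.σ x).re) :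
    p.face ∪ q.face ∈ 𝓝 x := by
  have hx := g3_MB_eq hp hq h hG
  have hq0 := h.2.1
  have hq1 := h.2.2.1
  have c1 : q.y0 < (q.σ x).im := by rw [hx, ← hq0]; exact hB0
  have c2 : (q.σ x).im < q.y1 := by rw [hx, ← hq1]; exact hB1
  have c3 : 0 < (q.σ x).re := by rw [hx]; exact hA
  filter_upwards [g3_ev_im hB0, g3_ev_im' hB1, g3_ev_re hA, g3_ev_im c1, g3_ev_im' c2,
    g3_ev_re c3] with y h1 h2 h3 h4 h5 h6
  have hy := g3_MB_G hp hq h y
  rcases le_or_gt 0 (g3G p y) with h7 | h7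
  · exact Or.inl (g3_mem' h1.le h2.le h3.le h7)
  · exact Or.inr (g3_mem' h4.le h5.le h6.le (by rw [hy]; linarith))

lemma g3_cases (PF : PcFacts) {p : Pc} (hp : p.Ok) {x : ℂ} (hx : x ∈ p.face) (h0 : x ≠ p.s0)
    (h1 : x ≠ p.s1) (h2 : x ≠ p.e0) (h3 : x ≠ p.e1) :
    p.face ∈ 𝓝 x ∨ ((p.σ x).re = 0 ∧ p.y0 < (p.σ x).im ∧ (p.σ x).im < p.y1) ∨
    (g3G p x = 0 ∧ p.y0 < (p.σ x).im ∧ (p.σ x).im < p.y1 ∧ 0 < (p.σ x).re) ∨
    ((p.σ x).im = p.y0 ∧ 0 < (p.σ x).re ∧ (p.σ x).re < p.ρ0) ∨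
    ((p.σ x).im = p.y1 ∧ 0 < (p.σ x).re ∧ (p.σ x).re < p.ρ1) := by
  obtain ⟨b0, b1, a0, g0⟩ := g3_of_mem hx
  have hy := hp.2.1
  rcases b0.lt_or_eq with b0' | b0'
  · rcases b1.lt_or_eq with b1' | b1'
    · rcases a0.lt_or_eq with a0' | a0'
      · rcases g0.lt_or_eq with g0' | g0'
        · left
          filter_upwards [g3_ev_im b0', g3_ev_im' b1', g3_ev_re a0', g3_ev_G g0'] with y e1 e2 e3 e4
          exact g3_mem' e1.le e2.le e3.le e4.le
        · right; right; left; exact ⟨g0'.symm, b0', b1', a0'⟩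
      · right; left; exact ⟨a0'.symm, b0', b1'⟩
    · right; right; right; right
      have ha : (p.σ x).re ≠ 0 := fun h => h1 (g3_eq PF hp h b1')
      have hb : (p.σ x).re ≠ p.ρ1 := fun h => h3 (g3_eq PF hp h b1')
      refine ⟨b1', lt_of_le_of_ne a0 ha.symm, lt_of_le_of_ne ?_ hb⟩
      unfold g3G at g0
      rw [b1'] at g0
      have h5 : 0 ≤ (p.ρ1 - (p.σ x).re) * (p.y1 - p.y0) := by linarith
      have := nonneg_of_mul_nonneg_left h5 (sub_pos.mpr hy)
      linarith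
  · right; right; right; left
    have ha : (p.σ x).re ≠ 0 := fun h => h0 (g3_eq PF hp h b0'.symm)
    have hb : (p.σ x).re ≠ p.ρ0 := fun h => h2 (g3_eq PF hp h b0'.symm)
    refine ⟨b0'.symm, lt_of_le_of_ne a0 ha.symm, lt_of_le_of_ne ?_ hb⟩
    unfold g3G at g0
    rw [← b0'] at g0
    have h5 : 0 ≤ (p.ρ0 - (p.σ x).re) * (p.y1 - p.y0) := by linarith
    have := nonneg_of_mul_nonneg_left h5 (sub_pos.mpr hy)
    linarith

lemma g3_cyc_fst {α : Type*} {T : List α} {e : α} (h : e ∈ T) : ∃ e', (e, e') ∈ cyc T := by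
  have h1 : (cyc T).map Prod.fst = T := List.map_fst_zip (by simp)
  rw [← h1] at h
  obtain ⟨⟨a, b⟩, hab, rfl⟩ := List.mem_map.mp h
  exact ⟨b, hab⟩

lemma g3_cyc_snd {α : Type*} {T : List α} {e : α} (h : e ∈ T) : ∃ e', (e', e) ∈ cyc T := by
  have h1 : (cyc T).map Prod.snd = T.rotate 1 := List.map_snd_zip (by simp)
  have h2 : e ∈ T.rotate 1 := List.mem_rotate.mpr h
  rw [← h1] at h2
  obtain ⟨⟨a, b⟩, hab, rfl⟩ := List.mem_map.mp h2
  exact ⟨a, hab⟩

lemma g3_cyc_mem {α : Type*} {T : List α} {e e' : α} (h : (e, e') ∈ cyc T) : e ∈ T ∧ e' ∈ T := by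
  have := List.of_mem_zip h
  exact ⟨this.1, List.mem_rotate.mp this.2⟩

lemma g3_cyc_map {α β : Type*} (f : α → β) (T : List α) :
    cyc (T.map f) = (cyc T).map (Prod.map f f) := by
  unfold cyc
  rw [← List.map_rotate, List.zip_map]

/-- coordinates along a boundary edge -/
lemma g3_edge {a b : ℂ × ℝ} {p q : Pc} (hp : p.Ok) (h : EdgeGeo 0 a b p q) (y : ℂ) :
    (q.σ y).re = -(p.σ y).re ∧ (q.σ y).im = (p.σ y).im := by
  obtain ⟨τ, hτ, hab, hps, hqs, hpτ, hqτ, hpt, hqt, _⟩ := h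
  have key : q.σ y = -(starRingEnd ℂ) (p.σ y) := by
    unfold Pc.σ
    simp only [hps, hqs, if_true, if_false, Bool.false_eq_true, hpτ, hqτ, hpt, hqt]
    simp
  rw [key]; simp

lemma g3_edge_seg {a b : ℂ × ℝ} {p q : Pc} (hp : p.Ok) (hq : q.Ok) (h : EdgeGeo 0 a b p q)
    (y : ℂ) : y ∈ segment ℝ a.1 b.1 ↔
      (p.σ y).im = 0 ∧ (p.σ y).re ≤ p.ρ0 ∧ (q.σ y).re ≤ q.ρ0 := by
  obtain ⟨τ, hτ, hab, hps, hqs, hpτ, hqτ, hpt, hqt, hy0, hqy0, hpρ, hqρ, hy1⟩ := h
  have hn := g3_norm hτ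
  have ha : 0 < a.2 := by rw [← hpρ]; exact hp.2.2.1
  have hb : 0 < b.2 := by rw [← hqρ]; exact hq.2.2.1
  have e1 : q.σ y = (y - (a.1 + a.2 * τ)) * (starRingEnd ℂ) τ := by
    unfold Pc.σ
    simp only [hqs, if_true, hqτ, hqt]
    push_cast
    ring
  have e2 : p.σ y = -(starRingEnd ℂ) (q.σ y) := by
    rw [e1]
    unfold Pc.σ
    simp only [hps, if_false, Bool.false_eq_true, hpτ, hpt]
    push_cast
    congr 2
    ring
  have e3 : (p.σ y).im = (q.σ y).im := by rw [e2]; simp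
  have e4 : (p.σ y).re = -(q.σ y).re := by rw [e2]; simp
  rw [hpρ, hqρ, e3, e4]
  constructor
  · rintro ⟨s, t, hs, ht, hst, rfl⟩
    have : q.σ (s • a.1 + t • b.1) = ((t * (a.2 + b.2) - a.2 : ℝ) : ℂ) := by
      rw [e1]
      have hb1 : b.1 = a.1 + ((a.2 + b.2 : ℝ) : ℂ) * τ := by linear_combination hab
      have hs' : (s : ℂ) = 1 - t := by
        have : s = 1 - t := by linarith
        rw [this]; push_cast; ring
      rw [hb1]
      simp only [Complex.real_smul]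
      rw [hs']
      push_cast
      linear_combination ((t : ℂ) * (a.2 + b.2) - a.2) * hn
    rw [this]
    simp only [Complex.ofReal_im, Complex.ofReal_re, true_and]
    constructor
    · have : 0 ≤ t * (a.2 + b.2) := by positivity
      linarith
    · have : t * (a.2 + b.2) ≤ 1 * (a.2 + b.2) :=
        mul_le_mul_of_nonneg_right (by linarith) (by linarith)
      linarith
  · rintro ⟨h1, h2, h3⟩
    set r := (q.σ y).re with hr
    have e5 : q.σ y = (r : ℂ) := by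
      apply Complex.ext
      · simp [hr]
      · simp [h1]
    have e6 : y = a.1 + a.2 * τ + r * τ := by
      rw [e1] at e5
      have := congrArg (fun w => w * τ) e5
      linear_combination this - (y - (a.1 + a.2 * τ)) * hn
    refine ⟨1 - (r + a.2) / (a.2 + b.2), (r + a.2) / (a.2 + b.2), ?_, ?_, by ring, ?_⟩
    · rw [sub_nonneg, div_le_one (by linarith)]; linarith
    · exact div_nonneg (by linarith) (by linarith)
    · have hb1 : b.1 = a.1 + ((a.2 + b.2 : ℝ) : ℂ) * τ := by linear_combination hab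
      have hne : ((a.2 : ℂ) + b.2) ≠ 0 := by
        rw [← Complex.ofReal_add]; exact_mod_cast (by linarith : a.2 + b.2 ≠ 0)
      simp only [Complex.real_smul]
      rw [e6, hb1]
      push_cast
      field_simp
      ring

lemma g3_frontier (F : FSt D P) {e e' : (ℂ × ℝ) × F.S.ι × F.S.ι} (he : (e, e') ∈ cyc F.S.T)
    {x : ℂ} (hx : x ∈ segment ℝ e.1.1 e'.1.1) : x ∈ frontier P := by
  rw [F.hfr]
  have hD : D.map Prod.fst = F.S.T.map (fun e => e.1.1) := by
    have h1 := congrArg (List.map Prod.fst) F.S.hT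
    rw [← h1, List.map_map]; rfl
  refine ⟨(e.1.1, e'.1.1), ?_, hx⟩
  rw [hD, g3_cyc_map]
  exact List.mem_map.mpr ⟨(e, e'), he, rfl⟩

lemma g3_flag (F : FSt D P) {k : F.S.ι} (hk : ∃ e ∈ F.S.T, k = e.2.1 ∨ k = e.2.2) {x : ℂ}
    (h0 : ((F.S.pc k).σ x).im = (F.S.pc k).y0) (h1 : 0 ≤ ((F.S.pc k).σ x).re)
    (h2 : ((F.S.pc k).σ x).re ≤ (F.S.pc k).ρ0) : x ∈ frontier P := by
  obtain ⟨e, he, hk | hk⟩ := hk
  · obtain ⟨e', he'⟩ := g3_cyc_snd he
    have hg := (F.S.geo _ he').1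
    subst hk
    have hp := (F.S.ok e'.2.2).1
    have hq := (F.S.ok e.2.1).1
    have hE := g3_edge hp hg x
    refine g3_frontier F he' ((g3_edge_seg hp hq hg x).mpr ⟨?_, ?_, h2⟩)
    · obtain ⟨τ, _, _, _, _, _, _, _, _, _, hy, _⟩ := hg
      simp only at hE
      rw [← hE.2, h0]; exact hy
    · simp only at hE
      have : ((F.S.pc e'.2.2).σ x).re = -((F.S.pc e.2.1).σ x).re := by linarith [hE.1]
      rw [this]
      linarith [hp.2.2.1]
  · obtain ⟨e', he'⟩ := g3_cyc_fst he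
    have hg := (F.S.geo _ he').1
    subst hk
    have hp := (F.S.ok e.2.2).1
    have hq := (F.S.ok e'.2.1).1
    have hE := g3_edge hp hg x
    refine g3_frontier F he' ((g3_edge_seg hp hq hg x).mpr ⟨?_, h2, ?_⟩)
    · obtain ⟨τ, _, _, _, _, _, _, _, _, hy, _⟩ := hg
      rw [h0]; exact hy
    · simp only at hE
      rw [hE.1]
      linarith [hq.2.2.1]

lemma g3_local (PF : PcFacts) (F : FSt D P) {i : F.S.ι} {x : ℂ} (hx : x ∈ (F.S.pc i).face)
    (h0 : x ≠ (F.S.pc i).s0)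
    (h1 : x ≠ (F.S.pc i).s1) (h2 : x ≠ (F.S.pc i).e0) (h3 : x ≠ (F.S.pc i).e1)
    (hP : x ∈ interior P) :
    ∃ l, (F.S.pc i).face ∪ (F.S.pc l).face ∈ 𝓝 x := by
  have hok := fun k => (F.S.ok k).1
  rcases g3_cases PF (hok i) hx h0 h1 h2 h3 with h | h | h | h | h
  · exact ⟨i, by rw [Set.union_self]; exact h⟩
  · obtain ⟨l, hl⟩ := F.S.exS i
    exact ⟨l, g3_uMS (hok i) (hok l) (F.S.geoS _ _ hl) h.1 h.2.1 h.2.2⟩
  · obtain ⟨l, hl⟩ := F.S.exB i
    exact ⟨l, g3_uMB (hok i) (hok l) (F.S.geoB _ _ hl) h.1 h.2.1 h.2.2.1 h.2.2.2⟩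
  · rcases F.S.exBase i with hf | ⟨l, hl⟩ | ⟨l, hl⟩
    · have := g3_flag F hf h.1 h.2.1.le h.2.2.le
      exact absurd hP (Set.disjoint_right.mp (disjoint_interior_frontier) this)
    · exact ⟨l, g3_uML (hok i) (hok l) (F.S.geoL _ _ hl) h.1 h.2.1 h.2.2⟩
    · have hg := F.S.geoF _ _ hl
      have hs := g3_MF hg x
      refine ⟨l, ?_⟩
      rw [Set.union_comm]
      refine g3_uMF (hok l) (hok i) hg ?_ ?_ ?_
      · rw [← hs, h.1, hg.2.2.2.1]
      · rw [← hs]; exact h.2.1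
      · rw [← hs, hg.2.2.2.2]; exact h.2.2
  · rcases F.S.exTop i with hf | ⟨l, hl⟩
    · rw [hf] at h
      exact absurd (h.2.1.trans h.2.2) (lt_irrefl _)
    · exact ⟨l, g3_uMF (hok i) (hok l) (F.S.geoF _ _ hl) h.1 h.2.1 h.2.2⟩

lemma g3_meet (PF : PcFacts) (F : FSt D P) {k l j : F.S.ι} {x : ℂ} {U : Set ℂ} (hU : U ∈ 𝓝 x)
    (hUk : ∀ y ∈ U, y ∈ interior (F.S.pc j).face → y ∈ (F.S.pc k).face ∪ (F.S.pc l).face)
    (hj : x ∈ (F.S.pc j).face) :
    j = k ∨ j = l := by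
  have hok := fun k => (F.S.ok k).1
  rw [← PF.face_closure (hok j)] at hj
  obtain ⟨y, hyU, hyj⟩ := mem_closure_iff_nhds.mp hj U hU
  have main : ∀ m, y ∈ (F.S.pc m).face → j = m := by
    intro m hm
    by_contra hne
    rw [← PF.face_closure (hok m)] at hm
    obtain ⟨z, hz1, hz2⟩ := mem_closure_iff_nhds.mp hm _ (isOpen_interior.mem_nhds hyj)
    exact Set.disjoint_left.mp (F.disj j m hne) hz1 hz2
  rcases hUk y hyU hyj with h | h
  · exact Or.inl (main k h)
  · exact Or.inr (main l h)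

lemma g3_int1 (PF : PcFacts) (F : FSt D P)
    (agree' : ∀ (i j : F.S.ι) (x : ℂ), Meets (fun k => (F.S.pc k).face) i j x →
      (F.S.pc i).σ x = (F.S.pc j).σ x)
    {i j : F.S.ι} {x : ℂ} (hi : x ∈ (F.S.pc i).face) (hj : x ∈ (F.S.pc j).face)
    (h0 : x ≠ (F.S.pc i).s0)
    (h1 : x ≠ (F.S.pc i).s1) (h2 : x ≠ (F.S.pc i).e0) (h3 : x ≠ (F.S.pc i).e1)
    (hP : x ∈ interior P) : (F.S.pc i).σ x = (F.S.pc j).σ x := by
  by_cases hij : i = j
  · rw [hij]
  · obtain ⟨l, hl⟩ := g3_local PF F hi h0 h1 h2 h3 hP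
    rcases g3_meet PF F hl (fun y hy _ => hy) hj with h | h
    · exact absurd h.symm hij
    · subst h
      exact agree' i j x ⟨hij, hi, hj, hl⟩

lemma g3_closed (PF : PcFacts) {p : Pc} (hp : p.Ok) : IsClosed p.face := by
  rw [← PF.face_closure hp]; exact isClosed_closure

lemma g3_convex (PF : PcFacts) {p : Pc} (hp : p.Ok) : Convex ℝ p.face := by
  rw [PF.face_hull hp]; exact convex_convexHull _ _

lemma g3_other (PF : PcFacts) {p : Pc} (hp : p.Ok) (x : ℂ) : ∃ u ∈ p.face, u ≠ x := by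
  have h0 : p.s0 ∈ p.face := by
    rw [PF.face_hull hp]; exact subset_convexHull _ _ (by simp)
  have h1 : p.s1 ∈ p.face := by
    rw [PF.face_hull hp]; exact subset_convexHull _ _ (by simp)
  have hne : p.s0 ≠ p.s1 := by
    intro h
    have := congrArg p.σ h
    unfold Pc.s0 Pc.s1 at this
    rw [PF.σ_pt hp, PF.σ_pt hp] at this
    have := congrArg Complex.im this
    simp at this
    linarith [hp.2.1]
  by_cases h : p.s0 = x
  · exact ⟨p.s1, h1, fun h' => hne (h.trans h'.symm)⟩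
  · exact ⟨p.s0, h0, h⟩

lemma g3_sphere_pt (PF : PcFacts) {p : Pc} (hp : p.Ok) {x u : ℂ} (hx : x ∈ p.face)
    (hu : u ∈ p.face) (hux : u ≠ x) {s : ℝ} (hs : 0 < s) (hsu : s ≤ ‖u - x‖) :
    ∃ y ∈ Metric.sphere x s, y ∈ p.face := by
  have hn : 0 < ‖u - x‖ := norm_pos_iff.mpr (sub_ne_zero.mpr hux)
  refine ⟨x + (s / ‖u - x‖) • (u - x), ?_, ?_⟩
  · rw [mem_sphere_iff_norm, add_sub_cancel_left, norm_smul, Real.norm_of_nonneg (by positivity)]
    field_simp
  · exact (g3_convex PF hp).add_smul_sub_mem hx hu ⟨by positivity, by rw [div_le_one hn]; exact hsu⟩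

lemma g3_int2 (PF : PcFacts) (F : FSt D P)
    (agree' : ∀ (i j : F.S.ι) (x : ℂ), Meets (fun k => (F.S.pc k).face) i j x →
      (F.S.pc i).σ x = (F.S.pc j).σ x)
    {i j : F.S.ι} {x : ℂ} (hi : x ∈ (F.S.pc i).face) (hj : x ∈ (F.S.pc j).face)
    (hP : x ∈ interior P) : (F.S.pc i).σ x = (F.S.pc j).σ x := by
  classical
  have := F.S.fin
  have hok := fun k => (F.S.ok k).1
  by_contra hne
  -- a small ball
  have ev1 : ∀ᶠ y in 𝓝 x, y ∈ interior P := isOpen_interior.mem_nhds hP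
  have ev2 : ∀ᶠ y in 𝓝 x, ∀ k : F.S.ι, y ∈ (F.S.pc k).face → x ∈ (F.S.pc k).face := by
    rw [eventually_all]
    intro k
    by_cases h : x ∈ (F.S.pc k).face
    · exact Eventually.of_forall fun y _ => h
    · filter_upwards [(g3_closed PF (hok k)).isOpen_compl.mem_nhds h] with y hy hy'
      exact absurd hy' hy
  have hpt : ∀ a : ℂ, ∀ᶠ y in 𝓝 x, y = a → y = x := by
    intro a
    by_cases h : a = x
    · exact Eventually.of_forall fun y hy => hy.trans h
    · filter_upwards [isOpen_compl_singleton.mem_nhds (show x ∈ ({a} : Set ℂ)ᶜ from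
        fun h' => h h'.symm)] with y hy hy'
      exact absurd hy' hy
  have ev3 : ∀ᶠ y in 𝓝 x, ∀ k : F.S.ι, (y = (F.S.pc k).s0 ∨ y = (F.S.pc k).s1 ∨
      y = (F.S.pc k).e0 ∨ y = (F.S.pc k).e1) → y = x := by
    rw [eventually_all]
    intro k
    filter_upwards [hpt (F.S.pc k).s0, hpt (F.S.pc k).s1, hpt (F.S.pc k).e0,
      hpt (F.S.pc k).e1] with y h0 h1 h2 h3 h
    rcases h with h | h | h | h
    · exact h0 h
    · exact h1 h
    · exact h2 h
    · exact h3 h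
  obtain ⟨r, hr, hball⟩ := Metric.eventually_nhds_iff_ball.mp (ev1.and (ev2.and ev3))
  obtain ⟨u, hu, hux⟩ := g3_other PF (hok i) x
  obtain ⟨v, hv, hvx⟩ := g3_other PF (hok j) x
  have hnu : 0 < ‖u - x‖ := norm_pos_iff.mpr (sub_ne_zero.mpr hux)
  have hnv : 0 < ‖v - x‖ := norm_pos_iff.mpr (sub_ne_zero.mpr hvx)
  set s : ℝ := min (r / 2) (min ‖u - x‖ ‖v - x‖) with hs
  have hs0 : 0 < s := lt_min (by linarith) (lt_min hnu hnv)
  have hsr : s < r := lt_of_le_of_lt (min_le_left _ _) (by linarith)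
  have hsu : s ≤ ‖u - x‖ := (min_le_right _ _).trans (min_le_left _ _)
  have hsv : s ≤ ‖v - x‖ := (min_le_right _ _).trans (min_le_right _ _)
  have hrank : 1 < Module.rank ℝ ℂ := by
    apply Module.lt_rank_of_lt_finrank
    rw [Complex.finrank_real_complex]; norm_num
  have hpre : IsPreconnected (Metric.sphere x s) := isPreconnected_sphere hrank x s
  set t : Set ℂ := ⋃ k ∈ {k : F.S.ι | x ∈ (F.S.pc k).face ∧ (F.S.pc k).σ x = (F.S.pc i).σ x},
    (F.S.pc k).face with ht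
  set t' : Set ℂ := ⋃ k ∈ {k : F.S.ι | x ∈ (F.S.pc k).face ∧ (F.S.pc k).σ x ≠ (F.S.pc i).σ x},
    (F.S.pc k).face with ht'
  have hct : IsClosed t := (Set.toFinite _).isClosed_biUnion fun k _ => g3_closed PF (hok k)
  have hct' : IsClosed t' := (Set.toFinite _).isClosed_biUnion fun k _ => g3_closed PF (hok k)
  have hsb : ∀ y ∈ Metric.sphere x s, y ∈ Metric.ball x r := by
    intro y hy
    rw [Metric.mem_sphere] at hy
    rw [Metric.mem_ball, hy]; exact hsr
  have hcov : Metric.sphere x s ⊆ t ∪ t' := by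
    intro y hy
    obtain ⟨h1, h2, _⟩ := hball y (hsb y hy)
    have h3 := interior_subset h1
    rw [← F.cover] at h3
    obtain ⟨k, hk⟩ := Set.mem_iUnion.mp h3
    by_cases h : (F.S.pc k).σ x = (F.S.pc i).σ x
    · exact Or.inl (Set.mem_biUnion (show k ∈ {k : F.S.ι | x ∈ (F.S.pc k).face ∧
        (F.S.pc k).σ x = (F.S.pc i).σ x} from ⟨h2 k hk, h⟩) hk)
    · exact Or.inr (Set.mem_biUnion (show k ∈ {k : F.S.ι | x ∈ (F.S.pc k).face ∧
        (F.S.pc k).σ x ≠ (F.S.pc i).σ x} from ⟨h2 k hk, h⟩) hk)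
  obtain ⟨y1, hy1, hy1'⟩ := g3_sphere_pt PF (hok i) hi hu hux hs0 hsu
  obtain ⟨y2, hy2, hy2'⟩ := g3_sphere_pt PF (hok j) hj hv hvx hs0 hsv
  obtain ⟨y, hyS, hyt, hyt'⟩ := isPreconnected_closed_iff.mp hpre t t' hct hct' hcov
    ⟨y1, hy1, Set.mem_biUnion (show i ∈ {k : F.S.ι | x ∈ (F.S.pc k).face ∧
        (F.S.pc k).σ x = (F.S.pc i).σ x} from ⟨hi, rfl⟩) hy1'⟩
    ⟨y2, hy2, Set.mem_biUnion (show j ∈ {k : F.S.ι | x ∈ (F.S.pc k).face ∧
        (F.S.pc k).σ x ≠ (F.S.pc i).σ x} from ⟨hj, fun h => hne h.symm⟩) hy2'⟩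
  obtain ⟨k, hk, hyk⟩ := Set.mem_iUnion₂.mp hyt
  obtain ⟨l, hl, hyl⟩ := Set.mem_iUnion₂.mp hyt'
  have hyx : y ≠ x := by
    intro h
    rw [Metric.mem_sphere, h, dist_self] at hyS
    exact hs0.ne hyS
  have hseg : openSegment ℝ x y ⊆ {w | (F.S.pc k).σ w = (F.S.pc l).σ w} := by
    intro w hw
    have hwk := (g3_convex PF (hok k)).openSegment_subset hk.1 hyk hw
    have hwl := (g3_convex PF (hok l)).openSegment_subset hl.1 hyl hw
    have hwb : w ∈ Metric.ball x r := by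
      have : Convex ℝ (Metric.ball x r) := convex_ball x r
      exact this.openSegment_subset (Metric.mem_ball_self hr) (hsb y hyS) hw
    have hwx : w ≠ x := by
      rintro rfl
      rw [left_mem_openSegment_iff] at hw
      exact hyx hw.symm
    obtain ⟨h1, _, h3⟩ := hball w hwb
    exact g3_int1 PF F agree' hwk hwl (fun h => hwx (h3 k (Or.inl h)))
      (fun h => hwx (h3 k (Or.inr (Or.inl h)))) (fun h => hwx (h3 k (Or.inr (Or.inr (Or.inl h)))))
      (fun h => hwx (h3 k (Or.inr (Or.inr (Or.inr h))))) h1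
  have hclosed : IsClosed {w | (F.S.pc k).σ w = (F.S.pc l).σ w} :=
    isClosed_eq (g3_cont _) (g3_cont _)
  have hxs : x ∈ closure (openSegment ℝ x y) := by
    rw [closure_openSegment]; exact left_mem_segment ℝ x y
  have := closure_minimal hseg hclosed hxs
  exact hl.2 (this.symm.trans hk.2)

lemma g3_excl (PF : PcFacts) (F : FSt D P) {k l j : F.S.ι} {x : ℂ} {W U : Set ℂ}
    (hx : x ∈ frontier P) (hW : IsPreconnected W) (hWf : ∀ y ∈ W, y ∉ frontier P)
    (hU : U ∈ 𝓝 x) (hcov : ∀ y ∈ U, y ∈ (F.S.pc k).face ∪ (F.S.pc l).face ∨ y ∈ W)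
    (hj : x ∈ (F.S.pc j).face) : j = k ∨ j = l := by
  have hPc : IsClosed P := F.hcpt.isClosed
  have hsub : ∀ k, (F.S.pc k).face ⊆ P := by
    intro k
    exact (Set.subset_iUnion (fun k => (F.S.pc k).face) k).trans F.cover.subset
  have h1 : W ⊆ interior P ∪ Pᶜ := by
    intro y hy
    by_cases hyP : y ∈ P
    · left
      by_contra h
      apply hWf y hy
      rw [frontier, hPc.closure_eq]
      exact ⟨hyP, h⟩
    · exact Or.inr hyP
  have h2 : Disjoint (interior P) Pᶜ :=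
    Set.disjoint_left.mpr fun y hy hy' => hy' (interior_subset hy)
  rcases hW.subset_or_subset isOpen_interior hPc.isOpen_compl h2 h1 with h | h
  · exfalso
    have : x ∈ interior P := by
      rw [mem_interior_iff_mem_nhds]
      filter_upwards [hU] with y hy
      rcases hcov y hy with (h3 | h3) | h3
      · exact hsub k h3
      · exact hsub l h3
      · exact interior_subset (h h3)
    exact Set.disjoint_left.mp disjoint_interior_frontier this hx
  · refine g3_meet PF F hU (fun y hy hyj => ?_) hj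
    rcases hcov y hy with h3 | h3
    · exact h3
    · exact absurd (hsub j (interior_subset hyj)) (h h3)

lemma g3_near (V : List ℂ) (x : ℂ) : ∀ᶠ y in 𝓝 x, ∀ g ∈ cyc V, y ∈ segment ℝ g.1 g.2 →
    x ∈ segment ℝ g.1 g.2 := by
  have hfin : {g | g ∈ cyc V}.Finite := List.finite_toSet _
  have : ∀ᶠ y in 𝓝 x, ∀ g ∈ {g | g ∈ cyc V}, y ∈ segment ℝ g.1 g.2 →
      x ∈ segment ℝ g.1 g.2 := by
    rw [eventually_all_finite hfin]
    intro g _
    by_cases h : x ∈ segment ℝ g.1 g.2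
    · exact Eventually.of_forall fun y _ => h
    · have hc : IsClosed (segment ℝ g.1 g.2) := by
        rw [← closure_openSegment]; exact isClosed_closure
      filter_upwards [hc.isOpen_compl.mem_nhds h] with y hy hy'
      exact absurd hy' hy
  exact this

lemma g3_aff (p : Pc) {a b : ℂ} {s t : ℝ} (hst : s + t = 1) :
    p.σ (s • a + t • b) = s • p.σ a + t • p.σ b := by
  have h : (s : ℂ) = 1 - t := by
    have : s = 1 - t := by linarith
    rw [this]; push_cast; ring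
  unfold Pc.σ
  simp only [Complex.real_smul]
  split
  · rw [h]; ring
  · have e1 : ((s : ℂ) * a + t * b - p.t) * (starRingEnd ℂ) p.τ =
        s * ((a - p.t) * (starRingEnd ℂ) p.τ) + t * ((b - p.t) * (starRingEnd ℂ) p.τ) := by
      rw [h]; ring
    rw [e1]
    simp only [map_add, map_mul, Complex.conj_ofReal]
    ring

lemma g3_im_aff (p : Pc) {a b : ℂ} {s t : ℝ} (hst : s + t = 1) :
    (p.σ (s • a + t • b)).im = s * (p.σ a).im + t * (p.σ b).im := by
  rw [g3_aff p hst]; simp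

lemma g3_G_aff (p : Pc) {a b : ℂ} {s t : ℝ} (hst : s + t = 1) :
    g3G p (s • a + t • b) = s * g3G p a + t * g3G p b := by
  unfold g3G
  rw [g3_aff p hst]
  have h : s = 1 - t := by linarith
  simp
  rw [h]; ring

lemma g3_zip_left {α : Type*} {l l' : List α} (h : l.Nodup) {a b b' : α} (h1 : (a, b) ∈ l.zip l')
    (h2 : (a, b') ∈ l.zip l') : b = b' := by
  obtain ⟨i, hi, hi'⟩ := List.mem_iff_getElem.mp h1
  obtain ⟨j, hj, hj'⟩ := List.mem_iff_getElem.mp h2
  rw [List.getElem_zip] at hi' hj'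
  rw [List.length_zip] at hi hj
  have e1 := congrArg Prod.fst hi'
  have e2 := congrArg Prod.fst hj'
  have e3 := congrArg Prod.snd hi'
  have e4 := congrArg Prod.snd hj'
  simp only at e1 e2 e3 e4
  have hij : i = j := by
    have := (List.Nodup.getElem_inj_iff h (hi := lt_of_lt_of_le hi (min_le_left _ _))
      (hj := lt_of_lt_of_le hj (min_le_left _ _))).mp (e1.trans e2.symm)
    exact this
  subst hij
  exact e3.symm.trans e4

lemma g3_zip_right {α : Type*} {l l' : List α} (h : l'.Nodup) {a a' b : α}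
    (h1 : (a, b) ∈ l.zip l') (h2 : (a', b) ∈ l.zip l') : a = a' := by
  obtain ⟨i, hi, hi'⟩ := List.mem_iff_getElem.mp h1
  obtain ⟨j, hj, hj'⟩ := List.mem_iff_getElem.mp h2
  rw [List.getElem_zip] at hi' hj'
  rw [List.length_zip] at hi hj
  have e1 := congrArg Prod.fst hi'
  have e2 := congrArg Prod.fst hj'
  have e3 := congrArg Prod.snd hi'
  have e4 := congrArg Prod.snd hj'
  simp only at e1 e2 e3 e4
  have hij : i = j := by
    have := (List.Nodup.getElem_inj_iff h (hi := lt_of_lt_of_le hi (min_le_right _ _))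
      (hj := lt_of_lt_of_le hj (min_le_right _ _))).mp (e3.trans e4.symm)
    exact this
  subst hij
  exact e1.symm.trans e2

/-- values of the two foldings at the ends of a boundary edge -/
lemma g3_ends {a b : ℂ × ℝ} {p q : Pc} (h : EdgeGeo 0 a b p q) :
    p.σ a.1 = (p.ρ0 : ℂ) ∧ q.σ b.1 = (q.ρ0 : ℂ) := by
  obtain ⟨τ, hτ, hab, hps, hqs, hpτ, hqτ, hpt, hqt, hy0, hqy0, hpρ, hqρ, hy1⟩ := h
  have hn := g3_norm hτ
  constructor
  · unfold Pc.σ
    simp only [hps, if_false, Bool.false_eq_true, hpτ, hpt, hpρ]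
    have : (a.1 - (a.1 + a.2 * τ - ((0 : ℝ) : ℂ) * I * τ)) * (starRingEnd ℂ) τ = -(a.2 : ℂ) := by
      push_cast
      linear_combination (-(a.2 : ℂ)) * hn
    rw [this]; simp
  · unfold Pc.σ
    simp only [hqs, if_true, hqτ, hqt, hqρ]
    have hb1 : b.1 = a.1 + ((a.2 + b.2 : ℝ) : ℂ) * τ := by linear_combination hab
    rw [hb1]
    push_cast
    linear_combination (b.2 : ℂ) * hn

lemma g3_map (F : FSt D P) : D.map Prod.fst = F.S.T.map (fun e => e.1.1) := by
  have h1 := congrArg (List.map Prod.fst) F.S.hT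
  rw [← h1, List.map_map]; rfl

lemma g3_cycmap (F : FSt D P) {e e' : (ℂ × ℝ) × F.S.ι × F.S.ι} (he : (e, e') ∈ cyc F.S.T) :
    (e.1.1, e'.1.1) ∈ cyc (D.map Prod.fst) := by
  rw [g3_map F, g3_cyc_map]
  exact List.mem_map.mpr ⟨(e, e'), he, rfl⟩

/-- case of an interior point of a boundary edge -/
lemma g3_edge_case (PF : PcFacts) (F : FSt D P) {e e' : (ℂ × ℝ) × F.S.ι × F.S.ι}
    (he : (e, e') ∈ cyc F.S.T) {x : ℂ} (hx : x ∈ segment ℝ e.1.1 e'.1.1) (hx1 : x ≠ e.1.1)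
    (hx2 : x ≠ e'.1.1) {j : F.S.ι} (hj : x ∈ (F.S.pc j).face) : j = e.2.2 ∨ j = e'.2.1 := by
  have hfr := g3_frontier F he hx
  have hg := (F.S.geo _ he).1
  simp only at hg
  have hp := (F.S.ok e.2.2).1
  have hq := (F.S.ok e'.2.1).1
  have hseg := fun y => g3_edge_seg hp hq hg y
  have hE := fun y => g3_edge hp hg y
  have hy0 : (F.S.pc e.2.2).y0 = 0 := by obtain ⟨τ, _, _, _, _, _, _, _, _, hy, _⟩ := hg; exact hy
  have hqy0 : (F.S.pc e'.2.1).y0 = 0 := by
    obtain ⟨τ, _, _, _, _, _, _, _, _, _, hy, _⟩ := hg; exact hy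
  have hends := g3_ends hg
  set p := F.S.pc e.2.2 with hpdef
  set q := F.S.pc e'.2.1 with hqdef
  obtain ⟨hx0, hxp, hxq⟩ := (hseg x).mp hx
  -- strict inequalities
  have hxp' : (p.σ x).re < p.ρ0 := by
    refine lt_of_le_of_ne hxp fun h => hx1 ?_
    apply (PF.isom hp).injective
    rw [hends.1]
    apply Complex.ext
    · simpa using h
    · simpa using hx0
  have hxq' : (q.σ x).re < q.ρ0 := by
    refine lt_of_le_of_ne hxq fun h => hx2 ?_
    apply (PF.isom hq).injective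
    rw [hends.2]
    apply Complex.ext
    · simpa using h
    · rw [(hE x).2]; simpa using hx0
  have G1 : 0 < g3G p x := g3_Gbot hp (by rw [hx0, hy0]) hxp'
  have G2 : 0 < g3G q x := g3_Gbot hq (by rw [(hE x).2, hx0, hqy0]) hxq'
  have hy1 : (p.σ x).im < p.y1 := by rw [hx0, ← hy0]; exact hp.2.1
  have hqy1 : (p.σ x).im < q.y1 := by rw [hx0, ← hqy0]; exact hq.2.1
  have ev : ∀ᶠ y in 𝓝 x, (y ∈ p.face ∪ q.face ∨ (p.σ y).im < 0) ∧
      ∀ g ∈ cyc (D.map Prod.fst), y ∈ segment ℝ g.1 g.2 → x ∈ segment ℝ g.1 g.2 := by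
    refine Eventually.and ?_ (g3_near _ x)
    filter_upwards [g3_ev_G G1, g3_ev_G G2, g3_ev_im' hy1, g3_ev_im' hqy1] with y g1 g2 m1 m2
    rcases lt_or_ge (p.σ y).im 0 with h | h
    · exact Or.inr h
    · left
      rcases le_or_gt 0 (p.σ y).re with h' | h'
      · exact Or.inl (g3_mem' (by rw [hy0]; exact h) m1.le h' g1.le)
      · refine Or.inr (g3_mem' ?_ ?_ ?_ g2.le)
        · rw [hqy0, (hE y).2]; exact h
        · rw [(hE y).2]; exact m2.le
        · rw [(hE y).1]; linarith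
  obtain ⟨r, hr, hball⟩ := Metric.eventually_nhds_iff_ball.mp ev
  have hconv : Convex ℝ (Metric.ball x r ∩ {y | (p.σ y).im < 0}) := by
    refine (convex_ball x r).inter ?_
    intro a ha b hb s t hs ht hst
    simp only [Set.mem_ofPred_eq] at ha hb ⊢
    rw [g3_im_aff p hst]
    rcases hs.lt_or_eq with h | h
    · have h1 := mul_neg_of_pos_of_neg h ha
      have h2 := mul_nonpos_of_nonneg_of_nonpos ht hb.le
      linarith
    · rw [← h] at hst ⊢
      have ht1 : t = 1 := by linarith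
      rw [ht1]; linarith
  refine g3_excl PF F (W := Metric.ball x r ∩ {y | (p.σ y).im < 0}) (U := Metric.ball x r) hfr
    hconv.isPreconnected ?_ (Metric.ball_mem_nhds x hr) ?_ hj
  · rintro y ⟨hyb, hyn⟩ hyf
    rw [F.hfr] at hyf
    obtain ⟨g, hg', hyg⟩ := hyf
    have hxg := (hball y hyb).2 g hg' hyg
    by_cases hge : g = (e.1.1, e'.1.1)
    · rw [hge] at hyg
      have := ((hseg y).mp hyg).1
      simp only [Set.mem_ofPred_eq] at hyn
      linarith
    · have := F.hU.2.2 _ (g3_cycmap F he) g hg' (fun h => hge h.symm) ⟨hx, hxg⟩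
      rcases this.1 with h | h
      · exact hx1 h
      · exact hx2 h
  · intro y hy
    rcases (hball y hy).1 with h | h
    · exact Or.inl h
    · exact Or.inr ⟨hy, h⟩

/-- case of a tip -/
lemma g3_tip_case (PF : PcFacts) (F : FSt D P) {e : (ℂ × ℝ) × F.S.ι × F.S.ι}
    (he : e ∈ F.S.T) {j : F.S.ι} (hj : e.1.1 ∈ (F.S.pc j).face) : j = e.2.2 ∨ j = e.2.1 := by
  obtain ⟨e', he'⟩ := g3_cyc_fst he
  obtain ⟨e'', he''⟩ := g3_cyc_snd he
  have hfr := g3_frontier F he' (left_mem_segment ℝ _ _)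
  have hg := (F.S.geo _ he').1
  have hg2 := (F.S.geo _ he'').1
  simp only at hg hg2
  have hR := (F.S.ok e.2.2).1
  have hR' := (F.S.ok e'.2.1).1
  have hL := (F.S.ok e.2.1).1
  have hL' := (F.S.ok e''.2.2).1
  have hB := F.S.geoB _ _ (F.hB e he)
  have segR := fun y => g3_edge_seg hR hR' hg y
  have segL := fun y => g3_edge_seg hL' hL hg2 y
  have EL := fun y => g3_edge hL' hg2 y
  have hRy0 : (F.S.pc e.2.2).y0 = 0 := by obtain ⟨τ, _, _, _, _, _, _, _, _, hy, _⟩ := hg; exact hy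
  have hLy0 : (F.S.pc e.2.1).y0 = 0 := by
    obtain ⟨τ, _, _, _, _, _, _, _, _, _, hy, _⟩ := hg2; exact hy
  have hendR := (g3_ends hg).1
  have hendL := (g3_ends hg2).2
  set p := F.S.pc e.2.2 with hpdef
  set q := F.S.pc e.2.1 with hqdef
  set x := e.1.1 with hxdef
  have hGq : ∀ y, g3G p y = - g3G q y := fun y => g3_MB_G hL hR hB y
  have pim : (p.σ x).im = 0 := by rw [hendR]; simp
  have qim : (q.σ x).im = 0 := by rw [hendL]; simp
  have pre : (p.σ x).re = p.ρ0 := by rw [hendR]; simp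
  have qre : (q.σ x).re = q.ρ0 := by rw [hendL]; simp
  -- near x
  have ev : ∀ᶠ y in 𝓝 x, ((y ∈ p.face ∪ q.face) ∨ (0 ≤ g3G p y ∧ (p.σ y).im < 0) ∨
      (g3G p y ≤ 0 ∧ (q.σ y).im < 0)) ∧
      ∀ g ∈ cyc (D.map Prod.fst), y ∈ segment ℝ g.1 g.2 → x ∈ segment ℝ g.1 g.2 := by
    refine Eventually.and ?_ (g3_near _ x)
    have a1 : (p.σ x).im < p.y1 := by rw [pim, ← hRy0]; exact hR.2.1
    have a2 : (q.σ x).im < q.y1 := by rw [qim, ← hLy0]; exact hL.2.1
    have a3 : 0 < (p.σ x).re := by rw [pre]; exact hR.2.2.1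
    have a4 : 0 < (q.σ x).re := by rw [qre]; exact hL.2.2.1
    filter_upwards [g3_ev_im' a1, g3_ev_im' a2, g3_ev_re a3, g3_ev_re a4] with y b1 b2 b3 b4
    rcases le_or_gt 0 (g3G p y) with h | h
    · rcases lt_or_ge (p.σ y).im 0 with h' | h'
      · exact Or.inr (Or.inl ⟨h, h'⟩)
      · exact Or.inl (Or.inl (g3_mem' (by rw [hRy0]; exact h') b1.le b3.le h))
    · rcases lt_or_ge (q.σ y).im 0 with h' | h'
      · exact Or.inr (Or.inr ⟨h.le, h'⟩)
      · refine Or.inl (Or.inr (g3_mem' (by rw [hLy0]; exact h') b2.le b4.le ?_))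
        have := hGq y
        linarith
  obtain ⟨r, hr, hball⟩ := Metric.eventually_nhds_iff_ball.mp ev
  set C1 : Set ℂ := Metric.ball x r ∩ {y | 0 ≤ g3G p y ∧ (p.σ y).im < 0} with hC1
  set C2 : Set ℂ := Metric.ball x r ∩ {y | g3G p y ≤ 0 ∧ (q.σ y).im < 0} with hC2
  have im_conv : ∀ (m : Pc) (a b : ℂ) (s t : ℝ), 0 ≤ s → 0 ≤ t → s + t = 1 → (m.σ a).im < 0 →
      (m.σ b).im < 0 → (m.σ (s • a + t • b)).im < 0 := by
    intro m a b s t hs ht hst ha hb
    rw [g3_im_aff m hst]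
    rcases hs.lt_or_eq with h | h
    · have h1 := mul_neg_of_pos_of_neg h ha
      have h2 := mul_nonpos_of_nonneg_of_nonpos ht hb.le
      linarith
    · rw [← h] at hst ⊢
      have ht1 : t = 1 := by linarith
      rw [ht1]; linarith
  have conv1 : Convex ℝ C1 := by
    refine (convex_ball x r).inter ?_
    intro a ha b hb s t hs ht hst
    simp only [Set.mem_ofPred_eq] at ha hb ⊢
    refine ⟨?_, im_conv p a b s t hs ht hst ha.2 hb.2⟩
    rw [g3_G_aff p hst]
    have h1 := mul_nonneg hs ha.1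
    have h2 := mul_nonneg ht hb.1
    linarith
  have conv2 : Convex ℝ C2 := by
    refine (convex_ball x r).inter ?_
    intro a ha b hb s t hs ht hst
    simp only [Set.mem_ofPred_eq] at ha hb ⊢
    refine ⟨?_, im_conv q a b s t hs ht hst ha.2 hb.2⟩
    rw [g3_G_aff p hst]
    have h1 := mul_nonpos_of_nonneg_of_nonpos hs ha.1
    have h2 := mul_nonpos_of_nonneg_of_nonpos ht hb.1
    linarith
  -- common point
  obtain ⟨w0, hw1, hw2⟩ : ∃ w0, w0 ∈ C1 ∧ w0 ∈ C2 := by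
    set z := g3z p with hz
    have hzn : 0 < ‖z‖ := norm_pos_iff.mpr (g3z_ne hR)
    set ε : ℝ := r / (2 * ‖z‖) with hε
    have hε0 : 0 < ε := by positivity
    set w0 := p.pt (p.ρ0 - ε * (p.ρ1 - p.ρ0)) (p.y0 - ε * (p.y1 - p.y0)) with hw0
    have hσ : p.σ w0 = ((p.ρ0 - ε * (p.ρ1 - p.ρ0) : ℝ) : ℂ) +
        ((p.y0 - ε * (p.y1 - p.y0) : ℝ) : ℂ) * I := PF.σ_pt hR _ _
    have hre : (p.σ w0).re = p.ρ0 - ε * (p.ρ1 - p.ρ0) := by rw [hσ]; simp
    have him : (p.σ w0).im = p.y0 - ε * (p.y1 - p.y0) := by rw [hσ]; simp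
    have hG : g3G p w0 = 0 := by unfold g3G; rw [hre, him]; ring
    have hGq' : g3G q w0 = 0 := by have := hGq w0; linarith
    have hqσ : p.σ w0 = q.σ w0 := g3_MB_eq hL hR hB hGq'
    have hneg : (p.σ w0).im < 0 := by
      rw [him, hRy0]
      have := mul_pos hε0 (sub_pos.mpr hR.2.1)
      rw [hRy0] at this
      linarith
    have hdist : dist w0 x < r := by
      rw [← (PF.isom hR).dist_eq, dist_eq_norm, hendR, hσ]
      have : ((p.ρ0 - ε * (p.ρ1 - p.ρ0) : ℝ) : ℂ) +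
        ((p.y0 - ε * (p.y1 - p.y0) : ℝ) : ℂ) * I - p.ρ0 = -((ε : ℂ) * z) := by
        rw [hz]; unfold g3z
        rw [hRy0]
        push_cast
        ring
      rw [this, norm_neg, norm_mul, Complex.norm_real, Real.norm_of_nonneg hε0.le, hε]
      field_simp
      linarith
    exact ⟨w0, ⟨hdist, hG.ge, hneg⟩, ⟨hdist, hG.le, by rw [← hqσ]; exact hneg⟩⟩
  have hW : IsPreconnected (C1 ∪ C2) :=
    IsPreconnected.union w0 hw1 hw2 conv1.isPreconnected conv2.isPreconnected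
  -- equality at the tip
  have tipp : ∀ y, (p.σ y).im = 0 → (p.σ y).re = p.ρ0 → y = x := by
    intro y h1 h2
    apply (PF.isom hR).injective
    rw [hendR]
    apply Complex.ext
    · simpa using h2
    · simpa using h1
  have tipq : ∀ y, (q.σ y).im = 0 → (q.σ y).re = q.ρ0 → y = x := by
    intro y h1 h2
    apply (PF.isom hL).injective
    rw [hendL]
    apply Complex.ext
    · simpa using h2
    · simpa using h1
  -- on the next edge
  have next : ∀ y, y ∈ segment ℝ x e'.1.1 → y ∈ C1 ∪ C2 → False := by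
    intro y hy hyW
    obtain ⟨h1, h2, _⟩ := (segR y).mp hy
    have hGy : g3G p y = (p.ρ0 - (p.σ y).re) * (p.y1 - p.y0) := by
      unfold g3G; rw [h1, hRy0]; ring
    rcases hyW with h | h
    · have : (p.σ y).im < 0 := h.2.2
      linarith
    · have hle : g3G p y ≤ 0 := h.2.1
      have hge : 0 ≤ g3G p y := by
        rw [hGy]; exact mul_nonneg (by linarith) (by linarith [hR.2.1])
      have h0 : (p.ρ0 - (p.σ y).re) * (p.y1 - p.y0) = 0 := by rw [← hGy]; linarith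
      have h3 : (p.σ y).re = p.ρ0 := by
        rcases mul_eq_zero.mp h0 with h' | h'
        · linarith
        · exact absurd h' (by linarith [hR.2.1])
      have hyx := tipp y h1 h3
      have h4 : (q.σ y).im < 0 := h.2.2
      rw [hyx, qim] at h4
      exact lt_irrefl _ h4
  have prev : ∀ y, y ∈ segment ℝ e''.1.1 x → y ∈ C1 ∪ C2 → False := by
    intro y hy hyW
    obtain ⟨h1, _, h2⟩ := (segL y).mp hy
    have h1' : (q.σ y).im = 0 := by rw [(EL y).2]; exact h1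
    have hGy : g3G q y = (q.ρ0 - (q.σ y).re) * (q.y1 - q.y0) := by
      unfold g3G; rw [h1', hLy0]; ring
    rcases hyW with h | h
    · have hle : g3G q y ≤ 0 := by
        have h5 : 0 ≤ g3G p y := h.2.1
        have := hGq y
        linarith
      have hge : 0 ≤ g3G q y := by
        rw [hGy]; exact mul_nonneg (by linarith) (by linarith [hL.2.1])
      have h0 : (q.ρ0 - (q.σ y).re) * (q.y1 - q.y0) = 0 := by rw [← hGy]; linarith
      have h3 : (q.σ y).re = q.ρ0 := by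
        rcases mul_eq_zero.mp h0 with h' | h'
        · linarith
        · exact absurd h' (by linarith [hL.2.1])
      have hyx := tipq y h1' h3
      have h4 : (p.σ y).im < 0 := h.2.2
      rw [hyx, pim] at h4
      exact lt_irrefl _ h4
    · have : (q.σ y).im < 0 := h.2.2
      linarith
  refine g3_excl PF F (W := C1 ∪ C2) (U := Metric.ball x r) hfr hW ?_
    (Metric.ball_mem_nhds x hr) ?_ hj
  · intro y hyW hyf
    have hyb : y ∈ Metric.ball x r := by
      rcases hyW with h | h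
      · exact h.1
      · exact h.1
    rw [F.hfr] at hyf
    obtain ⟨g, hg', hyg⟩ := hyf
    have hxg := (hball y hyb).2 g hg' hyg
    by_cases hge : g = (x, e'.1.1)
    · rw [hge] at hyg
      exact next y hyg hyW
    · have h5 := F.hU.2.2 _ (g3_cycmap F he') g hg' (fun h => hge h.symm)
        ⟨left_mem_segment ℝ _ _, hxg⟩
      have hnd : (D.map Prod.fst).Nodup := F.hU.2.1
      rcases h5.2 with h | h
      · apply hge
        have h6 : (x, g.2) ∈ cyc (D.map Prod.fst) := by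
          have : (x, g.2) = g := Prod.ext h rfl
          rw [this]; exact hg'
        have := g3_zip_left hnd h6 (g3_cycmap F he')
        exact Prod.ext h.symm this
      · have h' : x = g.2 := h
        have h6 : (g.1, x) ∈ cyc (D.map Prod.fst) := by
          have : (g.1, x) = g := Prod.ext rfl h'
          rw [this]; exact hg'
        have h7 := g3_zip_right (List.nodup_rotate.mpr hnd) h6 (g3_cycmap F he'')
        have h8 : g = (e''.1.1, x) := Prod.ext h7 h'.symm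
        rw [h8] at hyg
        exact prev y hyg hyW
  · intro y hy
    rcases (hball y hy).1 with h | h | h
    · exact Or.inl h
    · exact Or.inr (Or.inl ⟨hy, h⟩)
    · exact Or.inr (Or.inr ⟨hy, h⟩)

/-- any two faces agree at their common points; `cases'` and `agree'` are proved elsewhere -/
theorem faces_agree (PF : PcFacts) {D : List (ℂ × ℝ)} {P : Set ℂ} (F : FSt D P)
    (agree' : ∀ (i j : F.S.ι) (x : ℂ), Meets (fun k => (F.S.pc k).face) i j x →
      (F.S.pc i).σ x = (F.S.pc j).σ x)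
    {i j : F.S.ι} {x : ℂ} (hi : x ∈ (F.S.pc i).face) (hj : x ∈ (F.S.pc j).face) :
    (F.S.pc i).σ x = (F.S.pc j).σ x := by
  have hxP : x ∈ P := F.cover.subset (Set.mem_iUnion.mpr ⟨i, hi⟩)
  by_cases hint : x ∈ interior P
  · exact g3_int2 PF F agree' hi hj hint
  · have hfr : x ∈ frontier P := by
      rw [frontier, F.hcpt.isClosed.closure_eq]; exact ⟨hxP, hint⟩
    rw [F.hfr] at hfr
    obtain ⟨g, hg, hxg⟩ := hfr
    rw [g3_map F, g3_cyc_map] at hg
    obtain ⟨⟨e, e'⟩, he, rfl⟩ := List.mem_map.mp hg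
    simp only [Prod.map_fst, Prod.map_snd] at hxg
    have tip : ∀ f ∈ F.S.T, x = f.1.1 → (F.S.pc i).σ x = (F.S.pc j).σ x := by
      intro f hf hxf
      obtain ⟨f', hf'⟩ := g3_cyc_fst hf
      obtain ⟨f'', hf''⟩ := g3_cyc_snd hf
      have h1 := (g3_ends (F.S.geo _ hf').1).1
      have h2 := (g3_ends (F.S.geo _ hf'').1).2
      have hB := F.S.geoB _ _ (F.hB f hf)
      simp only at h1 h2
      have h3 : (F.S.pc f.2.2).σ x = (F.S.pc f.2.1).σ x := by
        rw [hxf, h1, h2, hB.2.2.2.1]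
      rcases g3_tip_case PF F hf (hxf ▸ hi) with h | h <;>
        rcases g3_tip_case PF F hf (hxf ▸ hj) with h' | h' <;> rw [h, h']
      · exact h3
      · exact h3.symm
    by_cases h1 : x = e.1.1
    · exact tip e (g3_cyc_mem he).1 h1
    by_cases h2 : x = e'.1.1
    · exact tip e' (g3_cyc_mem he).2 h2
    have hgeo := (F.S.geo _ he).1
    simp only at hgeo
    have hE := g3_edge (F.S.ok e.2.2).1 hgeo x
    have h3 : x ∈ (F.S.pc e.2.2).face → x ∈ (F.S.pc e'.2.1).face →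
        (F.S.pc e.2.2).σ x = (F.S.pc e'.2.1).σ x := by
      intro ha hb
      have a1 := (g3_of_mem ha).2.2.1
      have a2 := (g3_of_mem hb).2.2.1
      rw [hE.1] at a2
      have a3 : ((F.S.pc e.2.2).σ x).re = 0 := by linarith
      apply Complex.ext
      · rw [hE.1, a3]; simp
      · exact hE.2.symm
    rcases g3_edge_case PF F he hxg h1 h2 hi with h | h <;>
      rcases g3_edge_case PF F he hxg h1 h2 hj with h' | h' <;> rw [h, h']
    · exact h3 (h ▸ hi) (h' ▸ hj)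
    · exact (h3 (h' ▸ hj) (h ▸ hi)).symm

end g3sec

end

end Pool.Agent.Helper22.FC
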