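import Pool.Agent.Helper22.FC.Base

namespace Pool.Agent.Helper22.FC

open Complex

noncomputable section

theorem pt_σ' (PF : PcFacts) {p : Pc} (hp : p.Ok) (y : ℂ) :
    p.pt (p.σ y).re (p.σ y).im = y := by
  apply (PF.isom hp).injective
  rw [PF.σ_pt hp]
  exact Complex.re_add_im _

theorem int_σ' (PF : PcFacts) {p : Pc} (hp : p.Ok) {y : ℂ} (hy : y ∈ interior p.face) :
    p.y0 < (p.σ y).im ∧ (p.σ y).im < p.y1 ∧ 0 < (p.σ y).re := by
  have h : p.pt (p.σ y).re (p.σ y).im ∈ interior p.face := by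
    rw [pt_σ' PF hp y]
    exact hy
  have := (PF.mem_int hp _ _).1 h
  exact ⟨this.1, this.2.1, this.2.2.1⟩

theorem germ_image' (PF : PcFacts) {p : Pc} (hp : p.Ok) (f : ℂ → ℂ)
    (hf : ∀ x ∈ p.face, f x = p.σ x) {x : ℂ} (hx : x ∈ p.face) (ε : ℝ) :
    f '' (p.face ∩ Metric.ball x ε) = p.trap ∩ Metric.ball (f x) ε := by
  ext q
  constructor
  · rintro ⟨w, ⟨hw1, hw2⟩, rfl⟩
    rw [hf w hw1, hf x hx]
    refine ⟨hw1, ?_⟩
    rw [Metric.mem_ball, (PF.isom hp).dist_eq]
    exact hw2
  · rintro ⟨h1, h2⟩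
    obtain ⟨w, rfl⟩ := PF.surj hp q
    have hw : w ∈ p.face := h1
    refine ⟨w, ⟨hw, ?_⟩, hf w hw⟩
    rw [hf x hx, Metric.mem_ball, (PF.isom hp).dist_eq] at h2
    exact h2

theorem sameGerm_of' (PF : PcFacts) {p q : Pc} (hp : p.Ok) (hq : q.Ok) (f : ℂ → ℂ)
    (hfp : ∀ x ∈ p.face, f x = p.σ x) (hfq : ∀ x ∈ q.face, f x = q.σ x) {x : ℂ}
    (hx : x ∈ p.face) (hx' : x ∈ q.face)
    (h : ∀ᶠ w in nhds (f x), (w ∈ p.trap ↔ w ∈ q.trap)) : SameGerm f p.face q.face x x := by
  obtain ⟨ε, hε, h⟩ := Metric.eventually_nhds_iff_ball.1 h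
  refine ⟨ε, hε, ?_⟩
  rw [germ_image' PF hp f hfp hx, germ_image' PF hq f hfq hx']
  ext w
  constructor
  · rintro ⟨h1, h2⟩
    exact ⟨(h w h2).1 h1, h2⟩
  · rintro ⟨h1, h2⟩
    exact ⟨(h w h2).2 h1, h2⟩

/-- slack in the slanted inequality -/
def slack' (p : Pc) (w : ℂ) : ℝ :=
  p.ρ0 * (p.y1 - w.im) + p.ρ1 * (w.im - p.y0) - w.re * (p.y1 - p.y0)

theorem slack_cont' (p : Pc) : Continuous (slack' p) := by
  unfold slack'
  fun_prop

theorem trap_S' {p q : Pc} (hp : p.Ok) (hq : q.Ok) (h : p.MS q) {w : ℂ} (h0 : w.re = 0)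
    (h1 : p.y0 < w.im) (h2 : w.im < p.y1) : ∀ᶠ v in nhds w, (v ∈ p.trap ↔ v ∈ q.trap) := by
  obtain ⟨-, e0, e1, -, -⟩ := h
  have hsl : ∀ r : Pc, r.Ok → r.y0 < w.im → w.im < r.y1 → 0 < slack' r w := by
    intro r hr a1 a2
    unfold slack'
    rw [h0]
    obtain ⟨-, -, a3, a4⟩ := hr
    have a5 : 0 < r.ρ0 * (r.y1 - w.im) := mul_pos a3 (by linarith)
    have a6 : 0 ≤ r.ρ1 * (w.im - r.y0) := mul_nonneg a4 (by linarith)
    linarith
  have s1 := (slack_cont' p).continuousAt.eventually_const_lt (hsl p hp h1 h2)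
  have s2 := (slack_cont' q).continuousAt.eventually_const_lt (hsl q hq (by rw [← e0]; exact h1) (by rw [← e1]; exact h2))
  filter_upwards [s1, s2] with v v1 v2
  unfold slack' at v1 v2
  unfold Pc.trap
  simp only [Set.mem_ofPred_eq]
  rw [e0, e1] at *
  constructor
  · rintro ⟨b1, b2, b3, b4⟩
    exact ⟨b1, b2, b3, by linarith⟩
  · rintro ⟨b1, b2, b3, b4⟩
    exact ⟨b1, b2, b3, by linarith⟩

theorem trap_L' {p q : Pc} (hp : p.Ok) (hq : q.Ok) (h : p.ML q) {w : ℂ} (h0 : w.im = p.y0)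
    (h1 : 0 < w.re) (h2 : w.re < p.ρ0) : ∀ᶠ v in nhds w, (v ∈ p.trap ↔ v ∈ q.trap) := by
  obtain ⟨-, e0, e1, -, -⟩ := h
  have hsl : ∀ r : Pc, r.Ok → w.im = r.y0 → w.re < r.ρ0 → 0 < slack' r w := by
    intro r hr a1 a2
    unfold slack'
    rw [a1]
    obtain ⟨-, a3, -, -⟩ := hr
    have a5 : 0 < (r.ρ0 - w.re) * (r.y1 - r.y0) := mul_pos (by linarith) (by linarith)
    linarith
  have hq0 : w.im = q.y0 := by rw [← e0]; exact h0
  have s1 := (slack_cont' p).continuousAt.eventually_const_lt (hsl p hp h0 h2)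
  have s2 := (slack_cont' q).continuousAt.eventually_const_lt (hsl q hq hq0 (by rw [← e1]; exact h2))
  have s3 : ∀ᶠ v in nhds w, v.im < p.y1 :=
    Complex.continuous_im.continuousAt.eventually_lt_const (by rw [h0]; exact hp.2.1)
  have s4 : ∀ᶠ v in nhds w, v.im < q.y1 :=
    Complex.continuous_im.continuousAt.eventually_lt_const (by rw [hq0]; exact hq.2.1)
  filter_upwards [s1, s2, s3, s4] with v v1 v2 v3 v4
  unfold slack' at v1 v2
  unfold Pc.trap
  simp only [Set.mem_ofPred_eq]
  constructor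
  · rintro ⟨b1, b2, b3, b4⟩
    exact ⟨by rw [← e0]; exact b1, v4.le, b3, by linarith⟩
  · rintro ⟨b1, b2, b3, b4⟩
    exact ⟨by rw [e0]; exact b1, v3.le, b3, by linarith⟩

theorem trap_B' {p q : Pc} (h : p.MB q) : p.trap = q.trap := by
  obtain ⟨-, e0, e1, e2, e3, -, -⟩ := h
  unfold Pc.trap
  rw [e0, e1, e2, e3]

theorem noncross (PF : PcFacts) {D : List (ℂ × ℝ)} {P : Set ℂ} (F : FSt D P) (f : ℂ → ℂ)
    (hf : ∀ i, ∀ x ∈ (F.S.pc i).face, f x = (F.S.pc i).σ x)
    (cases' : ∀ (i j : F.S.ι) (x : ℂ), Meets (fun k => (F.S.pc k).face) i j x →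
      (F.S.RS i j ∧ (f x).re = 0 ∧ (F.S.pc i).y0 < (f x).im ∧ (f x).im < (F.S.pc i).y1) ∨
      (F.S.RB i j ∧ 0 < (f x).re ∧ (F.S.pc i).y0 < (f x).im ∧ (f x).im < (F.S.pc i).y1) ∨
      (F.S.RL i j ∧ (f x).im = (F.S.pc i).y0 ∧ 0 < (f x).re ∧ (f x).re < (F.S.pc i).ρ0) ∨
      (F.S.RF i j ∧ (f x).im = (F.S.pc i).y1 ∧ 0 < (f x).re ∧ (f x).re < (F.S.pc i).ρ1) ∨
      (F.S.RF j i ∧ (f x).im = (F.S.pc i).y0 ∧ 0 < (f x).re ∧ (f x).re < (F.S.pc i).ρ0)) :
    (∀ (i j k : F.S.ι) (x y : ℂ), Meets (fun k => (F.S.pc k).face) i j x →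
      y ∈ interior (F.S.pc k).face → f y = f x →
      ¬ Between (F.S.z i) (F.S.z k) (F.S.z j)) ∧
    (∀ (i j k l : F.S.ι) (x y : ℂ), Meets (fun k => (F.S.pc k).face) i j x →
      Meets (fun k => (F.S.pc k).face) k l y → f x = f y →
      SameGerm f (F.S.pc i).face (F.S.pc j).face x x →
      SameGerm f (F.S.pc i).face (F.S.pc k).face x y →
      Between (F.S.z i) (F.S.z k) (F.S.z j) →
      SameGerm f (F.S.pc k).face (F.S.pc l).face y y ∧
        Between (F.S.z i) (F.S.z l) (F.S.z j)) ∧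
    (∀ (i j k l : F.S.ι) (x y : ℂ), Meets (fun k => (F.S.pc k).face) i j x →
      Meets (fun k => (F.S.pc k).face) k l y → f x = f y →
      ¬ SameGerm f (F.S.pc i).face (F.S.pc j).face x x →
      ¬ SameGerm f (F.S.pc k).face (F.S.pc l).face y y →
      SameGerm f (F.S.pc i).face (F.S.pc k).face x y →
      SameGerm f (F.S.pc j).face (F.S.pc l).face x y →
      (F.S.z i < F.S.z k ↔ F.S.z j < F.S.z l)) := by
  have hok : ∀ i, (F.S.pc i).Ok := fun i => (F.S.ok i).1
  have lemA : ∀ (i j k : F.S.ι) (x : ℂ), Meets (fun k => (F.S.pc k).face) i j x →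
      x ∈ (F.S.pc k).face → k = i ∨ k = j := by
    intro i j k x hM hx
    by_contra hcon
    push Not at hcon
    obtain ⟨hki, hkj⟩ := hcon
    obtain ⟨-, -, -, hU⟩ := hM
    rw [← PF.face_closure (hok k)] at hx
    obtain ⟨w, hw1, hw2⟩ := mem_closure_iff_nhds.1 hx _ hU
    have key : ∀ m, k ≠ m → w ∉ (F.S.pc m).face := by
      intro m hkm hwm
      rw [← PF.face_closure (hok m)] at hwm
      obtain ⟨v, hv1, hv2⟩ := mem_closure_iff.1 hwm _ isOpen_interior hw2
      exact Set.disjoint_left.1 (F.disj k m hkm) hv1 hv2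
    rcases hw1 with h | h
    · exact key i hki h
    · exact key j hkj h
  have inj : ∀ (i : F.S.ι) (x y : ℂ), x ∈ (F.S.pc i).face → y ∈ (F.S.pc i).face →
      f x = f y → x = y := by
    intro i x y hx hy h
    rw [hf i x hx, hf i y hy] at h
    exact (PF.isom (hok i)).injective h
  have him : ∀ (i : F.S.ι) (x : ℂ), x ∈ (F.S.pc i).face → (F.S.pc i).y0 ≤ (f x).im := by
    intro i x hx
    rw [hf i x hx]
    exact hx.1
  have hsg : ∀ (i j : F.S.ι) (x : ℂ), Meets (fun k => (F.S.pc k).face) i j x →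
      SameGerm f (F.S.pc i).face (F.S.pc j).face x x ∨ F.S.RF i j ∨ F.S.RF j i := by
    intro i j x hM
    have hx1 : x ∈ (F.S.pc i).face := hM.2.1
    have hx2 : x ∈ (F.S.pc j).face := hM.2.2.1
    rcases cases' i j x hM with h | h | h | h | h
    · left
      exact sameGerm_of' PF (hok i) (hok j) f (hf i) (hf j) hx1 hx2
        (trap_S' (hok i) (hok j) (F.S.geoS i j h.1) h.2.1 h.2.2.1 h.2.2.2)
    · left
      refine sameGerm_of' PF (hok i) (hok j) f (hf i) (hf j) hx1 hx2
        (Filter.Eventually.of_forall fun w => ?_)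
      rw [trap_B' (F.S.geoB i j h.1)]
    · left
      exact sameGerm_of' PF (hok i) (hok j) f (hf i) (hf j) hx1 hx2
        (trap_L' (hok i) (hok j) (F.S.geoL i j h.1) h.2.1 h.2.2.1 h.2.2.2)
    · right; left
      exact h.1
    · right; right
      exact h.1
  have hbl : ∀ i j m, F.S.RL i j → Between (F.S.z i) (F.S.z m) (F.S.z j) →
      (F.S.pc i).y0 ≤ (F.S.pc m).y0 := by
    intro i j m h hb
    rcases hb with hb | hb
    · exact F.S.baseL i j m h hb.1 hb.2
    · have h2 := F.S.baseL j i m (F.S.symL i j h) hb.1 hb.2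
      rw [(F.S.geoL i j h).2.1]
      exact h2
  have hbb : ∀ i j m, F.S.RB i j → Between (F.S.z i) (F.S.z m) (F.S.z j) →
      (F.S.pc i).y1 ≤ (F.S.pc m).y0 := by
    intro i j m h hb
    rcases hb with hb | hb
    · exact F.S.baseB i j m h hb.1 hb.2
    · have h2 := F.S.baseB j i m (F.S.symB i j h) hb.1 hb.2
      rw [(F.S.geoB i j h).2.2.1]
      exact h2
  have hbf : ∀ i j m, F.S.RF i j ∨ F.S.RF j i → ¬ Between (F.S.z i) (F.S.z m) (F.S.z j) := by
    intro i j m h hb
    rcases h with h | h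
    · rcases hb with hb | hb
      · exact (F.S.adjF i j m h).1 hb
      · exact (F.S.adjF i j m h).2 hb
    · rcases hb with hb | hb
      · exact (F.S.adjF j i m h).2 hb
      · exact (F.S.adjF j i m h).1 hb
  refine ⟨?_, ?_, ?_⟩
  · intro i j k x y hM hy hfxy hb
    have hyk : y ∈ (F.S.pc k).face := interior_subset hy
    obtain ⟨c1, c2, c3⟩ := int_σ' PF (hok k) hy
    rw [← hf k y hyk, hfxy] at c1 c2 c3
    rcases cases' i j x hM with h | h | h | h | h
    · rw [h.2.1] at c3
      exact lt_irrefl _ c3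
    · have := hbb i j k h.1 hb
      linarith [h.2.2.2]
    · have := hbl i j k h.1 hb
      linarith [h.2.1]
    · exact hbf i j k (Or.inl h.1) hb
    · exact hbf i j k (Or.inr h.1) hb
  · intro i j k l x y hM hM' hfxy _ _ hb
    have hx1 : x ∈ (F.S.pc i).face := hM.2.1
    have hx2 : x ∈ (F.S.pc j).face := hM.2.2.1
    have hy1 : y ∈ (F.S.pc k).face := hM'.2.1
    have hy2 : y ∈ (F.S.pc l).face := hM'.2.2.1
    have hki : k ≠ i := by
      rintro rfl
      rcases hb with hb | hb
      · exact lt_irrefl _ hb.1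
      · exact lt_irrefl _ hb.2
    have hkj : k ≠ j := by
      rintro rfl
      rcases hb with hb | hb
      · exact lt_irrefl _ hb.2
      · exact lt_irrefl _ hb.1
    have hli : l ≠ i := by
      rintro rfl
      have hxy := inj l x y hx1 hy2 hfxy
      subst hxy
      rcases lemA _ _ _ _ hM hy1 with h | h
      · exact hki h
      · exact hkj h
    have hlj : l ≠ j := by
      rintro rfl
      have hxy := inj l x y hx2 hy2 hfxy
      subst hxy
      rcases lemA _ _ _ _ hM hy1 with h | h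
      · exact hki h
      · exact hkj h
    have hzli : F.S.z l ≠ F.S.z i := fun h => hli (F.S.z_inj h)
    have hzlj : F.S.z l ≠ F.S.z j := fun h => hlj (F.S.z_inj h)
    rcases cases' i j x hM with h | h | h | h | h
    · -- RS
      obtain ⟨hR, hre, -, -⟩ := h
      rw [hfxy] at hre
      rcases cases' k l y hM' with h' | h' | h' | h' | h'
      · refine ⟨sameGerm_of' PF (hok k) (hok l) f (hf k) (hf l) hy1 hy2
          (trap_S' (hok k) (hok l) (F.S.geoS k l h'.1) h'.2.1 h'.2.2.1 h'.2.2.2), ?_⟩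
        have hR' := h'.1
        rcases hb with hb | hb
        · left
          constructor
          · by_contra hc
            have hc' : F.S.z l < F.S.z i := lt_of_le_of_ne (not_lt.1 hc) hzli
            exact F.S.lamS l k i j (F.S.symS _ _ hR') hR hc' hb.1 hb.2
          · by_contra hc
            have hc' : F.S.z j < F.S.z l := lt_of_le_of_ne (not_lt.1 hc) hzlj.symm
            exact F.S.lamS i j k l hR hR' hb.1 hb.2 hc'
        · right
          constructor
          · by_contra hc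
            have hc' : F.S.z l < F.S.z j := lt_of_le_of_ne (not_lt.1 hc) hzlj
            exact F.S.lamS l k j i (F.S.symS _ _ hR') (F.S.symS _ _ hR) hc' hb.1 hb.2
          · by_contra hc
            have hc' : F.S.z i < F.S.z l := lt_of_le_of_ne (not_lt.1 hc) hzli.symm
            exact F.S.lamS j i k l (F.S.symS _ _ hR) hR' hb.1 hb.2 hc'
      · exact absurd hre h'.2.1.ne'
      · exact absurd hre h'.2.2.1.ne'
      · exact absurd hre h'.2.2.1.ne'
      · exact absurd hre h'.2.2.1.ne'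
    · -- RB
      exfalso
      have h1 := hbb i j k h.1 hb
      have h2 := him k y hy1
      rw [← hfxy] at h2
      linarith [h.2.2.2]
    · -- RL
      obtain ⟨hR, hi0, hre, -⟩ := h
      have h1 := hbl i j k hR hb
      have h2 := him k y hy1
      have h3 := (hok k).2.1
      rw [hfxy] at hi0 hre
      rcases cases' k l y hM' with h' | h' | h' | h' | h'
      · exact absurd h'.2.1 hre.ne'
      · exfalso
        linarith [h'.2.2.1]
      · refine ⟨sameGerm_of' PF (hok k) (hok l) f (hf k) (hf l) hy1 hy2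
          (trap_L' (hok k) (hok l) (F.S.geoL k l h'.1) h'.2.1 h'.2.2.1 h'.2.2.2), ?_⟩
        have hR' := h'.1
        rcases hb with hb | hb
        · left
          constructor
          · by_contra hc
            have hc' : F.S.z l < F.S.z i := lt_of_le_of_ne (not_lt.1 hc) hzli
            exact F.S.lamL l k i j (F.S.symL _ _ hR') hR hc' hb.1 hb.2
          · by_contra hc
            have hc' : F.S.z j < F.S.z l := lt_of_le_of_ne (not_lt.1 hc) hzlj.symm
            exact F.S.lamL i j k l hR hR' hb.1 hb.2 hc'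
        · right
          constructor
          · by_contra hc
            have hc' : F.S.z l < F.S.z j := lt_of_le_of_ne (not_lt.1 hc) hzlj
            exact F.S.lamL l k j i (F.S.symL _ _ hR') (F.S.symL _ _ hR) hc' hb.1 hb.2
          · by_contra hc
            have hc' : F.S.z i < F.S.z l := lt_of_le_of_ne (not_lt.1 hc) hzli.symm
            exact F.S.lamL j i k l (F.S.symL _ _ hR) hR' hb.1 hb.2 hc'
      · exfalso
        linarith [h'.2.1]
      · exfalso
        have h4 := (F.S.geoF l k h'.1).2.2.2.1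
        have h5 := (hok l).2.1
        have hbt : Between (F.S.z i) (F.S.z l) (F.S.z j) := by
          have g1 := hbf l k i (Or.inl h'.1)
          have g2 := hbf l k j (Or.inl h'.1)
          unfold Between at *
          rcases hb with hb | hb
          · left
            constructor
            · by_contra hc
              exact g1 (Or.inl ⟨lt_of_le_of_ne (not_lt.1 hc) hzli, hb.1⟩)
            · by_contra hc
              exact g2 (Or.inr ⟨hb.2, lt_of_le_of_ne (not_lt.1 hc) hzlj.symm⟩)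
          · right
            constructor
            · by_contra hc
              exact g2 (Or.inl ⟨lt_of_le_of_ne (not_lt.1 hc) hzlj, hb.1⟩)
            · by_contra hc
              exact g1 (Or.inr ⟨hb.2, lt_of_le_of_ne (not_lt.1 hc) hzli.symm⟩)
        have h6 := hbl i j l hR hbt
        linarith [h'.2.1]
    · exact absurd hb (hbf i j k (Or.inl h.1))
    · exact absurd hb (hbf i j k (Or.inr h.1))
  · intro i j k l x y hM hM' hfxy hn hn' hs1 hs2
    have hx1 : x ∈ (F.S.pc i).face := hM.2.1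
    have hx2 : x ∈ (F.S.pc j).face := hM.2.2.1
    have hy1 : y ∈ (F.S.pc k).face := hM'.2.1
    have hy2 : y ∈ (F.S.pc l).face := hM'.2.2.1
    have hF1 : F.S.RF i j ∨ F.S.RF j i := (hsg i j x hM).resolve_left hn
    have hF2 : F.S.RF k l ∨ F.S.RF l k := (hsg k l y hM').resolve_left hn'
    by_cases hik : i = k
    · subst hik
      have hxy := inj i x y hx1 hy1 hfxy
      subst hxy
      rcases lemA _ _ _ _ hM hy2 with h | h
      · exact absurd h.symm hM'.1
      · subst h
        simp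
    by_cases hjl : j = l
    · subst hjl
      have hxy := inj j x y hx2 hy2 hfxy
      subst hxy
      rcases lemA _ _ _ _ hM hy1 with h | h
      · exact absurd h.symm hik
      · exact absurd h hM'.1
    by_cases hjk : j = k
    · subst hjk
      have hxy := inj j x y hx2 hy1 hfxy
      subst hxy
      exact absurd hs1 hn
    by_cases hil : i = l
    · subst hil
      have hxy := inj i x y hx1 hy2 hfxy
      subst hxy
      rcases lemA _ _ _ _ hM hy1 with h | h
      · exact absurd h.symm hik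
      · exact absurd h.symm hjk
    have n1 := hbf i j k hF1
    have n2 := hbf k l j hF2
    have z1 : F.S.z i ≠ F.S.z k := fun h => hik (F.S.z_inj h)
    have z2 : F.S.z j ≠ F.S.z k := fun h => hjk (F.S.z_inj h)
    have z3 : F.S.z j ≠ F.S.z l := fun h => hjl (F.S.z_inj h)
    unfold Between at n1 n2
    constructor
    · intro h
      have h1 : F.S.z j < F.S.z k := by
        by_contra hc
        exact n1 (Or.inl ⟨h, lt_of_le_of_ne (not_lt.1 hc) z2.symm⟩)
      by_contra hc
      exact n2 (Or.inr ⟨lt_of_le_of_ne (not_lt.1 hc) z3.symm, h1⟩)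
    · intro h
      have h1 : F.S.z j < F.S.z k := by
        by_contra hc
        exact n2 (Or.inl ⟨lt_of_le_of_ne (not_lt.1 hc) z2.symm, h⟩)
      by_contra hc
      exact n1 (Or.inr ⟨h1, lt_of_le_of_ne (not_lt.1 hc) z1.symm⟩)

end

end Pool.Agent.Helper22.FC
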