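import Pool.Agent.Helper22.FC.Base

namespace Pool.Agent.Helper22.FC

open Complex

noncomputable section

theorem lv_cyc_map {α β : Type*} (f : α → β) (V : List α) :
    cyc (V.map f) = (cyc V).map (fun e => (f e.1, f e.2)) := by
  unfold cyc
  rw [← List.map_rotate, List.zip_map]
  rfl

theorem lv_cyc_fst {α : Type*} (V : List α) (a : α) (h : a ∈ V) : ∃ b, (a, b) ∈ cyc V := by
  obtain ⟨i, hi, rfl⟩ := List.getElem_of_mem h
  refine ⟨(V.rotate 1)[i]'(by simpa using hi), ?_⟩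
  have h1 : i < (cyc V).length := by simpa [cyc] using hi
  have h2 : (cyc V)[i] = (V[i], (V.rotate 1)[i]'(by simpa using hi)) := by
    simp [cyc]
  rw [← h2]
  exact List.getElem_mem h1

theorem lv_cyc_snd {α : Type*} (V : List α) (b : α) (h : b ∈ V) : ∃ a, (a, b) ∈ cyc V := by
  have h' : b ∈ V.rotate 1 := List.mem_rotate.mpr h
  obtain ⟨i, hi, rfl⟩ := List.getElem_of_mem h'
  have hi' : i < V.length := by simpa using hi
  refine ⟨V[i], ?_⟩
  have h1 : i < (cyc V).length := by simpa [cyc] using hi'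
  have h2 : (cyc V)[i] = (V[i], (V.rotate 1)[i]) := by
    simp [cyc]
  rw [← h2]
  exact List.getElem_mem h1

theorem lv_cyc_mem {α : Type*} (V : List α) (e : α × α) (h : e ∈ cyc V) : e.1 ∈ V ∧ e.2 ∈ V := by
  have h1 := List.of_mem_zip h
  exact ⟨h1.1, List.mem_rotate.mp h1.2⟩

theorem lv_pt (PF : PcFacts) {p : Pc} (hp : p.Ok) (x : ℂ) :
    x = p.pt (p.σ x).re (p.σ x).im := by
  apply (PF.isom hp).injective
  rw [PF.σ_pt hp]
  apply Complex.ext <;> simp

theorem levels (PF : PcFacts) {D : List (ℂ × ℝ)} {P : Set ℂ} (F : FSt D P) (f : ℂ → ℂ)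
    (hf : ∀ i, ∀ x ∈ (F.S.pc i).face, f x = (F.S.pc i).σ x) {R : ℝ}
    (hR : ∀ d ∈ D, d.2 ≤ R) :
    (∀ x ∈ P, ((f x).im = 0 ↔ x ∈ curve (D.map Prod.fst))) ∧
    (∀ x ∈ P, (f x = (R : ℂ) ↔ ∃ d ∈ D, d.2 = R ∧ d.1 = x)) := by
  -- the points on level zero
  have key : ∀ i, ∀ x ∈ (F.S.pc i).face, ((F.S.pc i).σ x).im = 0 →
      ∃ a b, (a, b) ∈ cyc F.S.T ∧ ∃ τ : ℂ, ‖τ‖ = 1 ∧ b.1.1 - a.1.1 = ((a.1.2 + b.1.2 : ℝ) : ℂ) * τ ∧
        0 < a.1.2 ∧ 0 < b.1.2 ∧ 0 ≤ ((F.S.pc i).σ x).re ∧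
        ((((F.S.pc i).σ x).re ≤ a.1.2 ∧ x = a.1.1 + (a.1.2 - ((F.S.pc i).σ x).re : ℝ) * τ) ∨
          (((F.S.pc i).σ x).re ≤ b.1.2 ∧ x = a.1.1 + (a.1.2 + ((F.S.pc i).σ x).re : ℝ) * τ)) := by
    intro i x hx him
    have hok := (F.S.ok i).1
    have hpt := lv_pt PF hok x
    have hx' := hx
    rw [hpt, PF.mem_face hok, him] at hx'
    obtain ⟨h1, h2, h3, h4⟩ := hx'
    have h0 : (F.S.pc i).y0 = 0 := le_antisymm h1 (F.S.ok i).2
    have hy1 : 0 < (F.S.pc i).y1 := by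
      have := hok.2.1
      rwa [h0] at this
    rw [h0] at h4
    have h5 : ((F.S.pc i).σ x).re ≤ (F.S.pc i).ρ0 := by
      have h6 : ((F.S.pc i).σ x).re * (F.S.pc i).y1 ≤ (F.S.pc i).ρ0 * (F.S.pc i).y1 := by
        simpa using h4
      exact le_of_mul_le_mul_right h6 hy1
    have hflag : ∃ e ∈ F.S.T, i = e.2.1 ∨ i = e.2.2 := by
      by_contra hcon
      push Not at hcon
      have := F.hflag i hcon
      rw [h0] at this
      exact lt_irrefl _ this
    obtain ⟨e, he, hi⟩ := hflag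
    rcases hi with hi | hi
    · -- left piece at the tip `e`
      obtain ⟨a, ha⟩ := lv_cyc_snd _ _ he
      obtain ⟨τ, g1, g2, g3, g4, g5, g6, g7, g8, g9, g10, g11, g12, g13⟩ := (F.S.geo _ ha).1
      simp only at g1 g2 g3 g4 g5 g6 g7 g8 g9 g10 g11 g12 g13
      have hpa := (F.S.ok a.2.2).1.2.2.1
      rw [g11] at hpa
      have hpb := (F.S.ok e.2.1).1.2.2.1
      rw [g12] at hpb
      refine ⟨a, e, ha, τ, g1, g2, hpa, hpb, h3, Or.inr ⟨?_, ?_⟩⟩
      · rw [← g12, ← hi]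
        exact h5
      · conv_lhs => rw [hpt]
        rw [him]
        subst hi
        unfold Pc.pt
        rw [if_pos g4, g8, g6]
        push_cast
        ring
    · -- right piece at the tip `e`
      obtain ⟨b, hb⟩ := lv_cyc_fst _ _ he
      obtain ⟨τ, g1, g2, g3, g4, g5, g6, g7, g8, g9, g10, g11, g12, g13⟩ := (F.S.geo _ hb).1
      simp only at g1 g2 g3 g4 g5 g6 g7 g8 g9 g10 g11 g12 g13
      have hpa := (F.S.ok e.2.2).1.2.2.1
      rw [g11] at hpa
      have hpb := (F.S.ok b.2.1).1.2.2.1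
      rw [g12] at hpb
      refine ⟨e, b, hb, τ, g1, g2, hpa, hpb, h3, Or.inl ⟨?_, ?_⟩⟩
      · rw [← g11, ← hi]
        exact h5
      · conv_lhs => rw [hpt]
        rw [him]
        subst hi
        unfold Pc.pt
        rw [if_neg (by rw [g3]; simp), g7, g5]
        push_cast
        ring
  -- membership of the points of the edges in the bottom pieces
  have key2 : ∀ a b, (a, b) ∈ cyc F.S.T → ∃ τ : ℂ, ‖τ‖ = 1 ∧
      b.1.1 - a.1.1 = ((a.1.2 + b.1.2 : ℝ) : ℂ) * τ ∧ 0 < a.1.2 ∧ 0 < b.1.2 ∧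
      (∀ s : ℝ, 0 ≤ s → s ≤ a.1.2 → f (a.1.1 + s * τ) = ((a.1.2 - s : ℝ) : ℂ)) ∧
      (∀ s : ℝ, a.1.2 ≤ s → s ≤ a.1.2 + b.1.2 → f (a.1.1 + s * τ) = ((s - a.1.2 : ℝ) : ℂ)) := by
    intro a b hab
    obtain ⟨τ, g1, g2, g3, g4, g5, g6, g7, g8, g9, g10, g11, g12, g13⟩ := (F.S.geo _ hab).1
    simp only at g1 g2 g3 g4 g5 g6 g7 g8 g9 g10 g11 g12 g13
    have hoka := (F.S.ok a.2.2).1
    have hokb := (F.S.ok b.2.1).1
    have hpa := hoka.2.2.1
    rw [g11] at hpa
    have hpb := hokb.2.2.1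
    rw [g12] at hpb
    refine ⟨τ, g1, g2, hpa, hpb, ?_, ?_⟩
    · intro s hs1 hs2
      have e1 : a.1.1 + s * τ = (F.S.pc a.2.2).pt (a.1.2 - s) 0 := by
        unfold Pc.pt
        rw [if_neg (by rw [g3]; simp), g7, g5]
        push_cast
        ring
      have hy1 := hoka.2.1
      rw [g9] at hy1
      have hm : a.1.1 + s * τ ∈ (F.S.pc a.2.2).face := by
        rw [e1, PF.mem_face hoka, g9, g11]
        refine ⟨le_rfl, hy1.le, by linarith, ?_⟩
        simp only [sub_zero, mul_zero, add_zero]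
        exact mul_le_mul_of_nonneg_right (by linarith) hy1.le
      rw [hf _ _ hm, e1, PF.σ_pt hoka]
      push_cast
      ring
    · intro s hs1 hs2
      have e1 : a.1.1 + s * τ = (F.S.pc b.2.1).pt (s - a.1.2) 0 := by
        unfold Pc.pt
        rw [if_pos g4, g8, g6]
        push_cast
        ring
      have hy1 := hokb.2.1
      rw [g10] at hy1
      have hm : a.1.1 + s * τ ∈ (F.S.pc b.2.1).face := by
        rw [e1, PF.mem_face hokb, g10, g12]
        refine ⟨le_rfl, hy1.le, by linarith, ?_⟩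
        simp only [sub_zero, mul_zero, add_zero]
        exact mul_le_mul_of_nonneg_right (by linarith) hy1.le
      rw [hf _ _ hm, e1, PF.σ_pt hokb]
      push_cast
      ring
  have hcyc : cyc (D.map Prod.fst) = (cyc F.S.T).map (fun e => (e.1.1.1, e.2.1.1)) := by
    conv_lhs => rw [← F.S.hT]
    rw [List.map_map, lv_cyc_map]
    rfl
  have memD : ∀ e ∈ F.S.T, e.1 ∈ D := by
    intro e he
    have h1 : e.1 ∈ F.S.T.map Prod.fst := List.mem_map_of_mem he
    rw [F.S.hT] at h1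
    exact h1
  refine ⟨?_, ?_⟩
  · intro x hxP
    have hx := hxP
    rw [← F.cover, Set.mem_iUnion] at hx
    obtain ⟨i, hi⟩ := hx
    constructor
    · intro him
      rw [hf i x hi] at him
      obtain ⟨a, b, hab, τ, g1, g2, g3, g4, g5, g6⟩ := key i x hi him
      refine ⟨(a.1.1, b.1.1), ?_, ?_⟩
      · rw [hcyc, List.mem_map]
        exact ⟨(a, b), hab, rfl⟩
      · have gen : ∀ s : ℝ, 0 ≤ s → s ≤ a.1.2 + b.1.2 → x = a.1.1 + (s : ℂ) * τ →
            x ∈ segment ℝ a.1.1 b.1.1 := by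
          intro s hs1 hs2 hs3
          rw [segment_eq_image_lineMap]
          have hab0 : (0 : ℝ) < a.1.2 + b.1.2 := by linarith
          refine ⟨s / (a.1.2 + b.1.2), ⟨by positivity, (div_le_one hab0).mpr hs2⟩, ?_⟩
          rw [AffineMap.lineMap_apply_module', g2, hs3, Complex.real_smul]
          have : ((a.1.2 + b.1.2 : ℝ) : ℂ) ≠ 0 := by exact_mod_cast hab0.ne'
          rw [Complex.ofReal_div]
          field_simp
          ring
        rcases g6 with ⟨g7, g8⟩ | ⟨g7, g8⟩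
        · exact gen _ (by linarith) (by linarith) g8
        · exact gen _ (by linarith) (by linarith) g8
    · rintro ⟨e, he, hxe⟩
      rw [hcyc, List.mem_map] at he
      obtain ⟨⟨a, b⟩, hab, rfl⟩ := he
      obtain ⟨τ, g1, g2, g3, g4, g5, g6⟩ := key2 a b hab
      rw [segment_eq_image_lineMap] at hxe
      obtain ⟨s, ⟨hs0, hs1⟩, hs2⟩ := hxe
      rw [AffineMap.lineMap_apply_module', g2, Complex.real_smul] at hs2
      have hs3 : x = a.1.1 + ((s * (a.1.2 + b.1.2) : ℝ) : ℂ) * τ := by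
        rw [← hs2]
        push_cast
        ring
      rw [hs3]
      rcases le_total (s * (a.1.2 + b.1.2)) a.1.2 with h7 | h7
      · rw [g5 _ (by positivity) h7]
        exact Complex.ofReal_im _
      · rw [g6 _ h7 (by nlinarith)]
        exact Complex.ofReal_im _
  · intro x hxP
    have hx := hxP
    rw [← F.cover, Set.mem_iUnion] at hx
    obtain ⟨i, hi⟩ := hx
    constructor
    · intro hfx
      rw [hf i x hi] at hfx
      have him : ((F.S.pc i).σ x).im = 0 := by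
        rw [hfx]
        exact Complex.ofReal_im _
      have hre : ((F.S.pc i).σ x).re = R := by
        rw [hfx]
        exact Complex.ofReal_re _
      obtain ⟨a, b, hab, τ, g1, g2, g3, g4, g5, g6⟩ := key i x hi him
      have hmem := lv_cyc_mem _ _ hab
      have haD : a.1 ∈ D := memD a hmem.1
      have hbD : b.1 ∈ D := memD b hmem.2
      rw [hre] at g6
      rcases g6 with ⟨g7, g8⟩ | ⟨g7, g8⟩
      · have h9 : a.1.2 = R := le_antisymm (hR _ haD) g7
        refine ⟨a.1, haD, h9, ?_⟩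
        rw [g8, h9]
        simp
      · have h9 : b.1.2 = R := le_antisymm (hR _ hbD) g7
        refine ⟨b.1, hbD, h9, ?_⟩
        rw [g8, ← h9]
        linear_combination g2
    · rintro ⟨d, hd, hdR, hdx⟩
      rw [← F.S.hT, List.mem_map] at hd
      obtain ⟨a, ha, rfl⟩ := hd
      obtain ⟨b, hab⟩ := lv_cyc_fst _ _ ha
      obtain ⟨τ, g1, g2, g3, g4, g5, g6⟩ := key2 a b hab
      have := g5 0 le_rfl g3.le
      rw [← hdx, ← hdR]
      simpa using this

end

end Pool.Agent.Helper22.FC
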