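import Pool.Agent.Helper22.FC.Build
import Pool.Agent.Helper22.FC.F0
import Pool.Agent.Helper22.FC.F1
import Pool.Agent.Helper22.FC.G1
import Pool.Agent.Helper22.FC.G2
import Pool.Agent.Helper22.FC.G3
import Pool.Agent.Helper22.FC.G4
import Pool.Agent.Helper22.FC.G5

/-! The final assembly: the region bounded by a simple polygon and its flat folding. -/

namespace Pool.Agent.Helper22.FC

open Complex

noncomputable section

/-! polygons as functions and as lists -/

theorem mem_cyc_ofFn {n : ℕ} {v : Fin (n + 3) → ℂ} {e : ℂ × ℂ} :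
    e ∈ cyc (List.ofFn v) ↔ ∃ i, (v i, v (i + 1)) = e := by
  rw [cyc_ofFn_K5, List.mem_ofFn]

theorem curve_ofFn {n : ℕ} (v : Fin (n + 3) → ℂ) : curve (List.ofFn v) = boundary v := by
  ext x
  simp only [boundary, edge, Set.mem_iUnion]
  constructor
  · rintro ⟨e, he, hx⟩
    obtain ⟨i, rfl⟩ := mem_cyc_ofFn.1 he
    exact ⟨i, hx⟩
  · rintro ⟨i, hx⟩
    exact ⟨(v i, v (i + 1)), mem_cyc_ofFn.2 ⟨i, rfl⟩, hx⟩

theorem simple_ofFn {n : ℕ} {v : Fin (n + 3) → ℂ} (hv : SimplePolygon v) :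
    SimpleL (List.ofFn v) := by
  refine ⟨by simp, List.nodup_ofFn.2 hv.inj, ?_⟩
  intro e he e' he' hne
  obtain ⟨i, rfl⟩ := mem_cyc_ofFn.1 he
  obtain ⟨j, rfl⟩ := mem_cyc_ofFn.1 he'
  refine hv.simple i j ?_
  rintro rfl
  exact hne rfl

/-! the region -/

theorem simple_edge_ne {U : List ℂ} (hU : SimpleL U) : ∀ e ∈ cyc U, e.1 ≠ e.2 := by
  intro e he h
  obtain ⟨h3, hnd, _⟩ := hU
  obtain ⟨i, hi, rfl⟩ := List.getElem_of_mem he
  have hlen : i < U.length := by simpa [cyc] using hi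
  have h1 : ((cyc U)[i]).1 = U[i] := by simp [cyc]
  have h2 : ((cyc U)[i]).2 = U[(i + 1) % U.length]'(Nat.mod_lt _ (by omega)) := by
    simp [cyc, List.getElem_rotate]
  rw [h1, h2] at h
  have h4 := (List.Nodup.getElem_inj_iff hnd).1 h
  rcases Nat.lt_or_ge (i + 1) U.length with h5 | h5
  · rw [Nat.mod_eq_of_lt h5] at h4; omega
  · have h6 : i + 1 = U.length := by omega
    rw [h6, Nat.mod_self] at h4
    omega

/-- near each point of a simple polygon there are points where the winding angle differs -/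
theorem two_sides {U : List ℂ} (hU : SimpleL U) {x : ℂ} (hx : x ∈ curve U) {ε : ℝ} (hε : 0 < ε) :
    ∃ z₁ ∈ Metric.ball x ε, ∃ z₂ ∈ Metric.ball x ε, z₁ ∉ curve U ∧ z₂ ∉ curve U ∧
      wnd z₁ U = wnd z₂ U + 2 * Real.pi := by
  obtain ⟨e, he, hxe⟩ := hx
  have hab : e.1 ≠ e.2 := simple_edge_ne hU e he
  -- a point of the open edge near x
  have hcl : x ∈ closure (openSegment ℝ e.1 e.2) := segment_subset_closure_openSegment hxe
  obtain ⟨y, hyo, hyx⟩ := Metric.mem_closure_iff.1 hcl (ε / 2) (by positivity)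
  have hys : y ∈ segment ℝ e.1 e.2 := openSegment_subset_segment ℝ _ _ hyo
  have hne1 : y ≠ e.1 := by
    intro h
    rw [h] at hyo
    exact hab (left_mem_openSegment_iff.1 hyo)
  have hne2 : y ≠ e.2 := by
    intro h
    rw [h] at hyo
    exact hab (right_mem_openSegment_iff.1 hyo)
  have hperm : (cyc U).Perm ((e.1, e.2) :: (cyc U).erase e) := by
    have := List.perm_cons_erase he
    simpa using this
  have hother : ∀ e' ∈ (cyc U).erase e, y ∉ segment ℝ e'.1 e'.2 := by
    intro e' he' hxe'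
    have h1 := (cyc_nodup hU.2.1).mem_erase_iff.1 he'
    have h2 := hU.2.2 e he e' h1.2 h1.1.symm ⟨hys, hxe'⟩
    rcases h2.1 with h3 | h3
    · exact hne1 h3
    · exact hne2 h3
  obtain ⟨δ, hδ, hj⟩ := wndFacts.jump hab hperm hyo hother
  have hside0 : side e.1 e.2 y = 0 := side_seg hys
  have hshift : ∀ c : ℝ, side e.1 e.2 (y + c * I * (e.2 - e.1)) =
      c * Complex.normSq (e.2 - e.1) := by
    intro c
    have : side e.1 e.2 (y + c * I * (e.2 - e.1)) =
        side e.1 e.2 y + c * Complex.normSq (e.2 - e.1) := by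
      unfold side
      rw [Complex.normSq_apply]
      simp only [Complex.mul_im, Complex.sub_re, Complex.sub_im, Complex.add_re,
        Complex.add_im, Complex.mul_re, Complex.ofReal_re, Complex.ofReal_im, Complex.conj_re,
        Complex.conj_im, Complex.I_re, Complex.I_im]
      ring
    rw [this, hside0, zero_add]
  have hnsq : 0 < Complex.normSq (e.2 - e.1) := Complex.normSq_pos.2 (sub_ne_zero.2 hab.symm)
  have hnrm : 0 < ‖e.2 - e.1‖ := norm_pos_iff.2 (sub_ne_zero.2 hab.symm)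
  set ε' := min δ (ε / 2) with hε'
  have hε'pos : 0 < ε' := lt_min hδ (by positivity)
  set c0 : ℝ := ε' / (2 * ‖e.2 - e.1‖) with hc0
  have hc0pos : 0 < c0 := by positivity
  have hc0lt : c0 * ‖e.2 - e.1‖ < ε' := by
    rw [hc0]
    have : ε' / (2 * ‖e.2 - e.1‖) * ‖e.2 - e.1‖ = ε' / 2 := by field_simp
    rw [this]; linarith
  have hdist : ∀ c : ℝ, |c| = c0 → ‖(y + c * I * (e.2 - e.1)) - y‖ < ε' := by
    intro c hc'
    have : y + c * I * (e.2 - e.1) - y = c * I * (e.2 - e.1) := by ring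
    rw [this, norm_mul, norm_mul, Complex.norm_I, Complex.norm_real, Real.norm_eq_abs, mul_one,
      hc']
    exact hc0lt
  have hball : ∀ z, ‖z - y‖ < ε' → z ∈ Metric.ball x ε ∧ ‖z - y‖ < δ := by
    intro z hz
    refine ⟨?_, lt_of_lt_of_le hz (min_le_left _ _)⟩
    rw [Metric.mem_ball]
    have h1 : dist z y < ε / 2 := by
      rw [dist_eq_norm]; exact lt_of_lt_of_le hz (min_le_right _ _)
    have h2 : dist y x < ε / 2 := by rw [dist_comm]; exact hyx
    have := dist_triangle z y x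
    linarith
  have ha1 := hdist c0 (abs_of_pos hc0pos)
  have ha2 := hdist (-c0) (by rw [abs_neg, abs_of_pos hc0pos])
  obtain ⟨hb1, hd1⟩ := hball _ ha1
  obtain ⟨hb2, hd2⟩ := hball _ ha2
  have hs1 : 0 < side e.1 e.2 (y + (c0 : ℝ) * I * (e.2 - e.1)) := by rw [hshift]; positivity
  have hs2 : side e.1 e.2 (y + ((-c0 : ℝ) : ℂ) * I * (e.2 - e.1)) < 0 := by
    rw [hshift]
    have := mul_pos hc0pos hnsq
    linarith
  obtain ⟨g1, g2, g3⟩ := hj _ _ hd1 hd2 hs1 hs2
  exact ⟨_, hb1, _, hb2, g1, g2, g3⟩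

theorem curve_nonempty {U : List ℂ} (hU : SimpleL U) : (curve U).Nonempty := by
  obtain ⟨h3, _⟩ := hU
  have hne : cyc U ≠ [] := by
    intro h
    have : (cyc U).length = 0 := by rw [h]; rfl
    simp [cyc] at this
    rw [this] at h3
    simp at h3
  obtain ⟨e, he⟩ := List.exists_mem_of_ne_nil _ hne
  exact ⟨e.1, e, he, left_mem_segment ℝ _ _⟩

/-- each simple polygon or its reverse is positively oriented -/
theorem orient {V : List ℂ} (hV : SimpleL V) : ∃ U : List ℂ, (U = V ∨ U = V.reverse) ∧ SimpleL U ∧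
    curve U = curve V ∧ (∀ x, x ∈ U ↔ x ∈ V) ∧
    (∀ x, x ∉ curve U → wnd x U = 0 ∨ wnd x U = 2 * Real.pi) ∧ Good U := by
  obtain ⟨s, hs, hw, hg⟩ := simple_good' hV
  rcases hs with rfl | rfl
  · refine ⟨V, Or.inl rfl, hV, rfl, fun x => Iff.rfl, ?_, hg rfl⟩
    intro x hx
    simpa using hw x hx
  · have hR := simple_reverse hV
    have hc := curve_reverse V
    obtain ⟨s', hs', hw', hg'⟩ := simple_good' hR
    have hw1 : ∀ x, x ∉ curve V.reverse → wnd x V.reverse = 0 ∨ wnd x V.reverse = 2 * Real.pi := by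
      intro x hx
      rw [hc] at hx
      rw [wnd_reverse wndFacts hx]
      rcases hw x hx with h | h
      · left; rw [h]; simp
      · right; rw [h]; ring
    rcases hs' with rfl | rfl
    · exact ⟨V.reverse, Or.inr rfl, hR, hc, fun x => by simp, hw1, hg' rfl⟩
    · exfalso
      obtain ⟨x, hx⟩ := curve_nonempty hR
      obtain ⟨z₁, _, z₂, _, h1, h2, h3⟩ := two_sides hR hx one_pos
      have hpi := Real.pi_pos
      have a1 := hw1 z₁ h1
      have a2 := hw' z₁ h1
      have b1 := hw1 z₂ h2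
      have b2 := hw' z₂ h2
      rcases a1 with a1 | a1 <;> rcases a2 with a2 | a2 <;> rcases b1 with b1 | b1 <;>
        rcases b2 with b2 | b2 <;> linarith

/-- the closed region of points with winding angle `2π` -/
theorem region_exists {U : List ℂ} (hU : SimpleL U)
    (hw : ∀ x, x ∉ curve U → wnd x U = 0 ∨ wnd x U = 2 * Real.pi) :
    ∃ P : Set ℂ, IsCompact P ∧ closure (interior P) = P ∧ frontier P = curve U := by
  have hpi := Real.pi_pos
  set P : Set ℂ := {x | x ∈ curve U ∨ wnd x U = 2 * Real.pi} with hP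
  have hloc : ∀ x, x ∉ curve U → ∃ ε > 0, ∀ y ∈ Metric.ball x ε, y ∉ curve U ∧
      wnd y U = wnd x U := by
    intro x hx
    obtain ⟨ε, hε, hb⟩ := Metric.isOpen_iff.1 (wndFacts.closed U).isOpen_compl x hx
    refine ⟨ε, hε, fun y hy => ⟨hb hy, ?_⟩⟩
    exact wndFacts.const (convex_ball x ε).isPreconnected
      (Set.disjoint_left.2 fun z hz hzc => hb hz hzc) hy (Metric.mem_ball_self hε)
  have hclosed : IsClosed P := by
    rw [← isOpen_compl_iff, Metric.isOpen_iff]
    intro x hx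
    have hx1 : x ∉ curve U := fun h => hx (Or.inl h)
    have hx2 : wnd x U ≠ 2 * Real.pi := fun h => hx (Or.inr h)
    obtain ⟨ε, hε, h⟩ := hloc x hx1
    refine ⟨ε, hε, fun y hy hyP => ?_⟩
    obtain ⟨h1, h2⟩ := h y hy
    rcases hyP with h3 | h3
    · exact h1 h3
    · exact hx2 (by rw [← h2]; exact h3)
  have hint : ∀ x, x ∉ curve U → wnd x U = 2 * Real.pi → x ∈ interior P := by
    intro x hx hwx
    obtain ⟨ε, hε, h⟩ := hloc x hx
    rw [mem_interior_iff_mem_nhds, Metric.mem_nhds_iff]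
    exact ⟨ε, hε, fun y hy => Or.inr (by rw [(h y hy).2]; exact hwx)⟩
  obtain ⟨M, hM⟩ : ∃ M : ℝ, ∀ v ∈ U, ‖v‖ ≤ M := by
    have hfin : (Set.Finite {v | v ∈ U}) := List.finite_toSet U
    obtain ⟨M, hM⟩ := hfin.isBounded.exists_norm_le
    exact ⟨M, fun v hv => hM v hv⟩
  have hM0 : 0 ≤ M := by
    obtain ⟨h3, _⟩ := hU
    have : U ≠ [] := by rintro rfl; simp at h3
    obtain ⟨v, hv⟩ := List.exists_mem_of_ne_nil _ this
    exact le_trans (norm_nonneg v) (hM v hv)
  have hcb : curve U ⊆ Metric.closedBall 0 M := by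
    rintro x ⟨e, he, hx⟩
    have h1 : e.1 ∈ Metric.closedBall (0 : ℂ) M := by
      rw [mem_closedBall_zero_iff]; exact hM _ (cyc_fst_mem he)
    have h2 : e.2 ∈ Metric.closedBall (0 : ℂ) M := by
      rw [mem_closedBall_zero_iff]; exact hM _ (cyc_snd_mem he)
    exact (convex_closedBall (0 : ℂ) M).segment_subset h1 h2 hx
  have hbd : P ⊆ Metric.closedBall 0 M := by
    rintro x (hx | hx)
    · exact hcb hx
    · by_contra hcon
      rw [mem_closedBall_zero_iff, not_le] at hcon
      have h0 : wnd x U = 0 := by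
        refine wndFacts.half (u := -x) fun v hv => ?_
        have h1 : ((v - x) * (starRingEnd ℂ) (-x)).re = ‖x‖ ^ 2 - (v * (starRingEnd ℂ) x).re := by
          rw [← Complex.normSq_eq_norm_sq, Complex.normSq_apply]
          simp only [map_neg, Complex.mul_re, Complex.sub_re, Complex.sub_im, Complex.neg_re,
            Complex.neg_im, Complex.conj_re, Complex.conj_im]
          ring
        have h2 : (v * (starRingEnd ℂ) x).re ≤ ‖v‖ * ‖x‖ := by
          refine le_trans (Complex.re_le_norm _) ?_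
          rw [norm_mul, Complex.norm_conj]
        have h3 := hM v hv
        have h4 : 0 < ‖x‖ := lt_of_le_of_lt hM0 hcon
        rw [h1]
        nlinarith
      rw [h0] at hx
      linarith
  have hcompact : IsCompact P := (isCompact_closedBall (0 : ℂ) M).of_isClosed_subset hclosed hbd
  have hsides : ∀ x ∈ curve U, ∀ ε > 0, (∃ z ∈ Metric.ball x ε, z ∈ interior P) ∧
      ∃ z ∈ Metric.ball x ε, z ∉ P := by
    intro x hx ε hε
    obtain ⟨z₁, hz1, z₂, hz2, h1, h2, h3⟩ := two_sides hU hx hε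
    have a1 := hw z₁ h1
    have a2 := hw z₂ h2
    have b1 : wnd z₁ U = 2 * Real.pi := by
      rcases a1 with a1 | a1
      · exfalso
        rcases a2 with a2 | a2 <;> linarith
      · exact a1
    have b2 : wnd z₂ U = 0 := by linarith
    refine ⟨⟨z₁, hz1, hint z₁ h1 b1⟩, ⟨z₂, hz2, ?_⟩⟩
    rintro (h | h)
    · exact h2 h
    · linarith
  refine ⟨P, hcompact, ?_, ?_⟩
  · refine Set.Subset.antisymm (hclosed.closure_interior_subset) ?_
    intro x hx
    by_cases hxc : x ∈ curve U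
    · rw [Metric.mem_closure_iff]
      intro ε hε
      obtain ⟨⟨z, hz, hzi⟩, _⟩ := hsides x hxc ε hε
      exact ⟨z, hzi, by rw [dist_comm]; exact hz⟩
    · rcases hx with hx | hx
      · exact absurd hx hxc
      · exact subset_closure (hint x hxc hx)
  · rw [hclosed.frontier_eq]
    ext x
    constructor
    · rintro ⟨h1, h2⟩
      by_contra hxc
      rcases h1 with h1 | h1
      · exact hxc h1
      · exact h2 (hint x hxc h1)
    · intro hx
      refine ⟨Or.inl hx, fun hi => ?_⟩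
      rw [mem_interior_iff_mem_nhds, Metric.mem_nhds_iff] at hi
      obtain ⟨ε, hε, hb⟩ := hi
      obtain ⟨_, ⟨z, hz, hzP⟩⟩ := hsides x hx ε hε
      exact hzP (hb hz)

theorem region_unique {U : List ℂ} (hU : SimpleL U)
    (hw : ∀ x, x ∉ curve U → wnd x U = 0 ∨ wnd x U = 2 * Real.pi) {P Q : Set ℂ}
    (hP : IsCompact P ∧ closure (interior P) = P ∧ frontier P = curve U)
    (hQ : IsCompact Q ∧ closure (interior Q) = Q ∧ frontier Q = curve U) : Q = P := by
  obtain ⟨p1, p2, p3⟩ := hP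
  obtain ⟨q1, q2, q3⟩ := hQ
  have hp := region_eq wndFacts hU hw p1 p2 p3
  have hq := region_eq wndFacts hU hw q1 q2 q3
  ext x
  by_cases hx : x ∈ curve U
  · exact ⟨fun _ => p1.isClosed.frontier_subset (by rw [p3]; exact hx),
      fun _ => q1.isClosed.frontier_subset (by rw [q3]; exact hx)⟩
  · rw [hp x hx, hq x hx]

/-! the final stack over the region -/

theorem place_rad {s τ : ℂ} {W : List ℝ} {d : ℂ × ℝ} (h : d ∈ place s τ W) : d.2 ∈ W := by
  induction W generalizing s with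
  | nil => simp [place] at h
  | cons w W ih =>
    simp only [place, List.mem_cons] at h
    rcases h with rfl | h
    · simp
    · exact List.mem_cons_of_mem _ (ih h)

theorem exists_fst {U : List ℂ} {P : Set ℂ} (hU : SimpleL U) (hg : Good U)
    (hw : ∀ x, x ∉ curve U → wnd x U = 0 ∨ wnd x U = 2 * Real.pi)
    (hc : IsCompact P) (hr : closure (interior P) = P) (hf : frontier P = curve U) :
    ∃ (R : ℝ) (D : List (ℂ × ℝ)), Nonempty (FSt D P) ∧ curve (D.map Prod.fst) = curve U ∧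
      (∀ d ∈ D, d.2 ≤ R) ∧ ∀ x, (∃ d ∈ D, d.2 = R ∧ d.1 = x) ↔ x ∈ U := by
  obtain ⟨R, hR, K, hK, hKR, hfit, S, hS1, hS2⟩ := final_good hU hg
  obtain ⟨hT1, hT2, hT3⟩ := tips_simple wndFacts hU hK hfit
  have hw' : ∀ x, x ∉ curve ((tips K).map Prod.fst) →
      wnd x ((tips K).map Prod.fst) = 0 ∨ wnd x ((tips K).map Prod.fst) = 2 * Real.pi := by
    intro x hx
    rw [hT2] at hx
    rw [hT3 x hx]
    exact hw x hx
  have hf' : frontier P = curve ((tips K).map Prod.fst) := by rw [hT2]; exact hf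
  have hPe := region_eq wndFacts hT1 hw' hc hr hf'
  refine ⟨R, tips K, ⟨?_⟩, hT2, ?_, ?_⟩
  · exact { S := S, hflag := hS1, hB := hS2, hU := hT1, hcpt := hc, hreg := hr, hfr := hf',
            disj := fun k l hkl => faces_disjoint pcFacts S hw' hkl,
            cover := faces_cover pcFacts S hw' hPe hc hr hf' }
  · intro d hd
    obtain ⟨e, he, hd⟩ := List.mem_flatMap.1 hd
    simp only [edgeTips, List.mem_cons] at hd
    have hmem := cyc_fst_mem he
    rcases hd with rfl | hd
    · exact le_of_eq (hKR _ hmem).1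
    · exact ((hKR _ hmem).2 _ (place_rad hd)).2.le
  · intro x
    constructor
    · rintro ⟨d, hd, hdR, rfl⟩
      obtain ⟨e, he, hd⟩ := List.mem_flatMap.1 hd
      simp only [edgeTips, List.mem_cons] at hd
      have hmem := cyc_fst_mem he
      rcases hd with rfl | hd
      · rw [← hK]
        exact List.mem_map.2 ⟨e.1, hmem, rfl⟩
      · have := ((hKR _ hmem).2 _ (place_rad hd)).2
        rw [hdR] at this
        exact absurd this (lt_irrefl _)
    · intro hx
      rw [← hK] at hx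
      obtain ⟨k, hk, rfl⟩ := List.mem_map.1 hx
      obtain ⟨e, he, rfl⟩ := mem_cyc_of_mem hk
      refine ⟨(e.1.1, e.1.2.1), List.mem_flatMap.2 ⟨e, he, ?_⟩, (hKR _ hk).1, rfl⟩
      simp [edgeTips]

/-! the flat folding -/

/-- the folding map of the final stack -/
def fmap {D : List (ℂ × ℝ)} {P : Set ℂ} (F : FSt D P) (x : ℂ) : ℂ := by
  classical
  exact if h : ∃ i, x ∈ (F.S.pc i).face then (F.S.pc h.choose).σ x else 0

/-- two faces agree on common points -/
def Agree : Prop := ∀ {D : List (ℂ × ℝ)} {P : Set ℂ} (F : FSt D P) {i j : F.S.ι} {x : ℂ},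
  x ∈ (F.S.pc i).face → x ∈ (F.S.pc j).face → (F.S.pc i).σ x = (F.S.pc j).σ x

theorem fmap_eq (A : Agree) {D : List (ℂ × ℝ)} {P : Set ℂ} (F : FSt D P) (i : F.S.ι) (x : ℂ)
    (hx : x ∈ (F.S.pc i).face) : fmap F x = (F.S.pc i).σ x := by
  have h : ∃ i, x ∈ (F.S.pc i).face := ⟨i, hx⟩
  unfold fmap
  rw [dif_pos h]
  exact A F h.choose_spec hx

theorem fst_folding (A : Agree) {D : List (ℂ × ℝ)} {P : Set ℂ} (F : FSt D P) :
    ∃ G : FlatFolding P, G.f = fmap F := by
  have hok : ∀ k, (F.S.pc k).Ok := fun k => (F.S.ok k).1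
  have hcases : ∀ (i j : F.S.ι) (x : ℂ), Meets (fun k => (F.S.pc k).face) i j x →
      (F.S.RS i j ∧ (fmap F x).re = 0 ∧ (F.S.pc i).y0 < (fmap F x).im ∧
        (fmap F x).im < (F.S.pc i).y1) ∨
      (F.S.RB i j ∧ 0 < (fmap F x).re ∧ (F.S.pc i).y0 < (fmap F x).im ∧
        (fmap F x).im < (F.S.pc i).y1) ∨
      (F.S.RL i j ∧ (fmap F x).im = (F.S.pc i).y0 ∧ 0 < (fmap F x).re ∧
        (fmap F x).re < (F.S.pc i).ρ0) ∨
      (F.S.RF i j ∧ (fmap F x).im = (F.S.pc i).y1 ∧ 0 < (fmap F x).re ∧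
        (fmap F x).re < (F.S.pc i).ρ1) ∨
      (F.S.RF j i ∧ (fmap F x).im = (F.S.pc i).y0 ∧ 0 < (fmap F x).re ∧
        (fmap F x).re < (F.S.pc i).ρ0) := by
    intro i j x h
    rw [fmap_eq A F i x h.2.1]
    exact meets_cases pcFacts F h
  obtain ⟨n1, n2, n3⟩ := noncross pcFacts F (fmap F) (fmap_eq A F) hcases
  have : Finite F.S.ι := @Finite.of_fintype _ F.S.fin
  refine ⟨{ f := fmap F, ι := F.S.ι, fin := inferInstance, face := fun k => (F.S.pc k).face,
            polygon := ?_, solid := ?_, disjoint := F.disj, cover := F.cover, continuous := ?_,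
            isometric := ?_, level := F.S.z, level_injective := F.S.z_inj, crease_face := n1,
            folded_crease := n2, flat_crease := n3 }, rfl⟩
  · intro k
    refine ⟨{(F.S.pc k).s0, (F.S.pc k).e0, (F.S.pc k).e1, (F.S.pc k).s1}, ?_⟩
    rw [pcFacts.face_hull (hok k)]
    simp
  · intro k
    have h1 : ((F.S.pc k).face).Nonempty := by
      rw [pcFacts.face_hull (hok k)]
      exact ⟨(F.S.pc k).s0, subset_convexHull ℝ _ (by simp)⟩
    rw [← pcFacts.face_closure (hok k)] at h1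
    exact closure_nonempty_iff.1 h1
  · refine ContinuousOn.mono (s := ⋃ k, (F.S.pc k).face) ?_ F.cover.ge
    refine (locallyFinite_of_finite _).continuousOn_iUnion ?_ ?_
    · intro k
      rw [← pcFacts.face_closure (hok k)]
      exact isClosed_closure
    · intro k
      refine ContinuousOn.congr (pcFacts.isom (hok k)).continuous.continuousOn ?_
      intro x hx
      exact fmap_eq A F k x hx
  · intro k
    refine ⟨⟨Equiv.ofBijective (F.S.pc k).σ ⟨(pcFacts.isom (hok k)).injective,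
      pcFacts.surj (hok k)⟩, pcFacts.isom (hok k)⟩, ?_⟩
    intro x hx
    exact fmap_eq A F k x hx

/-- the real axis -/
def axis : AffineSubspace ℝ ℂ := (Submodule.span ℝ {(1 : ℂ)}).toAffineSubspace

theorem mem_axis {x : ℂ} : x ∈ axis ↔ x.im = 0 := by
  unfold axis
  rw [Submodule.mem_toAffineSubspace, Submodule.mem_span_singleton]
  constructor
  · rintro ⟨a, rfl⟩; simp
  · intro h
    exact ⟨x.re, by apply Complex.ext <;> simp [h]⟩

theorem finrank_axis : Module.finrank ℝ axis.direction = 1 := by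
  unfold axis
  rw [Submodule.toAffineSubspace_direction]
  exact finrank_span_singleton one_ne_zero

theorem main_aux (A : Agree) {n : ℕ} (v : Fin (n + 3) → ℂ) (hv : SimplePolygon v) :
    ∃ P : Set ℂ, IsPaper v P ∧ (∀ Q, IsPaper v Q → Q = P) ∧
      ∃ (F : FlatFolding P) (L : AffineSubspace ℝ ℂ) (p : ℂ),
        Module.finrank ℝ L.direction = 1 ∧ p ∈ L ∧
        {x ∈ P | F.f x ∈ L} = boundary v ∧ {x ∈ P | F.f x = p} = Set.range v := by
  obtain ⟨U, -, hU, hUc, hUm, hw, hg⟩ := orient (simple_ofFn hv)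
  rw [curve_ofFn] at hUc
  obtain ⟨P, hP1, hP2, hP3⟩ := region_exists hU hw
  refine ⟨P, ⟨hP1, hP2, by rw [hP3, hUc]⟩, ?_, ?_⟩
  · intro Q hQ
    exact region_unique hU hw ⟨hP1, hP2, hP3⟩ ⟨hQ.compact, hQ.regular, by rw [hQ.bdry, hUc]⟩
  · obtain ⟨R, D, ⟨F⟩, hD1, hD2, hD3⟩ := exists_fst hU hg hw hP1 hP2 hP3
    obtain ⟨G, hG⟩ := fst_folding A F
    obtain ⟨l1, l2⟩ := levels pcFacts F (fmap F) (fmap_eq A F) hD2
    have hsub : boundary v ⊆ P := by
      rw [← hUc, ← hP3]; exact hP1.isClosed.frontier_subset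
    refine ⟨G, axis, (R : ℂ), finrank_axis, mem_axis.2 (Complex.ofReal_im R), ?_, ?_⟩
    · ext x
      rw [Set.mem_sep_iff, hG, mem_axis]
      constructor
      · rintro ⟨h1, h2⟩
        rw [← hUc, ← hD1]
        exact (l1 x h1).1 h2
      · intro h
        refine ⟨hsub h, (l1 x (hsub h)).2 ?_⟩
        rw [hD1, hUc]; exact h
    · ext x
      rw [Set.mem_sep_iff, hG]
      constructor
      · rintro ⟨h1, h2⟩
        have h3 := (hD3 x).1 ((l2 x h1).1 h2)
        rw [hUm, List.mem_ofFn] at h3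
        exact h3
      · intro h
        have h3 : x ∈ P := by
          refine hsub ?_
          obtain ⟨i, rfl⟩ := h
          exact Set.mem_iUnion.2 ⟨i, left_mem_segment ℝ _ _⟩
        refine ⟨h3, (l2 x h3).2 ((hD3 x).2 ?_)⟩
        rw [hUm, List.mem_ofFn]
        exact h

theorem agree : Agree := fun F _ _ _ hi hj =>
  faces_agree pcFacts F (fun _ _ _ h => meets_agree pcFacts F h) hi hj

/-- the main theorem -/
theorem main {n : ℕ} (v : Fin (n + 3) → ℂ) (hv : SimplePolygon v) :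
    ∃ P : Set ℂ, IsPaper v P ∧ (∀ Q, IsPaper v Q → Q = P) ∧
      ∃ (F : FlatFolding P) (L : AffineSubspace ℝ ℂ) (p : ℂ),
        Module.finrank ℝ L.direction = 1 ∧ p ∈ L ∧
        {x ∈ P | F.f x ∈ L} = boundary v ∧ {x ∈ P | F.f x = p} = Set.range v :=
  main_aux agree v hv

end

end Pool.Agent.Helper22.FC
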