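import Pool.Agent.Helper22.FC.Base

namespace Pool.Agent.Helper22.FC

open Complex

noncomputable section

/-- the conclusion of the theorem on extreme vertices, see `near_extreme` -/
def NearExtreme : Prop := ∀ {a b c u : ℂ} {M : List ℂ}, SimpleL ([b, c] ++ M ++ [a]) →
    (∀ v ∈ [c] ++ M ++ [a], 0 < ((v - b) * (starRingEnd ℂ) u).re) →
    side a b c ≠ 0 ∧ ∃ δ > 0,
      (∀ x, ‖x - b‖ < δ → (∃ α β : ℝ, 0 < α ∧ 0 < β ∧ x = b + α * (c - b) + β * (a - b)) →
        x ∉ curve ([b, c] ++ M ++ [a]) ∧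
        wnd x ([b, c] ++ M ++ [a]) = if 0 < side a b c then 2 * Real.pi else - (2 * Real.pi)) ∧
      (∀ x, ‖x - b‖ < δ → (¬ ∃ α β : ℝ, 0 ≤ α ∧ 0 ≤ β ∧ x = b + α * (c - b) + β * (a - b)) →
        x ∉ curve ([b, c] ++ M ++ [a]) ∧ wnd x ([b, c] ++ M ++ [a]) = 0)

/-- consecutive pairs of a list -/
def pth1329 : List ℂ → List (ℂ × ℂ)
  | [] => []
  | [_] => []
  | a :: b :: L => (a, b) :: pth1329 (b :: L)

theorem pth_append1329 (L : List ℂ) (x : ℂ) (L' : List ℂ) :
    pth1329 (L ++ x :: L') = pth1329 (L ++ [x]) ++ pth1329 (x :: L') := by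
  induction L with
  | nil => simp [pth1329]
  | cons a L ih =>
    cases L with
    | nil => simp [pth1329]
    | cons a' L =>
      simp only [List.cons_append, pth1329]
      rw [← List.cons_append, ih]
      simp

theorem zip_pth1329 (L : List ℂ) (x y : ℂ) :
    (x :: L).zip (L ++ [y]) = pth1329 (x :: (L ++ [y])) := by
  induction L generalizing x with
  | nil => simp [pth1329]
  | cons a L ih =>
    simp only [List.cons_append, List.zip_cons_cons, pth1329]
    rw [ih]

theorem cyc_cons1329 (x : ℂ) (L : List ℂ) : cyc (x :: L) = pth1329 (x :: (L ++ [x])) := by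
  unfold cyc
  rw [← zip_pth1329]
  simp

theorem pth_fst1329 {L : List ℂ} {x : ℂ} {e : ℂ × ℂ} (h : e ∈ pth1329 (L ++ [x])) : e.1 ∈ L := by
  induction L with
  | nil => simp [pth1329] at h
  | cons a L ih =>
    cases L with
    | nil => simp [pth1329] at h; simp [h]
    | cons a' L =>
      simp only [List.cons_append, pth1329, List.mem_cons] at h
      rcases h with h | h
      · simp [h]
      · exact List.mem_cons_of_mem _ (ih (by simpa using h))

theorem pth_snd1329 {L : List ℂ} {x : ℂ} {e : ℂ × ℂ} (h : e ∈ pth1329 (x :: L)) : e.2 ∈ L := by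
  induction L generalizing x with
  | nil => simp [pth1329] at h
  | cons a L ih =>
    simp only [pth1329, List.mem_cons] at h
    rcases h with h | h
    · simp [h]
    · exact List.mem_cons_of_mem _ (ih h)

theorem cyc_fst1329 {V : List ℂ} {v : ℂ} (h : v ∈ V) : ∃ e ∈ cyc V, e.1 = v := by
  have : (cyc V).map Prod.fst = V := by
    unfold cyc
    rw [List.map_fst_zip]
    simp
  rw [← this] at h
  simpa using h

/-- constancy along a chain of segments -/
theorem chain1329 (f : ℂ → ℝ) (P : ℂ → Prop) (L : List ℂ) (x : ℂ) :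
    ∀ y, (∀ e ∈ pth1329 (y :: (L ++ [x])), ∀ z ∈ segment ℝ e.1 e.2, ∀ z' ∈ segment ℝ e.1 e.2,
      P z → P z' → f z = f z') → (∀ v ∈ L, P v) →
    ∃ k, ∀ e ∈ pth1329 (y :: (L ++ [x])), ∀ z ∈ segment ℝ e.1 e.2, P z → f z = k := by
  induction L with
  | nil =>
    intro y h _
    simp only [List.nil_append, pth1329, List.mem_singleton, forall_eq] at h ⊢
    by_cases hz : ∃ z ∈ segment ℝ y x, P z
    · obtain ⟨z, hz, hP⟩ := hz
      exact ⟨f z, fun z' hz' hP' => h z' hz' z hz hP' hP⟩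
    · push Not at hz
      exact ⟨0, fun z hz' hP => absurd hP (hz z hz')⟩
  | cons a L ih =>
    intro y h hP
    obtain ⟨k, hk⟩ := ih a (fun e he => h e (by simp only [List.cons_append, pth1329]; exact List.mem_cons_of_mem _ he))
      (fun v hv => hP v (List.mem_cons_of_mem _ hv))
    refine ⟨k, ?_⟩
    have hPa := hP a (by simp)
    have hka : f a = k := by
      cases L with
      | nil => exact hk (a, x) (by simp [pth1329]) a (left_mem_segment ℝ _ _) hPa
      | cons a' L => exact hk (a, a') (by simp [pth1329]) a (left_mem_segment ℝ _ _) hPa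
    intro e he z hz hPz
    simp only [List.cons_append, pth1329, List.mem_cons] at he
    rcases he with he | he
    · rw [← hka]
      refine h e ?_ z hz a ?_ hPz hPa
      · simp [he, pth1329]
      · rw [he]; exact right_mem_segment ℝ _ _
    · exact hk e he z hz hPz

theorem seg_aux1329 {u v z z' w : ℂ} (hz : z ∈ segment ℝ u v) (hz' : z' ∈ segment ℝ u v)
    (hw : w ∈ segment ℝ u v → w = u ∨ w = v) (h1 : z ≠ w) (h2 : z' ≠ w) : w ∉ segment ℝ z z' := by
  intro hmem
  have hsub : segment ℝ z z' ⊆ segment ℝ u v := (convex_segment u v).segment_subset hz hz'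
  have hws := hsub hmem
  have hopen : w ∈ openSegment ℝ z z' := by
    rw [openSegment_eq_image, segment_eq_image] at *
    obtain ⟨t, ht, rfl⟩ := hmem
    refine ⟨t, ⟨lt_of_le_of_ne ht.1 ?_, lt_of_le_of_ne ht.2 ?_⟩, rfl⟩
    · rintro rfl; apply h1; simp
    · rintro rfl; apply h2; simp
  have hext : ∀ p, (p = u ∨ p = v) → p ∈ openSegment ℝ z z' → z = p := by
    intro p hp ho
    by_cases huv : u = v
    · subst huv
      rw [segment_same] at hz
      rcases hp with rfl | rfl <;> exact hz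
    · obtain ⟨α, β, hα, hβ, hαβ, h⟩ := ho
      obtain ⟨x1, y1, hx1, hy1, hxy1, h3⟩ := hz
      obtain ⟨x2, y2, hx2, hy2, hxy2, h4⟩ := hz'
      have hvu : v - u ≠ 0 := sub_ne_zero.mpr (Ne.symm huv)
      rcases hp with rfl | rfl
      · -- p = u
        have : ((α * y1 + β * y2 : ℝ) : ℂ) * (v - p) = 0 := by
          have e1 : x1 = 1 - y1 := by linarith
          have e2 : x2 = 1 - y2 := by linarith
          have e3 : α = 1 - β := by linarith
          rw [← h3, ← h4, e1, e2] at h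
          simp only [Complex.real_smul] at h
          rw [e3] at h ⊢
          push_cast at h ⊢
          linear_combination h
        have h5 : (α * y1 + β * y2 : ℝ) = 0 := by
          rcases mul_eq_zero.mp this with h | h
          · exact_mod_cast h
          · exact absurd h hvu
        have h6 : y1 = 0 := by
          have := mul_nonneg hα.le hy1
          have := mul_nonneg hβ.le hy2
          have : α * y1 = 0 := by linarith
          rcases mul_eq_zero.mp this with h | h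
          · linarith
          · exact h
        rw [← h3, h6]
        have : x1 = 1 := by linarith
        rw [this]; simp
      · have : ((α * x1 + β * x2 : ℝ) : ℂ) * (p - u) = 0 := by
          have e1 : y1 = 1 - x1 := by linarith
          have e2 : y2 = 1 - x2 := by linarith
          have e3 : α = 1 - β := by linarith
          rw [← h3, ← h4, e1, e2] at h
          simp only [Complex.real_smul] at h
          rw [e3] at h ⊢
          push_cast at h ⊢
          linear_combination -h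
        have h5 : (α * x1 + β * x2 : ℝ) = 0 := by
          rcases mul_eq_zero.mp this with h | h
          · exact_mod_cast h
          · exact absurd h hvu
        have h6 : x1 = 0 := by
          have := mul_nonneg hα.le hx1
          have := mul_nonneg hβ.le hx2
          have : α * x1 = 0 := by linarith
          rcases mul_eq_zero.mp this with h | h
          · linarith
          · exact h
        rw [← h3, h6]
        have : y1 = 1 := by linarith
        rw [this]; simp
  exact h1 (hext w (hw hws) hopen)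

theorem dir_aux1329 {v1 v2 v3 : ℂ} (h1 : v1 ≠ 0) (h2 : v2 ≠ 0) (h3 : v3 ≠ 0) :
    ∃ w : ℂ, (w * (starRingEnd ℂ) v1).im ≠ 0 ∧ (w * (starRingEnd ℂ) v2).im ≠ 0 ∧
      (w * (starRingEnd ℂ) v3).im ≠ 0 := by
  have key : ∀ v : ℂ, v ≠ 0 → {t : ℝ | ((⟨1, t⟩ : ℂ) * (starRingEnd ℂ) v).im = 0}.Finite := by
    intro v hv
    apply Set.Subsingleton.finite
    intro t ht t' ht'
    simp only [Set.mem_ofPred_eq, Complex.mul_im, Complex.conj_re, Complex.conj_im] at ht ht'
    have hre : v.re ≠ 0 := by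
      intro hre
      rw [hre] at ht
      apply hv
      apply Complex.ext
      · simpa using hre
      · have : v.im = 0 := by linarith
        simpa using this
    have : (t - t') * v.re = 0 := by linarith
    rcases mul_eq_zero.mp this with h | h
    · linarith
    · exact absurd h hre
  obtain ⟨t, ht⟩ := (((key v1 h1).union (key v2 h2)).union (key v3 h3)).infinite_compl.nonempty
  simp only [Set.mem_compl_iff, Set.mem_union, Set.mem_ofPred_eq, not_or] at ht
  exact ⟨⟨1, t⟩, ht.1.1, ht.1.2, ht.2⟩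

theorem side_seg1329 {b d z : ℂ} (hz : z ∈ segment ℝ b d) : side b d z = 0 := by
  obtain ⟨α, β, _, _, h, rfl⟩ := hz
  have e : α = 1 - β := by linarith
  subst e
  unfold side
  simp only [Complex.real_smul, Complex.mul_im, Complex.sub_re, Complex.sub_im, Complex.add_re,
    Complex.add_im, Complex.mul_re, Complex.conj_re, Complex.conj_im, Complex.ofReal_re,
    Complex.ofReal_im]
  ring

theorem side_add1329 (b d z w : ℂ) (τ : ℝ) :
    side b d (z + τ * w) = side b d z + τ * (w * (starRingEnd ℂ) (d - b)).im := by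
  unfold side
  simp only [Complex.mul_im, Complex.sub_re, Complex.sub_im, Complex.add_re,
    Complex.add_im, Complex.mul_re, Complex.conj_re, Complex.conj_im, Complex.ofReal_re,
    Complex.ofReal_im]
  ring

theorem seg_ray1329 {x w p : ℂ} {t : ℝ} (ht : 0 ≤ t) (hp : p ∈ segment ℝ x (x + t * w)) :
    ∃ t' : ℝ, 0 ≤ t' ∧ t' ≤ t ∧ p = x + t' * w := by
  obtain ⟨α, β, hα, hβ, h, rfl⟩ := hp
  refine ⟨β * t, by positivity, by nlinarith, ?_⟩
  have e : α = 1 - β := by linarith
  subst e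
  simp only [Complex.real_smul]
  push_cast
  ring

theorem ray1329 {C1 C2 : Set ℂ} {f1 f2 : ℂ → ℝ} {b d : ℂ} {s : ℝ} (hs : s = 1 ∨ s = -1)
    (hbd : b ≠ d)
    (hC1 : IsClosed C1) (hC2 : IsClosed C2) (hb1 : b ∈ C1) (hd1 : d ∈ C1)
    (hc1 : ∀ x y, Disjoint (segment ℝ x y) C1 → f1 x = f1 y)
    (hc2 : ∀ x y, Disjoint (segment ℝ x y) C2 → f2 x = f2 y)
    (hA : ∀ z ∈ C1, z ∉ segment ℝ b d → z ∉ C2 ∧ f2 z = 0)
    (hB : ∀ z ∈ C2, z ∉ segment ℝ b d → z ∉ C1 ∧ f1 z = 0)
    (hJ1 : ∀ z ∈ openSegment ℝ b d, ∃ δ > 0, ∀ x x', ‖x - z‖ < δ → ‖x' - z‖ < δ →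
      0 < side b d x → side b d x' < 0 → x ∉ C1 ∧ x' ∉ C1 ∧ f1 x' = f1 x + 2 * Real.pi)
    (hJ2 : ∀ z ∈ openSegment ℝ b d, ∃ δ > 0, ∀ x x', ‖x - z‖ < δ → ‖x' - z‖ < δ →
      0 < side b d x → side b d x' < 0 → x ∉ C2 ∧ x' ∉ C2 ∧ f2 x = f2 x' + 2 * Real.pi)
    (hv1 : ∀ x, x ∉ C1 → f1 x = 0 ∨ f1 x = 2 * Real.pi * s)
    (hv2 : ∀ x, x ∉ C2 → f2 x = 0 ∨ f2 x = 2 * Real.pi * s)
    (hfar : ∀ x w : ℂ, w ≠ 0 → ∃ t : ℝ, 0 < t ∧ f1 (x + t * w) = 0)
    {x : ℂ} (hx1 : x ∉ C1) (hx2 : x ∉ C2) : ¬ (f1 x = 2 * Real.pi * s ∧ f2 x = 2 * Real.pi * s) := by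
  rintro ⟨hf1, hf2⟩
  have hpi := Real.pi_pos
  have hne : 2 * Real.pi * s ≠ 0 := by
    rcases hs with rfl | rfl
    · positivity
    · intro h; linarith
  have hxb : b - x ≠ 0 := sub_ne_zero.mpr (by rintro rfl; exact hx1 hb1)
  have hxd : d - x ≠ 0 := sub_ne_zero.mpr (by rintro rfl; exact hx1 hd1)
  obtain ⟨w, hw1, hw2, hw3⟩ := dir_aux1329 hxb hxd (sub_ne_zero.mpr (Ne.symm hbd))
  have hw0 : w ≠ 0 := by rintro rfl; simp at hw1
  set T : Set ℝ := {t : ℝ | 0 ≤ t ∧ x + t * w ∈ C1 ∪ C2} with hT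
  have hTc : IsClosed T := by
    have h1 : IsClosed {t : ℝ | x + t * w ∈ C1 ∪ C2} := by
      apply (hC1.union hC2).preimage
      fun_prop
    exact isClosed_Ici.inter h1
  have hTn : T.Nonempty := by
    by_contra hemp
    rw [Set.not_nonempty_iff_eq_empty] at hemp
    obtain ⟨t, ht, hft⟩ := hfar x w hw0
    apply hne
    rw [← hf1, ← hft]
    apply hc1
    rw [Set.disjoint_left]
    intro p hp hpC
    obtain ⟨t', h0, _, rfl⟩ := seg_ray1329 ht.le hp
    have : t' ∈ T := ⟨h0, Or.inl hpC⟩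
    rw [hemp] at this
    exact this
  have hTb : BddBelow T := ⟨0, fun t ht => ht.1⟩
  set t0 := sInf T with ht0
  have ht0T : t0 ∈ T := hTc.csInf_mem hTn hTb
  have hmin : ∀ t ∈ T, t0 ≤ t := fun t ht => csInf_le hTb ht
  have ht0pos : 0 < t0 := by
    rcases ht0T.1.lt_or_eq with h | h
    · exact h
    · exfalso
      have := ht0T.2
      rw [← h] at this
      simp at this
      rcases this with h | h
      · exact hx1 h
      · exact hx2 h
  have hlt1 : ∀ t : ℝ, 0 ≤ t → t < t0 → x + t * w ∉ C1 := fun t h0 h1 h =>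
    absurd (hmin t ⟨h0, Or.inl h⟩) (not_le.mpr h1)
  have hlt2 : ∀ t : ℝ, 0 ≤ t → t < t0 → x + t * w ∉ C2 := fun t h0 h1 h =>
    absurd (hmin t ⟨h0, Or.inr h⟩) (not_le.mpr h1)
  have hf1' : ∀ t : ℝ, 0 ≤ t → (∀ t' : ℝ, 0 ≤ t' → t' ≤ t → x + t' * w ∉ C1) →
      f1 (x + t * w) = 2 * Real.pi * s := by
    intro t h0 h
    rw [← hf1]
    symm
    apply hc1
    rw [Set.disjoint_left]
    intro p hp hpC
    obtain ⟨t', h0', h1', rfl⟩ := seg_ray1329 h0 hp
    exact h t' h0' h1' hpC
  have hf2' : ∀ t : ℝ, 0 ≤ t → (∀ t' : ℝ, 0 ≤ t' → t' ≤ t → x + t' * w ∉ C2) →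
      f2 (x + t * w) = 2 * Real.pi * s := by
    intro t h0 h
    rw [← hf2]
    symm
    apply hc2
    rw [Set.disjoint_left]
    intro p hp hpC
    obtain ⟨t', h0', h1', rfl⟩ := seg_ray1329 h0 hp
    exact h t' h0' h1' hpC
  by_cases hzs : x + t0 * w ∈ segment ℝ b d
  swap
  · rcases ht0T.2 with h | h
    · obtain ⟨h2, h3⟩ := hA _ h hzs
      apply hne
      rw [← h3, hf2' t0 ht0pos.le]
      intro t' h0 h1
      rcases h1.lt_or_eq with h4 | h4
      · exact hlt2 t' h0 h4
      · rw [h4]; exact h2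
    · obtain ⟨h2, h3⟩ := hB _ h hzs
      apply hne
      rw [← h3, hf1' t0 ht0pos.le]
      intro t' h0 h1
      rcases h1.lt_or_eq with h4 | h4
      · exact hlt1 t' h0 h4
      · rw [h4]; exact h2
  · have hzb : x + t0 * w ≠ b := by
      intro h
      apply hw1
      rw [← h]
      simp [Complex.mul_im, Complex.mul_re]
      ring
    have hzd : x + t0 * w ≠ d := by
      intro h
      apply hw2
      rw [← h]
      simp [Complex.mul_im, Complex.mul_re]
      ring
    have hzo : x + t0 * w ∈ openSegment ℝ b d := by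
      rw [openSegment_eq_image]
      rw [segment_eq_image] at hzs
      obtain ⟨t, ht, he⟩ := hzs
      refine ⟨t, ⟨lt_of_le_of_ne ht.1 ?_, lt_of_le_of_ne ht.2 ?_⟩, he⟩
      · rintro rfl; apply hzb; rw [← he]; simp
      · rintro rfl; apply hzd; rw [← he]; simp
    obtain ⟨δ1, hδ1, hJ1'⟩ := hJ1 _ hzo
    obtain ⟨δ2, hδ2, hJ2'⟩ := hJ2 _ hzo
    have hwn : 0 < ‖w‖ := norm_pos_iff.mpr hw0
    obtain ⟨τ, hτ, hτ1⟩ : ∃ τ : ℝ, 0 < τ ∧ τ < min t0 (min (δ1 / ‖w‖) (δ2 / ‖w‖)) :=
      exists_between (by positivity)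
    have hτt : τ < t0 := lt_of_lt_of_le hτ1 (min_le_left _ _)
    have hτ2 : τ * ‖w‖ < δ1 := by
      rw [← lt_div_iff₀ hwn]
      exact lt_of_lt_of_le hτ1 ((min_le_right _ _).trans (min_le_left _ _))
    have hτ3 : τ * ‖w‖ < δ2 := by
      rw [← lt_div_iff₀ hwn]
      exact lt_of_lt_of_le hτ1 ((min_le_right _ _).trans (min_le_right _ _))
    set z := x + t0 * w with hz
    have hn : ∀ σ : ℝ, |σ| = τ → ‖z + σ * w - z‖ = τ * ‖w‖ := by
      intro σ hσ
      rw [add_sub_cancel_left, norm_mul, Complex.norm_real, Real.norm_eq_abs, hσ]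
    have hnp := hn τ (abs_of_pos hτ)
    have hnm := hn (-τ) (by rw [abs_neg, abs_of_pos hτ])
    have hsp := side_add1329 b d z w τ
    have hsm := side_add1329 b d z w (-τ)
    rw [side_seg1329 hzs, zero_add] at hsp hsm
    have hzm : z + ((-τ : ℝ) : ℂ) * w = x + ((t0 - τ : ℝ) : ℂ) * w := by
      rw [hz]; push_cast; ring
    have hm1 : f1 (z + ((-τ : ℝ) : ℂ) * w) = 2 * Real.pi * s := by
      rw [hzm]
      exact hf1' _ (by linarith) (fun t' h0 h1 => hlt1 t' h0 (by linarith))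
    have hm2 : f2 (z + ((-τ : ℝ) : ℂ) * w) = 2 * Real.pi * s := by
      rw [hzm]
      exact hf2' _ (by linarith) (fun t' h0 h1 => hlt2 t' h0 (by linarith))
    rcases lt_or_gt_of_ne hw3 with hk | hk
    · have hsp' : side b d (z + (τ : ℂ) * w) < 0 := by rw [hsp]; nlinarith
      have hsm' : 0 < side b d (z + ((-τ : ℝ) : ℂ) * w) := by rw [hsm]; nlinarith
      obtain ⟨_, h1, h2⟩ := hJ1' _ _ (by rw [hnm]; exact hτ2) (by rw [hnp]; exact hτ2) hsm' hsp'
      obtain ⟨_, h3, h4⟩ := hJ2' _ _ (by rw [hnm]; exact hτ3) (by rw [hnp]; exact hτ3) hsm' hsp'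
      rw [hm1] at h2
      rw [hm2] at h4
      rcases hv1 _ h1 with h5 | h5 <;> rcases hv2 _ h3 with h6 | h6 <;> rcases hs with rfl | rfl <;>
        linarith
    · have hsp' : 0 < side b d (z + (τ : ℂ) * w) := by rw [hsp]; positivity
      have hsm' : side b d (z + ((-τ : ℝ) : ℂ) * w) < 0 := by rw [hsm]; nlinarith
      obtain ⟨h1, _, h2⟩ := hJ1' _ _ (by rw [hnp]; exact hτ2) (by rw [hnm]; exact hτ2) hsp' hsm'
      obtain ⟨h3, _, h4⟩ := hJ2' _ _ (by rw [hnp]; exact hτ3) (by rw [hnm]; exact hτ3) hsp' hsm'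
      rw [hm1] at h2
      rw [hm2] at h4
      rcases hv1 _ h1 with h5 | h5 <;> rcases hv2 _ h3 with h6 | h6 <;> rcases hs with rfl | rfl <;>
        linarith

theorem small1329 (v : ℂ) {δ : ℝ} (hδ : 0 < δ) : ∃ t : ℝ, 0 < t ∧ t < 1 ∧ ‖(t : ℂ) * v‖ < δ := by
  obtain ⟨t, ht, ht1⟩ : ∃ t : ℝ, 0 < t ∧ t < min 1 (δ / (‖v‖ + 1)) := exists_between (by positivity)
  refine ⟨t, ht, lt_of_lt_of_le ht1 (min_le_left _ _), ?_⟩
  rw [norm_mul, Complex.norm_real, Real.norm_eq_abs, abs_of_pos ht]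
  have h1 : t < δ / (‖v‖ + 1) := lt_of_lt_of_le ht1 (min_le_right _ _)
  rw [lt_div_iff₀ (by positivity)] at h1
  nlinarith [norm_nonneg v]

theorem far1329 (L : List ℂ) (g : ℂ → ℝ) : ∃ B : ℝ, 0 < B ∧ ∀ v ∈ L, g v < B := by
  induction L with
  | nil => exact ⟨1, one_pos, by simp⟩
  | cons a L ih =>
    obtain ⟨B, hB, h⟩ := ih
    refine ⟨max B (g a + 1), lt_of_lt_of_le hB (le_max_left _ _), ?_⟩
    intro v hv
    rcases List.mem_cons.mp hv with rfl | hv
    · exact lt_of_lt_of_le (by linarith) (le_max_right _ _)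
    · exact lt_of_lt_of_le (h v hv) (le_max_left _ _)

theorem side_neg1329 (b d x : ℂ) : side d b x = - side b d x := by
  unfold side
  simp only [Complex.mul_im, Complex.sub_re, Complex.sub_im, Complex.conj_re, Complex.conj_im]
  ring

theorem side_dbc1329 {a b c d : ℂ} {α β : ℝ} (hd : d = b + α * (c - b) + β * (a - b)) :
    side d b c = β * side a b c := by
  subst hd
  unfold side
  simp only [Complex.mul_im, Complex.sub_re, Complex.sub_im, Complex.conj_re, Complex.conj_im,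
    Complex.add_re, Complex.add_im, Complex.mul_re, Complex.ofReal_re, Complex.ofReal_im]
  ring

theorem side_abd1329 {a b c d : ℂ} {α β : ℝ} (hd : d = b + α * (c - b) + β * (a - b)) :
    side a b d = α * side a b c := by
  subst hd
  unfold side
  simp only [Complex.mul_im, Complex.sub_re, Complex.sub_im, Complex.conj_re, Complex.conj_im,
    Complex.add_re, Complex.add_im, Complex.mul_re, Complex.ofReal_re, Complex.ofReal_im]
  ring

theorem side_abb1329 {a b : ℂ} (t : ℝ) : side a b (b + t * (a - b)) = 0 := by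
  unfold side
  simp only [Complex.mul_im, Complex.sub_re, Complex.sub_im, Complex.conj_re, Complex.conj_im,
    Complex.add_re, Complex.add_im, Complex.mul_re, Complex.ofReal_re, Complex.ofReal_im]
  ring

theorem side_cbb1329 {b c : ℂ} (t : ℝ) : side c b (b + t * (c - b)) = 0 := side_abb1329 t

theorem cone1_1329 {a b c d : ℂ} {α β t α' β' : ℝ} (hα : 0 < α)
    (hd : d = b + α * (c - b) + β * (a - b)) (hs : side a b c ≠ 0) (hα' : 0 ≤ α') (hβ' : 0 ≤ β')
    (h : b + (t : ℂ) * (a - b) = b + α' * (c - b) + β' * (d - b)) : b + (t : ℂ) * (a - b) = b := by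
  have h1 : side a b (b + α' * (c - b) + β' * (d - b)) = (α' + β' * α) * side a b c := by
    subst hd
    unfold side
    simp only [Complex.mul_im, Complex.sub_re, Complex.sub_im, Complex.conj_re, Complex.conj_im,
      Complex.add_re, Complex.add_im, Complex.mul_re, Complex.ofReal_re, Complex.ofReal_im]
    ring
  rw [← h, side_abb1329] at h1
  have h2 : α' + β' * α = 0 := by
    rcases mul_eq_zero.mp h1.symm with h | h
    · exact h
    · exact absurd h hs
  have h3 : β' = 0 := by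
    have : 0 ≤ β' * α := by positivity
    have : β' * α = 0 := by linarith
    rcases mul_eq_zero.mp this with h | h
    · exact h
    · linarith
  have h4 : α' = 0 := by rw [h3] at h2; linarith
  rw [h, h3, h4]
  simp

theorem cone2_1329 {a b c d : ℂ} {α β t α' β' : ℝ} (hβ : 0 < β)
    (hd : d = b + α * (c - b) + β * (a - b)) (hs : side a b c ≠ 0) (hα' : 0 ≤ α') (hβ' : 0 ≤ β')
    (h : b + (t : ℂ) * (c - b) = b + α' * (d - b) + β' * (a - b)) : b + (t : ℂ) * (c - b) = b := by
  have h1 : side c b (b + α' * (d - b) + β' * (a - b)) = - (β' + α' * β) * side a b c := by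
    subst hd
    unfold side
    simp only [Complex.mul_im, Complex.sub_re, Complex.sub_im, Complex.conj_re, Complex.conj_im,
      Complex.add_re, Complex.add_im, Complex.mul_re, Complex.ofReal_re, Complex.ofReal_im]
    ring
  rw [← h, side_abb1329] at h1
  have h2 : β' + α' * β = 0 := by
    rcases mul_eq_zero.mp h1.symm with h | h
    · linarith
    · exact absurd h hs
  have h3 : α' = 0 := by
    have : 0 ≤ α' * β := by positivity
    have : α' * β = 0 := by linarith
    rcases mul_eq_zero.mp this with h | h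
    · exact h
    · linarith
  have h4 : β' = 0 := by rw [h3] at h2; linarith
  rw [h, h3, h4]
  simp

theorem split_values (W : WndFacts) (NE : NearExtreme) {a b c d u : ℂ} {M₁ M₂ : List ℂ}
    (hV : SimpleL ([b, c] ++ (M₁ ++ [d] ++ M₂) ++ [a]))
    (hu : ∀ v ∈ [c] ++ (M₁ ++ [d] ++ M₂) ++ [a], 0 < ((v - b) * (starRingEnd ℂ) u).re)
    (h1 : SimpleL ([b, c] ++ M₁ ++ [d])) (h2 : SimpleL ([b, d] ++ M₂ ++ [a]))
    (hd : ∃ α β : ℝ, 0 < α ∧ 0 < β ∧ d = b + α * (c - b) + β * (a - b))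
    (hdiag : segment ℝ b d ∩ curve ([b, c] ++ (M₁ ++ [d] ++ M₂) ++ [a]) ⊆ ({b, d} : Set ℂ))
    {s₁ s₂ : ℝ} (hs1 : s₁ = 1 ∨ s₁ = -1) (hs2 : s₂ = 1 ∨ s₂ = -1)
    (hw1 : ∀ x, x ∉ curve ([b, c] ++ M₁ ++ [d]) →
      wnd x ([b, c] ++ M₁ ++ [d]) = 0 ∨ wnd x ([b, c] ++ M₁ ++ [d]) = 2 * Real.pi * s₁)
    (hw2 : ∀ x, x ∉ curve ([b, d] ++ M₂ ++ [a]) →
      wnd x ([b, d] ++ M₂ ++ [a]) = 0 ∨ wnd x ([b, d] ++ M₂ ++ [a]) = 2 * Real.pi * s₂) :
    s₁ = s₂ ∧ ∀ x, x ∉ curve ([b, c] ++ (M₁ ++ [d] ++ M₂) ++ [a]) →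
      wnd x ([b, c] ++ (M₁ ++ [d] ++ M₂) ++ [a]) = 0 ∨
      wnd x ([b, c] ++ (M₁ ++ [d] ++ M₂) ++ [a]) = 2 * Real.pi * s₁ := by
  have hpi := Real.pi_pos
  obtain ⟨E1, hE1⟩ : ∃ E, E = pth1329 (b :: ((c :: M₁) ++ [d])) := ⟨_, rfl⟩
  obtain ⟨E2, hE2⟩ : ∃ E, E = pth1329 (d :: ((M₂ ++ [a]) ++ [b])) := ⟨_, rfl⟩
  have hc : cyc ([b, c] ++ (M₁ ++ [d] ++ M₂) ++ [a]) = E1 ++ E2 := by
    have h1 : [b, c] ++ (M₁ ++ [d] ++ M₂) ++ [a] = b :: (c :: (M₁ ++ d :: (M₂ ++ [a]))) := by simp
    rw [h1, cyc_cons1329, hE1, hE2]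
    have h2 : b :: (c :: (M₁ ++ d :: (M₂ ++ [a])) ++ [b])
        = (b :: c :: M₁) ++ d :: ((M₂ ++ [a]) ++ [b]) := by simp
    rw [h2, pth_append1329]
    rfl
  have hc1 : cyc ([b, c] ++ M₁ ++ [d]) = E1 ++ [(d, b)] := by
    have h1 : [b, c] ++ M₁ ++ [d] = b :: (c :: (M₁ ++ [d])) := by simp
    rw [h1, cyc_cons1329, hE1]
    have h2 : b :: (c :: (M₁ ++ [d]) ++ [b]) = (b :: c :: M₁) ++ d :: [b] := by simp
    rw [h2, pth_append1329]
    rfl
  have hc2 : cyc ([b, d] ++ M₂ ++ [a]) = (b, d) :: E2 := by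
    have h1 : [b, d] ++ M₂ ++ [a] = b :: (d :: (M₂ ++ [a])) := by simp
    rw [h1, cyc_cons1329, hE2]
    rfl
  -- distinctness
  have hnd : (b :: c :: (M₁ ++ d :: (M₂ ++ [a]))).Nodup := by
    have := hV.2.1
    have h1 : [b, c] ++ (M₁ ++ [d] ++ M₂) ++ [a] = b :: (c :: (M₁ ++ d :: (M₂ ++ [a]))) := by simp
    rwa [h1] at this
  have hbV : b ∉ c :: (M₁ ++ d :: (M₂ ++ [a])) := (List.nodup_cons.mp hnd).1
  have hnd2 := (List.nodup_cons.mp hnd).2
  have hsp : ∀ v ∈ c :: M₁, v ∉ d :: (M₂ ++ [a]) := by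
    have h2 : (c :: M₁) ++ (d :: (M₂ ++ [a])) = c :: (M₁ ++ d :: (M₂ ++ [a])) := by simp
    rw [← h2] at hnd2
    exact fun v hv hv' => (List.disjoint_of_nodup_append hnd2) hv hv'
  have hnd3 : (d :: (M₂ ++ [a])).Nodup := by
    have h2 : (c :: M₁) ++ (d :: (M₂ ++ [a])) = c :: (M₁ ++ d :: (M₂ ++ [a])) := by simp
    rw [← h2] at hnd2
    exact (List.nodup_append.mp hnd2).2.1
  have hdM : d ∉ M₂ ++ [a] := (List.nodup_cons.mp hnd3).1
  have hbd : b ≠ d := by rintro rfl; apply hbV; simp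
  have hba : b ≠ a := by rintro rfl; apply hbV; simp
  have hbc : b ≠ c := by rintro rfl; apply hbV; simp
  have hcd : c ≠ d := fun h => hsp c (by simp) (by simp [h])
  have hM1 : ∀ v ∈ c :: M₁, v ≠ b ∧ v ≠ d := by
    intro v hv
    refine ⟨?_, ?_⟩
    · rintro rfl
      apply hbV
      rw [← List.cons_append]
      exact List.mem_append_left _ hv
    · rintro rfl
      exact hsp v hv (by simp)
  have hM2 : ∀ v ∈ M₂ ++ [a], v ≠ b ∧ v ≠ d := by
    intro v hv
    refine ⟨?_, ?_⟩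
    · rintro rfl
      apply hbV
      rw [← List.cons_append]
      exact List.mem_append_right _ (List.mem_cons_of_mem _ hv)
    · rintro rfl
      exact hdM hv
  -- membership in the curves
  have hmV : ∀ x, x ∈ curve ([b, c] ++ (M₁ ++ [d] ++ M₂) ++ [a]) ↔
      (∃ e ∈ E1, x ∈ segment ℝ e.1 e.2) ∨ (∃ e ∈ E2, x ∈ segment ℝ e.1 e.2) := by
    intro x
    unfold curve
    rw [Set.mem_ofPred_eq, hc]
    simp only [List.mem_append, or_and_right, exists_or]
  have hm1 : ∀ x, x ∈ curve ([b, c] ++ M₁ ++ [d]) ↔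
      (∃ e ∈ E1, x ∈ segment ℝ e.1 e.2) ∨ x ∈ segment ℝ b d := by
    intro x
    unfold curve
    rw [Set.mem_ofPred_eq, hc1]
    simp only [List.mem_append, or_and_right, exists_or, List.mem_singleton, exists_eq_left]
    rw [segment_symm ℝ d b]
  have hm2 : ∀ x, x ∈ curve ([b, d] ++ M₂ ++ [a]) ↔
      (∃ e ∈ E2, x ∈ segment ℝ e.1 e.2) ∨ x ∈ segment ℝ b d := by
    intro x
    unfold curve
    rw [Set.mem_ofPred_eq, hc2]
    simp only [List.mem_cons, or_and_right, exists_or, exists_eq_left]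
    rw [or_comm]
  have hE1v : ∀ e ∈ E1, e.1 ∈ b :: c :: M₁ ∧ e.2 ∈ (c :: M₁) ++ [d] := by
    intro e he
    rw [hE1] at he
    refine ⟨?_, pth_snd1329 he⟩
    rw [← List.cons_append] at he
    exact pth_fst1329 he
  have hE2v : ∀ e ∈ E2, e.1 ∈ d :: (M₂ ++ [a]) ∧ e.2 ∈ (M₂ ++ [a]) ++ [b] := by
    intro e he
    rw [hE2] at he
    refine ⟨?_, pth_snd1329 he⟩
    rw [← List.cons_append] at he
    exact pth_fst1329 he
  -- no edge is in both
  have hE12 : ∀ e ∈ E1, ∀ e' ∈ E2, e ≠ e' := by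
    rintro e he e' he' rfl
    have h1 := (hE1v e he).1
    have h2 := (hE2v e he').1
    rcases List.mem_cons.mp h1 with h3 | h3
    · rw [h3] at h2
      exact hbV (by rw [← List.cons_append]; exact List.mem_append_right _ h2)
    · exact hsp _ h3 h2
  -- a vertex on an edge is an end of it
  have hvert : ∀ v ∈ [b, c] ++ (M₁ ++ [d] ++ M₂) ++ [a], ∀ e ∈ E1 ++ E2,
      v ∈ segment ℝ e.1 e.2 → v = e.1 ∨ v = e.2 := by
    intro v hv e he hve
    obtain ⟨e', he', rfl⟩ := cyc_fst1329 hv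
    by_cases h : e = e'
    · left; rw [h]
    · have := hV.2.2 e (by rw [hc]; exact he) e' he' h ⟨hve, left_mem_segment ℝ _ _⟩
      simpa using this.1
  have hbvert : ∀ e ∈ E1 ++ E2, b ∈ segment ℝ e.1 e.2 → b = e.1 ∨ b = e.2 :=
    hvert b (by simp)
  have hdvert : ∀ e ∈ E1 ++ E2, d ∈ segment ℝ e.1 e.2 → d = e.1 ∨ d = e.2 :=
    hvert d (by simp)
  -- intersections
  have hint : ∀ e ∈ E1, ∀ e' ∈ E2, ∀ z, z ∈ segment ℝ e.1 e.2 → z ∈ segment ℝ e'.1 e'.2 →
      z = b ∨ z = d := by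
    intro e he e' he' z hz hz'
    have h := hV.2.2 e (by rw [hc]; exact List.mem_append_left _ he) e'
      (by rw [hc]; exact List.mem_append_right _ he') (hE12 e he e' he') ⟨hz, hz'⟩
    have h1 := h.1
    have h2 := h.2
    have h3 : z ∈ b :: ((c :: M₁) ++ [d]) := by
      rcases h1 with h1 | h1
      · rw [h1]
        have := (hE1v e he).1
        rcases List.mem_cons.mp this with h4 | h4
        · rw [h4]; simp
        · exact List.mem_cons_of_mem _ (List.mem_append_left _ h4)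
      · rw [Set.mem_singleton_iff] at h1
        rw [h1]
        exact List.mem_cons_of_mem _ (hE1v e he).2
    have h4 : z ∈ d :: ((M₂ ++ [a]) ++ [b]) := by
      rcases h2 with h2 | h2
      · rw [h2]
        have := (hE2v e' he').1
        rw [← List.cons_append]
        exact List.mem_append_left _ this
      · rw [Set.mem_singleton_iff] at h2
        rw [h2]
        exact List.mem_cons_of_mem _ (hE2v e' he').2
    rcases List.mem_cons.mp h3 with h5 | h5
    · exact Or.inl h5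
    rcases List.mem_append.mp h5 with h6 | h6
    · rcases List.mem_cons.mp h4 with h7 | h7
      · exact Or.inr h7
      · rcases List.mem_append.mp h7 with h8 | h8
        · exact absurd (List.mem_cons_of_mem _ h8) (hsp z h6)
        · left; simpa using h8
    · right; simpa using h6
  have hbVc : b ∈ curve ([b, c] ++ (M₁ ++ [d] ++ M₂) ++ [a]) := by
    obtain ⟨e, he, h⟩ := cyc_fst1329 (V := [b, c] ++ (M₁ ++ [d] ++ M₂) ++ [a]) (v := b) (by simp)
    exact ⟨e, he, by rw [← h]; exact left_mem_segment ℝ _ _⟩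
  have hdVc : d ∈ curve ([b, c] ++ (M₁ ++ [d] ++ M₂) ++ [a]) := by
    obtain ⟨e, he, h⟩ := cyc_fst1329 (V := [b, c] ++ (M₁ ++ [d] ++ M₂) ++ [a]) (v := d) (by simp)
    exact ⟨e, he, by rw [← h]; exact left_mem_segment ℝ _ _⟩
  have hd' : ∀ z ∈ segment ℝ b d, z ∈ curve ([b, c] ++ (M₁ ++ [d] ++ M₂) ++ [a]) →
      z = b ∨ z = d := fun z h1 h2 => by simpa using hdiag ⟨h1, h2⟩
  have hA1 : ∀ e ∈ E2, ∀ z ∈ segment ℝ e.1 e.2, z ≠ b ∧ z ≠ d →
      z ∉ curve ([b, c] ++ M₁ ++ [d]) := by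
    intro e he z hz hzz hzc
    rcases (hm1 z).mp hzc with ⟨e', he', hz'⟩ | h
    · rcases hint e' he' e he z hz' hz with h | h
      · exact hzz.1 h
      · exact hzz.2 h
    · rcases hd' z h ((hmV z).mpr (Or.inr ⟨e, he, hz⟩)) with h | h
      · exact hzz.1 h
      · exact hzz.2 h
  have hA2 : ∀ e ∈ E1, ∀ z ∈ segment ℝ e.1 e.2, z ≠ b ∧ z ≠ d →
      z ∉ curve ([b, d] ++ M₂ ++ [a]) := by
    intro e he z hz hzz hzc
    rcases (hm2 z).mp hzc with ⟨e', he', hz'⟩ | h
    · rcases hint e he e' he' z hz hz' with h | h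
      · exact hzz.1 h
      · exact hzz.2 h
    · rcases hd' z h ((hmV z).mpr (Or.inl ⟨e, he, hz⟩)) with h | h
      · exact hzz.1 h
      · exact hzz.2 h
  have hk1 : ∃ k, ∀ e ∈ E2, ∀ z ∈ segment ℝ e.1 e.2, (z ≠ b ∧ z ≠ d) →
      wnd z ([b, c] ++ M₁ ++ [d]) = k := by
    have := chain1329 (fun z => wnd z ([b, c] ++ M₁ ++ [d])) (fun z => z ≠ b ∧ z ≠ d)
      (M₂ ++ [a]) b d
    rw [← hE2] at this
    refine this ?_ hM2
    intro e he z hz z' hz' hP hP'
    refine W.const (S := segment ℝ z z') (convex_segment z z').isPreconnected ?_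
      (left_mem_segment ℝ _ _) (right_mem_segment ℝ _ _)
    rw [Set.disjoint_left]
    intro p hp hpc
    have hp' : p ∈ segment ℝ e.1 e.2 := (convex_segment _ _).segment_subset hz hz' hp
    refine hA1 e he p hp' ⟨?_, ?_⟩ hpc
    · rintro rfl
      exact seg_aux1329 hz hz' (hbvert e (List.mem_append_right _ he)) hP.1 hP'.1 hp
    · rintro rfl
      exact seg_aux1329 hz hz' (hdvert e (List.mem_append_right _ he)) hP.2 hP'.2 hp
  have hk2 : ∃ k, ∀ e ∈ E1, ∀ z ∈ segment ℝ e.1 e.2, (z ≠ b ∧ z ≠ d) →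
      wnd z ([b, d] ++ M₂ ++ [a]) = k := by
    have := chain1329 (fun z => wnd z ([b, d] ++ M₂ ++ [a])) (fun z => z ≠ b ∧ z ≠ d)
      (c :: M₁) d b
    rw [← hE1] at this
    refine this ?_ hM1
    intro e he z hz z' hz' hP hP'
    refine W.const (S := segment ℝ z z') (convex_segment z z').isPreconnected ?_
      (left_mem_segment ℝ _ _) (right_mem_segment ℝ _ _)
    rw [Set.disjoint_left]
    intro p hp hpc
    have hp' : p ∈ segment ℝ e.1 e.2 := (convex_segment _ _).segment_subset hz hz' hp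
    refine hA2 e he p hp' ⟨?_, ?_⟩ hpc
    · rintro rfl
      exact seg_aux1329 hz hz' (hbvert e (List.mem_append_left _ he)) hP.1 hP'.1 hp
    · rintro rfl
      exact seg_aux1329 hz hz' (hdvert e (List.mem_append_left _ he)) hP.2 hP'.2 hp
  obtain ⟨α, β, hα, hβ, hdd⟩ := hd
  obtain ⟨hn1, δ1, hδ1, hN1, hN1'⟩ := NE h1 (u := u) (fun v hv => hu v (by
    simp only [List.mem_append, List.mem_singleton] at hv ⊢; tauto))
  obtain ⟨hn2, δ2, hδ2, hN2, hN2'⟩ := NE h2 (u := u) (fun v hv => hu v (by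
    simp only [List.mem_append, List.mem_singleton] at hv ⊢; tauto))
  have hsc : side a b c ≠ 0 := by
    intro h
    rw [side_dbc1329 hdd, h, mul_zero] at hn1
    exact hn1 rfl
  have hab : (a, b) ∈ E2 := by
    rw [hE2]
    have h2 : d :: ((M₂ ++ [a]) ++ [b]) = (d :: M₂) ++ a :: [b] := by simp
    rw [h2, pth_append1329]
    apply List.mem_append_right
    simp [pth1329]
  have hbc' : (b, c) ∈ E1 := by
    rw [hE1]
    simp [pth1329]
  have hbC1 : b ∈ curve ([b, c] ++ M₁ ++ [d]) := (hm1 b).mpr (Or.inr (left_mem_segment ℝ _ _))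
  have hdC1 : d ∈ curve ([b, c] ++ M₁ ++ [d]) := (hm1 d).mpr (Or.inr (right_mem_segment ℝ _ _))
  have hbC2 : b ∈ curve ([b, d] ++ M₂ ++ [a]) := (hm2 b).mpr (Or.inr (left_mem_segment ℝ _ _))
  have hdC2 : d ∈ curve ([b, d] ++ M₂ ++ [a]) := (hm2 d).mpr (Or.inr (right_mem_segment ℝ _ _))
  -- the constants vanish
  have hz1 : ∀ e ∈ E2, ∀ z ∈ segment ℝ e.1 e.2, (z ≠ b ∧ z ≠ d) →
      wnd z ([b, c] ++ M₁ ++ [d]) = 0 := by
    obtain ⟨k, hk⟩ := hk1
    obtain ⟨t, ht0, ht1, ht⟩ := small1329 (a - b) hδ1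
    obtain ⟨hnc, hw⟩ := hN1' (b + t * (a - b)) (by rwa [add_sub_cancel_left]) (by
      rintro ⟨α', β', hα', hβ', h⟩
      have h3 := cone1_1329 hα hdd hsc hα' hβ' h
      have h4 : (t : ℂ) * (a - b) = 0 := by simpa using h3
      rcases mul_eq_zero.mp h4 with h5 | h5
      · exact ht0.ne' (by exact_mod_cast h5)
      · exact hba (sub_eq_zero.mp h5).symm)
    have hzs : b + (t : ℂ) * (a - b) ∈ segment ℝ a b := by
      refine ⟨t, 1 - t, ht0.le, by linarith, by ring, ?_⟩
      simp only [Complex.real_smul]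
      push_cast
      ring
    have h0 : k = 0 := by
      rw [← hw]
      symm
      exact hk (a, b) hab _ hzs ⟨fun h => hnc (by rw [h]; exact hbC1), fun h => hnc (by rw [h]; exact hdC1)⟩
    rw [h0] at hk
    exact hk
  have hz2 : ∀ e ∈ E1, ∀ z ∈ segment ℝ e.1 e.2, (z ≠ b ∧ z ≠ d) →
      wnd z ([b, d] ++ M₂ ++ [a]) = 0 := by
    obtain ⟨k, hk⟩ := hk2
    obtain ⟨t, ht0, ht1, ht⟩ := small1329 (c - b) hδ2
    obtain ⟨hnc, hw⟩ := hN2' (b + t * (c - b)) (by rwa [add_sub_cancel_left]) (by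
      rintro ⟨α', β', hα', hβ', h⟩
      have h3 := cone2_1329 hβ hdd hsc hα' hβ' h
      have h4 : (t : ℂ) * (c - b) = 0 := by simpa using h3
      rcases mul_eq_zero.mp h4 with h5 | h5
      · exact ht0.ne' (by exact_mod_cast h5)
      · exact hbc (sub_eq_zero.mp h5).symm)
    have hzs : b + (t : ℂ) * (c - b) ∈ segment ℝ b c := by
      refine ⟨1 - t, t, by linarith, ht0.le, by ring, ?_⟩
      simp only [Complex.real_smul]
      push_cast
      ring
    have h0 : k = 0 := by
      rw [← hw]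
      symm
      exact hk (b, c) hbc' _ hzs ⟨fun h => hnc (by rw [h]; exact hbC2), fun h => hnc (by rw [h]; exact hdC2)⟩
    rw [h0] at hk
    exact hk
  -- the signs
  have hs1' : s₁ = if 0 < side a b c then 1 else -1 := by
    obtain ⟨t, ht0, ht1, ht⟩ := small1329 ((c - b) + (d - b)) hδ1
    obtain ⟨hnc, hw⟩ := hN1 (b + t * ((c - b) + (d - b))) (by rwa [add_sub_cancel_left])
      ⟨t, t, ht0, ht0, by ring⟩
    have h3 := hw1 _ hnc
    rw [hw, side_dbc1329 hdd] at h3
    have h4 : (0 < β * side a b c) ↔ 0 < side a b c := by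
      constructor
      · intro h; exact (pos_iff_pos_of_mul_pos h).mp hβ
      · intro h; positivity
    simp only [h4] at h3
    split_ifs at h3 ⊢ with h5
    · rcases h3 with h3 | h3
      · linarith
      · have : 2 * Real.pi * (s₁ - 1) = 0 := by linarith
        rcases mul_eq_zero.mp this with h | h
        · linarith
        · linarith
    · rcases h3 with h3 | h3
      · linarith
      · have : 2 * Real.pi * (s₁ + 1) = 0 := by linarith
        rcases mul_eq_zero.mp this with h | h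
        · linarith
        · linarith
  have hs2' : s₂ = if 0 < side a b c then 1 else -1 := by
    obtain ⟨t, ht0, ht1, ht⟩ := small1329 ((d - b) + (a - b)) hδ2
    obtain ⟨hnc, hw⟩ := hN2 (b + t * ((d - b) + (a - b))) (by rwa [add_sub_cancel_left])
      ⟨t, t, ht0, ht0, by ring⟩
    have h3 := hw2 _ hnc
    rw [hw, side_abd1329 hdd] at h3
    have h4 : (0 < α * side a b c) ↔ 0 < side a b c := by
      constructor
      · intro h; exact (pos_iff_pos_of_mul_pos h).mp hα
      · intro h; positivity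
    simp only [h4] at h3
    split_ifs at h3 ⊢ with h5
    · rcases h3 with h3 | h3
      · linarith
      · have : 2 * Real.pi * (s₂ - 1) = 0 := by linarith
        rcases mul_eq_zero.mp this with h | h
        · linarith
        · linarith
    · rcases h3 with h3 | h3
      · linarith
      · have : 2 * Real.pi * (s₂ + 1) = 0 := by linarith
        rcases mul_eq_zero.mp this with h | h
        · linarith
        · linarith
  have hs12 : s₁ = s₂ := by rw [hs1', hs2']
  refine ⟨hs12, ?_⟩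
  rw [← hs12] at hw2
  have hsum : ∀ x, x ∉ segment ℝ b d → wnd x ([b, c] ++ (M₁ ++ [d] ++ M₂) ++ [a]) =
      wnd x ([b, c] ++ M₁ ++ [d]) + wnd x ([b, d] ++ M₂ ++ [a]) := by
    intro x hx
    unfold wnd
    rw [hc, hc1, hc2]
    simp only [List.map_append, List.sum_append, List.map_cons, List.sum_cons, List.map_nil,
      List.sum_nil]
    rw [W.swap (a := b) (b := d) hx]
    ring
  have hz : ∀ z ∈ openSegment ℝ b d, z ≠ b ∧ z ≠ d := by
    intro z hz
    constructor
    · rintro rfl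
      exact hbd (left_mem_openSegment_iff.mp hz)
    · rintro rfl
      exact hbd (right_mem_openSegment_iff.mp hz)
  have hray : ∀ x, x ∉ curve ([b, c] ++ M₁ ++ [d]) → x ∉ curve ([b, d] ++ M₂ ++ [a]) →
      ¬ (wnd x ([b, c] ++ M₁ ++ [d]) = 2 * Real.pi * s₁ ∧
        wnd x ([b, d] ++ M₂ ++ [a]) = 2 * Real.pi * s₁) := by
    intro x hx1 hx2
    refine ray1329 (f1 := fun x => wnd x ([b, c] ++ M₁ ++ [d]))
      (f2 := fun x => wnd x ([b, d] ++ M₂ ++ [a])) (b := b) (d := d) hs1 hbd (W.closed _)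
      (W.closed _) hbC1 hdC1 ?_ ?_ ?_ ?_ ?_ ?_ hw1 hw2 ?_ hx1 hx2
    · intro x y h
      exact W.const (convex_segment x y).isPreconnected h (left_mem_segment ℝ _ _)
        (right_mem_segment ℝ _ _)
    · intro x y h
      exact W.const (convex_segment x y).isPreconnected h (left_mem_segment ℝ _ _)
        (right_mem_segment ℝ _ _)
    · intro z hzc hzs
      rcases (hm1 z).mp hzc with ⟨e, he, hze⟩ | h
      · have hP : z ≠ b ∧ z ≠ d := by
          constructor
          · rintro rfl; exact hzs (left_mem_segment ℝ _ _)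
          · rintro rfl; exact hzs (right_mem_segment ℝ _ _)
        exact ⟨hA2 e he z hze hP, hz2 e he z hze hP⟩
      · exact absurd h hzs
    · intro z hzc hzs
      rcases (hm2 z).mp hzc with ⟨e, he, hze⟩ | h
      · have hP : z ≠ b ∧ z ≠ d := by
          constructor
          · rintro rfl; exact hzs (left_mem_segment ℝ _ _)
          · rintro rfl; exact hzs (right_mem_segment ℝ _ _)
        exact ⟨hA1 e he z hze hP, hz1 e he z hze hP⟩
      · exact absurd h hzs
    · intro z hzo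
      obtain ⟨δ, hδ, h⟩ := W.jump (V := [b, c] ++ M₁ ++ [d]) (a := d) (b := b) (y := z) (R := E1)
        (Ne.symm hbd) (by rw [hc1]; exact List.perm_append_singleton _ _)
        (by rw [openSegment_symm]; exact hzo) (by
          intro e he hze
          rcases hd' z (openSegment_subset_segment ℝ _ _ hzo) ((hmV z).mpr (Or.inl ⟨e, he, hze⟩))
            with h | h
          · exact (hz z hzo).1 h
          · exact (hz z hzo).2 h)
      refine ⟨δ, hδ, fun x x' hx hx' hsx hsx' => ?_⟩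
      obtain ⟨h3, h4, h5⟩ := h x' x hx' hx (by rw [side_neg1329]; linarith)
        (by rw [side_neg1329]; linarith)
      exact ⟨h4, h3, h5⟩
    · intro z hzo
      obtain ⟨δ, hδ, h⟩ := W.jump (V := [b, d] ++ M₂ ++ [a]) (a := b) (b := d) (y := z) (R := E2)
        hbd (by rw [hc2]) hzo (by
          intro e he hze
          rcases hd' z (openSegment_subset_segment ℝ _ _ hzo) ((hmV z).mpr (Or.inr ⟨e, he, hze⟩))
            with h | h
          · exact (hz z hzo).1 h
          · exact (hz z hzo).2 h)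
      exact ⟨δ, hδ, fun x x' hx hx' hsx hsx' => h x x' hx hx' hsx hsx'⟩
    · intro x w hw
      obtain ⟨B, hB, h⟩ := far1329 ([b, c] ++ M₁ ++ [d])
        (fun v => ((v - x) * (starRingEnd ℂ) w).re / ‖w‖ ^ 2)
      refine ⟨B, hB, ?_⟩
      apply W.half (u := -w)
      intro v hv
      have h3 := h v hv
      have hwn : 0 < ‖w‖ := norm_pos_iff.mpr hw
      rw [div_lt_iff₀ (by positivity)] at h3
      have h4 : ((v - (x + B * w)) * (starRingEnd ℂ) (-w)).re =
          B * ‖w‖ ^ 2 - ((v - x) * (starRingEnd ℂ) w).re := by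
        rw [← Complex.normSq_eq_norm_sq, Complex.normSq_apply]
        simp only [Complex.sub_re, Complex.sub_im, Complex.conj_re, Complex.conj_im,
          Complex.add_re, Complex.add_im, Complex.mul_re, Complex.mul_im, Complex.ofReal_re,
          Complex.ofReal_im, Complex.neg_re, Complex.neg_im]
        ring
      rw [h4]
      linarith
  have hoff : ∀ x, x ∉ curve ([b, c] ++ (M₁ ++ [d] ++ M₂) ++ [a]) → x ∉ segment ℝ b d →
      wnd x ([b, c] ++ (M₁ ++ [d] ++ M₂) ++ [a]) = 0 ∨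
      wnd x ([b, c] ++ (M₁ ++ [d] ++ M₂) ++ [a]) = 2 * Real.pi * s₁ := by
    intro x hx hxs
    have hx1 : x ∉ curve ([b, c] ++ M₁ ++ [d]) := by
      intro h
      rcases (hm1 x).mp h with h | h
      · exact hx ((hmV x).mpr (Or.inl h))
      · exact hxs h
    have hx2 : x ∉ curve ([b, d] ++ M₂ ++ [a]) := by
      intro h
      rcases (hm2 x).mp h with h | h
      · exact hx ((hmV x).mpr (Or.inr h))
      · exact hxs h
    rw [hsum x hxs]
    rcases hw1 x hx1 with h3 | h3 <;> rcases hw2 x hx2 with h4 | h4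
    · left; rw [h3, h4]; ring
    · right; rw [h3, h4]; ring
    · right; rw [h3, h4]; ring
    · exact absurd ⟨h3, h4⟩ (hray x hx1 hx2)
  intro x hx
  by_cases hxs : x ∈ segment ℝ b d
  swap
  · exact hoff x hx hxs
  · obtain ⟨ρ, hρ, hball⟩ := Metric.isOpen_iff.mp (W.closed _).isOpen_compl x hx
    obtain ⟨t, ht0, ht1, ht⟩ := small1329 (Complex.I * (d - b)) hρ
    have hmem : x + (t : ℂ) * (Complex.I * (d - b)) ∈ Metric.ball x ρ := by
      rw [Metric.mem_ball, dist_eq_norm, add_sub_cancel_left]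
      exact ht
    have hx' := hball hmem
    have hxs' : x + (t : ℂ) * (Complex.I * (d - b)) ∉ segment ℝ b d := by
      intro h
      have h3 := side_seg1329 h
      rw [side_add1329, side_seg1329 hxs, zero_add] at h3
      have h4 : (Complex.I * (d - b) * (starRingEnd ℂ) (d - b)).im = ‖d - b‖ ^ 2 := by
        rw [← Complex.normSq_eq_norm_sq, Complex.normSq_apply]
        simp only [Complex.sub_re, Complex.sub_im, Complex.conj_re, Complex.conj_im,
          Complex.mul_re, Complex.mul_im, Complex.I_re, Complex.I_im]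
        ring
      rw [h4] at h3
      have : 0 < ‖d - b‖ := norm_pos_iff.mpr (sub_ne_zero.mpr (Ne.symm hbd))
      have : 0 < t * ‖d - b‖ ^ 2 := by positivity
      linarith
    have heq := W.const (V := [b, c] ++ (M₁ ++ [d] ++ M₂) ++ [a]) (S := Metric.ball x ρ)
      (convex_ball x ρ).isPreconnected
      (Set.disjoint_left.mpr (fun p hp hpc => hball hp hpc)) (Metric.mem_ball_self hρ) hmem
    rw [heq]
    exact hoff _ hx' hxs'

end

end Pool.Agent.Helper22.FC
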