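import Pool.Agent.Helper22.FC.Base

namespace Pool.Agent.Helper22.FC

open Complex

noncomputable section

/-- the quotient lies in the slit plane off the segment -/
theorem w1_slit {x a b : ℂ} (h : x ∉ segment ℝ a b) : (b - x) / (a - x) ∈ slitPlane := by
  have ha : a - x ≠ 0 := by
    intro h0
    exact h (by rw [← sub_eq_zero.1 h0]; exact left_mem_segment ℝ _ _)
  rw [Complex.mem_slitPlane_iff_not_le_zero, Complex.nonpos_iff]
  rintro ⟨hr, hi⟩
  apply h
  set r := ((b - x) / (a - x)).re with hrdef
  have hz : (b - x) / (a - x) = (r : ℂ) := by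
    apply Complex.ext <;> simp [hrdef, hi]
  have hb : b - x = r * (a - x) := by
    rw [← hz, div_mul_cancel₀ _ ha]
  have h1 : (0 : ℝ) < 1 - r := by linarith
  refine ⟨(-r) / (1 - r), 1 / (1 - r), by apply div_nonneg <;> linarith, by positivity, ?_, ?_⟩
  · field_simp; ring
  · have h1' : (1 : ℂ) - r ≠ 0 := by
      have : ((1 - r : ℝ) : ℂ) ≠ 0 := by exact_mod_cast h1.ne'
      simpa using this
    have e : (((-r) / (1 - r) : ℝ) • a + (1 / (1 - r) : ℝ) • b : ℂ) =
        ((-(r : ℂ)) * a + b) / (1 - r) := by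
      rw [Complex.real_smul, Complex.real_smul]
      push_cast
      field_simp
    rw [e, div_eq_iff h1']
    linear_combination hb

theorem w1_ne_left {x a b : ℂ} (h : x ∉ segment ℝ a b) : a - x ≠ 0 := by
  intro h0
  exact h (by rw [← sub_eq_zero.1 h0]; exact left_mem_segment ℝ _ _)

theorem w1_ne_right {x a b : ℂ} (h : x ∉ segment ℝ a b) : b - x ≠ 0 := by
  intro h0
  exact h (by rw [← sub_eq_zero.1 h0]; exact right_mem_segment ℝ _ _)

theorem ang_continuousAt {x a b : ℂ} (h : x ∉ segment ℝ a b) :
    ContinuousAt (fun y => ang y a b) x := by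
  unfold ang
  have h1 : ContinuousAt (fun y : ℂ => (b - y) / (a - y)) x :=
    ContinuousAt.div (by fun_prop) (by fun_prop) (w1_ne_left h)
  exact ContinuousAt.comp (f := fun y : ℂ => (b - y) / (a - y)) (g := arg)
    (Complex.continuousAt_arg (w1_slit h)) h1

theorem ang_swap {x a b : ℂ} (h : x ∉ segment ℝ a b) : ang x b a = - ang x a b := by
  unfold ang
  have e : (a - x) / (b - x) = ((b - x) / (a - x))⁻¹ := by rw [inv_div]
  rw [e, Complex.arg_inv, if_neg (Complex.mem_slitPlane_iff_arg.1 (w1_slit h)).1]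

theorem ang_add {x a b c : ℂ} (hb : b ∈ segment ℝ a c) (h : x ∉ segment ℝ a c) :
    ang x a c = ang x a b + ang x b c := by
  have hxa : a - x ≠ 0 := w1_ne_left h
  have hxc : c - x ≠ 0 := w1_ne_right h
  have hxb : b - x ≠ 0 := by
    intro h0
    exact h (by rw [← sub_eq_zero.1 h0]; exact hb)
  obtain ⟨s, t, hs, ht, hst, rfl⟩ := hb
  unfold ang
  set b := s • a + t • c with hbdef
  set z := (c - x) / (a - x) with hz
  have hzs : z ∈ slitPlane := w1_slit h
  have hz0 : z ≠ 0 := Complex.slitPlane_ne_zero hzs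
  have hbz : (b - x) / (a - x) = (s : ℂ) + t * z := by
    have hst' : (s : ℂ) + t = 1 := by exact_mod_cast hst
    rw [hz, hbdef, Complex.real_smul, Complex.real_smul]
    field_simp
    linear_combination x * hst'
  have hu0 : (s : ℂ) + t * z ≠ 0 := by rw [← hbz]; exact div_ne_zero hxb hxa
  have hcb : (c - x) / (b - x) = z / ((s : ℂ) + t * z) := by
    rw [← hbz, hz]; field_simp
  have hv0 : z / ((s : ℂ) + t * z) ≠ 0 := div_ne_zero hz0 hu0
  rw [hcb, hbz]
  set u := (s : ℂ) + t * z with hu
  have hprod : u * (z / u) = z := by field_simp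
  have hang : (arg z : Real.Angle) = ((arg u + arg (z / u) : ℝ) : Real.Angle) := by
    rw [Real.Angle.coe_add, ← Complex.arg_mul_coe_angle hu0 hv0, hprod]
  obtain ⟨k, hk⟩ := Real.Angle.angle_eq_iff_two_pi_dvd_sub.1 hang
  have huim : u.im = t * z.im := by simp [hu]
  have hvim : (z / u).im = s * z.im / Complex.normSq u := by
    rw [Complex.div_im]
    have : u.re = s + t * z.re := by simp [hu]
    rw [huim, this]
    ring
  have hnu : 0 < Complex.normSq u := Complex.normSq_pos.2 hu0
  have hpi := Real.pi_pos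
  have hzpi : arg z ≠ Real.pi := (Complex.mem_slitPlane_iff_arg.1 hzs).1
  have hzlt : arg z < Real.pi := lt_of_le_of_ne (Complex.arg_le_pi z) hzpi
  have hk0 : k = 0 := by
    rcases lt_trichotomy z.im 0 with hneg | hzero | hpos
    · -- all args nonpositive
      have h1 : arg z < 0 := Complex.arg_neg_iff.2 hneg
      have h1' := Complex.neg_pi_lt_arg z
      have h2 : arg u ≤ 0 := by
        rcases eq_or_lt_of_le ht with h0 | h0
        · have : u = (s : ℂ) := by rw [hu, ← h0]; simp
          rw [this, Complex.arg_ofReal_of_nonneg hs]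
        · exact (Complex.arg_neg_iff.2 (by rw [huim]; exact mul_neg_of_pos_of_neg h0 hneg)).le
      have h3 : arg (z / u) ≤ 0 := by
        rcases eq_or_lt_of_le hs with h0 | h0
        · have hu' : u = (t : ℂ) * z := by rw [hu, ← h0]; simp
          have ht0 : (t : ℂ) ≠ 0 := by
            intro h00; rw [hu', h00, zero_mul] at hu0; exact hu0 rfl
          have : z / u = ((1 / t : ℝ) : ℂ) := by
            rw [hu']; push_cast; field_simp
          rw [this, Complex.arg_ofReal_of_nonneg (by positivity)]
        · exact (Complex.arg_neg_iff.2 (by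
            rw [hvim]
            exact div_neg_of_neg_of_pos (mul_neg_of_pos_of_neg h0 hneg) hnu)).le
      have h2' := Complex.neg_pi_lt_arg u
      have h3' := Complex.neg_pi_lt_arg (z / u)
      have a1 : (2 * Real.pi) * (k : ℝ) < (2 * Real.pi) * 1 := by linarith
      have a2 : (2 * Real.pi) * (-1) < (2 * Real.pi) * (k : ℝ) := by linarith
      have b1 : (k : ℝ) < 1 := lt_of_mul_lt_mul_left a1 (by positivity)
      have b2 : (-1 : ℝ) < k := lt_of_mul_lt_mul_left a2 (by positivity)
      have c1 : k < 1 := by exact_mod_cast b1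
      have c2 : -1 < k := by exact_mod_cast b2
      omega
    · have hzre : 0 < z.re := by
        rcases Complex.mem_slitPlane_iff.1 hzs with h | h
        · exact h
        · exact absurd hzero h
      have hzr : z = (z.re : ℂ) := by apply Complex.ext <;> simp [hzero]
      have h1 : arg z = 0 := by rw [hzr]; exact Complex.arg_ofReal_of_nonneg hzre.le
      have h2 : arg u = 0 := by
        have : u = ((s + t * z.re : ℝ) : ℂ) := by rw [hu]; push_cast; rw [← hzr]
        rw [this]; exact Complex.arg_ofReal_of_nonneg (by positivity)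
      have h3 : arg (z / u) = 0 := by
        have : z / u = ((z.re / (s + t * z.re) : ℝ) : ℂ) := by rw [hu]; push_cast; rw [← hzr]
        rw [this]; exact Complex.arg_ofReal_of_nonneg (by positivity)
      rw [h1, h2, h3] at hk
      have : (2 * Real.pi) * (k : ℝ) = 0 := by linarith
      rcases mul_eq_zero.1 this with h | h
      · exfalso; linarith
      · exact_mod_cast h
    · have h1 : 0 ≤ arg z := Complex.arg_nonneg_iff.2 hpos.le
      have h2 : 0 ≤ arg u := Complex.arg_nonneg_iff.2 (by rw [huim]; positivity)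
      have h3 : 0 ≤ arg (z / u) := Complex.arg_nonneg_iff.2 (by rw [hvim]; positivity)
      have h2' := Complex.arg_le_pi u
      have h3' := Complex.arg_le_pi (z / u)
      -- arg z > 0
      have h1' : 0 < arg z := by
        rcases eq_or_lt_of_le h1 with h0 | h0
        · exfalso
          have := (Complex.arg_eq_zero_iff.1 h0.symm).2
          linarith
        · exact h0
      have a1 : (2 * Real.pi) * (k : ℝ) < (2 * Real.pi) * 1 := by linarith
      have a2 : (2 * Real.pi) * (-1) < (2 * Real.pi) * (k : ℝ) := by linarith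
      have b1 : (k : ℝ) < 1 := lt_of_mul_lt_mul_left a1 (by positivity)
      have b2 : (-1 : ℝ) < k := lt_of_mul_lt_mul_left a2 (by positivity)
      have c1 : k < 1 := by exact_mod_cast b1
      have c2 : -1 < k := by exact_mod_cast b2
      omega
  rw [hk0] at hk
  simp only [Int.cast_zero, mul_zero] at hk
  linarith

/-- telescoping over a cyclic list -/
theorem w1_telescope {α G : Type*} [AddCommGroup G] (f : α → G) (V : List α) :
    ((cyc V).map (fun e => f e.2 - f e.1)).sum = 0 := by
  have hsub : ∀ l : List (α × α), (l.map (fun e => f e.2 - f e.1)).sum =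
      ((l.map Prod.snd).map f).sum - ((l.map Prod.fst).map f).sum := by
    intro l
    induction l with
    | nil => simp
    | cons e l ih => simp only [List.map_cons, List.sum_cons, ih]; abel
  rw [hsub]
  unfold cyc
  rw [List.map_snd_zip (by simp), List.map_fst_zip (by simp)]
  have : ((V.rotate 1).map f).sum = (V.map f).sum := ((List.rotate_perm V 1).map f).sum_eq
  rw [this, sub_self]

theorem w1_cyc_mem {α : Type*} {V : List α} {e : α × α} (h : e ∈ cyc V) : e.1 ∈ V ∧ e.2 ∈ V := by
  obtain ⟨a, b⟩ := e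
  have := List.of_mem_zip h
  exact ⟨this.1, List.mem_rotate.1 this.2⟩

theorem wnd_int {x : ℂ} {V : List ℂ} (h : x ∉ curve V) : ∃ k : ℤ, wnd x V = 2 * Real.pi * k := by
  have hseg : ∀ e ∈ cyc V, x ∉ segment ℝ e.1 e.2 := fun e he hx => h ⟨e, he, hx⟩
  have hang : ((wnd x V : ℝ) : Real.Angle) = 0 := by
    unfold wnd
    have key : ∀ l : List (ℂ × ℂ), (∀ e ∈ l, x ∉ segment ℝ e.1 e.2) →
        (((l.map (fun e => ang x e.1 e.2)).sum : ℝ) : Real.Angle) =
        (l.map (fun e => ((arg (e.2 - x) : ℝ) : Real.Angle) - ((arg (e.1 - x) : ℝ) : Real.Angle))).sum := by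
      intro l
      induction l with
      | nil => intro _; simp
      | cons e l ih =>
        intro hl
        rw [List.map_cons, List.map_cons, List.sum_cons, List.sum_cons, Real.Angle.coe_add,
          ih fun e' he' => hl e' (List.mem_cons_of_mem _ he')]
        congr 1
        have he := hl e List.mem_cons_self
        exact Complex.arg_div_coe_angle (w1_ne_right he) (w1_ne_left he)
    rw [key _ hseg]
    exact w1_telescope (fun v => ((arg (v - x) : ℝ) : Real.Angle)) V
  obtain ⟨n, hn⟩ := Real.Angle.coe_eq_zero_iff.1 hang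
  refine ⟨n, ?_⟩
  rw [← hn, zsmul_eq_mul]; ring

theorem w1_seg_closed (a b : ℂ) : IsClosed (segment ℝ a b) := by
  rw [segment_eq_image]
  exact (isCompact_Icc.image (by fun_prop)).isClosed

theorem curve_isClosed (V : List ℂ) : IsClosed (curve V) := by
  have e : curve V = ⋃ e ∈ {e | e ∈ cyc V}, segment ℝ e.1 e.2 := by
    ext x; simp [curve]
  rw [e]
  exact (List.finite_toSet (cyc V)).isClosed_biUnion fun e _ => w1_seg_closed _ _

theorem w1_wnd_cont {V : List ℂ} {x : ℂ} (h : x ∉ curve V) : ContinuousAt (fun y => wnd y V) x := by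
  have hseg : ∀ e ∈ cyc V, x ∉ segment ℝ e.1 e.2 := fun e he hx => h ⟨e, he, hx⟩
  unfold wnd
  have key : ∀ l : List (ℂ × ℂ), (∀ e ∈ l, x ∉ segment ℝ e.1 e.2) →
      ContinuousAt (fun y => (l.map (fun e => ang y e.1 e.2)).sum) x := by
    intro l
    induction l with
    | nil => intro _; simpa using continuousAt_const
    | cons e l ih =>
      intro hl
      simp only [List.map_cons, List.sum_cons]
      exact (ang_continuousAt (hl e List.mem_cons_self)).add
        (ih fun e' he' => hl e' (List.mem_cons_of_mem _ he'))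
  exact key _ hseg

theorem wnd_const {V : List ℂ} {S : Set ℂ} (hS : IsPreconnected S) (hd : Disjoint S (curve V))
    {x y : ℂ} (hx : x ∈ S) (hy : y ∈ S) : wnd x V = wnd y V := by
  have hnot : ∀ z ∈ S, z ∉ curve V := fun z hz hz' => Set.disjoint_left.1 hd hz hz'
  have hpi := Real.pi_pos
  have hc : ContinuousOn (fun z => wnd z V / (2 * Real.pi)) S := fun z hz =>
    ((w1_wnd_cont (hnot z hz)).div_const _).continuousWithinAt
  have hdisc : IsDiscrete (Set.range ((↑) : ℤ → ℝ)) := by
    rw [← Set.image_univ]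
    exact IsDiscrete.univ.image Int.isClosedEmbedding_coe_real.isInducing
  have hm : Set.MapsTo (fun z => wnd z V / (2 * Real.pi)) S (Set.range ((↑) : ℤ → ℝ)) := by
    intro z hz
    obtain ⟨k, hk⟩ := wnd_int (hnot z hz)
    refine ⟨k, ?_⟩
    simp only [hk]
    field_simp
  have := hS.constant_of_mapsTo hdisc hc hm hx hy
  field_simp at this
  exact this

theorem wnd_half {x u : ℂ} {V : List ℂ} (h : ∀ v ∈ V, 0 < ((v - x) * (starRingEnd ℂ) u).re) :
    wnd x V = 0 := by
  unfold wnd
  rw [← w1_telescope (fun v => arg ((v - x) * (starRingEnd ℂ) u)) V]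
  congr 1
  refine List.map_congr_left fun e he => ?_
  obtain ⟨h1, h2⟩ := w1_cyc_mem he
  have p1 := h e.1 h1
  have p2 := h e.2 h2
  set X := (e.2 - x) * (starRingEnd ℂ) u with hX
  set Y := (e.1 - x) * (starRingEnd ℂ) u with hY
  have hX0 : X ≠ 0 := by intro h0; rw [h0] at p2; simp at p2
  have hY0 : Y ≠ 0 := by intro h0; rw [h0] at p1; simp at p1
  have hu0 : (starRingEnd ℂ) u ≠ 0 := by
    intro h0; rw [hX, h0, mul_zero] at hX0; exact hX0 rfl
  have hq : (e.2 - x) / (e.1 - x) = X * Y⁻¹ := by
    have hne : e.1 - x ≠ 0 := by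
      intro h0; rw [hY, h0, zero_mul] at hY0; exact hY0 rfl
    rw [hX, hY, ← div_eq_mul_inv, mul_div_mul_right _ _ hu0]
  have aX := abs_lt.1 (Complex.abs_arg_lt_pi_div_two_iff.2 (Or.inl p2))
  have aY := abs_lt.1 (Complex.abs_arg_lt_pi_div_two_iff.2 (Or.inl p1))
  have hpi := Real.pi_pos
  have hYpi : arg Y ≠ Real.pi := by intro h0; rw [h0] at aY; linarith
  have hinv : arg Y⁻¹ = - arg Y := by rw [Complex.arg_inv, if_neg hYpi]
  unfold ang
  rw [hq, Complex.arg_mul hX0 (inv_ne_zero hY0), hinv]
  · ring
  · rw [hinv]; constructor <;> linarith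

theorem w1_cyc_rotate {α : Type*} (V : List α) (k : ℕ) : cyc (V.rotate k) = (cyc V).rotate k := by
  unfold cyc
  rw [List.rotate_rotate, add_comm k 1, ← List.rotate_rotate]
  have := List.zipWith_rotate_distrib Prod.mk V (V.rotate 1) k (by simp)
  simpa [List.zip] using this.symm

theorem wnd_rotate (x : ℂ) (V : List ℂ) (k : ℕ) : wnd x (V.rotate k) = wnd x V := by
  unfold wnd
  rw [w1_cyc_rotate]
  exact ((List.rotate_perm (cyc V) k).map _).sum_eq

theorem curve_rotate (V : List ℂ) (k : ℕ) : curve (V.rotate k) = curve V := by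
  unfold curve
  ext x
  simp only [w1_cyc_rotate, List.mem_rotate]

end

end Pool.Agent.Helper22.FC
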